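import Pool.Agent.BQ.A_Sol

/-!
(9.1) - (9.4): left divisors of norm `p` in the set `InL1`; the finite sets `L1S m` of integer
quaternions congruent to `1` modulo `2` of norm `m`.
-/

open Quaternion

namespace BQA

theorem inL1_one : InL1 1 := by
  refine ⟨?_, ?_, ?_, ?_⟩ <;> simp

theorem InL1.neg {a : ℍ[ℤ]} (ha : InL1 a) : InL1 (-a) := by
  obtain ⟨h1, h2, h3, h4⟩ := ha
  exact ⟨by simpa using h1, by simpa using h2, by simpa using h3, by simpa using h4⟩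

theorem inL1_neg {a : ℍ[ℤ]} : InL1 (-a) ↔ InL1 a :=
  ⟨fun h => by simpa using h.neg, InL1.neg⟩

theorem InL1.star {a : ℍ[ℤ]} (ha : InL1 a) : InL1 (star a) := by
  obtain ⟨h1, h2, h3, h4⟩ := ha
  exact ⟨by simpa using h1, by simpa using h2, by simpa using h3, by simpa using h4⟩

theorem inL1_star {a : ℍ[ℤ]} : InL1 (star a) ↔ InL1 a :=
  ⟨fun h => by simpa using h.star, InL1.star⟩

theorem InL1.mul {a b : ℍ[ℤ]} (ha : InL1 a) (hb : InL1 b) : InL1 (a * b) := by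
  obtain ⟨h1, h2, h3, h4⟩ := ha
  obtain ⟨k1, k2, k3, k4⟩ := hb
  rw [← Int.not_even_iff_odd] at h1 k1
  refine ⟨?_, ?_, ?_, ?_⟩
  · rw [← Int.not_even_iff_odd, Quaternion.re_mul]
    simp only [Int.even_sub, Int.even_mul]
    tauto
  · rw [Quaternion.imI_mul]
    simp only [Int.even_sub, Int.even_add, Int.even_mul]
    tauto
  · rw [Quaternion.imJ_mul]
    simp only [Int.even_sub, Int.even_add, Int.even_mul]
    tauto
  · rw [Quaternion.imK_mul]
    simp only [Int.even_sub, Int.even_add, Int.even_mul]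
    tauto

theorem InL1.of_smul {m : ℤ} (hm : Odd m) {a : ℍ[ℤ]} (h : InL1 (m • a)) : InL1 a := by
  obtain ⟨k1, k2, k3, k4⟩ := h
  rw [re_zs] at k1
  rw [imI_zs] at k2
  rw [imJ_zs] at k3
  rw [imK_zs] at k4
  rw [Int.odd_mul] at k1
  rw [Int.even_mul] at k2 k3 k4
  rw [← Int.not_even_iff_odd] at hm
  refine ⟨k1.2, ?_, ?_, ?_⟩ <;> tauto

theorem InL1.smul {m : ℤ} (hm : Odd m) {a : ℍ[ℤ]} (h : InL1 a) : InL1 (m • a) := by
  obtain ⟨k1, k2, k3, k4⟩ := h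
  refine ⟨?_, ?_, ?_, ?_⟩
  · rw [re_zs]; exact hm.mul k1
  · rw [imI_zs]; exact k2.mul_left _
  · rw [imJ_zs]; exact k3.mul_left _
  · rw [imK_zs]; exact k4.mul_left _

theorem InL1.odd_nq {a : ℍ[ℤ]} (ha : InL1 a) : Odd (normSq a) := by
  obtain ⟨h1, h2, h3, h4⟩ := ha
  rw [nq_eq]
  have e1 : Odd (a.re ^ 2) := h1.pow
  have e2 : Even (a.imI ^ 2) := h2.pow_of_ne_zero (by norm_num)
  have e3 : Even (a.imJ ^ 2) := h3.pow_of_ne_zero (by norm_num)
  have e4 : Even (a.imK ^ 2) := h4.pow_of_ne_zero (by norm_num)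
  exact ((e1.add_even e2).add_even e3).add_even e4

theorem InL1.of_mul {a b : ℍ[ℤ]} (ha : InL1 a) (hab : InL1 (a * b)) : InL1 b := by
  have h1 : InL1 (Star.star a * (a * b)) := ha.star.mul hab
  rw [← mul_assoc, star_mul_self_smul] at h1
  exact h1.of_smul ha.odd_nq

theorem inL1_unit {w : ℍ[ℤ]} (hw : InL1 w) (h : normSq w = 1) : w = 1 ∨ w = -1 := by
  obtain ⟨⟨a, ha⟩, ⟨b, hb⟩, ⟨c, hc⟩, ⟨d, hd⟩⟩ := hw
  rw [nq_eq] at h
  have h1 : w.re ^ 2 ≤ 1 := by nlinarith [sq_nonneg w.imI, sq_nonneg w.imJ, sq_nonneg w.imK]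
  have h2 : w.imI ^ 2 ≤ 1 := by nlinarith [sq_nonneg w.re, sq_nonneg w.imJ, sq_nonneg w.imK]
  have h3 : w.imJ ^ 2 ≤ 1 := by nlinarith [sq_nonneg w.re, sq_nonneg w.imI, sq_nonneg w.imK]
  have h4 : w.imK ^ 2 ≤ 1 := by nlinarith [sq_nonneg w.re, sq_nonneg w.imI, sq_nonneg w.imJ]
  have e2 : w.imI = 0 := by
    have : -1 ≤ w.imI ∧ w.imI ≤ 1 := ⟨by nlinarith, by nlinarith⟩
    omega
  have e3 : w.imJ = 0 := by
    have : -1 ≤ w.imJ ∧ w.imJ ≤ 1 := ⟨by nlinarith, by nlinarith⟩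
    omega
  have e4 : w.imK = 0 := by
    have : -1 ≤ w.imK ∧ w.imK ≤ 1 := ⟨by nlinarith, by nlinarith⟩
    omega
  have e1 : w.re = 1 ∨ w.re = -1 := by
    have : -1 ≤ w.re ∧ w.re ≤ 1 := ⟨by nlinarith, by nlinarith⟩
    omega
  rcases e1 with e1 | e1
  · left
    exact qext (by rw [e1]; rfl) (by rw [e2]; rfl) (by rw [e3]; rfl) (by rw [e4]; rfl)
  · right
    exact qext (by rw [e1]; rfl) (by rw [e2]; rfl) (by rw [e3]; rfl) (by rw [e4]; rfl)

/-- a left divisor of norm `p` divides -/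
theorem left_factor {p : ℤ} (hp : p ≠ 0) {z q : ℍ[ℤ]} (hz : normSq z = p)
    (h : DV p (star z * q)) : ∃ w : ℍ[ℤ], q = z * w ∧ normSq q = p * normSq w := by
  obtain ⟨w, hw⟩ := h
  have h1 : p • q = p • (z * w) := by
    rw [← mul_smul_comm, ← hw, ← mul_assoc, self_mul_star_smul, hz]
  have h2 : q = z * w := smul_cancel hp h1
  exact ⟨w, h2, by rw [h2, map_mul, hz]⟩

theorem left_factor_iff {p : ℤ} (hp : p ≠ 0) {z q : ℍ[ℤ]} (hz : normSq z = p) :
    DV p (star z * q) ↔ ∃ w : ℍ[ℤ], q = z * w := by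
  constructor
  · intro h
    obtain ⟨w, hw, -⟩ := left_factor hp hz h
    exact ⟨w, hw⟩
  · rintro ⟨w, rfl⟩
    rw [← mul_assoc, star_mul_self_smul, hz]
    exact dv_smul_self _ _

/-- (9.1) -/
theorem eq_or_eq_neg {p : ℤ} (hp : p ≠ 0) {q q' : ℍ[ℤ]} (hq : InL1 q) (hq' : InL1 q')
    (hN : normSq q = p) (hN' : normSq q' = p) (h : DV p (star q * q')) :
    q' = q ∨ q' = -q := by
  obtain ⟨w, hw, hw'⟩ := left_factor hp hN h
  have h1 : normSq w = 1 := by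
    rw [hN'] at hw'
    have : p * 1 = p * normSq w := by rw [mul_one]; exact hw'
    exact (mul_left_cancel₀ hp this).symm
  have h2 : InL1 w := hq.of_mul (by rw [← hw]; exact hq')
  rcases inL1_unit h2 h1 with h3 | h3
  · left; rw [hw, h3, mul_one]
  · right; rw [hw, h3, mul_neg, mul_one]

theorem exists_unit_L1 {z : ℍ[ℤ]} (hz : normSq z % 4 = 1) :
    ∃ u : ℍ[ℤ], normSq u = 1 ∧ InL1 (z * u) := by
  have key : ∀ a : ℤ, (Even a ∧ a ^ 2 % 4 = 0) ∨ (¬ Even a ∧ a ^ 2 % 4 = 1) := by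
    intro a
    rcases Int.even_or_odd' a with ⟨k, hk | hk⟩
    · left
      refine ⟨⟨k, by omega⟩, ?_⟩
      have : a ^ 2 = 4 * k ^ 2 := by rw [hk]; ring
      omega
    · right
      refine ⟨by rw [Int.not_even_iff_odd]; exact ⟨k, hk⟩, ?_⟩
      have : a ^ 2 = 4 * (k ^ 2 + k) + 1 := by rw [hk]; ring
      omega
  rw [nq_eq] at hz
  rcases key z.re with ⟨a1, a2⟩ | ⟨a1, a2⟩ <;> rcases key z.imI with ⟨b1, b2⟩ | ⟨b1, b2⟩ <;>
    rcases key z.imJ with ⟨c1, c2⟩ | ⟨c1, c2⟩ <;> rcases key z.imK with ⟨d1, d2⟩ | ⟨d1, d2⟩ <;>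
    first
    | (exfalso; omega)
    | (refine ⟨1, by simp, ?_⟩
       rw [mul_one]
       rw [Int.not_even_iff_odd] at a1
       exact ⟨a1, b1, c1, d1⟩)
    | (refine ⟨mk4 0 1 0 0, by rw [nq_eq]; simp, ?_⟩
       unfold InL1
       simp only [Quaternion.re_mul, Quaternion.imI_mul, Quaternion.imJ_mul,
         Quaternion.imK_mul, mk4_re, mk4_imI, mk4_imJ, mk4_imK, ← Int.not_even_iff_odd]
       refine ⟨?_, ?_, ?_, ?_⟩ <;> ring_nf <;> (try simp only [even_neg]) <;> assumption)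
    | (refine ⟨mk4 0 0 1 0, by rw [nq_eq]; simp, ?_⟩
       unfold InL1
       simp only [Quaternion.re_mul, Quaternion.imI_mul, Quaternion.imJ_mul,
         Quaternion.imK_mul, mk4_re, mk4_imI, mk4_imJ, mk4_imK, ← Int.not_even_iff_odd]
       refine ⟨?_, ?_, ?_, ?_⟩ <;> ring_nf <;> (try simp only [even_neg]) <;> assumption)
    | (refine ⟨mk4 0 0 0 1, by rw [nq_eq]; simp, ?_⟩
       unfold InL1
       simp only [Quaternion.re_mul, Quaternion.imI_mul, Quaternion.imJ_mul,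
         Quaternion.imK_mul, mk4_re, mk4_imI, mk4_imJ, mk4_imK, ← Int.not_even_iff_odd]
       refine ⟨?_, ?_, ?_, ?_⟩ <;> ring_nf <;> (try simp only [even_neg]) <;> assumption)

/-- (9.2), with the divisor congruent to `1` modulo `2` -/
theorem exists_L1_divisor {p : ℤ} (hp : Prime p) (hp0 : 0 < p) (h4 : p % 4 = 1) {q : ℍ[ℤ]}
    (hq : ¬ DV p q) (hN : p ∣ normSq q) :
    ∃ z : ℍ[ℤ], InL1 z ∧ normSq z = p ∧ DV p (star z * q) := by
  have h2 : ¬ p ∣ 2 := by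
    intro h
    have := Int.le_of_dvd (by norm_num) h
    have hne : p ≠ 1 := fun h1 => hp.not_isUnit (by rw [h1]; exact isUnit_one)
    omega
  obtain ⟨z, hz, hzq⟩ := exists_prime_divisor hp hp0 h2 hq hN
  obtain ⟨u, hu, hzu⟩ := exists_unit_L1 (z := z) (by rw [hz]; exact h4)
  refine ⟨z * u, hzu, by rw [map_mul, hz, hu, mul_one], ?_⟩
  rw [star_mul, mul_assoc]
  exact hzq.mul_left _

theorem not_dv_two {p : ℤ} (hp : Prime p) (hp0 : 0 < p) (h4 : p % 4 = 1) : ¬ p ∣ 2 := by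
  intro h
  have := Int.le_of_dvd (by norm_num) h
  have hne : p ≠ 1 := fun h1 => hp.not_isUnit (by rw [h1]; exact isUnit_one)
  omega

theorem L1S_finite (m : ℤ) : {q : ℍ[ℤ] | InL1 q ∧ normSq q = m}.Finite := by
  have hinj : Function.Injective (fun q : ℍ[ℤ] => (q.re, q.imI, q.imJ, q.imK)) := by
    intro a b h
    simp only [Prod.mk.injEq] at h
    exact qext h.1 h.2.1 h.2.2.1 h.2.2.2
  have hfin : (Set.Icc (-|m|) |m| ×ˢ Set.Icc (-|m|) |m| ×ˢ Set.Icc (-|m|) |m| ×ˢ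
      Set.Icc (-|m|) |m| : Set (ℤ × ℤ × ℤ × ℤ)).Finite :=
    (Set.finite_Icc _ _).prod ((Set.finite_Icc _ _).prod ((Set.finite_Icc _ _).prod
      (Set.finite_Icc _ _)))
  refine (hfin.preimage hinj.injOn).subset ?_
  rintro q ⟨-, hq⟩
  rw [nq_eq] at hq
  have hb : ∀ a : ℤ, a ^ 2 ≤ m → -|m| ≤ a ∧ a ≤ |m| := by
    intro a ha
    have h1 : |a| ≤ |m| := by
      have h2 : |a| ≤ a ^ 2 := by
        rw [← sq_abs]
        rcases (abs_nonneg a).eq_or_lt with h | h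
        · rw [← h]; norm_num
        · nlinarith
      exact (h2.trans ha).trans (le_abs_self m)
    exact abs_le.1 h1
  have h1 := hb q.re (by nlinarith [sq_nonneg q.imI, sq_nonneg q.imJ, sq_nonneg q.imK])
  have h2 := hb q.imI (by nlinarith [sq_nonneg q.re, sq_nonneg q.imJ, sq_nonneg q.imK])
  have h3 := hb q.imJ (by nlinarith [sq_nonneg q.re, sq_nonneg q.imI, sq_nonneg q.imK])
  have h4 := hb q.imK (by nlinarith [sq_nonneg q.re, sq_nonneg q.imI, sq_nonneg q.imJ])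
  exact ⟨h1, h2, h3, h4⟩

/-- integer quaternions congruent to `1` modulo `2` of norm `m` -/
noncomputable def L1S (m : ℤ) : Finset ℍ[ℤ] := (L1S_finite m).toFinset

@[simp] theorem mem_L1S {m : ℤ} {q : ℍ[ℤ]} : q ∈ L1S m ↔ InL1 q ∧ normSq q = m := by
  simp [L1S]

/-- (9.4), first case: exactly two left divisors -/
theorem card_divisors_prim {p : ℤ} (hp : Prime p) (hp0 : 0 < p) (h4 : p % 4 = 1) {q : ℍ[ℤ]}
    (hq : ¬ DV p q) (hN : p ∣ normSq q) [DecidablePred fun z : ℍ[ℤ] => DV p (star z * q)] :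
    ((L1S p).filter (fun z => DV p (star z * q))).card = 2 := by
  classical
  obtain ⟨z, hz1, hz2, hz3⟩ := exists_L1_divisor hp hp0 h4 hq hN
  have hne : z ≠ -z := by
    intro h
    have h1 := congrArg QuaternionAlgebra.re h
    have h2 : z.re = -z.re := h1
    obtain ⟨k, hk⟩ := hz1.1
    omega
  have : (L1S p).filter (fun z => DV p (star z * q)) = {z, -z} := by
    ext y
    rw [Finset.mem_filter, mem_L1S, Finset.mem_insert, Finset.mem_singleton]
    constructor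
    · rintro ⟨⟨hy1, hy2⟩, hy3⟩
      have h5 := dv_star_mul_of_common hp (not_dv_two hp hp0 h4) hq hz3 hy3
      exact eq_or_eq_neg hp0.ne' hz1 hy1 hz2 hy2 h5
    · rintro (rfl | rfl)
      · exact ⟨⟨hz1, hz2⟩, hz3⟩
      · refine ⟨⟨hz1.neg, by rw [Quaternion.normSq_neg, hz2]⟩, ?_⟩
        rw [star_neg, neg_mul]
        exact hz3.neg
  rw [this, Finset.card_pair hne]

end BQA
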