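import Pool.Agent.BQ.A_Cls

/-!
(9.3): there are `2 (p + 1)` integer quaternions congruent to `1` modulo `2` of norm `p`
(`p` a prime congruent to `1` modulo `4`).
-/

open Quaternion

namespace BQA

section mat

variable {p : ℕ} [Fact p.Prime] (io : ZMod p)

/-- entries of the matrix of `q` -/
def m11 (q : ℍ[ℤ]) : ZMod p := (q.re : ZMod p) + io * (q.imI : ZMod p)
/-- entries of the matrix of `q` -/
def m12 (q : ℍ[ℤ]) : ZMod p := (q.imJ : ZMod p) + io * (q.imK : ZMod p)
/-- entries of the matrix of `q` -/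
def m21 (q : ℍ[ℤ]) : ZMod p := -(q.imJ : ZMod p) + io * (q.imK : ZMod p)
/-- entries of the matrix of `q` -/
def m22 (q : ℍ[ℤ]) : ZMod p := (q.re : ZMod p) - io * (q.imI : ZMod p)

variable {io}

theorem m11_mul (h : io ^ 2 = -1) (q x : ℍ[ℤ]) :
    m11 io (q * x) = m11 io q * m11 io x + m12 io q * m21 io x := by
  simp only [m11, m12, m21, Quaternion.re_mul, Quaternion.imI_mul]
  push_cast
  linear_combination (-(q.imI : ZMod p) * x.imI - (q.imK : ZMod p) * x.imK) * h

theorem m12_mul (h : io ^ 2 = -1) (q x : ℍ[ℤ]) :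
    m12 io (q * x) = m11 io q * m12 io x + m12 io q * m22 io x := by
  simp only [m11, m12, m22, Quaternion.imJ_mul, Quaternion.imK_mul]
  push_cast
  linear_combination (-(q.imI : ZMod p) * x.imK + (q.imK : ZMod p) * x.imI) * h

theorem m21_mul (h : io ^ 2 = -1) (q x : ℍ[ℤ]) :
    m21 io (q * x) = m21 io q * m11 io x + m22 io q * m21 io x := by
  simp only [m11, m22, m21, Quaternion.imJ_mul, Quaternion.imK_mul]
  push_cast
  linear_combination (-(q.imK : ZMod p) * x.imI + (q.imI : ZMod p) * x.imK) * h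

theorem m22_mul (h : io ^ 2 = -1) (q x : ℍ[ℤ]) :
    m22 io (q * x) = m21 io q * m12 io x + m22 io q * m22 io x := by
  simp only [m12, m22, m21, Quaternion.re_mul, Quaternion.imI_mul]
  push_cast
  linear_combination (-(q.imI : ZMod p) * x.imI - (q.imK : ZMod p) * x.imK) * h

theorem m11_star (q : ℍ[ℤ]) : m11 io (star q) = m22 io q := by
  simp only [m11, m22, Quaternion.re_star, Quaternion.imI_star]
  push_cast; ring

theorem m22_star (q : ℍ[ℤ]) : m22 io (star q) = m11 io q := by
  simp only [m11, m22, Quaternion.re_star, Quaternion.imI_star]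
  push_cast; ring

theorem m12_star (q : ℍ[ℤ]) : m12 io (star q) = -m12 io q := by
  simp only [m12, Quaternion.imJ_star, Quaternion.imK_star]
  push_cast; ring

theorem m21_star (q : ℍ[ℤ]) : m21 io (star q) = -m21 io q := by
  simp only [m21, Quaternion.imJ_star, Quaternion.imK_star]
  push_cast; ring

theorem det_eq (h : io ^ 2 = -1) (q : ℍ[ℤ]) :
    m11 io q * m22 io q - m12 io q * m21 io q = ((normSq q : ℤ) : ZMod p) := by
  rw [nq_eq]
  simp only [m11, m12, m22, m21]
  push_cast
  linear_combination (-(q.imI : ZMod p) ^ 2 - (q.imK : ZMod p) ^ 2) * h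

theorem io_ne_zero (h : io ^ 2 = -1) : io ≠ 0 := by
  rintro rfl
  norm_num at h

theorem dv_iff_mat (h : io ^ 2 = -1) (h2 : (2 : ZMod p) ≠ 0) (q : ℍ[ℤ]) :
    DV (p : ℤ) q ↔ m11 io q = 0 ∧ m12 io q = 0 ∧ m21 io q = 0 ∧ m22 io q = 0 := by
  rw [dv_iff]
  have hd : ∀ a : ℤ, (p : ℤ) ∣ a ↔ (a : ZMod p) = 0 := fun a =>
    (ZMod.intCast_zmod_eq_zero_iff_dvd a p).symm
  rw [hd, hd, hd, hd]
  have hio := io_ne_zero h
  simp only [m11, m12, m22, m21]
  constructor
  · rintro ⟨h1, h2, h3, h4⟩
    rw [h1, h2, h3, h4]; simp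
  · rintro ⟨h1, h2', h3, h4⟩
    have e1 : (2 : ZMod p) * (q.re : ZMod p) = 0 := by linear_combination h1 + h4
    have e2 : (2 : ZMod p) * (io * (q.imI : ZMod p)) = 0 := by linear_combination h1 - h4
    have e3 : (2 : ZMod p) * (q.imJ : ZMod p) = 0 := by linear_combination h2' - h3
    have e4 : (2 : ZMod p) * (io * (q.imK : ZMod p)) = 0 := by linear_combination h2' + h3
    refine ⟨(mul_eq_zero.1 e1).resolve_left h2, ?_, (mul_eq_zero.1 e3).resolve_left h2, ?_⟩
    · exact (mul_eq_zero.1 ((mul_eq_zero.1 e2).resolve_left h2)).resolve_left hio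
    · exact (mul_eq_zero.1 ((mul_eq_zero.1 e4).resolve_left h2)).resolve_left hio

/-- a quaternion with prescribed matrix -/
theorem exists_mat (h : io ^ 2 = -1) (h2 : (2 : ZMod p) ≠ 0) (a b c d : ZMod p) :
    ∃ q : ℍ[ℤ], m11 io q = a ∧ m12 io q = b ∧ m21 io q = c ∧ m22 io q = d := by
  have hio := io_ne_zero h
  have lift : ∀ x : ZMod p, ∃ k : ℤ, (k : ZMod p) = x := fun x => ⟨x.cast, by simp⟩
  obtain ⟨x, hx⟩ := lift ((a + d) / 2)
  obtain ⟨y, hy⟩ := lift ((a - d) / (2 * io))
  obtain ⟨z, hz⟩ := lift ((b - c) / 2)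
  obtain ⟨w, hw⟩ := lift ((b + c) / (2 * io))
  refine ⟨mk4 x y z w, ?_, ?_, ?_, ?_⟩
  · simp only [m11, mk4_re, mk4_imI, hx, hy]; field_simp; ring
  · simp only [m12, mk4_imJ, mk4_imK, hz, hw]; field_simp; ring
  · simp only [m21, mk4_imJ, mk4_imK, hz, hw]; field_simp; ring
  · simp only [m22, mk4_re, mk4_imI, hx, hy]; field_simp; ring

end mat

/-- (9.3) -/
theorem card_L1S_prime {p : ℕ} (hp : p.Prime) (h4 : p % 4 = 1) :
    (L1S (p : ℤ)).card = 2 * (p + 1) := by
  classical
  have : Fact p.Prime := ⟨hp⟩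
  have hpZ : Prime (p : ℤ) := Nat.prime_iff_prime_int.1 hp
  have hp0 : (0 : ℤ) < p := by exact_mod_cast hp.pos
  have h4' : (p : ℤ) % 4 = 1 := by omega
  have h2Z := not_dv_two hpZ hp0 h4'
  have h2 : (2 : ZMod p) ≠ 0 := by
    intro h
    apply h2Z
    rw [← ZMod.intCast_zmod_eq_zero_iff_dvd]
    exact_mod_cast h
  obtain ⟨io, hio⟩ : ∃ io : ZMod p, io ^ 2 = -1 := by
    have : IsSquare (-1 : ZMod p) := ZMod.exists_sq_eq_neg_one_iff.2 (by omega)
    obtain ⟨r, hr⟩ := this
    exact ⟨r, by rw [sq, ← hr]⟩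
  -- representatives of the classes
  have hex : ∀ c : Option (ZMod p), ∃ T z : ℍ[ℤ], InL1 z ∧ normSq z = p ∧ DV p (star z * T) ∧
      ¬ DV p T ∧ m12 io T = 0 ∧ m22 io T = 0 ∧
      (∀ t, c = some t → m11 io T = 1 ∧ m21 io T = t) ∧
      (c = none → m11 io T = 0 ∧ m21 io T = 1) := by
    intro c
    obtain ⟨T, h1, h2', h3, h5⟩ := exists_mat hio h2
      (match c with | none => 0 | some _ => 1) 0 (match c with | none => 1 | some t => t) 0
    have hT : ¬ DV p T := by
      rw [dv_iff_mat hio h2]
      rintro ⟨g1, g2, g3, g4⟩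
      cases c with
      | none => rw [h3] at g3; exact one_ne_zero g3
      | some t => rw [h1] at g1; exact one_ne_zero g1
    have hN : (p : ℤ) ∣ normSq T := by
      rw [← ZMod.intCast_zmod_eq_zero_iff_dvd, ← det_eq hio, h2', h5]
      ring
    obtain ⟨z, hz1, hz2, hz3⟩ := exists_L1_divisor hpZ hp0 h4' hT hN
    refine ⟨T, z, hz1, hz2, hz3, hT, h2', h5, ?_, ?_⟩
    · rintro t rfl
      exact ⟨h1, h3⟩
    · rintro rfl
      exact ⟨h1, h3⟩
  choose T z hz1 hz2 hz3 hT hT12 hT22 hTs hTn using hex
  -- distinct representatives are not related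
  have huniq : ∀ c c', DV p (star (T c) * T c') → c = c' := by
    intro c c' h
    rw [dv_iff_mat hio h2] at h
    obtain ⟨g1, -, g3, -⟩ := h
    rw [m11_mul hio, m11_star, m12_star, hT22, hT12] at g1
    rw [m21_mul hio, m21_star, m22_star] at g3
    cases c with
    | none =>
      obtain ⟨a1, a2⟩ := hTn none rfl
      rw [a1, a2] at g3
      cases c' with
      | none => rfl
      | some t' =>
        obtain ⟨b1, b2⟩ := hTs (some t') t' rfl
        rw [b1, b2] at g3
        simp at g3
    | some t =>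
      obtain ⟨a1, a2⟩ := hTs (some t) t rfl
      rw [a1, a2] at g3
      cases c' with
      | none =>
        obtain ⟨b1, b2⟩ := hTn none rfl
        rw [b1, b2] at g3
        simp at g3
      | some t' =>
        obtain ⟨b1, b2⟩ := hTs (some t') t' rfl
        rw [b1, b2] at g3
        congr 1
        linear_combination -g3
  -- every primitive isotropic quaternion is related to a representative
  have hclass : ∀ x : ℍ[ℤ], ¬ DV p x → (p : ℤ) ∣ normSq x → ∃ c, DV p (star (T c) * x) := by
    intro x hx hN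
    have hdet : m11 io x * m22 io x - m12 io x * m21 io x = 0 := by
      rw [det_eq hio]
      exact (ZMod.intCast_zmod_eq_zero_iff_dvd _ p).2 hN
    by_cases h0 : m11 io x = 0 ∧ m12 io x = 0
    · refine ⟨none, ?_⟩
      obtain ⟨a1, a2⟩ := hTn none rfl
      rw [dv_iff_mat hio h2, m11_mul hio, m12_mul hio, m21_mul hio, m22_mul hio, m11_star,
        m12_star, m21_star, m22_star, hT12, hT22, a1, a2, h0.1, h0.2]
      refine ⟨?_, ?_, ?_, ?_⟩ <;> ring
    · obtain ⟨t, ht1, ht2⟩ : ∃ t, m21 io x = t * m11 io x ∧ m22 io x = t * m12 io x := by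
        by_cases h11 : m11 io x = 0
        · have h12 : m12 io x ≠ 0 := fun h => h0 ⟨h11, h⟩
          refine ⟨m22 io x / m12 io x, ?_, by field_simp⟩
          rw [h11] at hdet ⊢
          have : m12 io x * m21 io x = 0 := by linear_combination -hdet
          rw [mul_zero]
          exact (mul_eq_zero.1 this).resolve_left h12
        · refine ⟨m21 io x / m11 io x, by field_simp, ?_⟩
          field_simp
          linear_combination hdet
      refine ⟨some t, ?_⟩
      obtain ⟨a1, a2⟩ := hTs (some t) t rfl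
      rw [dv_iff_mat hio h2, m11_mul hio, m12_mul hio, m21_mul hio, m22_mul hio, m11_star,
        m12_star, m21_star, m22_star, hT12, hT22, a1, a2, ht1, ht2]
      refine ⟨?_, ?_, ?_, ?_⟩ <;> ring
  -- the bijection
  have hnz : ∀ c, ¬ DV p (z c) := by
    intro c h
    have := nq_dvd_of_dv h
    rw [hz2] at this
    have h5 : (p : ℤ) * p ∣ p * 1 := by rw [← sq, mul_one]; exact this
    have h6 := (mul_dvd_mul_iff_left hp0.ne').1 h5
    exact hpZ.not_isUnit (isUnit_of_dvd_one h6)
  have hrel : ∀ c c', DV p (star (z c) * z c') → c = c' := by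
    intro c c' h
    apply huniq
    -- `star (z c') * T c` and `star (z c') * T c'`
    have h1 : DV p (star (z c') * T c) := by
      have e := (hz3 c)
      -- from `star (z c) * T c` and `star (z c) * z c'` we get `star (T c) * z c'`
      have h3 := h.star
      rw [star_mul, star_star] at h3
      have h5 := e.star
      rw [star_mul, star_star] at h5
      -- `star (z c') * z c`, `star (T c) * z c`
      exact dv_star_mul_of_common hpZ h2Z (hnz c) h3 h5
    have h2' : DV p (star (T c) * z c') := by simpa using h1.star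
    have h3 : DV p (star (T c') * z c') := by
      have := (hz3 c').star
      simpa using this
    exact dv_star_mul_of_common hpZ h2Z (hnz c') h2' h3
  have hcard : (Finset.univ : Finset (Option (ZMod p) × Bool)).card = (L1S (p : ℤ)).card := by
    apply Finset.card_bij (fun a _ => if a.2 then z a.1 else - z a.1)
    · rintro ⟨c, b⟩ -
      rw [mem_L1S]
      cases b
      · exact ⟨by simpa using (hz1 c).neg, by simp [hz2]⟩
      · exact ⟨by simpa using hz1 c, by simp [hz2]⟩
    · rintro ⟨c, b⟩ - ⟨c', b'⟩ - h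
      simp only at h
      have hzz : DV p (star (z c) * z c') := by
        have hself : DV p (star (z c) * z c) :=
          (left_factor_iff hp0.ne' (hz2 c)).2 ⟨1, (mul_one _).symm⟩
        cases b <;> cases b' <;> simp at h
        · rw [← h]; exact hself
        · rw [← h, mul_neg]; exact hself.neg
        · have : z c' = - z c := by rw [h, neg_neg]
          rw [this, mul_neg]; exact hself.neg
        · rw [← h]; exact hself
      have hcc := hrel c c' hzz
      subst hcc
      have hne : z c ≠ - z c := by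
        intro h
        have h1 : (z c).re = -(z c).re := congrArg QuaternionAlgebra.re h
        obtain ⟨k, hk⟩ := (hz1 c).1
        omega
      cases b <;> cases b' <;> simp at h
      · rfl
      · exact absurd h.symm hne
      · exact absurd h hne
      · rfl
    · intro q hq
      rw [mem_L1S] at hq
      obtain ⟨hq1, hq2⟩ := hq
      have hqn : ¬ DV p q := by
        intro h
        have := nq_dvd_of_dv h
        rw [hq2] at this
        have h5 : (p : ℤ) * p ∣ p * 1 := by rw [← sq, mul_one]; exact this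
        have h6 := (mul_dvd_mul_iff_left hp0.ne').1 h5
        exact hpZ.not_isUnit (isUnit_of_dvd_one h6)
      obtain ⟨c, hc⟩ := hclass q hqn (by rw [hq2])
      have h1 : DV p (star (z c) * q) := by
        -- `star (T c) * q` gives `star q * T c`; with `star (z c) * T c`
        have h3 : DV p (star q * T c) := by simpa using hc.star
        exact dv_star_mul_of_common hpZ h2Z (hT c) (hz3 c) h3
      rcases eq_or_eq_neg hp0.ne' (hz1 c) hq1 (hz2 c) hq2 h1 with h3 | h3
      · exact ⟨(c, true), Finset.mem_univ _, by simp [h3]⟩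
      · exact ⟨(c, false), Finset.mem_univ _, by simp [h3]⟩
  rw [← hcard, Finset.card_univ, Fintype.card_prod, Fintype.card_option, ZMod.card,
    Fintype.card_bool]
  ring

end BQA
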