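import Mathlib

/-!
Integer quaternions modulo a prime `p` (paper BQ/PAPER.md, section 3).
`DV m x`: the integer `m` divides all coordinates of the integer quaternion `x`.
`InL1 q`: `q` is congruent to `1` modulo `2`.
-/

open Quaternion

namespace BQA

/-- `m` divides the integer quaternion `x` -/
def DV (m : ℤ) (x : ℍ[ℤ]) : Prop := ∃ y : ℍ[ℤ], x = m • y

/-- integer quaternions congruent to `1` modulo `2` -/
def InL1 (q : ℍ[ℤ]) : Prop := Odd q.re ∧ Even q.imI ∧ Even q.imJ ∧ Even q.imK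

/-- the quaternion with given coordinates -/
def mk4 {R : Type*} [Zero R] [One R] [Neg R] (a b c d : R) : ℍ[R] := ⟨a, b, c, d⟩

@[simp] theorem mk4_re {R : Type*} [Zero R] [One R] [Neg R] (a b c d : R) :
    (mk4 a b c d).re = a := rfl
@[simp] theorem mk4_imI {R : Type*} [Zero R] [One R] [Neg R] (a b c d : R) :
    (mk4 a b c d).imI = b := rfl
@[simp] theorem mk4_imJ {R : Type*} [Zero R] [One R] [Neg R] (a b c d : R) :
    (mk4 a b c d).imJ = c := rfl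
@[simp] theorem mk4_imK {R : Type*} [Zero R] [One R] [Neg R] (a b c d : R) :
    (mk4 a b c d).imK = d := rfl

theorem qext {R : Type*} [CommRing R] {a b : ℍ[R]} (h1 : a.re = b.re)
    (h2 : a.imI = b.imI) (h3 : a.imJ = b.imJ) (h4 : a.imK = b.imK) : a = b :=
  Quaternion.ext _ _ h1 h2 h3 h4

theorem re_zs (m : ℤ) (x : ℍ[ℤ]) : (m • x).re = m * x.re := by simp

theorem imI_zs (m : ℤ) (x : ℍ[ℤ]) : (m • x).imI = m * x.imI := by simp

theorem imJ_zs (m : ℤ) (x : ℍ[ℤ]) : (m • x).imJ = m * x.imJ := by simp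

theorem imK_zs (m : ℤ) (x : ℍ[ℤ]) : (m • x).imK = m * x.imK := by simp

theorem dv_iff (m : ℤ) (x : ℍ[ℤ]) :
    DV m x ↔ m ∣ x.re ∧ m ∣ x.imI ∧ m ∣ x.imJ ∧ m ∣ x.imK := by
  constructor
  · rintro ⟨y, rfl⟩
    simp
  · rintro ⟨⟨a, ha⟩, ⟨b, hb⟩, ⟨c, hc⟩, ⟨d, hd⟩⟩
    refine ⟨mk4 a b c d, qext ?_ ?_ ?_ ?_⟩
    · rw [re_zs, ha, mk4_re]
    · rw [imI_zs, hb, mk4_imI]
    · rw [imJ_zs, hc, mk4_imJ]
    · rw [imK_zs, hd, mk4_imK]

/-- multiplication by an integer, seen as a quaternion -/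
theorem coe_mul_eq (c : ℤ) (y : ℍ[ℤ]) : (Quaternion.coe c : ℍ[ℤ]) * y = c • y := by
  refine qext ?_ ?_ ?_ ?_
  · rw [re_zs]; simp
  · rw [imI_zs]; simp
  · rw [imJ_zs]; simp
  · rw [imK_zs]; simp

theorem mul_coe_eq (c : ℤ) (y : ℍ[ℤ]) : y * (Quaternion.coe c : ℍ[ℤ]) = c • y := by
  refine qext ?_ ?_ ?_ ?_
  · rw [re_zs]; simp [mul_comm]
  · rw [imI_zs]; simp [mul_comm]
  · rw [imJ_zs]; simp [mul_comm]
  · rw [imK_zs]; simp [mul_comm]

theorem dv_iff_dvd (m : ℤ) (x : ℍ[ℤ]) : DV m x ↔ ((m : ℤ) : ℍ[ℤ]) ∣ x := by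
  constructor
  · rintro ⟨y, rfl⟩
    refine ⟨y, ?_⟩
    ext <;> simp
  · rintro ⟨y, rfl⟩
    refine ⟨y, ?_⟩
    ext <;> simp

theorem DV.add {m : ℤ} {x y : ℍ[ℤ]} (hx : DV m x) (hy : DV m y) : DV m (x + y) := by
  obtain ⟨a, rfl⟩ := hx
  obtain ⟨b, rfl⟩ := hy
  exact ⟨a + b, by rw [smul_add]⟩

theorem DV.sub {m : ℤ} {x y : ℍ[ℤ]} (hx : DV m x) (hy : DV m y) : DV m (x - y) := by
  obtain ⟨a, rfl⟩ := hx
  obtain ⟨b, rfl⟩ := hy
  exact ⟨a - b, by rw [smul_sub]⟩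

theorem DV.neg {m : ℤ} {x : ℍ[ℤ]} (hx : DV m x) : DV m (-x) := by
  obtain ⟨a, rfl⟩ := hx
  exact ⟨-a, by rw [smul_neg]⟩

theorem dv_neg {m : ℤ} {x : ℍ[ℤ]} : DV m (-x) ↔ DV m x :=
  ⟨fun h => by simpa using h.neg, DV.neg⟩

theorem DV.mul_left {m : ℤ} {x : ℍ[ℤ]} (hx : DV m x) (a : ℍ[ℤ]) : DV m (a * x) := by
  obtain ⟨y, rfl⟩ := hx
  exact ⟨a * y, by rw [mul_smul_comm]⟩

theorem DV.mul_right {m : ℤ} {x : ℍ[ℤ]} (hx : DV m x) (a : ℍ[ℤ]) : DV m (x * a) := by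
  obtain ⟨y, rfl⟩ := hx
  exact ⟨y * a, by rw [smul_mul_assoc]⟩

theorem DV.star {m : ℤ} {x : ℍ[ℤ]} (hx : DV m x) : DV m (star x) := by
  obtain ⟨y, rfl⟩ := hx
  refine ⟨Star.star y, qext ?_ ?_ ?_ ?_⟩
  · rw [Quaternion.re_star, re_zs, re_zs, Quaternion.re_star]
  · rw [Quaternion.imI_star, imI_zs, imI_zs, Quaternion.imI_star]; ring
  · rw [Quaternion.imJ_star, imJ_zs, imJ_zs, Quaternion.imJ_star]; ring
  · rw [Quaternion.imK_star, imK_zs, imK_zs, Quaternion.imK_star]; ring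

theorem dv_star {m : ℤ} {x : ℍ[ℤ]} : DV m (star x) ↔ DV m x :=
  ⟨fun h => by simpa using h.star, DV.star⟩

theorem DV.smul {m : ℤ} {x : ℍ[ℤ]} (hx : DV m x) (a : ℤ) : DV m (a • x) := by
  obtain ⟨y, rfl⟩ := hx
  exact ⟨a • y, by rw [smul_comm]⟩

theorem dv_smul_self (m : ℤ) (x : ℍ[ℤ]) : DV m (m • x) := ⟨x, rfl⟩

theorem dv_of_dvd {m : ℤ} {a : ℤ} (h : m ∣ a) (x : ℍ[ℤ]) : DV m (a • x) := by
  obtain ⟨b, rfl⟩ := h
  exact ⟨b • x, by rw [mul_smul]⟩

/-- cancellation of an integer prime to `p` -/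
theorem DV.cancel {p : ℤ} (hp : Prime p) {a : ℤ} (ha : ¬ p ∣ a) {x : ℍ[ℤ]}
    (h : DV p (a • x)) : DV p x := by
  rw [dv_iff] at h ⊢
  simp only [re_zs, imI_zs, imJ_zs, imK_zs] at h
  obtain ⟨h1, h2, h3, h4⟩ := h
  exact ⟨(hp.dvd_or_dvd h1).resolve_left ha, (hp.dvd_or_dvd h2).resolve_left ha,
    (hp.dvd_or_dvd h3).resolve_left ha, (hp.dvd_or_dvd h4).resolve_left ha⟩

theorem smul_cancel {a : ℤ} (ha : a ≠ 0) {x y : ℍ[ℤ]} (h : a • x = a • y) : x = y := by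
  have h1 := congrArg QuaternionAlgebra.re h
  have h2 := congrArg QuaternionAlgebra.imI h
  have h3 := congrArg QuaternionAlgebra.imJ h
  have h4 := congrArg QuaternionAlgebra.imK h
  simp only [re_zs, imI_zs, imJ_zs, imK_zs] at h1 h2 h3 h4
  exact qext (mul_left_cancel₀ ha h1) (mul_left_cancel₀ ha h2)
    (mul_left_cancel₀ ha h3) (mul_left_cancel₀ ha h4)

/-- (3.1) -/
theorem mul_add_star_mul {R : Type*} [CommRing R] (x M : ℍ[R]) :
    x * M + star M * star x = ((2 * (x * M).re : R) : ℍ[R]) := by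
  have h : star M * star x = star (x * M) := by rw [star_mul]
  rw [h, Quaternion.self_add_star']

theorem re_smul_eq {x M : ℍ[ℤ]} (y : ℍ[ℤ]) :
    (2 * (x * M).re) • y = x * M * y + star M * star x * y := by
  rw [← add_mul, mul_add_star_mul, coe_mul_eq]

/-- (3.1), second form -/
theorem mul_mul_self (x M : ℍ[ℤ]) :
    x * M * x = (2 * (x * M).re) • x - (normSq x) • star M := by
  have h1 := re_smul_eq (x := x) (M := M) x
  have h2 : star M * star x * x = (normSq x) • star M := by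
    rw [mul_assoc, Quaternion.star_mul_self, mul_coe_eq]
  rw [h1, h2]
  abel

theorem star_mul_self_smul (x y : ℍ[ℤ]) : star x * x * y = (normSq x) • y := by
  rw [Quaternion.star_mul_self, coe_mul_eq]

theorem self_mul_star_smul (x y : ℍ[ℤ]) : x * star x * y = (normSq x) • y := by
  rw [Quaternion.self_mul_star, coe_mul_eq]

/-- for `x` not divisible by the odd prime `p` some `2 Re (x M)` is prime to `p` -/
theorem exists_unit_trace {p : ℤ} (hp : Prime p) (h2 : ¬ p ∣ 2) {x : ℍ[ℤ]} (hx : ¬ DV p x) :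
    ∃ M : ℍ[ℤ], ¬ p ∣ 2 * (x * M).re := by
  rw [dv_iff] at hx
  by_contra hcon
  push Not at hcon
  apply hx
  have key : ∀ M : ℍ[ℤ], p ∣ (x * M).re := fun M =>
    (hp.dvd_or_dvd (hcon M)).resolve_left h2
  have e1 := key 1
  have e2 := key (mk4 0 1 0 0)
  have e3 := key (mk4 0 0 1 0)
  have e4 := key (mk4 0 0 0 1)
  simp at e1 e2 e3 e4
  exact ⟨e1, e2, e3, e4⟩

/-- (3.2) -/
theorem dv_star_mul_of_common {p : ℤ} (hp : Prime p) (h2 : ¬ p ∣ 2) {x q q' : ℍ[ℤ]}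
    (hx : ¬ DV p x) (h : DV p (star q * x)) (h' : DV p (star q' * x)) :
    DV p (star q * q') := by
  obtain ⟨M, hM⟩ := exists_unit_trace hp h2 hx
  apply DV.cancel hp hM
  have e : (2 * (x * M).re) • (star q * q') = star q * x * (M * q') +
      star q * star M * (star x * q') := by
    have := re_smul_eq (x := x) (M := M) q'
    rw [← mul_smul_comm, this, mul_add]
    simp only [mul_assoc]
  rw [e]
  refine (h.mul_right _).add (DV.mul_left ?_ _)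
  have := h'.star
  simpa using this

/-- (3.3) -/
theorem dv_mul_of_dv_mul_mul {p : ℤ} (hp : Prime p) (h2 : ¬ p ∣ 2) {A B C : ℍ[ℤ]}
    (hA : p ∣ normSq A) (hAB : ¬ DV p (A * B)) (h : DV p (C * A * B)) : DV p (C * A) := by
  obtain ⟨M, hM⟩ := exists_unit_trace hp h2 hAB
  apply DV.cancel hp hM
  have e : (2 * (A * B * M).re) • (C * A) = C * A * B * (M * A) +
      (normSq A) • (C * star (B * M)) := by
    have h1 := mul_mul_self A (B * M)
    have h3 : (A * B * M).re = (A * (B * M)).re := by rw [mul_assoc]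
    rw [h3, ← mul_smul_comm, eq_comm]
    have h4 : (2 * (A * (B * M)).re) • A = A * (B * M) * A + (normSq A) • star (B * M) := by
      rw [h1]; abel
    rw [h4, mul_add, mul_smul_comm]
    simp only [mul_assoc]
  rw [e]
  exact (h.mul_right _).add (dv_of_dvd hA _)

end BQA
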