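import Pool.Agent.BQ.A_Cnt

/-!
(9.4), (9.5), (9.6): Hecke relations for the sets `L1S m`, as identities for arbitrary functions
on the integer quaternions.
-/

open Quaternion

namespace BQA

theorem dv_smul_L1S {p m : ℤ} {w : ℍ[ℤ]} (hodd : Odd p) (hp : p ≠ 0) :
    p • w ∈ L1S (p ^ 2 * m) ↔ w ∈ L1S m := by
  rw [mem_L1S, mem_L1S, nq_smul]
  constructor
  · rintro ⟨h1, h2⟩
    exact ⟨h1.of_smul hodd, mul_left_cancel₀ (pow_ne_zero 2 hp) h2⟩
  · rintro ⟨h1, h2⟩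
    exact ⟨h1.smul hodd, by rw [h2]⟩

/-- (9.4): number of left divisors of norm `p` -/
theorem card_left_divisors {p : ℕ} (hp : p.Prime) (h4 : p % 4 = 1) {m : ℤ} {q : ℍ[ℤ]}
    (hq : q ∈ L1S (p * m)) [DecidablePred fun z : ℍ[ℤ] => DV (p : ℤ) (star z * q)]
    [Decidable (DV (p : ℤ) q)] :
    ((L1S p).filter (fun z => DV (p : ℤ) (star z * q))).card =
      if DV (p : ℤ) q then 2 * (p + 1) else 2 := by
  have hpZ : Prime (p : ℤ) := Nat.prime_iff_prime_int.1 hp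
  have hp0 : (0 : ℤ) < p := by exact_mod_cast hp.pos
  rw [mem_L1S] at hq
  split_ifs with h
  · rw [← card_L1S_prime hp h4]
    congr 1
    rw [Finset.filter_eq_self]
    intro z _
    exact h.mul_left _
  · exact card_divisors_prim hpZ hp0 (by omega) h (by rw [hq.2]; exact dvd_mul_right _ _)

/-- the fibres of the multiplication `L1S p × L1S m → L1S (p * m)` -/
theorem card_mul_fibre {p : ℕ} (hp : p.Prime) (h4 : p % 4 = 1) {m : ℤ} {q : ℍ[ℤ]}
    (hq : q ∈ L1S (p * m)) [DecidableEq ℍ[ℤ]] [Decidable (DV (p : ℤ) q)] :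
    ((L1S p ×ˢ L1S m).filter (fun z => z.1 * z.2 = q)).card =
      if DV (p : ℤ) q then 2 * (p + 1) else 2 := by
  classical
  have hp0 : (p : ℤ) ≠ 0 := by exact_mod_cast hp.ne_zero
  rw [← card_left_divisors hp h4 hq]
  apply Finset.card_bij (fun z _ => z.1)
  · rintro ⟨z, w⟩ h
    rw [Finset.mem_filter, Finset.mem_product] at h
    obtain ⟨⟨h1, h2⟩, h3⟩ := h
    rw [Finset.mem_filter]
    refine ⟨h1, ?_⟩
    rw [mem_L1S] at h1
    exact (left_factor_iff hp0 h1.2).2 ⟨w, h3.symm⟩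
  · rintro ⟨z, w⟩ h ⟨z', w'⟩ h' e
    simp only at e
    subst e
    rw [Finset.mem_filter, Finset.mem_product] at h h'
    obtain ⟨⟨h1, h2⟩, h3⟩ := h
    obtain ⟨⟨-, -⟩, h3'⟩ := h'
    simp only at h3 h3' h1
    rw [mem_L1S] at h1
    have h5 : (p : ℤ) • w = (p : ℤ) • w' := by
      rw [← h1.2, ← star_mul_self_smul, ← star_mul_self_smul, mul_assoc, mul_assoc, h3, h3']
    rw [smul_cancel hp0 h5]
  · intro z hz
    rw [Finset.mem_filter] at hz
    obtain ⟨h1, h2⟩ := hz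
    have h1' := mem_L1S.1 h1
    obtain ⟨w, hw, hw'⟩ := left_factor hp0 h1'.2 h2
    rw [mem_L1S] at hq
    refine ⟨(z, w), ?_, rfl⟩
    rw [Finset.mem_filter, Finset.mem_product]
    refine ⟨⟨h1, ?_⟩, hw.symm⟩
    rw [mem_L1S]
    refine ⟨h1'.1.of_mul (by rw [← hw]; exact hq.1), ?_⟩
    rw [hq.2] at hw'
    exact (mul_left_cancel₀ hp0 hw').symm

/-- (9.5), raw form -/
theorem sum_mul_raw {A : Type*} [AddCommMonoid A] {p : ℕ} (hp : p.Prime) (h4 : p % 4 = 1)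
    (m : ℤ) (F : ℍ[ℤ] → A) [DecidablePred fun q : ℍ[ℤ] => DV (p : ℤ) q] :
    ∑ q1 ∈ L1S p, ∑ q2 ∈ L1S m, F (q1 * q2) =
      2 • (∑ q ∈ L1S (p * m), F q) +
        (2 * p) • (∑ q ∈ (L1S (p * m)).filter (fun q => DV (p : ℤ) q), F q) := by
  classical
  have hmaps : ∀ z ∈ L1S (p : ℤ) ×ˢ L1S m, z.1 * z.2 ∈ L1S (p * m) := by
    rintro ⟨z, w⟩ h
    rw [Finset.mem_product, mem_L1S, mem_L1S] at h
    rw [mem_L1S]
    exact ⟨h.1.1.mul h.2.1, by rw [map_mul, h.1.2, h.2.2]⟩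
  rw [← Finset.sum_product', ← Finset.sum_fiberwise_of_maps_to hmaps]
  have h1 : ∀ q ∈ L1S (p * m), ∑ z ∈ (L1S (p : ℤ) ×ˢ L1S m).filter (fun z => z.1 * z.2 = q),
      F (z.1 * z.2) = (if DV (p : ℤ) q then 2 * (p + 1) else 2) • F q := by
    intro q hq
    rw [← card_mul_fibre hp h4 hq, ← Finset.sum_const]
    apply Finset.sum_congr rfl
    intro z hz
    rw [(Finset.mem_filter.1 hz).2]
  rw [Finset.sum_congr rfl h1, Finset.sum_filter, Finset.smul_sum, Finset.smul_sum,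
    ← Finset.sum_add_distrib]
  apply Finset.sum_congr rfl
  intro q _
  split_ifs
  · rw [← add_nsmul]; congr 1; ring
  · simp

/-- (9.5), `p` prime to `m` -/
theorem sum_mul_coprime {A : Type*} [AddCommMonoid A] {p : ℕ} (hp : p.Prime) (h4 : p % 4 = 1)
    {m : ℤ} (hm : ¬ (p : ℤ) ∣ m) (F : ℍ[ℤ] → A) :
    ∑ q1 ∈ L1S p, ∑ q2 ∈ L1S m, F (q1 * q2) = 2 • (∑ q ∈ L1S (p * m), F q) := by
  classical
  have hp0 : (p : ℤ) ≠ 0 := by exact_mod_cast hp.ne_zero
  rw [sum_mul_raw hp h4 m F]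
  have : (L1S (p * m)).filter (fun q => DV (p : ℤ) q) = ∅ := by
    rw [Finset.filter_eq_empty_iff]
    intro q hq h
    rw [mem_L1S] at hq
    have h1 := nq_dvd_of_dv h
    rw [hq.2, sq] at h1
    exact hm ((mul_dvd_mul_iff_left hp0).1 h1)
  rw [this]
  simp

/-- (9.5), `p` divides `m` -/
theorem sum_mul_dvd {A : Type*} [AddCommMonoid A] {p : ℕ} (hp : p.Prime) (h4 : p % 4 = 1)
    (m : ℤ) (F : ℍ[ℤ] → A) :
    ∑ q1 ∈ L1S p, ∑ q2 ∈ L1S (p * m), F (q1 * q2) =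
      2 • (∑ q ∈ L1S (p ^ 2 * m), F q) + (2 * p) • (∑ w ∈ L1S m, F ((p : ℤ) • w)) := by
  classical
  have hp0 : (p : ℤ) ≠ 0 := by exact_mod_cast hp.ne_zero
  have hodd : Odd (p : ℤ) := by
    rw [Int.odd_iff]; omega
  rw [sum_mul_raw hp h4 _ F]
  have e : (p : ℤ) * (p * m) = p ^ 2 * m := by ring
  rw [e]
  congr 2
  symm
  apply Finset.sum_bij (fun w _ => (p : ℤ) • w)
  · intro w hw
    rw [Finset.mem_filter]
    exact ⟨(dv_smul_L1S hodd hp0).2 hw, dv_smul_self _ _⟩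
  · intro w _ w' _ h
    exact smul_cancel hp0 h
  · intro q hq
    rw [Finset.mem_filter] at hq
    obtain ⟨h1, w, rfl⟩ := hq
    exact ⟨w, (dv_smul_L1S hodd hp0).1 h1, rfl⟩
  · intro w _
    rfl

/-- number of elements, coprime case -/
theorem card_mul_coprime {p : ℕ} (hp : p.Prime) (h4 : p % 4 = 1) {m : ℤ}
    (hm : ¬ (p : ℤ) ∣ m) : (L1S (p * m)).card = (p + 1) * (L1S m).card := by
  have h := sum_mul_coprime hp h4 hm (fun _ => (1 : ℕ))
  simp only [Finset.sum_const, smul_eq_mul, mul_one, card_L1S_prime hp h4] at h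
  have h2 : 2 * ((p + 1) * (L1S m).card) = 2 * (L1S (p * m)).card := by rw [← h]; ring
  omega

/-- number of elements, case of a multiple of `p` -/
theorem card_mul_dvd {p : ℕ} (hp : p.Prime) (h4 : p % 4 = 1) (m : ℤ) :
    (L1S (p ^ 2 * m)).card + p * (L1S m).card = (p + 1) * (L1S (p * m)).card := by
  have h := sum_mul_dvd hp h4 m (fun _ => (1 : ℕ))
  simp only [Finset.sum_const, smul_eq_mul, mul_one, card_L1S_prime hp h4] at h
  have h2 : 2 * ((p + 1) * (L1S (p * m)).card) =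
    2 * ((L1S (p ^ 2 * m)).card + p * (L1S m).card) := by linarith
  omega

theorem mem_L1S_one {q : ℍ[ℤ]} : q ∈ L1S 1 ↔ q = 1 ∨ q = -1 := by
  rw [mem_L1S]
  constructor
  · rintro ⟨h1, h2⟩
    exact inL1_unit h1 h2
  · rintro (rfl | rfl)
    · exact ⟨inL1_one, by simp⟩
    · exact ⟨inL1_one.neg, by simp⟩

theorem one_ne_neg_one : (1 : ℍ[ℤ]) ≠ -1 := by
  intro h
  have h1 : (1 : ℤ) = -1 := congrArg QuaternionAlgebra.re h
  omega

theorem sum_L1S_one {A : Type*} [AddCommMonoid A] (F : ℍ[ℤ] → A) :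
    ∑ q ∈ L1S 1, F q = F 1 + F (-1) := by
  classical
  have : L1S 1 = {1, -1} := by
    ext q
    rw [mem_L1S_one, Finset.mem_insert, Finset.mem_singleton]
  rw [this, Finset.sum_pair one_ne_neg_one]

theorem card_L1S_one : (L1S 1).card = 2 := by
  have := sum_L1S_one (fun _ => (1 : ℕ))
  simpa using this

/-- powers of `p`: `R'(p ^ a) = 2 (1 + p + ... + p ^ a)` -/
theorem card_L1S_pow {p : ℕ} (hp : p.Prime) (h4 : p % 4 = 1) (a : ℕ) :
    (L1S ((p : ℤ) ^ a)).card = 2 * ∑ i ∈ Finset.range (a + 1), p ^ i := by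
  induction a using Nat.strong_induction_on with
  | _ a ih =>
    match a with
    | 0 => simp [card_L1S_one]
    | 1 =>
      rw [pow_one, card_L1S_prime hp h4, Finset.sum_range_succ, Finset.sum_range_one]
      ring
    | (b + 2) =>
      have h1 := card_mul_dvd hp h4 ((p : ℤ) ^ b)
      have e1 : (p : ℤ) ^ 2 * p ^ b = p ^ (b + 2) := by ring
      have e2 : (p : ℤ) * p ^ b = p ^ (b + 1) := by ring
      rw [e1, e2, ih b (by omega), ih (b + 1) (by omega)] at h1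
      have h2 : ∀ k : ℕ, p * ∑ i ∈ Finset.range k, p ^ i + 1 =
          ∑ i ∈ Finset.range (k + 1), p ^ i := by
        intro k
        rw [Finset.sum_range_succ', Finset.mul_sum]
        simp only [pow_succ, pow_zero]
        congr 1
        exact Finset.sum_congr rfl (fun i _ => by ring)
      have h3 := h2 (b + 1)
      have h5 := h2 (b + 2)
      rw [← h5]
      rw [← h3] at h1 ⊢
      nlinarith

/-- (9.6): equidistribution among the classes modulo `p` -/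
theorem card_class {p : ℕ} (hp : p.Prime) (h4 : p % 4 = 1) (m : ℤ) {q0 : ℍ[ℤ]}
    (hq0 : ¬ DV (p : ℤ) q0) (hN : (p : ℤ) ∣ normSq q0)
    [DecidablePred fun q : ℍ[ℤ] => DV (p : ℤ) (star q * q0)] :
    ((L1S (p * m)).filter (fun q => DV (p : ℤ) (star q * q0))).card = (L1S m).card := by
  classical
  have hpZ : Prime (p : ℤ) := Nat.prime_iff_prime_int.1 hp
  have hp0 : (0 : ℤ) < p := by exact_mod_cast hp.pos
  have h4' : (p : ℤ) % 4 = 1 := by omega
  obtain ⟨z, hz1, hz2, hz3⟩ := exists_L1_divisor hpZ hp0 h4' hq0 hN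
  symm
  apply Finset.card_bij (fun w _ => z * w)
  · intro w hw
    rw [mem_L1S] at hw
    rw [Finset.mem_filter, mem_L1S]
    refine ⟨⟨hz1.mul hw.1, by rw [map_mul, hz2, hw.2]⟩, ?_⟩
    rw [star_mul, mul_assoc]
    exact hz3.mul_left _
  · intro w _ w' _ h
    have h5 : (p : ℤ) • w = (p : ℤ) • w' := by
      rw [← hz2, ← star_mul_self_smul, ← star_mul_self_smul, mul_assoc, mul_assoc, h]
    exact smul_cancel hp0.ne' h5
  · intro q hq
    rw [Finset.mem_filter, mem_L1S] at hq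
    obtain ⟨⟨h1, h2⟩, h3⟩ := hq
    have h5 : DV (p : ℤ) (star z * q) :=
      dv_star_mul_of_common hpZ (not_dv_two hpZ hp0 h4') hq0 hz3 h3
    obtain ⟨w, hw, hw'⟩ := left_factor hp0.ne' hz2 h5
    refine ⟨w, ?_, hw.symm⟩
    rw [mem_L1S]
    refine ⟨hz1.of_mul (by rw [← hw]; exact h1), ?_⟩
    rw [h2] at hw'
    exact (mul_left_cancel₀ hp0.ne' hw').symm

/-- (9.6), in terms of the whole set -/
theorem card_class' {p : ℕ} (hp : p.Prime) (h4 : p % 4 = 1) {m : ℤ} (hm : ¬ (p : ℤ) ∣ m)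
    {q0 : ℍ[ℤ]} (hq0 : ¬ DV (p : ℤ) q0) (hN : (p : ℤ) ∣ normSq q0)
    [DecidablePred fun q : ℍ[ℤ] => DV (p : ℤ) (star q * q0)] :
    (p + 1) * ((L1S (p * m)).filter (fun q => DV (p : ℤ) (star q * q0))).card =
      (L1S (p * m)).card := by
  rw [card_class hp h4 m hq0 hN, card_mul_coprime hp h4 hm]

end BQA
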