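import Pool.Agent.BQ.Defs
import Pool.Agent.BQ.A_Hec

/-!
Exports of block A in the terms of `Defs.lean` (`sph m`, `Rp m`).
-/

open Quaternion

namespace BQA

theorem sph_eq_L1S (m : ℕ) : sph m = L1S (m : ℤ) := by
  ext q
  rw [mem_sph, mem_L1S]

theorem Rp_eq (m : ℕ) : Rp m = (L1S (m : ℤ)).card := by
  rw [Rp, sph_eq_L1S]

theorem neg_mem_sph {m : ℕ} {q : ℍ[ℤ]} (h : q ∈ sph m) : -q ∈ sph m := by
  rw [mem_sph] at h ⊢
  exact ⟨h.1.neg, by rw [Quaternion.normSq_neg]; exact h.2⟩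

/-- (9.3) -/
theorem Rp_prime {p : ℕ} (hp : p.Prime) (h4 : p % 4 = 1) : Rp p = 2 * (p + 1) := by
  rw [Rp_eq, card_L1S_prime hp h4]

theorem Rp_one : Rp 1 = 2 := by
  rw [Rp_eq]; exact_mod_cast card_L1S_one

theorem mem_sph_one {q : ℍ[ℤ]} : q ∈ sph 1 ↔ q = 1 ∨ q = -1 := by
  rw [sph_eq_L1S]; exact_mod_cast mem_L1S_one

theorem sum_sph_one {A : Type*} [AddCommMonoid A] (F : ℍ[ℤ] → A) :
    ∑ q ∈ sph 1, F q = F 1 + F (-1) := by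
  rw [sph_eq_L1S]; exact_mod_cast sum_L1S_one F

theorem Rp_mul_coprime {p : ℕ} (hp : p.Prime) (h4 : p % 4 = 1) {m : ℕ} (hm : ¬ p ∣ m) :
    Rp (p * m) = (p + 1) * Rp m := by
  rw [Rp_eq, Rp_eq]
  have h := card_mul_coprime hp h4 (m := (m : ℤ)) (by exact_mod_cast hm)
  rw [← h]; push_cast; rfl

theorem Rp_mul_dvd {p : ℕ} (hp : p.Prime) (h4 : p % 4 = 1) (m : ℕ) :
    Rp (p ^ 2 * m) + p * Rp m = (p + 1) * Rp (p * m) := by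
  rw [Rp_eq, Rp_eq, Rp_eq]
  have h := card_mul_dvd hp h4 (m : ℤ)
  push_cast
  exact h

theorem Rp_pow {p : ℕ} (hp : p.Prime) (h4 : p % 4 = 1) (a : ℕ) :
    Rp (p ^ a) = 2 * ∑ i ∈ Finset.range (a + 1), p ^ i := by
  rw [Rp_eq]
  have h := card_L1S_pow hp h4 a
  push_cast
  exact h

theorem Rp_pow_pos {p : ℕ} (hp : p.Prime) (h4 : p % 4 = 1) (a : ℕ) : 0 < Rp (p ^ a) := by
  rw [Rp_pow hp h4, Finset.sum_range_succ']
  positivity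

/-- (9.5), `p` prime to `m` -/
theorem sum_sph_mul {A : Type*} [AddCommMonoid A] {p : ℕ} (hp : p.Prime) (h4 : p % 4 = 1)
    {m : ℕ} (hm : ¬ p ∣ m) (F : ℍ[ℤ] → A) :
    ∑ q1 ∈ sph p, ∑ q2 ∈ sph m, F (q1 * q2) = 2 • (∑ q ∈ sph (p * m), F q) := by
  rw [sph_eq_L1S, sph_eq_L1S, sph_eq_L1S]
  have h := sum_mul_coprime hp h4 (m := (m : ℤ)) (by exact_mod_cast hm) F
  push_cast
  exact h

/-- (9.5), `p` divides the second factor -/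
theorem sum_sph_mul_dvd {A : Type*} [AddCommMonoid A] {p : ℕ} (hp : p.Prime) (h4 : p % 4 = 1)
    (m : ℕ) (F : ℍ[ℤ] → A) :
    ∑ q1 ∈ sph p, ∑ q2 ∈ sph (p * m), F (q1 * q2) =
      2 • (∑ q ∈ sph (p ^ 2 * m), F q) + (2 * p) • (∑ w ∈ sph m, F ((p : ℤ) • w)) := by
  rw [sph_eq_L1S, sph_eq_L1S, sph_eq_L1S, sph_eq_L1S]
  have h := sum_mul_dvd hp h4 (m : ℤ) F
  push_cast
  exact h

/-- (9.5), powers of `p` -/
theorem sum_sph_mul_pow {A : Type*} [AddCommMonoid A] {p : ℕ} (hp : p.Prime) (h4 : p % 4 = 1)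
    (a : ℕ) (F : ℍ[ℤ] → A) :
    ∑ q1 ∈ sph p, ∑ q2 ∈ sph (p ^ (a + 1)), F (q1 * q2) =
      2 • (∑ q ∈ sph (p ^ (a + 2)), F q) +
        (2 * p) • (∑ w ∈ sph (p ^ a), F ((p : ℤ) • w)) := by
  have h := sum_sph_mul_dvd hp h4 (p ^ a) F
  have e1 : p * p ^ a = p ^ (a + 1) := by ring
  have e2 : p ^ 2 * p ^ a = p ^ (a + 2) := by ring
  rw [e1, e2] at h
  exact h

/-- two elements of norm `p` in the same class differ by a sign -/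
theorem dv_star_mul_iff {p : ℕ} (hp : p.Prime) {q q' : ℍ[ℤ]} (hq : q ∈ sph p)
    (hq' : q' ∈ sph p) : DV (p : ℤ) (star q * q') ↔ q' = q ∨ q' = -q := by
  have hp0 : (p : ℤ) ≠ 0 := by exact_mod_cast hp.ne_zero
  rw [mem_sph] at hq hq'
  constructor
  · exact eq_or_eq_neg hp0 hq.1 hq'.1 hq.2 hq'.2
  · rintro (rfl | rfl)
    · exact (left_factor_iff hp0 hq.2).2 ⟨1, (mul_one _).symm⟩
    · exact (left_factor_iff hp0 hq.2).2 ⟨-1, by rw [mul_neg, mul_one]⟩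

/-- (9.6) -/
theorem card_class_sph {p : ℕ} (hp : p.Prime) (h4 : p % 4 = 1) {n1 : ℕ} (hm : ¬ p ∣ n1)
    {q0 : ℍ[ℤ]} (hq0 : ¬ DV (p : ℤ) q0) (hN : (p : ℤ) ∣ normSq q0) :
    (p + 1) * ((sph (p * n1)).filter (fun q => DV (p : ℤ) (star q * q0))).card =
      Rp (p * n1) := by
  have h := card_class' hp h4 (m := (n1 : ℤ)) (by exact_mod_cast hm) hq0 hN
  rw [Rp_eq, sph_eq_L1S]
  push_cast
  exact h

/-- (9.6), second form -/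
theorem card_class_sph' {p : ℕ} (hp : p.Prime) (h4 : p % 4 = 1) (n1 : ℕ)
    {q0 : ℍ[ℤ]} (hq0 : ¬ DV (p : ℤ) q0) (hN : (p : ℤ) ∣ normSq q0) :
    ((sph (p * n1)).filter (fun q => DV (p : ℤ) (star q * q0))).card = Rp n1 := by
  have h := card_class hp h4 (n1 : ℤ) hq0 hN
  rw [Rp_eq, sph_eq_L1S]
  push_cast
  exact h

/-- `n = p * p2 ^ a` -/
theorem Rp_mul_pow {p p2 : ℕ} (hp : p.Prime) (h4 : p % 4 = 1) (hp2 : p2.Prime)
    (hne : p ≠ p2) (a : ℕ) :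
    Rp (p * p2 ^ a) = (p + 1) * Rp (p2 ^ a) :=
  Rp_mul_coprime hp h4 (fun h => hne
    ((Nat.prime_dvd_prime_iff_eq hp hp2).1 (hp.dvd_of_dvd_pow h)))

theorem Rp_mul_pow_pos {p p2 : ℕ} (hp : p.Prime) (h4 : p % 4 = 1) (hp2 : p2.Prime)
    (h42 : p2 % 4 = 1) (hne : p ≠ p2) (a : ℕ) : 0 < Rp (p * p2 ^ a) := by
  rw [Rp_mul_pow hp h4 hp2 hne]
  exact Nat.mul_pos (by omega) (Rp_pow_pos hp2 h42 a)

theorem sph_nonempty {p p2 : ℕ} (hp : p.Prime) (h4 : p % 4 = 1) (hp2 : p2.Prime)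
    (h42 : p2 % 4 = 1) (hne : p ≠ p2) (a : ℕ) : (sph (p * p2 ^ a)).Nonempty :=
  Finset.card_pos.1 (Rp_mul_pow_pos hp h4 hp2 h42 hne a)

/-- an element of norm `n`, `p` exactly dividing `n`, is not divisible by `p` -/
theorem not_dv_of_nm {p n1 : ℕ} (hp : p.Prime) (hm : ¬ p ∣ n1) {q : ℍ[ℤ]}
    (hq : normSq q = ((p * n1 : ℕ) : ℤ)) : ¬ DV (p : ℤ) q := by
  intro h
  have hp0 : (p : ℤ) ≠ 0 := by exact_mod_cast hp.ne_zero
  have h1 := nq_dvd_of_dv h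
  rw [hq, sq] at h1
  push_cast at h1
  exact hm (by exact_mod_cast (mul_dvd_mul_iff_left hp0).1 h1)

end BQA
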