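import Pool.Agent.BQ.A_R3
import Pool.Agent.BQ.A_Cls

/-!
The lattice point sum of the trace bound (PAPER.md, 7.4).
-/

open Quaternion

namespace BQA

theorem harm_range (X : ℕ) :
    ∑ j ∈ Finset.range X, (1 : ℝ) / ((X : ℝ) - j) ≤ 1 + Real.log X := by
  have h1 : ∑ j ∈ Finset.range X, (1 : ℝ) / ((X : ℝ) - j) =
      ∑ j ∈ Finset.range X, (1 : ℝ) / ((j : ℝ) + 1) := by
    rw [← Finset.sum_range_reflect]
    apply Finset.sum_congr rfl
    intro j hj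
    rw [Finset.mem_range] at hj
    congr 1
    rw [Nat.sub_sub, Nat.cast_sub (by omega)]
    push_cast; ring
  rw [h1]
  have h2 := harmonic_le_one_add_log X
  refine le_trans (le_of_eq ?_) h2
  rw [harmonic]
  push_cast
  simp

theorem sum_int_le (X : ℕ) (g : ℕ → ℝ) (hg : ∀ j, j < X → 0 ≤ g j) :
    ∑ a ∈ Finset.Ioo (-(X : ℤ)) X, g a.natAbs ≤ 2 * ∑ j ∈ Finset.range X, g j := by
  classical
  have hmaps : ∀ a ∈ Finset.Ioo (-(X : ℤ)) X, a.natAbs ∈ Finset.range X := by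
    intro a ha
    rw [Finset.mem_Ioo] at ha
    rw [Finset.mem_range]; omega
  rw [← Finset.sum_fiberwise_of_maps_to hmaps, Finset.mul_sum]
  apply Finset.sum_le_sum
  intro j hj
  rw [Finset.mem_range] at hj
  have h1 : ∑ a ∈ (Finset.Ioo (-(X : ℤ)) X).filter (fun a => a.natAbs = j), g a.natAbs =
      ∑ a ∈ (Finset.Ioo (-(X : ℤ)) X).filter (fun a => a.natAbs = j), g j := by
    apply Finset.sum_congr rfl
    intro a ha
    rw [(Finset.mem_filter.1 ha).2]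
  rw [h1, Finset.sum_const, nsmul_eq_mul]
  apply mul_le_mul_of_nonneg_right _ (hg j hj)
  have h2 : (Finset.Ioo (-(X : ℤ)) X).filter (fun a => a.natAbs = j) ⊆ {(j : ℤ), -(j : ℤ)} := by
    intro a ha
    rw [Finset.mem_filter] at ha
    rw [Finset.mem_insert, Finset.mem_singleton]
    omega
  have h3 := (Finset.card_le_card h2).trans (Finset.card_le_two)
  exact_mod_cast h3

/-- the lattice sum -/
theorem lattice_sum : ∃ C : ℝ, 1 ≤ C ∧ ∀ X : ℕ, 1 ≤ X → ∀ F : Finset ℍ[ℤ],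
    (∀ Q ∈ F, normSq Q = (X : ℤ) ^ 2 ∧ Q.re ^ 2 < (X : ℤ) ^ 2) →
    ∑ Q ∈ F, ((X : ℝ) ^ 2 / ((X : ℝ) ^ 2 - (Q.re : ℝ) ^ 2)) ^ ((3 : ℝ) / 2) ≤
      C * (X : ℝ) ^ (2.2 : ℝ) := by
  classical
  obtain ⟨C, hC, hr3⟩ := r3_bound 20 (by norm_num)
  refine ⟨42 * C, by linarith, ?_⟩
  intro X hX F hF
  have hX1 : (1 : ℝ) ≤ X := by exact_mod_cast hX
  have hX0 : (0 : ℝ) < X := by linarith
  have hmaps : ∀ Q ∈ F, Q.re ∈ Finset.Ioo (-(X : ℤ)) X := by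
    intro Q hQ
    rw [Finset.mem_Ioo, ← abs_lt]
    exact abs_lt_of_sq_lt_sq (hF Q hQ).2 (by positivity)
  rw [← Finset.sum_fiberwise_of_maps_to hmaps]
  have hfib : ∀ a ∈ Finset.Ioo (-(X : ℤ)) X,
      ∑ Q ∈ F.filter (fun Q => Q.re = a),
        ((X : ℝ) ^ 2 / ((X : ℝ) ^ 2 - (Q.re : ℝ) ^ 2)) ^ ((3 : ℝ) / 2) ≤
      C * (X : ℝ) ^ (2.1 : ℝ) * (1 / ((X : ℝ) - a.natAbs)) := by
    intro a ha
    rw [Finset.mem_Ioo] at ha
    have haX : (a.natAbs : ℝ) < X := by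
      have : a.natAbs < X := by omega
      exact_mod_cast this
    have ha2 : (a : ℝ) ^ 2 = (a.natAbs : ℝ) ^ 2 := by
      rw [Nat.cast_natAbs, Int.cast_abs, sq_abs]
    have hnn : (0 : ℝ) ≤ (a.natAbs : ℝ) := by positivity
    set k : ℕ := X ^ 2 - a.natAbs ^ 2 with hk
    have hlt : a.natAbs ^ 2 < X ^ 2 := Nat.pow_lt_pow_left (by omega) (by norm_num)
    have hkR : (k : ℝ) = (X : ℝ) ^ 2 - (a.natAbs : ℝ) ^ 2 := by
      rw [hk, Nat.cast_sub hlt.le]; push_cast; ring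
    have hk1 : 1 ≤ k := by omega
    have hk1R : (1 : ℝ) ≤ k := by exact_mod_cast hk1
    have hk0 : (0 : ℝ) < k := by linarith
    have hcard : ((F.filter (fun Q => Q.re = a)).card : ℝ) ≤
        C * (k : ℝ) ^ ((1 : ℝ) / 2 + 1 / (20 : ℕ)) := by
      have hinj : Set.InjOn (fun Q : ℍ[ℤ] => (Q.imI, Q.imJ, Q.imK))
          (F.filter (fun Q => Q.re = a)) := by
        intro s hs t ht h
        have hs' := (Finset.mem_filter.1 (Finset.mem_coe.1 hs)).2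
        have ht' := (Finset.mem_filter.1 (Finset.mem_coe.1 ht)).2
        simp only [Prod.mk.injEq] at h
        exact qext (hs'.trans ht'.symm) h.1 h.2.1 h.2.2
      rw [← Finset.card_image_of_injOn hinj]
      apply hr3 k hk1
      intro t ht
      rw [Finset.mem_image] at ht
      obtain ⟨Q, hQ, rfl⟩ := ht
      rw [Finset.mem_filter] at hQ
      have h1 := (hF Q hQ.1).1
      rw [nq_eq, hQ.2] at h1
      have h2 : (k : ℤ) = (X : ℤ) ^ 2 - a ^ 2 := by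
        rw [hk, Nat.cast_sub hlt.le]; push_cast
        rw [sq_abs]
      rw [h2]
      simp only
      linarith
    have hterm : ∀ Q ∈ F.filter (fun Q => Q.re = a),
        ((X : ℝ) ^ 2 / ((X : ℝ) ^ 2 - (Q.re : ℝ) ^ 2)) ^ ((3 : ℝ) / 2) =
          ((X : ℝ) ^ 2 / k) ^ ((3 : ℝ) / 2) := by
      intro Q hQ
      rw [(Finset.mem_filter.1 hQ).2, ha2, hkR]
    rw [Finset.sum_congr rfl hterm, Finset.sum_const, nsmul_eq_mul]
    have e1 : ((X : ℝ) ^ 2 / k) ^ ((3 : ℝ) / 2) = (X : ℝ) ^ (3 : ℝ) * (k : ℝ) ^ (-(3 : ℝ) / 2) := by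
      rw [Real.div_rpow (by positivity) hk0.le, ← Real.rpow_natCast, ← Real.rpow_mul hX0.le,
        neg_div, Real.rpow_neg hk0.le, div_eq_mul_inv]
      congr 2
      norm_num
    rw [e1]
    have e2 : (k : ℝ) ^ ((1 : ℝ) / 2 + 1 / (20 : ℕ)) * (k : ℝ) ^ (-(3 : ℝ) / 2) =
        (k : ℝ) ^ ((1 : ℝ) / 20) * (k : ℝ) ^ (-(1 : ℝ)) := by
      rw [← Real.rpow_add hk0, ← Real.rpow_add hk0]
      congr 1; norm_num
    have hkX : (k : ℝ) ≤ (X : ℝ) ^ (2 : ℝ) := by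
      rw [hkR, Real.rpow_two]; nlinarith
    have e3 : (k : ℝ) ^ ((1 : ℝ) / 20) ≤ (X : ℝ) ^ ((1 : ℝ) / 10) := by
      calc (k : ℝ) ^ ((1 : ℝ) / 20) ≤ ((X : ℝ) ^ (2 : ℝ)) ^ ((1 : ℝ) / 20) :=
            Real.rpow_le_rpow hk0.le hkX (by norm_num)
        _ = (X : ℝ) ^ ((1 : ℝ) / 10) := by
            rw [← Real.rpow_mul hX0.le]; congr 1; norm_num
    have e4 : (k : ℝ) ^ (-(1 : ℝ)) ≤ (X : ℝ) ^ (-(1 : ℝ)) * (1 / ((X : ℝ) - a.natAbs)) := by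
      rw [Real.rpow_neg_one, Real.rpow_neg_one, ← one_div, ← one_div, one_div_mul_one_div]
      apply one_div_le_one_div_of_le
      · exact mul_pos hX0 (by linarith)
      · rw [hkR]; nlinarith
    have hpos1 : (0 : ℝ) ≤ (k : ℝ) ^ (-(1 : ℝ)) := by positivity
    have hpos2 : (0 : ℝ) ≤ (X : ℝ) ^ ((1 : ℝ) / 10) := by positivity
    have hC0 : 0 ≤ C := by linarith
    calc ((F.filter (fun Q => Q.re = a)).card : ℝ) *
          ((X : ℝ) ^ (3 : ℝ) * (k : ℝ) ^ (-(3 : ℝ) / 2))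
        ≤ (C * (k : ℝ) ^ ((1 : ℝ) / 2 + 1 / (20 : ℕ))) *
          ((X : ℝ) ^ (3 : ℝ) * (k : ℝ) ^ (-(3 : ℝ) / 2)) :=
          mul_le_mul_of_nonneg_right hcard (by positivity)
      _ = C * (X : ℝ) ^ (3 : ℝ) *
          ((k : ℝ) ^ ((1 : ℝ) / 2 + 1 / (20 : ℕ)) * (k : ℝ) ^ (-(3 : ℝ) / 2)) := by ring
      _ = C * (X : ℝ) ^ (3 : ℝ) * ((k : ℝ) ^ ((1 : ℝ) / 20) * (k : ℝ) ^ (-(1 : ℝ))) := by
          rw [e2]
      _ ≤ C * (X : ℝ) ^ (3 : ℝ) * ((X : ℝ) ^ ((1 : ℝ) / 10) *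
          ((X : ℝ) ^ (-(1 : ℝ)) * (1 / ((X : ℝ) - a.natAbs)))) := by
          apply mul_le_mul_of_nonneg_left _ (by positivity)
          exact mul_le_mul e3 e4 hpos1 hpos2
      _ = C * ((X : ℝ) ^ (3 : ℝ) * (X : ℝ) ^ ((1 : ℝ) / 10) * (X : ℝ) ^ (-(1 : ℝ))) *
          (1 / ((X : ℝ) - a.natAbs)) := by ring
      _ = C * (X : ℝ) ^ (2.1 : ℝ) * (1 / ((X : ℝ) - a.natAbs)) := by
          rw [← Real.rpow_add hX0, ← Real.rpow_add hX0]
          congr 3; norm_num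
  refine (Finset.sum_le_sum hfib).trans ?_
  rw [← Finset.mul_sum]
  have hs := sum_int_le X (fun j => 1 / ((X : ℝ) - j)) (by
    intro j hj
    have : (j : ℝ) < X := by exact_mod_cast hj
    have : 0 < (X : ℝ) - j := by linarith
    positivity)
  have hh := harm_range X
  have hlog : Real.log X ≤ 20 * (X : ℝ) ^ ((1 : ℝ) / 20) := by
    have := Real.log_le_rpow_div hX0.le (by norm_num : (0 : ℝ) < 1 / 20)
    linarith
  have hone : (1 : ℝ) ≤ (X : ℝ) ^ ((1 : ℝ) / 20) := Real.one_le_rpow hX1 (by norm_num)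
  have hC0 : 0 ≤ C := by linarith
  have hp : (0 : ℝ) ≤ C * (X : ℝ) ^ (2.1 : ℝ) := by positivity
  calc C * (X : ℝ) ^ (2.1 : ℝ) * ∑ a ∈ Finset.Ioo (-(X : ℤ)) X, (1 / ((X : ℝ) - a.natAbs))
      ≤ C * (X : ℝ) ^ (2.1 : ℝ) * (2 * (21 * (X : ℝ) ^ ((1 : ℝ) / 20))) := by
        apply mul_le_mul_of_nonneg_left _ hp
        linarith
    _ = 42 * C * ((X : ℝ) ^ (2.1 : ℝ) * (X : ℝ) ^ ((1 : ℝ) / 20)) := by ring
    _ ≤ 42 * C * (X : ℝ) ^ (2.2 : ℝ) := by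
        rw [← Real.rpow_add hX0]
        apply mul_le_mul_of_nonneg_left _ (by linarith)
        exact Real.rpow_le_rpow_of_exponent_le hX1 (by norm_num)

end BQA
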