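import Pool.Agent.BQ.A_Def
import Pool.Agent.Lib_helper43.Tori.Rep
import Pool.Agent.Lib_helper91.Div

/-!
Representations by sums of two and three squares: `r_2(k) ≤ C k^(1/L)`,
`r_3(k) ≤ C k^(1/2 + 1/L)`.
-/

open Quaternion

namespace BQA

open Pool.Agent.Lib_helper91 Pool.Agent.Lib_helper43.Tori

/-- sums of two squares -/
theorem r2_bound (L : ℕ) (hL : 0 < L) :
    ∃ C : ℝ, 1 ≤ C ∧ ∀ k : ℕ, ∀ F : Finset (ℤ × ℤ),
      (∀ s ∈ F, s.1 ^ 2 + s.2 ^ 2 = k) → (F.card : ℝ) ≤ C * (max (k : ℝ) 1) ^ ((1 : ℝ) / L) := by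
  obtain ⟨C₀, hC₀, hdiv⟩ := exists_divisor_bound (2 * L) (by omega)
  refine ⟨10 * C₀ ^ 2, by nlinarith, ?_⟩
  intro k F hF
  rcases Nat.eq_zero_or_pos k with rfl | hk
  · have h1 : F ⊆ {(0, 0)} := by
      intro s hs
      have h := hF s hs
      rw [Finset.mem_singleton]
      have e1 : s.1 = 0 := by push_cast at h; nlinarith [sq_nonneg s.1, sq_nonneg s.2]
      have e2 : s.2 = 0 := by push_cast at h; nlinarith [sq_nonneg s.1, sq_nonneg s.2]
      exact Prod.ext e1 e2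
    have h2 := Finset.card_le_card h1
    rw [Finset.card_singleton] at h2
    have h3 : (F.card : ℝ) ≤ 1 := by exact_mod_cast h2
    have h4 : (max ((0 : ℕ) : ℝ) 1) ^ ((1 : ℝ) / L) = 1 := by
      rw [Nat.cast_zero, max_eq_right zero_le_one, Real.one_rpow]
    rw [h4]
    nlinarith
  · have h1 := card_rep (D := 1) (M := (k : ℤ)) (by norm_num) (by exact_mod_cast hk) F
      (fun s hs => by rw [one_mul]; exact hF s hs)
    rw [Int.natAbs_natCast] at h1
    have h2 := hdiv k hk.ne'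
    have hk1 : (1 : ℝ) ≤ k := by exact_mod_cast hk
    rw [max_eq_left hk1]
    have h3 : (F.card : ℝ) ≤ 10 * (k.divisors.card : ℝ) * (k.divisors.card : ℝ) := by
      exact_mod_cast h1
    have h4 : ((k : ℝ) ^ ((1 : ℝ) / (2 * L : ℕ))) ^ 2 = (k : ℝ) ^ ((1 : ℝ) / L) := by
      rw [← Real.rpow_natCast, ← Real.rpow_mul (by positivity)]
      congr 1
      push_cast
      have : (L : ℝ) ≠ 0 := by exact_mod_cast hL.ne'
      field_simp
    have h5 : (0 : ℝ) ≤ (k.divisors.card : ℝ) := by positivity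
    calc (F.card : ℝ) ≤ 10 * (k.divisors.card : ℝ) * (k.divisors.card : ℝ) := h3
      _ = 10 * (k.divisors.card : ℝ) ^ 2 := by ring
      _ ≤ 10 * (C₀ * (k : ℝ) ^ ((1 : ℝ) / (2 * L : ℕ))) ^ 2 := by
          apply mul_le_mul_of_nonneg_left _ (by norm_num)
          exact pow_le_pow_left₀ h5 h2 2
      _ = 10 * C₀ ^ 2 * (k : ℝ) ^ ((1 : ℝ) / L) := by rw [mul_pow, h4]; ring

/-- sums of three squares -/
theorem r3_bound (L : ℕ) (hL : 0 < L) :
    ∃ C : ℝ, 1 ≤ C ∧ ∀ k : ℕ, 1 ≤ k → ∀ F : Finset (ℤ × ℤ × ℤ),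
      (∀ s ∈ F, s.1 ^ 2 + s.2.1 ^ 2 + s.2.2 ^ 2 = k) →
      (F.card : ℝ) ≤ C * (k : ℝ) ^ ((1 : ℝ) / 2 + 1 / L) := by
  classical
  obtain ⟨C, hC, h2⟩ := r2_bound L hL
  refine ⟨3 * C, by linarith, ?_⟩
  intro k hk F hF
  have hk1 : (1 : ℝ) ≤ k := by exact_mod_cast hk
  set r : ℕ := Nat.sqrt k with hr
  have hrk : r * r ≤ k := Nat.sqrt_le k
  have hr1 : (1 : ℝ) ≤ Real.sqrt k := by
    rw [Real.one_le_sqrt]; exact hk1
  have hrs : (r : ℝ) ≤ Real.sqrt k := by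
    apply Real.le_sqrt_of_sq_le
    rw [sq]; exact_mod_cast hrk
  have hmaps : ∀ s ∈ F, s.1 ∈ Finset.Icc (-(r : ℤ)) r := by
    intro s hs
    have h := hF s hs
    have h1 : s.1 ^ 2 ≤ (k : ℤ) := by nlinarith [sq_nonneg s.2.1, sq_nonneg s.2.2]
    have h3 : s.1.natAbs ≤ r := by
      rw [hr, Nat.le_sqrt']
      zify
      rw [sq_abs]
      exact h1
    rw [Finset.mem_Icc]
    omega
  rw [Finset.card_eq_sum_card_fiberwise hmaps]
  push_cast
  have hfib : ∀ a ∈ Finset.Icc (-(r : ℤ)) r,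
      ((F.filter (fun s => s.1 = a)).card : ℝ) ≤ C * (k : ℝ) ^ ((1 : ℝ) / L) := by
    intro a ha
    rw [Finset.mem_Icc] at ha
    have ha2 : a ^ 2 ≤ (k : ℤ) := by
      have : a ^ 2 ≤ (r : ℤ) ^ 2 := sq_le_sq' ha.1 ha.2
      have h3 : (r : ℤ) ^ 2 ≤ k := by rw [sq]; exact_mod_cast hrk
      exact this.trans h3
    obtain ⟨m, hm⟩ := Int.eq_ofNat_of_zero_le (sub_nonneg.2 ha2)
    have hinj : Set.InjOn (fun s : ℤ × ℤ × ℤ => s.2) (F.filter (fun s => s.1 = a)) := by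
      intro s hs t ht h
      have hs' := (Finset.mem_filter.1 (Finset.mem_coe.1 hs)).2
      have ht' := (Finset.mem_filter.1 (Finset.mem_coe.1 ht)).2
      exact Prod.ext (hs'.trans ht'.symm) h
    rw [← Finset.card_image_of_injOn hinj]
    have h3 := h2 m ((F.filter (fun s => s.1 = a)).image (fun s => s.2)) (by
      intro t ht
      rw [Finset.mem_image] at ht
      obtain ⟨s, hs, rfl⟩ := ht
      rw [Finset.mem_filter] at hs
      have h4 := hF s hs.1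
      rw [hs.2] at h4
      linarith)
    refine h3.trans ?_
    apply mul_le_mul_of_nonneg_left _ (by linarith)
    apply Real.rpow_le_rpow (by positivity) _ (by positivity)
    apply max_le _ hk1
    have h5 : (m : ℤ) ≤ k := by
      rw [← hm]; nlinarith [sq_nonneg a]
    exact_mod_cast h5
  refine (Finset.sum_le_sum hfib).trans ?_
  rw [Finset.sum_const, nsmul_eq_mul, Int.card_Icc]
  have hcard : (((r : ℤ) + 1 - -(r : ℤ)).toNat : ℝ) = 2 * r + 1 := by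
    have : ((r : ℤ) + 1 - -(r : ℤ)).toNat = 2 * r + 1 := by omega
    rw [this]; push_cast; ring
  rw [hcard, Real.rpow_add (by linarith), ← Real.sqrt_eq_rpow]
  have h6 : (0 : ℝ) ≤ (k : ℝ) ^ ((1 : ℝ) / L) := by positivity
  have h7 : 2 * (r : ℝ) + 1 ≤ 3 * Real.sqrt k := by linarith
  calc (2 * (r : ℝ) + 1) * (C * (k : ℝ) ^ ((1 : ℝ) / L))
      ≤ (3 * Real.sqrt k) * (C * (k : ℝ) ^ ((1 : ℝ) / L)) := by
        apply mul_le_mul_of_nonneg_right h7
        have : 0 ≤ C := by linarith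
        positivity
    _ = 3 * C * (Real.sqrt k * (k : ℝ) ^ ((1 : ℝ) / L)) := by ring

end BQA
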