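import Pool.Agent.BQ.A_Def

/-!
(9.1), (9.2): for an odd prime `p`, every integer quaternion `q` not divisible by `p` whose norm
is divisible by `p` has a left divisor of norm `p` (Euler's descent).
-/

open Quaternion

namespace BQA

theorem nq_eq (x : ℍ[ℤ]) : normSq x = x.re ^ 2 + x.imI ^ 2 + x.imJ ^ 2 + x.imK ^ 2 :=
  normSq_def' x

theorem nq_smul (m : ℤ) (x : ℍ[ℤ]) : normSq (m • x) = m ^ 2 * normSq x := by
  rw [nq_eq, nq_eq, re_zs, imI_zs, imJ_zs, imK_zs]; ring

theorem nq_nonneg (x : ℍ[ℤ]) : 0 ≤ normSq x := by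
  rw [nq_eq]; positivity

theorem nq_eq_zero {x : ℍ[ℤ]} : normSq x = 0 ↔ x = 0 := by
  rw [nq_eq]
  constructor
  · intro h
    refine qext ?_ ?_ ?_ ?_
    · show x.re = 0
      nlinarith [sq_nonneg x.re, sq_nonneg x.imI, sq_nonneg x.imJ, sq_nonneg x.imK]
    · show x.imI = 0
      nlinarith [sq_nonneg x.re, sq_nonneg x.imI, sq_nonneg x.imJ, sq_nonneg x.imK]
    · show x.imJ = 0
      nlinarith [sq_nonneg x.re, sq_nonneg x.imI, sq_nonneg x.imJ, sq_nonneg x.imK]
    · show x.imK = 0
      nlinarith [sq_nonneg x.re, sq_nonneg x.imI, sq_nonneg x.imJ, sq_nonneg x.imK]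
  · rintro rfl
    simp

theorem nq_pos {x : ℍ[ℤ]} (hx : x ≠ 0) : 0 < normSq x :=
  lt_of_le_of_ne (nq_nonneg x) (fun h => hx (nq_eq_zero.1 h.symm))

theorem dv_zero (m : ℤ) : DV m 0 := ⟨0, by simp⟩

theorem nq_dvd_of_dv {m : ℤ} {x : ℍ[ℤ]} (h : DV m x) : m ^ 2 ∣ normSq x := by
  obtain ⟨y, rfl⟩ := h
  exact ⟨normSq y, nq_smul _ _⟩

/-- congruent quaternions have congruent norms -/
theorem nq_sub_dvd {m : ℤ} {x y : ℍ[ℤ]} (h : DV m (x - y)) : m ∣ normSq x - normSq y := by
  rw [dv_iff] at h
  simp only [Quaternion.re_sub, Quaternion.imI_sub, Quaternion.imJ_sub, Quaternion.imK_sub] at h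
  obtain ⟨⟨a, ha⟩, ⟨b, hb⟩, ⟨c, hc⟩, ⟨d, hd⟩⟩ := h
  refine ⟨a * (x.re + y.re) + b * (x.imI + y.imI) + c * (x.imJ + y.imJ) +
    d * (x.imK + y.imK), ?_⟩
  rw [nq_eq, nq_eq]
  linear_combination (x.re + y.re) * ha + (x.imI + y.imI) * hb + (x.imJ + y.imJ) * hc +
    (x.imK + y.imK) * hd

/-- centred residues: for odd `m > 0` there is `y` congruent to `x` with `N y < m ^ 2` -/
theorem exists_residue {m : ℤ} (hm : 0 < m) (hodd : Odd m) (x : ℍ[ℤ]) :
    ∃ y : ℍ[ℤ], DV m (x - y) ∧ normSq y < m ^ 2 := by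
  obtain ⟨k, rfl⟩ := hodd
  have hk : 0 ≤ k := by omega
  have key : ∀ a : ℤ, ∃ b : ℤ, (2 * k + 1) ∣ a - b ∧ -k ≤ b ∧ b ≤ k := by
    intro a
    refine ⟨(a + k) % (2 * k + 1) - k, ?_, ?_, ?_⟩
    · have := Int.emod_add_mul_ediv (a + k) (2 * k + 1)
      exact ⟨(a + k) / (2 * k + 1), by linarith⟩
    · have := Int.emod_nonneg (a + k) (by omega : (2 * k + 1) ≠ 0)
      omega
    · have := Int.emod_lt_of_pos (a + k) hm
      omega
  obtain ⟨a, ha1, ha2, ha3⟩ := key x.re
  obtain ⟨b, hb1, hb2, hb3⟩ := key x.imI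
  obtain ⟨c, hc1, hc2, hc3⟩ := key x.imJ
  obtain ⟨d, hd1, hd2, hd3⟩ := key x.imK
  refine ⟨mk4 a b c d, ?_, ?_⟩
  · rw [dv_iff]
    exact ⟨ha1, hb1, hc1, hd1⟩
  · rw [nq_eq]
    simp only [mk4_re, mk4_imI, mk4_imJ, mk4_imK]
    have e1 : a ^ 2 ≤ k ^ 2 := by nlinarith
    have e2 : b ^ 2 ≤ k ^ 2 := by nlinarith
    have e3 : c ^ 2 ≤ k ^ 2 := by nlinarith
    have e4 : d ^ 2 ≤ k ^ 2 := by nlinarith
    nlinarith

/-- halving: if `N x` is even then `x * u` is even for some `u` of norm `2` -/
theorem exists_half {x : ℍ[ℤ]} (h : Even (normSq x)) :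
    ∃ u : ℍ[ℤ], normSq u = 2 ∧ DV 2 (x * u) := by
  rw [nq_eq] at h
  have hpar : Even (x.re + x.imI + x.imJ + x.imK) := by
    have : (x.re ^ 2 + x.imI ^ 2 + x.imJ ^ 2 + x.imK ^ 2) -
      (x.re + x.imI + x.imJ + x.imK) = x.re * (x.re - 1) + x.imI * (x.imI - 1) +
        x.imJ * (x.imJ - 1) + x.imK * (x.imK - 1) := by ring
    have ev : ∀ a : ℤ, Even (a * (a - 1)) := fun a => Int.even_mul_pred_self a
    have h2 := ((ev x.re).add (ev x.imI)).add (ev x.imJ) |>.add (ev x.imK)
    rw [← this] at h2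
    exact (Int.even_sub.1 h2).1 h
  have two : ∀ (c : ℍ[ℤ]), (Even c.re ∧ Even c.imI ∧ Even c.imJ ∧ Even c.imK) → DV 2 c := by
    intro c hc
    rw [dv_iff]
    exact ⟨hc.1.two_dvd, hc.2.1.two_dvd, hc.2.2.1.two_dvd, hc.2.2.2.two_dvd⟩
  by_cases hi : Even (x.re + x.imI)
  · refine ⟨mk4 1 1 0 0, by rw [nq_eq]; simp, two _ ?_⟩
    have hj : Even (x.imJ + x.imK) := by
      have : x.re + x.imI + x.imJ + x.imK = (x.re + x.imI) + (x.imJ + x.imK) := by ring
      rw [this] at hpar
      exact (Int.even_add.1 hpar).1 hi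
    simp only [Quaternion.re_mul, Quaternion.imI_mul, Quaternion.imJ_mul, Quaternion.imK_mul,
      mk4_re, mk4_imI, mk4_imJ, mk4_imK]
    rw [Int.even_add] at hi hj
    refine ⟨?_, ?_, ?_, ?_⟩
    all_goals ring_nf
    all_goals simp only [Int.even_add, Int.even_sub, even_neg] at *
    all_goals tauto
  · by_cases hj : Even (x.re + x.imJ)
    · refine ⟨mk4 1 0 1 0, by rw [nq_eq]; simp, two _ ?_⟩
      have hk : Even (x.imI + x.imK) := by
        have : x.re + x.imI + x.imJ + x.imK = (x.re + x.imJ) + (x.imI + x.imK) := by ring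
        rw [this] at hpar
        exact (Int.even_add.1 hpar).1 hj
      simp only [Quaternion.re_mul, Quaternion.imI_mul, Quaternion.imJ_mul, Quaternion.imK_mul,
        mk4_re, mk4_imI, mk4_imJ, mk4_imK]
      refine ⟨?_, ?_, ?_, ?_⟩
      all_goals ring_nf
      all_goals simp only [Int.even_add, Int.even_sub, even_neg] at *
      all_goals tauto
    · refine ⟨mk4 1 0 0 1, by rw [nq_eq]; simp, two _ ?_⟩
      simp only [Quaternion.re_mul, Quaternion.imI_mul, Quaternion.imJ_mul, Quaternion.imK_mul,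
        mk4_re, mk4_imI, mk4_imJ, mk4_imK]
      refine ⟨?_, ?_, ?_, ?_⟩
      all_goals ring_nf
      all_goals simp only [Int.even_add, Int.even_sub, even_neg] at *
      all_goals tauto

/-- (9.2) -/
theorem exists_prime_divisor {p : ℤ} (hp : Prime p) (hp0 : 0 < p) (h2 : ¬ p ∣ 2) {q : ℍ[ℤ]}
    (hq : ¬ DV p q) (hN : p ∣ normSq q) : ∃ z : ℍ[ℤ], normSq z = p ∧ DV p (star z * q) := by
  classical
  have hpodd : Odd p := by
    rcases Int.even_or_odd p with h | h
    · exfalso
      obtain ⟨t, ht⟩ := h.two_dvd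
      rcases hp.irreducible.isUnit_or_isUnit ht with h' | h'
      · rcases Int.isUnit_iff.1 h' with h'' | h'' <;> omega
      · rcases Int.isUnit_iff.1 h' with h'' | h''
        · apply h2; rw [ht, h'']; norm_num
        · rw [h''] at ht; omega
    · exact h
  -- the norm of an element of the right ideal is divisible by `p`
  have hdiv : ∀ x : ℍ[ℤ], DV p (star q * x) → p ∣ normSq x := by
    intro x hx
    by_contra hcon
    apply hq
    have h1 : DV p (star q * x * star x) := hx.mul_right _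
    rw [mul_assoc, Quaternion.self_mul_star, mul_coe_eq] at h1
    exact dv_star.1 (h1.cancel hp hcon)
  -- there is a nonzero element of norm less than `p ^ 2`
  obtain ⟨y0, hy0, hy0lt⟩ := exists_residue hp0 hpodd q
  have hy0q : DV p (star q * y0) := by
    have h1 : star q * y0 = (normSq q) • (1 : ℍ[ℤ]) - star q * (q - y0) := by
      rw [mul_sub, Quaternion.star_mul_self, ← mul_coe_eq, one_mul]; abel
    rw [h1]
    exact (dv_of_dvd hN _).sub (hy0.mul_left _)
  have hy0ne : y0 ≠ 0 := by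
    rintro rfl
    apply hq
    simpa using hy0
  -- minimal element
  let S : Set ℕ := {k | ∃ x : ℍ[ℤ], x ≠ 0 ∧ DV p (star q * x) ∧ normSq x = k}
  have hSne : S.Nonempty := by
    refine ⟨(normSq y0).toNat, y0, hy0ne, hy0q, ?_⟩
    exact (Int.toNat_of_nonneg (nq_nonneg _)).symm
  obtain ⟨x, hx0, hxq, hxk⟩ := Nat.sInf_mem hSne
  have hmin : ∀ z : ℍ[ℤ], z ≠ 0 → DV p (star q * z) → normSq x ≤ normSq z := by
    intro z hz hzq
    rw [hxk]
    have : sInf S ≤ (normSq z).toNat := Nat.sInf_le ⟨z, hz, hzq,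
      (Int.toNat_of_nonneg (nq_nonneg _)).symm⟩
    have h3 : (normSq z).toNat = normSq z := Int.toNat_of_nonneg (nq_nonneg _)
    rw [← h3]
    exact_mod_cast this
  obtain ⟨m, hm⟩ := hdiv x hxq
  have hmpos : 0 < m := by
    have := nq_pos hx0
    rw [hm] at this
    exact (mul_pos_iff_of_pos_left hp0).1 this
  have hmp : m < p := by
    have h1 := hmin y0 hy0ne hy0q
    rw [hm] at h1
    nlinarith
  have hpm : ¬ p ∣ m := fun h => by
    have := Int.le_of_dvd hmpos h
    omega
  have hm1 : m = 1 := by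
    by_contra hm1
    rcases Int.even_or_odd m with he | ho
    · -- halving
      have hev : Even (normSq x) := by rw [hm]; exact he.mul_left _
      obtain ⟨u, hu, w, hw⟩ := exists_half hev
      have hwq : DV p (star q * w) := by
        have h1 : DV p ((2 : ℤ) • (star q * w)) := by
          rw [← mul_smul_comm, ← hw, ← mul_assoc]
          exact hxq.mul_right _
        exact h1.cancel hp h2
      have hnw : 4 * normSq w = 2 * normSq x := by
        have := congrArg normSq hw
        rw [map_mul, nq_smul, hu] at this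
        linarith
      have hw0 : w ≠ 0 := by
        rintro rfl
        have := nq_pos hx0
        simp at hnw
        exact hx0 hnw
      have := hmin w hw0 hwq
      have := nq_pos hx0
      linarith
    · -- reduction modulo `m`
      obtain ⟨y, hy, hylt⟩ := exists_residue hmpos ho x
      have hmy : m ∣ normSq y := by
        have h1 := nq_sub_dvd hy
        have h2 : m ∣ normSq x := ⟨p, by rw [hm]; ring⟩
        have := dvd_sub h2 h1
        simpa using this
      obtain ⟨m', hm'⟩ := hmy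
      have hxy : DV m (x * star y) := by
        have h1 : x * star y = (normSq x) • (1 : ℍ[ℤ]) - x * star (x - y) := by
          rw [star_sub, mul_sub, Quaternion.self_mul_star, ← mul_coe_eq, one_mul]; abel
        rw [h1]
        exact (dv_of_dvd ⟨p, by rw [hm]; ring⟩ _).sub (hy.star.mul_left _)
      obtain ⟨z, hz⟩ := hxy
      have hzq : DV p (star q * z) := by
        have h1 : DV p (m • (star q * z)) := by
          rw [← mul_smul_comm, ← hz, ← mul_assoc]
          exact hxq.mul_right _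
        exact h1.cancel hp hpm
      have hy0' : y ≠ 0 := by
        rintro rfl
        have h1 : DV m x := by simpa using hy
        have h2 := nq_dvd_of_dv h1
        rw [hm] at h2
        have h3 : m ∣ p := by
          have h4 : m * m ∣ m * p := by
            rw [← sq]; rwa [mul_comm m p]
          exact (mul_dvd_mul_iff_left hmpos.ne').1 h4
        rcases (hp.irreducible.dvd_iff).1 h3 with h5 | h5
        · rcases Int.isUnit_iff.1 h5 with h6 | h6 <;> omega
        · exact hpm h5.dvd
      have hnz : m ^ 2 * normSq z = normSq x * normSq y := by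
        have := congrArg normSq hz
        rw [map_mul, nq_smul, Quaternion.normSq_star] at this
        linarith
      have hnz' : normSq z = p * m' := by
        have h1 : m ^ 2 * normSq z = m ^ 2 * (p * m') := by
          rw [hnz, hm, hm']; ring
        exact mul_left_cancel₀ (by positivity) h1
      have hz0 : z ≠ 0 := by
        rintro rfl
        have h1 := nq_pos hx0
        have h2 := nq_pos hy0'
        have h3 : normSq x * normSq y = 0 := by rw [← hnz]; simp
        have := mul_pos h1 h2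
        omega
      have hle := hmin z hz0 hzq
      rw [hnz', hm] at hle
      have hmm : m ≤ m' := le_of_mul_le_mul_left hle hp0
      rw [hm'] at hylt
      nlinarith
  refine ⟨x, by rw [hm, hm1, mul_one], ?_⟩
  have := hxq.star
  simpa using this

end BQA
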