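import Mathlib

/-!
# Hypercontractivity on products of a four point space

`av f` is the average of `f`, `Tk K f x = av_y (K x y * f y)`. `Hyp K`: the operator maps `L^2` to `L^4`
with norm at most one. The kernel `kk u v = 2/3 + (4/3) [u = v]` (noise `1/3`) on a four point space has
this property and the property passes to products.
-/

namespace Pool.Agent.BQ

open Finset

/-- The average. -/
noncomputable def av {X : Type*} [Fintype X] (f : X → ℝ) : ℝ := (∑ x, f x) / Fintype.card X

/-- The operator with kernel `K`. -/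
noncomputable def Tk {X : Type*} [Fintype X] (K : X → X → ℝ) (f : X → ℝ) (x : X) : ℝ :=
  av (fun y => K x y * f y)

/-- The operator has norm at most one from `L^2` to `L^4`. -/
def Hyp {X : Type*} [Fintype X] (K : X → X → ℝ) : Prop :=
  ∀ f : X → ℝ, av (fun x => (Tk K f x) ^ 4) ≤ (av (fun x => f x ^ 2)) ^ 2

section av
variable {X Y : Type*} [Fintype X] [Fintype Y]

theorem av_add (f g : X → ℝ) : av (fun x => f x + g x) = av f + av g := by
  unfold av; rw [sum_add_distrib, add_div]

theorem av_mul_left (c : ℝ) (f : X → ℝ) : av (fun x => c * f x) = c * av f := by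
  unfold av; rw [← mul_sum, mul_div_assoc]

theorem av_mul_right (c : ℝ) (f : X → ℝ) : av (fun x => f x * c) = av f * c := by
  unfold av; rw [← sum_mul, div_mul_eq_mul_div]

theorem av_mono {f g : X → ℝ} (h : ∀ x, f x ≤ g x) : av f ≤ av g := by
  unfold av
  exact div_le_div_of_nonneg_right (sum_le_sum fun x _ => h x) (Nat.cast_nonneg _)

theorem av_nonneg {f : X → ℝ} (h : ∀ x, 0 ≤ f x) : 0 ≤ av f := by
  unfold av
  exact div_nonneg (sum_nonneg fun x _ => h x) (Nat.cast_nonneg _)

theorem av_comm (f : X → Y → ℝ) :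
    av (fun x => av (fun y => f x y)) = av (fun y => av (fun x => f x y)) := by
  unfold av
  rw [← sum_div, ← sum_div, sum_comm, div_div, div_div, mul_comm]

theorem av_prod (f : X × Y → ℝ) : av f = av (fun x => av (fun y => f (x, y))) := by
  unfold av
  rw [← sum_div, Fintype.sum_prod_type, Fintype.card_prod, div_div]
  push_cast
  rw [mul_comm]

theorem av_equiv (e : X ≃ Y) (f : Y → ℝ) : av (fun x => f (e x)) = av f := by
  unfold av
  rw [Equiv.sum_comp e f, Fintype.card_congr e]

theorem av_cauchy (f g : X → ℝ) :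
    (av (fun x => f x * g x)) ^ 2 ≤ av (fun x => f x ^ 2) * av (fun x => g x ^ 2) := by
  unfold av
  rw [div_pow, div_mul_div_comm, ← pow_two]
  exact div_le_div_of_nonneg_right (sum_mul_sq_le_sq_mul_sq _ _ _) (by positivity)

end av

/-- The kernel of the noise operator on a four point space. -/
noncomputable def kk {α : Type*} [DecidableEq α] (u v : α) : ℝ := 2 / 3 + if u = v then 4 / 3 else 0

/-- The product of the noise kernel with a kernel. -/
noncomputable def kprod {α X : Type*} [DecidableEq α] (K : X → X → ℝ) (p q : α × X) : ℝ :=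
  kk p.1 q.1 * K p.2 q.2

theorem Tk_add {X : Type*} [Fintype X] (K : X → X → ℝ) (f g : X → ℝ) (x : X) :
    Tk K (fun y => f y + g y) x = Tk K f x + Tk K g x := by
  unfold Tk
  rw [← av_add]
  congr 1
  funext y
  ring

theorem Tk_smul {X : Type*} [Fintype X] (K : X → X → ℝ) (c : ℝ) (f : X → ℝ) (x : X) :
    Tk K (fun y => c * f y) x = c * Tk K f x := by
  unfold Tk
  rw [← av_mul_left]
  congr 1
  funext y
  ring

section prod
variable {α X : Type*} [Fintype α] [DecidableEq α] [Fintype X]

omit [DecidableEq α] in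
theorem Tk_av (K : X → X → ℝ) (f : α → X → ℝ) (x : X) :
    Tk K (fun y => av (fun v => f v y)) x = av (fun v => Tk K (f v) x) := by
  unfold Tk
  rw [av_comm]
  congr 1
  funext y
  rw [av_mul_left]

theorem Tk_kprod (h4 : Fintype.card α = 4) (K : X → X → ℝ) (f : α × X → ℝ) (v : α) (x : X) :
    Tk (kprod K) f (v, x) =
      2 / 3 * av (fun w => Tk K (fun y => f (w, y)) x) + 1 / 3 * Tk K (fun y => f (v, y)) x := by
  unfold Tk kprod
  rw [av_prod]
  simp only
  have h1 : ∀ w : α, av (fun y => kk v w * K x y * f (w, y)) =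
      2 / 3 * av (fun y => K x y * f (w, y)) +
        (if v = w then 4 / 3 else 0) * av (fun y => K x y * f (w, y)) := by
    intro w
    rw [← add_mul, ← av_mul_left]
    congr 1
    funext y
    unfold kk
    ring
  simp only [h1]
  rw [av_add, av_mul_left]
  congr 1
  unfold av
  rw [h4]
  simp only [ite_mul, zero_mul, sum_ite_eq, mem_univ, if_true]
  push_cast
  ring

omit [DecidableEq α] in
theorem av_sq_le4 (h4 : Fintype.card α = 4) (t : α → ℝ) (ht : ∀ v, 0 ≤ t v) :
    av (fun v => t v ^ 2) ≤ 4 * (av t) ^ 2 := by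
  unfold av
  rw [h4]
  have h1 : ∑ v, t v ^ 2 ≤ (∑ v, t v) ^ 2 := by
    rw [pow_two (∑ v, t v), sum_mul]
    refine sum_le_sum fun v _ => ?_
    rw [pow_two]
    exact mul_le_mul_of_nonneg_left (single_le_sum (fun w _ => ht w) (mem_univ v)) (ht v)
  push_cast
  nlinarith

/-- The noise kernel preserves hypercontractivity. -/
theorem hyp_prod (h4 : Fintype.card α = 4) {K : X → X → ℝ} (hK : Hyp K) :
    Hyp (kprod (α := α) K) := by
  intro f
  -- decomposition
  set a : X → ℝ := fun y => av (fun w => f (w, y)) with ha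
  set h : α → X → ℝ := fun v y => f (v, y) - a y with hh
  set A : X → ℝ := Tk K a with hA
  set B : α → X → ℝ := fun v => Tk K (h v) with hB
  have hTf : ∀ v x, Tk (kprod (α := α) K) f (v, x) = A x + 1 / 3 * B v x := by
    intro v x
    rw [Tk_kprod h4, ← Tk_av]
    have h1 : Tk K (fun y => f (v, y)) x = A x + B v x := by
      rw [hA, hB]
      simp only
      rw [← Tk_add]
      congr 1
      funext y
      simp [hh]
    rw [h1]
    have h2 : Tk K (fun y => av (fun w => f (w, y))) x = A x := rfl
    rw [h2]
    ring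
  have hBav : ∀ x, av (fun v => B v x) = 0 := by
    intro x
    rw [hB]
    rw [← Tk_av]
    have h1 : (fun y => av (fun v => h v y)) = fun _ : X => (0 : ℝ) := by
      funext y
      rw [hh]
      unfold av
      rw [sum_sub_distrib, sum_const, card_univ, h4, nsmul_eq_mul]
      have : a y = (∑ w, f (w, y)) / (4 : ℝ) := by
        rw [ha]; unfold av; rw [h4]; norm_num
      rw [this]
      push_cast
      ring
    rw [h1]
    unfold Tk av
    simp
  -- norms
  set α2 : ℝ := av (fun x => a x ^ 2) with hα2
  set s2 : ℝ := av (fun v => av (fun x => h v x ^ 2)) with hs2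
  have hα20 : 0 ≤ α2 := av_nonneg fun x => by positivity
  have hs20 : 0 ≤ s2 := av_nonneg fun v => av_nonneg fun x => by positivity
  have hff : av (fun p : α × X => f p ^ 2) = α2 + s2 := by
    rw [av_prod, av_comm]
    have h1 : ∀ y, av (fun v => f (v, y) ^ 2) = a y ^ 2 + av (fun v => h v y ^ 2) := by
      intro y
      have h2 : ∀ v, f (v, y) ^ 2 = a y ^ 2 + 2 * a y * h v y + h v y ^ 2 := by
        intro v; rw [hh]; ring
      simp only [h2]
      rw [av_add, av_add]
      have h3 : av (fun v : α => 2 * a y * h v y) = 0 := by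
        rw [av_mul_left]
        have : av (fun v => h v y) = 0 := by
          rw [hh]
          unfold av
          rw [sum_sub_distrib, sum_const, card_univ, h4, nsmul_eq_mul]
          have : a y = (∑ w, f (w, y)) / (4 : ℝ) := by
            rw [ha]; unfold av; rw [h4]; norm_num
          rw [this]
          push_cast
          ring
        rw [this, mul_zero]
      have h5 : av (fun _ : α => a y ^ 2) = a y ^ 2 := by
        unfold av
        rw [sum_const, card_univ, h4, nsmul_eq_mul]
        push_cast
        ring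
      rw [h3, h5]
      ring
    simp only [h1]
    rw [av_add]
    congr 1
    rw [av_comm]
  -- fourth moments
  set A4 : ℝ := av (fun x => A x ^ 4) with hA4
  set B4 : ℝ := av (fun v => av (fun x => B v x ^ 4)) with hB4
  have hA4le : A4 ≤ α2 ^ 2 := hK a
  have hB4le : B4 ≤ 4 * s2 ^ 2 := by
    have h1 : B4 ≤ av (fun v => (av (fun x => h v x ^ 2)) ^ 2) := av_mono fun v => hK (h v)
    exact h1.trans (av_sq_le4 h4 _ fun v => av_nonneg fun x => by positivity)
  have hB40 : 0 ≤ B4 := av_nonneg fun v => av_nonneg fun x => by positivity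
  have hA40 : 0 ≤ A4 := av_nonneg fun x => by positivity
  -- mixed moment
  set C : ℝ := av (fun x => A x ^ 2 * av (fun v => B v x ^ 2)) with hC
  have hC0 : 0 ≤ C := av_nonneg fun x => mul_nonneg (by positivity) (av_nonneg fun v => by positivity)
  have hCle : C ≤ 2 * α2 * s2 := by
    have h1 : C ^ 2 ≤ A4 * B4 := by
      have h2 := av_cauchy (fun x => A x ^ 2) (fun x => av (fun v => B v x ^ 2))
      refine h2.trans ?_
      have h3 : av (fun x => (A x ^ 2) ^ 2) = A4 := by
        rw [hA4]; congr 1; funext x; ring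
      rw [h3]
      refine mul_le_mul_of_nonneg_left ?_ hA40
      rw [hB4, av_comm]
      refine av_mono fun x => ?_
      have h5 := av_cauchy (fun _ : α => (1 : ℝ)) (fun v => B v x ^ 2)
      have h6 : av (fun _ : α => (1 : ℝ) ^ 2) = 1 := by
        unfold av
        rw [sum_const, card_univ, h4]
        norm_num
      rw [h6, one_mul] at h5
      simp only [one_mul] at h5
      refine h5.trans (le_of_eq ?_)
      congr 1; funext v; ring
    have h2 : C ^ 2 ≤ (2 * α2 * s2) ^ 2 := by
      refine h1.trans ?_
      calc A4 * B4 ≤ α2 ^ 2 * (4 * s2 ^ 2) := mul_le_mul hA4le hB4le hB40 (by positivity)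
        _ = _ := by ring
    exact le_of_sq_le_sq h2 (by positivity)
  -- expansion
  have hexp : av (fun p : α × X => (Tk (kprod (α := α) K) f p) ^ 4) ≤
      A4 + (2 / 3 + 2 / 27) * C + (2 / 27 + 1 / 81) * B4 := by
    have h1 : av (fun p : α × X => (Tk (kprod (α := α) K) f p) ^ 4) =
        av (fun x => av (fun v => (A x + 1 / 3 * B v x) ^ 4)) := by
      rw [av_prod, av_comm]
      congr 1
      funext x
      congr 1
      funext v
      rw [hTf]
    rw [h1]
    have h2 : ∀ x, av (fun v => (A x + 1 / 3 * B v x) ^ 4) ≤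
        A x ^ 4 + (2 / 3 + 2 / 27) * (A x ^ 2 * av (fun v => B v x ^ 2)) +
          (2 / 27 + 1 / 81) * av (fun v => B v x ^ 4) := by
      intro x
      have h3 : ∀ v, (A x + 1 / 3 * B v x) ^ 4 ≤
          A x ^ 4 + 4 / 3 * A x ^ 3 * B v x + (2 / 3 + 2 / 27) * (A x ^ 2 * B v x ^ 2) +
            (2 / 27 + 1 / 81) * B v x ^ 4 := by
        intro v
        nlinarith [sq_nonneg (B v x * (A x - B v x))]
      refine (av_mono h3).trans (le_of_eq ?_)
      rw [av_add, av_add, av_add, av_mul_left, av_mul_left, av_mul_left, av_mul_left, hBav]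
      have h5 : av (fun _ : α => A x ^ 4) = A x ^ 4 := by
        unfold av
        rw [sum_const, card_univ, h4, nsmul_eq_mul]
        push_cast
        ring
      rw [h5]
      ring
    refine (av_mono h2).trans (le_of_eq ?_)
    rw [av_add, av_add, av_mul_left, av_mul_left, hB4, av_comm (fun v x => B v x ^ 4)]
  refine hexp.trans ?_
  rw [hff]
  nlinarith [mul_nonneg hα20 hs20, sq_nonneg s2, sq_nonneg α2]

end prod

end Pool.Agent.BQ
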