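import Mathlib
import Pool.Agent.BQ.C_BON

/-!
# Noise on `ι → α`, `|α| = 4`

`NK` is the kernel of the noise operator (noise `1/3`) on `ι → α`. For an indicator function `D` of
average `μ` the third power of the operator satisfies `‖T^3 D‖_2^2 ≤ μ^(15/8)`.
-/

namespace Pool.Agent.BQ

open Finset

section
variable {X Y : Type*} [Fintype X] [Fintype Y]

theorem Tk_equiv (e : X ≃ Y) (K : Y → Y → ℝ) (f : X → ℝ) (x : X) :
    Tk (fun a b => K (e a) (e b)) f x = Tk K (fun y => f (e.symm y)) (e x) := by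
  unfold Tk
  rw [← av_equiv e]
  congr 1
  funext y
  simp

theorem hyp_equiv (e : X ≃ Y) {K : Y → Y → ℝ} (hK : Hyp K) : Hyp (fun a b => K (e a) (e b)) := by
  intro f
  have h := hK (fun y => f (e.symm y))
  rw [← av_equiv e, ← av_equiv e (fun y => f (e.symm y) ^ 2)] at h
  simp only [Equiv.symm_apply_apply] at h
  simp only [Tk_equiv]
  exact h

end

/-- The kernel of the noise operator on `ι → α`. -/
noncomputable def NK {ι α : Type*} [Fintype ι] [DecidableEq α] (x y : ι → α) : ℝ :=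
  ∏ c, kk (x c) (y c)

section
variable {α : Type*} [Fintype α] [DecidableEq α]

theorem hyp_fin (h4 : Fintype.card α = 4) (r : ℕ) : Hyp (NK (ι := Fin r) (α := α)) := by
  induction r with
  | zero =>
    intro f
    have h1 : ∀ g : (Fin 0 → α) → ℝ, av g = g default := by
      intro g
      unfold av
      rw [Fintype.sum_unique]
      simp
    simp only [h1]
    unfold Tk NK
    simp only [h1]
    simp only [Finset.univ_eq_empty, Finset.prod_empty, one_mul]
    exact le_of_eq (by ring)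
  | succ r ih =>
    have h1 := hyp_prod (α := α) h4 ih
    have h2 := hyp_equiv (Fin.consEquiv (fun _ : Fin (r + 1) => α)).symm h1
    have h3 : (fun a b : Fin (r + 1) → α => kprod (NK (ι := Fin r) (α := α))
        ((Fin.consEquiv (fun _ : Fin (r + 1) => α)).symm a)
        ((Fin.consEquiv (fun _ : Fin (r + 1) => α)).symm b)) = NK (ι := Fin (r + 1)) (α := α) := by
      funext a b
      unfold kprod NK
      rw [Fin.prod_univ_succ]
      rfl
    rw [← h3]
    exact h2

theorem hyp_NK (h4 : Fintype.card α = 4) (ι : Type*) [Fintype ι] [DecidableEq ι] :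
    Hyp (NK (ι := ι) (α := α)) := by
  have h1 := hyp_fin (α := α) h4 (Fintype.card ι)
  have h2 := hyp_equiv ((Fintype.equivFin ι).arrowCongr (Equiv.refl α)) h1
  have h3 : (fun a b : ι → α => NK
      (((Fintype.equivFin ι).arrowCongr (Equiv.refl α)) a)
      (((Fintype.equivFin ι).arrowCongr (Equiv.refl α)) b)) = NK (ι := ι) (α := α) := by
    funext a b
    unfold NK
    rw [← Equiv.prod_comp (Fintype.equivFin ι)]
    refine prod_congr rfl fun c _ => ?_
    simp [Equiv.arrowCongr]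
  rw [← h3]
  exact h2

omit [Fintype α] in
theorem kk_symm (u v : α) : kk u v = kk v u := by
  unfold kk
  by_cases h : u = v
  · simp [h]
  · simp [h, Ne.symm h]

omit [Fintype α] in
theorem kk_nonneg (u v : α) : 0 ≤ kk u v := by
  unfold kk
  split_ifs <;> norm_num

theorem sum_kk (h4 : Fintype.card α = 4) (v : α) : ∑ u, kk u v = 4 := by
  unfold kk
  rw [sum_add_distrib, sum_const, card_univ, h4]
  simp only [sum_ite_eq', mem_univ, if_true]
  norm_num

variable {ι : Type*} [Fintype ι] [DecidableEq ι]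

omit [Fintype α] [DecidableEq ι] in
theorem NK_symm (x y : ι → α) : NK x y = NK y x := by
  unfold NK
  exact prod_congr rfl fun c _ => kk_symm _ _

omit [Fintype α] [DecidableEq ι] in
theorem NK_nonneg (x y : ι → α) : 0 ≤ NK x y := prod_nonneg fun c _ => kk_nonneg _ _

theorem av_NK (h4 : Fintype.card α = 4) (y : ι → α) : av (fun x => NK x y) = 1 := by
  unfold av NK
  have h1 : ∑ x : ι → α, ∏ c, kk (x c) (y c) = ∏ c, ∑ u, kk u (y c) := by
    rw [prod_univ_sum, Fintype.piFinset_univ]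
  rw [h1]
  simp only [sum_kk h4, prod_const, card_univ]
  rw [Fintype.card_fun, h4]
  push_cast
  rw [div_self (by positivity)]

theorem av_Tk_NK (h4 : Fintype.card α = 4) (f : (ι → α) → ℝ) :
    av (Tk NK f) = av f := by
  unfold Tk
  rw [av_comm]
  congr 1
  funext y
  rw [av_mul_right, av_NK h4, one_mul]

theorem Tk_NK_adj (f g : (ι → α) → ℝ) :
    av (fun x => f x * Tk NK g x) = av (fun x => Tk NK f x * g x) := by
  have h1 : av (fun x => f x * Tk NK g x) = av (fun x => av (fun y => f x * NK x y * g y)) := by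
    congr 1
    funext x
    unfold Tk
    rw [← av_mul_left]
    congr 1
    funext y
    ring
  have h2 : av (fun x => Tk NK f x * g x) = av (fun x => av (fun y => f y * NK x y * g x)) := by
    congr 1
    funext x
    unfold Tk
    rw [← av_mul_right]
    congr 1
    funext y
    ring
  rw [h1, h2, av_comm]
  congr 1
  funext y
  congr 1
  funext x
  rw [NK_symm]

theorem Tk_NK_nonneg {f : (ι → α) → ℝ} (hf : ∀ x, 0 ≤ f x) (x : ι → α) : 0 ≤ Tk NK f x :=
  av_nonneg fun y => mul_nonneg (NK_nonneg _ _) (hf y)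

/-- `‖T D‖_2^2 ≤ ‖D‖_1 ‖D‖_2` for nonnegative `D`. -/
theorem step43 (h4 : Fintype.card α = 4) {D : (ι → α) → ℝ} (hD : ∀ x, 0 ≤ D x) :
    (av (fun x => (Tk NK D x) ^ 2)) ^ 2 ≤ (av D) ^ 2 * av (fun x => D x ^ 2) := by
  set X : ℝ := av (fun x => (Tk NK D x) ^ 2) with hX
  set G : (ι → α) → ℝ := Tk NK (Tk NK D) with hG
  have hX0 : 0 ≤ X := av_nonneg fun x => by positivity
  have h2nn : 0 ≤ av (fun x => D x ^ 2) := av_nonneg fun x => by positivity
  have h1 : X = av (fun x => D x * G x) := by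
    rw [hG, Tk_NK_adj, hX]
    congr 1
    funext x
    ring
  have hG4 : av (fun x => G x ^ 4) ≤ X ^ 2 := hyp_NK (α := α) h4 ι (Tk NK D)
  -- first Cauchy-Schwarz
  have h2 : X ^ 2 ≤ av D * av (fun x => D x * G x ^ 2) := by
    rw [h1]
    have h3 := av_cauchy (fun x => Real.sqrt (D x)) (fun x => Real.sqrt (D x) * G x)
    have e1 : av (fun x => Real.sqrt (D x) * (Real.sqrt (D x) * G x)) = av (fun x => D x * G x) := by
      congr 1
      funext x
      rw [← mul_assoc, Real.mul_self_sqrt (hD x)]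
    have e2 : av (fun x => Real.sqrt (D x) ^ 2) = av D := by
      congr 1
      funext x
      exact Real.sq_sqrt (hD x)
    have e3 : av (fun x => (Real.sqrt (D x) * G x) ^ 2) = av (fun x => D x * G x ^ 2) := by
      congr 1
      funext x
      rw [mul_pow, Real.sq_sqrt (hD x)]
    rw [e1, e2, e3] at h3
    exact h3
  -- second Cauchy-Schwarz
  have h3 : (av (fun x => D x * G x ^ 2)) ^ 2 ≤ av (fun x => D x ^ 2) * X ^ 2 := by
    refine (av_cauchy D (fun x => G x ^ 2)).trans ?_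
    refine mul_le_mul_of_nonneg_left ?_ h2nn
    refine le_trans (le_of_eq ?_) hG4
    congr 1
    funext x
    ring
  have hD0 : 0 ≤ av D := av_nonneg hD
  rcases hX0.eq_or_lt with h0 | h0
  · rw [← h0]
    have : 0 ≤ (av D) ^ 2 * av (fun x => D x ^ 2) := by positivity
    simpa using this
  · have hDG : 0 ≤ av (fun x => D x * G x ^ 2) := av_nonneg fun x => mul_nonneg (hD x) (sq_nonneg _)
    have h5 : (X ^ 2) ^ 2 ≤ ((av D) ^ 2 * av (fun x => D x ^ 2)) * X ^ 2 := by
      calc (X ^ 2) ^ 2 ≤ (av D * av (fun x => D x * G x ^ 2)) ^ 2 :=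
            pow_le_pow_left₀ (by positivity) h2 2
        _ = (av D) ^ 2 * (av (fun x => D x * G x ^ 2)) ^ 2 := by ring
        _ ≤ (av D) ^ 2 * (av (fun x => D x ^ 2) * X ^ 2) :=
            mul_le_mul_of_nonneg_left h3 (by positivity)
        _ = _ := by ring
    have h6 : X ^ 2 * X ^ 2 ≤ ((av D) ^ 2 * av (fun x => D x ^ 2)) * X ^ 2 := by
      calc X ^ 2 * X ^ 2 = (X ^ 2) ^ 2 := by ring
        _ ≤ _ := h5
    exact le_of_mul_le_mul_right h6 (by positivity)

/-- Three steps. -/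
theorem noise3 (h4 : Fintype.card α = 4) {D : (ι → α) → ℝ} (hD : ∀ x, D x = 0 ∨ D x = 1) :
    (av (fun x => (Tk NK (Tk NK (Tk NK D)) x) ^ 2)) ^ 8 ≤ (av D) ^ 15 := by
  have hD0 : ∀ x, 0 ≤ D x := by
    intro x
    rcases hD x with h | h <;> simp [h]
  have hDD : av (fun x => D x ^ 2) = av D := by
    congr 1
    funext x
    rcases hD x with h | h <;> rw [h] <;> norm_num
  set μ : ℝ := av D with hμ
  have hμ0 : 0 ≤ μ := av_nonneg hD0
  set D1 := Tk NK D with hD1
  set D2 := Tk NK D1 with hD2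
  have h1n : ∀ x, 0 ≤ D1 x := Tk_NK_nonneg hD0
  have h2n : ∀ x, 0 ≤ D2 x := Tk_NK_nonneg h1n
  have m1 : av D1 = μ := av_Tk_NK h4 D
  have m2 : av D2 = μ := by rw [hD2, av_Tk_NK h4 D1, m1]
  have s1 := step43 h4 hD0
  have s2 := step43 h4 h1n
  have s3 := step43 h4 h2n
  rw [← hD1, ← hμ, hDD] at s1
  rw [← hD2, m1] at s2
  rw [m2] at s3
  set Y1 := av (fun x => D1 x ^ 2) with hY1
  set Y2 := av (fun x => D2 x ^ 2) with hY2
  set Y3 := av (fun x => (Tk NK D2 x) ^ 2) with hY3
  have y1 : 0 ≤ Y1 := av_nonneg fun x => by positivity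
  have y2 : 0 ≤ Y2 := av_nonneg fun x => by positivity
  have y3 : 0 ≤ Y3 := av_nonneg fun x => by positivity
  have t1 : Y1 ^ 2 ≤ μ ^ 3 := by
    calc Y1 ^ 2 ≤ μ ^ 2 * μ := s1
      _ = μ ^ 3 := by ring
  have t2 : Y2 ^ 4 ≤ μ ^ 7 := by
    calc Y2 ^ 4 = (Y2 ^ 2) ^ 2 := by ring
      _ ≤ (μ ^ 2 * Y1) ^ 2 := pow_le_pow_left₀ (by positivity) s2 2
      _ = μ ^ 4 * Y1 ^ 2 := by ring
      _ ≤ μ ^ 4 * μ ^ 3 := mul_le_mul_of_nonneg_left t1 (by positivity)
      _ = μ ^ 7 := by ring
  calc Y3 ^ 8 = (Y3 ^ 2) ^ 4 := by ring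
    _ ≤ (μ ^ 2 * Y2) ^ 4 := pow_le_pow_left₀ (by positivity) s3 4
    _ = μ ^ 8 * Y2 ^ 4 := by ring
    _ ≤ μ ^ 8 * μ ^ 7 := mul_le_mul_of_nonneg_left t2 (by positivity)
    _ = μ ^ 15 := by ring

end

end Pool.Agent.BQ
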