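import Mathlib

/-!
# Independent sequences (Kleitman-Winston)

`G` is a relation on a finite type. `edg G A` is the number of ordered edges in `A`,
`ind G A y` the number of sequences of length `y` in `A` without edges. If every set with more than
`b` elements spans at least `γ |A| ^ 2` ordered edges, then
`ind G A y ≤ ∑ k ≤ t, (y choose k) |A| ^ k b ^ (y - k)` as soon as `|A| (1 - γ) ^ t ≤ b`.
-/

namespace Pool.Agent.BQ

open Finset

open Classical in
/-- The number of ordered edges in `A`. -/
noncomputable def edg {Ω : Type*} (G : Ω → Ω → Prop) (A : Finset Ω) : ℕ :=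
  ((A ×ˢ A).filter (fun p => G p.1 p.2)).card

/-- The sequence `u` has no edges. -/
def Indep {Ω : Type*} (G : Ω → Ω → Prop) {y : ℕ} (u : Fin y → Ω) : Prop :=
  ∀ i j, i ≠ j → ¬ G (u i) (u j)

open Classical in
/-- The number of sequences of length `y` in `A` without edges. -/
noncomputable def ind {Ω : Type*} [Fintype Ω] (G : Ω → Ω → Prop) (A : Finset Ω) (y : ℕ) : ℕ :=
  (univ.filter (fun u : Fin y → Ω => (∀ i, u i ∈ A) ∧ Indep G u)).card

section
variable {Ω : Type*} [Fintype Ω]

open Classical in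
theorem ind_le_pow (G : Ω → Ω → Prop) (A : Finset Ω) (y : ℕ) : ind G A y ≤ A.card ^ y := by
  unfold ind
  have h : (univ.filter (fun u : Fin y → Ω => (∀ i, u i ∈ A) ∧ Indep G u)) ⊆
      Fintype.piFinset (fun _ : Fin y => A) := by
    intro u hu
    simp only [mem_filter, mem_univ, true_and] at hu
    exact Fintype.mem_piFinset.2 hu.1
  refine (card_le_card h).trans ?_
  rw [Fintype.card_piFinset_const]

theorem ind_mono (G : Ω → Ω → Prop) {A B : Finset Ω} (h : A ⊆ B) (y : ℕ) :
    ind G A y ≤ ind G B y := by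
  classical
  unfold ind
  refine card_le_card ?_
  intro u hu
  simp only [mem_filter, mem_univ, true_and] at hu ⊢
  exact ⟨fun i => h (hu.1 i), hu.2⟩

open Classical in
/-- Avoid `a`, or the first entry `a` is in position `i` and the rest is not adjacent to `a`. -/
theorem ind_step (G : Ω → Ω → Prop) (A : Finset Ω) (a : Ω) (y : ℕ) :
    ind G A (y + 1) ≤ ind G (A.erase a) (y + 1) +
      (y + 1) * ind G (A.filter (fun b => ¬ G a b)) y := by
  have h1 : (univ.filter (fun u : Fin (y + 1) → Ω => (∀ i, u i ∈ A) ∧ Indep G u)) ⊆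
      (univ.filter (fun u : Fin (y + 1) → Ω => (∀ i, u i ∈ A.erase a) ∧ Indep G u)) ∪
      (univ.filter (fun u : Fin (y + 1) → Ω => (∃ i, u i = a) ∧ (∀ i, u i ∈ A) ∧ Indep G u)) := by
    intro u hu
    simp only [mem_filter, mem_univ, true_and, mem_union] at hu ⊢
    by_cases h : ∃ i, u i = a
    · exact Or.inr ⟨h, hu⟩
    · push Not at h
      exact Or.inl ⟨fun i => mem_erase.2 ⟨h i, hu.1 i⟩, hu.2⟩
  have h2 : (univ.filter (fun u : Fin (y + 1) → Ω =>
      (∃ i, u i = a) ∧ (∀ i, u i ∈ A) ∧ Indep G u)).card ≤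
      (y + 1) * ind G (A.filter (fun b => ¬ G a b)) y := by
    have h3 : (univ.filter (fun u : Fin (y + 1) → Ω =>
        (∃ i, u i = a) ∧ (∀ i, u i ∈ A) ∧ Indep G u)) ⊆
        ((univ : Finset (Fin (y + 1))) ×ˢ (univ.filter (fun w : Fin y → Ω =>
          (∀ i, w i ∈ A.filter (fun b => ¬ G a b)) ∧ Indep G w))).image
          (fun z => Fin.insertNth z.1 a z.2) := by
      intro u hu
      simp only [mem_filter, mem_univ, true_and] at hu
      obtain ⟨⟨i, hi⟩, hA, hI⟩ := hu
      rw [mem_image]
      refine ⟨(i, fun j => u (i.succAbove j)), ?_, ?_⟩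
      · rw [mem_product]
        refine ⟨mem_univ _, ?_⟩
        simp only [mem_filter, mem_univ, true_and]
        refine ⟨fun j => ⟨hA _, ?_⟩, fun j j' hj => ?_⟩
        · have := hI i (i.succAbove j) (Fin.succAbove_ne i j).symm
          rwa [hi] at this
        · exact hI _ _ (fun h => hj (Fin.succAbove_right_injective h))
      · funext j
        refine Fin.succAboveCases i ?_ ?_ j
        · simp [hi]
        · intro j'
          simp
    refine (card_le_card h3).trans (card_image_le.trans ?_)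
    rw [card_product, card_univ, Fintype.card_fin]
    rfl
  calc ind G A (y + 1) ≤ _ := card_le_card h1
    _ ≤ _ := card_union_le _ _
    _ ≤ _ := Nat.add_le_add_left h2 _

/-- The bound. -/
noncomputable def kwB (m b : ℝ) (y t : ℕ) : ℝ :=
  ∑ k ∈ range (t + 1), (y.choose k : ℝ) * m ^ k * b ^ (y - k)

theorem kwB_nonneg {m b : ℝ} (hm : 0 ≤ m) (hb : 0 ≤ b) (y t : ℕ) : 0 ≤ kwB m b y t :=
  sum_nonneg fun _ _ => by positivity

theorem kwB_mono {m m' b : ℝ} (hm : 0 ≤ m) (h : m ≤ m') (hb : 0 ≤ b) (y t : ℕ) :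
    kwB m b y t ≤ kwB m' b y t :=
  sum_le_sum fun k _ => by
    have := pow_le_pow_left₀ hm h k
    gcongr

theorem kwB_pow_le {m b : ℝ} (hm : 0 ≤ m) (hb : 0 ≤ b) (y t : ℕ) : b ^ y ≤ kwB m b y t := by
  have h := single_le_sum (f := fun k => (y.choose k : ℝ) * m ^ k * b ^ (y - k))
    (s := range (t + 1)) (fun k _ => by positivity) (mem_range.2 (Nat.succ_pos t))
  unfold kwB
  simpa using h

theorem bern {m : ℝ} (hm : 0 ≤ m) (k : ℕ) : m ^ (k + 1) + (k + 1) * m ^ k ≤ (m + 1) ^ (k + 1) := by
  induction k with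
  | zero => simp
  | succ k ih =>
    have h1 : (m + 1) ^ (k + 1 + 1) = (m + 1) ^ (k + 1) * (m + 1) := pow_succ _ _
    rw [h1]
    have h2 : (m ^ (k + 1) + (k + 1) * m ^ k) * (m + 1) ≤ (m + 1) ^ (k + 1) * (m + 1) :=
      mul_le_mul_of_nonneg_right ih (by linarith)
    refine le_trans ?_ h2
    have h3 : 0 ≤ m ^ k := by positivity
    have h4 : (m ^ (k + 1) + (k + 1) * m ^ k) * (m + 1) =
        m ^ (k + 1 + 1) + ((k : ℝ) + 1 + 1) * m ^ (k + 1) + (k + 1) * m ^ k := by ring
    rw [h4]
    push_cast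
    have : 0 ≤ ((k : ℝ) + 1) * m ^ k := by positivity
    linarith

theorem kwB_step {m b : ℝ} (hm : 0 ≤ m) (hb : 0 ≤ b) (y t : ℕ) :
    kwB m b (y + 1) (t + 1) + (y + 1) * kwB m b y t ≤ kwB (m + 1) b (y + 1) (t + 1) := by
  unfold kwB
  rw [sum_range_succ' _ (t + 1), sum_range_succ' _ (t + 1), mul_sum]
  simp only [Nat.choose_zero_right, Nat.cast_one, pow_zero, mul_one, one_mul, Nat.sub_zero]
  have key : ∀ k ∈ range (t + 1),
      ((y + 1).choose (k + 1) : ℝ) * m ^ (k + 1) * b ^ (y + 1 - (k + 1)) +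
        ((y : ℝ) + 1) * ((y.choose k : ℝ) * m ^ k * b ^ (y - k)) ≤
      ((y + 1).choose (k + 1) : ℝ) * (m + 1) ^ (k + 1) * b ^ (y + 1 - (k + 1)) := by
    intro k _
    have e : y + 1 - (k + 1) = y - k := by omega
    rw [e]
    have hc : ((y : ℝ) + 1) * (y.choose k : ℝ) = ((y + 1).choose (k + 1) : ℝ) * (k + 1) := by
      exact_mod_cast Nat.add_one_mul_choose_eq y k
    have hB := bern hm k
    have h5 : 0 ≤ ((y + 1).choose (k + 1) : ℝ) * b ^ (y - k) := by positivity
    calc ((y + 1).choose (k + 1) : ℝ) * m ^ (k + 1) * b ^ (y - k) +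
          ((y : ℝ) + 1) * ((y.choose k : ℝ) * m ^ k * b ^ (y - k))
        = ((y + 1).choose (k + 1) : ℝ) * m ^ (k + 1) * b ^ (y - k) +
          (((y : ℝ) + 1) * (y.choose k : ℝ)) * (m ^ k * b ^ (y - k)) := by ring
      _ = ((y + 1).choose (k + 1) : ℝ) * b ^ (y - k) * (m ^ (k + 1) + (k + 1) * m ^ k) := by
          rw [hc]; ring
      _ ≤ ((y + 1).choose (k + 1) : ℝ) * b ^ (y - k) * (m + 1) ^ (k + 1) :=
          mul_le_mul_of_nonneg_left hB h5
      _ = _ := by ring
  have := sum_le_sum key
  rw [sum_add_distrib] at this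
  linarith

omit [Fintype Ω] in
/-- A vertex of large degree. -/
theorem exists_deg (G : Ω → Ω → Prop) [DecidableRel G] (A : Finset Ω) (hA : A.Nonempty) {γ : ℝ}
    (h : γ * (A.card : ℝ) ^ 2 ≤ edg G A) :
    ∃ a ∈ A, γ * A.card ≤ ((A.filter (fun b => G a b)).card : ℝ) := by
  by_contra hcon
  push Not at hcon
  have h1 : (edg G A : ℝ) = ∑ a ∈ A, ((A.filter (fun b => G a b)).card : ℝ) := by
    unfold edg
    have : ((A ×ˢ A).filter (fun p => G p.1 p.2)).card =
        ∑ a ∈ A, (A.filter (fun b => G a b)).card := by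
      rw [card_filter, sum_product]
      refine sum_congr rfl fun a _ => ?_
      rw [card_filter]
    rw [← Nat.cast_sum, ← this]
    congr!
  have h2 : (edg G A : ℝ) < ∑ _a ∈ A, γ * (A.card : ℝ) := by
    rw [h1]
    exact sum_lt_sum_of_nonempty hA hcon
  rw [sum_const, nsmul_eq_mul] at h2
  nlinarith

/-- Independent sequences (Kleitman-Winston). -/
theorem kw (G : Ω → Ω → Prop) {γ b : ℝ} (hb : 0 ≤ b) (hγ : 0 < γ) (hγ1 : γ ≤ 1)
    (hS : ∀ A : Finset Ω, b < A.card → γ * (A.card : ℝ) ^ 2 ≤ edg G A) :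
    ∀ (m : ℕ) (A : Finset Ω) (t y : ℕ), A.card ≤ m → (A.card : ℝ) * (1 - γ) ^ t ≤ b →
      (ind G A y : ℝ) ≤ kwB A.card b y t := by
  classical
  intro m
  induction m with
  | zero =>
    intro A t y hA _
    have h0 : A.card = 0 := Nat.le_zero.1 hA
    have h1 := ind_le_pow G A y
    rw [h0] at h1
    have h2 : (ind G A y : ℝ) ≤ (0 : ℝ) ^ y := by exact_mod_cast h1
    refine h2.trans ((pow_le_pow_left₀ le_rfl hb y).trans ?_)
    exact kwB_pow_le (Nat.cast_nonneg _) hb y t
  | succ m ih =>
    intro A t y hA ht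
    by_cases hbA : (A.card : ℝ) ≤ b
    · have h1 : (ind G A y : ℝ) ≤ (A.card : ℝ) ^ y := by exact_mod_cast ind_le_pow G A y
      refine h1.trans ((pow_le_pow_left₀ (Nat.cast_nonneg _) hbA y).trans ?_)
      exact kwB_pow_le (Nat.cast_nonneg _) hb y t
    · push Not at hbA
      have hApos : 0 < (A.card : ℝ) := lt_of_le_of_lt hb hbA
      have hAne : A.Nonempty := by
        rw [← card_pos]
        exact_mod_cast hApos
      cases t with
      | zero => simp at ht; linarith
      | succ t =>
        cases y with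
        | zero =>
          have h1 : (ind G A 0 : ℝ) ≤ 1 := by exact_mod_cast (ind_le_pow G A 0)
          refine h1.trans ?_
          have := kwB_pow_le (m := (A.card : ℝ)) (b := b) (Nat.cast_nonneg _) hb 0 (t + 1)
          simpa using this
        | succ y =>
          obtain ⟨a, haA, ha⟩ := exists_deg G A hAne (hS A hbA)
          have hdeg : 1 ≤ (A.filter (fun b => G a b)).card := by
            have : (0 : ℝ) < ((A.filter (fun b => G a b)).card : ℝ) :=
              lt_of_lt_of_le (by positivity) ha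
            exact_mod_cast this
          have hsplit : (A.filter (fun b => G a b)).card + (A.filter (fun b => ¬ G a b)).card =
              A.card := card_filter_add_card_filter_not (s := A) (fun b => G a b)
          have hE : (A.erase a).card = A.card - 1 := card_erase_of_mem haA
          have hApos' : 0 < A.card := hAne.card_pos
          have hEr : ((A.erase a).card : ℝ) = A.card - 1 := by
            rw [hE, Nat.cast_sub hApos']; simp
          have ih1 := ih (A.erase a) (t + 1) (y + 1) (by omega) (by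
            rw [hEr]
            have : 0 ≤ (1 - γ) ^ (t + 1) := pow_nonneg (by linarith) _
            nlinarith)
          have hle : ((A.filter (fun b => ¬ G a b)).card : ℝ) ≤ (A.card : ℝ) * (1 - γ) := by
            have : ((A.filter (fun b => G a b)).card : ℝ) +
              ((A.filter (fun b => ¬ G a b)).card : ℝ) = A.card := by exact_mod_cast hsplit
            nlinarith
          have ih2 := ih (A.filter (fun b => ¬ G a b)) t y (by omega) (by
            have : 0 ≤ (1 - γ) ^ t := pow_nonneg (by linarith) _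
            calc ((A.filter (fun b => ¬ G a b)).card : ℝ) * (1 - γ) ^ t
                ≤ ((A.card : ℝ) * (1 - γ)) * (1 - γ) ^ t := mul_le_mul_of_nonneg_right hle this
              _ = (A.card : ℝ) * (1 - γ) ^ (t + 1) := by ring
              _ ≤ b := ht)
          have ih2' : (ind G (A.filter (fun b => ¬ G a b)) y : ℝ) ≤
              kwB ((A.card : ℝ) - 1) b y t := by
            refine ih2.trans (kwB_mono (Nat.cast_nonneg _) ?_ hb y t)
            have : (A.filter (fun b => ¬ G a b)).card + 1 ≤ A.card := by omega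
            have h3 : ((A.filter (fun b => ¬ G a b)).card : ℝ) + 1 ≤ A.card := by exact_mod_cast this
            linarith
          rw [hEr] at ih1
          have hst : (ind G A (y + 1) : ℝ) ≤ (ind G (A.erase a) (y + 1) : ℝ) +
              ((y : ℝ) + 1) * (ind G (A.filter (fun b => ¬ G a b)) y : ℝ) := by
            exact_mod_cast ind_step G A a y
          have hm1 : (0 : ℝ) ≤ (A.card : ℝ) - 1 := by
            have : (1 : ℝ) ≤ A.card := by exact_mod_cast hApos'
            linarith
          have hk := kwB_step hm1 hb y t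
          have e1 : (A.card : ℝ) - 1 + 1 = A.card := by ring
          rw [e1] at hk
          calc (ind G A (y + 1) : ℝ) ≤ _ := hst
            _ ≤ kwB ((A.card : ℝ) - 1) b (y + 1) (t + 1) +
                ((y : ℝ) + 1) * kwB ((A.card : ℝ) - 1) b y t := by
                refine add_le_add ih1 (mul_le_mul_of_nonneg_left ih2' (by positivity))
            _ ≤ _ := hk

/-- The number of all independent sequences. -/
theorem kw_univ (G : Ω → Ω → Prop) {γ β : ℝ} (hβ : 0 ≤ β) (hβ1 : β ≤ 1) (hγ : 0 < γ) (hγ1 : γ ≤ 1)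
    (hS : ∀ A : Finset Ω, β * Fintype.card Ω < A.card → γ * (A.card : ℝ) ^ 2 ≤ edg G A)
    (t y : ℕ) (ht : (1 - γ) ^ t ≤ β) :
    (ind G univ y : ℝ) ≤ 2 ^ y * β ^ (y - t) * (Fintype.card Ω : ℝ) ^ y := by
  have h := kw G (b := β * Fintype.card Ω) (by positivity) hγ hγ1 hS (Fintype.card Ω) univ t y
    (by rw [card_univ]) (by
      rw [card_univ, mul_comm]
      exact mul_le_mul_of_nonneg_right ht (Nat.cast_nonneg _))
  refine h.trans ?_
  rw [card_univ]
  unfold kwB
  set ω : ℝ := (Fintype.card Ω : ℝ) with hω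
  have hω0 : 0 ≤ ω := Nat.cast_nonneg _
  have h1 : ∀ k ∈ range (t + 1), (y.choose k : ℝ) * ω ^ k * (β * ω) ^ (y - k) ≤
      (y.choose k : ℝ) * (β ^ (y - t) * ω ^ y) := by
    intro k hk
    have hkt : k ≤ t := Nat.lt_succ_iff.1 (mem_range.1 hk)
    by_cases hky : k ≤ y
    · have e : ω ^ k * (β * ω) ^ (y - k) = β ^ (y - k) * ω ^ y := by
        rw [mul_pow, ← mul_assoc, mul_comm (ω ^ k), mul_assoc, ← pow_add]
        congr 2
        omega
      rw [mul_assoc, e]
      have : β ^ (y - k) ≤ β ^ (y - t) := pow_le_pow_of_le_one hβ hβ1 (by omega)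
      gcongr
    · have : y.choose k = 0 := Nat.choose_eq_zero_of_lt (by omega)
      rw [this]
      simp
  refine (sum_le_sum h1).trans ?_
  rw [← sum_mul]
  have h2 : ∑ k ∈ range (t + 1), (y.choose k : ℝ) ≤ 2 ^ y := by
    have h3 : ∑ k ∈ range (t + 1), (y.choose k : ℝ) ≤
        ∑ k ∈ range (max t y + 1), (y.choose k : ℝ) :=
      sum_le_sum_of_subset_of_nonneg (range_subset_range.2 (by omega)) fun _ _ _ => by positivity
    have h4 : ∑ k ∈ range (max t y + 1), (y.choose k : ℝ) =
        ∑ k ∈ range (y + 1), (y.choose k : ℝ) := by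
      symm
      refine sum_subset (range_subset_range.2 (by omega)) ?_
      intro k _ hk
      rw [mem_range, not_lt] at hk
      rw [Nat.choose_eq_zero_of_lt (by omega)]
      simp
    have h5 : ∑ k ∈ range (y + 1), (y.choose k : ℝ) = 2 ^ y := by
      exact_mod_cast Nat.sum_range_choose y
    linarith
  calc (∑ k ∈ range (t + 1), (y.choose k : ℝ)) * (β ^ (y - t) * ω ^ y) ≤
      2 ^ y * (β ^ (y - t) * ω ^ y) := mul_le_mul_of_nonneg_right h2 (by positivity)
    _ = _ := by ring

end

end Pool.Agent.BQ
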