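import Mathlib
import Pool.Agent.BQ.C_KW

/-!
# Sets with few edges in a random sample

If `G` is a graph on `Ω` with the supersaturation property of `kw_univ`, then for a uniform sample
`X : Fin N → Ω` it is very unlikely that some `Z ⊆ Fin N` with at least `z` elements spans few edges.
-/

namespace Pool.Agent.BQ

open Finset

open Classical in
/-- The number of ordered edges of a family of vertices. -/
noncomputable def edgeN {Ω α : Type*} [Fintype α] (G : Ω → Ω → Prop) (u : α → Ω) : ℕ :=
  (univ.filter (fun p : α × α => G (u p.1) (u p.2))).card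

open Classical in
/-- The number of ordered edges inside `Z` of the sample `X`. -/
noncomputable def eN {Ω : Type*} {N : ℕ} (G : Ω → Ω → Prop) (X : Fin N → Ω)
    (Z : Finset (Fin N)) : ℕ :=
  ((Z ×ˢ Z).filter (fun p => G (X p.1) (X p.2))).card

open Classical in
/-- Restricting a uniform family to a subset of the indices gives a uniform family. -/
theorem card_comp_le {α β Ω : Type*} [Fintype α] [Fintype β] [DecidableEq α] [DecidableEq β]
    [Fintype Ω] (τ : α → β)
    (hτ : Function.Injective τ) (P : (α → Ω) → Prop) :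
    (univ.filter (fun X : β → Ω => P (X ∘ τ))).card * Fintype.card Ω ^ Fintype.card α ≤
      Fintype.card Ω ^ Fintype.card β * (univ.filter P).card := by
  have e1 : Fintype.card Ω ^ Fintype.card α = Fintype.card (α → Ω) := by simp
  have e2 : Fintype.card Ω ^ Fintype.card β = Fintype.card (β → Ω) := by simp
  rw [e1, e2, ← card_univ, ← card_univ, ← card_product, ← card_product]
  refine card_le_card_of_injOn
    (fun z => (Function.extend τ z.2 z.1, z.1 ∘ τ)) ?_ ?_
  · rintro ⟨X, v⟩ h
    simp only [coe_product, Set.mem_prod, mem_coe, mem_filter, mem_univ, true_and, and_true] at h ⊢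
    exact h
  · rintro ⟨X, v⟩ _ ⟨X', v'⟩ _ e
    simp only [Prod.mk.injEq] at e
    obtain ⟨e3, e4⟩ := e
    have hv : v = v' := by
      funext i
      have := congrFun e3 (τ i)
      rwa [hτ.extend_apply, hτ.extend_apply] at this
    have hX : X = X' := by
      funext b
      by_cases hb : ∃ a, τ a = b
      · obtain ⟨a, rfl⟩ := hb
        exact congrFun e4 a
      · have := congrFun e3 b
        rwa [Function.extend_apply' _ _ _ hb, Function.extend_apply' _ _ _ hb] at this
    rw [hv, hX]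

section
variable {Ω : Type*} [Fintype Ω]

open Classical in
/-- Sequences with few edges. -/
theorem few_edges (G : Ω → Ω → Prop) {γ β : ℝ} (hβ : 0 < β) (hβ1 : β ≤ 1)
    (hγ : 0 < γ) (hγ1 : γ ≤ 1) (hΩ : 0 < Fintype.card Ω)
    (hS : ∀ A : Finset Ω, β * Fintype.card Ω < A.card → γ * (A.card : ℝ) ^ 2 ≤ edg G A)
    (t y w : ℕ) (ht : (1 - γ) ^ t ≤ β) :
    ((univ.filter (fun u : Fin y → Ω => edgeN G u ≤ w)).card : ℝ) ≤
      4 ^ y * β ^ (y - w - t) * (Fintype.card Ω : ℝ) ^ y := by
  set ω : ℝ := (Fintype.card Ω : ℝ) with hω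
  have hω0 : 0 < ω := by rw [hω]; exact_mod_cast hΩ
  -- the isolated positions
  have hsub : (univ.filter (fun u : Fin y → Ω => edgeN G u ≤ w)) ⊆
      ((univ : Finset (Finset (Fin y))).filter (fun I => y ≤ I.card + w)).biUnion
        (fun I => univ.filter (fun u : Fin y → Ω =>
          Indep G (u ∘ (I.orderEmbOfFin rfl : Fin I.card → Fin y)))) := by
    intro u hu
    simp only [mem_filter, mem_univ, true_and, mem_biUnion] at hu ⊢
    set I : Finset (Fin y) := univ.filter (fun i => ∀ j, ¬ G (u i) (u j)) with hI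
    refine ⟨I, ?_, ?_⟩
    · have h1 : (univ.filter (fun i : Fin y => ¬ ∀ j, ¬ G (u i) (u j))).card ≤ edgeN G u := by
        unfold edgeN
        have hex : ∀ i : Fin y, (¬ ∀ j, ¬ G (u i) (u j)) → ∃ j, G (u i) (u j) := by
          intro i hi
          by_contra hcon
          exact hi (fun j hj => hcon ⟨j, hj⟩)
        have : (univ.filter (fun i : Fin y => ¬ ∀ j, ¬ G (u i) (u j))) ⊆
            (univ.filter (fun p : Fin y × Fin y => G (u p.1) (u p.2))).image Prod.fst := by
          intro i hi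
          simp only [mem_filter, mem_univ, true_and] at hi
          obtain ⟨j, hj⟩ := hex i hi
          rw [mem_image]
          exact ⟨(i, j), by simp [hj], rfl⟩
        exact (card_le_card this).trans card_image_le
      have h2 : I.card + (univ.filter (fun i : Fin y => ¬ ∀ j, ¬ G (u i) (u j))).card = y := by
        have := card_filter_add_card_filter_not (s := (univ : Finset (Fin y)))
          (fun i => ∀ j, ¬ G (u i) (u j))
        simpa [hI] using this
      omega
    · intro i j hij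
      have hi : (I.orderEmbOfFin rfl i) ∈ I := Finset.orderEmbOfFin_mem _ _ _
      have hi2 := (mem_filter.1 hi).2
      exact hi2 _
  have hcard : ∀ I : Finset (Fin y), y ≤ I.card + w →
      ((univ.filter (fun u : Fin y → Ω =>
          Indep G (u ∘ (I.orderEmbOfFin rfl : Fin I.card → Fin y)))).card : ℝ) ≤
        2 ^ y * β ^ (y - w - t) * ω ^ y := by
    intro I hI
    have h1 := card_comp_le (Ω := Ω) (I.orderEmbOfFin rfl : Fin I.card → Fin y)
      (I.orderEmbOfFin rfl).injective (fun v => Indep G v)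
    rw [Fintype.card_fin, Fintype.card_fin] at h1
    have h2 : ((univ.filter (fun v : Fin I.card → Ω => Indep G v)).card : ℝ) =
        (ind G univ I.card : ℝ) := by
      unfold ind
      simp only [mem_univ, implies_true, true_and]
    have h3 := kw_univ G hβ.le hβ1 hγ hγ1 hS t I.card ht
    have h4 : ((univ.filter (fun u : Fin y → Ω =>
        Indep G (u ∘ (I.orderEmbOfFin rfl : Fin I.card → Fin y)))).card : ℝ) * ω ^ I.card ≤
        ω ^ y * (ind G univ I.card : ℝ) := by
      rw [← h2, hω]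
      exact_mod_cast h1
    have h5 : ((univ.filter (fun u : Fin y → Ω =>
        Indep G (u ∘ (I.orderEmbOfFin rfl : Fin I.card → Fin y)))).card : ℝ) * ω ^ I.card ≤
        (2 ^ I.card * β ^ (I.card - t) * ω ^ y) * ω ^ I.card := by
      refine h4.trans ?_
      calc ω ^ y * (ind G univ I.card : ℝ) ≤
          ω ^ y * (2 ^ I.card * β ^ (I.card - t) * ω ^ I.card) :=
            mul_le_mul_of_nonneg_left h3 (by positivity)
        _ = _ := by ring
    have h6 := le_of_mul_le_mul_right h5 (by positivity)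
    refine h6.trans ?_
    have hIy : I.card ≤ y := by
      have := card_le_univ I
      simpa using this
    have h7 : (2 : ℝ) ^ I.card ≤ 2 ^ y := pow_le_pow_right₀ (by norm_num) hIy
    have h8 : β ^ (I.card - t) ≤ β ^ (y - w - t) := pow_le_pow_of_le_one hβ.le hβ1 (by omega)
    gcongr
  calc ((univ.filter (fun u : Fin y → Ω => edgeN G u ≤ w)).card : ℝ)
      ≤ ((((univ : Finset (Finset (Fin y))).filter (fun I => y ≤ I.card + w)).biUnion
        (fun I => univ.filter (fun u : Fin y → Ω =>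
          Indep G (u ∘ (I.orderEmbOfFin rfl : Fin I.card → Fin y))))).card : ℝ) := by
        exact_mod_cast card_le_card hsub
    _ ≤ ∑ I ∈ (univ : Finset (Finset (Fin y))).filter (fun I => y ≤ I.card + w),
        ((univ.filter (fun u : Fin y → Ω =>
          Indep G (u ∘ (I.orderEmbOfFin rfl : Fin I.card → Fin y)))).card : ℝ) := by
        exact_mod_cast card_biUnion_le
    _ ≤ ∑ I ∈ (univ : Finset (Finset (Fin y))).filter (fun I => y ≤ I.card + w),
        2 ^ y * β ^ (y - w - t) * ω ^ y :=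
        sum_le_sum fun I hI => hcard I (mem_filter.1 hI).2
    _ = (((univ : Finset (Finset (Fin y))).filter (fun I => y ≤ I.card + w)).card : ℝ) *
        (2 ^ y * β ^ (y - w - t) * ω ^ y) := by rw [sum_const, nsmul_eq_mul]
    _ ≤ (2 : ℝ) ^ y * (2 ^ y * β ^ (y - w - t) * ω ^ y) := by
        have : (((univ : Finset (Finset (Fin y))).filter (fun I => y ≤ I.card + w)).card : ℝ) ≤
            2 ^ y := by
          have h := card_filter_le (univ : Finset (Finset (Fin y))) (fun I => y ≤ I.card + w)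
          rw [card_univ, Fintype.card_finset, Fintype.card_fin] at h
          exact_mod_cast h
        exact mul_le_mul_of_nonneg_right this (by positivity)
    _ = _ := by
        have : (4 : ℝ) ^ y = 2 ^ y * 2 ^ y := by rw [← mul_pow]; norm_num
        rw [this]; ring

end

open Classical in
/-- All pairs of different values are equally likely. -/
theorem emb_pair {α ζ : Type*} [Fintype α] [Fintype ζ] (i j : α) {a b a' b' : ζ} (hab : a ≠ b)
    (hab' : a' ≠ b') :
    (univ.filter (fun τ : α ↪ ζ => τ i = a ∧ τ j = b)).card =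
      (univ.filter (fun τ : α ↪ ζ => τ i = a' ∧ τ j = b')).card := by
  set π : Equiv.Perm ζ := (Equiv.swap a a').trans (Equiv.swap (Equiv.swap a a' b) b') with hπ
  have h1 : π a = a' := by
    rw [hπ, Equiv.trans_apply, Equiv.swap_apply_left]
    refine Equiv.swap_apply_of_ne_of_ne ?_ hab'
    intro h
    have h2 : Equiv.swap a a' a = Equiv.swap a a' b := by rw [Equiv.swap_apply_left]; exact h
    exact hab ((Equiv.swap a a').injective h2)
  have h2 : π b = b' := by
    rw [hπ, Equiv.trans_apply, Equiv.swap_apply_left]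
  refine card_bij' (fun τ _ => τ.trans π.toEmbedding) (fun τ _ => τ.trans π.symm.toEmbedding)
    ?_ ?_ ?_ ?_
  · intro τ hτ
    simp only [mem_filter, mem_univ, true_and] at hτ ⊢
    refine ⟨?_, ?_⟩
    · simp [hτ.1, h1]
    · simp [hτ.2, h2]
  · intro τ hτ
    simp only [mem_filter, mem_univ, true_and] at hτ ⊢
    refine ⟨?_, ?_⟩
    · simp [hτ.1, ← h1]
    · simp [hτ.2, ← h2]
  · intro τ _
    ext x
    simp
  · intro τ _
    ext x
    simp

open Classical in
/-- The average number of edges of a random injective family. -/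
theorem emb_edges {α ζ Ω : Type*} [Fintype α] [Fintype ζ] (G : Ω → Ω → Prop)
    (hirr : ∀ a, ¬ G a a) (f : ζ → Ω) :
    (Fintype.card ζ * (Fintype.card ζ - 1)) * ∑ τ : α ↪ ζ, edgeN G (f ∘ τ) =
      (Fintype.card α * (Fintype.card α - 1)) * (edgeN G f * Fintype.card (α ↪ ζ)) := by
  -- rewrite the sum
  have h1 : ∑ τ : α ↪ ζ, edgeN G (f ∘ τ) =
      ∑ p ∈ (univ : Finset α).offDiag, ∑ r ∈ univ.filter (fun r : ζ × ζ => G (f r.1) (f r.2)),
        (univ.filter (fun τ : α ↪ ζ => τ p.1 = r.1 ∧ τ p.2 = r.2)).card := by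
    have h2 : ∀ τ : α ↪ ζ, edgeN G (f ∘ τ) =
        ∑ p ∈ (univ : Finset α).offDiag, ∑ r ∈ univ.filter (fun r : ζ × ζ => G (f r.1) (f r.2)),
          if τ p.1 = r.1 ∧ τ p.2 = r.2 then 1 else 0 := by
      intro τ
      have h3 : ∀ p : α × α, (∑ r ∈ univ.filter (fun r : ζ × ζ => G (f r.1) (f r.2)),
          if τ p.1 = r.1 ∧ τ p.2 = r.2 then 1 else 0) =
          if G (f (τ p.1)) (f (τ p.2)) then 1 else 0 := by
        intro p
        rw [sum_filter]
        rw [sum_eq_single (τ p.1, τ p.2)]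
        · simp
        · intro r _ hr
          have : ¬ (τ p.1 = r.1 ∧ τ p.2 = r.2) := by
            rintro ⟨h4, h5⟩
            exact hr (Prod.ext h4.symm h5.symm)
          simp [this]
        · intro h; exact absurd (mem_univ _) h
      simp only [h3]
      unfold edgeN
      rw [card_filter]
      symm
      refine sum_subset (subset_univ _) ?_
      intro p _ hp
      rw [mem_offDiag] at hp
      have hp' : p.1 = p.2 := by
        by_contra hcon
        exact hp ⟨mem_univ _, mem_univ _, hcon⟩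
      simp [hp', hirr]
    simp only [h2]
    rw [sum_comm]
    refine sum_congr rfl fun p _ => ?_
    rw [sum_comm]
    refine sum_congr rfl fun r _ => ?_
    rw [card_filter]
  have h4 : ∀ p ∈ (univ : Finset α).offDiag, ∀ r : ζ × ζ, r.1 ≠ r.2 →
      (Fintype.card ζ * (Fintype.card ζ - 1)) *
        (univ.filter (fun τ : α ↪ ζ => τ p.1 = r.1 ∧ τ p.2 = r.2)).card =
        Fintype.card (α ↪ ζ) := by
    intro p hp r hr
    have hp' : p.1 ≠ p.2 := (mem_offDiag.1 hp).2.2
    have h5 : Fintype.card (α ↪ ζ) = ∑ r' ∈ (univ : Finset ζ).offDiag,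
        (univ.filter (fun τ : α ↪ ζ => τ p.1 = r'.1 ∧ τ p.2 = r'.2)).card := by
      rw [← card_univ, card_eq_sum_card_fiberwise (f := fun τ : α ↪ ζ => (τ p.1, τ p.2))
        (t := (univ : Finset ζ).offDiag)]
      · refine sum_congr rfl fun r' _ => ?_
        congr 1
        ext τ
        simp [Prod.ext_iff]
      · intro τ _
        simp only [coe_offDiag, coe_univ, Set.mem_offDiag, Set.mem_univ, true_and]
        exact fun h => hp' (τ.injective h)
    rw [h5]
    have h6 : ∀ r' ∈ (univ : Finset ζ).offDiag,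
        (univ.filter (fun τ : α ↪ ζ => τ p.1 = r'.1 ∧ τ p.2 = r'.2)).card =
        (univ.filter (fun τ : α ↪ ζ => τ p.1 = r.1 ∧ τ p.2 = r.2)).card := by
      intro r' hr'
      exact emb_pair p.1 p.2 (mem_offDiag.1 hr').2.2 hr
    rw [sum_congr rfl h6, sum_const, offDiag_card, card_univ, smul_eq_mul]
    congr 1
    rw [Nat.mul_sub, mul_one]
  rw [h1, mul_sum]
  have h7 : ∀ p ∈ (univ : Finset α).offDiag,
      (Fintype.card ζ * (Fintype.card ζ - 1)) *
        ∑ r ∈ univ.filter (fun r : ζ × ζ => G (f r.1) (f r.2)),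
        (univ.filter (fun τ : α ↪ ζ => τ p.1 = r.1 ∧ τ p.2 = r.2)).card =
      edgeN G f * Fintype.card (α ↪ ζ) := by
    intro p hp
    rw [mul_sum]
    have h8 : ∀ r ∈ univ.filter (fun r : ζ × ζ => G (f r.1) (f r.2)),
        (Fintype.card ζ * (Fintype.card ζ - 1)) *
        (univ.filter (fun τ : α ↪ ζ => τ p.1 = r.1 ∧ τ p.2 = r.2)).card =
        Fintype.card (α ↪ ζ) := by
      intro r hr
      refine h4 p hp r ?_
      intro h
      have := (mem_filter.1 hr).2
      rw [h] at this
      exact hirr _ this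
    rw [sum_congr rfl h8, sum_const, smul_eq_mul]
    rfl
  rw [sum_congr rfl h7, sum_const, offDiag_card, card_univ, smul_eq_mul]
  congr 1
  rw [Nat.mul_sub, mul_one]

open Classical in
/-- Half of the injective families in `Z` have few edges. -/
theorem half_emb {N y w : ℕ} {Ω : Type*} (G : Ω → Ω → Prop) (hirr : ∀ a, ¬ G a a)
    (X : Fin N → Ω) (Z : Finset (Fin N)) (hZ : 2 ≤ Z.card)
    (h : 2 * (y * (y - 1)) * eN G X Z ≤ w * (Z.card * (Z.card - 1))) :
    Fintype.card (Fin y ↪ Z) ≤
      2 * (univ.filter (fun τ : Fin y ↪ Fin N => edgeN G (X ∘ τ) ≤ w)).card := by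
  set f : Z → Ω := fun z => X z with hf
  have hE : edgeN G f = eN G X Z := by
    unfold edgeN eN
    refine card_bij' (fun p _ => ((p.1 : Fin N), (p.2 : Fin N)))
      (fun p hp => (⟨p.1, (mem_product.1 (mem_filter.1 hp).1).1⟩,
        ⟨p.2, (mem_product.1 (mem_filter.1 hp).1).2⟩)) ?_ ?_ ?_ ?_
    · intro p hp
      simp only [mem_filter, mem_univ, true_and] at hp
      simp only [mem_filter, mem_product, coe_mem, true_and]
      exact hp
    · intro p hp
      have := (mem_filter.1 hp).2
      simp only [mem_filter, mem_univ, true_and]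
      exact this
    · intro p _
      rfl
    · intro p _
      rfl
  have h1 := emb_edges (α := Fin y) G hirr f
  rw [hE, Fintype.card_coe, Fintype.card_fin] at h1
  set S := ∑ τ : Fin y ↪ Z, edgeN G (f ∘ τ) with hS
  set c := Fintype.card (Fin y ↪ Z) with hc
  have hpos : 0 < Z.card * (Z.card - 1) := Nat.mul_pos (by omega) (by omega)
  have h2 : 2 * S ≤ w * c := by
    have h3 : (Z.card * (Z.card - 1)) * (2 * S) ≤ (Z.card * (Z.card - 1)) * (w * c) := by
      calc (Z.card * (Z.card - 1)) * (2 * S) = 2 * ((Z.card * (Z.card - 1)) * S) := by ring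
        _ = 2 * ((y * (y - 1)) * (eN G X Z * c)) := by rw [h1]
        _ = (2 * (y * (y - 1)) * eN G X Z) * c := by ring
        _ ≤ (w * (Z.card * (Z.card - 1))) * c := Nat.mul_le_mul_right _ h
        _ = _ := by ring
    exact Nat.le_of_mul_le_mul_left h3 hpos
  -- Markov
  set B := univ.filter (fun τ : Fin y ↪ Z => w < edgeN G (f ∘ τ)) with hB
  set A := univ.filter (fun τ : Fin y ↪ Z => edgeN G (f ∘ τ) ≤ w) with hA
  have h4 : A.card + B.card = c := by
    have := card_filter_add_card_filter_not (s := (univ : Finset (Fin y ↪ Z)))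
      (fun τ => edgeN G (f ∘ τ) ≤ w)
    rw [card_univ] at this
    rw [← hc] at this
    have e : (univ.filter (fun τ : Fin y ↪ Z => ¬ edgeN G (f ∘ τ) ≤ w)) = B := by
      rw [hB]
      refine filter_congr fun τ _ => ?_
      exact not_le
    rw [e] at this
    exact this
  have h5 : (w + 1) * B.card ≤ S := by
    calc (w + 1) * B.card = ∑ τ ∈ B, (w + 1) := by rw [sum_const, smul_eq_mul, mul_comm]
      _ ≤ ∑ τ ∈ B, edgeN G (f ∘ τ) := sum_le_sum fun τ hτ => (mem_filter.1 hτ).2
      _ ≤ S := sum_le_sum_of_subset (subset_univ _)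
  have h6 : 2 * B.card ≤ c := by
    have h7 : (w + 1) * (2 * B.card) ≤ (w + 1) * c := by
      calc (w + 1) * (2 * B.card) = 2 * ((w + 1) * B.card) := by ring
        _ ≤ 2 * S := Nat.mul_le_mul_left _ h5
        _ ≤ w * c := h2
        _ ≤ (w + 1) * c := Nat.mul_le_mul_right _ (by omega)
    exact Nat.le_of_mul_le_mul_left h7 (Nat.succ_pos w)
  have h8 : A.card ≤ (univ.filter (fun τ : Fin y ↪ Fin N => edgeN G (X ∘ τ) ≤ w)).card := by
    refine card_le_card_of_injOn (fun τ => τ.trans (Function.Embedding.subtype _)) ?_ ?_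
    · intro τ hτ
      have h9 := (mem_filter.1 (mem_coe.1 hτ)).2
      rw [mem_coe, mem_filter]
      refine ⟨mem_univ _, ?_⟩
      exact h9
    · intro τ _ τ' _ e
      ext x
      have := DFunLike.congr_fun e x
      exact congrArg Fin.val this
  omega

open Classical in
/-- It is unlikely that a sample has a large set with few edges. -/
theorem sample_bad {Ω : Type*} [Fintype Ω] (G : Ω → Ω → Prop) (hirr : ∀ a, ¬ G a a) {γ β : ℝ}
    (hβ : 0 < β) (hβ1 : β ≤ 1) (hγ : 0 < γ) (hγ1 : γ ≤ 1) (hΩ : 0 < Fintype.card Ω)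
    (hS : ∀ A : Finset Ω, β * Fintype.card Ω < A.card → γ * (A.card : ℝ) ^ 2 ≤ edg G A)
    (t y w N z : ℕ) (ht : (1 - γ) ^ t ≤ β) (hy : 0 < y) (hyz : 2 * y ≤ z) :
    ((univ.filter (fun X : Fin N → Ω => ∃ Z : Finset (Fin N), z ≤ Z.card ∧
      2 * (y * (y - 1)) * eN G X Z ≤ w * (Z.card * (Z.card - 1)))).card : ℝ) ≤
      2 * (8 * N / z) ^ y * β ^ (y - w - t) * (Fintype.card Ω : ℝ) ^ N := by
  set ω : ℝ := (Fintype.card Ω : ℝ) with hω
  have hω0 : 0 < ω := by rw [hω]; exact_mod_cast hΩ
  have hz0 : 0 < z := by omega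
  have hz0' : (0 : ℝ) < z := by exact_mod_cast hz0
  set Bad := univ.filter (fun X : Fin N → Ω => ∃ Z : Finset (Fin N), z ≤ Z.card ∧
      2 * (y * (y - 1)) * eN G X Z ≤ w * (Z.card * (Z.card - 1))) with hBad
  set T : (Fin N → Ω) → Finset (Fin y ↪ Fin N) := fun X =>
    univ.filter (fun τ : Fin y ↪ Fin N => edgeN G (X ∘ τ) ≤ w) with hT
  -- lower bound
  have h1 : ∀ X ∈ Bad, ((z : ℝ) / 2) ^ y ≤ 2 * ((T X).card : ℝ) := by
    intro X hX
    obtain ⟨Z, hZ, hfew⟩ := (mem_filter.1 hX).2
    have h2 := half_emb G hirr X Z (by omega) hfew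
    have h3 : Fintype.card (Fin y ↪ Z) = (Z.card).descFactorial y := by
      rw [Fintype.card_embedding_eq, Fintype.card_coe, Fintype.card_fin]
    have h4 : (Z.card + 1 - y) ^ y ≤ (Z.card).descFactorial y :=
      Nat.pow_sub_le_descFactorial Z.card y
    have h5 : (Z.card + 1 - y) ^ y ≤ 2 * (T X).card := by
      rw [h3] at h2
      exact h4.trans h2
    have h6 : (z : ℝ) / 2 ≤ ((Z.card + 1 - y : ℕ) : ℝ) := by
      have h7 : z ≤ 2 * (Z.card + 1 - y) := by omega
      have h8 : (z : ℝ) ≤ 2 * ((Z.card + 1 - y : ℕ) : ℝ) := by exact_mod_cast h7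
      linarith
    calc ((z : ℝ) / 2) ^ y ≤ (((Z.card + 1 - y : ℕ) : ℝ)) ^ y :=
          pow_le_pow_left₀ (by positivity) h6 y
      _ ≤ 2 * ((T X).card : ℝ) := by exact_mod_cast h5
  -- upper bound
  have h2 : ∀ τ : Fin y ↪ Fin N,
      ((univ.filter (fun X : Fin N → Ω => edgeN G (X ∘ τ) ≤ w)).card : ℝ) ≤
        4 ^ y * β ^ (y - w - t) * ω ^ N := by
    intro τ
    have h3 : (univ.filter (fun X : Fin N → Ω => edgeN G (X ∘ τ) ≤ w)).card *
        Fintype.card Ω ^ y ≤
        Fintype.card Ω ^ N * (univ.filter (fun u : Fin y → Ω => edgeN G u ≤ w)).card := by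
      have h3 := card_comp_le (Ω := Ω) (τ : Fin y → Fin N) τ.injective (fun u => edgeN G u ≤ w)
      rw [Fintype.card_fin, Fintype.card_fin] at h3
      convert h3
    have h4 := few_edges G hβ hβ1 hγ hγ1 hΩ hS t y w ht
    have h5 : ((univ.filter (fun X : Fin N → Ω => edgeN G (X ∘ τ) ≤ w)).card : ℝ) * ω ^ y ≤
        ω ^ N * ((univ.filter (fun u : Fin y → Ω => edgeN G u ≤ w)).card : ℝ) := by
      rw [hω]
      exact_mod_cast h3
    have h6 : ((univ.filter (fun X : Fin N → Ω => edgeN G (X ∘ τ) ≤ w)).card : ℝ) * ω ^ y ≤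
        (4 ^ y * β ^ (y - w - t) * ω ^ N) * ω ^ y := by
      refine h5.trans ?_
      calc ω ^ N * ((univ.filter (fun u : Fin y → Ω => edgeN G u ≤ w)).card : ℝ) ≤
          ω ^ N * (4 ^ y * β ^ (y - w - t) * ω ^ y) :=
            mul_le_mul_of_nonneg_left h4 (by positivity)
        _ = _ := by ring
    exact le_of_mul_le_mul_right h6 (by positivity)
  have h3 : ∑ X : Fin N → Ω, ((T X).card : ℝ) ≤ (N : ℝ) ^ y * (4 ^ y * β ^ (y - w - t) * ω ^ N) := by
    have h4 : ∑ X : Fin N → Ω, ((T X).card : ℝ) = ∑ τ : Fin y ↪ Fin N,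
        ((univ.filter (fun X : Fin N → Ω => edgeN G (X ∘ τ) ≤ w)).card : ℝ) := by
      have h5 : ∑ X : Fin N → Ω, (T X).card = ∑ τ : Fin y ↪ Fin N,
          (univ.filter (fun X : Fin N → Ω => edgeN G (X ∘ τ) ≤ w)).card := by
        simp only [hT, card_filter]
        rw [sum_comm]
      exact_mod_cast h5
    rw [h4]
    refine (sum_le_sum fun τ _ => h2 τ).trans ?_
    rw [sum_const, card_univ, nsmul_eq_mul, Fintype.card_embedding_eq, Fintype.card_fin,
      Fintype.card_fin]
    have h6 : ((N.descFactorial y : ℕ) : ℝ) ≤ (N : ℝ) ^ y := by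
      exact_mod_cast Nat.descFactorial_le_pow N y
    exact mul_le_mul_of_nonneg_right h6 (by positivity)
  have h4 : (Bad.card : ℝ) * ((z : ℝ) / 2) ^ y ≤ 2 * ∑ X : Fin N → Ω, ((T X).card : ℝ) := by
    calc (Bad.card : ℝ) * ((z : ℝ) / 2) ^ y = ∑ X ∈ Bad, ((z : ℝ) / 2) ^ y := by
          rw [sum_const, nsmul_eq_mul]
      _ ≤ ∑ X ∈ Bad, 2 * ((T X).card : ℝ) := sum_le_sum h1
      _ ≤ ∑ X : Fin N → Ω, 2 * ((T X).card : ℝ) :=
          sum_le_sum_of_subset_of_nonneg (subset_univ _) fun _ _ _ => by positivity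
      _ = _ := by rw [mul_sum]
  have h5 : (Bad.card : ℝ) * ((z : ℝ) / 2) ^ y ≤
      (2 * (8 * N / z) ^ y * β ^ (y - w - t) * ω ^ N) * ((z : ℝ) / 2) ^ y := by
    refine h4.trans ?_
    calc 2 * ∑ X : Fin N → Ω, ((T X).card : ℝ) ≤
        2 * ((N : ℝ) ^ y * (4 ^ y * β ^ (y - w - t) * ω ^ N)) := by linarith
      _ = (2 * (8 * N / z) ^ y * β ^ (y - w - t) * ω ^ N) * ((z : ℝ) / 2) ^ y := by
        have e : (8 * (N : ℝ) / z) ^ y * ((z : ℝ) / 2) ^ y = (N : ℝ) ^ y * 4 ^ y := by
          rw [← mul_pow, ← mul_pow]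
          congr 1
          field_simp
          ring
        calc 2 * ((N : ℝ) ^ y * (4 ^ y * β ^ (y - w - t) * ω ^ N)) =
            2 * ((N : ℝ) ^ y * 4 ^ y) * β ^ (y - w - t) * ω ^ N := by ring
          _ = _ := by rw [← e]; ring
  exact le_of_mul_le_mul_right h5 (by positivity)

end Pool.Agent.BQ
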