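import Mathlib
import Pool.Agent.BQ.C_SAM

/-!
# The edge property of a random sample
-/

namespace Pool.Agent.BQ

open Finset

/-- `(1 - γ) ^ t ≤ β` for `t ≥ log (1 / β) / γ`. -/
theorem one_sub_pow_le {γ β : ℝ} (hβ : 0 < β) (hγ : 0 < γ) (hγ1 : γ ≤ 1) {t : ℕ}
    (ht : Real.log (1 / β) / γ ≤ t) : (1 - γ) ^ t ≤ β := by
  have h1 : (1 - γ) ^ t ≤ Real.exp (-γ) ^ t :=
    pow_le_pow_left₀ (by linarith) (Real.one_sub_le_exp_neg γ) t
  refine h1.trans ?_
  rw [← Real.exp_nat_mul]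
  have h2 : Real.log (1 / β) ≤ t * γ := (div_le_iff₀ hγ).1 ht
  rw [one_div, Real.log_inv] at h2
  have h3 : (t : ℝ) * -γ ≤ Real.log β := by linarith
  calc Real.exp ((t : ℝ) * -γ) ≤ Real.exp (Real.log β) := Real.exp_le_exp.2 h3
    _ = β := Real.exp_log hβ

open Classical in
/-- EDGE: with probability at least `1 - 2 (1/2) ^ (L / γ)` every set of at least `ζ N` indices spans
at least `γ / (40000 L) |Z| ^ 2` ordered edges, `L = log (1 / β)`. -/
theorem sample_edges {Ω : Type*} [Fintype Ω] (G : Ω → Ω → Prop) (hirr : ∀ a, ¬ G a a) {γ β ζ : ℝ}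
    (hβ : 0 < β) (hL : 1 ≤ Real.log (1 / β)) (hγ : 0 < γ) (hγ1 : γ ≤ 1) (hΩ : 0 < Fintype.card Ω)
    (hS : ∀ A : Finset Ω, β * Fintype.card Ω < A.card → γ * (A.card : ℝ) ^ 2 ≤ edg G A)
    (hζ : 0 < ζ) (hζβ : (8 / ζ) ^ 100 * β ^ 98 ≤ 1 / 2) (N : ℕ)
    (hN : 400 * Real.log (1 / β) / γ ≤ ζ * N) :
    ((univ.filter (fun X : Fin N → Ω => ∃ Z : Finset (Fin N), ζ * N ≤ Z.card ∧
      (eN G X Z : ℝ) < γ / (40000 * Real.log (1 / β)) * (Z.card : ℝ) ^ 2)).card : ℝ) ≤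
      2 * (1 / 2) ^ (Real.log (1 / β) / γ) * (Fintype.card Ω : ℝ) ^ N := by
  set L := Real.log (1 / β) with hLdef
  have hL0 : 0 < L := by linarith
  have hLγ : 1 ≤ L / γ := by
    rw [le_div_iff₀ hγ]; linarith
  set t : ℕ := ⌈L / γ⌉₊ with ht
  have ht1 : L / γ ≤ t := Nat.le_ceil _
  have ht2 : (t : ℝ) < L / γ + 1 := Nat.ceil_lt_add_one (by positivity)
  have ht3 : (t : ℝ) ≤ 2 * (L / γ) := by linarith
  have ht0 : 0 < t := by
    have : (0 : ℝ) < t := by linarith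
    exact_mod_cast this
  have htr : (0 : ℝ) < t := by exact_mod_cast ht0
  set z : ℕ := ⌈ζ * N⌉₊ with hz
  have hz1 : ζ * N ≤ z := Nat.le_ceil _
  have hβ1 : β ≤ 1 := by
    by_contra hcon
    push Not at hcon
    have : Real.log (1 / β) ≤ 0 := by
      rw [one_div, Real.log_inv]
      have := Real.log_pos hcon
      linarith
    linarith
  have hyz : 2 * (100 * t) ≤ z := by
    have h1 : (2 * (100 * (t : ℝ))) ≤ ζ * N := by
      calc 2 * (100 * (t : ℝ)) ≤ 2 * (100 * (2 * (L / γ))) := by linarith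
        _ = 400 * L / γ := by ring
        _ ≤ ζ * N := hN
    have h2 : (2 * (100 * (t : ℝ))) ≤ (z : ℝ) := h1.trans hz1
    exact_mod_cast h2
  have hmain := sample_bad G hirr hβ hβ1 hγ hγ1 hΩ hS t (100 * t) t N z
    (one_sub_pow_le hβ hγ hγ1 ht1) (by omega) hyz
  have hsub : (univ.filter (fun X : Fin N → Ω => ∃ Z : Finset (Fin N), ζ * N ≤ Z.card ∧
      (eN G X Z : ℝ) < γ / (40000 * L) * (Z.card : ℝ) ^ 2)) ⊆
      (univ.filter (fun X : Fin N → Ω => ∃ Z : Finset (Fin N), z ≤ Z.card ∧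
      2 * (100 * t * (100 * t - 1)) * eN G X Z ≤ t * (Z.card * (Z.card - 1)))) := by
    intro X hX
    rw [mem_filter] at hX ⊢
    obtain ⟨-, Z, hZ1, hZ2⟩ := hX
    refine ⟨mem_univ _, Z, Nat.ceil_le.2 hZ1, ?_⟩
    have hzZ : z ≤ Z.card := Nat.ceil_le.2 hZ1
    have hc1 : 200 * t ≤ Z.card := by omega
    have h1 : 1 ≤ 100 * t := by omega
    have h2 : 1 ≤ Z.card := by omega
    have h3 : (eN G X Z : ℝ) ≤ 1 / (20000 * t) * (Z.card : ℝ) ^ 2 := by
      refine hZ2.le.trans ?_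
      refine mul_le_mul_of_nonneg_right ?_ (by positivity)
      rw [div_le_div_iff₀ (by positivity) (by positivity)]
      have : (t : ℝ) * γ ≤ 2 * L := by
        have := mul_le_mul_of_nonneg_right ht3 hγ.le
        calc (t : ℝ) * γ ≤ 2 * (L / γ) * γ := this
          _ = 2 * L := by field_simp
      nlinarith
    have h4 : (2 * (100 * t * (100 * (t : ℝ) - 1)) * (eN G X Z : ℝ)) ≤
        t * (Z.card * ((Z.card : ℝ) - 1)) := by
      have hZr : (0 : ℝ) < Z.card := by exact_mod_cast (by omega : 0 < Z.card)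
      have h5 : (200 * (t : ℝ)) ≤ Z.card := by exact_mod_cast hc1
      have h6 : (1 : ℝ) ≤ 100 * t := by exact_mod_cast h1
      have h7 : 0 ≤ 2 * (100 * (t : ℝ) * (100 * (t : ℝ) - 1)) := by
        have : 0 ≤ 100 * (t : ℝ) - 1 := by linarith
        positivity
      refine (mul_le_mul_of_nonneg_left h3 h7).trans ?_
      have e : 2 * (100 * (t : ℝ) * (100 * (t : ℝ) - 1)) * (1 / (20000 * t) * (Z.card : ℝ) ^ 2) =
          (100 * (t : ℝ) - 1) * (Z.card : ℝ) ^ 2 / 100 := by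
        field_simp
        ring
      rw [e]
      have h8 : (100 * (t : ℝ) - 1) * (Z.card : ℝ) ≤ 100 * t * ((Z.card : ℝ) - 1) := by nlinarith
      have h9 := mul_le_mul_of_nonneg_right h8 hZr.le
      nlinarith
    have e1 : ((100 * t - 1 : ℕ) : ℝ) = 100 * (t : ℝ) - 1 := by
      rw [Nat.cast_sub h1]; push_cast; ring
    have e2 : ((Z.card - 1 : ℕ) : ℝ) = (Z.card : ℝ) - 1 := by
      rw [Nat.cast_sub h2]; push_cast; ring
    have : ((2 * (100 * t * (100 * t - 1)) * eN G X Z : ℕ) : ℝ) ≤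
        ((t * (Z.card * (Z.card - 1)) : ℕ) : ℝ) := by
      rw [Nat.cast_mul, Nat.cast_mul, Nat.cast_mul, e1, Nat.cast_mul t, Nat.cast_mul Z.card, e2]
      push_cast
      exact h4
    exact_mod_cast this
  have h1 := card_le_card hsub
  have h1' : ((univ.filter (fun X : Fin N → Ω => ∃ Z : Finset (Fin N), ζ * N ≤ Z.card ∧
      (eN G X Z : ℝ) < γ / (40000 * L) * (Z.card : ℝ) ^ 2)).card : ℝ) ≤
      2 * (8 * N / z) ^ (100 * t) * β ^ (100 * t - t - t) * (Fintype.card Ω : ℝ) ^ N := by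
    refine le_trans ?_ hmain
    exact_mod_cast h1
  refine h1'.trans ?_
  refine mul_le_mul_of_nonneg_right ?_ (by positivity)
  rw [mul_assoc]
  refine mul_le_mul_of_nonneg_left ?_ (by norm_num)
  have e3 : 100 * t - t - t = 98 * t := by omega
  rw [e3, pow_mul, pow_mul, ← mul_pow]
  have hN0 : 0 < ζ * N := by
    have : 0 < 400 * L / γ := by positivity
    linarith
  have hz0 : (0 : ℝ) < z := lt_of_lt_of_le hN0 hz1
  have h2 : 8 * (N : ℝ) / z ≤ 8 / ζ := by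
    rw [div_le_div_iff₀ hz0 hζ]
    nlinarith
  have h3 : (8 * (N : ℝ) / z) ^ 100 * β ^ 98 ≤ 1 / 2 := by
    refine le_trans ?_ hζβ
    refine mul_le_mul_of_nonneg_right ?_ (by positivity)
    exact pow_le_pow_left₀ (by positivity) h2 100
  calc ((8 * (N : ℝ) / z) ^ 100 * β ^ 98) ^ t ≤ (1 / 2 : ℝ) ^ t :=
        pow_le_pow_left₀ (by positivity) h3 t
    _ = (1 / 2 : ℝ) ^ (t : ℝ) := (Real.rpow_natCast _ _).symm
    _ ≤ (1 / 2 : ℝ) ^ (L / γ) :=
        Real.rpow_le_rpow_of_exponent_ge (by norm_num) (by norm_num) ht1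

end Pool.Agent.BQ
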