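import Mathlib
import Pool.Agent.BQ.C_BN2

/-!
# Fourier analysis on `ι → ZMod 4`
-/

namespace Pool.Agent.BQ

open Finset

/-- The character `a ↦ i ^ a` of `ZMod 4`. -/
noncomputable def e4 (a : ZMod 4) : ℂ := Complex.I ^ a.val

theorem e4_add (a b : ZMod 4) : e4 (a + b) = e4 a * e4 b := by
  unfold e4
  rw [ZMod.val_add, ← Complex.I_pow_eq_pow_mod, pow_add]

theorem e4_zero : e4 0 = 1 := by simp [e4]

theorem norm_e4 (a : ZMod 4) : ‖e4 a‖ = 1 := by simp [e4]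

theorem e4_ne_zero (a : ZMod 4) : e4 a ≠ 0 := by
  intro h
  have := norm_e4 a
  rw [h] at this
  simp at this

theorem e4_neg (a : ZMod 4) : e4 (-a) = (starRingEnd ℂ) (e4 a) := by
  have h1 : e4 a * e4 (-a) = 1 := by rw [← e4_add, add_neg_cancel, e4_zero]
  have h2 : e4 a * (starRingEnd ℂ) (e4 a) = 1 := by
    rw [Complex.mul_conj, Complex.normSq_eq_norm_sq, norm_e4]; simp
  exact mul_left_cancel₀ (e4_ne_zero a) (h1.trans h2.symm)

theorem sum_e4 (h : ZMod 4) : ∑ m : ZMod 4, e4 (m * h) = if h = 0 then 4 else 0 := by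
  have e0 : (0 : ZMod 4).val = 0 := rfl
  have e1 : (1 : ZMod 4).val = 1 := rfl
  have e2 : (2 : ZMod 4).val = 2 := rfl
  have e3 : (3 : ZMod 4).val = 3 := rfl
  have hs : ∀ f : ZMod 4 → ℂ, ∑ m, f m = f 0 + f 1 + f 2 + f 3 := fun f => Fin.sum_univ_four f
  rw [hs]
  have I3 : Complex.I ^ 3 = -Complex.I := by rw [pow_succ, Complex.I_sq]; ring
  have hcase : h = 0 ∨ h = 1 ∨ h = 2 ∨ h = 3 := by revert h; decide
  rcases hcase with rfl | rfl | rfl | rfl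
  · simp [e4]; norm_num
  · have a1 : (0 : ZMod 4) * 1 = 0 := rfl
    have a2 : (1 : ZMod 4) * 1 = 1 := rfl
    have a3 : (2 : ZMod 4) * 1 = 2 := rfl
    have a4 : (3 : ZMod 4) * 1 = 3 := rfl
    rw [a1, a2, a3, a4, if_neg (by decide)]
    unfold e4
    rw [e0, e1, e2, e3, I3, Complex.I_sq]
    ring
  · have a1 : (0 : ZMod 4) * 2 = 0 := rfl
    have a2 : (1 : ZMod 4) * 2 = 2 := rfl
    have a3 : (2 : ZMod 4) * 2 = 0 := rfl
    have a4 : (3 : ZMod 4) * 2 = 2 := rfl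
    rw [a1, a2, a3, a4, if_neg (by decide)]
    unfold e4
    rw [e0, e2, Complex.I_sq]
    ring
  · have a1 : (0 : ZMod 4) * 3 = 0 := rfl
    have a2 : (1 : ZMod 4) * 3 = 3 := rfl
    have a3 : (2 : ZMod 4) * 3 = 2 := rfl
    have a4 : (3 : ZMod 4) * 3 = 1 := rfl
    rw [a1, a2, a3, a4, if_neg (by decide)]
    unfold e4
    rw [e0, e1, e2, e3, I3, Complex.I_sq]
    ring

section
variable {ι : Type*} [Fintype ι]

/-- The characters of `ι → ZMod 4`. -/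
noncomputable def chi (ψ h : ι → ZMod 4) : ℂ := ∏ c, e4 (ψ c * h c)

theorem chi_comm (ψ h : ι → ZMod 4) : chi ψ h = chi h ψ := by
  unfold chi
  exact prod_congr rfl fun c _ => by rw [mul_comm]

theorem chi_add (ψ x y : ι → ZMod 4) : chi ψ (x + y) = chi ψ x * chi ψ y := by
  unfold chi
  rw [← prod_mul_distrib]
  exact prod_congr rfl fun c _ => by rw [Pi.add_apply, mul_add, e4_add]

theorem chi_add_left (ψ φ x : ι → ZMod 4) : chi (ψ + φ) x = chi ψ x * chi φ x := by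
  rw [chi_comm, chi_add, chi_comm x, chi_comm x]

theorem chi_zero (ψ : ι → ZMod 4) : chi ψ 0 = 1 := by simp [chi, e4_zero]

theorem chi_neg (ψ x : ι → ZMod 4) : chi ψ (-x) = (starRingEnd ℂ) (chi ψ x) := by
  unfold chi
  rw [map_prod]
  exact prod_congr rfl fun c _ => by rw [Pi.neg_apply, mul_neg, e4_neg]

theorem norm_chi (ψ x : ι → ZMod 4) : ‖chi ψ x‖ = 1 := by
  unfold chi
  rw [norm_prod]
  exact prod_eq_one fun c _ => norm_e4 _

variable [DecidableEq ι]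

theorem sum_chi (h : ι → ZMod 4) :
    ∑ ψ : ι → ZMod 4, chi ψ h = if h = 0 then (4 : ℂ) ^ Fintype.card ι else 0 := by
  unfold chi
  have h1 : ∑ ψ : ι → ZMod 4, ∏ c, e4 (ψ c * h c) = ∏ c, ∑ m : ZMod 4, e4 (m * h c) := by
    rw [prod_univ_sum, Fintype.piFinset_univ]
  rw [h1]
  simp only [sum_e4]
  split_ifs with h0
  · rw [h0]
    simp
  · obtain ⟨c, hc⟩ : ∃ c, h c ≠ 0 := by
      by_contra hcon
      push Not at hcon
      exact h0 (funext hcon)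
    exact prod_eq_zero (mem_univ c) (by simp [hc])

/-- The Fourier transform (not normalised). -/
noncomputable def F (f : (ι → ZMod 4) → ℝ) (ψ : ι → ZMod 4) : ℂ :=
  ∑ x, (f x : ℂ) * (starRingEnd ℂ) (chi ψ x)

theorem F_sq (f : (ι → ZMod 4) → ℝ) (ψ : ι → ZMod 4) :
    ((‖F f ψ‖ ^ 2 : ℝ) : ℂ) = ∑ x, ∑ y, (f x : ℂ) * (f y : ℂ) * chi ψ (y - x) := by
  have h1 : ((‖F f ψ‖ ^ 2 : ℝ) : ℂ) = F f ψ * (starRingEnd ℂ) (F f ψ) := by
    rw [Complex.mul_conj, Complex.normSq_eq_norm_sq]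
  rw [h1]
  unfold F
  rw [map_sum, sum_mul_sum]
  refine sum_congr rfl fun x _ => sum_congr rfl fun y _ => ?_
  rw [map_mul, Complex.conj_conj, Complex.conj_ofReal, sub_eq_add_neg, chi_add, chi_neg]
  ring

/-- The quadratic form of a convolution operator. -/
theorem quad (w : (ι → ZMod 4) → ℂ) (f : (ι → ZMod 4) → ℝ) :
    ∑ ψ, (∑ h, w h * chi ψ h) * ((‖F f ψ‖ ^ 2 : ℝ) : ℂ) =
      (4 : ℂ) ^ Fintype.card ι * ∑ x, ∑ y, (f x : ℂ) * (f y : ℂ) * w (x - y) := by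
  simp only [F_sq]
  have h1 : ∀ ψ : ι → ZMod 4, (∑ h, w h * chi ψ h) *
      ∑ x, ∑ y, (f x : ℂ) * (f y : ℂ) * chi ψ (y - x) =
      ∑ x, ∑ y, ∑ h, (f x : ℂ) * (f y : ℂ) * w h * chi ψ (h - (x - y)) := by
    intro ψ
    rw [mul_sum]
    refine sum_congr rfl fun x _ => ?_
    rw [mul_sum]
    refine sum_congr rfl fun y _ => ?_
    rw [sum_mul]
    refine sum_congr rfl fun h _ => ?_
    have e : h - (x - y) = h + (y - x) := by abel
    rw [e, chi_add]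
    ring
  simp only [h1]
  rw [sum_comm, mul_sum]
  refine sum_congr rfl fun x _ => ?_
  rw [sum_comm, mul_sum]
  refine sum_congr rfl fun y _ => ?_
  rw [sum_comm]
  simp only [← mul_sum, sum_chi]
  rw [sum_eq_single (x - y)]
  · rw [sub_self, if_pos rfl]; ring
  · intro h _ hh
    rw [if_neg (sub_ne_zero.2 hh), mul_zero]
  · intro h; exact absurd (mem_univ _) h

/-- Parseval. -/
theorem parseval (f : (ι → ZMod 4) → ℝ) :
    ∑ ψ, ‖F f ψ‖ ^ 2 = (4 : ℝ) ^ Fintype.card ι * ∑ x, f x ^ 2 := by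
  have h := quad (fun h => if h = 0 then 1 else 0) f
  have h1 : ∀ ψ : ι → ZMod 4, (∑ h, (if h = 0 then (1 : ℂ) else 0) * chi ψ h) = 1 := by
    intro ψ
    simp [chi_zero]
  simp only [h1, one_mul] at h
  have h2 : ∀ x y : ι → ZMod 4, (f x : ℂ) * (f y : ℂ) * (if x - y = 0 then (1 : ℂ) else 0) =
      if y = x then ((f x ^ 2 : ℝ) : ℂ) else 0 := by
    intro x y
    by_cases hxy : y = x
    · subst hxy
      simp [pow_two]
    · rw [if_neg (sub_ne_zero.2 (Ne.symm hxy)), if_neg hxy, mul_zero]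
  simp only [h2, sum_ite_eq', mem_univ, if_true] at h
  exact_mod_cast h

/-- The support of a character. -/
def spp (ψ : ι → ZMod 4) : Finset ι := univ.filter (fun c => ψ c ≠ 0)

omit [DecidableEq ι] in
theorem prod_third (ψ : ι → ZMod 4) :
    (∏ c, (if ψ c = 0 then (1 : ℂ) else 1 / 3)) = (1 / 3 : ℂ) ^ (spp ψ).card := by
  rw [prod_ite]
  simp only [prod_const_one, one_mul, prod_const]
  rfl

theorem sum_kk_e4 (m v : ZMod 4) :
    ∑ u : ZMod 4, ((kk u v : ℝ) : ℂ) * (starRingEnd ℂ) (e4 (m * u)) =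
      4 * ((if m = 0 then (1 : ℂ) else 1 / 3) * (starRingEnd ℂ) (e4 (m * v))) := by
  have h1 : ∀ u : ZMod 4, ((kk u v : ℝ) : ℂ) * (starRingEnd ℂ) (e4 (m * u)) =
      2 / 3 * (starRingEnd ℂ) (e4 (u * m)) +
        (if u = v then 4 / 3 * (starRingEnd ℂ) (e4 (m * u)) else 0) := by
    intro u
    unfold kk
    rw [mul_comm m u]
    split_ifs with h
    · push_cast; ring
    · push_cast; ring
  simp only [h1]
  rw [sum_add_distrib, ← mul_sum, ← map_sum, sum_e4]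
  simp only [sum_ite_eq', mem_univ, if_true]
  split_ifs with h
  · rw [h, zero_mul, e4_zero, map_one, map_ofNat]
    norm_num
  · simp
    ring

/-- Noise acts on characters. -/
theorem F_noise (f : (ι → ZMod 4) → ℝ) (ψ : ι → ZMod 4) :
    F (Tk NK f) ψ = (1 / 3 : ℂ) ^ (spp ψ).card * F f ψ := by
  have h4 : Fintype.card (ι → ZMod 4) = 4 ^ Fintype.card ι := by
    rw [Fintype.card_fun, ZMod.card]
  have h1 : ∀ y : ι → ZMod 4, ∑ x, ((NK x y : ℝ) : ℂ) * (starRingEnd ℂ) (chi ψ x) =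
      (4 : ℂ) ^ Fintype.card ι * ((1 / 3 : ℂ) ^ (spp ψ).card * (starRingEnd ℂ) (chi ψ y)) := by
    intro y
    have h2 : ∀ x : ι → ZMod 4, ((NK x y : ℝ) : ℂ) * (starRingEnd ℂ) (chi ψ x) =
        ∏ c, (((kk (x c) (y c) : ℝ) : ℂ) * (starRingEnd ℂ) (e4 (ψ c * x c))) := by
      intro x
      unfold NK chi
      rw [map_prod, Complex.ofReal_prod, ← prod_mul_distrib]
    simp only [h2]
    have h3 : ∑ x : ι → ZMod 4,
        ∏ c, (((kk (x c) (y c) : ℝ) : ℂ) * (starRingEnd ℂ) (e4 (ψ c * x c))) =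
        ∏ c, ∑ u : ZMod 4, (((kk u (y c) : ℝ) : ℂ) * (starRingEnd ℂ) (e4 (ψ c * u))) := by
      rw [prod_univ_sum, Fintype.piFinset_univ]
    rw [h3]
    simp only [sum_kk_e4]
    rw [prod_mul_distrib, prod_const, card_univ, prod_mul_distrib, prod_third]
    unfold chi
    rw [map_prod]
  unfold F
  have h5 : ∀ x : ι → ZMod 4, ((Tk NK f x : ℝ) : ℂ) * (starRingEnd ℂ) (chi ψ x) =
      ∑ y, ((4 : ℂ) ^ Fintype.card ι)⁻¹ * (f y : ℂ) *
        (((NK x y : ℝ) : ℂ) * (starRingEnd ℂ) (chi ψ x)) := by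
    intro x
    unfold Tk av
    rw [h4]
    push_cast
    rw [div_eq_mul_inv, sum_mul, sum_mul]
    refine sum_congr rfl fun y _ => ?_
    ring
  simp only [h5]
  rw [sum_comm, mul_sum]
  refine sum_congr rfl fun y _ => ?_
  rw [← mul_sum, h1]
  have : (4 : ℂ) ^ Fintype.card ι ≠ 0 := pow_ne_zero _ (by norm_num)
  field_simp

/-- The level inequality: `S` is `∑ ψ, 729 ^ (-|ψ|) |hat f ψ| ^ 2`, normalised. -/
theorem level (f : (ι → ZMod 4) → ℝ) (hf : ∀ x, f x = 0 ∨ f x = 1) :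
    ((∑ ψ, (1 / 729 : ℝ) ^ (spp ψ).card * ‖F f ψ‖ ^ 2) / (4 ^ Fintype.card ι) ^ 2) ^ 8 ≤
      (av f) ^ 15 := by
  have h4 : Fintype.card (ZMod 4) = 4 := ZMod.card 4
  have h := noise3 (α := ZMod 4) (ι := ι) h4 hf
  refine le_trans (le_of_eq ?_) h
  congr 1
  have h1 : ∑ ψ, ‖F (Tk NK (Tk NK (Tk NK f))) ψ‖ ^ 2 =
      ∑ ψ, (1 / 729 : ℝ) ^ (spp ψ).card * ‖F f ψ‖ ^ 2 := by
    refine sum_congr rfl fun ψ _ => ?_
    rw [F_noise, F_noise, F_noise, norm_mul, norm_mul, norm_mul, norm_pow]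
    have : ‖(1 / 3 : ℂ)‖ = 1 / 3 := by simp
    rw [this]
    have e : (1 / 729 : ℝ) = (1 / 3) ^ 6 := by norm_num
    rw [e, ← pow_mul]
    ring
  rw [← h1, parseval]
  unfold av
  rw [Fintype.card_fun, ZMod.card]
  push_cast
  have : (4 : ℝ) ^ Fintype.card ι ≠ 0 := by positivity
  field_simp

end

end Pool.Agent.BQ
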