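import Mathlib
import Pool.Agent.BQ.C_FOU

/-!
# Mixing in a Cayley graph on a subgroup of `ι → ZMod 4`

`X` is a subset of the subgroup `Gp`, `Ann` the set of characters that are trivial on `Gp`. If the
eigenvalues `∑ h ∈ X, chi ψ h` are at most `|X| q ^ min (|ψ + α|, 16)` for some `α ∈ Ann`, then every
set `A ⊆ Gp` with at least `(5832 q) ^ 8 4 ^ r` elements spans at least `(3/4) (|X| / |Gp|) |A| ^ 2`
ordered edges.
-/

namespace Pool.Agent.BQ

open Finset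

section
variable {ι : Type*} [Fintype ι] [DecidableEq ι]

/-- The indicator function. -/
noncomputable def indi (A : Finset (ι → ZMod 4)) (x : ι → ZMod 4) : ℝ := if x ∈ A then 1 else 0

theorem F_indi_add (A : Finset (ι → ZMod 4)) (ψ α : ι → ZMod 4) (h : ∀ x ∈ A, chi α x = 1) :
    F (indi A) (ψ + α) = F (indi A) ψ := by
  unfold F
  refine sum_congr rfl fun x _ => ?_
  unfold indi
  split_ifs with hx
  · rw [chi_add_left, h x hx, mul_one]
  · simp

theorem F_indi_one (A : Finset (ι → ZMod 4)) (α : ι → ZMod 4) (h : ∀ x ∈ A, chi α x = 1) :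
    F (indi A) α = (A.card : ℂ) := by
  unfold F
  have h1 : ∀ x : ι → ZMod 4, ((indi A x : ℝ) : ℂ) * (starRingEnd ℂ) (chi α x) =
      if x ∈ A then 1 else 0 := by
    intro x
    unfold indi
    split_ifs with hx
    · rw [h x hx]; simp
    · simp
  simp only [h1]
  rw [sum_ite_mem, univ_inter, sum_const, nsmul_eq_mul, mul_one]

theorem sum_indi_sq (A : Finset (ι → ZMod 4)) : ∑ x, indi A x ^ 2 = (A.card : ℝ) := by
  have h1 : ∀ x : ι → ZMod 4, indi A x ^ 2 = if x ∈ A then 1 else 0 := by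
    intro x; unfold indi; split_ifs <;> norm_num
  simp only [h1]
  rw [sum_ite_mem, univ_inter, sum_const, nsmul_eq_mul, mul_one]

theorem av_indi (A : Finset (ι → ZMod 4)) : av (indi A) = (A.card : ℝ) / 4 ^ Fintype.card ι := by
  unfold av
  have h1 : ∑ x, indi A x = (A.card : ℝ) := by
    unfold indi
    rw [sum_ite_mem, univ_inter, sum_const, nsmul_eq_mul, mul_one]
  rw [h1, Fintype.card_fun, ZMod.card]
  push_cast
  rfl

/-- The number of pairs. -/
noncomputable def pairs (X A : Finset (ι → ZMod 4)) : ℕ :=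
  ((A ×ˢ A).filter (fun p => p.2 - p.1 ∈ X)).card

theorem pairs_eq (X A : Finset (ι → ZMod 4)) :
    (4 : ℝ) ^ Fintype.card ι * (pairs X A : ℝ) =
      ∑ ψ, (∑ h ∈ X, chi ψ h).re * ‖F (indi A) ψ‖ ^ 2 := by
  have h := quad (fun h => if h ∈ X then 1 else 0) (indi A)
  have h1 : ∀ ψ : ι → ZMod 4, (∑ h, (if h ∈ X then (1 : ℂ) else 0) * chi ψ h) =
      ∑ h ∈ X, chi ψ h := by
    intro ψ
    simp only [ite_mul, one_mul, zero_mul]
    rw [sum_ite_mem, univ_inter]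
  simp only [h1] at h
  have h2 : ∑ x, ∑ y, (indi A x : ℂ) * (indi A y : ℂ) * (if x - y ∈ X then (1 : ℂ) else 0) =
      ((pairs X A : ℝ) : ℂ) := by
    have h3 : ((pairs X A : ℝ) : ℂ) =
        ∑ p ∈ (A ×ˢ A), (if p.2 - p.1 ∈ X then (1 : ℂ) else 0) := by
      unfold pairs
      rw [card_filter]
      push_cast
      exact sum_congr rfl fun p _ => by split_ifs <;> simp
    rw [h3, sum_product_right]
    have h4 : ∀ x y : ι → ZMod 4, (indi A x : ℂ) * (indi A y : ℂ) *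
        (if x - y ∈ X then (1 : ℂ) else 0) =
        if x ∈ A then (if y ∈ A then (if x - y ∈ X then (1 : ℂ) else 0) else 0) else 0 := by
      intro x y
      unfold indi
      split_ifs <;> simp
    simp only [h4]
    rw [← sum_filter_add_sum_filter_not univ (fun x => x ∈ A)]
    have h5 : ∑ x ∈ univ.filter (fun x => ¬ x ∈ A), ∑ y, (if x ∈ A then
        (if y ∈ A then (if x - y ∈ X then (1 : ℂ) else 0) else 0) else 0) = 0 := by
      refine sum_eq_zero fun x hx => ?_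
      have := (mem_filter.1 hx).2
      simp [this]
    rw [h5, add_zero]
    have h6 : univ.filter (fun x => x ∈ A) = A := by ext x; simp
    rw [h6]
    refine sum_congr rfl fun x hx => ?_
    simp only [hx, if_true]
    rw [sum_ite_mem, univ_inter]
  rw [h2] at h
  have h7 := congrArg Complex.re h
  rw [Complex.re_sum] at h7
  have h8 : ((4 : ℂ) ^ Fintype.card ι * ((pairs X A : ℝ) : ℂ)).re =
      (4 : ℝ) ^ Fintype.card ι * (pairs X A : ℝ) := by
    have : (4 : ℂ) ^ Fintype.card ι = (((4 : ℝ) ^ Fintype.card ι : ℝ) : ℂ) := by push_cast; rfl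
    rw [this, ← Complex.ofReal_mul, Complex.ofReal_re]
  rw [h8] at h7
  rw [← h7]
  refine sum_congr rfl fun ψ _ => ?_
  rw [Complex.re_mul_ofReal]

omit [Fintype ι] [DecidableEq ι] in
theorem mix_aux {x g n c A : ℝ} (hg : 0 < g) (hn : 0 < n) (h : c * g = n) :
    3 / 4 * (x / g) * A ^ 2 = 3 / 4 * (c * (x * A ^ 2)) / n := by
  have hc : c = n / g := by rw [← h]; field_simp
  rw [hc]
  field_simp

/-- MIXING. -/
theorem mixing (Gp : AddSubgroup (ι → ZMod 4)) (X Ann : Finset (ι → ZMod 4))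
    (hX : ∀ h ∈ X, h ∈ Gp) (hAnn : ∀ α ∈ Ann, ∀ h ∈ Gp, chi α h = 1)
    (hneg : ∀ α ∈ Ann, -α ∈ Ann) (hcard : Ann.card * Nat.card Gp = 4 ^ Fintype.card ι)
    {q : ℝ} (hq0 : 0 ≤ q)
    (hlam : ∀ ψ, ψ ∉ Ann → ∃ α ∈ Ann,
      ‖∑ h ∈ X, chi ψ h‖ ≤ X.card * q ^ min (spp (ψ + α)).card 16)
    (A : Finset (ι → ZMod 4)) (hA : ∀ x ∈ A, x ∈ Gp)
    (hAq : (5832 * q) ^ 8 * 4 ^ Fintype.card ι ≤ (A.card : ℝ)) :
    3 / 4 * ((X.card : ℝ) / Nat.card Gp) * (A.card : ℝ) ^ 2 ≤ (pairs X A : ℝ) := by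
  obtain ⟨n4, hn4⟩ : ∃ n4 : ℝ, n4 = (4 : ℝ) ^ Fintype.card ι := ⟨_, rfl⟩
  rw [← hn4] at hAq
  have hn40 : 0 < n4 := by rw [hn4]; positivity
  obtain ⟨a, ha⟩ : ∃ a : ℝ, a = (A.card : ℝ) / n4 := ⟨_, rfl⟩
  have ha0 : 0 ≤ a := by rw [ha]; positivity
  have hAa : (A.card : ℝ) = a * n4 := by rw [ha]; field_simp
  have hA1 : (A.card : ℝ) ≤ n4 := by
    have h1 := card_le_univ A
    rw [Fintype.card_fun, ZMod.card] at h1
    rw [hn4]
    exact_mod_cast h1
  have ha1 : a ≤ 1 := by rw [ha]; exact (div_le_one hn40).2 hA1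
  have hqa : (5832 * q) ^ 8 ≤ a := by
    rw [ha, le_div_iff₀ hn40]; exact hAq
  have hq1 : 5832 * q ≤ 1 := by
    have h1 : (5832 * q) ^ 8 ≤ (1 : ℝ) ^ 8 := by rw [one_pow]; linarith
    exact le_of_pow_le_pow_left₀ (by norm_num) (by norm_num) h1
  -- the positive numbers
  have hprod : (Ann.card : ℝ) * (Nat.card Gp : ℝ) = n4 := by
    rw [hn4]; exact_mod_cast hcard
  have hGp0 : (0 : ℝ) < Nat.card Gp := by
    have : 0 < Nat.card Gp := Nat.card_pos
    exact_mod_cast this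
  have hAnn0 : (0 : ℝ) < Ann.card := by
    by_contra hcon
    have h0 : (Ann.card : ℝ) = 0 := le_antisymm (not_lt.1 hcon) (Nat.cast_nonneg _)
    rw [h0, zero_mul] at hprod
    linarith
  have hAnn1 : (1 : ℝ) ≤ Ann.card := by
    have h1 : 0 < Ann.card := by exact_mod_cast hAnn0
    exact_mod_cast h1
  set f := indi A with hf
  have hAnnA : ∀ α ∈ Ann, ∀ x ∈ A, chi α x = 1 := fun α hα x hx => hAnn α hα x (hA x hx)
  -- level sum
  obtain ⟨S, hS⟩ : ∃ S : ℝ, S = (∑ ψ, (1 / 729 : ℝ) ^ (spp ψ).card * ‖F f ψ‖ ^ 2) / n4 ^ 2 :=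
    ⟨_, rfl⟩
  have hS0 : 0 ≤ S := by
    rw [hS]
    exact div_nonneg (sum_nonneg fun ψ _ => by positivity) (by positivity)
  have hS8 : S ^ 8 ≤ a ^ 15 := by
    have h1 := level f (fun x => by rw [hf]; unfold indi; split_ifs <;> simp)
    rw [hf, av_indi, ← hn4, ← ha, ← hf, ← hS] at h1
    exact h1
  have hSa : 5832 * q * S ≤ a ^ 2 := by
    have h1 : (5832 * q * S) ^ 8 ≤ (a ^ 2) ^ 8 := by
      calc (5832 * q * S) ^ 8 = (5832 * q) ^ 8 * S ^ 8 := by ring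
        _ ≤ a * a ^ 15 := mul_le_mul hqa hS8 (by positivity) ha0
        _ = (a ^ 2) ^ 8 := by ring
    exact le_of_pow_le_pow_left₀ (by norm_num) (by positivity) h1
  have hq16 : q ^ 16 * 8 ≤ a := by
    have h1 : (5832 * q) ^ 16 ≤ a := by
      calc (5832 * q) ^ 16 = ((5832 * q) ^ 8) ^ 2 := by ring
        _ ≤ a ^ 2 := pow_le_pow_left₀ (by positivity) hqa 2
        _ ≤ a := by nlinarith
    have h2 : q ^ 16 * 8 ≤ (5832 * q) ^ 16 := by
      rw [mul_pow]
      have : 0 ≤ q ^ 16 := by positivity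
      nlinarith
    exact h2.trans h1
  -- the sum over nontrivial characters
  have hbig : ∑ φ ∈ univ.filter (fun φ : ι → ZMod 4 => φ ≠ 0), q ^ (spp φ).card * ‖F f φ‖ ^ 2 ≤
      729 * q * (S * n4 ^ 2) := by
    have h1 : S * n4 ^ 2 = ∑ ψ, (1 / 729 : ℝ) ^ (spp ψ).card * ‖F f ψ‖ ^ 2 := by
      rw [hS, div_mul_cancel₀ _ (pow_ne_zero 2 hn40.ne')]
    rw [h1, mul_sum]
    refine (sum_le_sum (g := fun φ => 729 * q * ((1 / 729 : ℝ) ^ (spp φ).card * ‖F f φ‖ ^ 2)) ?_).trans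
      (sum_le_sum_of_subset_of_nonneg (subset_univ _) fun _ _ _ => by positivity)
    intro φ hφ
    have hφ0 := (mem_filter.1 hφ).2
    have h2 : 1 ≤ (spp φ).card := by
      rw [Nat.one_le_iff_ne_zero, Ne, card_eq_zero]
      intro h3
      apply hφ0
      funext c
      show φ c = 0
      by_contra h5
      have : c ∈ spp φ := mem_filter.2 ⟨mem_univ _, h5⟩
      rw [h3] at this
      simp at this
    rw [← mul_assoc]
    refine mul_le_mul_of_nonneg_right ?_ (by positivity)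
    obtain ⟨k, hk⟩ : ∃ k, (spp φ).card = k + 1 := ⟨(spp φ).card - 1, by omega⟩
    rw [hk]
    have h3 : q ^ (k + 1) = (729 * q) ^ (k + 1) * (1 / 729) ^ (k + 1) := by
      rw [← mul_pow]; congr 1; ring
    rw [h3]
    refine mul_le_mul_of_nonneg_right ?_ (by positivity)
    rw [pow_succ]
    have h5 : (729 * q) ^ k ≤ 1 := pow_le_one₀ (by positivity) (by linarith)
    have h6 : 0 ≤ 729 * q := by positivity
    nlinarith
  have hout : ∑ ψ ∈ univ.filter (fun ψ => ψ ∉ Ann), ‖∑ h ∈ X, chi ψ h‖ * ‖F f ψ‖ ^ 2 ≤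
      X.card * (Ann.card * (729 * q * (S * n4 ^ 2)) + q ^ 16 * (n4 * A.card)) := by
    have h1 : ∀ ψ ∈ univ.filter (fun ψ : ι → ZMod 4 => ψ ∉ Ann),
        ‖∑ h ∈ X, chi ψ h‖ * ‖F f ψ‖ ^ 2 ≤
        X.card * (∑ α ∈ Ann, q ^ (spp (ψ + α)).card * ‖F f (ψ + α)‖ ^ 2) +
          X.card * (q ^ 16 * ‖F f ψ‖ ^ 2) := by
      intro ψ hψ
      obtain ⟨α, hα, hle⟩ := hlam ψ (mem_filter.1 hψ).2
      have h2 : q ^ min (spp (ψ + α)).card 16 ≤ q ^ (spp (ψ + α)).card + q ^ 16 := by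
        rcases min_choice (spp (ψ + α)).card 16 with h3 | h3
        · rw [h3]; have : 0 ≤ q ^ 16 := by positivity
          linarith
        · rw [h3]; have : 0 ≤ q ^ (spp (ψ + α)).card := by positivity
          linarith
      have h3 : q ^ (spp (ψ + α)).card * ‖F f (ψ + α)‖ ^ 2 ≤
          ∑ α ∈ Ann, q ^ (spp (ψ + α)).card * ‖F f (ψ + α)‖ ^ 2 :=
        single_le_sum (f := fun α => q ^ (spp (ψ + α)).card * ‖F f (ψ + α)‖ ^ 2)
          (fun β _ => by positivity) hα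
      have h5 : ‖F f (ψ + α)‖ = ‖F f ψ‖ := by rw [hf, F_indi_add A ψ α (hAnnA α hα)]
      have h6 : (0 : ℝ) ≤ X.card := Nat.cast_nonneg _
      calc ‖∑ h ∈ X, chi ψ h‖ * ‖F f ψ‖ ^ 2
          ≤ (X.card * q ^ min (spp (ψ + α)).card 16) * ‖F f ψ‖ ^ 2 :=
            mul_le_mul_of_nonneg_right hle (by positivity)
        _ ≤ (X.card * (q ^ (spp (ψ + α)).card + q ^ 16)) * ‖F f ψ‖ ^ 2 := by
            refine mul_le_mul_of_nonneg_right ?_ (by positivity)
            exact mul_le_mul_of_nonneg_left h2 h6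
        _ = X.card * (q ^ (spp (ψ + α)).card * ‖F f (ψ + α)‖ ^ 2) +
            X.card * (q ^ 16 * ‖F f ψ‖ ^ 2) := by rw [h5]; ring
        _ ≤ _ := by
            have := mul_le_mul_of_nonneg_left h3 h6
            linarith
    refine (sum_le_sum h1).trans ?_
    rw [sum_add_distrib, ← mul_sum, ← mul_sum, ← mul_sum, ← mul_add]
    refine mul_le_mul_of_nonneg_left ?_ (Nat.cast_nonneg _)
    refine add_le_add ?_ ?_
    · rw [sum_comm]
      have h2 : ∀ α ∈ Ann, ∑ ψ ∈ univ.filter (fun ψ => ψ ∉ Ann),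
          q ^ (spp (ψ + α)).card * ‖F f (ψ + α)‖ ^ 2 ≤ 729 * q * (S * n4 ^ 2) := by
        intro α hα
        refine le_trans ?_ hbig
        have h3 : ∑ ψ ∈ univ.filter (fun ψ => ψ ∉ Ann),
            q ^ (spp (ψ + α)).card * ‖F f (ψ + α)‖ ^ 2 =
            ∑ φ ∈ (univ.filter (fun ψ => ψ ∉ Ann)).map (Equiv.addRight α).toEmbedding,
              q ^ (spp φ).card * ‖F f φ‖ ^ 2 := by
          rw [sum_map]
          rfl
        rw [h3]
        refine sum_le_sum_of_subset_of_nonneg ?_ fun _ _ _ => by positivity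
        intro φ hφ
        rw [mem_map] at hφ
        obtain ⟨ψ, hψ, rfl⟩ := hφ
        rw [mem_filter]
        refine ⟨mem_univ _, ?_⟩
        intro h0
        have h5 : ψ = -α := eq_neg_of_add_eq_zero_left h0
        exact (mem_filter.1 hψ).2 (h5 ▸ hneg α hα)
      refine (sum_le_sum h2).trans ?_
      rw [sum_const, nsmul_eq_mul]
    · refine mul_le_mul_of_nonneg_left ?_ (by positivity)
      refine (sum_le_sum_of_subset_of_nonneg (subset_univ _) fun _ _ _ => by positivity).trans ?_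
      rw [parseval, hf, sum_indi_sq, hn4]
  -- the trivial characters
  have hin : ∑ ψ ∈ Ann, (∑ h ∈ X, chi ψ h).re * ‖F f ψ‖ ^ 2 =
      Ann.card * (X.card * (A.card : ℝ) ^ 2) := by
    have h1 : ∀ ψ ∈ Ann, (∑ h ∈ X, chi ψ h).re * ‖F f ψ‖ ^ 2 = X.card * (A.card : ℝ) ^ 2 := by
      intro ψ hψ
      have h2 : ∑ h ∈ X, chi ψ h = (X.card : ℂ) := by
        rw [sum_congr rfl fun h hh => hAnn ψ hψ h (hX h hh), sum_const, nsmul_eq_mul, mul_one]
      rw [h2, hf, F_indi_one A ψ (hAnnA ψ hψ)]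
      simp
    rw [sum_congr rfl h1, sum_const, nsmul_eq_mul]
  have htot := pairs_eq X A
  rw [← hn4, ← hf] at htot
  have hsplit : ∑ ψ, (∑ h ∈ X, chi ψ h).re * ‖F f ψ‖ ^ 2 =
      ∑ ψ ∈ Ann, (∑ h ∈ X, chi ψ h).re * ‖F f ψ‖ ^ 2 +
      ∑ ψ ∈ univ.filter (fun ψ => ψ ∉ Ann), (∑ h ∈ X, chi ψ h).re * ‖F f ψ‖ ^ 2 := by
    rw [← sum_filter_add_sum_filter_not univ (fun ψ => ψ ∈ Ann)]
    congr 1
    congr 1
    ext x
    simp
  have hlow : -(∑ ψ ∈ univ.filter (fun ψ => ψ ∉ Ann), ‖∑ h ∈ X, chi ψ h‖ * ‖F f ψ‖ ^ 2) ≤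
      ∑ ψ ∈ univ.filter (fun ψ => ψ ∉ Ann), (∑ h ∈ X, chi ψ h).re * ‖F f ψ‖ ^ 2 := by
    rw [← sum_neg_distrib]
    refine sum_le_sum fun ψ _ => ?_
    rw [← neg_mul]
    refine mul_le_mul_of_nonneg_right ?_ (by positivity)
    exact (abs_le.1 (Complex.abs_re_le_norm _)).1
  have hfin : 3 / 4 * (Ann.card * (X.card * (A.card : ℝ) ^ 2)) ≤ n4 * (pairs X A : ℝ) := by
    rw [htot, hsplit, hin]
    have h1 : X.card * (Ann.card * (729 * q * (S * n4 ^ 2)) + q ^ 16 * (n4 * A.card)) ≤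
        1 / 4 * (Ann.card * (X.card * (A.card : ℝ) ^ 2)) := by
      have h2 : 729 * q * (S * n4 ^ 2) ≤ 1 / 8 * (A.card : ℝ) ^ 2 := by
        rw [hAa]
        have := mul_le_mul_of_nonneg_right hSa (pow_nonneg hn40.le 2)
        nlinarith
      have h3 : q ^ 16 * (n4 * A.card) ≤ 1 / 8 * (A.card : ℝ) ^ 2 := by
        rw [hAa]
        have h5 := mul_le_mul_of_nonneg_right hq16 (mul_nonneg ha0 (pow_nonneg hn40.le 2))
        nlinarith
      have h5 : (A.card : ℝ) ^ 2 ≤ Ann.card * (A.card : ℝ) ^ 2 := by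
        have : 0 ≤ (A.card : ℝ) ^ 2 := sq_nonneg _
        nlinarith
      have h6 : Ann.card * (729 * q * (S * n4 ^ 2)) ≤ Ann.card * (1 / 8 * (A.card : ℝ) ^ 2) :=
        mul_le_mul_of_nonneg_left h2 (Nat.cast_nonneg _)
      calc X.card * (Ann.card * (729 * q * (S * n4 ^ 2)) + q ^ 16 * (n4 * A.card))
          ≤ X.card * (Ann.card * (1 / 8 * (A.card : ℝ) ^ 2) +
              1 / 8 * (Ann.card * (A.card : ℝ) ^ 2)) := by
            refine mul_le_mul_of_nonneg_left ?_ (Nat.cast_nonneg _)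
            linarith
        _ = _ := by ring
    linarith
  have e : 3 / 4 * ((X.card : ℝ) / Nat.card Gp) * (A.card : ℝ) ^ 2 =
      3 / 4 * (Ann.card * (X.card * (A.card : ℝ) ^ 2)) / n4 := mix_aux hGp0 hn40 hprod
  rw [e, div_le_iff₀ hn40]
  linarith

end

end Pool.Agent.BQ
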