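import Pool.Agent.BQ.A_Def

/-!
Levels of integer quaternions and of real quaternions (paper BQ/PAPER.md, 3.4 and section 4).
`lev p Q`: the order of `p` in the norm of the part of `Q` prime to `p`.
`levR p g`: the level of a real quaternion `g ≠ 0`, relative to a representative of the class of
`g` modulo left multiplication by real multiples of integer quaternions.
-/

open Quaternion

namespace BQA

/-! ### powers of `p` in an integer quaternion -/

theorem V_normSq_smul (m : ℤ) (x : ℍ[ℤ]) : normSq (m • x) = m ^ 2 * normSq x := by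
  rw [← coe_mul_eq, map_mul, Quaternion.normSq_coe]

theorem V_smul_ne {m : ℤ} (hm : m ≠ 0) {x : ℍ[ℤ]} (hx : x ≠ 0) : m • x ≠ 0 := by
  intro h
  apply hx
  apply smul_cancel hm
  rw [h, smul_zero]

/-- a nonzero integer quaternion is a power of `p` times one not divisible by `p` -/
theorem V_exists {p : ℕ} (hp : p.Prime) : ∀ (N : ℕ) (Q : ℍ[ℤ]), Q ≠ 0 →
    (normSq Q).natAbs ≤ N → ∃ (c : ℕ) (Q0 : ℍ[ℤ]), Q = ((p : ℤ) ^ c) • Q0 ∧ ¬ DV p Q0 := by
  intro N
  induction N with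
  | zero =>
    intro Q hQ hN
    exfalso
    apply hQ
    rw [← Quaternion.normSq_eq_zero]
    omega
  | succ N ih =>
    intro Q hQ hN
    by_cases h : DV p Q
    · obtain ⟨Q1, rfl⟩ := h
      have hQ1 : Q1 ≠ 0 := by
        rintro rfl
        exact hQ (smul_zero _)
      have h0 : (normSq Q1).natAbs ≠ 0 := by
        rw [Ne, Int.natAbs_eq_zero, Quaternion.normSq_eq_zero]
        exact hQ1
      have h1 : (normSq ((p : ℤ) • Q1)).natAbs = p ^ 2 * (normSq Q1).natAbs := by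
        rw [V_normSq_smul, Int.natAbs_mul, Int.natAbs_pow, Int.natAbs_natCast]
      have h2 : 4 ≤ p ^ 2 := by nlinarith [hp.two_le]
      have h3 : (normSq Q1).natAbs ≤ N := by
        rw [h1] at hN
        nlinarith [Nat.pos_of_ne_zero h0]
      obtain ⟨c, Q0, e, h4⟩ := ih Q1 hQ1 h3
      refine ⟨c + 1, Q0, ?_, h4⟩
      rw [e, ← mul_smul, pow_succ']
    · exact ⟨0, Q, by rw [pow_zero, one_smul], h⟩

/-- uniqueness -/
theorem V_unique {p : ℕ} (hp : p.Prime) {c c' : ℕ} {Q Q' : ℍ[ℤ]} (h : ¬ DV p Q) (h' : ¬ DV p Q')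
    (e : ((p : ℤ) ^ c) • Q = ((p : ℤ) ^ c') • Q') : c = c' ∧ Q = Q' := by
  have hp0 : (p : ℤ) ≠ 0 := by exact_mod_cast hp.ne_zero
  have key : ∀ {a b : ℕ} {X Y : ℍ[ℤ]}, ¬ DV p X → a < b →
      ((p : ℤ) ^ a) • X = ((p : ℤ) ^ b) • Y → False := by
    intro a b X Y hX hab e
    obtain ⟨k, rfl⟩ := Nat.exists_eq_add_of_lt hab
    have e1 : ((p : ℤ) ^ (a + k + 1)) • Y = ((p : ℤ) ^ a) • ((p : ℤ) • ((p : ℤ) ^ k • Y)) := by
      rw [← mul_smul, ← mul_smul]
      congr 1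
      ring
    rw [e1] at e
    exact hX ⟨_, smul_cancel (pow_ne_zero a hp0) e⟩
  have hc : c = c' := by
    rcases lt_trichotomy c c' with h1 | h1 | h1
    · exact (key h h1 e).elim
    · exact h1
    · exact (key h' h1 e.symm).elim
  subst hc
  exact ⟨rfl, smul_cancel (pow_ne_zero c hp0) e⟩

open Classical in
/-- the level of an integer quaternion -/
noncomputable def lev (p : ℕ) (Q : ℍ[ℤ]) : ℕ :=
  if h : ∃ (c : ℕ) (Q0 : ℍ[ℤ]), Q = ((p : ℤ) ^ c) • Q0 ∧ ¬ DV p Q0 then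
    padicValInt p (normSq h.choose_spec.choose)
  else 0

theorem lev_eq {p : ℕ} (hp : p.Prime) {c : ℕ} {Q Q0 : ℍ[ℤ]} (e : Q = ((p : ℤ) ^ c) • Q0)
    (h0 : ¬ DV p Q0) : lev p Q = padicValInt p (normSq Q0) := by
  have h : ∃ (c : ℕ) (Q0 : ℍ[ℤ]), Q = ((p : ℤ) ^ c) • Q0 ∧ ¬ DV p Q0 := ⟨c, Q0, e, h0⟩
  unfold lev
  rw [dif_pos h]
  have h1 := h.choose_spec.choose_spec
  have h2 := V_unique hp h1.2 h0 (h1.1.symm.trans e)
  rw [h2.2]

theorem V_ne_zero {p : ℕ} {Q0 : ℍ[ℤ]} (h0 : ¬ DV p Q0) : Q0 ≠ 0 := by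
  rintro rfl
  exact h0 ⟨0, (smul_zero _).symm⟩

theorem V_padic_mul {p : ℕ} (hp : p.Prime) {a b : ℤ} (ha : a ≠ 0) (hb : b ≠ 0) :
    padicValInt p (a * b) = padicValInt p a + padicValInt p b := by
  have := Fact.mk hp
  exact padicValInt.mul ha hb

theorem V_padic_zero {p : ℕ} {a : ℤ} (ha : ¬ (p : ℤ) ∣ a) : padicValInt p a = 0 :=
  padicValInt.eq_zero_of_not_dvd ha

theorem V_padic_self {p : ℕ} (hp : p.Prime) : padicValInt p (p : ℤ) = 1 := by
  have := Fact.mk hp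
  exact padicValInt.self hp.one_lt

/-- the level of a power of `p` times a quaternion -/
theorem lev_pow_smul {p : ℕ} (hp : p.Prime) (c : ℕ) {Q : ℍ[ℤ]} (hQ : Q ≠ 0) :
    lev p (((p : ℤ) ^ c) • Q) = lev p Q := by
  obtain ⟨a, Q0, e, h0⟩ := V_exists hp _ Q hQ le_rfl
  rw [lev_eq hp e h0]
  refine lev_eq (c := c + a) hp ?_ h0
  rw [e, ← mul_smul, pow_add]

/-- the level does not change under multiplication by an integer -/
theorem lev_smul {p : ℕ} (hp : p.Prime) {m : ℤ} (hm : m ≠ 0) {Q : ℍ[ℤ]} (hQ : Q ≠ 0) :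
    lev p (m • Q) = lev p Q := by
  obtain ⟨a, Q0, e, h0⟩ := V_exists hp _ Q hQ le_rfl
  have hpp : Prime (p : ℤ) := Nat.prime_iff_prime_int.mp hp
  obtain ⟨k, m0, hm0, em⟩ : ∃ (k : ℕ) (m0 : ℤ), ¬ (p : ℤ) ∣ m0 ∧ m = (p : ℤ) ^ k * m0 := by
    have hfin : FiniteMultiplicity (p : ℤ) m :=
      FiniteMultiplicity.of_prime_left hpp hm
    obtain ⟨m0, h1, h2⟩ := hfin.exists_eq_pow_mul_and_not_dvd
    exact ⟨_, m0, h2, h1⟩
  have h1 : ¬ DV p (m0 • Q0) := fun h => h0 (DV.cancel hpp hm0 h)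
  have e1 : m • Q = ((p : ℤ) ^ (k + a)) • (m0 • Q0) := by
    rw [e, em, ← mul_smul, ← mul_smul]
    congr 1
    ring
  rw [lev_eq hp e1 h1, lev_eq hp e h0, V_normSq_smul]
  have hm00 : m0 ≠ 0 := by
    rintro rfl
    exact hm0 (dvd_zero _)
  have hN : normSq Q0 ≠ 0 := by
    rw [Ne, Quaternion.normSq_eq_zero]
    exact V_ne_zero h0
  rw [V_padic_mul hp (pow_ne_zero 2 hm00) hN, V_padic_zero, zero_add]
  intro h
  exact hm0 (hpp.dvd_of_dvd_pow h)

/-- the level of a quaternion is at most the order of `p` in the norm, the difference is even -/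
theorem lev_add {p : ℕ} (hp : p.Prime) {c : ℕ} {Q Q0 : ℍ[ℤ]} (e : Q = ((p : ℤ) ^ c) • Q0)
    (h0 : ¬ DV p Q0) : lev p Q + 2 * c = padicValInt p (normSq Q) := by
  have hp0 : (p : ℤ) ≠ 0 := by exact_mod_cast hp.ne_zero
  have hN : normSq Q0 ≠ 0 := by
    rw [Ne, Quaternion.normSq_eq_zero]
    exact V_ne_zero h0
  rw [lev_eq hp e h0, e, V_normSq_smul, V_padic_mul hp (pow_ne_zero 2 (pow_ne_zero c hp0)) hN]
  have : padicValInt p (((p : ℤ) ^ c) ^ 2) = 2 * c := by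
    have := Fact.mk hp
    rw [← pow_mul]
    have h1 : ((p : ℤ) ^ (c * 2)) = ((p ^ (c * 2) : ℕ) : ℤ) := by push_cast; ring
    rw [h1, padicValInt.of_nat, padicValNat.prime_pow]
    ring
  rw [this]
  ring

/-- (3.4): the core. `Q0` is not divisible by `p` and `p` divides the norm of `q` exactly once. -/
theorem lev_step_core {p : ℕ} (hp : p.Prime) {q Q0 : ℍ[ℤ]} (h0 : ¬ DV p Q0)
    (h1 : (p : ℤ) ∣ normSq q) (h2 : ¬ (p : ℤ) ^ 2 ∣ normSq q) :
    (lev p (star q * Q0) = lev p Q0 + 1 ∧ ¬ DV p (star q * Q0)) ∨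
      (lev p (star q * Q0) + 1 = lev p Q0 ∧ DV p (star q * Q0)) := by
  have hpp : Prime (p : ℤ) := Nat.prime_iff_prime_int.mp hp
  have hp0 : (p : ℤ) ≠ 0 := hpp.ne_zero
  obtain ⟨m, hm⟩ := h1
  have hpm : ¬ (p : ℤ) ∣ m := by
    rintro ⟨k, rfl⟩
    apply h2
    exact ⟨k, by rw [hm]; ring⟩
  have hm0 : m ≠ 0 := by
    rintro rfl
    exact hpm (dvd_zero _)
  have hN0 : normSq Q0 ≠ 0 := by
    rw [Ne, Quaternion.normSq_eq_zero]
    exact V_ne_zero h0
  have hNY : normSq (star q * Q0) = (p : ℤ) * m * normSq Q0 := by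
    rw [map_mul, Quaternion.normSq_star, hm]
  have hv : padicValInt p (normSq (star q * Q0)) = 1 + padicValInt p (normSq Q0) := by
    rw [hNY, V_padic_mul hp (mul_ne_zero hp0 hm0) hN0, V_padic_mul hp hp0 hm0, V_padic_self hp,
      V_padic_zero hpm]
  have hl0 : lev p Q0 = padicValInt p (normSq Q0) :=
    lev_eq (c := 0) hp (by rw [pow_zero, one_smul]) h0
  by_cases h : DV p (star q * Q0)
  · right
    refine ⟨?_, h⟩
    obtain ⟨Y1, hY1⟩ := h
    have h3 : ¬ DV p Y1 := by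
      rintro ⟨Y2, rfl⟩
      -- then p ^ 2 divides N(q) Q0
      have h4 : (normSq q) • Q0 = (p : ℤ) • ((p : ℤ) • (q * Y2)) := by
        rw [← self_mul_star_smul, mul_assoc, hY1, mul_smul_comm, mul_smul_comm]
      rw [hm, mul_smul] at h4
      have h5 := smul_cancel hp0 h4
      exact h0 (DV.cancel hpp hpm ⟨_, h5⟩)
    have hY10 : normSq Y1 ≠ 0 := by
      rw [Ne, Quaternion.normSq_eq_zero]
      exact V_ne_zero h3
    have h5 : lev p (star q * Q0) = padicValInt p (normSq Y1) :=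
      lev_eq (c := 1) hp (by rw [pow_one]; exact hY1) h3
    have h6 : padicValInt p (normSq (star q * Q0)) = 2 + padicValInt p (normSq Y1) := by
      rw [hY1, V_normSq_smul, V_padic_mul hp (pow_ne_zero 2 hp0) hY10, pow_two,
        V_padic_mul hp hp0 hp0, V_padic_self hp]
    rw [h5, hl0]
    omega
  · left
    refine ⟨?_, h⟩
    have h5 : lev p (star q * Q0) = padicValInt p (normSq (star q * Q0)) :=
      lev_eq (c := 0) hp (by rw [pow_zero, one_smul]) h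
    rw [h5, hl0]
    omega

/-- (3.4): the level of `star q * Q` is the level of `Q` plus or minus `1`; it decreases if and only
if `p` divides `star q * Q0`, where `Q = p ^ c * Q0`. -/
theorem lev_step {p : ℕ} (hp : p.Prime) {c : ℕ} {q Q Q0 : ℍ[ℤ]} (e : Q = ((p : ℤ) ^ c) • Q0)
    (h0 : ¬ DV p Q0) (h1 : (p : ℤ) ∣ normSq q) (h2 : ¬ (p : ℤ) ^ 2 ∣ normSq q) :
    (lev p (star q * Q) = lev p Q + 1 ∧ ¬ DV p (star q * Q0)) ∨
      (lev p (star q * Q) + 1 = lev p Q ∧ DV p (star q * Q0)) := by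
  have hq : star q ≠ 0 := by
    intro h
    apply h2
    have : q = 0 := by rw [← star_star q, h, star_zero]
    rw [this, map_zero]
    exact dvd_zero _
  have hQ0 := V_ne_zero h0
  have e1 : star q * Q = ((p : ℤ) ^ c) • (star q * Q0) := by
    rw [e, mul_smul_comm]
  rw [e1, e, lev_pow_smul hp c (mul_ne_zero hq hQ0), lev_pow_smul hp c hQ0]
  exact lev_step_core hp h0 h1 h2

/-! ### real quaternions -/

/-- an integer quaternion as a real quaternion -/
def qR (q : ℍ[ℤ]) : ℍ[ℝ] := mk4 (q.re : ℝ) q.imI q.imJ q.imK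

@[simp] theorem qR_re (q : ℍ[ℤ]) : (qR q).re = q.re := rfl
@[simp] theorem qR_imI (q : ℍ[ℤ]) : (qR q).imI = q.imI := rfl
@[simp] theorem qR_imJ (q : ℍ[ℤ]) : (qR q).imJ = q.imJ := rfl
@[simp] theorem qR_imK (q : ℍ[ℤ]) : (qR q).imK = q.imK := rfl

theorem qR_mul (a b : ℍ[ℤ]) : qR (a * b) = qR a * qR b := by
  refine qext ?_ ?_ ?_ ?_ <;> simp

theorem qR_add (a b : ℍ[ℤ]) : qR (a + b) = qR a + qR b := by
  refine qext ?_ ?_ ?_ ?_ <;> simp

theorem qR_star (a : ℍ[ℤ]) : qR (star a) = star (qR a) := by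
  refine qext ?_ ?_ ?_ ?_ <;> simp

theorem qR_neg (a : ℍ[ℤ]) : qR (-a) = -qR a := by
  refine qext ?_ ?_ ?_ ?_ <;> simp

theorem qR_one : qR 1 = 1 := by
  refine qext ?_ ?_ ?_ ?_ <;> simp

theorem qR_zero : qR 0 = 0 := by
  refine qext ?_ ?_ ?_ ?_ <;> simp

theorem qR_smul (m : ℤ) (a : ℍ[ℤ]) : qR (m • a) = (m : ℝ) • qR a := by
  refine qext ?_ ?_ ?_ ?_
  · rw [qR_re, re_zs]; simp
  · rw [qR_imI, imI_zs]; simp
  · rw [qR_imJ, imJ_zs]; simp
  · rw [qR_imK, imK_zs]; simp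

theorem normSq_qR (a : ℍ[ℤ]) : normSq (qR a) = ((normSq a : ℤ) : ℝ) := by
  rw [Quaternion.normSq_def', Quaternion.normSq_def']
  push_cast
  simp

theorem qR_inj {a b : ℍ[ℤ]} (h : qR a = qR b) : a = b := by
  have h1 := congrArg QuaternionAlgebra.re h
  have h2 := congrArg QuaternionAlgebra.imI h
  have h3 := congrArg QuaternionAlgebra.imJ h
  have h4 := congrArg QuaternionAlgebra.imK h
  simp only [qR_re, qR_imI, qR_imJ, qR_imK] at h1 h2 h3 h4
  exact qext (by exact_mod_cast h1) (by exact_mod_cast h2) (by exact_mod_cast h3)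
    (by exact_mod_cast h4)

theorem qR_ne_zero {a : ℍ[ℤ]} (h : a ≠ 0) : qR a ≠ 0 := by
  intro h1
  exact h (qR_inj (h1.trans qR_zero.symm))

/-- `g` is a real multiple of an integer quaternion times `h` -/
def VRel (g h : ℍ[ℝ]) : Prop := ∃ (Q : ℍ[ℤ]) (c : ℝ), Q ≠ 0 ∧ c ≠ 0 ∧ g = c • (qR Q * h)

theorem VRel.refl (g : ℍ[ℝ]) : VRel g g :=
  ⟨1, 1, one_ne_zero, one_ne_zero, by rw [qR_one, one_mul, one_smul]⟩

theorem VRel.symm {g h : ℍ[ℝ]} (r : VRel g h) : VRel h g := by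
  obtain ⟨Q, c, hQ, hc, rfl⟩ := r
  have hN : normSq (qR Q) ≠ 0 := by
    rw [Ne, Quaternion.normSq_eq_zero]
    exact qR_ne_zero hQ
  refine ⟨star Q, c⁻¹ * (normSq (qR Q))⁻¹, ?_, mul_ne_zero (inv_ne_zero hc) (inv_ne_zero hN), ?_⟩
  · intro h0
    apply hQ
    rw [← star_star Q, h0, star_zero]
  · rw [qR_star, mul_smul_comm, ← mul_assoc, Quaternion.star_mul_self, ← mul_smul,
      Quaternion.coe_mul_eq_smul, ← mul_smul]
    have : c⁻¹ * (normSq (qR Q))⁻¹ * c * normSq (qR Q) = 1 := by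
      field_simp
    rw [this, one_smul]

theorem VRel.trans {g h k : ℍ[ℝ]} (r : VRel g h) (s : VRel h k) : VRel g k := by
  obtain ⟨Q, c, hQ, hc, rfl⟩ := r
  obtain ⟨Q', c', hQ', hc', rfl⟩ := s
  refine ⟨Q * Q', c * c', mul_ne_zero hQ hQ', mul_ne_zero hc hc', ?_⟩
  rw [qR_mul, mul_smul_comm, ← mul_smul, mul_assoc]

open Classical in
/-- a representative of the class of `g` -/
noncomputable def vrep (g : ℍ[ℝ]) : ℍ[ℝ] := Classical.epsilon (VRel g)

theorem vrep_spec (g : ℍ[ℝ]) : VRel g (vrep g) := Classical.epsilon_spec ⟨g, VRel.refl g⟩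

theorem vrep_eq {g h : ℍ[ℝ]} (r : VRel g h) : vrep g = vrep h := by
  have : VRel g = VRel h := by
    funext k
    apply propext
    exact ⟨fun s => r.symm.trans s, fun s => r.trans s⟩
  unfold vrep
  rw [this]

/-- the integer quaternion attached to `g` -/
noncomputable def vQ (g : ℍ[ℝ]) : ℍ[ℤ] := (vrep_spec g).choose

theorem vQ_spec (g : ℍ[ℝ]) : vQ g ≠ 0 ∧ ∃ c : ℝ, c ≠ 0 ∧ g = c • (qR (vQ g) * vrep g) := by
  obtain ⟨c, h1, h2, h3⟩ := (vrep_spec g).choose_spec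
  exact ⟨h1, c, h2, h3⟩

/-- the level of a real quaternion -/
noncomputable def levR (p : ℕ) (g : ℍ[ℝ]) : ℕ := lev p (vQ g)

/-- proportional integer quaternions have the same level -/
theorem lev_of_prop {p : ℕ} (hp : p.Prime) {Q Q' : ℍ[ℤ]} (hQ : Q ≠ 0) (hQ' : Q' ≠ 0) {c c' : ℝ}
    (hc : c ≠ 0) (hc' : c' ≠ 0) (e : c • qR Q = c' • qR Q') : lev p Q = lev p Q' := by
  -- integers `a, b` with `a • Q = b • Q'`
  have key : ∃ a b : ℤ, a ≠ 0 ∧ b ≠ 0 ∧ a • Q = b • Q' := by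
    have e1 := congrArg QuaternionAlgebra.re e
    have e2 := congrArg QuaternionAlgebra.imI e
    have e3 := congrArg QuaternionAlgebra.imJ e
    have e4 := congrArg QuaternionAlgebra.imK e
    simp only [Quaternion.re_smul, Quaternion.imI_smul, Quaternion.imJ_smul,
      Quaternion.imK_smul, qR_re, qR_imI, qR_imJ, qR_imK, smul_eq_mul] at e1 e2 e3 e4
    -- from two coordinates `u, u'` of `Q, Q'`, `u' ≠ 0`
    have cross : ∀ (u u' v v' : ℤ), c * u = c' * u' → c * v = c' * v' → u' * v = u * v' := by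
      intro u u' v v' h1 h2
      have h3 : (c * c') * ((u' : ℝ) * v) = (c * c') * ((u : ℝ) * v') := by
        calc (c * c') * ((u' : ℝ) * v) = (c' * u') * (c * v) := by ring
          _ = (c * u) * (c' * v') := by rw [h1, h2]
          _ = (c * c') * ((u : ℝ) * v') := by ring
      have h4 := mul_left_cancel₀ (mul_ne_zero hc hc') h3
      exact_mod_cast h4
    have nz : ∀ u u' : ℤ, c * u = c' * u' → u' ≠ 0 → u ≠ 0 := by
      intro u u' h1 h2 h3
      rw [h3, Int.cast_zero, mul_zero] at h1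
      exact (mul_ne_zero hc' (Int.cast_ne_zero.mpr h2)) h1.symm
    have fin : ∀ u u' : ℤ, c * u = c' * u' → u' ≠ 0 → ∃ a b : ℤ, a ≠ 0 ∧ b ≠ 0 ∧ a • Q = b • Q' := by
      intro u u' h1 h2
      refine ⟨u', u, h2, nz u u' h1 h2, qext ?_ ?_ ?_ ?_⟩
      · rw [re_zs, re_zs]; exact cross _ _ _ _ h1 e1
      · rw [imI_zs, imI_zs]; exact cross _ _ _ _ h1 e2
      · rw [imJ_zs, imJ_zs]; exact cross _ _ _ _ h1 e3
      · rw [imK_zs, imK_zs]; exact cross _ _ _ _ h1 e4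
    by_cases g1 : Q'.re = 0
    · by_cases g2 : Q'.imI = 0
      · by_cases g3 : Q'.imJ = 0
        · by_cases g4 : Q'.imK = 0
          · exfalso
            apply hQ'
            exact qext (by rw [g1]; rfl) (by rw [g2]; rfl) (by rw [g3]; rfl) (by rw [g4]; rfl)
          · exact fin _ _ e4 g4
        · exact fin _ _ e3 g3
      · exact fin _ _ e2 g2
    · exact fin _ _ e1 g1
  obtain ⟨a, b, ha, hb, h⟩ := key
  rw [← lev_smul hp ha hQ, h, lev_smul hp hb hQ']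

/-- the level of `g = c Q r`, `r` the representative -/
theorem levR_eq {p : ℕ} (hp : p.Prime) {g : ℍ[ℝ]} (hg : g ≠ 0) {Q : ℍ[ℤ]} {c : ℝ} (hQ : Q ≠ 0)
    (hc : c ≠ 0) (e : g = c • (qR Q * vrep g)) : levR p g = lev p Q := by
  obtain ⟨h1, c', hc', e'⟩ := vQ_spec g
  have hr : vrep g ≠ 0 := by
    intro h
    apply hg
    rw [e, h, mul_zero, smul_zero]
  unfold levR
  refine lev_of_prop hp h1 hQ hc' hc ?_
  have e2 : (c' • qR (vQ g)) * vrep g = (c • qR Q) * vrep g := by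
    rw [smul_mul_assoc, smul_mul_assoc, ← e, ← e']
  exact mul_right_cancel₀ hr e2

/-- BLOCK V, main export, for real quaternions: `Q0` is attached to `g`, not divisible by `p`, and
for every `q` whose norm is divisible by `p` exactly once the level of (a real multiple of)
`star q * g` is the level of `g` plus `1` or minus `1`; it is minus `1` if and only if `p` divides
`star q * Q0`. -/
theorem levR_step {p : ℕ} (hp : p.Prime) {g : ℍ[ℝ]} (hg : g ≠ 0) :
    ∃ Q0 : ℍ[ℤ], ¬ DV p Q0 ∧ ∀ q : ℍ[ℤ], (p : ℤ) ∣ normSq q → ¬ (p : ℤ) ^ 2 ∣ normSq q →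
      ∀ c : ℝ, c ≠ 0 →
      (levR p (c • (star (qR q) * g)) = levR p g + 1 ∧ ¬ DV p (star q * Q0)) ∨
      (levR p (c • (star (qR q) * g)) + 1 = levR p g ∧ DV p (star q * Q0)) := by
  obtain ⟨h1, c0, hc0, e0⟩ := vQ_spec g
  obtain ⟨k, Q0, e, h0⟩ := V_exists hp _ (vQ g) h1 le_rfl
  refine ⟨Q0, h0, fun q hq1 hq2 c hc => ?_⟩
  have hq : q ≠ 0 := by
    rintro rfl
    apply hq2
    rw [map_zero]
    exact dvd_zero _
  have hqs : star q ≠ 0 := by
    intro h
    apply hq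
    rw [← star_star q, h, star_zero]
  have hrel : VRel (c • (star (qR q) * g)) g := ⟨star q, c, hqs, hc, by rw [qR_star]⟩
  have hne : c • (star (qR q) * g) ≠ 0 := by
    rw [← qR_star]
    exact smul_ne_zero hc (mul_ne_zero (qR_ne_zero hqs) hg)
  have h2 : levR p (c • (star (qR q) * g)) = lev p (star q * vQ g) := by
    refine levR_eq (c := c * c0) hp hne (mul_ne_zero hqs h1) (mul_ne_zero hc hc0) ?_
    have h3 : star (qR q) * g = c0 • (star (qR q) * (qR (vQ g) * vrep g)) := by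
      rw [← mul_smul_comm, ← e0]
    rw [vrep_eq hrel, qR_mul, qR_star, mul_assoc, mul_smul, ← h3]
  have h3 := lev_step hp e h0 hq1 hq2
  rw [h2]
  exact h3

/-- two quaternions `q`, `q'` whose norms are divisible by `p` exactly once and which both decrease
the level of `g`: `p` divides `star q * q'`. -/
theorem levR_down_down {p : ℕ} (hp : p.Prime) (hp2 : p ≠ 2) {g : ℍ[ℝ]} (hg : g ≠ 0) {q q' : ℍ[ℤ]}
    (h1 : (p : ℤ) ∣ normSq q) (h2 : ¬ (p : ℤ) ^ 2 ∣ normSq q)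
    (h1' : (p : ℤ) ∣ normSq q') (h2' : ¬ (p : ℤ) ^ 2 ∣ normSq q')
    {c c' : ℝ} (hc : c ≠ 0) (hc' : c' ≠ 0)
    (hd : levR p (c • (star (qR q) * g)) < levR p g)
    (hd' : levR p (c' • (star (qR q') * g)) < levR p g) : DV p (star q * q') := by
  obtain ⟨Q0, h0, h⟩ := levR_step hp hg
  have hpp : Prime (p : ℤ) := Nat.prime_iff_prime_int.mp hp
  have h22 : ¬ (p : ℤ) ∣ 2 := by
    intro h3
    have h4 : p ∣ 2 := by exact_mod_cast h3
    exact hp2 ((Nat.prime_dvd_prime_iff_eq hp Nat.prime_two).mp h4)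
  have a := h q h1 h2 c hc
  have b := h q' h1' h2' c' hc'
  have a' : DV p (star q * Q0) := by
    rcases a with a | a
    · omega
    · exact a.2
  have b' : DV p (star q' * Q0) := by
    rcases b with b | b
    · omega
    · exact b.2
  exact dv_star_mul_of_common hpp h22 h0 a' b'

/-- neighbours have different levels -/
theorem levR_ne {p : ℕ} (hp : p.Prime) {g : ℍ[ℝ]} (hg : g ≠ 0) {q : ℍ[ℤ]}
    (h1 : (p : ℤ) ∣ normSq q) (h2 : ¬ (p : ℤ) ^ 2 ∣ normSq q) {c : ℝ} (hc : c ≠ 0) :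
    levR p (c • (star (qR q) * g)) ≠ levR p g := by
  obtain ⟨Q0, _, h⟩ := levR_step hp hg
  rcases h q h1 h2 c hc with a | a <;> omega

end BQA
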