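import Mathlib
import Pool.Agent.BQ.V_Lev

/-!
# BQ: shared definitions (MP_701da7_co); the mathematics is in PAPER.md

Integer quaternions: `ℍ[ℤ]`, norm `normSq`, `DV`, `InL1` (A_Def), cast `qR` (V_Lev).
Here: the sets `sph m`, the map `usp`, quaternionic graphs `QG` and their operators in matrix
form, the labels `Lab R J` with `kapL`, the graph `SG` of a family of labels, proportions `Pr`.
-/

open Quaternion

namespace BQA

/-! ## Integer quaternions -/

instance : DecidableEq ℍ[ℤ] := fun a b =>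
  decidable_of_iff (a.re = b.re ∧ a.imI = b.imI ∧ a.imJ = b.imJ ∧ a.imK = b.imK)
    ⟨fun h => QuaternionAlgebra.ext h.1 h.2.1 h.2.2.1 h.2.2.2, fun h => by subst h; simp⟩

instance (p : ℤ) (q : ℍ[ℤ]) : Decidable (DV p q) := decidable_of_iff _ (dv_iff p q).symm
instance (q : ℍ[ℤ]) : Decidable (InL1 q) := by unfold InL1; infer_instance

/-- all integer quaternions with coordinates in `[-m, m]` -/
noncomputable def box (m : ℕ) : Finset ℍ[ℤ] :=
  (Finset.Icc (-(m : ℤ)) m ×ˢ Finset.Icc (-(m : ℤ)) m ×ˢ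
    Finset.Icc (-(m : ℤ)) m ×ˢ Finset.Icc (-(m : ℤ)) m).image
    fun x => mk4 x.1 x.2.1 x.2.2.1 x.2.2.2

/-- the quaternions `q ≡ 1 mod 2` of norm `m` -/
noncomputable def sph (m : ℕ) : Finset ℍ[ℤ] := (box m).filter fun q => InL1 q ∧ normSq q = m

/-- `R'(m)` -/
noncomputable def Rp (m : ℕ) : ℕ := (sph m).card

theorem mem_box_of_nm {m : ℕ} {q : ℍ[ℤ]} (h : normSq q = m) : q ∈ box m := by
  rw [Quaternion.normSq_def'] at h
  have key : ∀ x y : ℤ, 0 ≤ y → x ^ 2 + y = m → x ∈ Finset.Icc (-(m : ℤ)) m := by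
    intro x y hy hxy
    rw [Finset.mem_Icc]
    constructor
    · by_contra hc
      push Not at hc
      nlinarith [sq_nonneg (x + 1), sq_nonneg x]
    · by_contra hc
      push Not at hc
      nlinarith [sq_nonneg (x - 1), sq_nonneg x]
  unfold box
  rw [Finset.mem_image]
  refine ⟨(q.re, q.imI, q.imJ, q.imK), ?_, rfl⟩
  simp only [Finset.mem_product]
  have h0 := sq_nonneg q.re
  have h1 := sq_nonneg q.imI
  have h2 := sq_nonneg q.imJ
  have h3 := sq_nonneg q.imK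
  refine ⟨key _ (q.imI ^ 2 + q.imJ ^ 2 + q.imK ^ 2) (by positivity) (by linarith),
    key _ (q.re ^ 2 + q.imJ ^ 2 + q.imK ^ 2) (by positivity) (by linarith),
    key _ (q.re ^ 2 + q.imI ^ 2 + q.imK ^ 2) (by positivity) (by linarith),
    key _ (q.re ^ 2 + q.imI ^ 2 + q.imJ ^ 2) (by positivity) (by linarith)⟩

theorem mem_sph {m : ℕ} {q : ℍ[ℤ]} : q ∈ sph m ↔ InL1 q ∧ normSq q = m := by
  unfold sph
  rw [Finset.mem_filter]
  exact ⟨fun h => h.2, fun h => ⟨mem_box_of_nm h.2, h⟩⟩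

theorem star_mem_sph {m : ℕ} {q : ℍ[ℤ]} (h : q ∈ sph m) : star q ∈ sph m := by
  rw [mem_sph] at h ⊢
  obtain ⟨⟨h1, h2, h3, h4⟩, h5⟩ := h
  exact ⟨⟨by simpa using h1, by simpa using h2, by simpa using h3, by simpa using h4⟩,
    (Quaternion.normSq_star _).trans h5⟩

noncomputable section

/-! ## The sphere -/

/-- the unit quaternions, a compact group -/
abbrev S3 : Type := Metric.sphere (0 : ℍ[ℝ]) 1

open scoped Classical in
/-- `- conj x / |x|`, and `1` for `x = 0` -/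
def uR (x : ℍ[ℝ]) : S3 :=
  if h : x = 0 then 1 else ⟨-(‖x‖⁻¹ • star x), by
    have : ‖x‖ ≠ 0 := norm_ne_zero_iff.mpr h
    simp [norm_smul, this]⟩

/-- `u(q) = - conj q / |q|` -/
def usp (q : ℍ[ℤ]) : S3 := uR (qR q)

theorem coe_uR {x : ℍ[ℝ]} (h : x ≠ 0) : ((uR x : S3) : ℍ[ℝ]) = -(‖x‖⁻¹ • star x) := by
  simp [uR, h]

theorem uR_star (x : ℍ[ℝ]) : uR (star x) = (uR x)⁻¹ := by
  by_cases h : x = 0
  · subst h; simp [uR]
  · have hs : star x ≠ 0 := fun h' => h (by simpa using congrArg star h')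
    have hn : ‖x‖ ≠ 0 := norm_ne_zero_iff.mpr h
    rw [eq_inv_iff_mul_eq_one]
    apply Subtype.ext
    have h1 : ((uR (star x) * uR x : S3) : ℍ[ℝ]) =
        ((uR (star x) : S3) : ℍ[ℝ]) * ((uR x : S3) : ℍ[ℝ]) := rfl
    rw [h1, coe_uR h, coe_uR hs]
    have h2 : ((1 : S3) : ℍ[ℝ]) = 1 := rfl
    rw [h2]
    have h3 : x * star x = ((‖x‖ * ‖x‖ : ℝ) : ℍ[ℝ]) := by
      rw [Quaternion.self_mul_star, Quaternion.normSq_eq_norm_mul_self]
    simp only [star_star, neg_mul_neg, smul_mul_smul_comm, norm_star, h3]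
    rw [← Quaternion.coe_mul_eq_smul, ← Quaternion.coe_mul]
    rw [show (‖x‖⁻¹ * ‖x‖⁻¹ * (‖x‖ * ‖x‖) : ℝ) = 1 by field_simp]
    simp

theorem usp_star (q : ℍ[ℤ]) : usp (star q) = (usp q)⁻¹ := by
  rw [usp, qR_star, uR_star, usp]

/-! ## Quaternionic graphs -/

/-- a finite graph whose edges carry integer quaternions of norm `n` -/
structure QG (n : ℕ) where
  V : Type
  E : Type
  [fV : Fintype V]
  [fE : Fintype E]
  [dV : DecidableEq V]
  [dE : DecidableEq E]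
  src : E → V
  tgt : E → V
  inv : E → E
  q : E → ℍ[ℤ]
  inv_inv : ∀ e, inv (inv e) = e
  src_inv : ∀ e, src (inv e) = tgt e
  q_inv : ∀ e, q (inv e) = star (q e)
  nm_q : ∀ e, normSq (q e) = n

attribute [instance] QG.fV QG.fE QG.dV QG.dE

variable {n : ℕ}

open Matrix in
/-- the sesquilinear form `⟨c, T c'⟩ = ∑_e ⟨c(src e), ρ(u(q(e))) c'(tgt e)⟩` -/
def QG.form (Γ : QG n) {ι : Type} [Fintype ι] (ρ : S3 → Matrix ι ι ℂ) (c c' : Γ.V → ι → ℂ) : ℂ :=
  ∑ e, star (c (Γ.src e)) ⬝ᵥ (ρ (usp (Γ.q e)) *ᵥ c' (Γ.tgt e))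

/-- the square of the l2 norm of a family of vectors -/
def nv2 {V ι : Type} [Fintype V] [Fintype ι] (c : V → ι → ℂ) : ℝ := ∑ s, ∑ i, ‖c s i‖ ^ 2

/-- `|⟨c, T c'⟩| ≤ B ‖c‖ ‖c'‖`: the norm of `T` in the representation `ρ` is at most `B` -/
def MBd (Γ : QG n) {ι : Type} [Fintype ι] (ρ : S3 → Matrix ι ι ℂ) (B : ℝ) : Prop :=
  ∀ c c' : Γ.V → ι → ℂ, ‖Γ.form ρ c c'‖ ≤ B * Real.sqrt (nv2 c) * Real.sqrt (nv2 c')

/-- at most `C` edges from a vertex in one direction modulo `p` -/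
def Mult (Γ : QG n) (p C : ℕ) : Prop :=
  ∀ e0, (Finset.univ.filter fun e => Γ.src e = Γ.src e0 ∧ DV p (star (Γ.q e) * Γ.q e0)).card ≤ C

/-- all degrees are at most `Δ` -/
def Deg (Γ : QG n) (Δ : ℝ) : Prop :=
  ∀ s, ((Finset.univ.filter fun e => Γ.src e = s).card : ℝ) ≤ Δ

/-- the graph with one vertex whose edges are the `q ≡ 1 mod 2` of norm `n` -/
def HeckeQG (n : ℕ) : QG n where
  V := Unit
  E := {q // q ∈ sph n}
  src := fun _ => ()
  tgt := fun _ => ()
  inv := fun e => ⟨star e.1, star_mem_sph e.2⟩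
  q := fun e => e.1
  inv_inv := fun e => by simp
  src_inv := fun _ => rfl
  q_inv := fun _ => rfl
  nm_q := fun e => (mem_sph.mp e.2).2

/-! ## Labels -/

/-- the index set: three imaginary units, `R` copies, `J` levels -/
abbrev Idx (R J : ℕ) : Type := Fin 3 × Fin R × Fin J

/-- labels -/
abbrev Lab (R J : ℕ) : Type := Idx R J → ZMod 4

/-- the imaginary units -/
def iu (v : Fin 3) : ℍ[ℤ] :=
  if v = 0 then mk4 0 1 0 0 else if v = 1 then mk4 0 0 1 0 else mk4 0 0 0 1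

variable {R J : ℕ}

/-- `κ(h) = 1 + ∑ 2^j v^(h(v,c,j))` -/
def kapL (h : Lab R J) : ℍ[ℤ] :=
  1 + ∑ c : Idx R J, (2 ^ (c.2.2 : ℕ) : ℤ) • iu c.1 ^ (h c).val

/-- the parity of the number of odd `h(v,c,0)` -/
def par (R J : ℕ) (v : Fin 3) : Lab R J →+ ZMod 2 :=
  ∑ c : Fin R × Fin J, if (c.2 : ℕ) = 0 then
    ((ZMod.castHom (by norm_num : 2 ∣ 4) (ZMod 2)).toAddMonoidHom.comp
      (Pi.evalAddMonoidHom (fun _ : Idx R J => ZMod 4) (v, c))) else 0

/-- the labels `h` with `κ(h) ≡ 1 mod 2` (for `R` even) -/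
def LabE (R J : ℕ) : AddSubgroup (Lab R J) := ⨅ v, (par R J v).ker

instance : Fintype (LabE R J) := Fintype.ofFinite _

/-- the labels `h` in `LabE` with `N(κ(h)) = n` -/
def Xset (R J n : ℕ) : Finset (LabE R J) :=
  Finset.univ.filter fun h : LabE R J => normSq (kapL (h : Lab R J)) = n

/-- the character `ψ` of the group of labels -/
def chi (ψ h : Lab R J) : ℂ := ∏ c, Complex.I ^ (ψ c * h c).val

theorem iu_pow_neg (v : Fin 3) (x : ZMod 4) : iu v ^ (-x).val = star (iu v ^ x.val) := by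
  have h4 : ∀ v : Fin 3, star (iu v) = iu v ^ 3 ∧ star (iu v ^ 2) = iu v ^ 2 ∧
      star (iu v ^ 3) = iu v := by
    intro v
    fin_cases v <;> refine ⟨?_, ?_, ?_⟩ <;> apply Quaternion.ext <;>
      simp [iu, pow_succ]
  obtain ⟨h1, h2, h3⟩ := h4 v
  fin_cases x
  · change iu v ^ 0 = star (iu v ^ 0)
    simp
  · change iu v ^ 3 = star (iu v ^ 1)
    rw [pow_one, h1]
  · change iu v ^ 2 = star (iu v ^ 2)
    rw [h2]
  · change iu v ^ 1 = star (iu v ^ 3)
    rw [pow_one, h3]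

theorem kapL_neg (h : Lab R J) : kapL (-h) = star (kapL h) := by
  unfold kapL
  rw [star_add, star_one, star_sum]
  congr 1
  refine Finset.sum_congr rfl fun c _ => ?_
  rw [Pi.neg_apply, iu_pow_neg, StarModule.star_smul]
  simp

/-- the graph of a family of labels: `i ~ j` iff `N(κ(s j - s i)) = n` -/
def SG (n : ℕ) {N : ℕ} (s : Fin N → Lab R J) : QG n where
  V := Fin N
  E := {e : Fin N × Fin N // normSq (kapL (s e.2 - s e.1)) = n}
  src := fun e => e.1.1
  tgt := fun e => e.1.2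
  inv := fun e => ⟨(e.1.2, e.1.1), by
    have h : kapL (s e.1.1 - s e.1.2) = star (kapL (s e.1.2 - s e.1.1)) := by
      rw [← kapL_neg, neg_sub]
    change normSq (kapL (s e.1.1 - s e.1.2)) = n
    rw [h]
    exact (Quaternion.normSq_star _).trans e.2⟩
  q := fun e => kapL (s e.1.2 - s e.1.1)
  inv_inv := fun _ => rfl
  src_inv := fun _ => rfl
  q_inv := fun e => by
    have h := kapL_neg (s e.1.2 - s e.1.1)
    rw [neg_sub] at h
    exact h
  nm_q := fun e => e.2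

/-! ## Counting -/

open scoped Classical in
/-- the proportion of the elements of a finite type with a property -/
def Pr {α : Type} [Fintype α] (P : α → Prop) : ℝ :=
  ((Finset.univ.filter P).card : ℝ) / Fintype.card α

end

end BQA
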