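import Mathlib
import Pool.Agent.BQ.C_EDG
import Pool.Agent.BQ.C_MIX
import Pool.Agent.BQ.Defs

/-!
# The edges of the random graph (end of block C)

`parE e` are the eight parity characters. `mix_LabE`: mixing in the group `LabE R J`;
`edges_sample`: in a random family every set of `N / R ^ (5/2)` vertices spans many edges.
-/

set_option autoImplicit false

namespace Pool.Agent.BQ

open Finset BQA Quaternion

section
variable {R J : ℕ}

/-- the eight parity characters -/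
def parE (R J : ℕ) (e : Fin 3 → Bool) : Lab R J :=
  fun c => if (c.2.2 : ℕ) = 0 ∧ e c.1 = true then 2 else 0

theorem neg_parE (e : Fin 3 → Bool) : -parE R J e = parE R J e := by
  funext c
  simp only [Pi.neg_apply, parE]
  split_ifs
  · decide
  · simp

/-- the sign character of `ZMod 2` -/
noncomputable def sg (a : ZMod 2) : ℂ := (-1) ^ a.val

theorem sg_add (a b : ZMod 2) : sg (a + b) = sg a * sg b := by
  have ha : a = 0 ∨ a = 1 := by revert a; decide
  have hb : b = 0 ∨ b = 1 := by revert b; decide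
  have h0 : sg 0 = 1 := by simp [sg]
  have h1 : sg 1 = -1 := by simp [sg, ZMod.val_one]
  have h2 : sg (1 + 1) = 1 := by
    have : (1 : ZMod 2) + 1 = 0 := by decide
    rw [this, h0]
  rcases ha with rfl | rfl <;> rcases hb with rfl | rfl
  · simp [h0]
  · simp [h0, h1]
  · simp [h0, h1]
  · rw [h2, h1]; norm_num

theorem sg_zero : sg 0 = 1 := by simp [sg]

theorem sg_sum {κ : Type*} (s : Finset κ) (f : κ → ZMod 2) : sg (∑ c ∈ s, f c) = ∏ c ∈ s, sg (f c) := by
  classical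
  induction s using Finset.induction_on with
  | empty => simp [sg_zero]
  | insert a s ha ih => rw [sum_insert ha, prod_insert ha, sg_add, ih]

theorem e4_two (x : ZMod 4) :
    e4 (2 * x) = sg (ZMod.castHom (by norm_num : 2 ∣ 4) (ZMod 2) x) := by
  have e0 : (0 : ZMod 4).val = 0 := rfl
  have e2 : (2 : ZMod 4).val = 2 := rfl
  have hcase : x = 0 ∨ x = 1 ∨ x = 2 ∨ x = 3 := by revert x; decide
  rcases hcase with rfl | rfl | rfl | rfl
  · have a : (2 : ZMod 4) * 0 = 0 := rfl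
    have b : ZMod.castHom (by norm_num : 2 ∣ 4) (ZMod 2) (0 : ZMod 4) = 0 := by simp
    rw [a, b, sg_zero, e4_zero]
  · have a : (2 : ZMod 4) * 1 = 2 := rfl
    have b : ZMod.castHom (by norm_num : 2 ∣ 4) (ZMod 2) (1 : ZMod 4) = 1 := by simp
    rw [a, b]
    unfold e4 sg
    rw [e2, Complex.I_sq, ZMod.val_one, pow_one]
  · have a : (2 : ZMod 4) * 2 = 0 := rfl
    have b : ZMod.castHom (by norm_num : 2 ∣ 4) (ZMod 2) (2 : ZMod 4) = 0 := by decide
    rw [a, b, sg_zero, e4_zero]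
  · have a : (2 : ZMod 4) * 3 = 2 := rfl
    have b : ZMod.castHom (by norm_num : 2 ∣ 4) (ZMod 2) (3 : ZMod 4) = 1 := by decide
    rw [a, b]
    unfold e4 sg
    rw [e2, Complex.I_sq, ZMod.val_one, pow_one]

theorem par_apply (v : Fin 3) (h : Lab R J) :
    par R J v h = ∑ c : Fin R × Fin J,
      if (c.2 : ℕ) = 0 then ZMod.castHom (by norm_num : 2 ∣ 4) (ZMod 2) (h (v, c)) else 0 := by
  unfold par
  rw [AddMonoidHom.finsetSum_apply]
  refine sum_congr rfl fun c _ => ?_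
  split_ifs
  · rfl
  · rfl

theorem chi_parE (e : Fin 3 → Bool) (h : Lab R J) :
    chi (parE R J e) h = ∏ v : Fin 3, if e v = true then sg (par R J v h) else 1 := by
  unfold chi
  rw [Fintype.prod_prod_type]
  refine prod_congr rfl fun v _ => ?_
  by_cases hv : e v = true
  · rw [if_pos hv, par_apply, sg_sum]
    refine prod_congr rfl fun c _ => ?_
    by_cases hc : (c.2 : ℕ) = 0
    · rw [if_pos hc]
      have : parE R J e (v, c) = 2 := by simp [parE, hc, hv]
      rw [this, e4_two]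
    · rw [if_neg hc, sg_zero]
      have : parE R J e (v, c) = 0 := by simp [parE, hc]
      rw [this, zero_mul, e4_zero]
  · rw [if_neg hv]
    refine prod_eq_one fun c _ => ?_
    have : parE R J e (v, c) = 0 := by simp [parE, hv]
    rw [this, zero_mul, e4_zero]

theorem mem_LabE (h : Lab R J) : h ∈ LabE R J ↔ ∀ v, par R J v h = 0 := by
  unfold LabE
  simp [AddSubgroup.mem_iInf, AddMonoidHom.mem_ker]

theorem chi_parE_of_mem (e : Fin 3 → Bool) {h : Lab R J} (hh : h ∈ LabE R J) :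
    chi (parE R J e) h = 1 := by
  rw [chi_parE]
  refine prod_eq_one fun v _ => ?_
  rw [(mem_LabE h).1 hh v, sg_zero]
  simp

/-- the parity characters as a finite set -/
def AnnE (R J : ℕ) : Finset (Lab R J) := univ.image (parE R J)

theorem parE_inj (hR : 0 < R) (hJ : 0 < J) : Function.Injective (parE R J) := by
  intro e e' h
  funext v
  have h1 := congrFun h (v, ⟨0, hR⟩, ⟨0, hJ⟩)
  simp only [parE, true_and] at h1
  by_cases hv : e v = true <;> by_cases hv' : e' v = true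
  · rw [hv, hv']
  · rw [if_pos hv, if_neg hv'] at h1
    exact absurd h1 (by decide)
  · rw [if_neg hv, if_pos hv'] at h1
    exact absurd h1 (by decide)
  · rw [Bool.not_eq_true] at hv hv'
    rw [hv, hv']

theorem card_AnnE (hR : 0 < R) (hJ : 0 < J) : (AnnE R J).card = 8 := by
  unfold AnnE
  rw [card_image_of_injective _ (parE_inj hR hJ), card_univ]
  rfl

/-- the three parities together -/
def parAll (R J : ℕ) : Lab R J →+ (Fin 3 → ZMod 2) := AddMonoidHom.pi (fun v => par R J v)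

theorem ker_parAll : (parAll R J).ker = LabE R J := by
  ext h
  rw [mem_LabE, AddMonoidHom.mem_ker]
  constructor
  · intro h1 v
    exact congrFun h1 v
  · intro h1
    funext v
    exact h1 v

theorem parAll_surj (hR : 0 < R) (hJ : 0 < J) : Function.Surjective (parAll R J) := by
  intro t
  refine ⟨fun c => if c.2.1 = ⟨0, hR⟩ ∧ c.2.2 = ⟨0, hJ⟩ then ((t c.1).val : ZMod 4) else 0, ?_⟩
  funext v
  change par R J v _ = t v
  rw [par_apply]
  rw [sum_eq_single (⟨0, hR⟩, ⟨0, hJ⟩)]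
  · simp
  · rintro ⟨c, j⟩ - hcj
    by_cases hj : (j : ℕ) = 0
    · have hj' : j = ⟨0, hJ⟩ := Fin.ext hj
      have hc' : c ≠ ⟨0, hR⟩ := fun hc => hcj (by rw [hc, hj'])
      simp [hc']
    · simp [hj]
  · intro hc
    exact absurd (mem_univ _) hc

theorem card_LabE (hR : 0 < R) (hJ : 0 < J) :
    8 * Nat.card (LabE R J) = 4 ^ Fintype.card (Idx R J) := by
  have h1 := AddSubgroup.card_mul_index (LabE R J)
  have h2 : (LabE R J).index = 8 := by
    rw [← ker_parAll, AddSubgroup.index_ker,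
      AddMonoidHom.range_eq_top.2 (parAll_surj hR hJ)]
    simp [Nat.card_eq_fintype_card]
  rw [h2, Nat.card_eq_fintype_card (α := Lab R J), Fintype.card_fun, ZMod.card] at h1
  rw [mul_comm]
  exact h1

/-- `Xset` in the group of all labels -/
noncomputable def XL (R J n : ℕ) : Finset (Lab R J) :=
  (Xset R J n).map (Function.Embedding.subtype _)

theorem card_XL (n : ℕ) : (XL R J n).card = (Xset R J n).card := by
  unfold XL
  rw [card_map]

theorem mem_XL {n : ℕ} {h : Lab R J} :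
    h ∈ XL R J n ↔ h ∈ LabE R J ∧ normSq (kapL h) = n := by
  unfold XL Xset
  simp only [mem_map, mem_filter, mem_univ, true_and, Function.Embedding.coe_subtype]
  constructor
  · rintro ⟨x, hx, rfl⟩
    exact ⟨x.2, hx⟩
  · rintro ⟨h1, h2⟩
    exact ⟨⟨h, h1⟩, h2, rfl⟩

/-- the graph on `LabE` -/
def GX (R J n : ℕ) (a b : LabE R J) : Prop :=
  normSq (kapL ((b : Lab R J) - (a : Lab R J))) = (n : ℤ)

/-- **Mixing** in the group `LabE R J`. -/
theorem mix_LabE (hR : 0 < R) (hJ : 0 < J) {n : ℕ} {q : ℝ} (hq0 : 0 ≤ q)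
    (hF : ∀ (ψ : Lab R J) (w : ℕ), w ≤ 16 → (∀ e, w ≤ (spp (ψ + parE R J e)).card) →
      ‖∑ h ∈ Xset R J n, BQA.chi ψ (h : Lab R J)‖ ≤ (Xset R J n).card * q ^ w)
    (A : Finset (LabE R J)) (hA : (5832 * q) ^ 8 * 8 * Fintype.card (LabE R J) ≤ (A.card : ℝ)) :
    3 / 4 * (((Xset R J n).card : ℝ) / Fintype.card (LabE R J)) * (A.card : ℝ) ^ 2 ≤
      (edg (GX R J n) A : ℝ) := by
  classical
  have hcE : Nat.card (LabE R J) = Fintype.card (LabE R J) := Nat.card_eq_fintype_card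
  have h8 := card_LabE hR hJ
  set A' : Finset (Lab R J) := A.map (Function.Embedding.subtype _) with hA'
  have hA'c : A'.card = A.card := by rw [hA', card_map]
  have hmix := mixing (LabE R J) (XL R J n) (AnnE R J) (fun h hh => (mem_XL.1 hh).1)
    (by
      intro α hα h hh
      obtain ⟨e, -, rfl⟩ := mem_image.1 hα
      exact chi_parE_of_mem e hh)
    (by
      intro α hα
      obtain ⟨e, he, rfl⟩ := mem_image.1 hα
      exact mem_image.2 ⟨e, he, (neg_parE e).symm⟩)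
    (by rw [card_AnnE hR hJ]; exact h8) hq0
    (by
      intro ψ _
      obtain ⟨e, -, he⟩ := exists_min_image (univ : Finset (Fin 3 → Bool))
        (fun e => (spp (ψ + parE R J e)).card) ⟨fun _ => false, mem_univ _⟩
      refine ⟨parE R J e, mem_image.2 ⟨e, mem_univ _, rfl⟩, ?_⟩
      have h1 := hF ψ (min (spp (ψ + parE R J e)).card 16) (min_le_right _ _)
        (fun e' => (min_le_left _ _).trans (he e' (mem_univ _)))
      rw [card_XL]
      refine le_trans (le_of_eq ?_) h1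
      congr 1
      unfold XL
      rw [sum_map]
      rfl)
    A' (by
      intro x hx
      rw [hA', mem_map] at hx
      obtain ⟨y, -, rfl⟩ := hx
      exact y.2)
    (by
      rw [hA'c]
      refine le_trans (le_of_eq ?_) hA
      have : (4 : ℝ) ^ Fintype.card (Idx R J) = 8 * (Fintype.card (LabE R J) : ℝ) := by
        rw [← hcE]; exact_mod_cast h8.symm
      rw [this]
      ring)
  rw [card_XL, hA'c, hcE] at hmix
  refine hmix.trans ?_
  have : pairs (XL R J n) A' = edg (GX R J n) A := by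
    unfold pairs edg
    refine (card_bij (fun p _ => ((p.1 : Lab R J), (p.2 : Lab R J))) ?_ ?_ ?_).symm
    · rintro ⟨a, b⟩ hab
      simp only [mem_filter, mem_product] at hab ⊢
      refine ⟨⟨?_, ?_⟩, ?_⟩
      · rw [hA', mem_map]; exact ⟨a, hab.1.1, rfl⟩
      · rw [hA', mem_map]; exact ⟨b, hab.1.2, rfl⟩
      · exact mem_XL.2 ⟨(LabE R J).sub_mem b.2 a.2, hab.2⟩
    · rintro ⟨a, b⟩ _ ⟨a', b'⟩ _ heq
      simp only [Prod.mk.injEq] at heq
      exact Prod.ext (Subtype.ext heq.1) (Subtype.ext heq.2)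
    · rintro ⟨x, y⟩ hxy
      simp only [mem_filter, mem_product] at hxy
      obtain ⟨⟨h1, h2⟩, h3⟩ := hxy
      rw [hA', mem_map] at h1 h2
      obtain ⟨a, ha, hax⟩ := h1
      obtain ⟨b, hb, hby⟩ := h2
      refine ⟨(a, b), ?_, ?_⟩
      · simp only [mem_filter, mem_product]
        refine ⟨⟨ha, hb⟩, ?_⟩
        have h4 := (mem_XL.1 h3).2
        rw [← hax, ← hby] at h4
        exact h4
      · exact Prod.ext hax hby
  rw [this]

theorem large_R {C r : ℝ} (hC : 0 ≤ C) (h1 : 5832 ^ 8 * 8 * C ^ 4 ≤ r) (h2 : 320000 ^ 2 ≤ r) :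
    (5832 * Real.sqrt (C / r)) ^ 8 * 8 ≤ (r ^ 3)⁻¹ ∧
    (8 / (r ^ (5 / 2 : ℝ))⁻¹) ^ 100 * ((r ^ 3)⁻¹) ^ 98 ≤ 1 / 2 ∧
    Real.log (1 / (r ^ 3)⁻¹) = 3 * Real.log r ∧ 2 ≤ Real.log r ∧
    160000 * Real.log r ≤ r ∧ 1600 * Real.log r ≤ (r ^ (5 / 2 : ℝ))⁻¹ * r ^ 10 := by
  have hr : 0 < r := by linarith
  have hr1 : 1 ≤ r := by linarith
  have hlog : Real.log r ≤ 2 * Real.sqrt r := by
    have h3 : Real.log r = 2 * Real.log (Real.sqrt r) := by
      rw [Real.log_sqrt hr.le]; ring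
    rw [h3]
    have := Real.log_le_self (Real.sqrt_nonneg r)
    linarith
  have hsq : 320000 ≤ Real.sqrt r := Real.le_sqrt_of_sq_le h2
  have hss : Real.sqrt r * Real.sqrt r = r := Real.mul_self_sqrt hr.le
  have h5 : 160000 * Real.log r ≤ r := by nlinarith
  have h52 : r ^ (5 / 2 : ℝ) = r ^ 2 * Real.sqrt r := by
    rw [Real.sqrt_eq_rpow, ← Real.rpow_natCast r 2, ← Real.rpow_add hr]
    norm_num
  refine ⟨?_, ?_, ?_, ?_, h5, ?_⟩
  · have e1 : Real.sqrt (C / r) ^ 8 = (C / r) ^ 4 := by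
      rw [show (8 : ℕ) = 2 * 4 from rfl, pow_mul, Real.sq_sqrt (by positivity)]
    rw [mul_pow, e1, div_pow]
    have e2 : (r ^ 3)⁻¹ = r / r ^ 4 := by field_simp
    rw [e2]
    have e3 : 5832 ^ 8 * (C ^ 4 / r ^ 4) * 8 = 5832 ^ 8 * 8 * C ^ 4 / r ^ 4 := by ring
    rw [e3]
    exact div_le_div_of_nonneg_right h1 (by positivity)
  · rw [h52]
    have e1 : (8 / (r ^ 2 * Real.sqrt r)⁻¹) ^ 100 = 8 ^ 100 * (r ^ 200 * r ^ 50) := by
      rw [div_inv_eq_mul, mul_pow, mul_pow, ← pow_mul]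
      have : Real.sqrt r ^ 100 = r ^ 50 := by
        rw [show (100 : ℕ) = 2 * 50 from rfl, pow_mul, Real.sq_sqrt hr.le]
      rw [this]
    have e2 : ((r ^ 3)⁻¹) ^ 98 = (r ^ 294)⁻¹ := by rw [inv_pow, ← pow_mul]
    rw [e1, e2]
    have e3 : 8 ^ 100 * (r ^ 200 * r ^ 50) * (r ^ 294)⁻¹ = 8 ^ 100 / r ^ 44 := by
      field_simp
    rw [e3, div_le_iff₀ (by positivity)]
    have h6 : (128 : ℝ) ^ 44 ≤ r ^ 44 := pow_le_pow_left₀ (by norm_num) (by linarith) 44
    have h7 : (8 : ℝ) ^ 100 * 2 ≤ 128 ^ 44 := by norm_num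
    linarith
  · rw [one_div, inv_inv, Real.log_pow]
    norm_num
  · rw [Real.le_log_iff_exp_le hr]
    have h6 : Real.exp 2 ≤ 9 := by
      have h7 : Real.exp 2 = Real.exp 1 ^ 2 := by
        rw [← Real.exp_nat_mul]; norm_num
      have h8 := Real.exp_one_lt_three
      have h9 := Real.exp_pos 1
      rw [h7]
      nlinarith
    linarith
  · rw [h52]
    have e1 : (r ^ 2 * Real.sqrt r)⁻¹ * r ^ 10 = r ^ 7 * Real.sqrt r := by
      have hs0 : Real.sqrt r ≠ 0 := by positivity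
      rw [mul_inv]
      have e2 : (Real.sqrt r)⁻¹ = Real.sqrt r / r := by
        rw [inv_eq_one_div, div_eq_div_iff hs0 hr.ne']
        linarith
      rw [e2]
      field_simp
    rw [e1]
    have h6 : r ≤ r ^ 7 := by
      calc r = r ^ 1 := (pow_one r).symm
        _ ≤ r ^ 7 := pow_le_pow_right₀ hr1 (by norm_num)
    have h8 : r * 1 ≤ r ^ 7 * Real.sqrt r :=
      mul_le_mul h6 (by linarith) (by norm_num) (by positivity)
    have h9 : 0 ≤ Real.log r := Real.log_nonneg hr1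
    linarith

open Classical in
/-- **The edges of the sample.** In the random family of `N` labels, `N |X| / |G| ≥ R ^ 10`, with
probability at least `9 / 10` every set `Z` of `N / R ^ (5/2)` indices spans at least
`R⁻¹ (|X| / |G|) |Z| ^ 2` ordered edges. -/
theorem edges_sample (C : ℝ) (hC : 0 ≤ C) : ∃ R0 : ℕ, ∀ R J n N : ℕ, R0 ≤ R → 1 ≤ J →
    normSq (kapL (0 : Lab R J)) ≠ (n : ℤ) →
    (∀ (ψ : Lab R J) (w : ℕ), w ≤ 16 →
      (∀ e, w ≤ (univ.filter fun c => (ψ + parE R J e) c ≠ 0).card) →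
      ‖∑ h ∈ Xset R J n, BQA.chi ψ (h : Lab R J)‖ ≤
        (Xset R J n).card * (C / R) ^ ((w : ℝ) / 2)) →
    (R : ℝ) ^ 10 ≤ N * (((Xset R J n).card : ℝ) / Fintype.card (LabE R J)) →
    Pr (fun s : Fin N → LabE R J => ∃ Z : Finset (Fin N),
      (N : ℝ) / (R : ℝ) ^ (5 / 2 : ℝ) ≤ Z.card ∧
      (((Z ×ˢ Z).filter fun p =>
        normSq (kapL ((s p.2 : Lab R J) - (s p.1 : Lab R J))) = (n : ℤ)).card : ℝ) <
      (R : ℝ)⁻¹ * (((Xset R J n).card : ℝ) / Fintype.card (LabE R J)) * (Z.card : ℝ) ^ 2) ≤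
    1 / 10 := by
  obtain ⟨R1, hR1⟩ := exists_nat_ge (5832 ^ 8 * 8 * C ^ 4 : ℝ)
  refine ⟨max R1 (320000 ^ 2), fun R J n N hR hJ h0 hF hN => ?_⟩
  have hRr1 : 5832 ^ 8 * 8 * C ^ 4 ≤ (R : ℝ) := hR1.trans (by exact_mod_cast (le_max_left _ _).trans hR)
  have hRr2 : 320000 ^ 2 ≤ (R : ℝ) := by exact_mod_cast (le_max_right _ _).trans hR
  obtain ⟨a1, a2, a3, a4, a5, a6⟩ := large_R hC hRr1 hRr2
  set r : ℝ := (R : ℝ) with hr
  have hr0 : 0 < r := by linarith
  have hr1 : 1 ≤ r := by linarith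
  have hR0 : 0 < R := by
    have : (0 : ℝ) < R := hr0
    exact_mod_cast this
  have hΩ : 0 < Fintype.card (LabE R J) := Fintype.card_pos
  have hΩr : (0 : ℝ) < Fintype.card (LabE R J) := by exact_mod_cast hΩ
  set ρ : ℝ := ((Xset R J n).card : ℝ) / Fintype.card (LabE R J) with hρ
  have hρ0 : 0 < ρ := by
    by_contra hcon
    push Not at hcon
    have h1 : (N : ℝ) * ρ ≤ 0 := mul_nonpos_of_nonneg_of_nonpos (Nat.cast_nonneg N) hcon
    have h2 : 0 < r ^ 10 := by positivity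
    linarith
  have hρ1 : ρ ≤ 1 := by
    rw [hρ, div_le_one hΩr]
    exact_mod_cast card_le_univ _
  set L : ℝ := Real.log (1 / (r ^ 3)⁻¹) with hL
  have hL6 : 6 ≤ L := by rw [a3]; linarith
  have hq : ∀ w : ℕ, (C / r) ^ ((w : ℝ) / 2) = Real.sqrt (C / r) ^ w := by
    intro w
    rw [Real.rpow_div_two_eq_sqrt _ (by positivity), Real.rpow_natCast]
  have hsam := sample_edges (Ω := LabE R J) (GX R J n)
    (fun a ha => h0 (by unfold GX at ha; rwa [sub_self] at ha)) (γ := 3 / 4 * ρ) (β := (r ^ 3)⁻¹)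
    (ζ := (r ^ (5 / 2 : ℝ))⁻¹) (by positivity) (by linarith) (by positivity) (by linarith) hΩ
    (by
      intro A hA
      refine mix_LabE hR0 hJ (Real.sqrt_nonneg (C / r)) ?_ A ?_
      · intro ψ w hw he
        rw [← hq]
        exact hF ψ w hw he
      · refine le_trans ?_ hA.le
        exact mul_le_mul_of_nonneg_right a1 hΩr.le)
    (by positivity) a2 N (by
      rw [← hL, a3, div_le_iff₀ (by positivity)]
      have h1 : (r ^ (5 / 2 : ℝ))⁻¹ * r ^ 10 ≤ (r ^ (5 / 2 : ℝ))⁻¹ * (N * ρ) :=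
        mul_le_mul_of_nonneg_left hN (by positivity)
      nlinarith)
  have hP : Pr (fun s : Fin N → LabE R J => ∃ Z : Finset (Fin N),
      (N : ℝ) / r ^ (5 / 2 : ℝ) ≤ Z.card ∧
      (((Z ×ˢ Z).filter fun p =>
        normSq (kapL ((s p.2 : Lab R J) - (s p.1 : Lab R J))) = (n : ℤ)).card : ℝ) <
      r⁻¹ * ρ * (Z.card : ℝ) ^ 2) ≤ 2 * (1 / 2) ^ (L / (3 / 4 * ρ)) := by
    unfold Pr
    have hpos : (0 : ℝ) < Fintype.card (Fin N → LabE R J) := by
      exact_mod_cast Fintype.card_pos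
    rw [div_le_iff₀ hpos]
    have hc : (Fintype.card (Fin N → LabE R J) : ℝ) = (Fintype.card (LabE R J) : ℝ) ^ N := by
      rw [Fintype.card_fun, Fintype.card_fin]
      push_cast
      rfl
    rw [hc]
    refine le_trans ?_ hsam
    have hsub : (univ.filter fun s : Fin N → LabE R J => ∃ Z : Finset (Fin N),
        (N : ℝ) / r ^ (5 / 2 : ℝ) ≤ Z.card ∧
        (((Z ×ˢ Z).filter fun p =>
          normSq (kapL ((s p.2 : Lab R J) - (s p.1 : Lab R J))) = (n : ℤ)).card : ℝ) <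
        r⁻¹ * ρ * (Z.card : ℝ) ^ 2) ⊆
        (univ.filter (fun X : Fin N → LabE R J => ∃ Z : Finset (Fin N),
          (r ^ (5 / 2 : ℝ))⁻¹ * N ≤ Z.card ∧
          (eN (GX R J n) X Z : ℝ) < 3 / 4 * ρ / (40000 * L) * (Z.card : ℝ) ^ 2)) := by
      intro s hs
      rw [mem_filter] at hs ⊢
      obtain ⟨-, Z, hZ1, hZ2⟩ := hs
      refine ⟨mem_univ _, Z, ?_, ?_⟩
      · rw [div_eq_mul_inv, mul_comm] at hZ1
        exact hZ1
      · have e1 : (eN (GX R J n) s Z : ℝ) = (((Z ×ˢ Z).filter fun p =>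
          normSq (kapL ((s p.2 : Lab R J) - (s p.1 : Lab R J))) = (n : ℤ)).card : ℝ) := by
          unfold eN GX
          congr
        rw [e1]
        refine hZ2.trans_le (mul_le_mul_of_nonneg_right ?_ (by positivity))
        have hL0 : 0 < L := by linarith
        rw [le_div_iff₀ (by positivity), a3]
        have h2 : r⁻¹ * (40000 * (3 * Real.log r)) ≤ 3 / 4 := by
          rw [inv_mul_le_iff₀ hr0]
          linarith
        calc r⁻¹ * ρ * (40000 * (3 * Real.log r)) = r⁻¹ * (40000 * (3 * Real.log r)) * ρ := by ring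
          _ ≤ 3 / 4 * ρ := mul_le_mul_of_nonneg_right h2 hρ0.le
    exact_mod_cast card_le_card hsub
  refine hP.trans ?_
  have h5 : (5 : ℝ) ≤ L / (3 / 4 * ρ) := by
    rw [le_div_iff₀ (by positivity)]
    nlinarith
  have h6 : ((1 : ℝ) / 2) ^ (L / (3 / 4 * ρ)) ≤ (1 / 2) ^ (5 : ℝ) :=
    Real.rpow_le_rpow_of_exponent_ge (by norm_num) (by norm_num) h5
  have h7 : ((1 : ℝ) / 2) ^ (5 : ℝ) = 1 / 32 := by
    rw [show (5 : ℝ) = ((5 : ℕ) : ℝ) by norm_num, Real.rpow_natCast]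
    norm_num
  rw [h7] at h6
  linarith

open Classical in
/-- the edges of `SG n s` in `Z` -/
theorem card_SG {N : ℕ} (n : ℕ) (s : Fin N → Lab R J) (Z : Finset (Fin N)) :
    (univ.filter fun e : (SG n s).E => (SG n s).src e ∈ Z ∧ (SG n s).tgt e ∈ Z).card =
      ((Z ×ˢ Z).filter fun p => normSq (kapL (s p.2 - s p.1)) = (n : ℤ)).card := by
  refine card_bij (fun e _ => e.1) ?_ ?_ ?_
  · intro e he
    simp only [mem_filter, mem_univ, true_and] at he
    simp only [mem_filter, mem_product]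
    exact ⟨he, e.2⟩
  · intro e _ e' _ h
    exact Subtype.ext h
  · intro p hp
    simp only [mem_filter, mem_product] at hp
    exact ⟨⟨p, hp.2⟩, mem_filter.2 ⟨mem_univ _, hp.1⟩, rfl⟩

open Classical in
/-- `edges_sample` for the graph `SG`. -/
theorem edges_SG (C : ℝ) (hC : 0 ≤ C) : ∃ R0 : ℕ, ∀ R J n N : ℕ, R0 ≤ R → 1 ≤ J →
    normSq (kapL (0 : Lab R J)) ≠ (n : ℤ) →
    (∀ (ψ : Lab R J) (w : ℕ), w ≤ 16 →
      (∀ e, w ≤ (univ.filter fun c => (ψ + parE R J e) c ≠ 0).card) →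
      ‖∑ h ∈ Xset R J n, BQA.chi ψ (h : Lab R J)‖ ≤
        (Xset R J n).card * (C / R) ^ ((w : ℝ) / 2)) →
    (R : ℝ) ^ 10 ≤ N * (((Xset R J n).card : ℝ) / Fintype.card (LabE R J)) →
    Pr (fun s : Fin N → LabE R J => ∃ Z : Finset (Fin N),
      (N : ℝ) / (R : ℝ) ^ (5 / 2 : ℝ) ≤ Z.card ∧
      ((univ.filter fun e : (SG n fun i => (s i : Lab R J)).E =>
        (SG n fun i => (s i : Lab R J)).src e ∈ Z ∧
        (SG n fun i => (s i : Lab R J)).tgt e ∈ Z).card : ℝ) <
      (R : ℝ)⁻¹ * (((Xset R J n).card : ℝ) / Fintype.card (LabE R J)) * (Z.card : ℝ) ^ 2) ≤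
    1 / 10 := by
  obtain ⟨R0, hR0⟩ := edges_sample C hC
  refine ⟨R0, fun R J n N hR hJ h0 hF hN => ?_⟩
  have h := hR0 R J n N hR hJ h0 hF hN
  refine le_trans (le_of_eq ?_) h
  congr 1
  funext s
  refine propext (exists_congr fun Z => and_congr Iff.rfl ?_)
  have e := card_SG n (fun i => (s i : Lab R J)) Z
  rw [← Nat.cast_inj (R := ℝ)] at e
  constructor
  · intro h1
    refine lt_of_eq_of_lt ?_ h1
    convert e.symm
  · intro h1
    refine lt_of_eq_of_lt ?_ h1
    convert e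

end

end Pool.Agent.BQ
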