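import Mathlib
import Pool.Agent.BQ.Defs

/-!
# BQ, block F: Fourier analysis on the labels (owner helper27)

Over the shared definitions of `Pool/Agent/BQ/Defs.lean` (`Idx`, `Lab`, `kapL`, `LabE`, `Xset`, `chi`, `sph`).
The joints of the block are `Stmt_F0` .. `Stmt_F4`; the modules are `Stmt_INV`, `Stmt_PH`, `Stmt_DJ`, `Stmt_SM`,
`Stmt_UP`, `Stmt_LIP`, `Stmt_LOW`, `Stmt_PAR`, `Stmt_RES`, `Stmt_F1` .. `Stmt_F4`.
`theorem F_X : Stmt_X` goes to `Pool/Agent/BQ/F_X.lean`, namespace `BQA.F`, with the hypotheses named after USES.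
-/

set_option autoImplicit false

namespace BQA.F

open Finset Quaternion

/-- the real coordinate of `v ^ s` -/
def ca (s : ZMod 4) : ℤ := if s = 0 then 1 else if s = 2 then -1 else 0

/-- the `v` coordinate of `v ^ s` -/
def cb (s : ZMod 4) : ℤ := if s = 1 then 1 else if s = 3 then -1 else 0

/-- the real coordinate of `kapL h - 1` -/
def kr {R J : ℕ} (h : Lab R J) : ℤ := ∑ c : Idx R J, 2 ^ (c.2.2 : ℕ) * ca (h c)

/-- the coordinate of type `v` of `kapL h` -/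
def kv {R J : ℕ} (h : Lab R J) (v : Fin 3) : ℤ :=
  ∑ c : Fin R × Fin J, 2 ^ (c.2 : ℕ) * cb (h (v, c))

theorem iu_pow (v : Fin 3) (s : ZMod 4) : iu v ^ s.val = mk4 (ca s) (if v = 0 then cb s else 0)
    (if v = 1 then cb s else 0) (if v = 2 then cb s else 0) := by
  fin_cases s
  · change iu v ^ 0 = mk4 1 (if v = 0 then 0 else 0) (if v = 1 then 0 else 0)
      (if v = 2 then 0 else 0)
    fin_cases v <;> apply Quaternion.ext <;> simp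
  · change iu v ^ 1 = mk4 0 (if v = 0 then 1 else 0) (if v = 1 then 1 else 0)
      (if v = 2 then 1 else 0)
    rw [pow_one]
    fin_cases v <;> apply Quaternion.ext <;> simp [iu]
  · change iu v ^ 2 = mk4 (-1) (if v = 0 then 0 else 0) (if v = 1 then 0 else 0)
      (if v = 2 then 0 else 0)
    fin_cases v <;> apply Quaternion.ext <;> simp [iu, pow_succ]
  · change iu v ^ 3 = mk4 0 (if v = 0 then -1 else 0) (if v = 1 then -1 else 0)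
      (if v = 2 then -1 else 0)
    fin_cases v <;> apply Quaternion.ext <;> simp [iu, pow_succ]

theorem re_sum {α : Type*} (s : Finset α) (f : α → ℍ[ℤ]) : (∑ i ∈ s, f i).re = ∑ i ∈ s, (f i).re := by
  classical
  induction s using Finset.induction_on with
  | empty => simp
  | insert a s ha ih => rw [sum_insert ha, sum_insert ha, Quaternion.re_add, ih]

theorem imI_sum {α : Type*} (s : Finset α) (f : α → ℍ[ℤ]) :
    (∑ i ∈ s, f i).imI = ∑ i ∈ s, (f i).imI := by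
  classical
  induction s using Finset.induction_on with
  | empty => simp
  | insert a s ha ih => rw [sum_insert ha, sum_insert ha, Quaternion.imI_add, ih]

theorem imJ_sum {α : Type*} (s : Finset α) (f : α → ℍ[ℤ]) :
    (∑ i ∈ s, f i).imJ = ∑ i ∈ s, (f i).imJ := by
  classical
  induction s using Finset.induction_on with
  | empty => simp
  | insert a s ha ih => rw [sum_insert ha, sum_insert ha, Quaternion.imJ_add, ih]

theorem imK_sum {α : Type*} (s : Finset α) (f : α → ℍ[ℤ]) :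
    (∑ i ∈ s, f i).imK = ∑ i ∈ s, (f i).imK := by
  classical
  induction s using Finset.induction_on with
  | empty => simp
  | insert a s ha ih => rw [sum_insert ha, sum_insert ha, Quaternion.imK_add, ih]

theorem sum_type {R J : ℕ} (f : Idx R J → ℤ) (v : Fin 3) :
    ∑ c : Idx R J, (if c.1 = v then f c else 0) = ∑ c : Fin R × Fin J, f (v, c) := by
  rw [Fintype.sum_prod_type]
  rw [Finset.sum_eq_single v]
  · simp
  · intro b _ hb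
    simp [hb]
  · intro h
    exact absurd (mem_univ v) h

/-- the coordinates of `kapL h` -/
theorem kapL_eq {R J : ℕ} (h : Lab R J) :
    kapL h = mk4 (1 + kr h) (kv h 0) (kv h 1) (kv h 2) := by
  unfold kapL kr kv
  apply qext
  · rw [Quaternion.re_add, Quaternion.re_one, re_sum, mk4_re]
    congr 1
    refine Finset.sum_congr rfl fun c _ => ?_
    rw [re_zs, iu_pow, mk4_re]
  · rw [Quaternion.imI_add, Quaternion.imI_one, imI_sum, mk4_imI, zero_add]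
    refine Eq.trans ?_ (sum_type (fun c : Idx R J => 2 ^ (c.2.2 : ℕ) * cb (h c)) 0)
    refine Finset.sum_congr rfl fun c _ => ?_
    rw [imI_zs, iu_pow, mk4_imI]
    split_ifs with h1
    · rfl
    · simp
  · rw [Quaternion.imJ_add, Quaternion.imJ_one, imJ_sum, mk4_imJ, zero_add]
    refine Eq.trans ?_ (sum_type (fun c : Idx R J => 2 ^ (c.2.2 : ℕ) * cb (h c)) 1)
    refine Finset.sum_congr rfl fun c _ => ?_
    rw [imJ_zs, iu_pow, mk4_imJ]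
    split_ifs with h1
    · rfl
    · simp
  · rw [Quaternion.imK_add, Quaternion.imK_one, imK_sum, mk4_imK, zero_add]
    refine Eq.trans ?_ (sum_type (fun c : Idx R J => 2 ^ (c.2.2 : ℕ) * cb (h c)) 2)
    refine Finset.sum_congr rfl fun c _ => ?_
    rw [imK_zs, iu_pow, mk4_imK]
    split_ifs with h1
    · rfl
    · simp

open Classical in
/-- character sum over the fibre of `kapL` -/
noncomputable def cnt {R J : ℕ} (ψ : Lab R J) (q : ℍ[ℤ]) : ℂ :=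
  ∑ h ∈ univ.filter (fun h : Lab R J => kapL h = q), chi ψ h

/-- the parity character of type `v` -/
def pc {R J : ℕ} (v : Fin 3) : Lab R J := fun c => if c.1 = v ∧ (c.2.2 : ℕ) = 0 then 2 else 0

/-- the parity characters -/
def pcs {R J : ℕ} (e : Fin 3 → Bool) : Lab R J := ∑ v, if e v then pc v else 0

open Classical in
/-- the weight of a character -/
noncomputable def wgt {R J : ℕ} (ψ : Lab R J) : ℕ := (univ.filter (fun c => ψ c ≠ 0)).card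

/-- the weight modulo the parity characters is at least `w` -/
def MinW {R J : ℕ} (ψ : Lab R J) (w : ℕ) : Prop := ∀ e : Fin 3 → Bool, w ≤ wgt (ψ + pcs e)

/-- the expected size of the fibres of `kapL` -/
noncomputable def Zs (R J : ℕ) : ℝ := 4 ^ (3 * R * J) / ((R : ℝ) ^ 2 * 2 ^ (4 * J))

/-- distance to the nearest integer -/
noncomputable def nd (x : ℝ) : ℝ := |x - round x|

/-- `D_J` -/
noncomputable def dJ (J : ℕ) (x : ℝ) : ℝ := ∏ j ∈ range J, Real.cos (Real.pi * (2 ^ j * x))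

/-- the Fourier transform of one coordinate -/
noncomputable def ph (p : ZMod 4) (a b : ℝ) : ℂ :=
  (1 / 4) * ∑ s : ZMod 4, Complex.I ^ (p * s).val *
    Complex.exp (((2 * Real.pi * (ca s * a + cb s * b) : ℝ) : ℂ) * Complex.I)

/-- frequencies -/
abbrev Fr (m : ℕ) : Type := ZMod m × (Fin 3 → ZMod m)

/-- `theta . (q - 1)` -/
noncomputable def dotq {m : ℕ} (t : Fr m) (q : ℍ[ℤ]) : ℝ :=
  ((t.1.val : ℝ) * (q.re - 1) + (t.2 0).val * q.imI + (t.2 1).val * q.imJ + (t.2 2).val * q.imK) / m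

/-- the integrand -/
noncomputable def igd {R J m : ℕ} (ψ : Lab R J) (t : Fr m) : ℂ :=
  ∏ c : Idx R J, ph (ψ c) (2 ^ (c.2.2 : ℕ) * ((t.1.val : ℝ) / m))
    (2 ^ (c.2.2 : ℕ) * (((t.2 c.1).val : ℝ) / m))

/-- (INV) Fourier inversion modulo `m`.

PROOF. `kapL_eq`. `[kapL h = q] = m⁻⁴ Σ_t exp(2 pi i t . (kapL h - q)/m)` (by the bound on the coordinates, a multiple
of `m` is `0`; orthogonality of the characters of `ZMod m`, e.g. `ZMod.stdAddChar`, `AddChar.sum_mulShift`, or geometric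
sums). `t . (kapL h - 1) = Σ_c 2^j (ca(h c) t_0 + cb(h c) t_v)`. Exchange the sums over `t` and `h`;
`Σ_h Π_c f c (h c) = Π_c Σ_s f c s` (`Finset.prod_univ_sum`, `Fintype.piFinset_univ`). -/
def Stmt_INV : Prop := ∀ (R J m : ℕ) [NeZero m] (ψ : Lab R J) (q : ℍ[ℤ]),
  (∀ h : Lab R J, |(kapL h).re - q.re| < m ∧ |(kapL h).imI - q.imI| < m ∧
    |(kapL h).imJ - q.imJ| < m ∧ |(kapL h).imK - q.imK| < m) →
  (m : ℂ) ^ 4 * cnt ψ q = (4 : ℂ) ^ (3 * R * J) * ∑ t : Fr m,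
    Complex.exp (((-(2 * Real.pi * dotq t q) : ℝ) : ℂ) * Complex.I) * igd ψ t

/-- (PH) One coordinate and one copy. `x = a + b`, `y = a - b`.

PROOF. `ph 0 a b = (cos 2 pi a + cos 2 pi b)/2 = cos(pi x) cos(pi y)`, `ph 2 a b = (cos 2 pi a - cos 2 pi b)/2
= - sin(pi x) sin(pi y)`, `ph 1 a b = (i sin 2 pi a - sin 2 pi b)/2`, `ph 3 a b = (i sin 2 pi a + sin 2 pi b)/2`:
`|ph (1 or 3)|^2 = (sin^2 2 pi a + sin^2 2 pi b)/4 = (1 - cos 2 pi x cos 2 pi y)/4 <= 1/2`. `1 - cos A cos B <=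
(1 - cos A) + (1 - cos B)`, `1 - cos 2 pi x = 2 sin^2 pi x`, `|sin pi x| <= pi nd x` (periodic up to sign). A dirty
copy: a coordinate `1` or `3` (factor `<= 1/sqrt 2`), or `ψ j = 2` for some `j >= 1` and `ψ (j-1)` is `0` or `2`:
`|cos w sin 2w| = 2 cos^2 w |sin w| <= 4/(3 sqrt 3) < 0.78`, the same for `|sin w sin 2w|` (`w = pi 2^(j-1) x`), and
the factor with `y` is `<= 1`. -/
def Stmt_PH : Prop :=
  (∀ (p : ZMod 4) (a b : ℝ), ‖ph p a b‖ ≤ 1) ∧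
  (∀ a b : ℝ, ph 0 a b = ((Real.cos (Real.pi * (a + b)) * Real.cos (Real.pi * (a - b)) : ℝ) : ℂ)) ∧
  (∀ a b : ℝ, ‖ph 2 a b‖ = |Real.sin (Real.pi * (a + b)) * Real.sin (Real.pi * (a - b))|) ∧
  (∀ (p : ZMod 4) (a b : ℝ), p ≠ 0 → ‖ph p a b‖ ≤ 4 * (nd (a + b) + nd (a - b))) ∧
  (∀ (J : ℕ) (ψ : Fin J → ZMod 4) (a b : ℝ), (∃ j : Fin J, ψ j ≠ 0 ∧ ((j : ℕ) ≠ 0 ∨ ψ j ≠ 2)) →
    ∏ j : Fin J, ‖ph (ψ j) (2 ^ (j : ℕ) * a) (2 ^ (j : ℕ) * b)‖ ≤ 4 / 5)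

/-- (DJ) The product of the cosines.

PROOF. Put `y = x - round x`, `|y| <= 1/2`; `|dJ J x| = |dJ J y|` (`cos(pi 2^j (y + k)) = ± cos(pi 2^j y)`). (1) is
clear. (2) `u = 2^J |y|`. If `u <= 1`: `|dJ J y| <= |cos(pi u/2)|` (the last factor) `<= 1 - u^2/2`
(`Real.cos_quadratic_upper_bound`), `(1 - u^2/2)^2 (1 + u^2) <= 1`. If `u >= 1`: `2^J sin(pi y) dJ J y =
sin(pi 2^J y)` (induction) and `|sin(pi y)| >= 2 |y|` (`Real.mul_le_sin`): `|dJ| <= 1/(2u)`. (3)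
`cos w >= 1 - w^2/2` (`Real.one_sub_sq_div_two_le_cos`), `Π (1 - a_j) >= 1 - Σ a_j` for `0 <= a_j <= 1`,
`Σ_(j<J) (pi 2^j y)^2/2 <= (pi^2/6) u^2 <= 2 u^2` (if `2 u^2 >= 1` nothing to prove; otherwise all `a_j <= 1`). -/
def Stmt_DJ : Prop :=
  (∀ (J : ℕ) (x : ℝ), |dJ J x| ≤ 1) ∧
  (∀ (J : ℕ) (x : ℝ), 1 ≤ J → dJ J x ^ 2 * (1 + (2 ^ J * nd x) ^ 2) ≤ 1) ∧
  (∀ (J : ℕ) (x : ℝ), 1 - 2 * (2 ^ J * nd x) ^ 2 ≤ |dJ J x|)

/-- (SM) The one dimensional sum.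

PROOF. `(1 + u^2)^a >= 1 + a u^2`. `nd (t/m) = min(t, m - t)/m` for `0 <= t < m`; so the sum is at most
`2 Σ_(t < m) 1/(1 + (g t)^2)`, `g = sqrt a B/m <= 1`. `1/(1 + (g t)^2) <= 2/(1 + g t)^2 <= (2/g) (1/(1 + g (t-1)) -
1/(1 + g t))` for `t >= 1`: telescoping, the sum over `t >= 1` is `<= 2/g`, the term `t = 0` is `1 <= 1/g`. -/
def Stmt_SM : Prop := ∀ (m a : ℕ) [NeZero m] (B : ℝ), 0 < B → 1 ≤ a → B * Real.sqrt a ≤ m →
  ∑ t : ZMod m, 1 / (1 + (B * nd ((t.val : ℝ) / m)) ^ 2) ^ a ≤ 8 * m / (B * Real.sqrt a)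

/-- (UP) Upper bound for all characters.

USES INV, PH, DJ, SM. (helper27) -/
def Stmt_UP : Prop := ∃ (C : ℝ) (R0 : ℕ), 1 ≤ C ∧ ∀ R J : ℕ, R0 ≤ R → 1 ≤ J → 1000 * J ≤ R →
  ∀ (ψ : Lab R J) (w : ℕ) (q : ℍ[ℤ]), w ≤ 16 → MinW ψ w → InL1 q → (normSq q : ℤ) ≤ 4 ^ J →
    ‖cnt ψ q‖ ≤ C * Real.sqrt (C / R) ^ w * Zs R J

/-- (LIP) The fibre sums are almost constant.

USES INV, PH, DJ, SM. (helper27) -/
def Stmt_LIP : Prop := ∃ (C : ℝ) (R0 : ℕ), 1 ≤ C ∧ ∀ R J : ℕ, R0 ≤ R → 1 ≤ J → 1000 * J ≤ R →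
  ∀ (ψ : Lab R J) (q q' : ℍ[ℤ]) (b : ℝ), InL1 q → InL1 q' → 1 ≤ b → b ≤ 2 ^ J →
    ((normSq q : ℤ) : ℝ) ≤ b ^ 2 → ((normSq q' : ℤ) : ℝ) ≤ b ^ 2 →
    ‖cnt ψ q - cnt ψ q'‖ ≤ C * b / 2 ^ J * Zs R J

/-- (LOW) Lower bound for the fibre of `1`.

USES INV, PH, DJ. PROOF. Take `m` odd, `m >= 8 * 4 ^ J * R * (R + 1)` and `m > 3 R 2^J + 2` (all coordinates of `kapL h - 1`
are at most `3 R (2^J - 1)` in absolute value). In (INV) for `ψ = 0`, `q = 1`: `dotq t 1 = 0` and by (PH) `igd 0 t = Π_v (dJ J x_v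
dJ J y_v)^R`, `x_v = (t_0 + t_v)/m`, `y_v = (t_0 - t_v)/m` (reals, `.val`; group the product over `Idx` by `v`, copies, levels): real
and nonnegative as `R` is even. Put `T` = the integer part of `m / (16 * 2 ^ J * sqrt R)`; for `|s_i| <= T` integers (`i < 4`) let
`t_0, t_v` in `ZMod m` be the solution of `t_0 + t_1 = s_0, t_0 - t_1 = s_1, t_0 + t_2 = s_2, t_0 + t_3 = s_3` (`m` odd; injective). Then
`nd x_v, nd y_v <= 3 T/m` (`y_2 = s_0 + s_1 - s_2` modulo `m`), so `2 u^2 <= 9/(128 R)` for `u = 2^J nd`: `|dJ|^R >= (1 - 9/(128 R))^R >= 1/2`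
by (DJ) (3) and Bernoulli. So `m^4 (cnt 0 1).re >= 4^(3RJ) (2T + 1)^4 2^(-6)`, `2 T + 1 >= m/(16 * 2^J sqrt R)`. -/
def Stmt_LOW : Prop := ∃ (C : ℝ) (R0 : ℕ), 1 ≤ C ∧ ∀ R J : ℕ, R0 ≤ R → Even R → 1 ≤ J →
  Zs R J ≤ C * (cnt (0 : Lab R J) 1).re

/-- (PAR = F0) the parity condition and the subgroup.

PROOF. `kapL_eq`. Modulo `2` only the level `0` counts: `kv h v = #{c : h (v,c,0) odd}`, `1 + kr h = 1 + #{(v,c) : h(v,c,0) even} =
1 + 3R - #{odd}` modulo `2`; `par R J v h` = the number of odd `h(v,c,0)` in `ZMod 2`. (3): `chi (pc v) h = Π_c I^((2 h(v,c,0)).val) =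
(-1)^#{c : h (v,c,0) odd}`; (4): `chi` is multiplicative in `ψ` (`ZMod 4`, `I^4 = 1`). -/
def Stmt_PAR : Prop :=
  (∀ R J : ℕ, Even R → 1 ≤ J → ∀ h : Lab R J, h ∈ LabE R J ↔ InL1 (kapL h)) ∧
  (∀ (R J : ℕ) (h : Lab R J), 1 ≤ J → InL1 (kapL h) → h ∈ LabE R J) ∧
  (∀ (R J : ℕ) (h : Lab R J), h ∈ LabE R J ↔ ∀ v : Fin 3, chi (pc v) h = 1) ∧
  (∀ (R J : ℕ) (ψ ψ' h : Lab R J), chi (ψ + ψ') h = chi ψ h * chi ψ' h) ∧
  (∀ (R J : ℕ) (ψ h h' : Lab R J), chi ψ (h + h') = chi ψ h * chi ψ h')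

/-- (RES) Every character of `LabE` is the restriction of some `chi ψ`.

PROOF. `MonoidHom.restrict_surjective` (Mathlib/GroupTheory/FiniteAbelian/Duality.lean) extends it to `Lab`; a character of
`ZMod 4 ^ Idx` is determined by its values at the unit vectors, which are powers of `I`. -/
def Stmt_RES : Prop := ∀ (R J : ℕ) (χ : AddChar (LabE R J) ℂ), ∃ ψ : Lab R J,
  ∀ h : LabE R J, χ h = chi ψ (h : Lab R J)

/-- the number of labels over `q` -/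
noncomputable def nf (R J : ℕ) (q : ℍ[ℤ]) : ℕ := Nat.card {h : Lab R J // kapL h = q}

/-- (F1) USES LIP, LOW. PROOF. `cnt 0 q = nf q`; `|cnt 0 q - cnt 0 q'| <= C R^(-30) Z` and `Z <= C cnt 0 1`; so `cnt 0 q` is in
`[1/2, 1] * 4/3 * cnt 0 1` (`b = sqrt n`, `n R^60 <= 4^J`). (F2) the same. -/
def Stmt_F1 : Prop := ∃ R0 : ℕ, ∀ R J n : ℕ, R0 ≤ R → Even R → 1 ≤ n → n * R ^ 60 ≤ 4 ^ J →
  1000 * J ≤ R → ∀ q ∈ sph n, ∀ q' ∈ sph n, nf R J q ≤ 2 * nf R J q'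

/-- (F2) -/
def Stmt_F2 : Prop := ∃ R0 : ℕ, ∀ R J n : ℕ, R0 ≤ R → Even R → 1 ≤ n → n * R ^ 60 ≤ 4 ^ J →
  1000 * J ≤ R → ∀ q ∈ sph n, (4 : ℝ) ^ (3 * R * J) ≤ (nf R J q : ℝ) * (R : ℝ) ^ 3 * 2 ^ (4 * J)

/-- (F3) USES LIP, LOW, PAR, RES, F1. PROOF. Fix `x`, put `F q = U q x`. By (RES) `χ = chi ψ` on `LabE`; by (PAR) the elements of `Xset` are the
labels `h` with `kapL h` in `sph n`; the sum is `Σ_(q in sph n) cnt ψ q • F q = cnt ψ q0 • Σ F q + Σ (cnt ψ q - cnt ψ q0) • F q`;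
`|cnt ψ q0| <= nf q0 <= 2 |Xset|/Rp n` by (F1), `|cnt ψ q - cnt ψ q0| <= C R^(-30) Z`, `Z <= C nf 1 <= 4 C |Xset|/Rp n` (as in (F1)). -/
def Stmt_F3 : Prop := ∃ R0 : ℕ, ∀ R J n : ℕ, R0 ≤ R → Even R → 1 ≤ n → n * R ^ 60 ≤ 4 ^ J →
  1000 * J ≤ R → ∀ (χ : AddChar (LabE R J) ℂ) (H : Type) [NormedAddCommGroup H]
  [InnerProductSpace ℂ H] (U : ℍ[ℤ] → (H →ₗ[ℂ] H)) (δ : ℝ) (x : H), 0 ≤ δ →
  (∀ q ∈ sph n, ‖U q x‖ ≤ ‖x‖) → ‖∑ q ∈ sph n, U q x‖ ≤ δ * Rp n * ‖x‖ →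
  ‖∑ h ∈ Xset R J n, χ h • U (kapL (h : Lab R J)) x‖ ≤
    (4 * δ + ((R : ℝ) ^ 20)⁻¹) * (Xset R J n).card * ‖x‖

/-- (F4) USES UP, LIP, LOW, PAR, F1. PROOF. The sum is `Σ_(q in sph n) cnt ψ q`, (UP), `Z <= C nf 1 <= 4 C |Xset|/Rp n`. For `w = 0` trivial; for `w >= 1` the constant
`4 C^2` is absorbed in `C^(w/2)`. -/
def Stmt_F4 : Prop := ∃ (C : ℝ) (R0 : ℕ), 1 ≤ C ∧ ∀ R J n : ℕ, R0 ≤ R → Even R → 1 ≤ n →
  n * R ^ 60 ≤ 4 ^ J → 1000 * J ≤ R → ∀ (ψ : Lab R J) (w : ℕ), w ≤ 16 → MinW ψ w →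
  ‖∑ h ∈ Xset R J n, chi ψ (h : Lab R J)‖ ≤ Real.sqrt (C / R) ^ w * (Xset R J n).card

end BQA.F
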