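import Pool.Agent.BQ.F_Nd0

/-!
# BQ, block F: intermediate statements for UP and LIP (helper27)
-/

set_option autoImplicit false

namespace BQA.F

open Finset Quaternion

/-- (CLS) Classification of the characters and the pointwise bounds of the integrand.

USES PH. PROOF. For a type `v` call a copy `c` clean if `ψ (v,c,j) = 0` for all `j`, flipped if `ψ (v,c,0) = 2` and `ψ (v,c,j) = 0` for
`j ≥ 1`, dirty otherwise (there is `j` with `ψ (v,c,j) ≠ 0` and (`j ≠ 0` or `ψ (v,c,j) ≠ 2`)). Adding `pc v` exchanges clean and flipped copies of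
type `v` and keeps the dirty ones; choose `e` so that for every `v` the number of flipped copies is at most the number of clean copies.
`‖igd ψ' t‖ = Π_v Π_c Π_j ‖ph ..‖`, all factors `≤ 1`; with `a = fa t`, `b = fb t v`, `x = a + b`, `y = a - b`: a dirty copy is `≤ 4/5`
(PH (5)), a clean copy is `|dJ J x dJ J y|` and `≤ |cos pi x cos pi y|`, a flipped copy is `≤ |sin pi x sin pi y|` (level 0), so a clean and a flipped
copy of the same type together are `≤ 1/4`. If some `v` has `≥ R/8` dirty copies, or `≥ R/8` flipped (hence also `≥ R/8` clean) copies: the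
first alternative. Otherwise every type has at least `R - 2 (R/8) ≥ R/2` clean copies: keep the factors of `w` elements of the support
(`≤ 4 (nd (2^j x) + nd (2^j y)) ≤ 4 * 2^j (nd x + nd y) ≤ 2 * 2^J (nd x + nd y) ≤ 4 * US J t`, `nd_sum_le`, `j ≤ J - 1`) and the clean
copies (disjoint from the support): `Π_v |dJ x_v dJ y_v|^(clean_v)`; use type `0` (x and y), type `1` (x), type `2` (x). -/
def Stmt_CLS : Prop := ∀ (R J : ℕ), 1 ≤ J → 8 ≤ R → ∀ ψ : Lab R J, ∃ e : Fin 3 → Bool,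
  (∀ (m : ℕ) [NeZero m] (t : Fr m), ‖igd (ψ + pcs e) t‖ ≤ (4 / 5 : ℝ) ^ (R / 8)) ∨
  (∀ (m : ℕ) [NeZero m] (t : Fr m) (w : ℕ), w ≤ wgt (ψ + pcs e) →
    ‖igd (ψ + pcs e) t‖ ≤ (4 * US J t) ^ w *
      (|dJ J (fa t + fb t 0)| * |dJ J (fa t - fb t 0)| * |dJ J (fa t + fb t 1)| *
        |dJ J (fa t + fb t 2)|) ^ (R / 2))

/-- (SHF) Parity characters do not change `cnt`. USES PAR. -/
def Stmt_SHF : Prop := ∀ (R J : ℕ) (ψ : Lab R J) (e : Fin 3 → Bool) (q : ℍ[ℤ]), 1 ≤ J → InL1 q →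
  cnt (ψ + pcs e) q = cnt ψ q

/-- (NUM) PROOF. `R / 8 ≥ 125 k`, `J ≤ k`, `R ≤ 1000 (k + 1)` for `k = R / 1000`; `(4/5)^125 * 32 < 1/2`; `(k+1)^12 / 2^k` is bounded. -/
def Stmt_NUM : Prop := ∃ C : ℝ, 1 ≤ C ∧ ∀ R J : ℕ, 1000 * J ≤ R →
  (4 / 5 : ℝ) ^ (R / 8) * 32 ^ J * (R : ℝ) ^ 12 ≤ C

end BQA.F
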