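import Pool.Agent.BQ.FSt2

/-!
# BQ, block F, module CLS (helper87): classification of the characters, pointwise bounds
-/

set_option autoImplicit false

namespace BQA.F

open Finset

namespace F_CLSx

variable {R J : ℕ}

/-! ### products of numbers between 0 and 1 -/

lemma prod_le_sub {α : Type*} [Fintype α] [DecidableEq α] (f : α → ℝ) (h0 : ∀ x, 0 ≤ f x)
    (h1 : ∀ x, f x ≤ 1) (S : Finset α) : ∏ x, f x ≤ ∏ x ∈ S, f x := by
  rw [← Finset.prod_mul_prod_compl S f]
  refine mul_le_of_le_one_right (Finset.prod_nonneg fun x _ => h0 x) ?_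
  exact Finset.prod_le_one (fun x _ => h0 x) fun x _ => h1 x

/-! ### clean, flipped and dirty copies -/

def Clean (ψ : Lab R J) (v : Fin 3) (c : Fin R) : Prop := ∀ j, ψ (v, c, j) = 0

def Flip (ψ : Lab R J) (v : Fin 3) (c : Fin R) : Prop :=
  ∀ j : Fin J, ψ (v, c, j) = if (j : ℕ) = 0 then 2 else 0

def Dirty (ψ : Lab R J) (v : Fin 3) (c : Fin R) : Prop :=
  ∃ j : Fin J, ψ (v, c, j) ≠ 0 ∧ ((j : ℕ) ≠ 0 ∨ ψ (v, c, j) ≠ 2)

lemma tri (ψ : Lab R J) (v : Fin 3) (c : Fin R) : Clean ψ v c ∨ Flip ψ v c ∨ Dirty ψ v c := by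
  by_cases hD : Dirty ψ v c
  · exact Or.inr (Or.inr hD)
  by_cases hC : Clean ψ v c
  · exact Or.inl hC
  right; left
  unfold Dirty at hD
  push Not at hD
  unfold Clean at hC
  push Not at hC
  obtain ⟨j0, hj0⟩ := hC
  obtain ⟨h1, h2⟩ := hD j0 hj0
  intro j
  split_ifs with hj
  · have : j = j0 := Fin.ext (by omega)
    rw [this]; exact h2
  · by_contra hne
    exact hj (hD j hne).1

lemma pcs_apply (e : Fin 3 → Bool) (v : Fin 3) (c : Fin R) (j : Fin J) :
    (pcs e : Lab R J) (v, c, j) = if e v = true ∧ (j : ℕ) = 0 then 2 else 0 := by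
  unfold pcs
  rw [Finset.sum_apply]
  rw [Finset.sum_eq_single v]
  · by_cases h : e v = true
    · simp [h, pc]
    · simp [h]
  · intro b _ hb
    by_cases h : e b = true
    · rw [if_pos h]
      unfold pc
      rw [if_neg]
      rintro ⟨h1, -⟩
      exact hb h1.symm
    · rw [if_neg h]; rfl
  · intro h; exact absurd (mem_univ v) h

lemma z4a (x : ZMod 4) : x + 2 = 0 ↔ x = 2 := by revert x; decide
lemma z4b (x : ZMod 4) : x + 2 = 2 ↔ x = 0 := by revert x; decide

lemma clean_shift (ψ : Lab R J) (e : Fin 3 → Bool) (v : Fin 3) (c : Fin R) :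
    Clean (ψ + pcs e) v c ↔ if e v = true then Flip ψ v c else Clean ψ v c := by
  by_cases h : e v = true
  · rw [if_pos h]
    refine forall_congr' fun j => ?_
    rw [Pi.add_apply, pcs_apply]
    by_cases hj : (j : ℕ) = 0
    · rw [if_pos ⟨h, hj⟩, if_pos hj]
      exact z4a _
    · rw [if_neg (fun h' => hj h'.2), if_neg hj, add_zero]
  · rw [if_neg h]
    refine forall_congr' fun j => ?_
    rw [Pi.add_apply, pcs_apply, if_neg (fun h' => h h'.1), add_zero]

lemma flip_shift (ψ : Lab R J) (e : Fin 3 → Bool) (v : Fin 3) (c : Fin R) :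
    Flip (ψ + pcs e) v c ↔ if e v = true then Clean ψ v c else Flip ψ v c := by
  by_cases h : e v = true
  · rw [if_pos h]
    refine forall_congr' fun j => ?_
    rw [Pi.add_apply, pcs_apply]
    by_cases hj : (j : ℕ) = 0
    · rw [if_pos ⟨h, hj⟩, if_pos hj]
      exact z4b _
    · rw [if_neg (fun h' => hj h'.2), if_neg hj, add_zero]
  · rw [if_neg h]
    refine forall_congr' fun j => ?_
    rw [Pi.add_apply, pcs_apply, if_neg (fun h' => h h'.1), add_zero]

open Classical in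
noncomputable def sC (ψ : Lab R J) (v : Fin 3) : Finset (Fin R) := univ.filter fun c => Clean ψ v c
open Classical in
noncomputable def sF (ψ : Lab R J) (v : Fin 3) : Finset (Fin R) := univ.filter fun c => Flip ψ v c
open Classical in
noncomputable def sD (ψ : Lab R J) (v : Fin 3) : Finset (Fin R) := univ.filter fun c => Dirty ψ v c

lemma total (ψ : Lab R J) (v : Fin 3) : R ≤ (sC ψ v).card + (sF ψ v).card + (sD ψ v).card := by
  classical
  have h : (univ : Finset (Fin R)) ⊆ (sC ψ v ∪ sF ψ v) ∪ sD ψ v := by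
    intro c _
    rw [mem_union, mem_union, sC, sF, sD, mem_filter, mem_filter, mem_filter]
    rcases tri ψ v c with h | h | h
    · exact Or.inl (Or.inl ⟨mem_univ _, h⟩)
    · exact Or.inl (Or.inr ⟨mem_univ _, h⟩)
    · exact Or.inr ⟨mem_univ _, h⟩
  have h1 := card_le_card h
  rw [card_univ, Fintype.card_fin] at h1
  have h2 := card_union_le (sC ψ v ∪ sF ψ v) (sD ψ v)
  have h3 := card_union_le (sC ψ v) (sF ψ v)
  omega

/-- choice of the parity character -/
lemma choose_e (ψ : Lab R J) : ∃ e : Fin 3 → Bool, ∀ v,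
    (sF (ψ + pcs e) v).card ≤ (sC (ψ + pcs e) v).card := by
  classical
  refine ⟨fun v => decide ((sC ψ v).card < (sF ψ v).card), fun v => ?_⟩
  set e : Fin 3 → Bool := fun v => decide ((sC ψ v).card < (sF ψ v).card) with he
  by_cases h : e v = true
  · have h1 : sF (ψ + pcs e) v = sC ψ v := by
      ext c
      rw [sF, sC, mem_filter, mem_filter, flip_shift, if_pos h]
    have h2 : sC (ψ + pcs e) v = sF ψ v := by
      ext c
      rw [sF, sC, mem_filter, mem_filter, clean_shift, if_pos h]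
    rw [h1, h2]
    have h3 : (sC ψ v).card < (sF ψ v).card := by simpa [he] using h
    exact h3.le
  · have h1 : sF (ψ + pcs e) v = sF ψ v := by
      ext c
      rw [sF, sF, mem_filter, mem_filter, flip_shift, if_neg h]
    have h2 : sC (ψ + pcs e) v = sC ψ v := by
      ext c
      rw [sC, sC, mem_filter, mem_filter, clean_shift, if_neg h]
    rw [h1, h2]
    have h3 : ¬ (sC ψ v).card < (sF ψ v).card := by simpa [he] using h
    exact not_lt.mp h3

/-! ### the factors -/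

noncomputable def P (ψ : Lab R J) {m : ℕ} (t : Fr m) (x : Idx R J) : ℝ :=
  ‖ph (ψ x) (2 ^ (x.2.2 : ℕ) * fa t) (2 ^ (x.2.2 : ℕ) * fb t x.1)‖

lemma norm_igd (ψ : Lab R J) {m : ℕ} (t : Fr m) : ‖igd ψ t‖ = ∏ x, P ψ t x := by
  unfold igd P fa fb
  rw [norm_prod]

lemma P_nonneg (ψ : Lab R J) {m : ℕ} (t : Fr m) (x : Idx R J) : 0 ≤ P ψ t x := norm_nonneg _

lemma P_le_one (hPH : Stmt_PH) (ψ : Lab R J) {m : ℕ} (t : Fr m) (x : Idx R J) : P ψ t x ≤ 1 :=
  hPH.1 _ _ _

/-- the product of a copy -/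
noncomputable def Q (ψ : Lab R J) {m : ℕ} (t : Fr m) (v : Fin 3) (c : Fin R) : ℝ :=
  ∏ j : Fin J, P ψ t (v, c, j)

lemma Q_nonneg (ψ : Lab R J) {m : ℕ} (t : Fr m) (v : Fin 3) (c : Fin R) : 0 ≤ Q ψ t v c :=
  Finset.prod_nonneg fun _ _ => P_nonneg _ _ _

lemma Q_le_one (hPH : Stmt_PH) (ψ : Lab R J) {m : ℕ} (t : Fr m) (v : Fin 3) (c : Fin R) :
    Q ψ t v c ≤ 1 :=
  Finset.prod_le_one (fun _ _ => P_nonneg _ _ _) fun _ _ => P_le_one hPH _ _ _

lemma norm_igd_le (hPH : Stmt_PH) (ψ : Lab R J) {m : ℕ} (t : Fr m) (v : Fin 3) (S : Finset (Fin R)) :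
    ‖igd ψ t‖ ≤ ∏ c ∈ S, Q ψ t v c := by
  classical
  have h1 : ‖igd ψ t‖ = ∏ v : Fin 3, ∏ c : Fin R, Q ψ t v c := by
    rw [norm_igd, Fintype.prod_prod_type]
    refine Finset.prod_congr rfl fun v _ => ?_
    rw [Fintype.prod_prod_type]
    rfl
  rw [h1]
  have h2 : ∏ v : Fin 3, ∏ c : Fin R, Q ψ t v c ≤ ∏ v ∈ ({v} : Finset (Fin 3)),
      ∏ c : Fin R, Q ψ t v c :=
    prod_le_sub _ (fun v => Finset.prod_nonneg fun c _ => Q_nonneg _ _ _ _)
      (fun v => Finset.prod_le_one (fun c _ => Q_nonneg _ _ _ _) fun c _ => Q_le_one hPH _ _ _ _) _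
  rw [Finset.prod_singleton] at h2
  exact h2.trans (prod_le_sub _ (fun c => Q_nonneg _ _ _ _) (fun c => Q_le_one hPH _ _ _ _) S)

lemma Q_dirty (hPH : Stmt_PH) (ψ : Lab R J) {m : ℕ} (t : Fr m) (v : Fin 3) (c : Fin R)
    (h : Dirty ψ v c) : Q ψ t v c ≤ 4 / 5 :=
  hPH.2.2.2.2 J (fun j => ψ (v, c, j)) (fa t) (fb t v) h

lemma Q_le_P0 (hPH : Stmt_PH) (hJ : 1 ≤ J) (ψ : Lab R J) {m : ℕ} (t : Fr m) (v : Fin 3)
    (c : Fin R) : Q ψ t v c ≤ ‖ph (ψ (v, c, ⟨0, hJ⟩)) (fa t) (fb t v)‖ := by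
  classical
  have := prod_le_sub (fun j : Fin J => P ψ t (v, c, j)) (fun j => P_nonneg _ _ _)
    (fun j => P_le_one hPH _ _ _) {⟨0, hJ⟩}
  rw [Finset.prod_singleton] at this
  refine this.trans (le_of_eq ?_)
  unfold P
  simp

lemma Q_clean_le (hPH : Stmt_PH) (hJ : 1 ≤ J) (ψ : Lab R J) {m : ℕ} (t : Fr m) (v : Fin 3)
    (c : Fin R) (h : Clean ψ v c) : Q ψ t v c ≤
    |Real.cos (Real.pi * (fa t + fb t v)) * Real.cos (Real.pi * (fa t - fb t v))| := by
  refine (Q_le_P0 hPH hJ ψ t v c).trans (le_of_eq ?_)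
  rw [h ⟨0, hJ⟩, hPH.2.1, Complex.norm_real, Real.norm_eq_abs]

lemma Q_flip_le (hPH : Stmt_PH) (hJ : 1 ≤ J) (ψ : Lab R J) {m : ℕ} (t : Fr m) (v : Fin 3)
    (c : Fin R) (h : Flip ψ v c) : Q ψ t v c ≤
    |Real.sin (Real.pi * (fa t + fb t v)) * Real.sin (Real.pi * (fa t - fb t v))| := by
  refine (Q_le_P0 hPH hJ ψ t v c).trans (le_of_eq ?_)
  rw [h ⟨0, hJ⟩, if_pos rfl, hPH.2.2.1]

lemma cos_sin_half (x : ℝ) : |Real.cos x * Real.sin x| ≤ 1 / 2 := by
  have h := Real.sin_two_mul x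
  have h2 := Real.abs_sin_le_one (2 * x)
  rw [h] at h2
  have h3 : |2 * Real.sin x * Real.cos x| = 2 * |Real.cos x * Real.sin x| := by
    rw [show 2 * Real.sin x * Real.cos x = 2 * (Real.cos x * Real.sin x) by ring, abs_mul]
    norm_num
  rw [h3] at h2
  linarith

/-- the clean copies exactly -/
lemma Q_clean (hPH : Stmt_PH) (ψ : Lab R J) {m : ℕ} (t : Fr m) (v : Fin 3)
    (c : Fin R) (h : Clean ψ v c) : Q ψ t v c =
    |dJ J (fa t + fb t v)| * |dJ J (fa t - fb t v)| := by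
  unfold Q P dJ
  rw [Finset.abs_prod, Finset.abs_prod, Finset.prod_range, Finset.prod_range,
    ← Finset.prod_mul_distrib]
  refine Finset.prod_congr rfl fun j _ => ?_
  rw [h j, hPH.2.1, Complex.norm_real, Real.norm_eq_abs, abs_mul]
  rw [← mul_add, ← mul_sub]

lemma abs_dJ_le (J : ℕ) (x : ℝ) : |dJ J x| ≤ 1 := by
  unfold dJ
  rw [Finset.abs_prod]
  exact Finset.prod_le_one (fun _ _ => abs_nonneg _) fun _ _ => Real.abs_cos_le_one _

/-- the factors of the support -/
lemma P_supp (hPH : Stmt_PH) (ψ : Lab R J) {m : ℕ} [NeZero m] (t : Fr m) (x : Idx R J)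
    (h : ψ x ≠ 0) : P ψ t x ≤ 4 * US J t := by
  obtain ⟨v, c, j⟩ := x
  unfold P
  refine (hPH.2.2.2.1 _ _ _ h).trans ?_
  simp only
  rw [← mul_add, ← mul_sub]
  have hz : ∀ y : ℝ, nd (2 ^ (j : ℕ) * y) ≤ 2 ^ (j : ℕ) * nd y := by
    intro y
    have := nd_int_mul (2 ^ (j : ℕ)) y
    push_cast at this
    rwa [abs_of_pos (by positivity : (0:ℝ) < 2 ^ (j : ℕ))] at this
  have h1 := hz (fa t + fb t v)
  have h2 := hz (fa t - fb t v)
  have h3 := nd_sum_le J t v
  have h4 : (2:ℝ) ^ (j : ℕ) * 2 ≤ 2 ^ J := by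
    rw [← pow_succ]
    exact pow_le_pow_right₀ (by norm_num) (by have := j.2; omega)
  have h5 : 0 ≤ nd (fa t + fb t v) + nd (fa t - fb t v) := add_nonneg (nd_nonneg _) (nd_nonneg _)
  have h6 := mul_le_mul_of_nonneg_right h4 h5
  linarith

end F_CLSx

open F_CLSx

theorem F_CLS (hPH : Stmt_PH) : Stmt_CLS := by
  classical
  intro R J hJ hR ψ
  obtain ⟨e, he⟩ := choose_e ψ
  refine ⟨e, ?_⟩
  set φ : Lab R J := ψ + pcs e with hφ
  by_cases hA : ∃ v, R / 8 ≤ (sD φ v).card
  · left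
    intro m _ t
    obtain ⟨v, hv⟩ := hA
    refine (norm_igd_le hPH φ t v (sD φ v)).trans ?_
    have h1 : ∏ c ∈ sD φ v, Q φ t v c ≤ ∏ _c ∈ sD φ v, (4 / 5 : ℝ) :=
      Finset.prod_le_prod (fun c _ => Q_nonneg _ _ _ _)
        fun c hc => Q_dirty hPH φ t v c (mem_filter.mp hc).2
    rw [Finset.prod_const] at h1
    exact h1.trans (pow_le_pow_of_le_one (by norm_num) (by norm_num) hv)
  by_cases hB : ∃ v, R / 8 ≤ (sF φ v).card
  · left
    intro m _ t
    obtain ⟨v, hv⟩ := hB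
    have hdis : Disjoint (sC φ v) (sF φ v) := by
      rw [Finset.disjoint_left]
      intro c h1 h2
      have h3 := (mem_filter.mp h1).2 ⟨0, hJ⟩
      have h4 := (mem_filter.mp h2).2 ⟨0, hJ⟩
      rw [h3, if_pos rfl] at h4
      exact absurd h4 (by decide)
    refine (norm_igd_le hPH φ t v (sC φ v ∪ sF φ v)).trans ?_
    rw [Finset.prod_union hdis]
    set x := Real.pi * (fa t + fb t v) with hx
    set y := Real.pi * (fa t - fb t v) with hy
    have h1 : ∏ c ∈ sC φ v, Q φ t v c ≤ |Real.cos x * Real.cos y| ^ (sC φ v).card := by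
      rw [← Finset.prod_const]
      exact Finset.prod_le_prod (fun c _ => Q_nonneg _ _ _ _)
        fun c hc => Q_clean_le hPH hJ φ t v c (mem_filter.mp hc).2
    have h2 : ∏ c ∈ sF φ v, Q φ t v c ≤ |Real.sin x * Real.sin y| ^ (sF φ v).card := by
      rw [← Finset.prod_const]
      exact Finset.prod_le_prod (fun c _ => Q_nonneg _ _ _ _)
        fun c hc => Q_flip_le hPH hJ φ t v c (mem_filter.mp hc).2
    have hc1 : |Real.cos x * Real.cos y| ≤ 1 := by
      rw [abs_mul]
      exact mul_le_one₀ (Real.abs_cos_le_one _) (abs_nonneg _) (Real.abs_cos_le_one _)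
    have h3 : |Real.cos x * Real.cos y| ^ (sC φ v).card ≤
        |Real.cos x * Real.cos y| ^ (sF φ v).card :=
      pow_le_pow_of_le_one (abs_nonneg _) hc1 (he v)
    have h4 : |Real.cos x * Real.cos y| * |Real.sin x * Real.sin y| ≤ 4 / 5 := by
      have e1 : |Real.cos x * Real.cos y| * |Real.sin x * Real.sin y| =
          |Real.cos x * Real.sin x| * |Real.cos y * Real.sin y| := by
        rw [← abs_mul, ← abs_mul]; congr 1; ring
      rw [e1]
      have := mul_le_mul (cos_sin_half x) (cos_sin_half y) (abs_nonneg _) (by norm_num)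
      linarith
    calc (∏ c ∈ sC φ v, Q φ t v c) * ∏ c ∈ sF φ v, Q φ t v c
        ≤ |Real.cos x * Real.cos y| ^ (sF φ v).card * |Real.sin x * Real.sin y| ^ (sF φ v).card :=
          mul_le_mul (h1.trans h3) h2 (Finset.prod_nonneg fun c _ => Q_nonneg _ _ _ _)
            (by positivity)
      _ = (|Real.cos x * Real.cos y| * |Real.sin x * Real.sin y|) ^ (sF φ v).card := by
          rw [mul_pow]
      _ ≤ (4 / 5) ^ (sF φ v).card := pow_le_pow_left₀ (by positivity) h4 _
      _ ≤ _ := pow_le_pow_of_le_one (by norm_num) (by norm_num) hv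
  · right
    push Not at hA hB
    have hclean : ∀ v, R / 2 ≤ (sC φ v).card := by
      intro v
      have h1 := total φ v
      have h2 := hA v
      have h3 := hB v
      omega
    intro m _ t w hw
    obtain ⟨W, hWs, hWc⟩ := Finset.exists_subset_card_eq hw
    -- the clean indices
    set K : Finset (Idx R J) := univ.filter fun x => x.2.1 ∈ sC φ x.1 with hK
    have hWK : Disjoint W K := by
      rw [Finset.disjoint_left]
      intro x h1 h2
      have h3 := (mem_filter.mp (hWs h1)).2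
      have h4 := (mem_filter.mp ((mem_filter.mp h2).2)).2 x.2.2
      exact h3 h4
    have h1 : ‖igd φ t‖ ≤ (∏ x ∈ W, P φ t x) * ∏ x ∈ K, P φ t x := by
      rw [norm_igd, ← Finset.prod_union hWK]
      exact prod_le_sub _ (P_nonneg φ t) (P_le_one hPH φ t) _
    have h2 : ∏ x ∈ W, P φ t x ≤ (4 * US J t) ^ w := by
      rw [← hWc, ← Finset.prod_const]
      exact Finset.prod_le_prod (fun c _ => P_nonneg _ _ _)
        fun x hx => P_supp hPH φ t x (mem_filter.mp (hWs hx)).2
    have h3 : ∏ x ∈ K, P φ t x = ∏ v : Fin 3,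
        (|dJ J (fa t + fb t v)| * |dJ J (fa t - fb t v)|) ^ (sC φ v).card := by
      rw [hK, Finset.prod_filter, Fintype.prod_prod_type]
      refine Finset.prod_congr rfl fun v _ => ?_
      rw [Fintype.prod_prod_type, ← Finset.prod_const]
      have e1 : ∀ c : Fin R, (∏ j : Fin J, if ((v, c, j) : Idx R J).2.1 ∈ sC φ ((v, c, j) : Idx R J).1
          then P φ t (v, c, j) else 1) = if c ∈ sC φ v then Q φ t v c else 1 := by
        intro c
        by_cases hc : c ∈ sC φ v
        · simp only [hc, if_true]; rfl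
        · simp only [hc, if_false, Finset.prod_const_one]
      rw [Finset.prod_congr rfl fun c _ => e1 c, ← Finset.prod_filter]
      have e2 : (univ.filter fun c => c ∈ sC φ v) = sC φ v := by
        ext c; simp
      rw [e2]
      exact Finset.prod_congr rfl fun c hc => Q_clean hPH φ t v c (mem_filter.mp hc).2
    have h4 : ∏ v : Fin 3, (|dJ J (fa t + fb t v)| * |dJ J (fa t - fb t v)|) ^ (sC φ v).card ≤
        (|dJ J (fa t + fb t 0)| * |dJ J (fa t - fb t 0)| * |dJ J (fa t + fb t 1)| *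
        |dJ J (fa t + fb t 2)|) ^ (R / 2) := by
      rw [Fin.prod_univ_three]
      have f0 : (|dJ J (fa t + fb t 0)| * |dJ J (fa t - fb t 0)|) ^ (sC φ 0).card ≤
          (|dJ J (fa t + fb t 0)| * |dJ J (fa t - fb t 0)|) ^ (R / 2) :=
        pow_le_pow_of_le_one (by positivity)
          (mul_le_one₀ (abs_dJ_le _ _) (abs_nonneg _) (abs_dJ_le _ _)) (hclean 0)
      have f1 : ∀ v : Fin 3, (|dJ J (fa t + fb t v)| * |dJ J (fa t - fb t v)|) ^ (sC φ v).card ≤
          |dJ J (fa t + fb t v)| ^ (R / 2) := by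
        intro v
        have g1 : (|dJ J (fa t + fb t v)| * |dJ J (fa t - fb t v)|) ^ (sC φ v).card ≤
            (|dJ J (fa t + fb t v)| * |dJ J (fa t - fb t v)|) ^ (R / 2) :=
          pow_le_pow_of_le_one (by positivity)
            (mul_le_one₀ (abs_dJ_le _ _) (abs_nonneg _) (abs_dJ_le _ _)) (hclean v)
        refine g1.trans (pow_le_pow_left₀ (by positivity) ?_ _)
        exact mul_le_of_le_one_right (abs_nonneg _) (abs_dJ_le _ _)
      calc _ ≤ (|dJ J (fa t + fb t 0)| * |dJ J (fa t - fb t 0)|) ^ (R / 2) *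
            |dJ J (fa t + fb t 1)| ^ (R / 2) * |dJ J (fa t + fb t 2)| ^ (R / 2) := by
            refine mul_le_mul (mul_le_mul f0 (f1 1) (by positivity) (by positivity)) (f1 2)
              (by positivity) (by positivity)
        _ = _ := by rw [← mul_pow, ← mul_pow]
    refine h1.trans ?_
    rw [h3]
    refine mul_le_mul h2 h4 (by positivity) ?_
    have := US_nonneg J t
    positivity

end BQA.F
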