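import Pool.Agent.BQ.FSt

/-!
# BQ, block F, module DJ: the product of cosines (MP_701da7_co, by helper30)
-/

set_option autoImplicit false

namespace BQA.F

open Finset

namespace F_DJx

lemma abs_cos_shift (w : ℝ) (k : ℤ) : |Real.cos (w + k * Real.pi)| = |Real.cos w| := by
  rw [Real.cos_add_int_mul_pi, abs_mul, abs_zpow, abs_neg, abs_one, one_zpow, one_mul]

/-- reduction to the distance to the nearest integer -/
lemma abs_red (J : ℕ) (x : ℝ) : |dJ J x| = |dJ J (x - round x)| := by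
  unfold dJ
  rw [abs_prod, abs_prod]
  refine prod_congr rfl fun j _ => ?_
  have h1 : Real.pi * (2 ^ j * x) = Real.pi * (2 ^ j * (x - round x)) +
      ((2 ^ j * round x : ℤ) : ℝ) * Real.pi := by
    push_cast
    ring
  rw [h1, abs_cos_shift]

lemma abs_le_one (J : ℕ) (x : ℝ) : |dJ J x| ≤ 1 := by
  unfold dJ
  rw [abs_prod]
  exact prod_le_one (fun _ _ => abs_nonneg _) fun _ _ => Real.abs_cos_le_one _

lemma dJ_succ (J : ℕ) (x : ℝ) : dJ (J + 1) x = dJ J x * Real.cos (Real.pi * (2 ^ J * x)) :=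
  prod_range_succ _ _

/-- the duplication formula -/
lemma sin_mul (J : ℕ) (x : ℝ) :
    2 ^ J * Real.sin (Real.pi * x) * dJ J x = Real.sin (Real.pi * (2 ^ J * x)) := by
  induction J with
  | zero =>
    unfold dJ
    rw [prod_range_zero, pow_zero, mul_one, one_mul, one_mul]
  | succ J ih =>
    have h1 : Real.pi * (2 ^ (J + 1) * x) = 2 * (Real.pi * (2 ^ J * x)) := by ring
    rw [dJ_succ, h1, Real.sin_two_mul, ← ih]
    ring

lemma sq_bound (J : ℕ) (z : ℝ) (hJ : 1 ≤ J) (hz : |z| ≤ 1 / 2) :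
    dJ J z ^ 2 * (1 + (2 ^ J * |z|) ^ 2) ≤ 1 := by
  obtain ⟨u, hu⟩ : ∃ u : ℝ, u = 2 ^ J * |z| := ⟨_, rfl⟩
  have hu0 : 0 ≤ u := by
    rw [hu]
    positivity
  rw [← hu, ← sq_abs]
  have hd0 : 0 ≤ |dJ J z| := abs_nonneg _
  rcases le_total u 1 with h1 | h1
  · have h2 : |dJ J z| ≤ 1 - u ^ 2 / 2 := by
      obtain ⟨K, rfl⟩ : ∃ K, J = K + 1 := ⟨J - 1, by omega⟩
      have h3 : |Real.cos (Real.pi * (2 ^ K * z))| ≤ 1 - u ^ 2 / 2 := by
        have e1 : Real.cos (Real.pi * (2 ^ K * z)) = Real.cos (Real.pi * u / 2) := by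
          rw [← Real.cos_abs]
          congr 1
          rw [abs_mul, abs_mul, abs_of_pos Real.pi_pos, abs_of_pos (by positivity : (0 : ℝ) < 2 ^ K),
            hu, pow_succ]
          ring
        have e2 : 0 ≤ Real.cos (Real.pi * u / 2) := by
          apply Real.cos_nonneg_of_neg_pi_div_two_le_of_le
          · have : 0 ≤ Real.pi * u / 2 := by positivity
            linarith [Real.pi_pos]
          · have := mul_le_mul_of_nonneg_left h1 Real.pi_pos.le
            linarith
        rw [e1, abs_of_nonneg e2]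
        have e3 := Real.cos_le_one_sub_mul_cos_sq (x := Real.pi * u / 2) (by
          rw [abs_of_nonneg (by positivity)]
          have := mul_le_mul_of_nonneg_left h1 Real.pi_pos.le
          linarith [Real.pi_pos])
        refine e3.trans (le_of_eq ?_)
        field_simp
      rw [dJ_succ, abs_mul]
      calc |dJ K z| * |Real.cos (Real.pi * (2 ^ K * z))| ≤ 1 * (1 - u ^ 2 / 2) :=
            mul_le_mul (abs_le_one K z) h3 (abs_nonneg _) zero_le_one
        _ = _ := one_mul _
    have h4 : |dJ J z| ^ 2 ≤ (1 - u ^ 2 / 2) ^ 2 := pow_le_pow_left₀ hd0 h2 2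
    have h5 : (1 - u ^ 2 / 2) ^ 2 * (1 + u ^ 2) ≤ 1 := by
      have h6 : u ^ 2 ≤ 1 := pow_le_one₀ hu0 h1
      have h7 : 0 ≤ u ^ 4 := by positivity
      nlinarith
    exact (mul_le_mul_of_nonneg_right h4 (by positivity)).trans h5
  · have h2 : 2 * |z| ≤ |Real.sin (Real.pi * z)| := by
      have e1 : |Real.sin (Real.pi * z)| = Real.sin (Real.pi * |z|) := by
        rcases le_total 0 z with h | h
        · rw [abs_of_nonneg h, abs_of_nonneg]
          apply Real.sin_nonneg_of_nonneg_of_le_pi (by positivity)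
          rw [abs_of_nonneg h] at hz
          nlinarith [Real.pi_pos]
        · rw [abs_of_nonpos h, mul_neg, Real.sin_neg, abs_of_nonpos]
          apply Real.sin_nonpos_of_nonpos_of_neg_pi_le
          · exact mul_nonpos_of_nonneg_of_nonpos Real.pi_pos.le h
          · rw [abs_of_nonpos h] at hz
            nlinarith [Real.pi_pos]
      rw [e1]
      have e2 := Real.mul_le_sin (x := Real.pi * |z|) (by positivity) (by
        have := mul_le_mul_of_nonneg_left hz Real.pi_pos.le
        linarith)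
      refine le_trans (le_of_eq ?_) e2
      field_simp
    have h3 : |dJ J z| * (2 * u) ≤ 1 := by
      have e1 := sin_mul J z
      have e2 : |2 ^ J * Real.sin (Real.pi * z) * dJ J z| ≤ 1 := by
        rw [e1]
        exact Real.abs_sin_le_one _
      rw [abs_mul, abs_mul, abs_of_pos (by positivity : (0 : ℝ) < 2 ^ J)] at e2
      refine le_trans ?_ e2
      have e3 : |dJ J z| * (2 * u) = 2 ^ J * (2 * |z|) * |dJ J z| := by
        rw [hu]
        ring
      rw [e3]
      exact mul_le_mul_of_nonneg_right (mul_le_mul_of_nonneg_left h2 (by positivity)) hd0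
    have h4 : (|dJ J z| * (2 * u)) ^ 2 ≤ 1 := pow_le_one₀ (by positivity) h3
    have h5 : 1 ≤ u ^ 2 := one_le_pow₀ h1
    have h6 : |dJ J z| ^ 2 * (1 + u ^ 2) ≤ |dJ J z| ^ 2 * (4 * u ^ 2) :=
      mul_le_mul_of_nonneg_left (by linarith) (by positivity)
    refine h6.trans (le_trans (le_of_eq ?_) h4)
    ring

lemma low (z : ℝ) (J : ℕ) (h : 2 * (2 ^ J * z) ^ 2 ≤ 1) :
    1 - 2 * (2 ^ J * z) ^ 2 ≤ dJ J z := by
  induction J with
  | zero =>
    unfold dJ
    rw [prod_range_zero]
    have : 0 ≤ 2 * (2 ^ 0 * z) ^ 2 := by positivity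
    linarith
  | succ J ih =>
    obtain ⟨s, hs⟩ : ∃ s : ℝ, s = 2 * (2 ^ J * z) ^ 2 := ⟨_, rfl⟩
    have hs4 : 2 * (2 ^ (J + 1) * z) ^ 2 = 4 * s := by
      rw [hs]
      ring
    rw [hs4] at h ⊢
    rw [← hs] at ih
    have hs0 : 0 ≤ s := by
      rw [hs]
      positivity
    have h1 := ih (by linarith)
    have h2 : 1 - 5 / 2 * s ≤ Real.cos (Real.pi * (2 ^ J * z)) := by
      have e1 := Real.one_sub_sq_div_two_le_cos (x := Real.pi * (2 ^ J * z))
      have e2 : (Real.pi * (2 ^ J * z)) ^ 2 / 2 = Real.pi ^ 2 / 4 * s := by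
        rw [hs]
        ring
      have e3 : Real.pi ^ 2 ≤ 10 := by
        have := Real.pi_lt_d2
        nlinarith [Real.pi_pos]
      rw [e2] at e1
      nlinarith
    rw [dJ_succ]
    have h3 : (1 - s) * (1 - 5 / 2 * s) ≤ dJ J z * Real.cos (Real.pi * (2 ^ J * z)) :=
      mul_le_mul h1 h2 (by linarith) (by linarith)
    nlinarith

end F_DJx

/-- (DJ) the product of the cosines -/
theorem F_DJ : Stmt_DJ := by
  refine ⟨F_DJx.abs_le_one, fun J x hJ => ?_, fun J x => ?_⟩
  · have h1 := F_DJx.sq_bound J (x - round x) hJ (abs_sub_round x)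
    rw [← sq_abs, F_DJx.abs_red, sq_abs]
    exact h1
  · by_cases h : 2 * (2 ^ J * nd x) ^ 2 ≤ 1
    · have h1 : (2 ^ J * nd x) ^ 2 = (2 ^ J * (x - round x)) ^ 2 := by
        unfold nd
        rw [mul_pow, sq_abs, mul_pow]
      rw [h1] at h ⊢
      rw [F_DJx.abs_red]
      exact (F_DJx.low _ J h).trans (le_abs_self _)
    · have : 0 ≤ |dJ J x| := abs_nonneg _
      linarith

end BQA.F
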