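import Pool.Agent.BQ.FSt

/-!
# BQ, block F, modules F1 and F2 (helper87): the fibres of `kapL` over `sph n`

Also common lemmas for F3 and F4 (sub-namespace `F_F1x`).
-/

set_option autoImplicit false

namespace BQA.F

open Finset

namespace F_F1x

variable {R J : ℕ}

lemma chi_zero (h : Lab R J) : chi 0 h = 1 := by
  unfold chi
  refine Finset.prod_eq_one fun c _ => ?_
  rw [Pi.zero_apply, zero_mul, ZMod.val_zero, pow_zero]

lemma norm_chi (ψ h : Lab R J) : ‖chi ψ h‖ = 1 := by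
  unfold chi
  rw [norm_prod]
  refine Finset.prod_eq_one fun c _ => ?_
  rw [norm_pow, Complex.norm_I, one_pow]

open Classical in
lemma nf_eq (q : Quaternion ℤ) :
    nf R J q = (univ.filter (fun h : Lab R J => kapL h = q)).card := by
  unfold nf
  rw [Nat.card_eq_fintype_card, Fintype.card_subtype]

lemma cnt_zero (q : Quaternion ℤ) : cnt (0 : Lab R J) q = (nf R J q : ℂ) := by
  classical
  unfold cnt
  simp only [chi_zero]
  rw [nf_eq, Finset.sum_const, nsmul_eq_mul, mul_one]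

lemma norm_cnt_le (ψ : Lab R J) (q : Quaternion ℤ) : ‖cnt ψ q‖ ≤ nf R J q := by
  classical
  unfold cnt
  refine (norm_sum_le _ _).trans ?_
  simp only [norm_chi]
  rw [nf_eq, Finset.sum_const, nsmul_eq_mul, mul_one]

lemma inL1_one : InL1 (1 : Quaternion ℤ) :=
  ⟨⟨0, by decide⟩, ⟨0, by decide⟩, ⟨0, by decide⟩, ⟨0, by decide⟩⟩

/-- the data used by F1 .. F4 -/
theorem base (hLIP : Stmt_LIP) (hLOW : Stmt_LOW) : ∃ (A : ℝ) (R0 : ℕ), 1 ≤ A ∧
    ∀ R J n : ℕ, R0 ≤ R → Even R → 1 ≤ n → n * R ^ 60 ≤ 4 ^ J → 1000 * J ≤ R →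
    1 ≤ J ∧ 2 ≤ R ∧
    (∀ (ψ : Lab R J), ∀ q ∈ sph n, ∀ q' ∈ sph n, ‖cnt ψ q - cnt ψ q'‖ ≤ A / (R : ℝ) ^ 30 * Zs R J) ∧
    (∀ q ∈ sph n, Zs R J ≤ A * nf R J q) ∧
    (∀ q ∈ sph n, ∀ q' ∈ sph n, nf R J q ≤ 2 * nf R J q') := by
  obtain ⟨C, R1, hC, h1⟩ := hLIP
  obtain ⟨C', R2, hC', h2⟩ := hLOW
  refine ⟨2 * C * C', max (max R1 R2) (max 2 ⌈4 * C * C'⌉₊), by nlinarith, ?_⟩
  intro R J n hR hRe hn hnJ hJR
  have hR1 : R1 ≤ R := le_trans (le_max_left _ _) (le_trans (le_max_left _ _) hR)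
  have hR2 : R2 ≤ R := le_trans (le_max_right _ _) (le_trans (le_max_left _ _) hR)
  have hR3 : 2 ≤ R := le_trans (le_max_left _ _) (le_trans (le_max_right _ _) hR)
  have hR4 : 4 * C * C' ≤ R := by
    have : ⌈4 * C * C'⌉₊ ≤ R := le_trans (le_max_right _ _) (le_trans (le_max_right _ _) hR)
    exact Nat.ceil_le.mp this
  have hR0 : (2:ℝ) ≤ R := by exact_mod_cast hR3
  have hJ : 1 ≤ J := by
    by_contra hcon
    have hJ0 : J = 0 := by omega
    subst hJ0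
    rw [pow_zero] at hnJ
    have : 2 ^ 60 ≤ R ^ 60 := Nat.pow_le_pow_left hR3 60
    nlinarith
  have hZ : 0 ≤ Zs R J := by unfold Zs; positivity
  -- b = sqrt n
  set b : ℝ := Real.sqrt n with hb
  have hn1 : (1:ℝ) ≤ n := by exact_mod_cast hn
  have hb2 : b ^ 2 = n := Real.sq_sqrt (by linarith)
  have hb1 : 1 ≤ b := by
    rw [hb]; exact Real.one_le_sqrt.mpr hn1
  have hbR : b * (R : ℝ) ^ 30 ≤ 2 ^ J := by
    have h3 : (b * (R : ℝ) ^ 30) ^ 2 ≤ ((2:ℝ) ^ J) ^ 2 := by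
      have h4 : ((n * R ^ 60 : ℕ) : ℝ) ≤ ((4 ^ J : ℕ) : ℝ) := by exact_mod_cast hnJ
      push_cast at h4
      calc (b * (R : ℝ) ^ 30) ^ 2 = n * (R : ℝ) ^ 60 := by rw [mul_pow, hb2, ← pow_mul]
        _ ≤ 4 ^ J := h4
        _ = ((2:ℝ) ^ J) ^ 2 := by rw [← pow_mul, mul_comm, pow_mul]; norm_num
    exact (sq_le_sq₀ (by positivity) (by positivity)).mp h3
  have hR30 : (1:ℝ) ≤ (R : ℝ) ^ 30 := one_le_pow₀ (by linarith)
  have hb3 : b ≤ 2 ^ J := by nlinarith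
  have hrat : C * b / 2 ^ J ≤ C / (R : ℝ) ^ 30 := by
    rw [div_le_div_iff₀ (by positivity) (by positivity)]
    nlinarith
  have hnorm : ∀ q ∈ sph n, ((Quaternion.normSq q : ℤ) : ℝ) ≤ b ^ 2 := by
    intro q hq
    rw [(mem_sph.mp hq).2, hb2]
    push_cast; exact le_rfl
  have hone : ((Quaternion.normSq (1 : Quaternion ℤ) : ℤ) : ℝ) ≤ b ^ 2 := by
    rw [map_one, hb2]; push_cast; exact hn1
  have lip : ∀ (ψ : Lab R J) (q q' : Quaternion ℤ), InL1 q → InL1 q' →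
      ((Quaternion.normSq q : ℤ) : ℝ) ≤ b ^ 2 → ((Quaternion.normSq q' : ℤ) : ℝ) ≤ b ^ 2 →
      ‖cnt ψ q - cnt ψ q'‖ ≤ C / (R : ℝ) ^ 30 * Zs R J := by
    intro ψ q q' hq hq' hn1 hn2
    exact (h1 R J hR1 hJ hJR ψ q q' b hq hq' hb1 hb3 hn1 hn2).trans
      (mul_le_mul_of_nonneg_right hrat hZ)
  have low : Zs R J ≤ C' * nf R J (1 : Quaternion ℤ) := by
    have := h2 R J hR2 hRe hJ
    rw [cnt_zero, Complex.natCast_re] at this
    exact this
  -- closeness to the fibre of 1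
  have hsmall : C / (R : ℝ) ^ 30 * (C' * nf R J (1 : Quaternion ℤ)) ≤
      1 / 4 * nf R J (1 : Quaternion ℤ) := by
    have h3 : C / (R : ℝ) ^ 30 * C' ≤ 1 / 4 := by
      rw [div_mul_eq_mul_div, div_le_div_iff₀ (by positivity) (by norm_num)]
      have : (R : ℝ) ≤ (R : ℝ) ^ 30 := le_self_pow₀ (by linarith) (by norm_num)
      nlinarith
    have h4 : (0:ℝ) ≤ nf R J (1 : Quaternion ℤ) := by positivity
    nlinarith
  have close : ∀ q ∈ sph n, |(nf R J q : ℝ) - nf R J (1 : Quaternion ℤ)| ≤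
      1 / 4 * nf R J (1 : Quaternion ℤ) := by
    intro q hq
    have h3 := lip 0 q 1 (mem_sph.mp hq).1 inL1_one (hnorm q hq) hone
    rw [cnt_zero, cnt_zero] at h3
    have h4 : ‖((nf R J q : ℂ) - (nf R J (1 : Quaternion ℤ) : ℂ))‖ =
        |(nf R J q : ℝ) - nf R J (1 : Quaternion ℤ)| := by
      rw [← Complex.ofReal_natCast, ← Complex.ofReal_natCast, ← Complex.ofReal_sub,
        Complex.norm_real, Real.norm_eq_abs]
    rw [h4] at h3
    refine h3.trans ((mul_le_mul_of_nonneg_left low (by positivity)).trans hsmall)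
  refine ⟨hJ, hR3, ?_, ?_, ?_⟩
  · intro ψ q hq q' hq'
    refine (lip ψ q q' (mem_sph.mp hq).1 (mem_sph.mp hq').1 (hnorm q hq) (hnorm q' hq')).trans ?_
    refine mul_le_mul_of_nonneg_right ?_ hZ
    refine div_le_div_of_nonneg_right ?_ (by positivity)
    nlinarith
  · intro q hq
    have h3 := abs_le.mp (close q hq)
    have h4 : (0:ℝ) ≤ nf R J q := by positivity
    have h5 : (nf R J (1 : Quaternion ℤ) : ℝ) ≤ 2 * nf R J q := by
      have : (0:ℝ) ≤ nf R J (1 : Quaternion ℤ) := by positivity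
      linarith [h3.1]
    calc Zs R J ≤ C' * nf R J (1 : Quaternion ℤ) := low
      _ ≤ C' * (2 * nf R J q) := mul_le_mul_of_nonneg_left h5 (by linarith)
      _ ≤ 2 * C * C' * nf R J q := by nlinarith [mul_nonneg (by linarith : (0:ℝ) ≤ C') h4]
  · intro q hq q' hq'
    have h3 := abs_le.mp (close q hq)
    have h4 := abs_le.mp (close q' hq')
    have h5 : (0:ℝ) ≤ nf R J (1 : Quaternion ℤ) := by positivity
    have h6 : (nf R J q : ℝ) ≤ 2 * nf R J q' := by linarith [h3.2, h4.1]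
    exact_mod_cast h6

/-- sums over `Xset`, sorted by `kapL` -/
lemma sum_Xset (hPAR : Stmt_PAR) {n : ℕ} (hR : Even R) (hJ : 1 ≤ J) {M : Type*} [AddCommMonoid M]
    (g : Lab R J → M) : ∑ h ∈ Xset R J n, g (h : Lab R J) =
      ∑ q ∈ sph n, ∑ h ∈ univ.filter (fun h : Lab R J => kapL h = q), g h := by
  classical
  have h1 : ∑ h ∈ Xset R J n, g (h : Lab R J) =
      ∑ h ∈ univ.filter (fun h : Lab R J => kapL h ∈ sph n), g h := by
    refine Finset.sum_bij (fun h _ => (h : Lab R J)) ?_ ?_ ?_ ?_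
    · intro h hh
      unfold Xset at hh
      rw [Finset.mem_filter] at hh ⊢
      exact ⟨mem_univ _, mem_sph.mpr ⟨(hPAR.1 R J hR hJ _).mp h.2, hh.2⟩⟩
    · intro a _ b _ hab
      exact Subtype.ext hab
    · intro h hh
      rw [Finset.mem_filter] at hh
      have h2 := mem_sph.mp hh.2
      refine ⟨⟨h, (hPAR.1 R J hR hJ h).mpr h2.1⟩, ?_, rfl⟩
      unfold Xset
      rw [Finset.mem_filter]
      exact ⟨mem_univ _, h2.2⟩
    · intro h _
      rfl
  rw [h1, ← Finset.sum_fiberwise_of_maps_to (s := univ.filter fun h : Lab R J => kapL h ∈ sph n)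
    (t := sph n) (g := fun h => kapL h) (fun h hh => (Finset.mem_filter.mp hh).2)]
  refine Finset.sum_congr rfl fun q hq => ?_
  rw [Finset.filter_filter]
  refine Finset.sum_congr ?_ fun _ _ => rfl
  ext h
  simp only [Finset.mem_filter, mem_univ, true_and]
  constructor
  · exact fun h' => h'.2
  · exact fun h' => ⟨h' ▸ hq, h'⟩

lemma card_Xset (hPAR : Stmt_PAR) {n : ℕ} (hR : Even R) (hJ : 1 ≤ J) :
    (Xset R J n).card = ∑ q ∈ sph n, nf R J q := by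
  classical
  have := sum_Xset (R := R) (J := J) hPAR (n := n) hR hJ (fun _ => (1 : ℕ))
  simp only [Finset.sum_const, smul_eq_mul, mul_one] at this
  rw [this]
  refine Finset.sum_congr rfl fun q _ => ?_
  rw [nf_eq]

/-- the number of points of `Xset` against one fibre -/
lemma card_ge (hPAR : Stmt_PAR) {n : ℕ} (hR : Even R) (hJ : 1 ≤ J)
    (h2 : ∀ q ∈ sph n, ∀ q' ∈ sph n, nf R J q ≤ 2 * nf R J q') {q : Quaternion ℤ} (hq : q ∈ sph n) :
    (Rp n : ℝ) * nf R J q ≤ 2 * (Xset R J n).card := by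
  have h3 : Rp n * nf R J q ≤ 2 * (Xset R J n).card := by
    rw [card_Xset hPAR hR hJ, Finset.mul_sum]
    unfold Rp
    rw [← smul_eq_mul, ← Finset.sum_const]
    exact Finset.sum_le_sum fun q' hq' => h2 q hq q' hq'
  exact_mod_cast h3

end F_F1x

open F_F1x

theorem F_F1 (hLIP : Stmt_LIP) (hLOW : Stmt_LOW) : Stmt_F1 := by
  obtain ⟨A, R0, _, h⟩ := base hLIP hLOW
  exact ⟨R0, fun R J n hR hRe hn hnJ hJ => (h R J n hR hRe hn hnJ hJ).2.2.2.2⟩

theorem F_F2 (hLIP : Stmt_LIP) (hLOW : Stmt_LOW) : Stmt_F2 := by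
  obtain ⟨A, R0, hA, h⟩ := base hLIP hLOW
  refine ⟨max R0 ⌈A⌉₊, fun R J n hR hRe hn hnJ hJ q hq => ?_⟩
  have hR0 : R0 ≤ R := le_trans (le_max_left _ _) hR
  have hRA : A ≤ R := Nat.ceil_le.mp (le_trans (le_max_right _ _) hR)
  have h1 := (h R J n hR0 hRe hn hnJ hJ).2.2.2.1 q hq
  have hR2 : (2:ℝ) ≤ R := by exact_mod_cast (h R J n hR0 hRe hn hnJ hJ).2.1
  unfold Zs at h1
  rw [div_le_iff₀ (by positivity)] at h1
  refine h1.trans ?_
  have h4 : (0:ℝ) ≤ nf R J q := by positivity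
  calc A * nf R J q * ((R : ℝ) ^ 2 * 2 ^ (4 * J)) ≤ R * nf R J q * ((R : ℝ) ^ 2 * 2 ^ (4 * J)) := by
        gcongr
    _ = _ := by ring

end BQA.F
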