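import Pool.Agent.BQ.F_F1

/-!
# BQ, block F, module F3 (helper87): operators
-/

set_option autoImplicit false

namespace BQA.F

open Finset
open F_F1x

theorem F_F3 (hLIP : Stmt_LIP) (hLOW : Stmt_LOW) (hPAR : Stmt_PAR) (hRES : Stmt_RES) : Stmt_F3 := by
  classical
  obtain ⟨A, R0, hA, hbase⟩ := base hLIP hLOW
  refine ⟨max R0 ⌈2 * A * A⌉₊, ?_⟩
  intro R J n hR hRe hn hnJ hJR χ H _ _ U δ x hδ hU hsum
  have hR0 : R0 ≤ R := le_trans (le_max_left _ _) hR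
  have hRA : 2 * A * A ≤ R := Nat.ceil_le.mp (le_trans (le_max_right _ _) hR)
  obtain ⟨hJ, hR2, hlip, hZ, hcomp⟩ := hbase R J n hR0 hRe hn hnJ hJR
  have hR2' : (2:ℝ) ≤ R := by exact_mod_cast hR2
  have hZ0 : 0 ≤ Zs R J := by unfold Zs; positivity
  obtain ⟨ψ, hψ⟩ := hRES R J χ
  have e1 : ∑ h ∈ Xset R J n, χ h • U (kapL (h : Lab R J)) x =
      ∑ q ∈ sph n, cnt ψ q • U q x := by
    have e2 : ∑ h ∈ Xset R J n, χ h • U (kapL (h : Lab R J)) x =
        ∑ h ∈ Xset R J n, chi ψ (h : Lab R J) • U (kapL (h : Lab R J)) x := by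
      refine Finset.sum_congr rfl fun h _ => ?_
      rw [hψ]
    rw [e2, sum_Xset hPAR hRe hJ (fun h : Lab R J => chi ψ h • U (kapL h) x)]
    refine Finset.sum_congr rfl fun q _ => ?_
    unfold cnt
    rw [Finset.sum_smul]
    refine Finset.sum_congr rfl fun h hh => ?_
    rw [(Finset.mem_filter.mp hh).2]
  rw [e1]
  rcases (sph n).eq_empty_or_nonempty with he | ⟨q0, hq0⟩
  · rw [he, Finset.sum_empty, norm_zero]
    positivity
  have e3 : ∑ q ∈ sph n, cnt ψ q • U q x = cnt ψ q0 • ∑ q ∈ sph n, U q x +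
      ∑ q ∈ sph n, (cnt ψ q - cnt ψ q0) • U q x := by
    rw [Finset.smul_sum, ← Finset.sum_add_distrib]
    refine Finset.sum_congr rfl fun q _ => ?_
    rw [← add_smul]
    congr 1
    ring
  rw [e3]
  have hc := card_ge hPAR hRe hJ hcomp hq0
  have b1 : ‖cnt ψ q0 • ∑ q ∈ sph n, U q x‖ ≤ 2 * δ * (Xset R J n).card * ‖x‖ := by
    rw [norm_smul]
    calc ‖cnt ψ q0‖ * ‖∑ q ∈ sph n, U q x‖ ≤ nf R J q0 * (δ * Rp n * ‖x‖) :=
          mul_le_mul (norm_cnt_le ψ q0) hsum (norm_nonneg _) (by positivity)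
      _ = (Rp n * nf R J q0) * (δ * ‖x‖) := by ring
      _ ≤ (2 * (Xset R J n).card) * (δ * ‖x‖) :=
          mul_le_mul_of_nonneg_right hc (by positivity)
      _ = _ := by ring
  have b2 : ‖∑ q ∈ sph n, (cnt ψ q - cnt ψ q0) • U q x‖ ≤
      ((R : ℝ) ^ 20)⁻¹ * (Xset R J n).card * ‖x‖ := by
    have c1 : ∀ q ∈ sph n, ‖(cnt ψ q - cnt ψ q0) • U q x‖ ≤ A / (R : ℝ) ^ 30 * Zs R J * ‖x‖ := by
      intro q hq
      rw [norm_smul]
      exact mul_le_mul (hlip ψ q hq q0 hq0) (hU q hq) (norm_nonneg _) (by positivity)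
    refine (norm_sum_le _ _).trans ((Finset.sum_le_sum c1).trans ?_)
    rw [Finset.sum_const, nsmul_eq_mul]
    have c2 : ((sph n).card : ℝ) * Zs R J ≤ A * (2 * (Xset R J n).card) := by
      calc ((sph n).card : ℝ) * Zs R J ≤ (sph n).card * (A * nf R J q0) :=
            mul_le_mul_of_nonneg_left (hZ q0 hq0) (by positivity)
        _ = A * (Rp n * nf R J q0) := by unfold Rp; ring
        _ ≤ _ := mul_le_mul_of_nonneg_left hc (by linarith)
    have c3 : A / (R : ℝ) ^ 30 * (A * 2) ≤ ((R : ℝ) ^ 20)⁻¹ := by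
      rw [← one_div, div_mul_eq_mul_div, div_le_div_iff₀ (by positivity) (by positivity)]
      have h5 : (R : ℝ) ≤ (R : ℝ) ^ 10 := le_self_pow₀ (by linarith) (by norm_num)
      have h6 : (0:ℝ) < (R : ℝ) ^ 20 := by positivity
      calc A * (A * 2) * (R : ℝ) ^ 20 ≤ (R : ℝ) ^ 10 * (R : ℝ) ^ 20 :=
            mul_le_mul_of_nonneg_right (by linarith) h6.le
        _ = _ := by ring
    calc ((sph n).card : ℝ) * (A / (R : ℝ) ^ 30 * Zs R J * ‖x‖)
        = A / (R : ℝ) ^ 30 * (((sph n).card : ℝ) * Zs R J) * ‖x‖ := by ring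
      _ ≤ A / (R : ℝ) ^ 30 * (A * (2 * (Xset R J n).card)) * ‖x‖ := by gcongr
      _ = A / (R : ℝ) ^ 30 * (A * 2) * (Xset R J n).card * ‖x‖ := by ring
      _ ≤ _ := by gcongr
  refine (norm_add_le _ _).trans ((add_le_add b1 b2).trans ?_)
  have h7 : (0:ℝ) ≤ (Xset R J n).card * ‖x‖ := by positivity
  nlinarith [mul_nonneg hδ h7]

end BQA.F
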