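import Pool.Agent.BQ.F_F1

/-!
# BQ, block F, module F4 (helper87): eigenvalues
-/

set_option autoImplicit false

namespace BQA.F

open Finset
open F_F1x

theorem F_F4 (hUP : Stmt_UP) (hLIP : Stmt_LIP) (hLOW : Stmt_LOW) (hPAR : Stmt_PAR) : Stmt_F4 := by
  classical
  obtain ⟨A, R0, hA, hbase⟩ := base hLIP hLOW
  obtain ⟨C, R1, hC, hup⟩ := hUP
  set K : ℝ := 2 * A * C with hK
  have hK1 : 1 ≤ K := by rw [hK]; nlinarith
  refine ⟨K ^ 2 * C, max R0 R1, ?_, ?_⟩
  · have : 1 ≤ K ^ 2 := one_le_pow₀ hK1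
    nlinarith
  intro R J n hR hRe hn hnJ hJR ψ w hw hmin
  have hR0 : R0 ≤ R := le_trans (le_max_left _ _) hR
  have hR1 : R1 ≤ R := le_trans (le_max_right _ _) hR
  obtain ⟨hJ, hR2, hlip, hZ, hcomp⟩ := hbase R J n hR0 hRe hn hnJ hJR
  have hR2' : (2:ℝ) ≤ R := by exact_mod_cast hR2
  rcases Nat.eq_zero_or_pos w with rfl | hw0
  · rw [pow_zero, one_mul]
    refine (norm_sum_le _ _).trans ?_
    simp only [norm_chi]
    rw [Finset.sum_const, nsmul_eq_mul, mul_one]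
  have e1 : ∑ h ∈ Xset R J n, chi ψ (h : Lab R J) = ∑ q ∈ sph n, cnt ψ q := by
    rw [sum_Xset hPAR hRe hJ (fun h : Lab R J => chi ψ h)]
    rfl
  rw [e1]
  rcases (sph n).eq_empty_or_nonempty with he | ⟨q0, hq0⟩
  · rw [he, Finset.sum_empty, norm_zero]
    positivity
  have hc := card_ge hPAR hRe hJ hcomp hq0
  have hn4 : n ≤ 4 ^ J := by
    have : 1 ≤ R ^ 60 := Nat.one_le_pow _ _ (by omega)
    nlinarith
  have c1 : ∀ q ∈ sph n, ‖cnt ψ q‖ ≤ C * Real.sqrt (C / R) ^ w * Zs R J := by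
    intro q hq
    refine hup R J hR1 hJ hJR ψ w q hw hmin (mem_sph.mp hq).1 ?_
    rw [(mem_sph.mp hq).2]
    exact_mod_cast hn4
  refine (norm_sum_le _ _).trans ((Finset.sum_le_sum c1).trans ?_)
  rw [Finset.sum_const, nsmul_eq_mul]
  have hZ0 : 0 ≤ Zs R J := by unfold Zs; positivity
  have c2 : ((sph n).card : ℝ) * Zs R J ≤ A * (2 * (Xset R J n).card) := by
    calc ((sph n).card : ℝ) * Zs R J ≤ (sph n).card * (A * nf R J q0) :=
          mul_le_mul_of_nonneg_left (hZ q0 hq0) (by positivity)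
      _ = A * (Rp n * nf R J q0) := by unfold Rp; ring
      _ ≤ _ := mul_le_mul_of_nonneg_left hc (by linarith)
  have c3 : Real.sqrt (K ^ 2 * C / R) ^ w = K ^ w * Real.sqrt (C / R) ^ w := by
    rw [mul_div_assoc, Real.sqrt_mul (by positivity), Real.sqrt_sq (by linarith), mul_pow]
  have c4 : K ≤ K ^ w := le_self_pow₀ hK1 (by omega)
  rw [c3]
  have hs : 0 ≤ Real.sqrt (C / R) ^ w := by positivity
  calc ((sph n).card : ℝ) * (C * Real.sqrt (C / R) ^ w * Zs R J)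
      = C * Real.sqrt (C / R) ^ w * (((sph n).card : ℝ) * Zs R J) := by ring
    _ ≤ C * Real.sqrt (C / R) ^ w * (A * (2 * (Xset R J n).card)) :=
        mul_le_mul_of_nonneg_left c2 (by positivity)
    _ = K * Real.sqrt (C / R) ^ w * (Xset R J n).card := by rw [hK]; ring
    _ ≤ K ^ w * Real.sqrt (C / R) ^ w * (Xset R J n).card := by gcongr

end BQA.F
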