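import Pool.Agent.BQ.FSt

/-!
# BQ, block F: Fourier inversion modulo `m`
-/

set_option autoImplicit false

namespace BQA.F

open Finset Quaternion

namespace F_INVx

/-- `exp(i x)` -/
noncomputable def ee (x : ℝ) : ℂ := Complex.exp (((x : ℝ) : ℂ) * Complex.I)

theorem ee_add (x y : ℝ) : ee (x + y) = ee x * ee y := by
  unfold ee
  rw [← Complex.exp_add]
  congr 1
  push_cast; ring

theorem ee_zero : ee 0 = 1 := by simp [ee]

theorem ee_sum {α : Type*} (s : Finset α) (f : α → ℝ) : ee (∑ i ∈ s, f i) = ∏ i ∈ s, ee (f i) := by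
  classical
  induction s using Finset.induction_on with
  | empty => simp [ee_zero]
  | insert a s ha ih => rw [sum_insert ha, prod_insert ha, ee_add, ih]

theorem sum_val {m : ℕ} [NeZero m] (g : ℕ → ℂ) :
    ∑ t : ZMod m, g t.val = ∑ k ∈ range m, g k := by
  refine Finset.sum_nbij' (fun t => t.val) (fun k => (k : ZMod m)) ?_ ?_ ?_ ?_ ?_
  · intro t _
    exact Finset.mem_range.2 (ZMod.val_lt t)
  · intro k _
    exact mem_univ _
  · intro t _
    exact ZMod.natCast_zmod_val t
  · intro k hk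
    exact ZMod.val_cast_of_lt (Finset.mem_range.1 hk)
  · intro t _
    rfl

/-- orthogonality -/
theorem orth {m : ℕ} [NeZero m] (d : ℤ) (hd : |d| < m) :
    ∑ t : ZMod m, ee (2 * Real.pi * ((t.val : ℝ) * d / m)) = if d = 0 then (m : ℂ) else 0 := by
  have hm : (m : ℝ) ≠ 0 := by exact_mod_cast NeZero.ne m
  rw [sum_val (fun k => ee (2 * Real.pi * ((k : ℝ) * d / m)))]
  split_ifs with h
  · subst h
    simp [ee_zero]
  · have hpow : ∀ k : ℕ, ee (2 * Real.pi * ((k : ℝ) * d / m)) =
        ee (2 * Real.pi * ((d : ℝ) / m)) ^ k := by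
      intro k
      induction k with
      | zero => simp [ee_zero]
      | succ k ih =>
        rw [pow_succ, ← ih, ← ee_add]
        congr 1
        push_cast; ring
    rw [Finset.sum_congr rfl (fun k _ => hpow k)]
    set z := ee (2 * Real.pi * ((d : ℝ) / m)) with hz
    have hz1 : z ≠ 1 := by
      intro h1
      rw [hz, ee, Complex.exp_eq_one_iff] at h1
      obtain ⟨n, hn⟩ := h1
      have h2 : ((2 * Real.pi * ((d : ℝ) / m) : ℝ) : ℂ) = ((n * (2 * Real.pi) : ℝ) : ℂ) := by
        have hI : Complex.I ≠ 0 := Complex.I_ne_zero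
        apply mul_right_cancel₀ hI
        rw [hn]
        push_cast; ring
      have h3 : (2 * Real.pi * ((d : ℝ) / m) : ℝ) = n * (2 * Real.pi) := by exact_mod_cast h2
      have hpi : (2 * Real.pi : ℝ) ≠ 0 := by positivity
      have h4 : (d : ℝ) / m = n := by
        apply mul_left_cancel₀ hpi
        rw [h3]; ring
      have h5 : (d : ℝ) = n * m := by
        rw [div_eq_iff hm] at h4; exact h4
      have h6 : d = n * m := by exact_mod_cast h5
      have hn0 : n ≠ 0 := by
        rintro rfl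
        apply h; rw [h6]; ring
      have h7 : (m : ℤ) ≤ |d| := by
        rw [h6, abs_mul, Nat.abs_cast]
        have : 1 ≤ |n| := Int.one_le_abs hn0
        nlinarith [Int.natCast_nonneg m]
      omega
    have hzm : z ^ m = 1 := by
      rw [hz, ← hpow m, ee, Complex.exp_eq_one_iff]
      refine ⟨d, ?_⟩
      have : ((2 * Real.pi * ((m : ℝ) * d / m) : ℝ) : ℂ) = ((d * (2 * Real.pi) : ℝ) : ℂ) := by
        congr 1
        field_simp
      rw [this]
      push_cast; ring
    rw [geom_sum_eq hz1, hzm, sub_self, zero_div]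

/-- the phase of a label -/
theorem phase {R J m : ℕ} [NeZero m] (t : Fr m) (h : Lab R J) :
    ∑ c : Idx R J, 2 * Real.pi * (ca (h c) * (2 ^ (c.2.2 : ℕ) * ((t.1.val : ℝ) / m)) +
      cb (h c) * (2 ^ (c.2.2 : ℕ) * (((t.2 c.1).val : ℝ) / m))) =
    2 * Real.pi * ((kr h : ℝ) * ((t.1.val : ℝ) / m) +
      ∑ v : Fin 3, (kv h v : ℝ) * (((t.2 v).val : ℝ) / m)) := by
  rw [← Finset.mul_sum, Finset.sum_add_distrib]
  congr 2
  · unfold kr
    push_cast
    rw [Finset.sum_mul]
    exact Finset.sum_congr rfl (fun c _ => by ring)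
  · rw [Fintype.sum_prod_type]
    apply Finset.sum_congr rfl
    intro v _
    unfold kv
    push_cast
    rw [Finset.sum_mul]
    exact Finset.sum_congr rfl (fun c _ => by ring)

theorem igd_eq {R J m : ℕ} [NeZero m] (ψ : Lab R J) (t : Fr m) :
    (4 : ℂ) ^ (3 * R * J) * igd ψ t = ∑ h : Lab R J, chi ψ h *
      ee (2 * Real.pi * ((kr h : ℝ) * ((t.1.val : ℝ) / m) +
      ∑ v : Fin 3, (kv h v : ℝ) * (((t.2 v).val : ℝ) / m))) := by
  classical
  unfold igd ph
  rw [Finset.prod_mul_distrib, Finset.prod_const, Finset.card_univ]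
  have hcard : Fintype.card (Idx R J) = 3 * R * J := by
    rw [Fintype.card_prod, Fintype.card_prod, Fintype.card_fin, Fintype.card_fin,
      Fintype.card_fin]
    ring
  rw [hcard, ← mul_assoc, ← mul_pow]
  have h1 : (4 : ℂ) * (1 / 4) = 1 := by norm_num
  rw [h1, one_pow, one_mul, Finset.prod_univ_sum, Fintype.piFinset_univ]
  apply Finset.sum_congr rfl
  intro h _
  rw [Finset.prod_mul_distrib, ← phase t h, ee_sum]
  rfl

end F_INVx

open F_INVx

theorem F_INV : Stmt_INV := by
  classical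
  intro R J m _ ψ q hq
  have hm : (m : ℝ) ≠ 0 := by exact_mod_cast NeZero.ne m
  rw [Finset.mul_sum]
  have h1 : ∀ t : Fr m, (4 : ℂ) ^ (3 * R * J) *
      (Complex.exp (((-(2 * Real.pi * dotq t q) : ℝ) : ℂ) * Complex.I) * igd ψ t) =
      ∑ h : Lab R J, chi ψ h *
        (ee (2 * Real.pi * ((t.1.val : ℝ) * (((kapL h).re - q.re : ℤ) : ℝ) / m)) *
          ∏ v : Fin 3, ee (2 * Real.pi * (((t.2 v).val : ℝ) *
            (((if v = 0 then (kapL h).imI - q.imI else if v = 1 then (kapL h).imJ - q.imJ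
              else (kapL h).imK - q.imK : ℤ)) : ℝ) / m))) := by
    intro t
    have : (4 : ℂ) ^ (3 * R * J) *
      (Complex.exp (((-(2 * Real.pi * dotq t q) : ℝ) : ℂ) * Complex.I) * igd ψ t) =
      ee (-(2 * Real.pi * dotq t q)) * ((4 : ℂ) ^ (3 * R * J) * igd ψ t) := by
      unfold ee; ring
    rw [this, igd_eq, Finset.mul_sum]
    apply Finset.sum_congr rfl
    intro h _
    rw [mul_left_comm]
    congr 1
    rw [← ee_add, ← ee_sum, ← ee_add]
    congr 1
    have hk := kapL_eq h
    have k1 : (kapL h).re = 1 + kr h := by rw [hk, mk4_re]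
    have k2 : (kapL h).imI = kv h 0 := by rw [hk, mk4_imI]
    have k3 : (kapL h).imJ = kv h 1 := by rw [hk, mk4_imJ]
    have k4 : (kapL h).imK = kv h 2 := by rw [hk, mk4_imK]
    rw [k1, k2, k3, k4]
    unfold dotq
    rw [Fin.sum_univ_three, Fin.sum_univ_three]
    simp only [Fin.isValue, if_true, one_ne_zero, if_false, Fin.reduceEq]
    push_cast
    field_simp
    ring
  rw [Finset.sum_congr rfl (fun t _ => h1 t), Finset.sum_comm]
  unfold cnt
  rw [Finset.mul_sum, Finset.sum_filter]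
  apply Finset.sum_congr rfl
  intro h _
  rw [← Finset.mul_sum, Fintype.sum_prod_type]
  simp only
  rw [← Finset.sum_mul_sum]
  obtain ⟨a1, a2, a3, a4⟩ := hq h
  rw [orth _ a1]
  have h2 : ∑ u : Fin 3 → ZMod m, ∏ v : Fin 3, ee (2 * Real.pi * (((u v).val : ℝ) *
      (((if v = 0 then (kapL h).imI - q.imI else if v = 1 then (kapL h).imJ - q.imJ
        else (kapL h).imK - q.imK : ℤ)) : ℝ) / m)) =
      ∏ v : Fin 3, ∑ x : ZMod m, ee (2 * Real.pi * ((x.val : ℝ) *
      (((if v = 0 then (kapL h).imI - q.imI else if v = 1 then (kapL h).imJ - q.imJ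
        else (kapL h).imK - q.imK : ℤ)) : ℝ) / m)) := by
    rw [Finset.prod_univ_sum, Fintype.piFinset_univ]
  rw [h2, Fin.prod_univ_three]
  simp only [Fin.isValue, if_true, one_ne_zero, if_false, Fin.reduceEq]
  rw [orth _ a2, orth _ a3, orth _ a4]
  by_cases hkq : kapL h = q
  · rw [if_pos hkq, hkq]
    simp only [sub_self, if_true]
    ring
  · rw [if_neg hkq]
    by_cases b1 : (kapL h).re - q.re = 0
    · by_cases b2 : (kapL h).imI - q.imI = 0
      · by_cases b3 : (kapL h).imJ - q.imJ = 0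
        · by_cases b4 : (kapL h).imK - q.imK = 0
          · exact absurd (qext (sub_eq_zero.1 b1) (sub_eq_zero.1 b2) (sub_eq_zero.1 b3)
              (sub_eq_zero.1 b4)) hkq
          · simp [b4]
        · simp [b3]
      · simp [b2]
    · simp [b1]

end BQA.F
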