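import Mathlib
import Pool.Agent.BQ.FSt

/-!
# BQ, block F: the lower bound for the fibre of `1`
-/

set_option autoImplicit false

namespace BQA.F

open Finset Quaternion

namespace F_LOWx

theorem abs_ca (s : ZMod 4) : |ca s| ≤ 1 := by revert s; decide

theorem abs_cb (s : ZMod 4) : |cb s| ≤ 1 := by revert s; decide

theorem abs_term {J : ℕ} (j : Fin J) {x : ℤ} (hx : |x| ≤ 1) : |2 ^ (j : ℕ) * x| ≤ 2 ^ J := by
  rw [abs_mul, abs_of_pos (by positivity)]
  have h1 : (2 : ℤ) ^ (j : ℕ) ≤ 2 ^ J := pow_le_pow_right₀ (by norm_num) j.2.le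
  have h2 : (0 : ℤ) ≤ 2 ^ (j : ℕ) := by positivity
  nlinarith [abs_nonneg x]

theorem abs_kr {R J : ℕ} (h : Lab R J) : |kr h| ≤ 3 * R * J * 2 ^ J := by
  unfold kr
  refine (abs_sum_le_sum_abs _ _).trans ?_
  refine (sum_le_sum fun c _ => abs_term c.2.2 (abs_ca (h c))).trans ?_
  rw [sum_const, card_univ, Fintype.card_prod, Fintype.card_prod, Fintype.card_fin,
    Fintype.card_fin, Fintype.card_fin, nsmul_eq_mul]
  push_cast
  exact le_of_eq (by ring)

theorem abs_kv {R J : ℕ} (h : Lab R J) (v : Fin 3) : |kv h v| ≤ 3 * R * J * 2 ^ J := by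
  unfold kv
  refine (abs_sum_le_sum_abs _ _).trans ?_
  refine (sum_le_sum fun c _ => abs_term c.2 (abs_cb (h (v, c)))).trans ?_
  rw [sum_const, card_univ, Fintype.card_prod, Fintype.card_fin,
    Fintype.card_fin, nsmul_eq_mul]
  push_cast
  have : (0 : ℤ) ≤ R * J * 2 ^ J := by positivity
  nlinarith

/-- the real integrand -/
noncomputable def gg (R J : ℕ) {m : ℕ} (t : Fr m) : ℝ :=
  ∏ v : Fin 3, (dJ J ((t.1.val : ℝ) / m + ((t.2 v).val : ℝ) / m) *
    dJ J ((t.1.val : ℝ) / m - ((t.2 v).val : ℝ) / m)) ^ R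

theorem igd_zero (hPH : Stmt_PH) {R J m : ℕ} (t : Fr m) :
    igd (0 : Lab R J) t = ((gg R J t : ℝ) : ℂ) := by
  unfold igd gg
  simp only [Pi.zero_apply, hPH.2.1]
  rw [← Complex.ofReal_prod]
  congr 1
  rw [Fintype.prod_prod_type]
  refine prod_congr rfl fun v _ => ?_
  rw [Fintype.prod_prod_type]
  simp only
  rw [prod_const, card_univ, Fintype.card_fin]
  congr 1
  rw [prod_mul_distrib]
  unfold dJ
  rw [← Fin.prod_univ_eq_prod_range (fun j => Real.cos (Real.pi * (2 ^ j *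
      ((t.1.val : ℝ) / m + ((t.2 v).val : ℝ) / m)))) J,
    ← Fin.prod_univ_eq_prod_range (fun j => Real.cos (Real.pi * (2 ^ j *
      ((t.1.val : ℝ) / m - ((t.2 v).val : ℝ) / m)))) J]
  congr 1
  · refine prod_congr rfl fun j _ => ?_
    rw [← mul_add (2 ^ (j : ℕ) : ℝ)]
  · refine prod_congr rfl fun j _ => ?_
    rw [← mul_sub (2 ^ (j : ℕ) : ℝ)]

theorem gg_nonneg {R J m : ℕ} (hR : Even R) (t : Fr m) : 0 ≤ gg R J t :=
  prod_nonneg fun _ _ => hR.pow_nonneg _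

theorem dotq_one {m : ℕ} (t : Fr m) : dotq t 1 = 0 := by
  unfold dotq
  simp

/-- the points near `0` -/
def pt (m : ℕ) (p : ℤ × (Fin 3 → ℤ)) : Fr m := ((p.1 : ZMod m), fun v => (p.2 v : ZMod m))

/-- the box -/
noncomputable def bx (T : ℕ) : Finset (ℤ × (Fin 3 → ℤ)) :=
  Icc (-(T : ℤ)) T ×ˢ Fintype.piFinset fun _ : Fin 3 => Icc (-(T : ℤ)) T

theorem card_bx (T : ℕ) : (bx T).card = (2 * T + 1) ^ 4 := by
  unfold bx
  rw [card_product, Fintype.card_piFinset_const, Int.card_Icc]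
  have : ((T : ℤ) + 1 - -(T : ℤ)).toNat = 2 * T + 1 := by omega
  rw [this]
  ring

theorem cast_inj {m T : ℕ} (h : 2 * T < m) {a b : ℤ} (ha : a ∈ Icc (-(T : ℤ)) T)
    (hb : b ∈ Icc (-(T : ℤ)) T) (hab : (a : ZMod m) = (b : ZMod m)) : a = b := by
  rw [ZMod.intCast_eq_intCast_iff_dvd_sub] at hab
  rw [mem_Icc] at ha hb
  have h1 : |b - a| < m := by
    rw [abs_lt]
    constructor <;> omega
  have := Int.eq_zero_of_abs_lt_dvd hab h1
  omega

theorem pt_inj {m T : ℕ} (h : 2 * T < m) : Set.InjOn (pt m) (bx T) := by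
  rintro ⟨a, b⟩ hp ⟨a', b'⟩ hp' heq
  unfold bx at hp hp'
  rw [mem_coe, mem_product, Fintype.mem_piFinset] at hp hp'
  simp only [pt, Prod.mk.injEq] at heq
  obtain ⟨h1, h2⟩ := heq
  refine Prod.ext (cast_inj h hp.1 hp'.1 h1) ?_
  funext v
  exact cast_inj h (hp.2 v) (hp'.2 v) (congrFun h2 v)

theorem nd_le {m T : ℕ} [NeZero m] {a b : ℤ} (ha : a ∈ Icc (-(T : ℤ)) T) (hb : b ∈ Icc (-(T : ℤ)) T) :
    nd ((((a : ZMod m)).val : ℝ) / m + (((b : ZMod m)).val : ℝ) / m) ≤ 2 * T / m ∧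
    nd ((((a : ZMod m)).val : ℝ) / m - (((b : ZMod m)).val : ℝ) / m) ≤ 2 * T / m := by
  have hm : (0 : ℝ) < m := by
    have := NeZero.pos m
    exact_mod_cast this
  have key : ∀ c : ℤ, (((c : ZMod m)).val : ℝ) = c - m * ((c / m : ℤ) : ℝ) := by
    intro c
    have h1 : (((c : ZMod m)).val : ℤ) = c % m := ZMod.val_intCast c
    have h2 := Int.emod_add_mul_ediv c m
    have h3 : (((c : ZMod m)).val : ℤ) = c - m * (c / m) := by rw [h1]; linarith
    exact_mod_cast h3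
  rw [mem_Icc] at ha hb
  have ha1 : |(a : ℝ)| ≤ T := by
    rw [abs_le]
    exact ⟨by exact_mod_cast ha.1, by exact_mod_cast ha.2⟩
  have hb1 : |(b : ℝ)| ≤ T := by
    rw [abs_le]
    exact ⟨by exact_mod_cast hb.1, by exact_mod_cast hb.2⟩
  rw [abs_le] at ha1 hb1
  unfold nd
  constructor
  · refine (round_le _ (-(a / m + b / m))).trans ?_
    have e : (((a : ZMod m)).val : ℝ) / m + (((b : ZMod m)).val : ℝ) / m -
        ((-(a / m + b / m) : ℤ) : ℝ) = (a + b) / m := by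
      rw [key a, key b]
      push_cast
      field_simp
      ring
    rw [e, abs_div, abs_of_pos hm]
    refine div_le_div_of_nonneg_right ?_ hm.le
    rw [abs_le]
    constructor <;> linarith
  · refine (round_le _ (-(a / m - b / m))).trans ?_
    have e : (((a : ZMod m)).val : ℝ) / m - (((b : ZMod m)).val : ℝ) / m -
        ((-(a / m - b / m) : ℤ) : ℝ) = (a - b) / m := by
      rw [key a, key b]
      push_cast
      field_simp
      ring
    rw [e, abs_div, abs_of_pos hm]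
    refine div_le_div_of_nonneg_right ?_ hm.le
    rw [abs_le]
    constructor <;> linarith

theorem dJ_lower (hDJ : Stmt_DJ) {J : ℕ} {x w u : ℝ} (hx : nd x ≤ w) (hu : 2 ^ J * w ≤ u) :
    1 - 2 * u ^ 2 ≤ |dJ J x| := by
  refine le_trans ?_ (hDJ.2.2 J x)
  have h0 : 0 ≤ 2 ^ J * nd x := by unfold nd; positivity
  have h1 : 2 ^ J * nd x ≤ u := (mul_le_mul_of_nonneg_left hx (by positivity)).trans hu
  nlinarith

theorem gg_lower (hDJ : Stmt_DJ) {R J m T : ℕ} [NeZero m] (hR : Even R) {u : ℝ}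
    (hu : 2 ^ J * (2 * T / m) ≤ u) (hRu : 24 * R * u ^ 2 ≤ 1) (hu1 : 2 * u ^ 2 ≤ 1)
    {p : ℤ × (Fin 3 → ℤ)} (hp : p ∈ bx T) : 1 / 2 ≤ gg R J (pt m p) := by
  obtain ⟨a, b⟩ := p
  unfold bx at hp
  rw [mem_product, Fintype.mem_piFinset] at hp
  have h1 : ∀ v : Fin 3, (1 - 2 * u ^ 2) ^ (2 * R) ≤
      (dJ J (((pt m (a, b)).1.val : ℝ) / m + (((pt m (a, b)).2 v).val : ℝ) / m) *
        dJ J (((pt m (a, b)).1.val : ℝ) / m - (((pt m (a, b)).2 v).val : ℝ) / m)) ^ R := by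
    intro v
    obtain ⟨h2, h3⟩ := nd_le (m := m) hp.1 (hp.2 v)
    have h4 := dJ_lower hDJ h2 hu
    have h5 := dJ_lower hDJ h3 hu
    rw [← hR.pow_abs, abs_mul]
    have h0 : 0 ≤ 1 - 2 * u ^ 2 := by linarith
    calc (1 - 2 * u ^ 2) ^ (2 * R) = ((1 - 2 * u ^ 2) * (1 - 2 * u ^ 2)) ^ R := by
          rw [pow_mul]; ring_nf
      _ ≤ _ := pow_le_pow_left₀ (by positivity) (mul_le_mul h4 h5 h0 (abs_nonneg _)) R
  have h0 : 0 ≤ 1 - 2 * u ^ 2 := by linarith
  unfold gg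
  calc (1 : ℝ) / 2 ≤ 1 + ((6 * R : ℕ) : ℝ) * (-(2 * u ^ 2)) := by push_cast; linarith
    _ ≤ (1 + -(2 * u ^ 2)) ^ (6 * R) := one_add_mul_le_pow (by linarith) _
    _ = ∏ _v : Fin 3, (1 - 2 * u ^ 2) ^ (2 * R) := by
        rw [prod_const, card_univ, Fintype.card_fin, ← pow_mul]
        congr 1
        ring
    _ ≤ _ := prod_le_prod (fun v _ => by positivity) fun v _ => h1 v

end F_LOWx

open F_LOWx in
theorem F_LOW (hINV : Stmt_INV) (hPH : Stmt_PH) (hDJ : Stmt_DJ) : Stmt_LOW := by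
  refine ⟨20000, 1, by norm_num, fun R J hR hRe hJ => ?_⟩
  set m : ℕ := 3 * R * J * 2 ^ J + 2 with hm
  have : NeZero m := ⟨by omega⟩
  have hm2 : (2 : ℝ) ≤ m := by
    have : 2 ≤ m := by omega
    exact_mod_cast this
  have hm0 : (0 : ℝ) < m := by linarith
  have hRr : (1 : ℝ) ≤ R := by exact_mod_cast hR
  have hinv := hINV R J m 0 1 (by
    intro h
    rw [kapL_eq]
    have hr := abs_kr h
    have h0 := abs_kv h 0
    have h1 := abs_kv h 1
    have h2 := abs_kv h 2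
    have hmm : ((m : ℕ) : ℤ) = 3 * R * J * 2 ^ J + 2 := by rw [hm]; push_cast; ring
    refine ⟨?_, ?_, ?_, ?_⟩
    · rw [mk4_re, Quaternion.re_one, add_sub_cancel_left, hmm]
      linarith
    · rw [mk4_imI, Quaternion.imI_one, sub_zero, hmm]
      linarith
    · rw [mk4_imJ, Quaternion.imJ_one, sub_zero, hmm]
      linarith
    · rw [mk4_imK, Quaternion.imK_one, sub_zero, hmm]
      linarith)
  have hsum : ∑ t : Fr m, Complex.exp (((-(2 * Real.pi * dotq t 1) : ℝ) : ℂ) * Complex.I) *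
      igd (0 : Lab R J) t = ((∑ t : Fr m, gg R J t : ℝ) : ℂ) := by
    rw [Complex.ofReal_sum]
    refine sum_congr rfl fun t _ => ?_
    rw [dotq_one, igd_zero hPH]
    simp
  rw [hsum] at hinv
  have hre : (m : ℝ) ^ 4 * (cnt (0 : Lab R J) 1).re = 4 ^ (3 * R * J) * ∑ t : Fr m, gg R J t := by
    have h1 := congrArg Complex.re hinv
    have e1 : (m : ℂ) ^ 4 = (((m : ℝ) ^ 4 : ℝ) : ℂ) := by push_cast; rfl
    have e2 : (4 : ℂ) ^ (3 * R * J) = (((4 : ℝ) ^ (3 * R * J) : ℝ) : ℂ) := by push_cast; rfl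
    rw [e1, e2, ← Complex.ofReal_mul, Complex.re_ofReal_mul, Complex.ofReal_re] at h1
    exact h1
  -- the box
  set B : ℝ := 10 * 2 ^ J * Real.sqrt R with hB
  have hs1 : 1 ≤ Real.sqrt R := by rw [Real.one_le_sqrt]; exact hRr
  have h2J : (2 : ℝ) ≤ 2 ^ J := by
    calc (2 : ℝ) = 2 ^ 1 := (pow_one 2).symm
      _ ≤ 2 ^ J := pow_le_pow_right₀ (by norm_num) hJ
  have hB20 : 20 ≤ B := by rw [hB]; nlinarith
  have hB0 : 0 < B := by linarith
  set T : ℕ := ⌊(m : ℝ) / B⌋₊ with hT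
  have hT1 : (T : ℝ) ≤ m / B := Nat.floor_le (by positivity)
  have hT2 : (m : ℝ) / B < T + 1 := Nat.lt_floor_add_one _
  have hTm : 2 * T < m := by
    have h1 : (m : ℝ) / B ≤ m / 20 := div_le_div_of_nonneg_left hm0.le (by norm_num) hB20
    have h2 : (2 * (T : ℝ)) < m := by linarith
    exact_mod_cast h2
  set u : ℝ := 1 / (5 * Real.sqrt R) with hu
  have hss : Real.sqrt R * Real.sqrt R = R := Real.mul_self_sqrt (by linarith)
  have hu2 : u ^ 2 = 1 / (25 * R) := by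
    rw [hu, div_pow, mul_pow, one_pow, sq (Real.sqrt R), hss]
    norm_num
  have hlow : ∀ p ∈ bx T, 1 / 2 ≤ gg R J (pt m p) := by
    intro p hp
    refine gg_lower hDJ hRe (u := u) ?_ ?_ ?_ hp
    · have h1 : 2 ^ J * (2 * (T : ℝ) / m) ≤ 2 ^ J * (2 * (m / B) / m) := by
        gcongr
      refine h1.trans (le_of_eq ?_)
      rw [hu, hB]
      field_simp
      ring
    · rw [hu2]
      have : 24 * (R : ℝ) * (1 / (25 * R)) = 24 / 25 := by field_simp
      rw [this]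
      norm_num
    · rw [hu2, ← mul_div_assoc, div_le_one (by positivity)]
      linarith
  have hsumlow : (1 / 2 : ℝ) * (2 * T + 1) ^ 4 ≤ ∑ t : Fr m, gg R J t := by
    calc (1 / 2 : ℝ) * (2 * T + 1) ^ 4 = ∑ _p ∈ bx T, (1 / 2 : ℝ) := by
          rw [sum_const, card_bx, nsmul_eq_mul]
          push_cast
          ring
      _ ≤ ∑ p ∈ bx T, gg R J (pt m p) := sum_le_sum hlow
      _ = ∑ t ∈ (bx T).image (pt m), gg R J t := (sum_image (pt_inj hTm)).symm
      _ ≤ ∑ t : Fr m, gg R J t :=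
          sum_le_sum_of_subset_of_nonneg (subset_univ _) fun t _ _ => gg_nonneg hRe t
  have h4 : ((m : ℝ) / B) ^ 4 ≤ (2 * T + 1) ^ 4 := by
    refine pow_le_pow_left₀ (by positivity) ?_ 4
    have : (0 : ℝ) ≤ T := Nat.cast_nonneg T
    linarith
  have hB4 : B ^ 4 = 10000 * ((R : ℝ) ^ 2 * 2 ^ (4 * J)) := by
    have e1 : Real.sqrt R ^ 4 = (R : ℝ) ^ 2 := by
      rw [show (4 : ℕ) = 2 * 2 from rfl, pow_mul, Real.sq_sqrt (by linarith)]
    rw [hB, mul_pow, mul_pow, e1, ← pow_mul, mul_comm J 4]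
    ring
  have hmain : (1 / 2 : ℝ) * ((m : ℝ) ^ 4 / B ^ 4) ≤ ∑ t : Fr m, gg R J t := by
    rw [← div_pow]
    linarith
  have hfin : (m : ℝ) ^ 4 * Zs R J ≤ (m : ℝ) ^ 4 * (20000 * (cnt (0 : Lab R J) 1).re) := by
    have e1 : (m : ℝ) ^ 4 * (20000 * (cnt (0 : Lab R J) 1).re) =
        20000 * (4 ^ (3 * R * J) * ∑ t : Fr m, gg R J t) := by
      rw [← hre]; ring
    rw [e1]
    have h5 : 20000 * ((4 : ℝ) ^ (3 * R * J) * ((1 / 2 : ℝ) * ((m : ℝ) ^ 4 / B ^ 4))) ≤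
        20000 * (4 ^ (3 * R * J) * ∑ t : Fr m, gg R J t) := by
      gcongr
    refine le_trans (le_of_eq ?_) h5
    rw [hB4]
    unfold Zs
    have hR2 : (R : ℝ) ^ 2 * 2 ^ (4 * J) ≠ 0 := by positivity
    field_simp
    norm_num
  exact le_of_mul_le_mul_left hfin (by positivity)

end BQA.F
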