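import Mathlib
import Pool.Agent.BQ.FSt2

/-!
# BQ, block F: a numerical bound
-/

set_option autoImplicit false

namespace BQA.F

open Finset Filter Topology

theorem F_NUM : Stmt_NUM := by
  have ht : Tendsto (fun n : ℕ => (n : ℝ) ^ 12 * (1 / 2 : ℝ) ^ n) atTop (𝓝 0) :=
    tendsto_pow_const_mul_const_pow_of_abs_lt_one 12 (by norm_num [abs_of_pos])
  obtain ⟨C0, hC0⟩ := ht.bddAbove_range
  have hC : ∀ n : ℕ, (n : ℝ) ^ 12 * (1 / 2 : ℝ) ^ n ≤ C0 := fun n => hC0 ⟨n, rfl⟩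
  have hC00 : 0 ≤ C0 := by
    have := hC 0
    norm_num at this
    exact this
  refine ⟨2 * 1000 ^ 12 * C0 + 1, by nlinarith, fun R J hRJ => ?_⟩
  obtain ⟨k, hk⟩ : ∃ k, k = R / 1000 := ⟨_, rfl⟩
  have h1 : 125 * k ≤ R / 8 := by omega
  have h2 : J ≤ k := by omega
  have h3 : R ≤ 1000 * (k + 1) := by omega
  have e1 : (4 / 5 : ℝ) ^ (R / 8) ≤ (4 / 5) ^ (125 * k) :=
    pow_le_pow_of_le_one (by norm_num) (by norm_num) h1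
  have e2 : (32 : ℝ) ^ J ≤ 32 ^ k := pow_le_pow_right₀ (by norm_num) h2
  have e3 : (R : ℝ) ^ 12 ≤ (1000 * ((k : ℝ) + 1)) ^ 12 := by
    refine pow_le_pow_left₀ (by positivity) ?_ 12
    exact_mod_cast h3
  have e4 : (4 / 5 : ℝ) ^ (125 * k) * 32 ^ k ≤ (1 / 2) ^ k := by
    rw [pow_mul, ← mul_pow]
    refine pow_le_pow_left₀ (by positivity) ?_ k
    norm_num
  have e5 : ((1 : ℝ) / 2) ^ k = 2 * (1 / 2) ^ (k + 1) := by
    rw [pow_succ]; ring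
  have h4 := hC (k + 1)
  push_cast at h4
  calc (4 / 5 : ℝ) ^ (R / 8) * 32 ^ J * (R : ℝ) ^ 12 ≤
        (4 / 5 : ℝ) ^ (125 * k) * 32 ^ k * (1000 * ((k : ℝ) + 1)) ^ 12 := by gcongr
    _ ≤ (1 / 2 : ℝ) ^ k * (1000 * ((k : ℝ) + 1)) ^ 12 := by gcongr
    _ = 2 * 1000 ^ 12 * (((k : ℝ) + 1) ^ 12 * (1 / 2) ^ (k + 1)) := by rw [e5, mul_pow]; ring
    _ ≤ 2 * 1000 ^ 12 * C0 := by gcongr
    _ ≤ 2 * 1000 ^ 12 * C0 + 1 := by linarith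

end BQA.F
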