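import Mathlib
import Pool.Agent.BQ.FSt2

/-!
# BQ, block F: parity characters do not change `cnt`
-/

set_option autoImplicit false

namespace BQA.F

open Finset Quaternion

namespace F_SHFx

theorem chi_zero {R J : ℕ} (h : Lab R J) : chi (0 : Lab R J) h = 1 := by
  unfold chi
  refine prod_eq_one fun c _ => ?_
  simp

theorem chi_sum (hPAR : Stmt_PAR) {R J : ℕ} {κ : Type*} (s : Finset κ) (f : κ → Lab R J)
    (h : Lab R J) : chi (∑ v ∈ s, f v) h = ∏ v ∈ s, chi (f v) h := by
  classical
  induction s using Finset.induction_on with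
  | empty => simp [chi_zero]
  | insert a s ha ih => rw [sum_insert ha, prod_insert ha, hPAR.2.2.2.1, ih]

end F_SHFx

open F_SHFx in
theorem F_SHF (hPAR : Stmt_PAR) : Stmt_SHF := by
  intro R J ψ e q hJ hq
  unfold cnt
  refine sum_congr rfl fun h hh => ?_
  rw [mem_filter] at hh
  have hE : h ∈ LabE R J := hPAR.2.1 R J h hJ (by rw [hh.2]; exact hq)
  have h1 := (hPAR.2.2.1 R J h).1 hE
  have h2 : chi (pcs e) h = 1 := by
    unfold pcs
    rw [chi_sum hPAR]
    refine prod_eq_one fun v _ => ?_
    split_ifs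
    · exact h1 v
    · exact chi_zero h
  rw [hPAR.2.2.2.1, h2, mul_one]

end BQA.F
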