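import Pool.Agent.BQ.F_Sw
import Pool.Agent.BQ.FSt2
import Pool.Agent.BQ.F_LOW
import Pool.Agent.BQ.F_CLS
import Pool.Agent.BQ.F_SHF
import Pool.Agent.BQ.F_NUM

/-!
# BQ, block F: the fibre sums are almost constant
-/

set_option autoImplicit false

namespace BQA.F

open Finset Quaternion

namespace F_LIPx

open F_LOWx (abs_kr abs_kv)

/-- all coordinates of a quaternion of norm at most `b ^ 2` are bounded by `b` -/
theorem coord_le {q : ℍ[ℤ]} {b : ℝ} (hb : 0 ≤ b) (h : ((normSq q : ℤ) : ℝ) ≤ b ^ 2) :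
    |(q.re : ℝ)| ≤ b ∧ |(q.imI : ℝ)| ≤ b ∧ |(q.imJ : ℝ)| ≤ b ∧ |(q.imK : ℝ)| ≤ b := by
  rw [Quaternion.normSq_def'] at h
  push_cast at h
  refine ⟨abs_le_of_sq_le_sq ?_ hb, abs_le_of_sq_le_sq ?_ hb, abs_le_of_sq_le_sq ?_ hb,
    abs_le_of_sq_le_sq ?_ hb⟩ <;>
  nlinarith [sq_nonneg (q.re : ℝ), sq_nonneg (q.imI : ℝ), sq_nonneg (q.imJ : ℝ),
    sq_nonneg (q.imK : ℝ)]

theorem int_le {x : ℤ} {b : ℝ} {J : ℕ} (h : |(x : ℝ)| ≤ b) (hb : b ≤ 2 ^ J) : |x| ≤ 2 ^ J := by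
  have h1 : |(x : ℝ)| ≤ 2 ^ J := h.trans hb
  exact_mod_cast h1

theorem bounds {R J m : ℕ} (hm : ((m : ℕ) : ℤ) ≥ 3 * R * J * 2 ^ J + 2 ^ J + 2) (q : ℍ[ℤ])
    (h0 : |q.re| ≤ 2 ^ J) (h1 : |q.imI| ≤ 2 ^ J) (h2 : |q.imJ| ≤ 2 ^ J) (h3 : |q.imK| ≤ 2 ^ J)
    (h : Lab R J) : |(kapL h).re - q.re| < m ∧ |(kapL h).imI - q.imI| < m ∧
    |(kapL h).imJ - q.imJ| < m ∧ |(kapL h).imK - q.imK| < m := by
  rw [kapL_eq]
  have hr := abs_kr h
  have k0 := abs_kv h 0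
  have k1 := abs_kv h 1
  have k2 := abs_kv h 2
  rw [mk4_re, mk4_imI, mk4_imJ, mk4_imK]
  rw [abs_le] at h0 h1 h2 h3 hr k0 k1 k2
  refine ⟨?_, ?_, ?_, ?_⟩ <;> rw [abs_lt] <;> constructor <;> linarith [hr.1, hr.2, k0.1, k0.2,
    k1.1, k1.2, k2.1, k2.2, h0.1, h0.2, h1.1, h1.2, h2.1, h2.2, h3.1, h3.2]

theorem half {x y : ℤ} {b : ℝ} (h : Even (x - y)) (hx : |(x : ℝ)| ≤ b) (hy : |(y : ℝ)| ≤ b) :
    ∃ r : ℤ, ((x : ℝ) - y) = 2 * r ∧ |(r : ℝ)| ≤ b := by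
  obtain ⟨r, hr⟩ := h
  have h1 : ((x : ℝ) - y) = 2 * r := by
    have : ((x - y : ℤ) : ℝ) = ((r + r : ℤ) : ℝ) := by rw [hr]
    push_cast at this
    linarith
  refine ⟨r, h1, ?_⟩
  rw [abs_le] at hx hy ⊢
  constructor <;> linarith [hx.1, hx.2, hy.1, hy.2]

/-- the difference of the phases -/
theorem phase {m : ℕ} [NeZero m] (J : ℕ) {q q' : ℍ[ℤ]} {b : ℝ} (hb : 0 ≤ b) (hq : InL1 q)
    (hq' : InL1 q') (h : ((normSq q : ℤ) : ℝ) ≤ b ^ 2) (h' : ((normSq q' : ℤ) : ℝ) ≤ b ^ 2)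
    (t : Fr m) : nd (dotq t q - dotq t q') ≤ 8 * b * US J t / 2 ^ J := by
  obtain ⟨a0, a1, a2, a3⟩ := coord_le hb h
  obtain ⟨b0, b1, b2, b3⟩ := coord_le hb h'
  obtain ⟨r0, e0, l0⟩ := half (hq.1.sub_odd hq'.1) a0 b0
  obtain ⟨r1, e1, l1⟩ := half (hq.2.1.sub hq'.2.1) a1 b1
  obtain ⟨r2, e2, l2⟩ := half (hq.2.2.1.sub hq'.2.2.1) a2 b2
  obtain ⟨r3, e3, l3⟩ := half (hq.2.2.2.sub hq'.2.2.2) a3 b3
  have hm : (m : ℝ) ≠ 0 := by exact_mod_cast NeZero.ne m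
  have key : dotq t q - dotq t q' = r0 * ((fa t + fb t 0) + (fa t - fb t 0)) +
      r1 * ((fa t + fb t 0) - (fa t - fb t 0)) + r2 * ((fa t + fb t 1) - (fa t - fb t 1)) +
      r3 * ((fa t + fb t 2) - (fa t - fb t 2)) := by
    unfold dotq fa fb
    have : ((t.1.val : ℝ) * (q.re - 1) + (t.2 0).val * q.imI + (t.2 1).val * q.imJ +
        (t.2 2).val * q.imK) / m - ((t.1.val : ℝ) * (q'.re - 1) + (t.2 0).val * q'.imI +
        (t.2 1).val * q'.imJ + (t.2 2).val * q'.imK) / m = ((t.1.val : ℝ) * ((q.re : ℝ) - q'.re) +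
        (t.2 0).val * ((q.imI : ℝ) - q'.imI) + (t.2 1).val * ((q.imJ : ℝ) - q'.imJ) +
        (t.2 2).val * ((q.imK : ℝ) - q'.imK)) / m := by ring
    rw [this, e0, e1, e2, e3]
    field_simp
    ring
  have hp : (0 : ℝ) < 2 ^ J := by positivity
  have s0 := nd_sum_le J t 0
  have s1 := nd_sum_le J t 1
  have s2 := nd_sum_le J t 2
  have one : ∀ (r : ℤ) (x S : ℝ), |(r : ℝ)| ≤ b → nd x ≤ S → 2 ^ J * S ≤ 2 * US J t →
      nd (r * x) ≤ b * (2 * US J t / 2 ^ J) := by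
    intro r x S hr hx hS
    refine (nd_int_mul r x).trans ?_
    refine mul_le_mul hr ?_ (nd_nonneg _) hb
    rw [le_div_iff₀ hp]
    nlinarith
  have c0 := one r0 _ _ l0 (nd_add _ _) s0
  have c1 := one r1 _ _ l1 (nd_sub _ _) s0
  have c2 := one r2 _ _ l2 (nd_sub _ _) s1
  have c3 := one r3 _ _ l3 (nd_sub _ _) s2
  rw [key]
  refine (nd_add _ _).trans ((add_le_add ((nd_add _ _).trans (add_le_add ((nd_add _ _).trans
    (add_le_add c0 c1)) c2)) c3).trans (le_of_eq ?_))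
  ring

/-- the difference of two sums over the fibres -/
theorem diff {R J m : ℕ} [NeZero m] (hINV : Stmt_INV) (ψ : Lab R J) (q q' : ℍ[ℤ])
    (hq : ∀ h : Lab R J, |(kapL h).re - q.re| < m ∧ |(kapL h).imI - q.imI| < m ∧
      |(kapL h).imJ - q.imJ| < m ∧ |(kapL h).imK - q.imK| < m)
    (hq' : ∀ h : Lab R J, |(kapL h).re - q'.re| < m ∧ |(kapL h).imI - q'.imI| < m ∧
      |(kapL h).imJ - q'.imJ| < m ∧ |(kapL h).imK - q'.imK| < m) :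
    (m : ℝ) ^ 4 * ‖cnt ψ q - cnt ψ q'‖ ≤ (4 : ℝ) ^ (3 * R * J) * ∑ t : Fr m,
      ‖Complex.exp (((-(2 * Real.pi * dotq t q) : ℝ) : ℂ) * Complex.I) -
        Complex.exp (((-(2 * Real.pi * dotq t q') : ℝ) : ℂ) * Complex.I)‖ * ‖igd ψ t‖ := by
  have h1 := hINV R J m ψ q hq
  have h2 := hINV R J m ψ q' hq'
  have h3 : (m : ℂ) ^ 4 * (cnt ψ q - cnt ψ q') = (4 : ℂ) ^ (3 * R * J) * ∑ t : Fr m,
      (Complex.exp (((-(2 * Real.pi * dotq t q) : ℝ) : ℂ) * Complex.I) -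
        Complex.exp (((-(2 * Real.pi * dotq t q') : ℝ) : ℂ) * Complex.I)) * igd ψ t := by
    rw [mul_sub, h1, h2, ← mul_sub, ← sum_sub_distrib]
    congr 1
    refine sum_congr rfl fun t _ => ?_
    rw [sub_mul]
  have h4 : (m : ℝ) ^ 4 * ‖cnt ψ q - cnt ψ q'‖ = ‖(m : ℂ) ^ 4 * (cnt ψ q - cnt ψ q')‖ := by
    rw [norm_mul, norm_pow, Complex.norm_natCast]
  rw [h4, h3, norm_mul, norm_pow]
  have h5 : ‖(4 : ℂ)‖ = 4 := by norm_num
  rw [h5]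
  refine mul_le_mul_of_nonneg_left ?_ (by positivity)
  refine (norm_sum_le _ _).trans (sum_le_sum fun t _ => ?_)
  rw [norm_mul]

theorem card_Fr (m : ℕ) [NeZero m] : (Fintype.card (Fr m) : ℝ) = (m : ℝ) ^ 4 := by
  rw [Fintype.card_prod, Fintype.card_fun, ZMod.card, Fintype.card_fin]
  push_cast
  ring

theorem exp_sub_le_two (a b : ℝ) : ‖Complex.exp (((-(2 * Real.pi * a) : ℝ) : ℂ) * Complex.I) -
    Complex.exp (((-(2 * Real.pi * b) : ℝ) : ℂ) * Complex.I)‖ ≤ 2 := by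
  refine (norm_sub_le _ _).trans ?_
  rw [Complex.norm_exp_ofReal_mul_I, Complex.norm_exp_ofReal_mul_I]
  norm_num

end F_LIPx

open F_LIPx

theorem F_LIP (hINV : Stmt_INV) (hPH : Stmt_PH) (hDJ : Stmt_DJ) (hSM : Stmt_SM)
    (hPAR : Stmt_PAR) : Stmt_LIP := by
  obtain ⟨C1, R1, hC1, h1⟩ := F_SUMW hDJ hSM
  obtain ⟨C2, hC2, h2⟩ := F_NUM
  have hpi := Real.pi_pos
  have hD2 : 0 ≤ 4 * Real.pi * C1 * C1 := by positivity
  refine ⟨2 * C2 + 4 * Real.pi * C1 * C1, max R1 8, by linarith, ?_⟩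
  intro R J hR hJ hRJ ψ q q' b hq hq' hb hbJ hn hn'
  have hR1 : R1 ≤ R := (le_max_left _ _).trans hR
  have hR8 : 8 ≤ R := (le_max_right _ _).trans hR
  have hRr : (1 : ℝ) ≤ R := by exact_mod_cast (by omega : 1 ≤ R)
  have hb0 : 0 ≤ b := by linarith
  have hR0 : (0 : ℝ) < R := by linarith
  obtain ⟨e, he⟩ := F_CLS hPH R J hJ hR8 ψ
  rw [← F_SHF hPAR R J ψ e q hJ hq, ← F_SHF hPAR R J ψ e q' hJ hq']
  obtain ⟨ψ', hψ'⟩ : ∃ ψ', ψ' = ψ + pcs e := ⟨_, rfl⟩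
  rw [← hψ'] at he ⊢
  obtain ⟨m, hm⟩ : ∃ m, m = 2 * (3 * R * J * 2 ^ J + 2 ^ J + 1) + 1 := ⟨_, rfl⟩
  have hm0 : NeZero m := ⟨by omega⟩
  have hmodd : Odd m := ⟨_, hm⟩
  have hmr : (0 : ℝ) < m := by
    have : 0 < m := by omega
    exact_mod_cast this
  have hmge : ((m : ℕ) : ℤ) ≥ 3 * R * J * 2 ^ J + 2 ^ J + 2 := by
    have : m ≥ 3 * R * J * 2 ^ J + 2 ^ J + 2 := by
      rw [hm]
      have : 0 ≤ 3 * R * J * 2 ^ J := Nat.zero_le _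
      omega
    exact_mod_cast this
  have hmR : 2 ^ J * R ≤ m := by
    have h3 : 2 ^ J * R ≤ 3 * R * J * 2 ^ J := by
      calc 2 ^ J * R = 1 * (2 ^ J * R) := by ring
        _ ≤ (3 * J) * (2 ^ J * R) := Nat.mul_le_mul_right _ (by omega)
        _ = 3 * R * J * 2 ^ J := by ring
    rw [hm]
    refine h3.trans ?_
    generalize 3 * R * J * 2 ^ J = A
    generalize 2 ^ J = B
    omega
  obtain ⟨a0, a1, a2, a3⟩ := coord_le hb0 hn
  obtain ⟨b0, b1, b2, b3⟩ := coord_le hb0 hn'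
  have hd := diff (m := m) hINV ψ' q q'
    (bounds hmge q (int_le a0 hbJ) (int_le a1 hbJ) (int_le a2 hbJ) (int_le a3 hbJ))
    (bounds hmge q' (int_le b0 hbJ) (int_le b1 hbJ) (int_le b2 hbJ) (int_le b3 hbJ))
  have hZ : (4 : ℝ) ^ (3 * R * J) = Zs R J * ((R : ℝ) ^ 2 * 2 ^ (4 * J)) := by
    unfold Zs
    field_simp
  have hZ0 : 0 ≤ Zs R J := by unfold Zs; positivity
  have hbz : 0 ≤ b / 2 ^ J * Zs R J := by positivity
  have hm4 : (0 : ℝ) < (m : ℝ) ^ 4 := by positivity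
  rcases he with he | he
  · -- many dirty copies
    have hs : ∑ t : Fr m, ‖Complex.exp (((-(2 * Real.pi * dotq t q) : ℝ) : ℂ) * Complex.I) -
        Complex.exp (((-(2 * Real.pi * dotq t q') : ℝ) : ℂ) * Complex.I)‖ * ‖igd ψ' t‖ ≤
        (m : ℝ) ^ 4 * (2 * (4 / 5 : ℝ) ^ (R / 8)) := by
      refine (sum_le_sum fun t _ => mul_le_mul (exp_sub_le_two _ _) (he m t) (norm_nonneg _)
        (by norm_num)).trans ?_
      rw [sum_const, card_univ, nsmul_eq_mul, card_Fr]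
    have h3 : ‖cnt ψ' q - cnt ψ' q'‖ ≤ (4 : ℝ) ^ (3 * R * J) * (2 * (4 / 5 : ℝ) ^ (R / 8)) := by
      have h4 := hd.trans (mul_le_mul_of_nonneg_left hs (by positivity))
      have h5 : (m : ℝ) ^ 4 * ‖cnt ψ' q - cnt ψ' q'‖ ≤
          (m : ℝ) ^ 4 * ((4 : ℝ) ^ (3 * R * J) * (2 * (4 / 5 : ℝ) ^ (R / 8))) := by
        refine h4.trans (le_of_eq ?_)
        ring
      exact le_of_mul_le_mul_left h5 hm4
    have h6 := h2 R J hRJ
    have h7 : (4 / 5 : ℝ) ^ (R / 8) * (2 ^ J * ((R : ℝ) ^ 2 * 2 ^ (4 * J))) ≤ C2 := by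
      refine le_trans ?_ h6
      have h8 : (32 : ℝ) ^ J = 2 ^ J * 2 ^ (4 * J) := by
        rw [← pow_add, show J + 4 * J = 5 * J by ring, pow_mul]
        norm_num
      rw [h8, mul_assoc]
      refine mul_le_mul_of_nonneg_left ?_ (by positivity)
      have h9 : (R : ℝ) ^ 2 ≤ (R : ℝ) ^ 12 := pow_le_pow_right₀ hRr (by norm_num)
      calc 2 ^ J * ((R : ℝ) ^ 2 * 2 ^ (4 * J)) = (2 ^ J * 2 ^ (4 * J)) * (R : ℝ) ^ 2 := by ring
        _ ≤ (2 ^ J * 2 ^ (4 * J)) * (R : ℝ) ^ 12 := mul_le_mul_of_nonneg_left h9 (by positivity)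
    have hp : (0 : ℝ) < 2 ^ J := by positivity
    have h10 : (4 / 5 : ℝ) ^ (R / 8) * ((R : ℝ) ^ 2 * 2 ^ (4 * J)) ≤ C2 * (b / 2 ^ J) := by
      have h11 : (4 / 5 : ℝ) ^ (R / 8) * ((R : ℝ) ^ 2 * 2 ^ (4 * J)) ≤ C2 / 2 ^ J := by
        rw [le_div_iff₀ hp]
        refine le_trans (le_of_eq ?_) h7
        ring
      refine h11.trans ?_
      rw [mul_div_assoc']
      refine div_le_div_of_nonneg_right ?_ hp.le
      nlinarith
    have h12 : (4 : ℝ) ^ (3 * R * J) * (2 * (4 / 5 : ℝ) ^ (R / 8)) ≤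
        2 * C2 * (b / 2 ^ J * Zs R J) := by
      rw [hZ]
      calc Zs R J * ((R : ℝ) ^ 2 * 2 ^ (4 * J)) * (2 * (4 / 5 : ℝ) ^ (R / 8)) =
          2 * Zs R J * ((4 / 5 : ℝ) ^ (R / 8) * ((R : ℝ) ^ 2 * 2 ^ (4 * J))) := by ring
        _ ≤ 2 * Zs R J * (C2 * (b / 2 ^ J)) := mul_le_mul_of_nonneg_left h10 (by positivity)
        _ = 2 * C2 * (b / 2 ^ J * Zs R J) := by ring
    refine (h3.trans h12).trans ?_
    have h13 : (2 * C2 + 4 * Real.pi * C1 * C1) * b / 2 ^ J * Zs R J =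
        2 * C2 * (b / 2 ^ J * Zs R J) + 4 * Real.pi * C1 * C1 * (b / 2 ^ J * Zs R J) := by ring
    rw [h13]
    have := mul_nonneg hD2 hbz
    linarith
  · -- few dirty copies
    have hS := h1 R J m 1 hR1 hJ hmodd hmR (by norm_num)
    obtain ⟨W, hW⟩ : ∃ W : Fr m → ℝ, ∀ t, W t = (|dJ J (fa t + fb t 0)| * |dJ J (fa t - fb t 0)| *
      |dJ J (fa t + fb t 1)| * |dJ J (fa t + fb t 2)|) ^ (R / 2) := ⟨fun t => _, fun t => rfl⟩
    have hW0 : ∀ t, 0 ≤ W t := fun t => by rw [hW]; positivity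
    have hs : ∑ t : Fr m, ‖Complex.exp (((-(2 * Real.pi * dotq t q) : ℝ) : ℂ) * Complex.I) -
        Complex.exp (((-(2 * Real.pi * dotq t q') : ℝ) : ℂ) * Complex.I)‖ * ‖igd ψ' t‖ ≤
        4 * Real.pi * (b / 2 ^ J) * ∑ t : Fr m, (4 * US J t) ^ 1 * W t := by
      rw [mul_sum]
      refine sum_le_sum fun t _ => ?_
      have g1 : ‖igd ψ' t‖ ≤ W t := by
        have := he m t 0 (Nat.zero_le _)
        rw [pow_zero, one_mul] at this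
        rw [hW]
        exact this
      have g2 := (norm_exp_sub_le (dotq t q) (dotq t q')).trans
        (mul_le_mul_of_nonneg_left (phase J hb0 hq hq' hn hn' t) (by positivity))
      refine (mul_le_mul g2 g1 (norm_nonneg _) ((norm_nonneg _).trans g2)).trans (le_of_eq ?_)
      ring
    have hS' : ∑ t : Fr m, (4 * US J t) ^ 1 * W t ≤
        C1 * Real.sqrt (C1 / R) ^ 1 * (m : ℝ) ^ 4 / ((R : ℝ) ^ 2 * 2 ^ (4 * J)) := by
      refine le_trans (le_of_eq ?_) hS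
      refine sum_congr rfl fun t _ => ?_
      rw [hW]
    have hsq : Real.sqrt (C1 / R) ≤ C1 := by
      rw [Real.sqrt_le_left (by linarith)]
      rw [div_le_iff₀ hR0]
      have : C1 ≤ C1 ^ 2 := by nlinarith
      nlinarith
    have hden : (0 : ℝ) < (R : ℝ) ^ 2 * 2 ^ (4 * J) := by positivity
    have hS2 : ∑ t : Fr m, (4 * US J t) ^ 1 * W t ≤
        C1 * C1 * (m : ℝ) ^ 4 / ((R : ℝ) ^ 2 * 2 ^ (4 * J)) := by
      refine hS'.trans (div_le_div_of_nonneg_right ?_ hden.le)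
      rw [pow_one]
      exact mul_le_mul_of_nonneg_right (mul_le_mul_of_nonneg_left hsq (by linarith)) hm4.le
    have h4 := hd.trans (mul_le_mul_of_nonneg_left (hs.trans (mul_le_mul_of_nonneg_left hS2
      (by positivity))) (by positivity))
    have h5 : (m : ℝ) ^ 4 * ‖cnt ψ' q - cnt ψ' q'‖ ≤
        (m : ℝ) ^ 4 * (4 * Real.pi * C1 * C1 * (b / 2 ^ J * Zs R J)) := by
      refine h4.trans (le_of_eq ?_)
      rw [hZ]
      field_simp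
    have h6 := le_of_mul_le_mul_left h5 hm4
    refine h6.trans ?_
    have h13 : (2 * C2 + 4 * Real.pi * C1 * C1) * b / 2 ^ J * Zs R J =
        2 * C2 * (b / 2 ^ J * Zs R J) + 4 * Real.pi * C1 * C1 * (b / 2 ^ J * Zs R J) := by ring
    rw [h13]
    have : 0 ≤ 2 * C2 * (b / 2 ^ J * Zs R J) := mul_nonneg (by linarith) hbz
    linarith

end BQA.F
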