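import Pool.Agent.BQ.FSt

/-!
# BQ, block F: the parity condition and the subgroup
-/

set_option autoImplicit false

namespace BQA.F

open Finset Quaternion

namespace F_PARx

theorem mem_LabE {R J : ℕ} (h : Lab R J) : h ∈ LabE R J ↔ ∀ v : Fin 3, par R J v h = 0 := by
  unfold LabE
  rw [AddSubgroup.mem_iInf]
  exact forall_congr' fun v => AddMonoidHom.mem_ker

theorem par_apply {R J : ℕ} (v : Fin 3) (h : Lab R J) :
    par R J v h = ∑ c : Fin R × Fin J, if (c.2 : ℕ) = 0 then
      (ZMod.castHom (by norm_num : 2 ∣ 4) (ZMod 2)) (h (v, c)) else 0 := by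
  unfold par
  rw [AddMonoidHom.finsetSum_apply]
  apply Finset.sum_congr rfl
  intro c _
  split_ifs
  · rfl
  · rfl

theorem cb_cast (s : ZMod 4) :
    ((cb s : ℤ) : ZMod 2) = (ZMod.castHom (by norm_num : 2 ∣ 4) (ZMod 2)) s := by
  fin_cases s <;> decide

theorem ca_cast (s : ZMod 4) :
    ((ca s : ℤ) : ZMod 2) = 1 - (ZMod.castHom (by norm_num : 2 ∣ 4) (ZMod 2)) s := by
  fin_cases s <;> decide

theorem two_pow_cast (j : ℕ) : (((2 : ℤ) ^ j : ℤ) : ZMod 2) = if j = 0 then 1 else 0 := by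
  rcases Nat.eq_zero_or_pos j with h | h
  · subst h; simp
  · rw [if_neg h.ne']
    push_cast
    have : (2 : ZMod 2) = 0 := by decide
    rw [this, zero_pow h.ne']

theorem kv_cast {R J : ℕ} (h : Lab R J) (v : Fin 3) : ((kv h v : ℤ) : ZMod 2) = par R J v h := by
  rw [par_apply]
  unfold kv
  rw [Int.cast_sum]
  apply Finset.sum_congr rfl
  intro c _
  rw [Int.cast_mul, two_pow_cast, cb_cast]
  split_ifs
  · rw [one_mul]
  · rw [zero_mul]

theorem kr_cast {R J : ℕ} (hJ : 1 ≤ J) (h : Lab R J) :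
    ((kr h : ℤ) : ZMod 2) = (3 * R : ℕ) - ∑ v : Fin 3, par R J v h := by
  unfold kr
  rw [Int.cast_sum, Fintype.sum_prod_type]
  have h1 : ∀ v : Fin 3, ∑ c : Fin R × Fin J,
      (((2 : ℤ) ^ (((v, c) : Idx R J).2.2 : ℕ) * ca (h (v, c)) : ℤ) : ZMod 2) =
      (R : ZMod 2) - par R J v h := by
    intro v
    rw [par_apply]
    have h2 : (R : ZMod 2) = ∑ c : Fin R × Fin J, if (c.2 : ℕ) = 0 then (1 : ZMod 2) else 0 := by
      rw [Fintype.sum_prod_type]
      have h3 : ∀ a : Fin R, ∑ b : Fin J, (if (b : ℕ) = 0 then (1 : ZMod 2) else 0) = 1 := by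
        intro a
        rw [Finset.sum_eq_single (⟨0, hJ⟩ : Fin J)]
        · simp
        · intro b _ hb
          rw [if_neg]
          intro h0
          apply hb
          exact Fin.ext h0
        · intro h0
          exact absurd (mem_univ _) h0
      rw [Finset.sum_congr rfl (fun a _ => h3 a)]
      simp
    rw [h2, ← Finset.sum_sub_distrib]
    apply Finset.sum_congr rfl
    intro c _
    rw [Int.cast_mul, two_pow_cast, ca_cast]
    split_ifs
    · rw [one_mul]
    · rw [zero_mul, sub_zero]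
  rw [Finset.sum_congr rfl (fun v _ => h1 v), Finset.sum_sub_distrib]
  simp

theorem even_iff (a : ℤ) : Even a ↔ ((a : ℤ) : ZMod 2) = 0 := by
  rw [ZMod.intCast_zmod_eq_zero_iff_dvd]
  exact even_iff_two_dvd

theorem inL1_iff {R J : ℕ} (h : Lab R J) : InL1 (kapL h) ↔
    Odd (1 + kr h) ∧ ∀ v : Fin 3, par R J v h = 0 := by
  rw [kapL_eq]
  unfold InL1
  rw [mk4_re, mk4_imI, mk4_imJ, mk4_imK, even_iff, even_iff, even_iff, kv_cast, kv_cast, kv_cast]
  constructor
  · rintro ⟨h1, h2, h3, h4⟩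
    refine ⟨h1, ?_⟩
    intro v
    fin_cases v
    · exact h2
    · exact h3
    · exact h4
  · rintro ⟨h1, h2⟩
    exact ⟨h1, h2 0, h2 1, h2 2⟩

theorem I_pow_mod (a b : ℕ) (h : a % 4 = b % 4) : Complex.I ^ a = Complex.I ^ b := by
  rw [← Nat.div_add_mod a 4, ← Nat.div_add_mod b 4, pow_add, pow_add, pow_mul, pow_mul,
    Complex.I_pow_four, one_pow, one_pow, h]

theorem I_add (x y : ZMod 4) : Complex.I ^ (x + y).val = Complex.I ^ x.val * Complex.I ^ y.val := by
  rw [← pow_add]
  apply I_pow_mod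
  rw [ZMod.val_add, Nat.mod_mod]

theorem chi_add_left {R J : ℕ} (ψ ψ' h : Lab R J) : chi (ψ + ψ') h = chi ψ h * chi ψ' h := by
  unfold chi
  rw [← Finset.prod_mul_distrib]
  apply Finset.prod_congr rfl
  intro c _
  rw [Pi.add_apply, add_mul, I_add]

theorem chi_add_right {R J : ℕ} (ψ h h' : Lab R J) : chi ψ (h + h') = chi ψ h * chi ψ h' := by
  unfold chi
  rw [← Finset.prod_mul_distrib]
  apply Finset.prod_congr rfl
  intro c _
  rw [Pi.add_apply, mul_add, I_add]

/-- the sign of an element of `ZMod 2` -/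
noncomputable def sg (x : ZMod 2) : ℂ := if x = 0 then 1 else -1

theorem sg_zero : sg 0 = 1 := by simp [sg]

theorem sg_add (x y : ZMod 2) : sg (x + y) = sg x * sg y := by
  have h : ∀ x y : ZMod 2, (x = 0 ∨ x = 1) ∧ (y = 0 ∨ y = 1) := by decide
  obtain ⟨hx | hx, hy | hy⟩ := h x y <;> subst hx <;> subst hy
  · simp [sg]
  · simp [sg]
  · simp [sg]
  · have : (1 : ZMod 2) + 1 = 0 := by decide
    rw [this]
    simp [sg]

theorem sg_sum {α : Type*} (s : Finset α) (f : α → ZMod 2) :
    sg (∑ i ∈ s, f i) = ∏ i ∈ s, sg (f i) := by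
  classical
  induction s using Finset.induction_on with
  | empty => simp [sg_zero]
  | insert a s ha ih => rw [sum_insert ha, prod_insert ha, sg_add, ih]

theorem I_two (s : ZMod 4) : Complex.I ^ (2 * s).val =
    sg ((ZMod.castHom (by norm_num : 2 ∣ 4) (ZMod 2)) s) := by
  fin_cases s
  · change Complex.I ^ 0 = sg 0
    rw [sg_zero, pow_zero]
  · change Complex.I ^ 2 = sg 1
    simp [sg]
  · change Complex.I ^ 0 = sg 0
    rw [sg_zero, pow_zero]
  · change Complex.I ^ 2 = sg 1
    simp [sg]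

theorem chi_pc {R J : ℕ} (v : Fin 3) (h : Lab R J) : chi (pc v) h = sg (par R J v h) := by
  rw [par_apply, sg_sum]
  unfold chi
  rw [Fintype.prod_prod_type, Finset.prod_eq_single v]
  · apply Finset.prod_congr rfl
    intro c _
    unfold pc
    by_cases h0 : (c.2 : ℕ) = 0
    · rw [if_pos ⟨rfl, h0⟩, if_pos h0, I_two]
    · rw [if_neg (fun h => h0 h.2), if_neg h0, zero_mul, ZMod.val_zero, pow_zero, sg_zero]
  · intro b _ hb
    apply Finset.prod_eq_one
    intro c _
    unfold pc
    rw [if_neg (fun h => hb h.1), zero_mul, ZMod.val_zero, pow_zero]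
  · intro h0
    exact absurd (mem_univ _) h0

end F_PARx

open F_PARx

theorem F_PAR : Stmt_PAR := by
  refine ⟨?_, ?_, ?_, fun R J => chi_add_left, fun R J => chi_add_right⟩
  · intro R J hR hJ h
    rw [mem_LabE, inL1_iff]
    constructor
    · intro hp
      refine ⟨?_, hp⟩
      have hk : ((kr h : ℤ) : ZMod 2) = 0 := by
        rw [kr_cast hJ, Finset.sum_eq_zero (fun v _ => hp v), sub_zero]
        obtain ⟨r, hr⟩ := hR
        rw [hr]
        have : (3 * (r + r) : ℕ) = 2 * (3 * r) := by ring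
        rw [this, Nat.cast_mul]
        have h2 : ((2 : ℕ) : ZMod 2) = 0 := by decide
        rw [h2, zero_mul]
      have he : Even (kr h) := (even_iff _).2 hk
      rw [add_comm]
      exact he.add_one
    · exact fun hp => hp.2
  · intro R J h hJ hL
    rw [mem_LabE]
    exact ((inL1_iff h).1 hL).2
  · intro R J h
    rw [mem_LabE]
    refine forall_congr' fun v => ?_
    rw [chi_pc]
    unfold sg
    split_ifs with h0
    · exact ⟨fun _ => rfl, fun _ => h0⟩
    · constructor
      · intro h1; exact absurd h1 h0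
      · intro h1
        exfalso
        have : (-1 : ℂ) ≠ 1 := by norm_num
        exact this h1

end BQA.F
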