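import Pool.Agent.BQ.FSt

/-!
# BQ, block F: one coordinate and one copy
-/

set_option autoImplicit false

namespace BQA.F.F_PHx

open Finset Complex

private lemma ecos (x : ℝ) : Complex.exp (((x : ℝ) : ℂ) * Complex.I) =
    ((Real.cos x : ℝ) : ℂ) + ((Real.sin x : ℝ) : ℂ) * Complex.I := by
  rw [Complex.exp_mul_I, Complex.ofReal_cos, Complex.ofReal_sin]

private lemma sum4 (f : ZMod 4 → ℂ) : ∑ s : ZMod 4, f s = f 0 + f 1 + f 2 + f 3 := by
  have h : (∑ s : ZMod 4, f s) = ∑ s : Fin 4, f s := rfl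
  rw [h, Fin.sum_univ_four]
  rfl

private lemma I3 : Complex.I ^ 3 = -Complex.I := by
  rw [pow_succ, Complex.I_sq]; ring

private lemma ph_eq (p : ZMod 4) (a b : ℝ) : ph p a b = (1 / 4) *
    (Complex.I ^ (p * 0).val * (((Real.cos (2 * Real.pi * a) : ℝ) : ℂ) +
        ((Real.sin (2 * Real.pi * a) : ℝ) : ℂ) * Complex.I) +
      Complex.I ^ (p * 1).val * (((Real.cos (2 * Real.pi * b) : ℝ) : ℂ) +
        ((Real.sin (2 * Real.pi * b) : ℝ) : ℂ) * Complex.I) +
      Complex.I ^ (p * 2).val * (((Real.cos (2 * Real.pi * a) : ℝ) : ℂ) -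
        ((Real.sin (2 * Real.pi * a) : ℝ) : ℂ) * Complex.I) +
      Complex.I ^ (p * 3).val * (((Real.cos (2 * Real.pi * b) : ℝ) : ℂ) -
        ((Real.sin (2 * Real.pi * b) : ℝ) : ℂ) * Complex.I)) := by
  unfold ph
  rw [sum4]
  have h0 : 2 * Real.pi * ((ca 0 : ℤ) * a + (cb 0 : ℤ) * b) = 2 * Real.pi * a := by
    have e1 : ca 0 = 1 := by decide
    have e2 : cb 0 = 0 := by decide
    rw [e1, e2]; push_cast; ring
  have h1 : 2 * Real.pi * ((ca 1 : ℤ) * a + (cb 1 : ℤ) * b) = 2 * Real.pi * b := by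
    have e1 : ca 1 = 0 := by decide
    have e2 : cb 1 = 1 := by decide
    rw [e1, e2]; push_cast; ring
  have h2 : 2 * Real.pi * ((ca 2 : ℤ) * a + (cb 2 : ℤ) * b) = -(2 * Real.pi * a) := by
    have e1 : ca 2 = -1 := by decide
    have e2 : cb 2 = 0 := by decide
    rw [e1, e2]; push_cast; ring
  have h3 : 2 * Real.pi * ((ca 3 : ℤ) * a + (cb 3 : ℤ) * b) = -(2 * Real.pi * b) := by
    have e1 : ca 3 = 0 := by decide
    have e2 : cb 3 = -1 := by decide
    rw [e1, e2]; push_cast; ring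
  rw [h0, h1, h2, h3, ecos, ecos, ecos, ecos, Real.cos_neg, Real.sin_neg, Real.cos_neg,
    Real.sin_neg]
  push_cast
  ring

private lemma v1 : ((0 : ZMod 4) * 0).val = 0 := by decide
private lemma w00 : ((0 : ZMod 4) * 0).val = 0 ∧ ((0 : ZMod 4) * 1).val = 0 ∧
    ((0 : ZMod 4) * 2).val = 0 ∧ ((0 : ZMod 4) * 3).val = 0 := by decide
private lemma w1 : ((1 : ZMod 4) * 0).val = 0 ∧ ((1 : ZMod 4) * 1).val = 1 ∧
    ((1 : ZMod 4) * 2).val = 2 ∧ ((1 : ZMod 4) * 3).val = 3 := by decide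
private lemma w2 : ((2 : ZMod 4) * 0).val = 0 ∧ ((2 : ZMod 4) * 1).val = 2 ∧
    ((2 : ZMod 4) * 2).val = 0 ∧ ((2 : ZMod 4) * 3).val = 2 := by decide
private lemma w3 : ((3 : ZMod 4) * 0).val = 0 ∧ ((3 : ZMod 4) * 1).val = 3 ∧
    ((3 : ZMod 4) * 2).val = 2 ∧ ((3 : ZMod 4) * 3).val = 1 := by decide

private lemma ph0 (a b : ℝ) : ph 0 a b =
    (((Real.cos (2 * Real.pi * a) + Real.cos (2 * Real.pi * b)) / 2 : ℝ) : ℂ) := by
  obtain ⟨e0, e1, e2, e3⟩ := w00
  rw [ph_eq, e0, e1, e2, e3]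
  push_cast
  ring

private lemma ph2 (a b : ℝ) : ph 2 a b =
    (((Real.cos (2 * Real.pi * a) - Real.cos (2 * Real.pi * b)) / 2 : ℝ) : ℂ) := by
  obtain ⟨e0, e1, e2, e3⟩ := w2
  rw [ph_eq, e0, e1, e2, e3, Complex.I_sq]
  push_cast
  ring

private lemma ph1 (a b : ℝ) : ph 1 a b =
    ((-(Real.sin (2 * Real.pi * b)) / 2 : ℝ) : ℂ) +
      ((Real.sin (2 * Real.pi * a) / 2 : ℝ) : ℂ) * Complex.I := by
  obtain ⟨e0, e1, e2, e3⟩ := w1
  rw [ph_eq, e0, e1, e2, e3, I3, Complex.I_sq, pow_one, pow_zero]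
  have hI : Complex.I * Complex.I = -1 := Complex.I_mul_I
  push_cast
  linear_combination (1 / 4 * (Complex.sin (2 * Real.pi * b) * 2) : ℂ) * hI

private lemma ph3 (a b : ℝ) : ph 3 a b =
    ((Real.sin (2 * Real.pi * b) / 2 : ℝ) : ℂ) +
      ((Real.sin (2 * Real.pi * a) / 2 : ℝ) : ℂ) * Complex.I := by
  obtain ⟨e0, e1, e2, e3⟩ := w3
  rw [ph_eq, e0, e1, e2, e3, I3, Complex.I_sq, pow_one, pow_zero]
  have hI : Complex.I * Complex.I = -1 := Complex.I_mul_I
  push_cast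
  linear_combination (-(1 / 4 * (Complex.sin (2 * Real.pi * b) * 2)) : ℂ) * hI

private lemma nrm (x y : ℝ) : ‖((x : ℝ) : ℂ) + ((y : ℝ) : ℂ) * Complex.I‖ ^ 2 = x ^ 2 + y ^ 2 := by
  rw [← Complex.normSq_eq_norm_sq, Complex.normSq_add_mul_I]

private lemma sq13 (p : ZMod 4) (a b : ℝ) (hp : p = 1 ∨ p = 3) : ‖ph p a b‖ ^ 2 =
    (Real.sin (2 * Real.pi * a) ^ 2 + Real.sin (2 * Real.pi * b) ^ 2) / 4 := by
  rcases hp with rfl | rfl
  · rw [ph1, nrm]; ring
  · rw [ph3, nrm]; ring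

private lemma zcases (p : ZMod 4) : p = 0 ∨ p = 1 ∨ p = 2 ∨ p = 3 := by
  fin_cases p
  · exact Or.inl rfl
  · exact Or.inr (Or.inl rfl)
  · exact Or.inr (Or.inr (Or.inl rfl))
  · exact Or.inr (Or.inr (Or.inr rfl))

private lemma sin_nd (x : ℝ) : |Real.sin (Real.pi * x)| ≤ 4 * nd x := by
  have h1 : |Real.sin (Real.pi * x)| = |Real.sin (Real.pi * (x - round x))| := by
    have h2 : Real.pi * (x - round x) = Real.pi * x - (round x : ℤ) * Real.pi := by ring
    rw [h2, Real.sin_sub_int_mul_pi, abs_mul]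
    rcases Int.even_or_odd (round x) with h | h
    · rw [h.neg_one_zpow]; simp
    · rw [h.neg_one_zpow]; simp
  rw [h1]
  have h3 : |Real.sin (Real.pi * (x - round x))| ≤ |Real.pi * (x - round x)| := by
    have := Real.abs_sin_le_abs (x := Real.pi * (x - round x))
    exact this
  refine h3.trans ?_
  rw [abs_mul, abs_of_pos Real.pi_pos]
  unfold nd
  exact mul_le_mul_of_nonneg_right Real.pi_le_four (abs_nonneg _)

private lemma nd_nonneg (x : ℝ) : 0 ≤ nd x := abs_nonneg _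

private lemma cc0 (a b : ℝ) : (Real.cos (2 * Real.pi * a) + Real.cos (2 * Real.pi * b)) / 2 =
    Real.cos (Real.pi * (a + b)) * Real.cos (Real.pi * (a - b)) := by
  have h1 : 2 * Real.pi * a = Real.pi * (a + b) + Real.pi * (a - b) := by ring
  have h2 : 2 * Real.pi * b = Real.pi * (a + b) - Real.pi * (a - b) := by ring
  rw [h1, h2, Real.cos_add, Real.cos_sub]
  ring

private lemma cc2 (a b : ℝ) : (Real.cos (2 * Real.pi * a) - Real.cos (2 * Real.pi * b)) / 2 =
    -(Real.sin (Real.pi * (a + b)) * Real.sin (Real.pi * (a - b))) := by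
  have h1 : 2 * Real.pi * a = Real.pi * (a + b) + Real.pi * (a - b) := by ring
  have h2 : 2 * Real.pi * b = Real.pi * (a + b) - Real.pi * (a - b) := by ring
  rw [h1, h2, Real.cos_add, Real.cos_sub]
  ring

private lemma n0 (a b : ℝ) : ‖ph 0 a b‖ =
    |Real.cos (Real.pi * (a + b)) * Real.cos (Real.pi * (a - b))| := by
  rw [ph0, cc0, Complex.norm_real, Real.norm_eq_abs]

private lemma n2 (a b : ℝ) : ‖ph 2 a b‖ =
    |Real.sin (Real.pi * (a + b)) * Real.sin (Real.pi * (a - b))| := by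
  rw [ph2, cc2, Complex.norm_real, Real.norm_eq_abs, abs_neg]

private lemma sinsum (a b : ℝ) : Real.sin (2 * Real.pi * a) ^ 2 + Real.sin (2 * Real.pi * b) ^ 2 ≤
    2 * (Real.sin (Real.pi * (a + b)) ^ 2 + Real.sin (Real.pi * (a - b)) ^ 2) := by
  have h1 : 2 * Real.pi * a = Real.pi * (a + b) + Real.pi * (a - b) := by ring
  have h2 : 2 * Real.pi * b = Real.pi * (a + b) - Real.pi * (a - b) := by ring
  rw [h1, h2, Real.sin_add, Real.sin_sub]
  have e1 := Real.sin_sq_add_cos_sq (Real.pi * (a + b))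
  have e2 := Real.sin_sq_add_cos_sq (Real.pi * (a - b))
  have e3 := sq_nonneg (Real.sin (Real.pi * (a + b)) * Real.sin (Real.pi * (a - b)))
  nlinarith [e1, e2, e3]

private lemma two_terms {J : ℕ} (f : Fin J → ℝ) (h0 : ∀ j, 0 ≤ f j) (h1 : ∀ j, f j ≤ 1)
    (i j : Fin J) (hij : i ≠ j) : ∏ k, f k ≤ f i * f j := by
  classical
  rw [← Finset.mul_prod_erase _ _ (Finset.mem_univ i)]
  have hj : j ∈ (Finset.univ : Finset (Fin J)).erase i :=
    Finset.mem_erase.2 ⟨hij.symm, Finset.mem_univ _⟩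
  rw [← Finset.mul_prod_erase _ _ hj]
  have h2 : ∏ k ∈ ((Finset.univ : Finset (Fin J)).erase i).erase j, f k ≤ 1 :=
    Finset.prod_le_one (fun k _ => h0 k) fun k _ => h1 k
  calc f i * (f j * ∏ k ∈ ((Finset.univ : Finset (Fin J)).erase i).erase j, f k)
      ≤ f i * (f j * 1) := by
        apply mul_le_mul_of_nonneg_left _ (h0 i)
        exact mul_le_mul_of_nonneg_left h2 (h0 j)
    _ = f i * f j := by ring

private lemma one_term {J : ℕ} (f : Fin J → ℝ) (h0 : ∀ j, 0 ≤ f j) (h1 : ∀ j, f j ≤ 1)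
    (i : Fin J) : ∏ k, f k ≤ f i := by
  classical
  rw [← Finset.mul_prod_erase _ _ (Finset.mem_univ i)]
  have h2 : ∏ k ∈ (Finset.univ : Finset (Fin J)).erase i, f k ≤ 1 :=
    Finset.prod_le_one (fun k _ => h0 k) fun k _ => h1 k
  calc f i * ∏ k ∈ (Finset.univ : Finset (Fin J)).erase i, f k ≤ f i * 1 :=
        mul_le_mul_of_nonneg_left h2 (h0 i)
    _ = f i := mul_one _

private lemma cos_sin2 (w : ℝ) : |Real.cos w| * |Real.sin (2 * w)| ≤ 4 / 5 := by
  rw [← abs_mul]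
  apply abs_le_of_sq_le_sq _ (by norm_num)
  rw [Real.sin_two_mul]
  have h1 := Real.sin_sq_add_cos_sq w
  have h2 : 0 ≤ Real.cos w ^ 2 := sq_nonneg _
  have h3 : Real.sin w ^ 2 = 1 - Real.cos w ^ 2 := by linarith
  have h4 : (Real.cos w * (2 * Real.sin w * Real.cos w)) ^ 2 =
      4 * (Real.cos w ^ 2) ^ 2 * (1 - Real.cos w ^ 2) := by
    rw [← h3]; ring
  rw [h4]
  generalize Real.cos w ^ 2 = c at *
  nlinarith [mul_nonneg (sq_nonneg (c - 2 / 3)) (show 0 ≤ c + 1 / 3 by linarith)]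

private lemma sin_sin2 (w : ℝ) : |Real.sin w| * |Real.sin (2 * w)| ≤ 4 / 5 := by
  rw [← abs_mul]
  apply abs_le_of_sq_le_sq _ (by norm_num)
  rw [Real.sin_two_mul]
  have h1 := Real.sin_sq_add_cos_sq w
  have h2 : 0 ≤ Real.sin w ^ 2 := sq_nonneg _
  have h3 : Real.cos w ^ 2 = 1 - Real.sin w ^ 2 := by linarith
  have h4 : (Real.sin w * (2 * Real.sin w * Real.cos w)) ^ 2 =
      4 * (Real.sin w ^ 2) ^ 2 * (1 - Real.sin w ^ 2) := by
    rw [← h3]; ring
  rw [h4]
  generalize Real.sin w ^ 2 = c at *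
  nlinarith [mul_nonneg (sq_nonneg (c - 2 / 3)) (show 0 ≤ c + 1 / 3 by linarith)]

private lemma n13 (p : ZMod 4) (a b : ℝ) (hp : p = 1 ∨ p = 3) : ‖ph p a b‖ ≤ 4 / 5 := by
  apply le_of_sq_le_sq _ (by norm_num)
  rw [sq13 p a b hp]
  have h1 := Real.sin_sq_le_one (2 * Real.pi * a)
  have h2 := Real.sin_sq_le_one (2 * Real.pi * b)
  nlinarith

private lemma n_le_one (p : ZMod 4) (a b : ℝ) : ‖ph p a b‖ ≤ 1 := by
  rcases zcases p with h | h | h | h
  · rw [h, n0, abs_mul]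
    exact mul_le_one₀ (Real.abs_cos_le_one _) (abs_nonneg _) (Real.abs_cos_le_one _)
  · exact (n13 p a b (Or.inl h)).trans (by norm_num)
  · rw [h, n2, abs_mul]
    exact mul_le_one₀ (Real.abs_sin_le_one _) (abs_nonneg _) (Real.abs_sin_le_one _)
  · exact (n13 p a b (Or.inr h)).trans (by norm_num)

end BQA.F.F_PHx

namespace BQA.F

open F_PHx

theorem F_PH : Stmt_PH := by
  refine ⟨?_, ?_, ?_, ?_, ?_⟩
  · exact fun p a b => n_le_one p a b
  · intro a b
    rw [ph0, cc0]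
  · exact fun a b => n2 a b
  · intro p a b hp
    have hx := sin_nd (a + b)
    have hy := sin_nd (a - b)
    have hx0 := nd_nonneg (a + b)
    have hy0 := nd_nonneg (a - b)
    have h13 : p = 1 ∨ p = 3 → ‖ph p a b‖ ≤ 4 * (nd (a + b) + nd (a - b)) := by
      intro h
      apply le_of_sq_le_sq _ (by positivity)
      rw [sq13 p a b h]
      have h1 := sinsum a b
      have h2 : Real.sin (Real.pi * (a + b)) ^ 2 ≤ (4 * nd (a + b)) ^ 2 := by
        rw [← sq_abs (Real.sin (Real.pi * (a + b)))]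
        exact pow_le_pow_left₀ (abs_nonneg _) hx 2
      have h3 : Real.sin (Real.pi * (a - b)) ^ 2 ≤ (4 * nd (a - b)) ^ 2 := by
        rw [← sq_abs (Real.sin (Real.pi * (a - b)))]
        exact pow_le_pow_left₀ (abs_nonneg _) hy 2
      have h4 := mul_nonneg hx0 hy0
      nlinarith
    rcases zcases p with h | h | h | h
    · exact absurd h hp
    · exact h13 (Or.inl h)
    · rw [h, n2, abs_mul]
      have h1 := Real.abs_sin_le_one (Real.pi * (a - b))
      have h2 : |Real.sin (Real.pi * (a + b))| * |Real.sin (Real.pi * (a - b))| ≤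
          |Real.sin (Real.pi * (a + b))| * 1 := mul_le_mul_of_nonneg_left h1 (abs_nonneg _)
      linarith
    · exact h13 (Or.inr h)
  · rintro J ψ a b ⟨j, hj0, hj1⟩
    by_cases hodd : ∃ i, ψ i = 1 ∨ ψ i = 3
    · obtain ⟨i, hi⟩ := hodd
      exact (one_term _ (fun _ => norm_nonneg _) (fun k => n_le_one _ _ _) i).trans
        (n13 _ _ _ hi)
    · push Not at hodd
      have hj2 : ψ j = 2 := by
        rcases zcases (ψ j) with h | h | h | h
        · exact absurd h hj0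
        · exact absurd h (hodd j).1
        · exact h
        · exact absurd h (hodd j).2
      have hjpos : (j : ℕ) ≠ 0 := by
        rcases hj1 with h | h
        · exact h
        · exact absurd hj2 h
      obtain ⟨i, hi⟩ := Nat.exists_eq_succ_of_ne_zero hjpos
      have hiJ : i < J := by have := j.isLt; omega
      have hne : (⟨i, hiJ⟩ : Fin J) ≠ j := by
        intro h
        have := congrArg Fin.val h
        simp only at this
        omega
      refine (two_terms _ (fun _ => norm_nonneg _) (fun k => n_le_one _ _ _) ⟨i, hiJ⟩ j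
        hne).trans ?_
      obtain ⟨w, hw⟩ : ∃ w : ℝ, w = Real.pi * (2 ^ i * a + 2 ^ i * b) := ⟨_, rfl⟩
      have hwj : Real.pi * (2 ^ (j : ℕ) * a + 2 ^ (j : ℕ) * b) = 2 * w := by
        rw [hw, hi, pow_succ]; ring
      have hB : ‖ph (ψ j) (2 ^ (j : ℕ) * a) (2 ^ (j : ℕ) * b)‖ ≤ |Real.sin (2 * w)| := by
        rw [hj2, n2, abs_mul, hwj]
        calc |Real.sin (2 * w)| * |Real.sin (Real.pi * (2 ^ (j : ℕ) * a - 2 ^ (j : ℕ) * b))|
            ≤ |Real.sin (2 * w)| * 1 :=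
              mul_le_mul_of_nonneg_left (Real.abs_sin_le_one _) (abs_nonneg _)
          _ = _ := mul_one _
      rcases zcases (ψ ⟨i, hiJ⟩) with h | h | h | h
      · have hA : ‖ph (ψ ⟨i, hiJ⟩) (2 ^ i * a) (2 ^ i * b)‖ ≤ |Real.cos w| := by
          rw [h, n0, abs_mul, ← hw]
          calc |Real.cos w| * |Real.cos (Real.pi * (2 ^ i * a - 2 ^ i * b))|
              ≤ |Real.cos w| * 1 :=
                mul_le_mul_of_nonneg_left (Real.abs_cos_le_one _) (abs_nonneg _)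
            _ = _ := mul_one _
        exact (mul_le_mul hA hB (norm_nonneg _) (abs_nonneg _)).trans (cos_sin2 w)
      · exact absurd h (hodd _).1
      · have hA : ‖ph (ψ ⟨i, hiJ⟩) (2 ^ i * a) (2 ^ i * b)‖ ≤ |Real.sin w| := by
          rw [h, n2, abs_mul, ← hw]
          calc |Real.sin w| * |Real.sin (Real.pi * (2 ^ i * a - 2 ^ i * b))|
              ≤ |Real.sin w| * 1 :=
                mul_le_mul_of_nonneg_left (Real.abs_sin_le_one _) (abs_nonneg _)
            _ = _ := mul_one _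
        exact (mul_le_mul hA hB (norm_nonneg _) (abs_nonneg _)).trans (sin_sin2 w)
      · exact absurd h (hodd _).2

end BQA.F
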