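import Pool.Agent.BQ.FSt

/-!
# BQ, module F_RES: characters of `LabE` (helper61)
-/

set_option autoImplicit false

namespace BQA.F

open Finset

namespace F_RESx

/-- a character of a subgroup of a finite group extends -/
theorem extend {G : Type*} [CommGroup G] [Finite G] (H : Subgroup G) (f : H →* ℂ) :
    ∃ φ : G →* ℂ, ∀ h : H, f h = φ h := by
  have hne : NeZero (Monoid.exponent G) := ⟨Monoid.exponent_ne_zero_of_finite⟩
  obtain ⟨φ, hφ⟩ := MonoidHom.domRestrict_surjective (M := ℂ) H (MonoidHom.toHomUnits f)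
  refine ⟨(Units.coeHom ℂ).comp φ, fun h => ?_⟩
  have h1 : (MonoidHom.domRestrictHom H ℂˣ φ) h = (MonoidHom.toHomUnits f) h := by rw [hφ]
  have h2 : ((MonoidHom.toHomUnits f h : ℂˣ) : ℂ) = f h := rfl
  rw [← h2, ← h1]
  rfl

/-- the same for additive characters -/
theorem extend_add {A : Type*} [AddCommGroup A] [Finite A] (H : AddSubgroup A)
    (χ : AddChar H ℂ) : ∃ φ : AddChar A ℂ, ∀ h : H, χ h = φ (h : A) := by
  let f : (AddSubgroup.toSubgroup H) →* ℂ :=
    { toFun := fun x => χ ⟨Multiplicative.toAdd x.1, x.2⟩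
      map_one' := by
        exact χ.map_zero_eq_one
      map_mul' := fun x y => by
        exact χ.map_add_eq_mul ⟨Multiplicative.toAdd x.1, x.2⟩ ⟨Multiplicative.toAdd y.1, y.2⟩ }
  obtain ⟨φ, hφ⟩ := extend (AddSubgroup.toSubgroup H) f
  refine ⟨AddChar.toMonoidHomEquiv.symm φ, fun h => ?_⟩
  have := hφ ⟨Multiplicative.ofAdd h.1, h.2⟩
  exact this

/-- a fourth root of unity is a power of `I` -/
theorem pow_four {z : ℂ} (hz : z ^ 4 = 1) : ∃ p : ZMod 4, z = Complex.I ^ p.val := by
  have h : (z - 1) * (z + 1) * ((z - Complex.I) * (z + Complex.I)) = 0 := by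
    have hI := Complex.I_sq
    have : (z - 1) * (z + 1) * ((z - Complex.I) * (z + Complex.I)) =
        (z ^ 2 - 1) * (z ^ 2 - Complex.I ^ 2) := by ring
    rw [this, hI]
    linear_combination hz
  rcases mul_eq_zero.mp h with h | h
  · rcases mul_eq_zero.mp h with h | h
    · refine ⟨0, ?_⟩
      have : z = 1 := by linear_combination h
      rw [this]
      simp
    · refine ⟨2, ?_⟩
      have : z = -1 := by linear_combination h
      rw [this]
      change (-1 : ℂ) = Complex.I ^ 2
      rw [Complex.I_sq]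
  · rcases mul_eq_zero.mp h with h | h
    · refine ⟨1, ?_⟩
      have : z = Complex.I := by linear_combination h
      rw [this]
      change Complex.I = Complex.I ^ 1
      rw [pow_one]
    · refine ⟨3, ?_⟩
      have : z = -Complex.I := by linear_combination h
      rw [this]
      change -Complex.I = Complex.I ^ 3
      rw [pow_succ, Complex.I_sq]
      ring

theorem I_pow_val (p : ZMod 4) (n : ℕ) : Complex.I ^ (p * n).val = (Complex.I ^ p.val) ^ n := by
  rw [← pow_mul, ZMod.val_mul, ZMod.val_natCast]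
  rw [← Complex.I_pow_eq_pow_mod (p.val * (n % 4))]
  rw [Complex.I_pow_eq_pow_mod (p.val * n), Complex.I_pow_eq_pow_mod (p.val * (n % 4))]
  congr 1
  rw [Nat.mul_mod, Nat.mod_mod, ← Nat.mul_mod]

theorem map_sum' {A ι : Type*} [AddCommGroup A] (φ : AddChar A ℂ) (s : Finset ι) (f : ι → A) :
    φ (∑ i ∈ s, f i) = ∏ i ∈ s, φ (f i) := by
  classical
  induction s using Finset.induction_on with
  | empty => simp
  | insert a s ha ih => rw [sum_insert ha, prod_insert ha, φ.map_add_eq_mul, ih]

end F_RESx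

open F_RESx in
/-- (RES) -/
theorem F_RES : Stmt_RES := by
  intro R J χ
  obtain ⟨φ, hφ⟩ := extend_add (LabE R J) χ
  have h4 : ∀ c : Idx R J, ∃ p : ZMod 4,
      φ (Pi.single c (1 : ZMod 4)) = Complex.I ^ p.val := by
    intro c
    apply pow_four
    rw [← AddChar.map_nsmul_eq_pow]
    have : (4 : ℕ) • (Pi.single c (1 : ZMod 4) : Idx R J → ZMod 4) = 0 := by
      rw [← Pi.single_smul]
      have : (4 : ℕ) • (1 : ZMod 4) = 0 := by decide
      rw [this, Pi.single_zero]
    rw [this]
    exact φ.map_zero_eq_one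
  choose ψ hψ using h4
  refine ⟨ψ, fun h => ?_⟩
  rw [hφ h]
  generalize (h : Lab R J) = x
  have e1 : x = ∑ c : Idx R J, (x c).val • (Pi.single c (1 : ZMod 4) : Idx R J → ZMod 4) := by
    conv_lhs => rw [← Finset.univ_sum_single x]
    refine Finset.sum_congr rfl fun c _ => ?_
    rw [← Pi.single_smul]
    congr 1
    rw [nsmul_eq_mul, mul_one, ZMod.natCast_val, ZMod.cast_id]
  have e2 : φ x = ∏ c : Idx R J, φ ((x c).val • (Pi.single c (1 : ZMod 4) : Idx R J → ZMod 4)) := by
    conv_lhs => rw [e1]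
    exact map_sum' φ _ _
  rw [e2]
  unfold chi
  refine Finset.prod_congr rfl fun c _ => ?_
  rw [AddChar.map_nsmul_eq_pow, hψ c, ← I_pow_val, ZMod.natCast_val, ZMod.cast_id]

end BQA.F
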