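import Pool.Agent.BQ.FSt

/-!
# BQ, module F_SM: the one dimensional sum (helper61)
-/

set_option autoImplicit false

namespace BQA.F

open Finset

namespace F_SMx

/-- sums over `ZMod m` as sums over `range m` -/
theorem sum_zmod (m : ℕ) [NeZero m] (F : ℕ → ℝ) : ∑ t : ZMod m, F t.val = ∑ v ∈ range m, F v := by
  cases m with
  | zero => exact absurd rfl (NeZero.ne 0)
  | succ n => exact Fin.sum_univ_eq_sum_range F (n + 1)

/-- the distance to the nearest integer of a point of the unit interval -/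
theorem nd_ge (x : ℝ) : x ≤ nd x ∨ 1 - x ≤ nd x := by
  unfold nd
  by_cases h : round x ≤ 0
  · left
    have h1 : ((round x : ℤ) : ℝ) ≤ 0 := by exact_mod_cast h
    have h2 := le_abs_self (x - (round x : ℤ))
    linarith
  · right
    have h0 : (1 : ℤ) ≤ round x := by omega
    have h1 : (1 : ℝ) ≤ ((round x : ℤ) : ℝ) := by exact_mod_cast h0
    have h2 := neg_le_abs (x - (round x : ℤ))
    linarith

/-- the majorant -/
noncomputable def fm (g : ℝ) (v : ℕ) : ℝ := 1 / (1 + (g * v) ^ 2)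

theorem fm_nonneg (g : ℝ) (v : ℕ) : 0 ≤ fm g v := by
  unfold fm
  positivity

/-- telescoping -/
theorem tele (g : ℝ) (hg : 0 < g) (n : ℕ) :
    ∑ v ∈ range n, fm g (v + 1) ≤ 2 / g * (1 - 1 / (1 + g * n)) := by
  induction n with
  | zero => simp
  | succ n ih =>
    rw [sum_range_succ]
    have hx : 0 < 1 + g * (n : ℝ) := by positivity
    have hy : 0 < 1 + g * ((n : ℝ) + 1) := by positivity
    have key : fm g (n + 1) ≤ 2 / g * (1 / (1 + g * n) - 1 / (1 + g * ((n : ℝ) + 1))) := by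
      have e1 : 2 / g * (1 / (1 + g * n) - 1 / (1 + g * ((n : ℝ) + 1))) =
          2 / ((1 + g * n) * (1 + g * ((n : ℝ) + 1))) := by
        field_simp
        ring
      rw [e1]
      unfold fm
      push_cast
      rw [div_le_div_iff₀ (by positivity) (by positivity)]
      have h3 : (1 + g * (n : ℝ)) * (1 + g * ((n : ℝ) + 1)) ≤ (1 + g * ((n : ℝ) + 1)) ^ 2 := by
        rw [sq]
        apply mul_le_mul_of_nonneg_right _ hy.le
        linarith
      nlinarith [sq_nonneg (1 - g * ((n : ℝ) + 1))]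
    have e2 : (((n + 1 : ℕ) : ℝ)) = (n : ℝ) + 1 := by push_cast; ring
    rw [e2]
    have e3 : 2 / g * (1 - 1 / (1 + g * ((n : ℝ) + 1))) = 2 / g * (1 - 1 / (1 + g * n)) +
        2 / g * (1 / (1 + g * n) - 1 / (1 + g * ((n : ℝ) + 1))) := by ring
    rw [e3]
    exact add_le_add ih key

theorem tele' (g : ℝ) (hg : 0 < g) (n : ℕ) : ∑ v ∈ range n, fm g (v + 1) ≤ 2 / g := by
  refine (tele g hg n).trans ?_
  have h1 : 0 ≤ 1 / (1 + g * (n : ℝ)) := by positivity
  have h2 : 0 < 2 / g := by positivity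
  nlinarith

/-- one term -/
theorem term_le (m a : ℕ) (hm : 0 < m) (B : ℝ) (hB : 0 < B) (v : ℕ) (hv : v < m) :
    1 / (1 + (B * nd ((v : ℝ) / m)) ^ 2) ^ a ≤
      fm (B * Real.sqrt a / m) v + fm (B * Real.sqrt a / m) (m - v) := by
  have hm' : (0 : ℝ) < m := by exact_mod_cast hm
  set g := B * Real.sqrt a / m with hgd
  have hsq : Real.sqrt a ^ 2 = a := Real.sq_sqrt (Nat.cast_nonneg a)
  have gen : ∀ w : ℕ, (w : ℝ) / m ≤ nd ((v : ℝ) / m) →
      1 / (1 + (B * nd ((v : ℝ) / m)) ^ 2) ^ a ≤ fm g w := by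
    intro w hw
    unfold fm
    have h0 : (0 : ℝ) ≤ (w : ℝ) / m := by positivity
    apply one_div_le_one_div_of_le (by positivity)
    have b1 : 1 + (a : ℝ) * (B * nd ((v : ℝ) / m)) ^ 2 ≤ (1 + (B * nd ((v : ℝ) / m)) ^ 2) ^ a := by
      apply one_add_mul_le_pow
      have := sq_nonneg (B * nd ((v : ℝ) / m))
      linarith
    refine le_trans ?_ b1
    have e1 : (g * (w : ℝ)) ^ 2 = a * (B * ((w : ℝ) / m)) ^ 2 := by
      rw [hgd]
      field_simp
      rw [hsq]
      ring
    rw [e1]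
    have h2 : (B * ((w : ℝ) / m)) ^ 2 ≤ (B * nd ((v : ℝ) / m)) ^ 2 := by
      apply pow_le_pow_left₀ (by positivity)
      exact mul_le_mul_of_nonneg_left hw hB.le
    have h3 : (0 : ℝ) ≤ a := Nat.cast_nonneg a
    nlinarith [mul_le_mul_of_nonneg_left h2 h3]
  rcases nd_ge ((v : ℝ) / m) with h | h
  · have := gen v h
    have := fm_nonneg g (m - v)
    linarith
  · have h' : ((m - v : ℕ) : ℝ) / m ≤ nd ((v : ℝ) / m) := by
      refine le_trans (le_of_eq ?_) h
      rw [Nat.cast_sub hv.le]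
      field_simp
    have := gen (m - v) h'
    have := fm_nonneg g v
    linarith

end F_SMx

open F_SMx in
/-- (SM) -/
theorem F_SM : Stmt_SM := by
  intro m a inst B hB ha hBm
  have hm : 0 < m := Nat.pos_of_ne_zero (NeZero.ne m)
  have hm' : (0 : ℝ) < m := by exact_mod_cast hm
  have ha' : (1 : ℝ) ≤ a := by exact_mod_cast ha
  have hs : 0 < Real.sqrt a := Real.sqrt_pos.mpr (by linarith)
  set g := B * Real.sqrt a / m with hgd
  have hg : 0 < g := by positivity
  have hg1 : g ≤ 1 := by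
    rw [hgd, div_le_one hm']
    exact hBm
  rw [sum_zmod m (fun v => 1 / (1 + (B * nd ((v : ℝ) / m)) ^ 2) ^ a)]
  have s1 : ∑ v ∈ range m, 1 / (1 + (B * nd ((v : ℝ) / m)) ^ 2) ^ a ≤
      ∑ v ∈ range m, (fm g v + fm g (m - v)) := by
    apply sum_le_sum
    intro v hv
    exact term_le m a hm B hB v (mem_range.mp hv)
  rw [sum_add_distrib] at s1
  have s2 : ∑ v ∈ range m, fm g v ≤ 1 + 2 / g := by
    obtain ⟨n, rfl⟩ : ∃ n, m = n + 1 := ⟨m - 1, by omega⟩
    rw [sum_range_succ']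
    have h1 := tele' g hg n
    have h2 : fm g 0 = 1 := by
      unfold fm
      simp
    rw [h2]
    linarith
  have s3 : ∑ v ∈ range m, fm g (m - v) ≤ 2 / g := by
    have e : ∑ v ∈ range m, fm g (m - v) = ∑ v ∈ range m, fm g (v + 1) := by
      rw [← sum_range_reflect (fun v => fm g (v + 1)) m]
      apply sum_congr rfl
      intro v hv
      have := mem_range.mp hv
      congr 1
      omega
    rw [e]
    exact tele' g hg m
  have s4 : 1 ≤ 1 / g := by
    rw [le_div_iff₀ hg]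
    linarith
  have e8 : 8 * (m : ℝ) / (B * Real.sqrt a) = 8 * (1 / g) := by
    rw [hgd]
    field_simp
  rw [e8]
  have e2 : 2 / g = 2 * (1 / g) := by ring
  rw [e2] at s2 s3
  linarith

end BQA.F
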