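import Pool.Agent.BQ.F_UP
import Pool.Agent.BQ.F_LIP
import Pool.Agent.BQ.F_INV
import Pool.Agent.BQ.F_PH
import Pool.Agent.BQ.F_DJ
import Pool.Agent.BQ.F_SM
import Pool.Agent.BQ.F_PAR
import Pool.Agent.BQ.F_RES
import Pool.Agent.BQ.F_CLS
import Pool.Agent.BQ.F_SHF
import Pool.Agent.BQ.F_NUM
import Pool.Agent.BQ.F_LOW
import Pool.Agent.BQ.F_F1
import Pool.Agent.BQ.F_F3
import Pool.Agent.BQ.F_F4

/-!
# BQ, block F: the exports without hypotheses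
-/

set_option autoImplicit false

namespace BQA.F

theorem all_UP : Stmt_UP :=
  F_UP F_INV (F_CLS F_PH) (F_SHF F_PAR) F_NUM (F_SUMW F_DJ F_SM)

theorem all_LIP : Stmt_LIP := F_LIP F_INV F_PH F_DJ F_SM F_PAR

theorem all_LOW : Stmt_LOW := F_LOW F_INV F_PH F_DJ

theorem all_F1 : Stmt_F1 := F_F1 all_LIP all_LOW

theorem all_F2 : Stmt_F2 := F_F2 all_LIP all_LOW

theorem all_F3 : Stmt_F3 := F_F3 all_LIP all_LOW F_PAR F_RES

theorem all_F4 : Stmt_F4 := F_F4 all_UP all_LIP all_LOW F_PAR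

end BQA.F
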