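import Pool.Agent.BQ.FSt

/-!
# BQ, block F: distance to the nearest integer, change of variables, sums (helper27)
-/

set_option autoImplicit false

namespace BQA.F

open Finset Quaternion

/-! ### distance to the nearest integer -/

theorem nd_le (x : ℝ) (z : ℤ) : nd x ≤ |x - z| := round_le x z

theorem nd_nonneg (x : ℝ) : 0 ≤ nd x := abs_nonneg _

theorem nd_le_abs (x : ℝ) : nd x ≤ |x| := by simpa using nd_le x 0

theorem nd_add (x y : ℝ) : nd (x + y) ≤ nd x + nd y := by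
  refine (nd_le (x + y) (round x + round y)).trans ?_
  push_cast
  have h : x + y - ((round x : ℝ) + round y) = (x - round x) + (y - round y) := by ring
  rw [h]
  exact abs_add_le _ _

theorem nd_neg_le (x : ℝ) : nd (-x) ≤ nd x := by
  refine (nd_le (-x) (-round x)).trans (le_of_eq ?_)
  push_cast
  rw [← abs_neg]
  unfold nd
  congr 1
  ring

theorem nd_neg (x : ℝ) : nd (-x) = nd x :=
  le_antisymm (nd_neg_le x) (by simpa using nd_neg_le (-x))

theorem nd_sub (x y : ℝ) : nd (x - y) ≤ nd x + nd y := by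
  rw [sub_eq_add_neg, ← nd_neg y]
  exact nd_add _ _

theorem nd_int_mul (k : ℤ) (x : ℝ) : nd (k * x) ≤ |(k : ℝ)| * nd x := by
  refine (nd_le (k * x) (k * round x)).trans (le_of_eq ?_)
  push_cast
  unfold nd
  rw [← abs_mul]
  congr 1
  ring

theorem nd_add_int_le (x : ℝ) (z : ℤ) : nd (x + z) ≤ nd x := by
  refine (nd_le (x + z) (round x + z)).trans (le_of_eq ?_)
  push_cast
  unfold nd
  congr 1
  ring

theorem nd_add_int (x : ℝ) (z : ℤ) : nd (x + z) = nd x := by
  refine le_antisymm (nd_add_int_le x z) ?_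
  have h := nd_add_int_le (x + z) (-z)
  push_cast at h
  rwa [add_neg_cancel_right] at h

/-- `nd` of a fraction depends on the numerator modulo `m` -/
theorem nd_div {m : ℕ} [NeZero m] (z : ℤ) : nd ((z : ℝ) / m) = nd ((((z : ZMod m)).val : ℝ) / m) := by
  have hm : (m : ℝ) ≠ 0 := by exact_mod_cast NeZero.ne m
  have h1 : (((((z : ZMod m)).val : ℕ) : ℤ) : ZMod m) = (z : ZMod m) := by
    rw [Int.cast_natCast, ZMod.natCast_zmod_val]
  have h2 : (m : ℤ) ∣ z - (((z : ZMod m)).val : ℤ) := by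
    rw [← ZMod.intCast_eq_intCast_iff_dvd_sub]
    exact h1
  obtain ⟨k, hk⟩ := h2
  have h3 : (z : ℝ) / m = (((z : ZMod m)).val : ℝ) / m + (k : ℤ) := by
    have h4 : (z : ℝ) - (((z : ZMod m)).val : ℝ) = m * k := by exact_mod_cast hk
    field_simp
    linarith
  rw [h3, nd_add_int]

theorem nd_val_add {m : ℕ} [NeZero m] (s t : ZMod m) :
    nd ((s.val : ℝ) / m + (t.val : ℝ) / m) = nd (((s + t).val : ℝ) / m) := by
  have h := nd_div (m := m) ((s.val : ℤ) + t.val)
  push_cast at h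
  rw [ZMod.natCast_zmod_val, ZMod.natCast_zmod_val] at h
  rw [← add_div, h]

theorem nd_val_sub {m : ℕ} [NeZero m] (s t : ZMod m) :
    nd ((s.val : ℝ) / m - (t.val : ℝ) / m) = nd (((s - t).val : ℝ) / m) := by
  have h := nd_div (m := m) ((s.val : ℤ) - t.val)
  push_cast at h
  rw [ZMod.natCast_zmod_val, ZMod.natCast_zmod_val] at h
  rw [← sub_div, h]

/-! ### the four coordinates -/

/-- the change of variables -/
def Phi {m : ℕ} (t : Fr m) : ZMod m × ZMod m × ZMod m × ZMod m :=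
  (t.1 + t.2 0, t.1 - t.2 0, t.1 + t.2 1, t.1 + t.2 2)

theorem Phi_inj {m : ℕ} (hm : Odd m) : Function.Injective (Phi (m := m)) := by
  have h2 : IsUnit (2 : ZMod m) := by
    have h3 : Nat.Coprime 2 m := by
      rw [Nat.coprime_two_left]
      exact hm
    exact (ZMod.isUnit_iff_coprime 2 m).2 h3
  rintro ⟨a, b⟩ ⟨a', b'⟩ h
  simp only [Phi, Prod.mk.injEq] at h
  obtain ⟨h0, h1, h3, h4⟩ := h
  have ha : a = a' := by
    have h5 : 2 * a = 2 * a' := by linear_combination h0 + h1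
    exact h2.mul_left_cancel h5
  subst ha
  have hb : b = b' := by
    funext i
    fin_cases i
    · exact add_left_cancel h0
    · exact add_left_cancel h3
    · exact add_left_cancel h4
  rw [hb]

theorem sum_Phi_le {m : ℕ} [NeZero m] (hm : Odd m) (f : ZMod m → ℝ) (hf : ∀ s, 0 ≤ f s) :
    ∑ t : Fr m, f (Phi t).1 * f (Phi t).2.1 * f (Phi t).2.2.1 * f (Phi t).2.2.2 ≤
      (∑ s, f s) ^ 4 := by
  classical
  set G : ZMod m × ZMod m × ZMod m × ZMod m → ℝ := fun z => f z.1 * f z.2.1 * f z.2.2.1 * f z.2.2.2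
    with hG
  have h1 : ∑ t : Fr m, f (Phi t).1 * f (Phi t).2.1 * f (Phi t).2.2.1 * f (Phi t).2.2.2 =
      ∑ z ∈ univ.image (Phi (m := m)), G z := by
    rw [sum_image (fun a _ b _ h => Phi_inj hm h)]
  rw [h1]
  have h2 : ∑ z ∈ univ.image (Phi (m := m)), G z ≤ ∑ z, G z :=
    sum_le_sum_of_subset_of_nonneg (subset_univ _) (fun z _ _ => by
      simp only [hG]
      have := hf z.1
      have := hf z.2.1
      have := hf z.2.2.1
      have := hf z.2.2.2
      positivity)
  refine h2.trans (le_of_eq ?_)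
  simp only [hG, Fintype.sum_prod_type, mul_assoc, ← mul_sum, ← sum_mul]
  ring

/-- `u = 2 ^ J nd` of the four coordinates -/
noncomputable def uu {m : ℕ} (J : ℕ) (s : ZMod m) : ℝ := 2 ^ J * nd ((s.val : ℝ) / m)

theorem uu_nonneg {m : ℕ} (J : ℕ) (s : ZMod m) : 0 ≤ uu J s :=
  mul_nonneg (by positivity) (nd_nonneg _)

/-- the sum of the four `u` -/
noncomputable def US {m : ℕ} (J : ℕ) (t : Fr m) : ℝ :=
  uu J (Phi t).1 + uu J (Phi t).2.1 + uu J (Phi t).2.2.1 + uu J (Phi t).2.2.2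

theorem US_nonneg {m : ℕ} (J : ℕ) (t : Fr m) : 0 ≤ US J t := by
  unfold US
  have := uu_nonneg J (Phi t).1
  have := uu_nonneg J (Phi t).2.1
  have := uu_nonneg J (Phi t).2.2.1
  have := uu_nonneg J (Phi t).2.2.2
  positivity

/-- the real frequencies -/
noncomputable def fa {m : ℕ} (t : Fr m) : ℝ := (t.1.val : ℝ) / m

noncomputable def fb {m : ℕ} (t : Fr m) (v : Fin 3) : ℝ := ((t.2 v).val : ℝ) / m

theorem uu_x0 {m : ℕ} [NeZero m] (J : ℕ) (t : Fr m) :
    2 ^ J * nd (fa t + fb t 0) = uu J (Phi t).1 := by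
  unfold uu fa fb Phi
  rw [nd_val_add]

theorem uu_y0 {m : ℕ} [NeZero m] (J : ℕ) (t : Fr m) :
    2 ^ J * nd (fa t - fb t 0) = uu J (Phi t).2.1 := by
  unfold uu fa fb Phi
  rw [nd_val_sub]

theorem uu_x1 {m : ℕ} [NeZero m] (J : ℕ) (t : Fr m) :
    2 ^ J * nd (fa t + fb t 1) = uu J (Phi t).2.2.1 := by
  unfold uu fa fb Phi
  rw [nd_val_add]

theorem uu_x2 {m : ℕ} [NeZero m] (J : ℕ) (t : Fr m) :
    2 ^ J * nd (fa t + fb t 2) = uu J (Phi t).2.2.2 := by
  unfold uu fa fb Phi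
  rw [nd_val_add]

/-- the two distances of any type are controlled by `US` -/
theorem nd_sum_le {m : ℕ} [NeZero m] (J : ℕ) (t : Fr m) (v : Fin 3) :
    2 ^ J * (nd (fa t + fb t v) + nd (fa t - fb t v)) ≤ 2 * US J t := by
  have h0 := uu_x0 J t
  have h1 := uu_y0 J t
  have h2 := uu_x1 J t
  have h3 := uu_x2 J t
  have n0 := uu_nonneg J (Phi t).1
  have n1 := uu_nonneg J (Phi t).2.1
  have n2 := uu_nonneg J (Phi t).2.2.1
  have n3 := uu_nonneg J (Phi t).2.2.2
  have hp : (0 : ℝ) < 2 ^ J := by positivity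
  have hy : ∀ w : Fin 3, nd (fa t - fb t w) ≤ nd (fa t + fb t 0) + nd (fa t - fb t 0) +
      nd (fa t + fb t w) := by
    intro w
    have e : fa t - fb t w = ((fa t + fb t 0) + (fa t - fb t 0)) - (fa t + fb t w) := by ring
    rw [e]
    refine (nd_sub _ _).trans ?_
    have := nd_add (fa t + fb t 0) (fa t - fb t 0)
    linarith
  unfold US
  fin_cases v
  · change 2 ^ J * (nd (fa t + fb t 0) + nd (fa t - fb t 0)) ≤ _
    rw [mul_add, h0, h1]
    linarith
  · change 2 ^ J * (nd (fa t + fb t 1) + nd (fa t - fb t 1)) ≤ _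
    have := mul_le_mul_of_nonneg_left (hy 1) hp.le
    rw [mul_add, mul_add, h0, h1, h2] at this
    rw [mul_add, h2]
    linarith
  · change 2 ^ J * (nd (fa t + fb t 2) + nd (fa t - fb t 2)) ≤ _
    have := mul_le_mul_of_nonneg_left (hy 2) hp.le
    rw [mul_add, mul_add, h0, h1, h3] at this
    rw [mul_add, h3]
    linarith


end BQA.F
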