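import Pool.Agent.BQ.F_Wt

/-!
# BQ, block F: the sum over the frequencies (helper27)
-/

set_option autoImplicit false

namespace BQA.F

open Finset Quaternion

theorem dJ_pow_le (hDJ : Stmt_DJ) {J : ℕ} (hJ : 1 ≤ J) (x : ℝ) (l : ℕ) :
    |dJ J x| ^ (32 * l) ≤ ((1 + (2 ^ J * nd x) ^ 2) ^ (16 * l))⁻¹ := by
  have h1 := hDJ.2.1 J x hJ
  have h0 : 0 < 1 + (2 ^ J * nd x) ^ 2 := by positivity
  have h2 : |dJ J x| ^ 2 ≤ (1 + (2 ^ J * nd x) ^ 2)⁻¹ := by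
    rw [sq_abs, ← one_div, le_div_iff₀ h0]
    exact h1
  rw [show 32 * l = 2 * (16 * l) by ring, pow_mul, ← inv_pow]
  exact pow_le_pow_left₀ (by positivity) h2 _

/-- the pointwise bound -/
theorem pt_le (hDJ : Stmt_DJ) {R J m w : ℕ} [NeZero m] (hJ : 1 ≤ J) (hR : 64 ≤ R) (hw : w ≤ 16)
    (t : Fr m) :
    (4 * US J t) ^ w * (|dJ J (fa t + fb t 0)| * |dJ J (fa t - fb t 0)| * |dJ J (fa t + fb t 1)| *
        |dJ J (fa t + fb t 2)|) ^ (R / 2) ≤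
    Real.sqrt (2048 / R) ^ w * 4294967297 * (((1 + uu J (Phi t).1 ^ 2) ^ (8 * (R / 64)))⁻¹ *
      ((1 + uu J (Phi t).2.1 ^ 2) ^ (8 * (R / 64)))⁻¹ *
      ((1 + uu J (Phi t).2.2.1 ^ 2) ^ (8 * (R / 64)))⁻¹ *
      ((1 + uu J (Phi t).2.2.2 ^ 2) ^ (8 * (R / 64)))⁻¹) := by
  obtain ⟨l, hl⟩ : ∃ l, l = R / 64 := ⟨_, rfl⟩
  rw [← hl]
  have hl1 : 1 ≤ l := by omega
  have hl0 : (0 : ℝ) < l := by exact_mod_cast hl1
  have hR0 : (0 : ℝ) < R := by exact_mod_cast (by omega : 0 < R)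
  have hRl : (R : ℝ) ≤ 128 * l := by exact_mod_cast (by omega : R ≤ 128 * l)
  have hd : ∀ x, 0 ≤ |dJ J x| := fun x => abs_nonneg _
  have hd1 : ∀ x, |dJ J x| ≤ 1 := fun x => hDJ.1 J x
  obtain ⟨D0, hD0⟩ : ∃ D, D = |dJ J (fa t + fb t 0)| := ⟨_, rfl⟩
  obtain ⟨D1, hD1⟩ : ∃ D, D = |dJ J (fa t - fb t 0)| := ⟨_, rfl⟩
  obtain ⟨D2, hD2⟩ : ∃ D, D = |dJ J (fa t + fb t 1)| := ⟨_, rfl⟩
  obtain ⟨D3, hD3⟩ : ∃ D, D = |dJ J (fa t + fb t 2)| := ⟨_, rfl⟩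
  have k0 := dJ_pow_le hDJ hJ (fa t + fb t 0) l
  have k1 := dJ_pow_le hDJ hJ (fa t - fb t 0) l
  have k2 := dJ_pow_le hDJ hJ (fa t + fb t 1) l
  have k3 := dJ_pow_le hDJ hJ (fa t + fb t 2) l
  rw [uu_x0, ← hD0] at k0
  rw [uu_y0, ← hD1] at k1
  rw [uu_x1, ← hD2] at k2
  rw [uu_x2, ← hD3] at k3
  have n0 : 0 ≤ D0 := by rw [hD0]; exact hd _
  have n1 : 0 ≤ D1 := by rw [hD1]; exact hd _
  have n2 : 0 ≤ D2 := by rw [hD2]; exact hd _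
  have n3 : 0 ≤ D3 := by rw [hD3]; exact hd _
  have m0 : D0 ≤ 1 := by rw [hD0]; exact hd1 _
  have m1 : D1 ≤ 1 := by rw [hD1]; exact hd1 _
  have m2 : D2 ≤ 1 := by rw [hD2]; exact hd1 _
  have m3 : D3 ≤ 1 := by rw [hD3]; exact hd1 _
  rw [← hD0, ← hD1, ← hD2, ← hD3]
  have p1 : (D0 * D1 * D2 * D3) ^ (R / 2) ≤ (D0 * D1 * D2 * D3) ^ (32 * l) := by
    refine pow_le_pow_of_le_one (by positivity) ?_ (by omega)
    exact mul_le_one₀ (mul_le_one₀ (mul_le_one₀ m0 n1 m1) n2 m2) n3 m3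
  have p2 : (D0 * D1 * D2 * D3) ^ (32 * l) ≤ ((1 + uu J (Phi t).1 ^ 2) ^ (16 * l))⁻¹ *
      ((1 + uu J (Phi t).2.1 ^ 2) ^ (16 * l))⁻¹ * ((1 + uu J (Phi t).2.2.1 ^ 2) ^ (16 * l))⁻¹ *
      ((1 + uu J (Phi t).2.2.2 ^ 2) ^ (16 * l))⁻¹ := by
    rw [mul_pow, mul_pow, mul_pow]
    refine mul_le_mul (mul_le_mul (mul_le_mul k0 k1 (by positivity) (by positivity)) k2
      (by positivity) (by positivity)) k3 (by positivity) (by positivity)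
  have hU := US_nonneg J t
  have p3 := weight_le (uu_nonneg J (Phi t).1) (uu_nonneg J (Phi t).2.1)
    (uu_nonneg J (Phi t).2.2.1) (uu_nonneg J (Phi t).2.2.2) l w hl1 hw
  have p4 : (4 * US J t) ^ w * (D0 * D1 * D2 * D3) ^ (R / 2) ≤
      4 ^ w * (US J t ^ w * (((1 + uu J (Phi t).1 ^ 2) ^ (16 * l))⁻¹ *
      ((1 + uu J (Phi t).2.1 ^ 2) ^ (16 * l))⁻¹ * ((1 + uu J (Phi t).2.2.1 ^ 2) ^ (16 * l))⁻¹ *
      ((1 + uu J (Phi t).2.2.2 ^ 2) ^ (16 * l))⁻¹)) := by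
    rw [mul_pow, mul_assoc]
    exact mul_le_mul_of_nonneg_left (mul_le_mul_of_nonneg_left (p1.trans p2) (by positivity))
      (by positivity)
  refine p4.trans ?_
  have p5 := mul_le_mul_of_nonneg_left p3 (by positivity : (0 : ℝ) ≤ 4 ^ w)
  refine p5.trans ?_
  obtain ⟨W, hW⟩ : ∃ W, W = ((1 + uu J (Phi t).1 ^ 2) ^ (8 * l))⁻¹ *
      ((1 + uu J (Phi t).2.1 ^ 2) ^ (8 * l))⁻¹ * ((1 + uu J (Phi t).2.2.1 ^ 2) ^ (8 * l))⁻¹ *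
      ((1 + uu J (Phi t).2.2.2 ^ 2) ^ (8 * l))⁻¹ := ⟨_, rfl⟩
  rw [← hW]
  have hW0 : 0 ≤ W := by rw [hW]; positivity
  have p6 : (4 : ℝ) ^ w * (1 / Real.sqrt l) ^ w ≤ Real.sqrt (2048 / R) ^ w := by
    rw [← mul_pow]
    refine pow_le_pow_left₀ (by positivity) ?_ w
    apply Real.le_sqrt_of_sq_le
    rw [mul_pow, div_pow, Real.sq_sqrt hl0.le, one_pow]
    rw [mul_one_div, div_le_div_iff₀ hl0 hR0]
    linarith
  calc 4 ^ w * ((1 / Real.sqrt l) ^ w * 4294967297 * W)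
      = (4 ^ w * (1 / Real.sqrt l) ^ w) * (4294967297 * W) := by ring
    _ ≤ Real.sqrt (2048 / R) ^ w * (4294967297 * W) :=
        mul_le_mul_of_nonneg_right p6 (by positivity)
    _ = _ := by ring

/-- the sum over the frequencies -/
def Stmt_SUMW : Prop := ∃ (C : ℝ) (R0 : ℕ), 1 ≤ C ∧ ∀ (R J m w : ℕ) [NeZero m], R0 ≤ R → 1 ≤ J →
  Odd m → 2 ^ J * R ≤ m → w ≤ 16 →
  ∑ t : Fr m, (4 * US J t) ^ w * (|dJ J (fa t + fb t 0)| * |dJ J (fa t - fb t 0)| *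
    |dJ J (fa t + fb t 1)| * |dJ J (fa t + fb t 2)|) ^ (R / 2) ≤
    C * Real.sqrt (C / R) ^ w * (m : ℝ) ^ 4 / ((R : ℝ) ^ 2 * 2 ^ (4 * J))

theorem F_SUMW (hDJ : Stmt_DJ) (hSM : Stmt_SM) : Stmt_SUMW := by
  refine ⟨4294967297 * 64 * 16384, 64, by norm_num, ?_⟩
  intro R J m w _ hR hJ hm hmR hw
  obtain ⟨l, hl⟩ : ∃ l, l = R / 64 := ⟨_, rfl⟩
  have hl1 : 1 ≤ l := by omega
  have hl0 : (0 : ℝ) < l := by exact_mod_cast hl1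
  have hR0 : (0 : ℝ) < R := by exact_mod_cast (by omega : 0 < R)
  have hR1 : (1 : ℝ) ≤ R := by exact_mod_cast (by omega : 1 ≤ R)
  have hRl : (R : ℝ) ≤ 128 * l := by exact_mod_cast (by omega : R ≤ 128 * l)
  have h8l : 8 * (l : ℝ) ≤ R := by exact_mod_cast (by omega : 8 * l ≤ R)
  refine (sum_le_sum fun t _ => pt_le hDJ hJ hR hw t).trans ?_
  rw [← mul_sum, ← hl]
  have hmJ : 2 ^ J * Real.sqrt (8 * l) ≤ m := by
    have h1 : Real.sqrt (8 * l) ≤ R := by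
      rw [Real.sqrt_le_left hR0.le]
      nlinarith
    calc (2 : ℝ) ^ J * Real.sqrt (8 * l) ≤ 2 ^ J * R := mul_le_mul_of_nonneg_left h1 (by positivity)
      _ ≤ m := by exact_mod_cast hmR
  have h2 := sum_weights hSM hm J l hl1 hmJ
  refine (mul_le_mul_of_nonneg_left h2 (by positivity)).trans ?_
  have h3 : Real.sqrt (2048 / R) ^ w ≤ Real.sqrt (4294967297 * 64 * 16384 / R) ^ w := by
    refine pow_le_pow_left₀ (by positivity) (Real.sqrt_le_sqrt ?_) w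
    exact div_le_div_of_nonneg_right (by norm_num) hR0.le
  have h4 : 64 / (2 ^ (4 * J) * (l : ℝ) ^ 2) ≤ 64 * 16384 / ((R : ℝ) ^ 2 * 2 ^ (4 * J)) := by
    have hR2 : (R : ℝ) ^ 2 ≤ 16384 * (l : ℝ) ^ 2 := by nlinarith
    obtain ⟨E, hE⟩ : ∃ E : ℝ, E = 2 ^ (4 * J) := ⟨_, rfl⟩
    have hE0 : 0 < E := by rw [hE]; positivity
    rw [← hE, div_le_div_iff₀ (by positivity) (by positivity)]
    nlinarith [mul_le_mul_of_nonneg_right hR2 hE0.le]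
  obtain ⟨S, hS⟩ : ∃ S, S = Real.sqrt (4294967297 * 64 * 16384 / R) ^ w := ⟨_, rfl⟩
  rw [← hS] at h3 ⊢
  have hS0 : 0 ≤ S := by rw [hS]; positivity
  calc Real.sqrt (2048 / R) ^ w * 4294967297 * ((m : ℝ) ^ 4 * (64 / (2 ^ (4 * J) * (l : ℝ) ^ 2)))
      ≤ S * 4294967297 * ((m : ℝ) ^ 4 * (64 * 16384 / ((R : ℝ) ^ 2 * 2 ^ (4 * J)))) := by
        refine mul_le_mul (mul_le_mul_of_nonneg_right h3 (by norm_num))
          (mul_le_mul_of_nonneg_left h4 (by positivity)) (by positivity) (by positivity)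
    _ = _ := by ring

end BQA.F
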