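import Pool.Agent.BQ.F_Sw
import Pool.Agent.BQ.FSt2
import Pool.Agent.BQ.F_LOW

/-!
# BQ, block F: the upper bound for all characters (helper27)
-/

set_option autoImplicit false

namespace BQA.F

open Finset Quaternion

namespace F_UPx

/-- the modulus -/
def md (R J : ℕ) : ℕ := 2 * (3 * R * J * 2 ^ J + 2 ^ J + 1) + 1

theorem md_odd (R J : ℕ) : Odd (md R J) := ⟨_, rfl⟩

instance (R J : ℕ) : NeZero (md R J) := ⟨by unfold md; omega⟩

theorem md_ge {R J : ℕ} (hJ : 1 ≤ J) : 2 ^ J * R ≤ md R J := by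
  unfold md
  have h : 2 ^ J * R ≤ 3 * R * J * 2 ^ J := by
    calc 2 ^ J * R = 1 * (2 ^ J * R) := by ring
      _ ≤ (3 * J) * (2 ^ J * R) := Nat.mul_le_mul_right _ (by omega)
      _ = _ := by ring
  obtain ⟨b, hb⟩ : ∃ b, b = 3 * R * J * 2 ^ J := ⟨_, rfl⟩
  obtain ⟨c, hc⟩ : ∃ c, c = 2 ^ J * R := ⟨_, rfl⟩
  obtain ⟨d, hd⟩ : ∃ d, d = 2 ^ J := ⟨_, rfl⟩
  rw [← hb, ← hc] at h
  rw [← hc, ← hb, ← hd]
  omega

theorem coord_le {q : ℍ[ℤ]} {J : ℕ} (h : normSq q ≤ (4 : ℤ) ^ J) :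
    |q.re| ≤ 2 ^ J ∧ |q.imI| ≤ 2 ^ J ∧ |q.imJ| ≤ 2 ^ J ∧ |q.imK| ≤ 2 ^ J := by
  rw [Quaternion.normSq_def'] at h
  have h4 : (4 : ℤ) ^ J = (2 ^ J) ^ 2 := by
    rw [← pow_mul, mul_comm, pow_mul]
    norm_num
  rw [h4] at h
  have h0 := sq_nonneg q.re
  have h1 := sq_nonneg q.imI
  have h2 := sq_nonneg q.imJ
  have h3 := sq_nonneg q.imK
  have hp : (0 : ℤ) ≤ 2 ^ J := by positivity
  exact ⟨abs_le_of_sq_le_sq (by linarith) hp, abs_le_of_sq_le_sq (by linarith) hp,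
    abs_le_of_sq_le_sq (by linarith) hp, abs_le_of_sq_le_sq (by linarith) hp⟩

theorem coords {R J : ℕ} {q : ℍ[ℤ]} (hq : normSq q ≤ (4 : ℤ) ^ J) (h : Lab R J) :
    |(kapL h).re - q.re| < md R J ∧ |(kapL h).imI - q.imI| < md R J ∧
    |(kapL h).imJ - q.imJ| < md R J ∧ |(kapL h).imK - q.imK| < md R J := by
  obtain ⟨c0, c1, c2, c3⟩ := coord_le hq
  have k0 := F_LOWx.abs_kr h
  have k1 := F_LOWx.abs_kv h 0
  have k2 := F_LOWx.abs_kv h 1
  have k3 := F_LOWx.abs_kv h 2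
  rw [kapL_eq]
  simp only [mk4_re, mk4_imI, mk4_imJ, mk4_imK]
  have hmd : ((md R J : ℕ) : ℤ) = 2 * (3 * R * J * 2 ^ J + 2 ^ J + 1) + 1 := by
    unfold md
    push_cast
    ring
  have hA : (0 : ℤ) ≤ 3 * R * J * 2 ^ J := by positivity
  have hB : (0 : ℤ) ≤ 2 ^ J := by positivity
  rw [hmd]
  rw [abs_le] at c0 c1 c2 c3 k0 k1 k2 k3
  refine ⟨?_, ?_, ?_, ?_⟩ <;> rw [abs_lt] <;> constructor <;> linarith [c0.1, c0.2, c1.1, c1.2,
    c2.1, c2.2, c3.1, c3.2, k0.1, k0.2, k1.1, k1.2, k2.1, k2.2, k3.1, k3.2]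

theorem card_Fr (m : ℕ) [NeZero m] : Fintype.card (Fr m) = m ^ 4 := by
  rw [Fintype.card_prod, Fintype.card_fun, ZMod.card, Fintype.card_fin]
  ring

/-- the inversion formula as an inequality -/
theorem cnt_le (hINV : Stmt_INV) {R J : ℕ} (ψ : Lab R J) {q : ℍ[ℤ]}
    (hq : normSq q ≤ (4 : ℤ) ^ J) :
    ((md R J : ℕ) : ℝ) ^ 4 * ‖cnt ψ q‖ ≤ 4 ^ (3 * R * J) * ∑ t : Fr (md R J), ‖igd ψ t‖ := by
  have h1 := congrArg norm (hINV R J (md R J) ψ q (coords hq))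
  rw [norm_mul, norm_mul, norm_pow, norm_pow, Complex.norm_natCast] at h1
  rw [h1]
  have h4 : ‖(4 : ℂ)‖ = 4 := by norm_num
  rw [h4]
  refine mul_le_mul_of_nonneg_left ?_ (by positivity)
  refine (norm_sum_le _ _).trans (sum_le_sum fun t _ => ?_)
  rw [norm_mul, Complex.norm_exp_ofReal_mul_I, one_mul]

theorem cancel4 {x y : ℝ} {m : ℕ} [NeZero m] (h : (m : ℝ) ^ 4 * x ≤ (m : ℝ) ^ 4 * y) : x ≤ y := by
  have hm : (0 : ℝ) < (m : ℝ) ^ 4 := by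
    have : (0 : ℝ) < m := by exact_mod_cast Nat.pos_of_ne_zero (NeZero.ne m)
    positivity
  exact le_of_mul_le_mul_left h hm

end F_UPx

open F_UPx in
theorem F_UP (hINV : Stmt_INV) (hCLS : Stmt_CLS) (hSHF : Stmt_SHF) (hNUM : Stmt_NUM)
    (hSUMW : Stmt_SUMW) : Stmt_UP := by
  obtain ⟨Cn, hCn1, hN⟩ := hNUM
  obtain ⟨Cs, Rs, hCs1, hS⟩ := hSUMW
  obtain ⟨C, hC⟩ : ∃ C, C = max Cn Cs := ⟨_, rfl⟩
  have hCC : Cn ≤ C := by rw [hC]; exact le_max_left _ _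
  have hCC' : Cs ≤ C := by rw [hC]; exact le_max_right _ _
  have hC1 : 1 ≤ C := hCn1.trans hCC
  refine ⟨C, max Rs 8, hC1, ?_⟩
  intro R J hR hJ hJR ψ w q hw hmin hq hqn
  have hR8 : 8 ≤ R := (le_max_right _ _).trans hR
  have hRs : Rs ≤ R := (le_max_left _ _).trans hR
  have hR0 : (0 : ℝ) < R := by exact_mod_cast (by omega : 0 < R)
  have hR1 : (1 : ℝ) ≤ R := by exact_mod_cast (by omega : 1 ≤ R)
  obtain ⟨e, he⟩ := hCLS R J hJ hR8 ψ
  rw [← hSHF R J ψ e q hJ hq]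
  have h1 := cnt_le hINV (ψ + pcs e) hqn
  obtain ⟨E, hE⟩ : ∃ E : ℝ, E = 2 ^ (4 * J) := ⟨_, rfl⟩
  have hE0 : 0 < E := by rw [hE]; positivity
  obtain ⟨F, hF⟩ : ∃ F : ℝ, F = 4 ^ (3 * R * J) := ⟨_, rfl⟩
  have hF0 : 0 < F := by rw [hF]; positivity
  unfold Zs
  rw [← hE, ← hF]
  rw [← hF] at h1
  apply cancel4 (m := md R J)
  refine h1.trans ?_
  rcases he with he | he
  · -- not reduced
    have h2 : ∑ t : Fr (md R J), ‖igd (ψ + pcs e) t‖ ≤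
        ((md R J : ℕ) : ℝ) ^ 4 * (4 / 5 : ℝ) ^ (R / 8) := by
      refine (sum_le_sum fun t _ => he (md R J) t).trans (le_of_eq ?_)
      rw [sum_const, card_univ, card_Fr, nsmul_eq_mul]
      push_cast
      ring
    have h3 := hN R J hJR
    -- the small factor
    have h4 : (4 / 5 : ℝ) ^ (R / 8) ≤ C * Real.sqrt (C / R) ^ w / ((R : ℝ) ^ 2 * E) := by
      have h32 : E ≤ 32 ^ J := by
        rw [hE, pow_mul]
        exact pow_le_pow_left₀ (by norm_num) (by norm_num) J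
      have h5 : 1 ≤ Real.sqrt (C / R) ^ w * (R : ℝ) ^ 8 := by
        have h6 : 1 ≤ Real.sqrt (C / R) * Real.sqrt R := by
          rw [← Real.sqrt_mul (by positivity), div_mul_cancel₀ _ hR0.ne']
          exact Real.one_le_sqrt.2 hC1
        have h7 : Real.sqrt R ^ w ≤ (R : ℝ) ^ 8 := by
          have h8 : (R : ℝ) ^ 8 = Real.sqrt R ^ 16 := by
            rw [show (16 : ℕ) = 2 * 8 from rfl, pow_mul, Real.sq_sqrt hR0.le]
          rw [h8]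
          exact pow_le_pow_right₀ (Real.one_le_sqrt.2 hR1) hw
        calc (1 : ℝ) ≤ (Real.sqrt (C / R) * Real.sqrt R) ^ w := one_le_pow₀ h6
          _ = Real.sqrt (C / R) ^ w * Real.sqrt R ^ w := mul_pow _ _ _
          _ ≤ _ := mul_le_mul_of_nonneg_left h7 (by positivity)
      rw [le_div_iff₀ (by positivity)]
      obtain ⟨P, hP⟩ : ∃ P, P = (4 / 5 : ℝ) ^ (R / 8) := ⟨_, rfl⟩
      have hP0 : 0 ≤ P := by rw [hP]; positivity
      obtain ⟨S, hSd⟩ : ∃ S, S = Real.sqrt (C / R) ^ w := ⟨_, rfl⟩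
      have hS0 : 0 ≤ S := by rw [hSd]; positivity
      rw [← hP] at h3 ⊢
      rw [← hSd] at h5 ⊢
      have h9 : P * ((R : ℝ) ^ 2 * E) * R ^ 8 ≤ C := by
        have h10 : (R : ℝ) ^ 10 ≤ (R : ℝ) ^ 12 := pow_le_pow_right₀ hR1 (by norm_num)
        calc P * ((R : ℝ) ^ 2 * E) * R ^ 8 = P * E * R ^ 10 := by ring
          _ ≤ P * 32 ^ J * R ^ 12 := by
              refine mul_le_mul (mul_le_mul_of_nonneg_left h32 hP0) h10 (by positivity)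
                (by positivity)
          _ ≤ C := h3.trans hCC
      have h11 : 0 ≤ P * ((R : ℝ) ^ 2 * E) := by positivity
      calc P * ((R : ℝ) ^ 2 * E) = P * ((R : ℝ) ^ 2 * E) * 1 := (mul_one _).symm
        _ ≤ P * ((R : ℝ) ^ 2 * E) * (S * R ^ 8) := mul_le_mul_of_nonneg_left h5 h11
        _ = (P * ((R : ℝ) ^ 2 * E) * R ^ 8) * S := by ring
        _ ≤ C * S := mul_le_mul_of_nonneg_right h9 hS0
    calc F * ∑ t : Fr (md R J), ‖igd (ψ + pcs e) t‖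
        ≤ F * (((md R J : ℕ) : ℝ) ^ 4 * (C * Real.sqrt (C / R) ^ w / ((R : ℝ) ^ 2 * E))) :=
          mul_le_mul_of_nonneg_left (h2.trans (mul_le_mul_of_nonneg_left h4 (by positivity))) hF0.le
      _ = _ := by ring
  · -- reduced
    have h2 : ∑ t : Fr (md R J), ‖igd (ψ + pcs e) t‖ ≤
        Cs * Real.sqrt (Cs / R) ^ w * ((md R J : ℕ) : ℝ) ^ 4 / ((R : ℝ) ^ 2 * E) := by
      rw [hE]
      exact (sum_le_sum fun t _ => he (md R J) t w (hmin e)).trans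
        (hS R J (md R J) w hRs hJ (md_odd R J) (md_ge hJ) hw)
    have h3 : Cs * Real.sqrt (Cs / R) ^ w ≤ C * Real.sqrt (C / R) ^ w := by
      refine mul_le_mul hCC' (pow_le_pow_left₀ (Real.sqrt_nonneg _) (Real.sqrt_le_sqrt ?_) w)
        (by positivity) (by linarith)
      exact div_le_div_of_nonneg_right hCC' hR0.le
    have h4 : Cs * Real.sqrt (Cs / R) ^ w * ((md R J : ℕ) : ℝ) ^ 4 / ((R : ℝ) ^ 2 * E) ≤
        C * Real.sqrt (C / R) ^ w * ((md R J : ℕ) : ℝ) ^ 4 / ((R : ℝ) ^ 2 * E) :=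
      div_le_div_of_nonneg_right (mul_le_mul_of_nonneg_right h3 (by positivity)) (by positivity)
    calc F * ∑ t : Fr (md R J), ‖igd (ψ + pcs e) t‖
        ≤ F * (C * Real.sqrt (C / R) ^ w * ((md R J : ℕ) : ℝ) ^ 4 / ((R : ℝ) ^ 2 * E)) :=
          mul_le_mul_of_nonneg_left (h2.trans h4) hF0.le
      _ = _ := by ring

end BQA.F
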