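import Pool.Agent.BQ.F_Nd0

/-!
# BQ, block F: the weight inequality (helper27)
-/

set_option autoImplicit false

namespace BQA.F

open Finset Quaternion

theorem one_add_pow_ge {u : ℝ} (l : ℕ) : 1 + l * u ^ 2 ≤ (1 + u ^ 2) ^ l :=
  one_add_mul_le_pow (by have := sq_nonneg u; linarith) l

/-- `(l u^2)^8 ≤ (1 + u^2)^(8 l)` -/
theorem pow8_le (u : ℝ) (l : ℕ) : (l * u ^ 2) ^ 8 ≤ (1 + u ^ 2) ^ (8 * l) := by
  rw [mul_comm 8 l, pow_mul]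
  refine pow_le_pow_left₀ (by positivity) ?_ 8
  have := one_add_pow_ge (u := u) l
  linarith

theorem four_le {A B C D : ℝ} (hA : 1 ≤ A) (hB : 1 ≤ B) (hC : 1 ≤ C) (hD : 1 ≤ D) :
    A ≤ A * B * C * D ∧ B ≤ A * B * C * D ∧ C ≤ A * B * C * D ∧ D ≤ A * B * C * D := by
  have hA0 : 0 < A := by linarith
  have hB0 : 0 < B := by linarith
  have hC0 : 0 < C := by linarith
  have hD0 : 0 < D := by linarith
  have hAB : 1 ≤ A * B := one_le_mul_of_one_le_of_one_le hA hB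
  have hCD : 1 ≤ C * D := one_le_mul_of_one_le_of_one_le hC hD
  refine ⟨?_, ?_, ?_, ?_⟩
  · have h := mul_le_mul_of_nonneg_left (one_le_mul_of_one_le_of_one_le hB hCD) hA0.le
    calc A = A * 1 := (mul_one A).symm
      _ ≤ A * (B * (C * D)) := h
      _ = _ := by ring
  · have h := mul_le_mul_of_nonneg_left (one_le_mul_of_one_le_of_one_le hA hCD) hB0.le
    calc B = B * 1 := (mul_one B).symm
      _ ≤ B * (A * (C * D)) := h
      _ = _ := by ring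
  · have h := mul_le_mul_of_nonneg_left (one_le_mul_of_one_le_of_one_le hAB hD) hC0.le
    calc C = C * 1 := (mul_one C).symm
      _ ≤ C * (A * B * D) := h
      _ = _ := by ring
  · have h := mul_le_mul_of_nonneg_left (one_le_mul_of_one_le_of_one_le hAB hC) hD0.le
    calc D = D * 1 := (mul_one D).symm
      _ ≤ D * (A * B * C) := h
      _ = _ := by ring

theorem scaled {U : ℝ} (hU : 0 ≤ U) {l w : ℕ} (hl : 1 ≤ l) (hw : w ≤ 16) :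
    U ^ w ≤ (1 / Real.sqrt l) ^ w * (1 + (l * U ^ 2) ^ 8) := by
  have hl0 : (0 : ℝ) < l := by exact_mod_cast hl
  have hs : 0 < Real.sqrt l := Real.sqrt_pos.2 hl0
  have h3 : U ^ w = (1 / Real.sqrt l) ^ w * (Real.sqrt l * U) ^ w := by
    rw [← mul_pow]
    congr 1
    rw [one_div, inv_mul_cancel_left₀ hs.ne']
  have h4 : (Real.sqrt l * U) ^ w ≤ 1 + (Real.sqrt l * U) ^ 16 := by
    have hx : 0 ≤ Real.sqrt l * U := by positivity
    rcases le_or_gt (Real.sqrt l * U) 1 with h | h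
    · have h5 := pow_le_one₀ (n := w) hx h
      have h6 := pow_nonneg hx 16
      linarith
    · have := pow_le_pow_right₀ h.le hw
      linarith
  have h5 : (Real.sqrt l * U) ^ 16 = (l * U ^ 2) ^ 8 := by
    rw [show (16 : ℕ) = 2 * 8 from rfl, pow_mul, mul_pow, Real.sq_sqrt hl0.le]
  rw [h3, ← h5]
  exact mul_le_mul_of_nonneg_left h4 (by positivity)

theorem max_le {a b c d : ℝ} (ha : 0 ≤ a) (hb : 0 ≤ b) (hc : 0 ≤ c) (hd : 0 ≤ d) (l : ℕ)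
    {A B C D : ℝ} (hA : A = (1 + a ^ 2) ^ (8 * l)) (hB : B = (1 + b ^ 2) ^ (8 * l))
    (hC : C = (1 + c ^ 2) ^ (8 * l)) (hD : D = (1 + d ^ 2) ^ (8 * l))
    (hA1 : 1 ≤ A) (hB1 : 1 ≤ B) (hC1 : 1 ≤ C) (hD1 : 1 ≤ D) :
    (l * (a + b + c + d) ^ 2) ^ 8 ≤ 4294967296 * (A * B * C * D) := by
  obtain ⟨f1, f2, f3, f4⟩ := four_le hA1 hB1 hC1 hD1
  obtain ⟨M, hM⟩ : ∃ M, M = A * B * C * D := ⟨_, rfl⟩
  rw [← hM] at f1 f2 f3 f4 ⊢
  have hl0 : (0 : ℝ) ≤ l := Nat.cast_nonneg l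
  obtain ⟨U, hU⟩ : ∃ U, U = a + b + c + d := ⟨_, rfl⟩
  rw [← hU]
  have hU0 : 0 ≤ U := by rw [hU]; positivity
  have key : ∀ x : ℝ, 0 ≤ x → U ≤ 4 * x → (1 + x ^ 2) ^ (8 * l) ≤ M →
      (l * U ^ 2) ^ 8 ≤ 4294967296 * M := by
    intro x hx hUx hM
    have h7 : (l * U ^ 2) ^ 8 ≤ (l * (4 * x) ^ 2) ^ 8 := by
      refine pow_le_pow_left₀ (by positivity) ?_ 8
      exact mul_le_mul_of_nonneg_left (pow_le_pow_left₀ hU0 hUx 2) hl0
    have h8 : ((l : ℝ) * (4 * x) ^ 2) ^ 8 = 4294967296 * (l * x ^ 2) ^ 8 := by ring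
    rw [h8] at h7
    exact h7.trans (mul_le_mul_of_nonneg_left ((pow8_le x l).trans hM) (by positivity))
  by_cases ca : U ≤ 4 * a
  · exact key a ha ca (by rw [← hA]; exact f1)
  by_cases cb : U ≤ 4 * b
  · exact key b hb cb (by rw [← hB]; exact f2)
  by_cases cc : U ≤ 4 * c
  · exact key c hc cc (by rw [← hC]; exact f3)
  · exact key d hd (by push Not at ca cb cc; linarith) (by rw [← hD]; exact f4)

theorem weight_abs {X s A B C D : ℝ} (hs : 0 ≤ s) (hA : 1 ≤ A) (hB : 1 ≤ B) (hC : 1 ≤ C)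
    (hD : 1 ≤ D) (hX : X ≤ s * (1 + 4294967296 * (A * B * C * D))) :
    X * ((A * A)⁻¹ * (B * B)⁻¹ * (C * C)⁻¹ * (D * D)⁻¹) ≤
      s * 4294967297 * (A⁻¹ * B⁻¹ * C⁻¹ * D⁻¹) := by
  obtain ⟨M, hM⟩ : ∃ M, M = A * B * C * D := ⟨_, rfl⟩
  have hM1 : 1 ≤ M := by
    rw [hM]
    exact one_le_mul_of_one_le_of_one_le (one_le_mul_of_one_le_of_one_le
      (one_le_mul_of_one_le_of_one_le hA hB) hC) hD
  rw [← hM] at hX
  have h9 : X ≤ s * (4294967297 * M) := hX.trans (mul_le_mul_of_nonneg_left (by linarith) hs)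
  have h10 : (A * A)⁻¹ * (B * B)⁻¹ * (C * C)⁻¹ * (D * D)⁻¹ = M⁻¹ * M⁻¹ := by
    rw [hM]
    simp only [mul_inv]
    ring
  have h11 : A⁻¹ * B⁻¹ * C⁻¹ * D⁻¹ = M⁻¹ := by
    rw [hM]
    simp only [mul_inv]
  rw [h10, h11]
  have hM0 : 0 < M := by linarith
  refine (mul_le_mul_of_nonneg_right h9 (by positivity)).trans (le_of_eq ?_)
  have h12 : M * (M⁻¹ * M⁻¹) = M⁻¹ := by rw [mul_inv_cancel_left₀ hM0.ne']
  calc s * (4294967297 * M) * (M⁻¹ * M⁻¹) = s * 4294967297 * (M * (M⁻¹ * M⁻¹)) := by ring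
    _ = _ := by rw [h12]

/-- the main weight inequality -/
theorem weight_le {a b c d : ℝ} (ha : 0 ≤ a) (hb : 0 ≤ b) (hc : 0 ≤ c) (hd : 0 ≤ d) (l w : ℕ)
    (hl : 1 ≤ l) (hw : w ≤ 16) :
    (a + b + c + d) ^ w * (((1 + a ^ 2) ^ (16 * l))⁻¹ * ((1 + b ^ 2) ^ (16 * l))⁻¹ *
      ((1 + c ^ 2) ^ (16 * l))⁻¹ * ((1 + d ^ 2) ^ (16 * l))⁻¹) ≤
    (1 / Real.sqrt l) ^ w * 4294967297 * (((1 + a ^ 2) ^ (8 * l))⁻¹ * ((1 + b ^ 2) ^ (8 * l))⁻¹ *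
      ((1 + c ^ 2) ^ (8 * l))⁻¹ * ((1 + d ^ 2) ^ (8 * l))⁻¹) := by
  have h1 : ∀ x : ℝ, 1 ≤ (1 + x ^ 2) ^ (8 * l) := fun x =>
    one_le_pow₀ (by have := sq_nonneg x; linarith)
  have h2 : ∀ x : ℝ, (1 + x ^ 2) ^ (16 * l) = (1 + x ^ 2) ^ (8 * l) * (1 + x ^ 2) ^ (8 * l) := by
    intro x
    rw [← pow_add]
    congr 1
    omega
  have h7 := max_le ha hb hc hd l rfl rfl rfl rfl (h1 a) (h1 b) (h1 c) (h1 d)
  have hU0 : 0 ≤ a + b + c + d := by positivity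
  have h8 := scaled hU0 hl hw
  have hs : 0 ≤ (1 / Real.sqrt l) ^ w := by positivity
  have h9 := weight_abs hs (h1 a) (h1 b) (h1 c) (h1 d)
    (h8.trans (mul_le_mul_of_nonneg_left (add_le_add le_rfl h7) hs))
  rw [← h2, ← h2, ← h2, ← h2] at h9
  exact h9

/-- the sum of the weights -/
theorem sum_weights (hSM : Stmt_SM) {m : ℕ} [NeZero m] (hm : Odd m) (J l : ℕ) (hl : 1 ≤ l)
    (hmJ : 2 ^ J * Real.sqrt (8 * l) ≤ m) :
    ∑ t : Fr m, (((1 + uu J (Phi t).1 ^ 2) ^ (8 * l))⁻¹ * ((1 + uu J (Phi t).2.1 ^ 2) ^ (8 * l))⁻¹ *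
      ((1 + uu J (Phi t).2.2.1 ^ 2) ^ (8 * l))⁻¹ * ((1 + uu J (Phi t).2.2.2 ^ 2) ^ (8 * l))⁻¹) ≤
      (m : ℝ) ^ 4 * (64 / (2 ^ (4 * J) * (l : ℝ) ^ 2)) := by
  have hl0 : (0 : ℝ) < l := by exact_mod_cast hl
  refine (sum_Phi_le hm (fun s => ((1 + uu J s ^ 2) ^ (8 * l))⁻¹) (fun s => by positivity)).trans ?_
  have h1 := hSM m (8 * l) (2 ^ J) (by positivity) (by omega) (by push_cast; exact hmJ)
  have h2 : ∑ s : ZMod m, ((1 + uu J s ^ 2) ^ (8 * l))⁻¹ ≤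
      8 * m / (2 ^ J * Real.sqrt ((8 * l : ℕ) : ℝ)) := by
    refine le_trans (le_of_eq ?_) h1
    refine sum_congr rfl fun s _ => ?_
    rw [one_div]
    rfl
  have h3 : 0 ≤ ∑ s : ZMod m, ((1 + uu J s ^ 2) ^ (8 * l))⁻¹ :=
    sum_nonneg fun s _ => by positivity
  refine (pow_le_pow_left₀ h3 h2 4).trans (le_of_eq ?_)
  have h4 : Real.sqrt ((8 * l : ℕ) : ℝ) ^ 4 = (8 * l) ^ 2 := by
    rw [show (4 : ℕ) = 2 * 2 from rfl, pow_mul, Real.sq_sqrt (by positivity)]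
    push_cast
    ring
  rw [div_pow, mul_pow, mul_pow, h4, ← pow_mul, mul_comm J 4]
  obtain ⟨E, hE⟩ : ∃ E : ℝ, E = 2 ^ (4 * J) := ⟨_, rfl⟩
  have hE0 : 0 < E := by rw [hE]; positivity
  rw [← hE]
  field_simp
  ring

/-! ### exponentials -/

theorem norm_exp_sub_le (a b : ℝ) :
    ‖Complex.exp (((-(2 * Real.pi * a) : ℝ) : ℂ) * Complex.I) -
      Complex.exp (((-(2 * Real.pi * b) : ℝ) : ℂ) * Complex.I)‖ ≤ 2 * Real.pi * nd (a - b) := by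
  obtain ⟨k, hk⟩ : ∃ k : ℤ, k = round (a - b) := ⟨_, rfl⟩
  have h1 : Complex.exp (((-(2 * Real.pi * a) : ℝ) : ℂ) * Complex.I) =
      Complex.exp (((-(2 * Real.pi * (a - k)) : ℝ) : ℂ) * Complex.I) := by
    rw [Complex.exp_eq_exp_iff_exists_int]
    refine ⟨-k, ?_⟩
    push_cast
    ring
  rw [h1]
  have h2 : Complex.exp (((-(2 * Real.pi * (a - k)) : ℝ) : ℂ) * Complex.I) -
      Complex.exp (((-(2 * Real.pi * b) : ℝ) : ℂ) * Complex.I) =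
      Complex.exp (((-(2 * Real.pi * b) : ℝ) : ℂ) * Complex.I) *
        (Complex.exp (Complex.I * ((-(2 * Real.pi * (a - k - b)) : ℝ) : ℂ)) - 1) := by
    rw [mul_sub (Complex.exp _), ← Complex.exp_add, mul_one (Complex.exp _)]
    congr 2
    push_cast
    ring
  rw [h2, norm_mul, Complex.norm_exp_ofReal_mul_I, one_mul]
  refine (Real.norm_exp_I_mul_ofReal_sub_one_le).trans (le_of_eq ?_)
  rw [norm_neg, norm_mul, Real.norm_eq_abs, Real.norm_eq_abs, abs_of_pos Real.two_pi_pos]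
  unfold nd
  rw [← hk]
  congr 2
  ring

end BQA.F
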