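import Mathlib

/-!
# Diameters, general configurations, partitions (the definitions of the problem)
-/

open Set Metric

namespace Pool.Agent.BQ

variable {d : ℕ}

/-- The set `D(K)` of all diameters of `K`, as unordered pairs. -/
def diameters (K : Set (EuclideanSpace ℝ (Fin d))) : Set (Sym2 (EuclideanSpace ℝ (Fin d))) :=
  {e | ∃ x ∈ K, ∃ y ∈ K, dist x y = diam K ∧ e = s(x, y)}

/-- `(K, A)` is general: there is `ε > 0` such that every family `δ t`, `t ∈ [0, 1)`, of functions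
on `A` which vanishes at `t = 0`, satisfies `sup |δ t| < ε` and is continuous in `t` in the sup
norm, is realised by a family of maps `φ t : K → ℝ ^ d` with `φ 0 = id`, continuous in `t` in the
sup norm. -/
def IsGeneral (K : Set (EuclideanSpace ℝ (Fin d))) (A : Set (Sym2 (EuclideanSpace ℝ (Fin d)))) :
    Prop :=
  ∃ ε > 0, ∀ δ : ℝ → Sym2 (EuclideanSpace ℝ (Fin d)) → ℝ,
    (∀ e ∈ A, δ 0 e = 0) →
    (∀ t ∈ Ico (0 : ℝ) 1, ∃ c < ε, ∀ e ∈ A, |δ t e| ≤ c) →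
    (∀ t ∈ Ico (0 : ℝ) 1, ∀ η > 0, ∃ r > 0, ∀ t' ∈ Ico (0 : ℝ) 1, |t' - t| < r →
      ∀ e ∈ A, |δ t' e - δ t e| ≤ η) →
    ∃ φ : ℝ → EuclideanSpace ℝ (Fin d) → EuclideanSpace ℝ (Fin d),
      (∀ x ∈ K, φ 0 x = x) ∧
      (∀ t ∈ Ico (0 : ℝ) 1, ∀ η > 0, ∃ r > 0, ∀ t' ∈ Ico (0 : ℝ) 1, |t' - t| < r →
        ∀ x ∈ K, dist (φ t' x) (φ t x) ≤ η) ∧
      ∀ t ∈ Ico (0 : ℝ) 1, ∀ x ∈ K, ∀ y ∈ K, s(x, y) ∈ A →
        dist (φ t x) (φ t y) = dist x y + δ t s(x, y)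

/-- `K` is the disjoint union of `m` sets of smaller diameter. -/
def SplitsInto (K : Set (EuclideanSpace ℝ (Fin d))) (m : ℕ) : Prop :=
  ∃ P : Fin m → Set (EuclideanSpace ℝ (Fin d)), (⋃ i, P i) = K ∧
    (∀ i j, i ≠ j → Disjoint (P i) (P j)) ∧ ∀ i, diam (P i) < diam K

end Pool.Agent.BQ
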