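import Mathlib
import Pool.Agent.BQ.GDefs

/-!
# Enlarging the dimension

A general configuration of `ℝ ^ d0` stays general in `ℝ ^ d`, `d0 ≤ d`, and the number of parts
does not change.
-/

open Set Metric

namespace Pool.Agent.BQ

variable {d0 d : ℕ}

/-- the inclusion -/
noncomputable def embE (d0 k : ℕ) (x : EuclideanSpace ℝ (Fin d0)) :
    EuclideanSpace ℝ (Fin (d0 + k)) :=
  WithLp.toLp 2 (Fin.append (fun i => x i) (fun _ => 0))

theorem isometry_embE (d0 k : ℕ) : Isometry (embE d0 k) := by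
  refine Isometry.of_dist_eq fun x y => ?_
  rw [EuclideanSpace.dist_eq, EuclideanSpace.dist_eq, Fin.sum_univ_add]
  simp [embE]

theorem diameters_image {f : EuclideanSpace ℝ (Fin d0) → EuclideanSpace ℝ (Fin d)}
    (hf : Isometry f) {K : Set (EuclideanSpace ℝ (Fin d0))} {e : Sym2 (EuclideanSpace ℝ (Fin d0))}
    (he : e ∈ diameters K) : Sym2.map f e ∈ diameters (f '' K) := by
  obtain ⟨x, hx, y, hy, hxy, rfl⟩ := he
  exact ⟨f x, mem_image_of_mem f hx, f y, mem_image_of_mem f hy, by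
    rw [hf.dist_eq, hf.diam_image, hxy], rfl⟩

theorem diameters_image' {f : EuclideanSpace ℝ (Fin d0) → EuclideanSpace ℝ (Fin d)}
    (hf : Isometry f) {K : Set (EuclideanSpace ℝ (Fin d0))} {x y : EuclideanSpace ℝ (Fin d0)}
    (he : s(f x, f y) ∈ diameters (f '' K)) : s(x, y) ∈ diameters K := by
  obtain ⟨_, ⟨a, ha, rfl⟩, _, ⟨b, hb, rfl⟩, hab, heq⟩ := he
  refine ⟨a, ha, b, hb, ?_, ?_⟩
  · rw [← hf.dist_eq, hab, hf.diam_image]
  · have h1 : Sym2.map f s(x, y) = Sym2.map f s(a, b) := heq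
    exact Sym2.map.injective hf.injective h1

theorem isGeneral_image {f : EuclideanSpace ℝ (Fin d0) → EuclideanSpace ℝ (Fin d)}
    (hf : Isometry f) {K : Set (EuclideanSpace ℝ (Fin d0))} (hg : IsGeneral K (diameters K)) :
    IsGeneral (f '' K) (diameters (f '' K)) := by
  obtain ⟨ε, hε, H⟩ := hg
  refine ⟨ε, hε, fun δ h1 h2 h3 => ?_⟩
  obtain ⟨φ, p1, p2, p3⟩ := H (fun t e => δ t (Sym2.map f e))
    (fun e he => h1 _ (diameters_image hf he))
    (fun t ht => by
      obtain ⟨c, hc, hc'⟩ := h2 t ht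
      exact ⟨c, hc, fun e he => hc' _ (diameters_image hf he)⟩)
    (fun t ht η hη => by
      obtain ⟨r, hr, hr'⟩ := h3 t ht η hη
      exact ⟨r, hr, fun t' ht' htt e he => hr' t' ht' htt _ (diameters_image hf he)⟩)
  have hinv : ∀ x, Function.invFun f (f x) = x := Function.leftInverse_invFun hf.injective
  refine ⟨fun t x => f (φ t (Function.invFun f x)), ?_, ?_, ?_⟩
  · rintro _ ⟨x, hx, rfl⟩
    simp only [hinv]
    rw [p1 x hx]
  · intro t ht η hη
    obtain ⟨r, hr, hr'⟩ := p2 t ht η hη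
    refine ⟨r, hr, fun t' ht' htt => ?_⟩
    rintro _ ⟨x, hx, rfl⟩
    simp only [hinv]
    rw [hf.dist_eq]
    exact hr' t' ht' htt x hx
  · rintro t ht _ ⟨x, hx, rfl⟩ _ ⟨y, hy, rfl⟩ hxy
    simp only [hinv]
    rw [hf.dist_eq, hf.dist_eq, p3 t ht x hx y hy (diameters_image' hf hxy)]
    rfl

theorem splitsInto_of_image {f : EuclideanSpace ℝ (Fin d0) → EuclideanSpace ℝ (Fin d)}
    (hf : Isometry f) {K : Set (EuclideanSpace ℝ (Fin d0))} {m : ℕ}
    (h : SplitsInto (f '' K) m) : SplitsInto K m := by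
  obtain ⟨P, hU, hD, hd⟩ := h
  refine ⟨fun i => f ⁻¹' P i, ?_, ?_, ?_⟩
  · rw [← preimage_iUnion, hU, preimage_image_eq K hf.injective]
  · intro i j hij
    exact (hD i j hij).preimage f
  · intro i
    have h1 : f '' (f ⁻¹' P i) = P i := by
      rw [image_preimage_eq_iff]
      intro x hx
      have h2 : x ∈ f '' K := by rw [← hU]; exact mem_iUnion.2 ⟨i, hx⟩
      obtain ⟨y, -, rfl⟩ := h2
      exact mem_range_self y
    have h2 := hd i
    rw [← h1, hf.diam_image, hf.diam_image] at h2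
    exact h2

/-- **All larger dimensions.** -/
theorem exists_larger (hd : d0 ≤ d) {K : Set (EuclideanSpace ℝ (Fin d0))} {m : ℕ}
    (hK : IsCompact K) (hn : K.Nontrivial) (hg : IsGeneral K (diameters K))
    (hs : ¬ SplitsInto K m) :
    ∃ K' : Set (EuclideanSpace ℝ (Fin d)), IsCompact K' ∧ K'.Nontrivial ∧
      IsGeneral K' (diameters K') ∧ ¬ SplitsInto K' m := by
  obtain ⟨k, rfl⟩ := Nat.exists_eq_add_of_le hd
  have hf := isometry_embE d0 k
  exact ⟨embE d0 k '' K, hK.image hf.continuous, hn.image hf.injective, isGeneral_image hf hg,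
    fun h => hs (splitsInto_of_image hf h)⟩

end Pool.Agent.BQ
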