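import Mathlib

/-!
# Quaternionic frames

`A s : I → ℍ` is a vector of quaternions for every label `s`, `kap A s t = A_s^* A_t`.  The point
`pt A c s g` has the coordinates `A s a * g` and `c • (A s a * star (A s b))`.
-/

open Finset Quaternion
open scoped RealInnerProductSpace

namespace Pool.Agent.BQ

variable {S I : Type} [Fintype I]

/-- The quaternionic inner product `A_s^* A_t`. -/
noncomputable def kap (A : S → I → ℍ[ℝ]) (s t : S) : ℍ[ℝ] := ∑ a, star (A s a) * A t a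

/-- The ambient space: `|I| + |I| ^ 2` quaternionic coordinates. -/
abbrev Amb (I : Type) : Type := PiLp 2 (fun _ : I ⊕ (I × I) => ℍ[ℝ])

/-- The points. -/
noncomputable def pt (A : S → I → ℍ[ℝ]) (c : ℝ) (s : S) (g : ℍ[ℝ]) : Amb I :=
  WithLp.toLp 2 (Sum.elim (fun a => A s a * g) (fun x => c • (A s x.1 * star (A s x.2))))

/-- The direction in which a point is moved because of a neighbour with label `s`. -/
noncomputable def dirv (A : S → I → ℍ[ℝ]) (c : ℝ) (s : S) : Amb I :=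
  WithLp.toLp 2 (Sum.elim (fun _ => 0) (fun x => c • (A s x.1 * star (A s x.2))))

lemma GF_re_comm (x y : ℍ[ℝ]) : (x * y).re = (y * x).re := by
  simp only [re_mul]
  ring

lemma GF_inner (x y : ℍ[ℝ]) : ⟪x, y⟫ = (x * star y).re := Quaternion.inner_def x y

lemma GF_re_star (x : ℍ[ℝ]) : (star x).re = x.re := by simp

lemma GF_kap_star (A : S → I → ℍ[ℝ]) (s t : S) : kap A t s = star (kap A s t) := by
  unfold kap
  rw [star_sum]
  refine Finset.sum_congr rfl fun a _ => ?_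
  rw [star_mul, star_star]

lemma GF_re_sum {J : Type} (s : Finset J) (f : J → ℍ[ℝ]) : (∑ a ∈ s, f a).re = ∑ a ∈ s, (f a).re := by
  classical
  induction s using Finset.induction_on with
  | empty => simp
  | insert a s ha ih => rw [Finset.sum_insert ha, Finset.sum_insert ha, re_add, ih]

/-- First part of the inner product. -/
lemma GF_in1 (A : S → I → ℍ[ℝ]) (s t : S) (g g' : ℍ[ℝ]) :
    ∑ a, ⟪A s a * g, A t a * g'⟫ = ⟪g, kap A s t * g'⟫ := by
  rw [GF_inner]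
  unfold kap
  rw [Finset.sum_mul, star_sum, Finset.mul_sum, GF_re_sum]
  refine Finset.sum_congr rfl fun a _ => ?_
  rw [GF_inner, star_mul, star_mul, star_mul, star_star, mul_assoc, GF_re_comm]
  congr 1
  simp only [mul_assoc] <;> rfl

/-- Second part of the inner product. -/
lemma GF_in2 (A : S → I → ℍ[ℝ]) (s t : S) (c c' : ℝ) :
    ∑ x : I × I, ⟪c • (A s x.1 * star (A s x.2)), c' • (A t x.1 * star (A t x.2))⟫ =
      c * c' * ‖kap A s t‖ ^ 2 := by
  have h1 : ∀ x : I × I, ⟪c • (A s x.1 * star (A s x.2)), c' • (A t x.1 * star (A t x.2))⟫ =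
      c * c' * (A s x.1 * (star (A s x.2) * A t x.2) * star (A t x.1)).re := by
    intro x
    rw [real_inner_smul_left, real_inner_smul_right, GF_inner, star_mul, star_star, ← mul_assoc c]
    congr 2
    simp only [mul_assoc] <;> rfl
  rw [Finset.sum_congr rfl fun x _ => h1 x, ← Finset.mul_sum]
  congr 1
  rw [Fintype.sum_prod_type, ← real_inner_self_eq_norm_sq]
  have h2 : ∀ a : I, ∑ b : I, (A s a * (star (A s b) * A t b) * star (A t a)).re =
      (star (A t a) * A s a * kap A s t).re := by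
    intro a
    rw [← GF_re_sum, ← Finset.sum_mul, ← Finset.mul_sum, GF_re_comm, ← mul_assoc]
    rfl
  rw [Finset.sum_congr rfl fun a _ => h2 a, ← GF_re_sum, ← Finset.sum_mul]
  have h3 : ∑ a, star (A t a) * A s a = star (kap A s t) := by
    rw [← GF_kap_star]; rfl
  rw [h3, GF_inner, GF_re_comm]

lemma GF_inner_pt (A : S → I → ℍ[ℝ]) (s t : S) (c : ℝ) (g g' : ℍ[ℝ]) :
    ⟪pt A c s g, pt A c t g'⟫ = ⟪g, kap A s t * g'⟫ + c ^ 2 * ‖kap A s t‖ ^ 2 := by
  rw [PiLp.inner_apply, Fintype.sum_sum_type]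
  have h1 : ∀ a : I, ⟪(pt A c s g) (Sum.inl a), (pt A c t g') (Sum.inl a)⟫ =
      ⟪A s a * g, A t a * g'⟫ := fun a => rfl
  have h2 : ∀ x : I × I, ⟪(pt A c s g) (Sum.inr x), (pt A c t g') (Sum.inr x)⟫ =
      ⟪c • (A s x.1 * star (A s x.2)), c • (A t x.1 * star (A t x.2))⟫ := fun a => rfl
  rw [Finset.sum_congr rfl fun a _ => h1 a, Finset.sum_congr rfl fun a _ => h2 a, GF_in1, GF_in2,
    ← sq]

lemma GF_inner_dirv (A : S → I → ℍ[ℝ]) (s t : S) (c c' : ℝ) (g : ℍ[ℝ]) :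
    ⟪pt A c s g, dirv A c' t⟫ = c * c' * ‖kap A s t‖ ^ 2 := by
  rw [PiLp.inner_apply, Fintype.sum_sum_type]
  have h1 : ∀ a : I, ⟪(pt A c s g) (Sum.inl a), (dirv A c' t) (Sum.inl a)⟫ = 0 :=
    fun a => inner_zero_right _
  have h2 : ∀ x : I × I, ⟪(pt A c s g) (Sum.inr x), (dirv A c' t) (Sum.inr x)⟫ =
      ⟪c • (A s x.1 * star (A s x.2)), c' • (A t x.1 * star (A t x.2))⟫ := fun a => rfl
  rw [Finset.sum_congr rfl fun a _ => h1 a, Finset.sum_congr rfl fun a _ => h2 a, GF_in2]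
  simp

lemma GF_inner_dirv_self (A : S → I → ℍ[ℝ]) (t : S) (c : ℝ) :
    ⟪dirv A c t, dirv A c t⟫ = c ^ 2 * ‖kap A t t‖ ^ 2 := by
  rw [PiLp.inner_apply, Fintype.sum_sum_type]
  have h1 : ∀ a : I, ⟪(dirv A c t) (Sum.inl a), (dirv A c t) (Sum.inl a)⟫ = 0 :=
    fun a => inner_zero_right _
  have h2 : ∀ x : I × I, ⟪(dirv A c t) (Sum.inr x), (dirv A c t) (Sum.inr x)⟫ =
      ⟪c • (A t x.1 * star (A t x.2)), c • (A t x.1 * star (A t x.2))⟫ := fun a => rfl
  rw [Finset.sum_congr rfl fun a _ => h1 a, Finset.sum_congr rfl fun a _ => h2 a, GF_in2, ← sq]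
  simp

/-- Frames: all vectors have the same length. -/
def IsFrame (A : S → I → ℍ[ℝ]) (M : ℝ) : Prop := ∀ s, kap A s s = (M : ℍ[ℝ])

variable {A : S → I → ℍ[ℝ]} {M : ℝ}

lemma GF_norm_self (hA : IsFrame A M) (hM : 0 ≤ M) (s : S) : ‖kap A s s‖ = M := by
  rw [hA s, Quaternion.norm_coe, Real.norm_eq_abs, abs_of_nonneg hM]

/-- The distances. -/
lemma GF_dist (hA : IsFrame A M) (hM : 0 ≤ M) {ν c : ℝ} (hν : 0 < ν) (hc : c ^ 2 = 1 / (2 * ν))
    (s t : S) {g g' : ℍ[ℝ]} (hg : ‖g‖ = 1) (hg' : ‖g'‖ = 1) :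
    dist (pt A c s g) (pt A c t g') ^ 2 =
      (2 * M + M ^ 2 / ν + ν) - (‖kap A s t‖ - ν) ^ 2 / ν -
        2 * (‖kap A s t‖ + ⟪g, kap A s t * g'⟫) := by
  have h1 : ∀ (u : S) (h : ℍ[ℝ]), ‖h‖ = 1 → ‖pt A c u h‖ ^ 2 = M + c ^ 2 * M ^ 2 := by
    intro u h hh
    rw [← real_inner_self_eq_norm_sq, GF_inner_pt, GF_norm_self hA hM, hA u,
      Quaternion.coe_mul_eq_smul, real_inner_smul_right, real_inner_self_eq_norm_sq, hh]
    ring
  rw [dist_eq_norm, norm_sub_sq_real, h1 s g hg, h1 t g' hg', GF_inner_pt, hc]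
  field_simp
  ring

lemma GF_cauchy (κ g g' : ℍ[ℝ]) (hg : ‖g‖ = 1) (hg' : ‖g'‖ = 1) :
    ‖κ * g' + ‖κ‖ • g‖ ^ 2 = 2 * ‖κ‖ * (‖κ‖ + ⟪g, κ * g'⟫) := by
  rw [norm_add_sq_real, norm_mul, hg', norm_smul, Real.norm_eq_abs, abs_of_nonneg (norm_nonneg κ),
    hg, real_inner_smul_right, real_inner_comm]
  ring

lemma GF_cauchy0 (κ g g' : ℍ[ℝ]) (hg : ‖g‖ = 1) (hg' : ‖g'‖ = 1) : 0 ≤ ‖κ‖ + ⟪g, κ * g'⟫ := by
  have h1 := abs_real_inner_le_norm g (κ * g')
  rw [norm_mul, hg, hg', one_mul, mul_one] at h1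
  have := (abs_le.1 h1).1
  linarith

/-- The diameter is at most the square root of `2 M + M ^ 2 / ν + ν`. -/
lemma GF_dist_le (hA : IsFrame A M) (hM : 0 ≤ M) {ν c : ℝ} (hν : 0 < ν)
    (hc : c ^ 2 = 1 / (2 * ν)) (s t : S) {g g' : ℍ[ℝ]} (hg : ‖g‖ = 1) (hg' : ‖g'‖ = 1) :
    dist (pt A c s g) (pt A c t g') ≤ Real.sqrt (2 * M + M ^ 2 / ν + ν) := by
  apply Real.le_sqrt_of_sq_le
  rw [GF_dist hA hM hν hc s t hg hg']
  have h1 := GF_cauchy0 (kap A s t) g g' hg hg'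
  have h2 : 0 ≤ (‖kap A s t‖ - ν) ^ 2 / ν := by positivity
  linarith

/-- The diameters. -/
lemma GF_dist_eq (hA : IsFrame A M) (hM : 0 ≤ M) {ν c : ℝ} (hν : 0 < ν)
    (hc : c ^ 2 = 1 / (2 * ν)) (s t : S) {g g' : ℍ[ℝ]} (hg : ‖g‖ = 1) (hg' : ‖g'‖ = 1) :
    dist (pt A c s g) (pt A c t g') = Real.sqrt (2 * M + M ^ 2 / ν + ν) ↔
      kap A s t * g' = -(ν • g) := by
  have h0 : 0 ≤ 2 * M + M ^ 2 / ν + ν := by positivity
  have hd := GF_dist hA hM hν hc s t hg hg'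
  constructor
  · intro h
    rw [h, Real.sq_sqrt h0] at hd
    have h1 := GF_cauchy0 (kap A s t) g g' hg hg'
    have h2 : 0 ≤ (‖kap A s t‖ - ν) ^ 2 / ν := by positivity
    have h3 : (‖kap A s t‖ - ν) ^ 2 / ν = 0 := by linarith
    have h4 : ‖kap A s t‖ + ⟪g, kap A s t * g'⟫ = 0 := by linarith
    have h5 : ‖kap A s t‖ = ν := by
      rcases div_eq_zero_iff.1 h3 with h | h
      · have := pow_eq_zero_iff (two_ne_zero) |>.1 h
        linarith
      · exact absurd h hν.ne'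
    have h6 := GF_cauchy (kap A s t) g g' hg hg'
    rw [h4, mul_zero, h5] at h6
    have h7 : kap A s t * g' + ν • g = 0 := norm_eq_zero.1 (pow_eq_zero_iff (two_ne_zero) |>.1 h6)
    exact eq_neg_of_add_eq_zero_left h7
  · intro h
    have h5 : ‖kap A s t‖ = ν := by
      have := congrArg norm h
      rwa [norm_mul, hg', mul_one, norm_neg, norm_smul, hg, mul_one, Real.norm_eq_abs,
        abs_of_pos hν] at this
    rw [h5, h, inner_neg_right, real_inner_smul_right, real_inner_self_eq_norm_sq, hg] at hd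
    have h8 : dist (pt A c s g) (pt A c t g') ^ 2 = 2 * M + M ^ 2 / ν + ν := by
      rw [hd]; ring
    rw [← h8, Real.sqrt_sq dist_nonneg]

/-- The edge relation is symmetric. -/
lemma GF_edge_symm (A : S → I → ℍ[ℝ]) {ν : ℝ} (hν : 0 < ν) {s t : S} {g g' : ℍ[ℝ]}
    (hg : ‖g‖ = 1) (hg' : ‖g'‖ = 1) (h : kap A s t * g' = -(ν • g)) :
    kap A t s * g = -(ν • g') := by
  have h5 : ‖kap A s t‖ = ν := by
    have := congrArg norm h
    rwa [norm_mul, hg', mul_one, norm_neg, norm_smul, hg, mul_one, Real.norm_eq_abs,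
      abs_of_pos hν] at this
  have h6 : star (kap A s t) * kap A s t = ((ν ^ 2 : ℝ) : ℍ[ℝ]) := by
    rw [Quaternion.star_mul_self, Quaternion.normSq_eq_norm_mul_self, h5, sq]
  have h7 : star (kap A s t) * (kap A s t * g') = star (kap A s t) * -(ν • g) := by rw [h]
  rw [← mul_assoc, h6, Quaternion.coe_mul_eq_smul, mul_neg, mul_smul_comm, sq, ← smul_smul,
    ← smul_neg] at h7
  have h8 : ν • g' = -(star (kap A s t) * g) := smul_right_injective _ hν.ne' h7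
  rw [GF_kap_star, h8, neg_neg]

end Pool.Agent.BQ
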