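import Mathlib

/-!
# Realising small deformations of the lengths of the edges of an oriented configuration

Every point `x` has at most `C` lower neighbours `y ∈ out x`; it is moved along the vectors `w y`.
If the vectors are nearly orthogonal to all edges at `x` but one, then all small deformations of the
lengths of the edges are realised (fixed point of a contraction in the sup norm).
-/

open Set Metric Filter Topology
open scoped RealInnerProductSpace

namespace Pool.Agent.BQ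

section FixedPoint

variable {P : Type}

/-- Contraction principle for bounded functions, in elementary form. -/
theorem GS_exists_fixed (Φ : (P → ℝ) → P → ℝ) {R : ℝ} (hR : 0 ≤ R)
    (h1 : ∀ s, (∀ p, |s p| ≤ R) → ∀ p, |Φ s p| ≤ R)
    (h2 : ∀ s s', ∀ ρ, (∀ p, |s p| ≤ R) → (∀ p, |s' p| ≤ R) → (∀ p, |s p - s' p| ≤ ρ) →
      ∀ p, |Φ s p - Φ s' p| ≤ ρ / 2) :
    ∃ s : P → ℝ, (∀ p, |s p| ≤ R) ∧ ∀ p, Φ s p = s p := by
  let u : ℕ → P → ℝ := fun n => Φ^[n] 0
  have hu : ∀ n, u (n + 1) = Φ (u n) := fun n => Function.iterate_succ_apply' Φ n 0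
  have hb : ∀ n p, |u n p| ≤ R := by
    intro n
    induction n with
    | zero => intro p; simpa [u] using hR
    | succ n ih => rw [hu]; exact h1 _ ih
  have hd : ∀ n p, |u n p - u (n + 1) p| ≤ (2 * R) / 2 / 2 ^ n := by
    intro n
    induction n with
    | zero =>
      intro p
      have : u 0 p = 0 := rfl
      rw [this, zero_sub, abs_neg]
      simpa using hb 1 p
    | succ n ih =>
      intro p
      rw [hu (n + 1), hu n]
      have := h2 (u n) (u (n + 1)) _ (hb n) (hb (n + 1)) ih p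
      rw [← hu n] at this ⊢
      refine this.trans (le_of_eq ?_)
      rw [pow_succ]; field_simp
  have hc : ∀ p, CauchySeq fun n => u n p := fun p =>
    cauchySeq_of_le_geometric_two (C := 2 * R) fun n => by rw [Real.dist_eq]; exact hd n p
  choose s hs using fun p => cauchySeq_tendsto_of_complete (hc p)
  have hsR : ∀ p, |s p| ≤ R := fun p =>
    le_of_tendsto ((hs p).abs) (Eventually.of_forall fun n => hb n p)
  have hsu : ∀ n p, |u n p - s p| ≤ 2 * R / 2 ^ n := by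
    intro n p
    rw [← Real.dist_eq]
    exact dist_le_of_le_geometric_two_of_tendsto (C := 2 * R)
      (fun n => by rw [Real.dist_eq]; exact hd n p) (hs p) n
  refine ⟨s, hsR, fun p => ?_⟩
  have h3 : ∀ n, |Φ s p - s p| ≤ 2 * R / 2 ^ n := by
    intro n
    have h4 := h2 s (u n) _ hsR (hb n) (fun p => by rw [abs_sub_comm]; exact hsu n p) p
    rw [← hu n] at h4
    have h5 := hsu (n + 1) p
    have h6 : 2 * R / 2 ^ (n + 1) = 2 * R / 2 ^ n / 2 := by rw [pow_succ]; field_simp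
    rw [h6] at h5
    calc |Φ s p - s p| = |(Φ s p - u (n + 1) p) + (u (n + 1) p - s p)| := by ring_nf
      _ ≤ |Φ s p - u (n + 1) p| + |u (n + 1) p - s p| := abs_add_le _ _
      _ ≤ 2 * R / 2 ^ n := by linarith
  have h7 : Tendsto (fun n : ℕ => 2 * R / 2 ^ n) atTop (𝓝 0) := by
    have := (tendsto_pow_atTop_nhds_zero_of_lt_one (r := (1 / 2 : ℝ)) (by norm_num)
      (by norm_num)).const_mul (2 * R)
    simpa [div_eq_mul_inv, mul_assoc] using this
  have h8 : |Φ s p - s p| ≤ 0 := ge_of_tendsto' h7 h3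
  exact sub_eq_zero.1 (abs_eq_zero.1 (le_antisymm h8 (abs_nonneg _)))

/-- Fixed points depend continuously on the map. -/
theorem GS_fixed_close {Φ Φ' : (P → ℝ) → P → ℝ} {R α : ℝ} (hα : 0 ≤ α)
    (h2 : ∀ s s', ∀ ρ, (∀ p, |s p| ≤ R) → (∀ p, |s' p| ≤ R) → (∀ p, |s p - s' p| ≤ ρ) →
      ∀ p, |Φ s p - Φ s' p| ≤ ρ / 2)
    (h3 : ∀ s p, |Φ s p - Φ' s p| ≤ α)
    {s s' : P → ℝ} (hs : ∀ p, |s p| ≤ R) (hs' : ∀ p, |s' p| ≤ R)
    (hf : ∀ p, Φ s p = s p) (hf' : ∀ p, Φ' s' p = s' p) (p : P) : |s p - s' p| ≤ 2 * α := by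
  have key : ∀ n : ℕ, ∀ p, |s p - s' p| ≤ 2 * α + 2 * R / 2 ^ n := by
    intro n
    induction n with
    | zero =>
      intro p
      have h4 := hs p
      have h5 := hs' p
      have h6 : |s p - s' p| ≤ |s p| + |s' p| := abs_sub _ _
      simp only [pow_zero, div_one]
      linarith
    | succ n ih =>
      intro p
      have h4 := h2 s s' _ hs hs' ih p
      have h5 := h3 s' p
      rw [hf p] at h4
      rw [hf' p] at h5
      have h6 : 2 * R / 2 ^ (n + 1) = 2 * R / 2 ^ n / 2 := by rw [pow_succ]; field_simp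
      rw [h6]
      calc |s p - s' p| = |(s p - Φ s' p) + (Φ s' p - s' p)| := by ring_nf
        _ ≤ |s p - Φ s' p| + |Φ s' p - s' p| := abs_add_le _ _
        _ ≤ _ := by linarith
  have h7 : Tendsto (fun n : ℕ => 2 * α + 2 * R / 2 ^ n) atTop (𝓝 (2 * α + 0)) := by
    refine Tendsto.const_add _ ?_
    have := (tendsto_pow_atTop_nhds_zero_of_lt_one (r := (1 / 2 : ℝ)) (by norm_num)
      (by norm_num)).const_mul (2 * R)
    simpa [div_eq_mul_inv, mul_assoc] using this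
  rw [add_zero] at h7
  exact ge_of_tendsto' h7 fun n => key n p

end FixedPoint

variable {E : Type} [NormedAddCommGroup E] [InnerProductSpace ℝ E]

/-- **Solving the length equations.** -/
theorem GS_solve {X : Type} (P : X → E) {D a η : ℝ} {C : ℕ} (out : X → Finset X) (w : X → E)
    (hD : 0 < D) (ha : 0 < a) (hC : ∀ x, (out x).card ≤ C) (hw : ∀ x, ‖w x‖ ≤ 1)
    (h1 : ∀ x, ∀ y ∈ out x, a ≤ -⟪P x - P y, w y⟫)
    (h2 : ∀ x, ∀ y ∈ out x, ∀ z ∈ out x, z ≠ y → |⟪P x - P y, w z⟫| ≤ η)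
    (h3 : ∀ x, ∀ y ∈ out x, ∀ z ∈ out y, |⟪P x - P y, w z⟫| ≤ η)
    (hη0 : 0 ≤ η) (hη : 8 * C * η ≤ a) (hdist : ∀ x, ∀ y ∈ out x, dist (P x) (P y) = D) :
    ∃ ε > 0, ∃ L > 0, ε ≤ D ∧ ∃ W : (X → X → ℝ) → X → E,
      (∀ x, W 0 x = 0) ∧
      (∀ δ δ' : X → X → ℝ, (∀ x y, |δ x y| ≤ ε) → (∀ x y, |δ' x y| ≤ ε) → ∀ α ≥ 0,
        (∀ x y, |δ x y - δ' x y| ≤ α) → ∀ x, ‖W δ x - W δ' x‖ ≤ L * α) ∧
      ∀ δ : X → X → ℝ, (∀ x y, |δ x y| ≤ ε) → (∀ x y, δ x y = δ y x) →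
        ∀ x y, (y ∈ out x ∨ x ∈ out y) → dist (P x + W δ x) (P y + W δ y) = D + δ x y := by
  classical
  let V : (X × X → ℝ) → X → E := fun s x => ∑ z ∈ out x, s (x, z) • w z
  set L : ℝ := C + 1 with hL
  have hL0 : 0 < L := by positivity
  have hV : ∀ s s' : X × X → ℝ, ∀ ρ, 0 ≤ ρ → (∀ p, |s p - s' p| ≤ ρ) → ∀ x,
      ‖V s x - V s' x‖ ≤ L * ρ := by
    intro s s' ρ hρ hss x
    have e1 : V s x - V s' x = ∑ z ∈ out x, (s (x, z) - s' (x, z)) • w z := by
      simp only [V, sub_smul, Finset.sum_sub_distrib]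
    rw [e1]
    calc ‖∑ z ∈ out x, (s (x, z) - s' (x, z)) • w z‖
        ≤ ∑ z ∈ out x, ‖(s (x, z) - s' (x, z)) • w z‖ := norm_sum_le _ _
      _ ≤ ∑ z ∈ out x, ρ := by
          refine Finset.sum_le_sum fun z hz => ?_
          rw [norm_smul, Real.norm_eq_abs]
          calc _ ≤ ρ * 1 := mul_le_mul (hss _) (hw z) (norm_nonneg _) hρ
            _ = ρ := mul_one _
      _ = (out x).card * ρ := by rw [Finset.sum_const, nsmul_eq_mul]
      _ ≤ L * ρ := by
          have : ((out x).card : ℝ) ≤ C := by exact_mod_cast hC x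
          refine mul_le_mul_of_nonneg_right ?_ hρ
          linarith
  have hV00 : ∀ x, V 0 x = 0 := fun x => by simp [V]
  have hV0 : ∀ s : X × X → ℝ, ∀ ρ, 0 ≤ ρ → (∀ p, |s p| ≤ ρ) → ∀ x, ‖V s x‖ ≤ L * ρ := by
    intro s ρ hρ hs x
    have := hV s 0 ρ hρ (by simpa using hs) x
    rwa [hV00, sub_zero] at this
  -- the error term
  let T : (X × X → ℝ) → X → X → ℝ := fun s x y =>
    ∑ z ∈ out y, s (y, z) * ⟪P x - P y, w z⟫ -
      ∑ z ∈ (out x).erase y, s (x, z) * ⟪P x - P y, w z⟫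
  have hT : ∀ s s' : X × X → ℝ, ∀ ρ, 0 ≤ ρ → (∀ p, |s p - s' p| ≤ ρ) → ∀ x, ∀ y ∈ out x,
      |T s x y - T s' x y| ≤ a / 4 * ρ := by
    intro s s' ρ hρ hss x y hy
    have e1 : T s x y - T s' x y = ∑ z ∈ out y, (s (y, z) - s' (y, z)) * ⟪P x - P y, w z⟫ -
        ∑ z ∈ (out x).erase y, (s (x, z) - s' (x, z)) * ⟪P x - P y, w z⟫ := by
      simp only [T, sub_mul, Finset.sum_sub_distrib]
      ring
    have e2 : |∑ z ∈ out y, (s (y, z) - s' (y, z)) * ⟪P x - P y, w z⟫| ≤ C * (ρ * η) := by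
      calc _ ≤ ∑ z ∈ out y, |(s (y, z) - s' (y, z)) * ⟪P x - P y, w z⟫| :=
            Finset.abs_sum_le_sum_abs _ _
        _ ≤ ∑ z ∈ out y, ρ * η := by
            refine Finset.sum_le_sum fun z hz => ?_
            rw [abs_mul]
            exact mul_le_mul (hss _) (h3 x y hy z hz) (abs_nonneg _) hρ
        _ = (out y).card * (ρ * η) := by rw [Finset.sum_const, nsmul_eq_mul]
        _ ≤ C * (ρ * η) := by
            have : ((out y).card : ℝ) ≤ C := by exact_mod_cast hC y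
            exact mul_le_mul_of_nonneg_right this (by positivity)
    have e3 : |∑ z ∈ (out x).erase y, (s (x, z) - s' (x, z)) * ⟪P x - P y, w z⟫| ≤
        C * (ρ * η) := by
      calc _ ≤ ∑ z ∈ (out x).erase y, |(s (x, z) - s' (x, z)) * ⟪P x - P y, w z⟫| :=
            Finset.abs_sum_le_sum_abs _ _
        _ ≤ ∑ z ∈ (out x).erase y, ρ * η := by
            refine Finset.sum_le_sum fun z hz => ?_
            rw [abs_mul]
            exact mul_le_mul (hss _) (h2 x y hy z (Finset.mem_of_mem_erase hz)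
              (Finset.ne_of_mem_erase hz)) (abs_nonneg _) hρ
        _ = ((out x).erase y).card * (ρ * η) := by rw [Finset.sum_const, nsmul_eq_mul]
        _ ≤ C * (ρ * η) := by
            have : (((out x).erase y).card : ℝ) ≤ C := by
              exact_mod_cast (Finset.card_erase_le).trans (hC x)
            exact mul_le_mul_of_nonneg_right this (by positivity)
    rw [e1]
    refine (abs_sub _ _).trans ?_
    have e4 : 8 * C * η * ρ ≤ a * ρ := mul_le_mul_of_nonneg_right hη hρ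
    nlinarith
  have hT00 : ∀ x y, T 0 x y = 0 := fun x y => by simp [T]
  have hT0 : ∀ s : X × X → ℝ, ∀ ρ, 0 ≤ ρ → (∀ p, |s p| ≤ ρ) → ∀ x, ∀ y ∈ out x,
      |T s x y| ≤ a / 4 * ρ := by
    intro s ρ hρ hs x y hy
    have := hT s 0 ρ hρ (by simpa using hs) x y hy
    rwa [hT00, sub_zero] at this
  set R := a / (16 * L ^ 2) with hR
  have hR0 : 0 < R := by positivity
  have hLR : L ^ 2 * R = a / 16 := by rw [hR]; field_simp
  set ε := min D (a * R / (8 * D)) with hε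
  have hε0 : 0 < ε := by positivity
  have hεD : ε ≤ D := min_le_left _ _
  have hεR : D * ε ≤ a * R / 8 := by
    have : ε ≤ a * R / (8 * D) := min_le_right _ _
    calc D * ε ≤ D * (a * R / (8 * D)) := by gcongr
      _ = a * R / 8 := by field_simp
  let Φ : (X → X → ℝ) → (X × X → ℝ) → X × X → ℝ := fun δ s p =>
    if p.2 ∈ out p.1 then
      ((2 * D * δ p.1 p.2 + δ p.1 p.2 ^ 2 - ‖V s p.1 - V s p.2‖ ^ 2) / 2 + T s p.1 p.2) /
        ⟪P p.1 - P p.2, w p.2⟫ else 0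
  have hdiv : ∀ x, ∀ y ∈ out x, ∀ u : ℝ, |u / ⟪P x - P y, w y⟫| ≤ |u| / a := by
    intro x y hy u
    have e1 := h1 x y hy
    have e2 : |⟪P x - P y, w y⟫| = -⟪P x - P y, w y⟫ := by
      rw [abs_of_neg]
      linarith
    rw [abs_div, e2]
    exact div_le_div_of_nonneg_left (abs_nonneg _) ha e1
  have hΦ1 : ∀ δ : X → X → ℝ, (∀ x y, |δ x y| ≤ ε) → ∀ s, (∀ p, |s p| ≤ R) →
      ∀ p, |Φ δ s p| ≤ R := by
    intro δ hδ s hs p
    by_cases hp : p.2 ∈ out p.1
    · simp only [Φ, hp, if_true]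
      refine (hdiv _ _ hp _).trans ?_
      rw [div_le_iff₀ ha]
      have e1 := hV0 s R hR0.le hs p.1
      have e2 := hV0 s R hR0.le hs p.2
      have e3 : ‖V s p.1 - V s p.2‖ ≤ 2 * (L * R) := (norm_sub_le _ _).trans (by linarith)
      have e4 : ‖V s p.1 - V s p.2‖ ^ 2 ≤ a * R / 4 := by
        calc ‖V s p.1 - V s p.2‖ ^ 2 ≤ (2 * (L * R)) ^ 2 :=
              pow_le_pow_left₀ (norm_nonneg _) e3 2
          _ = 4 * (L ^ 2 * R) * R := by ring
          _ = a * R / 4 := by rw [hLR]; ring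
      have e5 := hδ p.1 p.2
      have e6 : 0 ≤ ‖V s p.1 - V s p.2‖ ^ 2 := by positivity
      have e7 : δ p.1 p.2 ^ 2 ≤ D * ε := by
        rw [← sq_abs]
        calc |δ p.1 p.2| ^ 2 = |δ p.1 p.2| * |δ p.1 p.2| := sq _
          _ ≤ D * ε := mul_le_mul ((hδ _ _).trans hεD) (hδ _ _) (abs_nonneg _) hD.le
      have e8 : 0 ≤ δ p.1 p.2 ^ 2 := by positivity
      have e9 : D * |δ p.1 p.2| ≤ D * ε := mul_le_mul_of_nonneg_left e5 hD.le
      have e10 : |D * δ p.1 p.2| ≤ D * ε := by rwa [abs_mul, abs_of_pos hD]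
      have e11 := hT0 s R hR0.le hs p.1 p.2 hp
      rw [abs_le] at e10 e11 ⊢
      have e12 : 0 < a * R := by positivity
      constructor <;> nlinarith [e10.1, e10.2, e11.1, e11.2]
    · simp only [Φ, hp, if_false, abs_zero]
      exact hR0.le
  have hΦ2 : ∀ δ : X → X → ℝ, ∀ s s' : X × X → ℝ, ∀ ρ, (∀ p, |s p| ≤ R) → (∀ p, |s' p| ≤ R) →
      (∀ p, |s p - s' p| ≤ ρ) → ∀ p, |Φ δ s p - Φ δ s' p| ≤ ρ / 2 := by
    intro δ s s' ρ hs hs' hss p
    have hρ : 0 ≤ ρ := (abs_nonneg _).trans (hss p)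
    by_cases hp : p.2 ∈ out p.1
    · simp only [Φ, hp, if_true]
      set v := V s p.1 - V s p.2 with hv
      set v' := V s' p.1 - V s' p.2 with hv'
      have e1 := hV0 s R hR0.le hs p.1
      have e2 := hV0 s R hR0.le hs p.2
      have e3 : ‖v‖ ≤ 2 * (L * R) := (norm_sub_le _ _).trans (by linarith)
      have e1' := hV0 s' R hR0.le hs' p.1
      have e2' := hV0 s' R hR0.le hs' p.2
      have e3' : ‖v'‖ ≤ 2 * (L * R) := (norm_sub_le _ _).trans (by linarith)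
      have e4 : ‖v - v'‖ ≤ 2 * (L * ρ) := by
        have f1 := hV s s' ρ hρ hss p.1
        have f2 := hV s s' ρ hρ hss p.2
        have f3 : v - v' = (V s p.1 - V s' p.1) - (V s p.2 - V s' p.2) := by
          rw [hv, hv']; abel
        rw [f3]
        exact (norm_sub_le _ _).trans (by linarith)
      have e5 : |‖v‖ - ‖v'‖| ≤ 2 * (L * ρ) := (abs_norm_sub_norm_le _ _).trans e4
      have e6 : |‖v'‖ ^ 2 - ‖v‖ ^ 2| ≤ a / 2 * ρ := by
        have f1 : ‖v'‖ ^ 2 - ‖v‖ ^ 2 = -((‖v‖ - ‖v'‖) * (‖v‖ + ‖v'‖)) := by ring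
        rw [f1, abs_neg, abs_mul, abs_of_nonneg (by positivity : 0 ≤ ‖v‖ + ‖v'‖)]
        calc |‖v‖ - ‖v'‖| * (‖v‖ + ‖v'‖) ≤ 2 * (L * ρ) * (4 * (L * R)) := by
              refine mul_le_mul e5 (by linarith) (by positivity) (by positivity)
          _ = 8 * (L ^ 2 * R) * ρ := by ring
          _ = a / 2 * ρ := by rw [hLR]; ring
      have e7 := hT s s' ρ hρ hss p.1 p.2 hp
      rw [← sub_div]
      refine (hdiv _ _ hp _).trans ?_
      rw [div_le_iff₀ ha]
      have e8 : (2 * D * δ p.1 p.2 + δ p.1 p.2 ^ 2 - ‖v‖ ^ 2) / 2 + T s p.1 p.2 -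
          ((2 * D * δ p.1 p.2 + δ p.1 p.2 ^ 2 - ‖v'‖ ^ 2) / 2 + T s' p.1 p.2) =
          (‖v'‖ ^ 2 - ‖v‖ ^ 2) / 2 + (T s p.1 p.2 - T s' p.1 p.2) := by ring
      rw [e8]
      refine (abs_add_le _ _).trans ?_
      rw [abs_div, abs_of_pos (by norm_num : (0 : ℝ) < 2)]
      linarith
    · simp only [Φ, hp, if_false, sub_self, abs_zero]
      positivity
  have hΦ3 : ∀ δ δ' : X → X → ℝ, (∀ x y, |δ x y| ≤ ε) → (∀ x y, |δ' x y| ≤ ε) → ∀ α ≥ 0,
        (∀ x y, |δ x y - δ' x y| ≤ α) → ∀ s p, |Φ δ s p - Φ δ' s p| ≤ 2 * D * α / a := by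
    intro δ δ' hδ hδ' α hα hdd s p
    by_cases hp : p.2 ∈ out p.1
    · simp only [Φ, hp, if_true]
      rw [← sub_div]
      refine (hdiv _ _ hp _).trans ?_
      have e1 : (2 * D * δ p.1 p.2 + δ p.1 p.2 ^ 2 - ‖V s p.1 - V s p.2‖ ^ 2) / 2 + T s p.1 p.2 -
          ((2 * D * δ' p.1 p.2 + δ' p.1 p.2 ^ 2 - ‖V s p.1 - V s p.2‖ ^ 2) / 2 + T s p.1 p.2) =
          (δ p.1 p.2 - δ' p.1 p.2) * ((2 * D + (δ p.1 p.2 + δ' p.1 p.2)) / 2) := by ring
      have e2 := hδ p.1 p.2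
      have e3 := hδ' p.1 p.2
      rw [abs_le] at e2 e3
      have e4 : |(2 * D + (δ p.1 p.2 + δ' p.1 p.2)) / 2| ≤ 2 * D := by
        rw [abs_le]
        constructor <;> linarith [e2.1, e2.2, e3.1, e3.2]
      have e5 : |(2 * D * δ p.1 p.2 + δ p.1 p.2 ^ 2 - ‖V s p.1 - V s p.2‖ ^ 2) / 2 +
          T s p.1 p.2 - ((2 * D * δ' p.1 p.2 + δ' p.1 p.2 ^ 2 - ‖V s p.1 - V s p.2‖ ^ 2) / 2 +
          T s p.1 p.2)| ≤ 2 * D * α := by
        rw [e1, abs_mul]
        calc _ ≤ α * (2 * D) := mul_le_mul (hdd _ _) e4 (abs_nonneg _) hα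
          _ = 2 * D * α := by ring
      exact div_le_div_of_nonneg_right e5 ha.le
    · simp only [Φ, hp, if_false, sub_self, abs_zero]
      positivity
  have hex : ∀ δ : X → X → ℝ, ∃ s : X × X → ℝ, (∀ x y, |δ x y| ≤ ε) →
      (∀ p, |s p| ≤ R) ∧ ∀ p, Φ δ s p = s p := by
    intro δ
    by_cases hδ : ∀ x y, |δ x y| ≤ ε
    · obtain ⟨s, e1, e2⟩ := GS_exists_fixed (Φ δ) hR0.le (hΦ1 δ hδ) (hΦ2 δ)
      exact ⟨s, fun _ => ⟨e1, e2⟩⟩
    · exact ⟨0, fun h => absurd h hδ⟩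
  choose s hs using hex
  refine ⟨ε, hε0, L * (4 * D / a), by positivity, hεD, fun δ => V (s δ), ?_, ?_, ?_⟩
  · intro x
    have h0 : ∀ x y : X, |(0 : X → X → ℝ) x y| ≤ ε := fun x y => by simpa using hε0.le
    obtain ⟨e1, e2⟩ := hs 0 h0
    have e3 : ∀ p, Φ 0 (0 : X × X → ℝ) p = (0 : X × X → ℝ) p := by
      intro p
      simp [Φ, hV00, hT00]
    have e4 : ∀ p, |s 0 p - (0 : X × X → ℝ) p| ≤ 2 * 0 :=
      GS_fixed_close (Φ := Φ 0) (Φ' := Φ 0) (R := R) le_rfl (hΦ2 0) (by simp) e1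
        (fun p => by rw [Pi.zero_apply, abs_zero]; exact hR0.le) e2 e3
    have e5 := hV (s 0) 0 0 le_rfl (by simpa using e4) x
    rw [hV00, sub_zero, mul_zero] at e5
    exact norm_eq_zero.1 (le_antisymm e5 (norm_nonneg _))
  · intro δ δ' hδ hδ' α hα hdd x
    obtain ⟨e1, e2⟩ := hs δ hδ
    obtain ⟨e1', e2'⟩ := hs δ' hδ'
    have e4 : ∀ p, |s δ p - s δ' p| ≤ 2 * (2 * D * α / a) :=
      GS_fixed_close (Φ := Φ δ) (Φ' := Φ δ') (R := R) (by positivity) (hΦ2 δ)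
        (hΦ3 δ δ' hδ hδ' α hα hdd) e1 e1' e2 e2'
    refine (hV _ _ _ (by positivity) e4 x).trans (le_of_eq ?_)
    field_simp
    ring
  · intro δ hδ hsym
    obtain ⟨e1, e2⟩ := hs δ hδ
    have key : ∀ x y, y ∈ out x → dist (P x + V (s δ) x) (P y + V (s δ) y) = D + δ x y := by
      intro x y hy
      have f0 : ⟪P x - P y, w y⟫ ≠ 0 := by
        have := h1 x y hy
        intro h
        rw [h] at this
        linarith
      have f1 : s δ (x, y) * ⟪P x - P y, w y⟫ =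
          (2 * D * δ x y + δ x y ^ 2 - ‖V (s δ) x - V (s δ) y‖ ^ 2) / 2 + T (s δ) x y := by
        rw [← e2 (x, y)]
        simp only [Φ, hy, if_true]
        rw [div_mul_cancel₀ _ f0]
      have f2 : ⟪P x - P y, V (s δ) x - V (s δ) y⟫ =
          (2 * D * δ x y + δ x y ^ 2 - ‖V (s δ) x - V (s δ) y‖ ^ 2) / 2 := by
        have g1 : ⟪P x - P y, V (s δ) x⟫ = s δ (x, y) * ⟪P x - P y, w y⟫ +
            ∑ z ∈ (out x).erase y, s δ (x, z) * ⟪P x - P y, w z⟫ := by
          simp only [V]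
          rw [inner_sum, ← Finset.add_sum_erase _ _ hy]
          simp only [real_inner_smul_right]
        have g2 : ⟪P x - P y, V (s δ) y⟫ = ∑ z ∈ out y, s δ (y, z) * ⟪P x - P y, w z⟫ := by
          simp only [V]
          rw [inner_sum]
          simp only [real_inner_smul_right]
        rw [inner_sub_right, g1, g2, f1]
        simp only [T]
        ring
      have f3 : dist (P x + V (s δ) x) (P y + V (s δ) y) =
          ‖(P x - P y) + (V (s δ) x - V (s δ) y)‖ := by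
        rw [dist_eq_norm]; congr 1; abel
      have f4 : ‖(P x - P y) + (V (s δ) x - V (s δ) y)‖ ^ 2 = (D + δ x y) ^ 2 := by
        rw [norm_add_sq_real, f2, ← dist_eq_norm (P x) (P y), hdist x y hy]
        ring
      have f5 : 0 ≤ D + δ x y := by
        have := (abs_le.1 (hδ x y)).1
        linarith
      rw [f3]
      exact (sq_eq_sq₀ (norm_nonneg _) f5).1 f4
    intro x y hxy
    rcases hxy with hy | hx
    · exact key x y hy
    · rw [dist_comm, hsym x y]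
      exact key y x hx

end Pool.Agent.BQ
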