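import Mathlib
import Pool.Agent.BQ.GDefs
import Pool.Agent.BQ.GSolve
import Pool.Agent.BQ.GFrame

/-!
# The geometric part: from a frame to a general compact set without small partitions
-/

open Set Metric Filter Topology Quaternion MeasureTheory
open scoped RealInnerProductSpace

namespace Pool.Agent.BQ

set_option linter.unusedSectionVars false

/-- The unit quaternions. -/
abbrev S3 : Type := sphere (0 : ℍ[ℝ]) 1

variable {S I : Type} [Fintype S] [Fintype I]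

/-- The vertices `x`, `y` are adjacent (their points are a diameter). -/
def GEdge (A : S → I → ℍ[ℝ]) (ν : ℝ) (x y : S × S3) : Prop :=
  kap A x.1 y.1 * (y.2 : ℍ[ℝ]) = -(ν • (x.2 : ℍ[ℝ]))

lemma GM_norm (g : S3) : ‖(g : ℍ[ℝ])‖ = 1 := by
  have := g.2
  rwa [mem_sphere_zero_iff_norm] at this

lemma GM_edge_symm {A : S → I → ℍ[ℝ]} {ν : ℝ} (hν : 0 < ν) {x y : S × S3} (h : GEdge A ν x y) :
    GEdge A ν y x := GF_edge_symm A hν (GM_norm _) (GM_norm _) h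

lemma GM_edge_norm {A : S → I → ℍ[ℝ]} {ν : ℝ} (hν : 0 < ν) {x y : S × S3} (h : GEdge A ν x y) :
    ‖kap A x.1 y.1‖ = ν := by
  have := congrArg norm h
  rwa [norm_mul, GM_norm, mul_one, norm_neg, norm_smul, GM_norm, mul_one, Real.norm_eq_abs,
    abs_of_pos hν] at this

lemma GM_edge_unique {A : S → I → ℍ[ℝ]} {ν : ℝ} (hν : 0 < ν) {x y z : S × S3}
    (h : GEdge A ν x y) (h' : GEdge A ν x z) (hyz : y.1 = z.1) : y = z := by
  have h0 : kap A x.1 y.1 ≠ 0 := by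
    intro h0
    have := GM_edge_norm hν h
    rw [h0, norm_zero] at this
    exact hν.ne this
  unfold GEdge at h h'
  rw [← hyz, ← h] at h'
  have h1 := mul_left_cancel₀ h0 h'
  exact Prod.ext hyz (Subtype.ext h1.symm)

lemma GM_finrank (I : Type) [Fintype I] :
    Module.finrank ℝ (Amb I) = 4 * (Fintype.card I + Fintype.card I ^ 2) := by
  have h1 : Module.finrank ℝ (Amb I) = Module.finrank ℝ (I ⊕ (I × I) → ℍ[ℝ]) :=
    (WithLp.linearEquiv 2 ℝ (I ⊕ (I × I) → ℍ[ℝ])).finrank_eq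
  rw [h1, Module.finrank_pi_fintype]
  simp only [Quaternion.finrank_eq_four]
  rw [Finset.sum_const, Finset.card_univ, Fintype.card_sum, Fintype.card_prod, smul_eq_mul]
  ring

/-- The data of the construction. -/
structure GData (A : S → I → ℍ[ℝ]) (M ν ε : ℝ) (C : ℕ) (low : S × S3 → S × S3 → Prop) : Prop where
  frame : IsFrame A M
  M_pos : 0 < M
  ν_pos : 0 < ν
  eps_half : ε ≤ 1 / 2
  eps_C : 16 * C * ε ≤ 1
  sep : ∀ s t, s ≠ t → ‖kap A s t‖ ^ 2 ≤ ε * M ^ 2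
  edge : ∃ s t, ‖kap A s t‖ = ν
  no_loop : ν ≠ M
  orient : ∀ x y, GEdge A ν x y → low x y ∨ low y x
  excl : ∀ x y, GEdge A ν x y → low x y → ¬ low y x
  deg : ∀ x, {t : S | ∃ g : S3, GEdge A ν x (t, g) ∧ low x (t, g)}.ncard ≤ C

section Gen

variable {A : S → I → ℍ[ℝ]} {M ν ε : ℝ} {C : ℕ} {low : S × S3 → S × S3 → Prop}

lemma GM_edge_ne (h : GData A M ν ε C low) {x y : S × S3} (he : GEdge A ν x y) : x.1 ≠ y.1 := by
  intro hxy
  have h1 := GM_edge_norm h.ν_pos he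
  rw [← hxy, GF_norm_self h.frame h.M_pos.le] at h1
  exact h.no_loop h1.symm

lemma GM_low_finite (h : GData A M ν ε C low) (x : S × S3) :
    {y : S × S3 | GEdge A ν x y ∧ low x y}.Finite := by
  refine Set.Finite.of_finite_image (f := Prod.fst) (Set.toFinite _) ?_
  intro y hy z hz hyz
  exact GM_edge_unique h.ν_pos hy.1 hz.1 hyz

lemma GM_low_card (h : GData A M ν ε C low) (x : S × S3) :
    (GM_low_finite h x).toFinset.card ≤ C := by
  classical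
  refine le_trans ?_ (h.deg x)
  rw [← Set.ncard_eq_toFinset_card _ (GM_low_finite h x)]
  refine Set.ncard_le_ncard_of_injOn Prod.fst ?_ ?_ (Set.toFinite _)
  · intro y hy
    exact ⟨y.2, hy⟩
  · intro y hy z hz hyz
    exact GM_edge_unique h.ν_pos hy.1 hz.1 hyz

/-- The points are different. -/
lemma GM_inj (h : GData A M ν ε C low) {c : ℝ} (hc : c ^ 2 = 1 / (2 * ν)) :
    Function.Injective (fun x : S × S3 => pt A c x.1 (x.2 : ℍ[ℝ])) := by
  intro x y hxy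
  have hM := h.M_pos
  have hν := h.ν_pos
  have h1 := GF_dist h.frame hM.le hν hc x.1 y.1 (GM_norm x.2) (GM_norm y.2)
  have h0 : dist (pt A c x.1 (x.2 : ℍ[ℝ])) (pt A c y.1 (y.2 : ℍ[ℝ])) = 0 := by
    rw [show pt A c x.1 (x.2 : ℍ[ℝ]) = pt A c y.1 (y.2 : ℍ[ℝ]) from hxy, dist_self]
  rw [h0] at h1
  have h2 : (2 * M + M ^ 2 / ν + ν) - (‖kap A x.1 y.1‖ - ν) ^ 2 / ν -
      2 * (‖kap A x.1 y.1‖ + ⟪(x.2 : ℍ[ℝ]), kap A x.1 y.1 * (y.2 : ℍ[ℝ])⟫) =
      2 * (M - ⟪(x.2 : ℍ[ℝ]), kap A x.1 y.1 * (y.2 : ℍ[ℝ])⟫) +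
        (M ^ 2 - ‖kap A x.1 y.1‖ ^ 2) / ν := by
    field_simp
    ring
  rw [h2] at h1
  have h3 : ⟪(x.2 : ℍ[ℝ]), kap A x.1 y.1 * (y.2 : ℍ[ℝ])⟫ ≤ ‖kap A x.1 y.1‖ := by
    have := real_inner_le_norm (x.2 : ℍ[ℝ]) (kap A x.1 y.1 * (y.2 : ℍ[ℝ]))
    rwa [norm_mul, GM_norm, GM_norm, one_mul, mul_one] at this
  by_cases hs : x.1 = y.1
  · rw [hs, GF_norm_self h.frame hM.le, h.frame, Quaternion.coe_mul_eq_smul,
      real_inner_smul_right] at h1
    have h4 : ⟪(x.2 : ℍ[ℝ]), (y.2 : ℍ[ℝ])⟫ = 1 := by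
      have h5 : M * (1 - ⟪(x.2 : ℍ[ℝ]), (y.2 : ℍ[ℝ])⟫) = 0 := by
        have : (M ^ 2 - M ^ 2) / ν = 0 := by rw [sub_self, zero_div]
        rw [this] at h1
        nlinarith
      rcases mul_eq_zero.1 h5 with h6 | h6
      · exact absurd h6 hM.ne'
      · linarith
    have h5 : (x.2 : ℍ[ℝ]) = y.2 :=
      (inner_eq_one_iff_of_norm_eq_one (𝕜 := ℝ) (GM_norm _) (GM_norm _)).1 h4
    exact Prod.ext hs (Subtype.ext h5)
  · exfalso
    have h4 := h.sep x.1 y.1 hs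
    have h5 : ‖kap A x.1 y.1‖ ^ 2 < M ^ 2 := by
      have := h.eps_half
      have h6 : 0 < M ^ 2 := by positivity
      nlinarith
    have h6 : ‖kap A x.1 y.1‖ < M := lt_of_pow_lt_pow_left₀ 2 hM.le h5
    have h7 : 0 < (M ^ 2 - ‖kap A x.1 y.1‖ ^ 2) / ν := div_pos (by linarith) hν
    nlinarith

end Gen

end Pool.Agent.BQ
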