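import Mathlib
import Pool.Agent.BQ.GMain

/-!
# The set of the construction is general
-/

open Set Metric Filter Topology Quaternion MeasureTheory
open scoped RealInnerProductSpace

namespace Pool.Agent.BQ

set_option linter.unusedSectionVars false

variable {S I : Type} [Fintype S] [Fintype I]
variable {A : S → I → ℍ[ℝ]} {M ν ε : ℝ} {C : ℕ} {low : S × S3 → S × S3 → Prop}

/-- The point of `ℝ^d` of a vertex. -/
noncomputable def ptE {d : ℕ} (L : Amb I ≃ₗᵢ[ℝ] EuclideanSpace ℝ (Fin d)) (A : S → I → ℍ[ℝ]) (c : ℝ)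
    (x : S × S3) : EuclideanSpace ℝ (Fin d) := L (pt A c x.1 (x.2 : ℍ[ℝ]))

/-- Small deformations of the lengths of the edges are realised. -/
lemma GM_solve {d : ℕ} (L : Amb I ≃ₗᵢ[ℝ] EuclideanSpace ℝ (Fin d)) (h : GData A M ν ε C low)
    {c : ℝ} (hc0 : 0 < c) (hc : c ^ 2 = 1 / (2 * ν)) :
    ∃ e > 0, ∃ K > 0, ∃ W : (S × S3 → S × S3 → ℝ) → S × S3 → EuclideanSpace ℝ (Fin d),
      (∀ x, W 0 x = 0) ∧
      (∀ δ δ' : S × S3 → S × S3 → ℝ, (∀ x y, |δ x y| ≤ e) → (∀ x y, |δ' x y| ≤ e) → ∀ α ≥ 0,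
        (∀ x y, |δ x y - δ' x y| ≤ α) → ∀ x, ‖W δ x - W δ' x‖ ≤ K * α) ∧
      ∀ δ : S × S3 → S × S3 → ℝ, (∀ x y, |δ x y| ≤ e) → (∀ x y, δ x y = δ y x) →
        ∀ x y, GEdge A ν x y → dist (ptE L A c x + W δ x) (ptE L A c y + W δ y) =
          Real.sqrt (2 * M + M ^ 2 / ν + ν) + δ x y := by
  classical
  have hM := h.M_pos
  have hν := h.ν_pos
  have hR : 0 < Real.sqrt (2 * M + M ^ 2 / ν + ν) := Real.sqrt_pos.2 (by positivity)
  set out : S × S3 → Finset (S × S3) := fun x => (GM_low_finite h x).toFinset with hout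
  have mem_out : ∀ x y, y ∈ out x ↔ GEdge A ν x y ∧ low x y := by
    intro x y
    simp only [hout, Set.Finite.mem_toFinset, Set.mem_ofPred_eq]
  -- the inner products
  have hin : ∀ x y z : S × S3, ⟪ptE L A c x - ptE L A c y, L (dirv A M⁻¹ z.1)⟫ =
      c * M⁻¹ * (‖kap A x.1 z.1‖ ^ 2 - ‖kap A y.1 z.1‖ ^ 2) := by
    intro x y z
    unfold ptE
    rw [inner_sub_left, LinearIsometryEquiv.inner_map_map, LinearIsometryEquiv.inner_map_map,
      GF_inner_dirv, GF_inner_dirv]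
    ring
  have hε0 : ∀ s t : S, s ≠ t → 0 ≤ ε * M ^ 2 := fun s t hst =>
    (by positivity : (0:ℝ) ≤ ‖kap A s t‖ ^ 2).trans (h.sep s t hst)
  have hεnn : 0 ≤ ε := by
    obtain ⟨s, t, hst⟩ := h.edge
    have hne : s ≠ t := by
      rintro rfl
      rw [GF_norm_self h.frame hM.le] at hst
      exact h.no_loop hst.symm
    have h1 := hε0 s t hne
    by_contra hcon
    push Not at hcon
    have : 0 < M ^ 2 := by positivity
    nlinarith
  set η : ℝ := c * M * ε with hη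
  have hsmall : ∀ x y z : S × S3, x.1 ≠ z.1 → y.1 ≠ z.1 →
      |⟪ptE L A c x - ptE L A c y, L (dirv A M⁻¹ z.1)⟫| ≤ η := by
    intro x y z hxz hyz
    rw [hin, abs_mul, abs_of_pos (by positivity)]
    have h1 := h.sep x.1 z.1 hxz
    have h2 := h.sep y.1 z.1 hyz
    have h3 : |‖kap A x.1 z.1‖ ^ 2 - ‖kap A y.1 z.1‖ ^ 2| ≤ ε * M ^ 2 := by
      rw [abs_le]
      constructor
      · have : (0:ℝ) ≤ ‖kap A x.1 z.1‖ ^ 2 := by positivity
        linarith
      · have : (0:ℝ) ≤ ‖kap A y.1 z.1‖ ^ 2 := by positivity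
        linarith
    calc c * M⁻¹ * |‖kap A x.1 z.1‖ ^ 2 - ‖kap A y.1 z.1‖ ^ 2| ≤ c * M⁻¹ * (ε * M ^ 2) :=
          mul_le_mul_of_nonneg_left h3 (by positivity)
      _ = η := by rw [hη]; field_simp
  obtain ⟨e, he, K, hK, -, W, h1, h2, h3⟩ := GS_solve (ptE L A c)
    (D := Real.sqrt (2 * M + M ^ 2 / ν + ν)) (a := c * M / 2) (η := η) (C := C) out
    (fun z => L (dirv A M⁻¹ z.1)) hR (by positivity) (fun x => GM_low_card h x)
    (fun z => by
      have e1 : ‖L (dirv A M⁻¹ z.1)‖ ^ 2 = 1 := by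
        rw [LinearIsometryEquiv.norm_map, ← real_inner_self_eq_norm_sq, GF_inner_dirv_self,
          GF_norm_self h.frame hM.le]
        field_simp
      have e2 : ‖L (dirv A M⁻¹ z.1)‖ ^ 2 ≤ 1 ^ 2 := by rw [e1, one_pow]
      exact le_of_sq_le_sq e2 zero_le_one)
    (fun x y hy => by
      have hxy := (mem_out x y).1 hy
      rw [hin, GF_norm_self h.frame hM.le]
      have e1 := h.sep x.1 y.1 (GM_edge_ne h hxy.1)
      have e2 : ‖kap A x.1 y.1‖ ^ 2 ≤ M ^ 2 / 2 := by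
        have := h.eps_half
        have h6 : 0 < M ^ 2 := by positivity
        nlinarith
      have e3 : c * M / 2 = c * M⁻¹ * (M ^ 2 / 2) := by field_simp
      rw [e3, ← mul_neg]
      refine mul_le_mul_of_nonneg_left ?_ (by positivity)
      linarith)
    (fun x y hy z hz hzy => by
      have hxy := (mem_out x y).1 hy
      have hxz := (mem_out x z).1 hz
      refine hsmall x y z (GM_edge_ne h hxz.1) ?_
      intro hyz
      exact hzy (GM_edge_unique hν hxz.1 hxy.1 hyz.symm))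
    (fun x y hy z hz => by
      have hxy := (mem_out x y).1 hy
      have hyz := (mem_out y z).1 hz
      refine hsmall x y z ?_ (GM_edge_ne h hyz.1)
      intro hxz
      have e1 : z = x := GM_edge_unique hν hyz.1 (GM_edge_symm hν hxy.1) hxz.symm
      rw [e1] at hyz
      exact h.excl x y hxy.1 hxy.2 hyz.2)
    (by positivity)
    (by
      have e1 := h.eps_C
      rw [hη]
      have e2 : 0 < c * M := by positivity
      nlinarith)
    (fun x y hy => by
      have hxy := (mem_out x y).1 hy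
      unfold ptE
      rw [LinearIsometryEquiv.dist_map]
      exact (GF_dist_eq h.frame hM.le hν hc x.1 y.1 (GM_norm _) (GM_norm _)).2 hxy.1)
  refine ⟨e, he, K, hK, W, h1, h2, fun δ hδ hδs x y hxy => ?_⟩
  refine h3 δ hδ hδs x y ?_
  rcases h.orient x y hxy with hl | hl
  · exact Or.inl ((mem_out x y).2 ⟨hxy, hl⟩)
  · exact Or.inr ((mem_out y x).2 ⟨GM_edge_symm hν hxy, hl⟩)

lemma GM_ptE_inj {d : ℕ} (L : Amb I ≃ₗᵢ[ℝ] EuclideanSpace ℝ (Fin d)) (h : GData A M ν ε C low)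
    {c : ℝ} (hc : c ^ 2 = 1 / (2 * ν)) : Function.Injective (ptE L A c) := by
  intro x y hxy
  exact GM_inj h hc (L.injective hxy)

lemma GM_dist_le {d : ℕ} (L : Amb I ≃ₗᵢ[ℝ] EuclideanSpace ℝ (Fin d)) (h : GData A M ν ε C low)
    {c : ℝ} (hc : c ^ 2 = 1 / (2 * ν)) (x y : S × S3) :
    dist (ptE L A c x) (ptE L A c y) ≤ Real.sqrt (2 * M + M ^ 2 / ν + ν) := by
  unfold ptE
  rw [LinearIsometryEquiv.dist_map]
  exact GF_dist_le h.frame h.M_pos.le h.ν_pos hc x.1 y.1 (GM_norm _) (GM_norm _)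

lemma GM_dist_eq {d : ℕ} (L : Amb I ≃ₗᵢ[ℝ] EuclideanSpace ℝ (Fin d)) (h : GData A M ν ε C low)
    {c : ℝ} (hc : c ^ 2 = 1 / (2 * ν)) (x y : S × S3) :
    dist (ptE L A c x) (ptE L A c y) = Real.sqrt (2 * M + M ^ 2 / ν + ν) ↔ GEdge A ν x y := by
  unfold ptE
  rw [LinearIsometryEquiv.dist_map]
  exact GF_dist_eq h.frame h.M_pos.le h.ν_pos hc x.1 y.1 (GM_norm _) (GM_norm _)

lemma GM_exists_edge (h : GData A M ν ε C low) : ∃ x y : S × S3, GEdge A ν x y := by
  obtain ⟨s, t, hst⟩ := h.edge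
  have hν := h.ν_pos
  have h1 : ‖(1 : ℍ[ℝ])‖ = 1 := norm_one
  have h2 : ‖-(ν⁻¹ • kap A s t)‖ = 1 := by
    rw [norm_neg, norm_smul, hst, Real.norm_eq_abs, abs_of_pos (by positivity)]
    field_simp
  refine ⟨(s, ⟨-(ν⁻¹ • kap A s t), by rw [mem_sphere_zero_iff_norm]; exact h2⟩),
    (t, ⟨1, by rw [mem_sphere_zero_iff_norm]; exact h1⟩), ?_⟩
  unfold GEdge
  simp only
  rw [mul_one, smul_neg, neg_neg, smul_smul, mul_inv_cancel₀ hν.ne', one_smul]

lemma GM_continuous {d : ℕ} (L : Amb I ≃ₗᵢ[ℝ] EuclideanSpace ℝ (Fin d)) (A : S → I → ℍ[ℝ])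
    (c : ℝ) (s : S) : Continuous (fun g : S3 => ptE L A c (s, g)) := by
  unfold ptE pt
  refine L.continuous.comp ?_
  refine (PiLp.continuous_toLp 2 _).comp ?_
  refine continuous_pi fun i => ?_
  rcases i with a | x
  · have h1 : Continuous fun g : S3 => A s a * (g : ℍ[ℝ]) :=
      continuous_const.mul continuous_subtype_val
    exact h1
  · have h1 : Continuous fun _ : S3 => c • (A s x.1 * star (A s x.2)) := continuous_const
    exact h1

lemma GM_compact {d : ℕ} (L : Amb I ≃ₗᵢ[ℝ] EuclideanSpace ℝ (Fin d)) (A : S → I → ℍ[ℝ])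
    (c : ℝ) : IsCompact (range (ptE L A c)) := by
  have h1 : range (ptE L A c) = ⋃ s : S, range (fun g : S3 => ptE L A c (s, g)) := by
    ext x
    simp only [mem_range, mem_iUnion, Prod.exists]
  rw [h1]
  have : CompactSpace S3 := isCompact_iff_compactSpace.1 (isCompact_sphere _ _)
  exact isCompact_iUnion fun s => isCompact_range (GM_continuous L A c s)

lemma GM_diam {d : ℕ} (L : Amb I ≃ₗᵢ[ℝ] EuclideanSpace ℝ (Fin d)) (h : GData A M ν ε C low)
    {c : ℝ} (hc : c ^ 2 = 1 / (2 * ν)) :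
    diam (range (ptE L A c)) = Real.sqrt (2 * M + M ^ 2 / ν + ν) := by
  apply le_antisymm
  · apply diam_le_of_forall_dist_le (Real.sqrt_nonneg _)
    rintro _ ⟨x, rfl⟩ _ ⟨y, rfl⟩
    exact GM_dist_le L h hc x y
  · obtain ⟨x, y, hxy⟩ := GM_exists_edge h
    rw [← (GM_dist_eq L h hc x y).2 hxy]
    exact dist_le_diam_of_mem (GM_compact L A c).isBounded (mem_range_self x) (mem_range_self y)

/-- The set is general. -/
theorem GM_general {d : ℕ} (L : Amb I ≃ₗᵢ[ℝ] EuclideanSpace ℝ (Fin d)) (h : GData A M ν ε C low)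
    {c : ℝ} (hc0 : 0 < c) (hc : c ^ 2 = 1 / (2 * ν)) :
    IsGeneral (range (ptE L A c)) (diameters (range (ptE L A c))) := by
  classical
  obtain ⟨ε', hε, K, hK, W, hW0, hWc, hWs⟩ := GM_solve L h hc0 hc
  set K0 := range (ptE L A c) with hK0
  have hdiam := GM_diam L h hc
  rw [← hK0] at hdiam
  have : Nonempty (S × S3) := by
    obtain ⟨x, -⟩ := GM_exists_edge h
    exact ⟨x⟩
  have hinv : ∀ x, Function.invFun (ptE L A c) (ptE L A c x) = x :=
    Function.leftInverse_invFun (GM_ptE_inj L h hc)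
  refine ⟨ε', hε, fun δ hδ0 hδ1 hδ2 => ?_⟩
  let D : ℝ → S × S3 → S × S3 → ℝ := fun t x y =>
    if s(ptE L A c x, ptE L A c y) ∈ diameters K0 then δ t s(ptE L A c x, ptE L A c y) else 0
  have hDb : ∀ t ∈ Ico (0 : ℝ) 1, ∀ x y, |D t x y| ≤ ε' := by
    intro t ht x y
    obtain ⟨c', hc', hce⟩ := hδ1 t ht
    by_cases hxy : s(ptE L A c x, ptE L A c y) ∈ diameters K0
    · simp only [D, hxy, if_true]
      exact (hce _ hxy).trans hc'.le
    · simp only [D, hxy, if_false, abs_zero]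
      exact hε.le
  have hDs : ∀ t x y, D t x y = D t y x := by
    intro t x y
    simp only [D]
    rw [Sym2.eq_swap]
  have hD0 : D 0 = 0 := by
    funext x y
    by_cases hxy : s(ptE L A c x, ptE L A c y) ∈ diameters K0
    · simp only [D, hxy, if_true]
      exact hδ0 _ hxy
    · simp only [D, hxy, if_false]
      rfl
  refine ⟨fun t x => x + W (D t) (Function.invFun (ptE L A c) x), ?_, ?_, ?_⟩
  · rintro _ ⟨x, rfl⟩
    simp only
    rw [hD0, hW0, add_zero]
  · intro t ht η hη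
    obtain ⟨r, hr, hrt⟩ := hδ2 t ht (η / K) (by positivity)
    refine ⟨r, hr, fun t' ht' htt x hx => ?_⟩
    have h1 : ∀ x y, |D t' x y - D t x y| ≤ η / K := by
      intro x y
      by_cases hxy : s(ptE L A c x, ptE L A c y) ∈ diameters K0
      · simp only [D, hxy, if_true]
        exact hrt t' ht' htt _ hxy
      · simp only [D, hxy, if_false, sub_self, abs_zero]
        positivity
    have h2 := hWc (D t') (D t) (hDb t' ht') (hDb t ht) (η / K) (by positivity) h1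
      (Function.invFun (ptE L A c) x)
    have h3 : K * (η / K) = η := by field_simp
    rw [dist_add_left, dist_eq_norm, ← h3]
    exact h2
  · rintro t ht _ ⟨x, rfl⟩ _ ⟨y, rfl⟩ hxy
    have hxy' : dist (ptE L A c x) (ptE L A c y) = diam K0 := by
      obtain ⟨a, ha, b, hb, hab, he⟩ := hxy
      rw [Sym2.eq_iff] at he
      rcases he with ⟨e1, e2⟩ | ⟨e1, e2⟩
      · rw [e1, e2]; exact hab
      · rw [e1, e2, dist_comm]; exact hab
    have hedge : GEdge A ν x y := by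
      rw [hdiam] at hxy'
      exact (GM_dist_eq L h hc x y).1 hxy'
    have h1 := hWs (D t) (hDb t ht) (hDs t) x y hedge
    simp only
    rw [hinv, hinv, h1, hxy', hdiam]
    simp only [D, hxy, if_true]

end Pool.Agent.BQ
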