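import Mathlib
import Pool.Agent.BQ.GMain2

/-!
# The set of the construction has no partition into few sets of smaller diameter
-/

open Set Metric Filter Topology Quaternion MeasureTheory
open scoped RealInnerProductSpace

namespace Pool.Agent.BQ

set_option linter.unusedSectionVars false

variable {S I : Type} [Fintype S] [Fintype I]
variable {A : S → I → ℍ[ℝ]} {M ν ε : ℝ} {C : ℕ} {low : S × S3 → S × S3 → Prop}

/-- A set of diameter less than `D` gives a continuous function which is `1` on it and vanishes at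
one of the ends of every edge. -/
lemma GM_bump {d : ℕ} (K : Set (EuclideanSpace ℝ (Fin d))) (hK : Bornology.IsBounded K) {D : ℝ}
    (hD : diam K < D) : ∃ f : EuclideanSpace ℝ (Fin d) → ℝ, Continuous f ∧ (∀ x, 0 ≤ f x) ∧
      (∀ x, f x ≤ 1) ∧ (∀ x ∈ K, f x = 1) ∧ ∀ x y, dist x y = D → f x * f y = 0 := by
  have hδ : 0 < (D - diam K) / 4 := by linarith
  refine ⟨fun x => (thickenedIndicator hδ K x : ℝ), ?_, ?_, ?_, ?_, ?_⟩
  · exact NNReal.continuous_coe.comp (thickenedIndicator hδ K).continuous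
  · intro x
    exact NNReal.coe_nonneg _
  · intro x
    exact_mod_cast thickenedIndicator_le_one hδ K x
  · intro x hx
    simp only
    rw [thickenedIndicator_one hδ K hx]
    rfl
  · intro x y hxy
    simp only
    by_cases hx : x ∈ thickening ((D - diam K) / 4) K
    · by_cases hy : y ∈ thickening ((D - diam K) / 4) K
      · exfalso
        rw [mem_thickening_iff] at hx hy
        obtain ⟨x', hx', hxx⟩ := hx
        obtain ⟨y', hy', hyy⟩ := hy
        have h1 : dist x y ≤ dist x x' + dist x' y' + dist y' y := dist_triangle4 _ _ _ _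
        have h2 : dist x' y' ≤ diam K := dist_le_diam_of_mem hK hx' hy'
        rw [dist_comm y' y] at h1
        linarith
      · rw [thickenedIndicator_zero hδ K hy, NNReal.coe_zero, mul_zero]
    · rw [thickenedIndicator_zero hδ K hx, NNReal.coe_zero, zero_mul]

/-- Every continuous function which vanishes at one of the ends of every edge has mean less than
`1 / m`. -/
def GSmall [MeasurableSpace S3] (μ : Measure S3) (A : S → I → ℍ[ℝ]) (ν : ℝ) (m : ℕ) : Prop :=
  ∀ f : S → S3 → ℝ, (∀ s, Continuous (f s)) → (∀ s g, 0 ≤ f s g) → (∀ s g, f s g ≤ 1) →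
    (∀ s g t g', GEdge A ν (s, g) (t, g') → f s g * f t g' = 0) →
    (∑ s, ∫ g, f s g ∂μ) * m < Fintype.card S

theorem GM_nosplit [MeasurableSpace S3] [BorelSpace S3] (μ : Measure S3) [IsProbabilityMeasure μ]
    {d : ℕ} (L : Amb I ≃ₗᵢ[ℝ] EuclideanSpace ℝ (Fin d)) (h : GData A M ν ε C low)
    {c : ℝ} (hc : c ^ 2 = 1 / (2 * ν)) {m : ℕ} (hm : GSmall μ A ν m) :
    ¬ SplitsInto (range (ptE L A c)) m := by
  rintro ⟨P, hP, -, hPd⟩
  have hcpt : CompactSpace S3 := isCompact_iff_compactSpace.1 (isCompact_sphere _ _)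
  have hbd : Bornology.IsBounded (range (ptE L A c)) := (GM_compact L A c).isBounded
  have hPb : ∀ i, Bornology.IsBounded (P i) := fun i =>
    hbd.subset (by rw [← hP]; exact subset_iUnion P i)
  rw [GM_diam L h hc] at hPd
  choose f hf1 hf2 hf3 hf4 hf5 using fun i => GM_bump (P i) (hPb i) (hPd i)
  have hint : ∀ i s, Integrable (fun g : S3 => f i (ptE L A c (s, g))) μ := by
    intro i s
    have hcont : Continuous (fun g : S3 => f i (ptE L A c (s, g))) :=
      (hf1 i).comp (GM_continuous L A c s)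
    exact hcont.integrable_of_hasCompactSupport (HasCompactSupport.of_compactSpace _)
  have h1 : ∀ i, (∑ s, ∫ g, f i (ptE L A c (s, g)) ∂μ) * m < Fintype.card S := by
    intro i
    refine hm (fun s g => f i (ptE L A c (s, g))) (fun s => (hf1 i).comp (GM_continuous L A c s))
      (fun s g => hf2 i _) (fun s g => hf3 i _) ?_
    intro s g t g' he
    exact hf5 i _ _ ((GM_dist_eq L h hc (s, g) (t, g')).2 he)
  have h2 : (Fintype.card S : ℝ) ≤ ∑ i, ∑ s, ∫ g, f i (ptE L A c (s, g)) ∂μ := by
    rw [Finset.sum_comm]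
    have h3 : ∀ s : S, (1 : ℝ) ≤ ∑ i, ∫ g, f i (ptE L A c (s, g)) ∂μ := by
      intro s
      rw [← integral_finsetSum _ fun i _ => hint i s]
      have h4 : (1 : ℝ) = ∫ _ : S3, (1 : ℝ) ∂μ := by simp
      rw [h4]
      refine integral_mono (integrable_const _) (integrable_finsetSum _ fun i _ => hint i s) ?_
      intro g
      simp only
      have h5 : ptE L A c (s, g) ∈ ⋃ i, P i := by rw [hP]; exact mem_range_self _
      obtain ⟨i, hi⟩ := mem_iUnion.1 h5
      rw [← hf4 i _ hi]
      exact Finset.single_le_sum (f := fun j => f j (ptE L A c (s, g))) (fun j _ => hf2 j _)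
        (Finset.mem_univ i)
    calc (Fintype.card S : ℝ) = ∑ _s : S, (1 : ℝ) := by simp
      _ ≤ _ := Finset.sum_le_sum fun s _ => h3 s
  have hS : 0 < (Fintype.card S : ℝ) := by
    obtain ⟨x, -⟩ := GM_exists_edge h
    have : Nonempty S := ⟨x.1⟩
    exact_mod_cast Fintype.card_pos
  rcases Nat.eq_zero_or_pos m with h0 | h0
  · subst h0
    simp only [Finset.univ_eq_empty, Finset.sum_empty] at h2
    linarith
  · have hm0 : 0 < (m : ℝ) := by exact_mod_cast h0
    have h6 : (∑ i, ∑ s, ∫ g, f i (ptE L A c (s, g)) ∂μ) * m <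
        ∑ _i : Fin m, (Fintype.card S : ℝ) := by
      rw [Finset.sum_mul]
      have : Nonempty (Fin m) := ⟨⟨0, h0⟩⟩
      exact Finset.sum_lt_sum_of_nonempty Finset.univ_nonempty fun i _ => h1 i
    rw [Finset.sum_const, Finset.card_univ, Fintype.card_fin, nsmul_eq_mul] at h6
    nlinarith

/-- **The geometric part.** -/
theorem geo_main [MeasurableSpace S3] [BorelSpace S3] (μ : Measure S3) [IsProbabilityMeasure μ]
    (h : GData A M ν ε C low) {m : ℕ} (hm : GSmall μ A ν m) {d : ℕ}
    (hd : d = 4 * (Fintype.card I + Fintype.card I ^ 2)) :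
    ∃ K : Set (EuclideanSpace ℝ (Fin d)), IsCompact K ∧ K.Nontrivial ∧
      IsGeneral K (diameters K) ∧ ¬ SplitsInto K m := by
  have hν := h.ν_pos
  have hM := h.M_pos
  have hfr : Module.finrank ℝ (Amb I) = d := by rw [hd, GM_finrank]
  set c : ℝ := Real.sqrt (1 / (2 * ν)) with hcdef
  have hc : c ^ 2 = 1 / (2 * ν) := Real.sq_sqrt (by positivity)
  have hc0 : 0 < c := Real.sqrt_pos.2 (by positivity)
  set L : Amb I ≃ₗᵢ[ℝ] EuclideanSpace ℝ (Fin d) :=
    ((stdOrthonormalBasis ℝ (Amb I)).reindex (finCongr hfr)).repr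
  refine ⟨range (ptE L A c), GM_compact L A c, ?_, GM_general L h hc0 hc,
    GM_nosplit μ L h hc hm⟩
  obtain ⟨x, y, hxy⟩ := GM_exists_edge h
  have h1 := (GM_dist_eq L h hc x y).2 hxy
  have hR : 0 < Real.sqrt (2 * M + M ^ 2 / ν + ν) := Real.sqrt_pos.2 (by positivity)
  refine ⟨_, mem_range_self x, _, mem_range_self y, fun hne => ?_⟩
  rw [hne, dist_self] at h1
  linarith

end Pool.Agent.BQ
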