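import Mathlib
import Pool.Agent.BQ.A_Def
import Pool.Agent.BQ.GMain3

/-!
# The orientation of the edges by levels
-/

open Set Metric Quaternion
open scoped RealInnerProductSpace

namespace Pool.Agent.BQ

set_option linter.unusedSectionVars false

variable {S I : Type} [Fintype S] [Fintype I]

/-- What the level function of the tree has to satisfy: along `g' = - (star q / |q|) g`, where `q`
has norm `n`, the level changes by one, and it decreases exactly if `p` divides `star q * Q₀`. -/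
def LevelFn (cq : ℍ[ℤ] → ℍ[ℝ]) (p n : ℤ) (ν : ℝ) (lev : S3 → ℕ) : Prop :=
  ∀ g : S3, ∃ Q0 : ℍ[ℤ], ¬ BQA.DV p Q0 ∧ ∀ (q : ℍ[ℤ]) (g' : S3), normSq q = n →
    cq q * (g' : ℍ[ℝ]) = -(ν • (g : ℍ[ℝ])) →
    (lev g' = lev g + 1 ∧ ¬ BQA.DV p (star q * Q0)) ∨ (lev g' + 1 = lev g ∧ BQA.DV p (star q * Q0))

/-- The multiplicity condition: at most `C` labels in each direction. -/
def MultC (qq : S → S → ℍ[ℤ]) (p n : ℤ) (C : ℕ) : Prop :=
  ∀ s t0, normSq (qq s t0) = n →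
    {t : S | normSq (qq s t) = n ∧ BQA.DV p (star (qq s t) * qq s t0)}.ncard ≤ C

/-- From the level function and the multiplicity condition to the data of the construction. -/
theorem GL_data {A : S → I → ℍ[ℝ]} {M ε : ℝ} {C : ℕ} {p n : ℤ} {cq : ℍ[ℤ] → ℍ[ℝ]}
    {qq : S → S → ℍ[ℤ]} {lev : S3 → ℕ} (hp : Prime p) (h2 : ¬ p ∣ 2) (hn : 0 < n)
    (hcq : ∀ q, ‖cq q‖ ^ 2 = ((normSq q : ℤ) : ℝ)) (hqq : ∀ s t, kap A s t = cq (qq s t))
    (hA : IsFrame A M) (hM : 0 < M) (hMn : (n : ℝ) < M ^ 2) (he : ε ≤ 1 / 2)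
    (hC : 16 * C * ε ≤ 1) (hsep : ∀ s t, s ≠ t → ((normSq (qq s t) : ℤ) : ℝ) ≤ ε * M ^ 2)
    (hedge : ∃ s t, normSq (qq s t) = n) (hlev : LevelFn cq p n (Real.sqrt n) lev)
    (hmult : MultC qq p n C) :
    GData A M (Real.sqrt n) ε C (fun x y => lev y.2 < lev x.2) := by
  have hnR : (0 : ℝ) < n := by exact_mod_cast hn
  have hν : 0 < Real.sqrt n := Real.sqrt_pos.2 hnR
  have hνsq : Real.sqrt n ^ 2 = n := Real.sq_sqrt hnR.le
  have hnorm : ∀ {x y : S × S3}, GEdge A (Real.sqrt n) x y → normSq (qq x.1 y.1) = n := by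
    intro x y hxy
    have h1 := GM_edge_norm hν hxy
    rw [hqq] at h1
    have h3 := hcq (qq x.1 y.1)
    rw [h1, hνsq] at h3
    exact_mod_cast h3.symm
  have hstep : ∀ {x y : S × S3}, GEdge A (Real.sqrt n) x y →
      cq (qq x.1 y.1) * (y.2 : ℍ[ℝ]) = -(Real.sqrt n • (x.2 : ℍ[ℝ])) := by
    intro x y hxy
    rw [← hqq]
    exact hxy
  refine ⟨hA, hM, hν, he, hC, ?_, ?_, ?_, ?_, ?_, ?_⟩
  · intro s t hst
    rw [hqq, hcq]
    exact hsep s t hst
  · obtain ⟨s, t, hst⟩ := hedge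
    refine ⟨s, t, ?_⟩
    have h3 := hcq (qq s t)
    rw [hst, ← hνsq] at h3
    rw [hqq]
    exact (sq_eq_sq₀ (norm_nonneg _) hν.le).1 h3
  · intro h
    rw [← h, hνsq] at hMn
    exact lt_irrefl _ hMn
  · intro x y hxy
    obtain ⟨Q0, -, hQ⟩ := hlev x.2
    rcases hQ (qq x.1 y.1) y.2 (hnorm hxy) (hstep hxy) with h | h
    · right
      change lev x.2 < lev y.2
      omega
    · left
      change lev y.2 < lev x.2
      omega
  · intro x y _ h h'
    exact lt_asymm h h'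
  · intro x
    obtain ⟨Q0, hQ0, hQ⟩ := hlev x.2
    set T := {t : S | ∃ g : S3, GEdge A (Real.sqrt n) x (t, g) ∧ lev g < lev x.2} with hT
    have hTd : ∀ t ∈ T, normSq (qq x.1 t) = n ∧ BQA.DV p (star (qq x.1 t) * Q0) := by
      rintro t ⟨g, hg, hl⟩
      refine ⟨hnorm hg, ?_⟩
      rcases hQ (qq x.1 t) g (hnorm hg) (hstep hg) with h | h
      · omega
      · exact h.2
    rcases T.eq_empty_or_nonempty with h0 | ⟨t0, ht0⟩
    · rw [h0, Set.ncard_empty]
      exact Nat.zero_le _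
    · refine le_trans (Set.ncard_le_ncard ?_ (Set.toFinite _)) (hmult x.1 t0 (hTd t0 ht0).1)
      intro t ht
      have h1 := hTd t ht
      exact ⟨h1.1, BQA.dv_star_mul_of_common hp h2 hQ0 h1.2 (hTd t0 ht0).2⟩

end Pool.Agent.BQ
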