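import Mathlib
import Pool.Agent.BQ.Defs
import Pool.Agent.BQ.GLev

/-!
# The frame of the labels and the geometric part for a family of labels

The vector of the label `s` has the coordinates `1` and `2 ^ (j / 2) v ^ (s (v, c, j))`. The final
theorems are `geo_SG` and `geo_SG'`.
-/

open Set Metric Quaternion MeasureTheory
open scoped RealInnerProductSpace

namespace Pool.Agent.BQ

set_option linter.unusedSectionVars false

open BQA (qR DV levR iu kapL Lab Idx SG Mult usp uR QG)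

/-- The neighbour in a direction. -/
lemma GL_solve {n : ℤ} (hn : 0 < n) {q : ℍ[ℤ]} (hq : normSq q = n) {g g' : ℍ[ℝ]}
    (hg' : qR q * g' = -(Real.sqrt n • g)) : g' = (-(Real.sqrt n)⁻¹) • (star (qR q) * g) := by
  have hnR : (0 : ℝ) < n := by exact_mod_cast hn
  have hν : 0 < Real.sqrt n := Real.sqrt_pos.2 hnR
  have hνsq : Real.sqrt n * Real.sqrt n = n := Real.mul_self_sqrt hnR.le
  have h4 : star (qR q) * (qR q * g') = (n : ℝ) • g' := by
    rw [← mul_assoc, Quaternion.star_mul_self, BQA.normSq_qR, hq, Quaternion.coe_mul_eq_smul]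
  rw [hg', mul_neg, mul_smul_comm] at h4
  have h5 : g' = (n : ℝ)⁻¹ • ((n : ℝ) • g') := by
    rw [smul_smul, inv_mul_cancel₀ hnR.ne', one_smul]
  have h6 : (n : ℝ)⁻¹ * Real.sqrt n = (Real.sqrt n)⁻¹ := by
    have h7 : (n : ℝ)⁻¹ = (Real.sqrt n)⁻¹ * (Real.sqrt n)⁻¹ := by
      rw [← mul_inv, hνsq]
    rw [h7, mul_assoc, inv_mul_cancel₀ hν.ne', mul_one]
  rw [h5, ← h4, smul_neg, neg_smul, smul_smul, h6]

/-- The level function of helper19's block has the property `LevelFn`. -/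
theorem GL_levelFn {p : ℕ} {n : ℤ} (hp : p.Prime) (hn : 0 < n) (h1 : (p : ℤ) ∣ n)
    (h2 : ¬ (p : ℤ) ^ 2 ∣ n) :
    LevelFn qR p n (Real.sqrt n) (fun g => levR p (g : ℍ[ℝ])) := by
  have hnR : (0 : ℝ) < n := by exact_mod_cast hn
  have hν : 0 < Real.sqrt n := Real.sqrt_pos.2 hnR
  intro g
  have hg : (g : ℍ[ℝ]) ≠ 0 := by
    intro h
    have := GM_norm g
    rw [h, norm_zero] at this
    exact zero_ne_one this
  obtain ⟨Q0, hQ0, hQ⟩ := BQA.levR_step hp hg
  refine ⟨Q0, hQ0, fun q g' hq hg' => ?_⟩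
  have h6 := hQ q (by rw [hq]; exact h1) (by rw [hq]; exact h2) (-(Real.sqrt n)⁻¹)
    (neg_ne_zero.2 (inv_ne_zero hν.ne'))
  rw [← GL_solve hn hq hg'] at h6
  exact h6

lemma GL_iu_norm (v : Fin 3) : star (iu v) * iu v = 1 := by
  fin_cases v <;> apply Quaternion.ext <;> simp [iu]

lemma GL_iu_four (v : Fin 3) : iu v ^ 4 = 1 := by
  fin_cases v <;> apply Quaternion.ext <;> simp [iu, pow_succ]

lemma GL_pow_sub {v : ℍ[ℤ]} (h1 : star v * v = 1) (h4 : v ^ 4 = 1) (a b : ZMod 4) :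
    star (v ^ a.val) * v ^ b.val = v ^ (b - a).val := by
  have hs : star v = v ^ 3 := by
    calc star v = star v * v ^ 4 := by rw [h4, mul_one]
      _ = (star v * v) * v ^ 3 := by rw [mul_assoc, ← pow_succ']
      _ = v ^ 3 := by rw [h1, one_mul]
  have hm : ∀ k : ℕ, v ^ k = v ^ (k % 4) := by
    intro k
    conv_lhs => rw [← Nat.div_add_mod k 4, pow_add, pow_mul, h4, one_pow, one_mul]
  rw [star_pow, hs, ← pow_mul, ← pow_add, hm]
  congr 1
  revert a b
  decide

lemma GL_qR_sum {J : Type} (s : Finset J) (f : J → ℍ[ℤ]) :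
    qR (∑ a ∈ s, f a) = ∑ a ∈ s, qR (f a) := by
  classical
  induction s using Finset.induction_on with
  | empty => simp [BQA.qR_zero]
  | insert a s ha ih => rw [Finset.sum_insert ha, Finset.sum_insert ha, BQA.qR_add, ih]

variable {R J : ℕ}

/-- The vector of the label `s`. -/
noncomputable def labA (s : Lab R J) : Option (Idx R J) → ℍ[ℝ]
  | none => 1
  | some c => Real.sqrt ((2 : ℝ) ^ (c.2.2 : ℕ)) • qR (iu c.1 ^ (s c).val)

/-- The square of the length of the vectors. -/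
noncomputable def labM (R J : ℕ) : ℝ := 1 + 3 * R * (2 ^ J - 1)

/-- The inner products of the frame. -/
theorem GL_kap {N : ℕ} (s : Fin N → Lab R J) (i j : Fin N) :
    kap (fun i => labA (s i)) i j = qR (kapL (s j - s i)) := by
  unfold kap kapL
  rw [Fintype.sum_option, BQA.qR_add, BQA.qR_one, GL_qR_sum]
  have e0 : star (labA (s i) none) * labA (s j) none = 1 := by
    simp only [labA, star_one, mul_one]
  rw [e0]
  congr 1
  refine Finset.sum_congr rfl fun c _ => ?_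
  simp only [labA]
  have e1 : Real.sqrt ((2 : ℝ) ^ (c.2.2 : ℕ)) * Real.sqrt ((2 : ℝ) ^ (c.2.2 : ℕ)) =
      (2 : ℝ) ^ (c.2.2 : ℕ) := Real.mul_self_sqrt (by positivity)
  rw [Quaternion.star_smul, smul_mul_smul_comm, e1, BQA.qR_smul, ← BQA.qR_star, ← BQA.qR_mul,
    GL_pow_sub (GL_iu_norm c.1) (GL_iu_four c.1)]
  push_cast
  rfl

lemma GL_sum_pow (R J : ℕ) : (1 : ℝ) + ∑ c : Idx R J, (2 : ℝ) ^ (c.2.2 : ℕ) = labM R J := by
  have h1 : ∑ j : Fin J, (2 : ℝ) ^ (j : ℕ) = 2 ^ J - 1 := by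
    rw [Fin.sum_univ_eq_sum_range (fun j => (2 : ℝ) ^ j), geom_sum_eq (by norm_num)]
    norm_num
  unfold labM
  rw [Fintype.sum_prod_type]
  simp only [Fintype.sum_prod_type, h1, Finset.sum_const, Finset.card_univ, Fintype.card_fin,
    nsmul_eq_mul]
  push_cast
  ring

lemma GL_coe_sum {I : Type} (s : Finset I) (f : I → ℝ) :
    ((∑ a ∈ s, f a : ℝ) : ℍ[ℝ]) = ∑ a ∈ s, ((f a : ℝ) : ℍ[ℝ]) := by
  classical
  induction s using Finset.induction_on with
  | empty => simp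
  | insert a s ha ih => rw [Finset.sum_insert ha, Finset.sum_insert ha, Quaternion.coe_add, ih]

/-- All vectors have the same length. -/
theorem GL_frame {N : ℕ} (s : Fin N → Lab R J) :
    IsFrame (fun i => labA (s i)) (labM R J) := by
  intro i
  rw [GL_kap, sub_self]
  unfold kapL
  rw [BQA.qR_add, BQA.qR_one, GL_qR_sum, ← GL_sum_pow, Quaternion.coe_add, Quaternion.coe_one,
    GL_coe_sum]
  congr 1
  refine Finset.sum_congr rfl fun c _ => ?_
  rw [BQA.qR_smul, Pi.zero_apply, ZMod.val_zero, pow_zero, BQA.qR_one]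
  push_cast
  rw [← Quaternion.coe_mul_eq_smul, mul_one]
  push_cast
  rfl

lemma GL_labM_pos (R J : ℕ) : 0 < labM R J := by
  unfold labM
  have h1 : (1 : ℝ) ≤ 2 ^ J := one_le_pow₀ (by norm_num)
  have h2 : 0 ≤ 3 * (R : ℝ) * (2 ^ J - 1) := by
    have : (0 : ℝ) ≤ 2 ^ J - 1 := by linarith
    positivity
  linarith

/-- An edge of the frame of a family of labels is an edge of the graph of the family. -/
lemma GL_edge {N n : ℕ} (hn : 0 < n) (s : Fin N → Lab R J) {i j : Fin N} {g g' : S3}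
    (h : GEdge (fun i => labA (s i)) (Real.sqrt n) (i, g) (j, g')) :
    normSq (kapL (s j - s i)) = n ∧ g' = usp (kapL (s j - s i)) * g := by
  have hnR : (0 : ℝ) < n := by exact_mod_cast hn
  have hν : 0 < Real.sqrt n := Real.sqrt_pos.2 hnR
  have h1 := GM_edge_norm hν h
  simp only at h1
  rw [GL_kap] at h1
  have h2 : normSq (kapL (s j - s i)) = (n : ℤ) := by
    have h3 : ‖qR (kapL (s j - s i))‖ * ‖qR (kapL (s j - s i))‖ = n := by
      rw [h1, Real.mul_self_sqrt hnR.le]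
    rw [← Quaternion.normSq_eq_norm_mul_self, BQA.normSq_qR] at h3
    exact_mod_cast h3
  refine ⟨h2, ?_⟩
  have h3 : qR (kapL (s j - s i)) * (g' : ℍ[ℝ]) = -(Real.sqrt n • (g : ℍ[ℝ])) := by
    rw [← GL_kap]
    exact h
  have hnZ : (0 : ℤ) < (n : ℤ) := by exact_mod_cast hn
  have h4 := GL_solve hnZ h2 (g := (g : ℍ[ℝ])) (g' := (g' : ℍ[ℝ])) (by rw [h3]; norm_cast)
  have h5 : qR (kapL (s j - s i)) ≠ 0 := by
    intro h0
    rw [h0, norm_zero] at h1
    exact hν.ne h1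
  apply Subtype.ext
  have h6 : ((usp (kapL (s j - s i)) * g : S3) : ℍ[ℝ]) =
      ((usp (kapL (s j - s i)) : S3) : ℍ[ℝ]) * (g : ℍ[ℝ]) := rfl
  rw [h6, usp, BQA.coe_uR h5, h1, h4, neg_mul, smul_mul_assoc, neg_smul]
  norm_cast

/-- **The geometric part for a family of labels.** -/
theorem geo_SG [MeasurableSpace S3] [BorelSpace S3] (μ : Measure S3) [IsProbabilityMeasure μ]
    {n N p C m : ℕ} {ε : ℝ} (s : Fin N → Lab R J) (hp : p.Prime) (hp2 : p ≠ 2) (hn : 0 < n)
    (h1 : p ∣ n) (h2 : ¬ p ^ 2 ∣ n) (hM : (n : ℝ) < labM R J ^ 2) (he : ε ≤ 1 / 2)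
    (hC : 16 * C * ε ≤ 1)
    (hsep : ∀ i j, i ≠ j → ((normSq (kapL (s j - s i)) : ℤ) : ℝ) ≤ ε * labM R J ^ 2)
    (hedge : ∃ i j, normSq (kapL (s j - s i)) = n) (hmult : Mult (SG n s) p C)
    (hind : ∀ f : Fin N → S3 → ℝ, (∀ i, Continuous (f i)) → (∀ i g, 0 ≤ f i g) →
      (∀ i g, f i g ≤ 1) →
      (∀ (e : (SG n s).E) (g : S3),
        f ((SG n s).src e) g * f ((SG n s).tgt e) (usp ((SG n s).q e) * g) = 0) →
      (∑ i, ∫ g, f i g ∂μ) * m < N)
    {d : ℕ} (hd : d = 4 * ((3 * R * J + 1) + (3 * R * J + 1) ^ 2)) :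
    ∃ K : Set (EuclideanSpace ℝ (Fin d)), IsCompact K ∧ K.Nontrivial ∧
      IsGeneral K (diameters K) ∧ ¬ SplitsInto K m := by
  have hpp : Prime (p : ℤ) := Nat.prime_iff_prime_int.mp hp
  have h22 : ¬ (p : ℤ) ∣ 2 := by
    intro h3
    have h4 : p ∣ 2 := by exact_mod_cast h3
    exact hp2 ((Nat.prime_dvd_prime_iff_eq hp Nat.prime_two).mp h4)
  have hnZ : (0 : ℤ) < (n : ℤ) := by exact_mod_cast hn
  have h1Z : (p : ℤ) ∣ (n : ℤ) := by exact_mod_cast h1
  have h2Z : ¬ (p : ℤ) ^ 2 ∣ (n : ℤ) := by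
    intro h
    exact h2 (by exact_mod_cast h)
  have hdata : GData (fun i => labA (s i)) (labM R J) (Real.sqrt (n : ℤ)) ε C
      (fun x y => levR p (y.2 : ℍ[ℝ]) < levR p (x.2 : ℍ[ℝ])) := by
    refine GL_data (lev := fun g : S3 => levR p (g : ℍ[ℝ])) hpp h22 hnZ ?_ (GL_kap s) (GL_frame s)
      (GL_labM_pos R J) (by exact_mod_cast hM) he hC hsep hedge (GL_levelFn hp hnZ h1Z h2Z) ?_
    · intro q
      rw [← BQA.normSq_qR, Quaternion.normSq_eq_norm_mul_self, sq]
    · intro i j0 hj0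
      classical
      have h3 := hmult ⟨(i, j0), hj0⟩
      refine le_trans ?_ h3
      rw [← Set.ncard_coe_finset]
      refine Set.ncard_le_ncard_of_injOn
        (fun j => if h : normSq (kapL (s j - s i)) = n then (⟨(i, j), h⟩ : (SG n s).E)
          else ⟨(i, j0), hj0⟩) ?_ ?_ (Set.toFinite _)
      · intro j hj
        simp only [Set.mem_ofPred_eq] at hj
        simp only [Finset.coe_filter, Finset.mem_univ, true_and, Set.mem_ofPred_eq]
        rw [dif_pos hj.1]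
        exact ⟨rfl, hj.2⟩
      · intro j hj j' hj' hjj
        simp only at hjj
        rw [dif_pos hj.1, dif_pos hj'.1] at hjj
        have h4 := congrArg Subtype.val hjj
        exact congrArg Prod.snd h4
  have hcast : Real.sqrt (n : ℤ) = Real.sqrt n := by norm_cast
  rw [hcast] at hdata
  refine geo_main μ hdata (m := m) ?_ ?_
  · intro f hf1 hf2 hf3 hf4
    rw [Fintype.card_fin]
    refine hind f hf1 hf2 hf3 ?_
    rintro ⟨⟨i, j⟩, hij⟩ g
    refine hf4 i g j _ ?_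
    change kap (fun i => labA (s i)) i j * ((usp (kapL (s j - s i)) * g : S3) : ℍ[ℝ]) =
      -(Real.sqrt n • (g : ℍ[ℝ]))
    have hij' : normSq (kapL (s j - s i)) = (n : ℤ) := hij
    have hnR : (0 : ℝ) < n := by exact_mod_cast hn
    have hν : 0 < Real.sqrt n := Real.sqrt_pos.2 hnR
    have h5 : ‖qR (kapL (s j - s i))‖ = Real.sqrt n := by
      have h6 : ‖qR (kapL (s j - s i))‖ * ‖qR (kapL (s j - s i))‖ = n := by
        rw [← Quaternion.normSq_eq_norm_mul_self, BQA.normSq_qR, hij']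
        norm_cast
      rw [← h6, Real.sqrt_mul_self (norm_nonneg _)]
    have h7 : qR (kapL (s j - s i)) ≠ 0 := by
      intro h0
      rw [h0, norm_zero] at h5
      exact hν.ne h5
    have h8 : ((usp (kapL (s j - s i)) * g : S3) : ℍ[ℝ]) =
      ((usp (kapL (s j - s i)) : S3) : ℍ[ℝ]) * (g : ℍ[ℝ]) := rfl
    rw [GL_kap, h8, usp, BQA.coe_uR h7, h5, neg_mul, mul_neg, smul_mul_assoc, mul_smul_comm,
      ← mul_assoc, Quaternion.self_mul_star, BQA.normSq_qR, hij', Quaternion.coe_mul_eq_smul,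
      smul_smul]
    congr 2
    have h9 : (((n : ℤ) : ℤ) : ℝ) = Real.sqrt n * Real.sqrt n := by
      rw [Real.mul_self_sqrt hnR.le]
      norm_cast
    rw [h9, ← mul_assoc, inv_mul_cancel₀ hν.ne', one_mul]
  · rw [hd]
    have h10 : Fintype.card (Option (Idx R J)) = 3 * R * J + 1 := by
      rw [Fintype.card_option, Fintype.card_prod, Fintype.card_prod, Fintype.card_fin,
        Fintype.card_fin, Fintype.card_fin]
      ring
    rw [h10]

end Pool.Agent.BQ
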