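import Mathlib
import Pool.Agent.BQ.Defs
import Pool.Agent.BQ.GLab

/-!
# Independent functions of a quaternionic graph

A bound for the operator on functions with integral zero and a lower bound for the number of edges
in large sets of vertices imply that independent functions have small integrals.
-/

open Set Metric Quaternion MeasureTheory
open scoped RealInnerProductSpace

namespace Pool.Agent.BQ

set_option linter.unusedSectionVars false

open BQA (usp QG SG Mult kapL Lab)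

section Ind

variable [MeasurableSpace S3] [BorelSpace S3] (μ : Measure S3) [IsProbabilityMeasure μ]

lemma GI_int {f : S3 → ℝ} (hf : Continuous f) : Integrable f μ := by
  have hcpt : CompactSpace S3 := isCompact_iff_compactSpace.1 (isCompact_sphere _ _)
  exact hf.integrable_of_hasCompactSupport (HasCompactSupport.of_compactSpace _)

/-- One edge. -/
lemma GI_edge [μ.IsMulLeftInvariant] {a b : S3 → ℝ} (ha : Continuous a) (hb : Continuous b)
    (u : S3) (h0 : ∀ g, a g * b (u * g) = 0) :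
    (∫ g, a g ∂μ) * (∫ g, b g ∂μ) =
      -∫ g, (a g - ∫ x, a x ∂μ) * (b (u * g) - ∫ x, b x ∂μ) ∂μ := by
  set F := ∫ x, a x ∂μ with hF
  set G := ∫ x, b x ∂μ with hG
  have hbu : Continuous (fun g => b (u * g)) := hb.comp (continuous_const.mul continuous_id)
  have h1 : ∫ g, b (u * g) ∂μ = G := integral_mul_left_eq_self b u
  have h2 : ∀ g, (a g - F) * (b (u * g) - G) = (F * G - F * b (u * g)) - G * a g := by
    intro g
    have := h0 g
    ring_nf
    ring_nf at this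
    linarith
  simp only [h2]
  have i1 : Integrable (fun _ : S3 => F * G) μ := integrable_const _
  have i2 : Integrable (fun g : S3 => F * b (u * g)) μ := (GI_int μ hbu).const_mul _
  have i3 : Integrable (fun g : S3 => G * a g) μ := (GI_int μ ha).const_mul _
  have i4 : Integrable (fun g : S3 => F * G - F * b (u * g)) μ := i1.sub i2
  have e1 : ∫ g, F * b (u * g) ∂μ = F * G := by rw [integral_const_mul, h1]
  have e2 : ∫ g, G * a g ∂μ = G * F := by rw [integral_const_mul]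
  have e3 : ∫ _ : S3, F * G ∂μ = F * G := by
    simp only [integral_const, probReal_univ, one_smul]
  rw [integral_sub i4 i3, integral_sub i1 i2, e1, e2, e3]
  ring

/-- The norm of a centered function. -/
lemma GI_sq {a : S3 → ℝ} (ha : Continuous a) (h0 : ∀ g, 0 ≤ a g) (h1 : ∀ g, a g ≤ 1) :
    ∫ g, (a g - ∫ x, a x ∂μ) ^ 2 ∂μ ≤ 1 := by
  set F := ∫ x, a x ∂μ with hF
  have hF0 : 0 ≤ F := integral_nonneg h0
  have hF1 : F ≤ 1 := by
    have h4 : (1 : ℝ) = ∫ _ : S3, (1 : ℝ) ∂μ := by simp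
    rw [h4]
    exact integral_mono (GI_int μ ha) (integrable_const _) h1
  have h4 : (1 : ℝ) = ∫ _ : S3, (1 : ℝ) ∂μ := by simp
  rw [h4]
  refine integral_mono (GI_int μ ((ha.sub continuous_const).pow 2)) (integrable_const _) ?_
  intro g
  have h5 := h0 g
  have h6 := h1 g
  simp only
  nlinarith

/-- **Independent functions have small integrals.** -/
theorem GI_indep [μ.IsMulLeftInvariant] {n m : ℕ} (Γ : QG n) {B : ℝ} (hm : 0 < m)
    (hB : 0 ≤ B)
    (hZ : ∀ Z : Finset Γ.V, (Fintype.card Γ.V : ℝ) ≤ 2 * m * Z.card →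
      4 * (m : ℝ) ^ 2 * B * Fintype.card Γ.V <
        (Finset.univ.filter fun e => Γ.src e ∈ Z ∧ Γ.tgt e ∈ Z).card)
    (hT : ∀ f : Γ.V → S3 → ℝ, (∀ v, Continuous (f v)) → (∀ v, ∫ g, f v g ∂μ = 0) →
      |∑ e, ∫ g, f (Γ.src e) g * f (Γ.tgt e) (usp (Γ.q e) * g) ∂μ| ≤
        B * ∑ v, ∫ g, f v g ^ 2 ∂μ)
    {f : Γ.V → S3 → ℝ} (hf : ∀ v, Continuous (f v)) (h0 : ∀ v g, 0 ≤ f v g)
    (h1 : ∀ v g, f v g ≤ 1)
    (he : ∀ e g, f (Γ.src e) g * f (Γ.tgt e) (usp (Γ.q e) * g) = 0) :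
    (∑ v, ∫ g, f v g ∂μ) * m < Fintype.card Γ.V := by
  classical
  by_contra hcon
  push Not at hcon
  set F : Γ.V → ℝ := fun v => ∫ g, f v g ∂μ with hF
  have hF0 : ∀ v, 0 ≤ F v := fun v => integral_nonneg (h0 v)
  have hF1 : ∀ v, F v ≤ 1 := by
    intro v
    have h4 : (1 : ℝ) = ∫ _ : S3, (1 : ℝ) ∂μ := by simp
    rw [h4]
    exact integral_mono (GI_int μ (hf v)) (integrable_const _) (h1 v)
  have hmR : (0 : ℝ) < m := by exact_mod_cast hm
  -- the operator bound
  have hA : ∑ e, F (Γ.src e) * F (Γ.tgt e) ≤ B * Fintype.card Γ.V := by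
    have hT' := hT (fun v g => f v g - F v) (fun v => (hf v).sub continuous_const) (by
      intro v
      have i1 : Integrable (fun _ : S3 => F v) μ := integrable_const _
      rw [integral_sub (GI_int μ (hf v)) i1]
      simp only [integral_const, probReal_univ, one_smul]
      exact sub_self _)
    have h2 : ∑ e, F (Γ.src e) * F (Γ.tgt e) =
        -∑ e, ∫ g, (f (Γ.src e) g - F (Γ.src e)) *
          (f (Γ.tgt e) (usp (Γ.q e) * g) - F (Γ.tgt e)) ∂μ := by
      rw [← Finset.sum_neg_distrib]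
      exact Finset.sum_congr rfl fun e _ => GI_edge μ (hf _) (hf _) _ (he e)
    have h3 : ∑ v, ∫ g, (f v g - F v) ^ 2 ∂μ ≤ Fintype.card Γ.V := by
      have h4 : ∑ v, ∫ g, (f v g - F v) ^ 2 ∂μ ≤ ∑ _v : Γ.V, (1 : ℝ) :=
        Finset.sum_le_sum fun v _ => GI_sq μ (hf v) (h0 v) (h1 v)
      rwa [Finset.sum_const, Finset.card_univ, nsmul_eq_mul, mul_one] at h4
    rw [h2]
    exact (neg_le_abs _).trans (hT'.trans (mul_le_mul_of_nonneg_left h3 hB))
  -- the large set
  set Z := Finset.univ.filter fun v => 1 ≤ F v * (2 * m) with hZdef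
  have hZc : (Fintype.card Γ.V : ℝ) ≤ 2 * m * Z.card := by
    have h2 : ∀ v, F v * (2 * m) ≤ (if v ∈ Z then (2 * m : ℝ) else 0) + 1 := by
      intro v
      by_cases hv : v ∈ Z
      · rw [if_pos hv]
        have := hF1 v
        nlinarith
      · rw [if_neg hv]
        have h3 : ¬ 1 ≤ F v * (2 * m) := fun h3 => hv (Finset.mem_filter.2 ⟨Finset.mem_univ _, h3⟩)
        push Not at h3
        linarith
    have h3 : (∑ v, F v) * (2 * m) ≤ 2 * m * Z.card + Fintype.card Γ.V := by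
      rw [Finset.sum_mul]
      refine (Finset.sum_le_sum fun v _ => h2 v).trans ?_
      rw [Finset.sum_add_distrib, Finset.sum_ite_mem, Finset.univ_inter, Finset.sum_const,
        Finset.sum_const, Finset.card_univ, nsmul_eq_mul, nsmul_eq_mul, mul_one]
      linarith [mul_comm (Z.card : ℝ) (2 * m)]
    have h4 : (∑ v, F v) * (2 * m) = 2 * ((∑ v, F v) * m) := by ring
    rw [h4] at h3
    linarith
  have hE := hZ Z hZc
  -- the edges in the large set
  have hL : ((Finset.univ.filter fun e => Γ.src e ∈ Z ∧ Γ.tgt e ∈ Z).card : ℝ) ≤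
      (4 * (m : ℝ) ^ 2) * ∑ e, F (Γ.src e) * F (Γ.tgt e) := by
    have h2 : ((Finset.univ.filter fun e => Γ.src e ∈ Z ∧ Γ.tgt e ∈ Z).card : ℝ) =
        ∑ e, if (Γ.src e ∈ Z ∧ Γ.tgt e ∈ Z) then (1 : ℝ) else 0 := by
      rw [Finset.sum_boole]
    rw [h2, Finset.mul_sum]
    refine Finset.sum_le_sum fun e _ => ?_
    split_ifs with h3
    · have h4 : 1 ≤ F (Γ.src e) * (2 * m) := (Finset.mem_filter.1 h3.1).2
      have h5 : 1 ≤ F (Γ.tgt e) * (2 * m) := (Finset.mem_filter.1 h3.2).2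
      have h6 := mul_le_mul h4 h5 zero_le_one (zero_le_one.trans h4)
      calc (1 : ℝ) = 1 * 1 := by ring
        _ ≤ _ := h6
        _ = _ := by ring
    · have := mul_nonneg (hF0 (Γ.src e)) (hF0 (Γ.tgt e))
      positivity
  have h7 : (4 * (m : ℝ) ^ 2) * ∑ e, F (Γ.src e) * F (Γ.tgt e) ≤
      4 * (m : ℝ) ^ 2 * (B * Fintype.card Γ.V) := mul_le_mul_of_nonneg_left hA (by positivity)
  linarith [mul_assoc (4 * (m : ℝ) ^ 2) B (Fintype.card Γ.V : ℝ)]

/-- **The geometric part for a family of labels, with the operator bound.** -/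
theorem geo_SG' [μ.IsMulLeftInvariant] {R J n N p C m : ℕ} {ε B : ℝ} (s : Fin N → Lab R J)
    (hp : p.Prime) (hp2 : p ≠ 2) (hn : 0 < n) (h1 : p ∣ n) (h2 : ¬ p ^ 2 ∣ n)
    (hM : (n : ℝ) < labM R J ^ 2) (he : ε ≤ 1 / 2) (hC : 16 * C * ε ≤ 1)
    (hsep : ∀ i j, i ≠ j → ((normSq (kapL (s j - s i)) : ℤ) : ℝ) ≤ ε * labM R J ^ 2)
    (hmult : Mult (SG n s) p C) (hm : 0 < m) (hB : 0 ≤ B)
    (hZ : ∀ Z : Finset (Fin N), (N : ℝ) ≤ 2 * m * Z.card →
      4 * (m : ℝ) ^ 2 * B * N <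
        ((Finset.univ.filter fun e : Fin N × Fin N => e.1 ∈ Z ∧ e.2 ∈ Z ∧
          normSq (kapL (s e.2 - s e.1)) = n).card : ℝ))
    (hT : ∀ f : Fin N → S3 → ℝ, (∀ v, Continuous (f v)) → (∀ v, ∫ g, f v g ∂μ = 0) →
      |∑ e, ∫ g, f ((SG n s).src e) g * f ((SG n s).tgt e) (usp ((SG n s).q e) * g) ∂μ| ≤
        B * ∑ v, ∫ g, f v g ^ 2 ∂μ)
    {d : ℕ} (hd : d = 4 * ((3 * R * J + 1) + (3 * R * J + 1) ^ 2)) :
    ∃ K : Set (EuclideanSpace ℝ (Fin d)), IsCompact K ∧ K.Nontrivial ∧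
      IsGeneral K (diameters K) ∧ ¬ SplitsInto K m := by
  classical
  have hmR : (0 : ℝ) < m := by exact_mod_cast hm
  have hcard : ∀ Z : Finset (Fin N),
      ((Finset.univ.filter fun e : (SG n s).E => (SG n s).src e ∈ Z ∧ (SG n s).tgt e ∈ Z).card) =
        (Finset.univ.filter fun e : Fin N × Fin N => e.1 ∈ Z ∧ e.2 ∈ Z ∧
          normSq (kapL (s e.2 - s e.1)) = n).card := by
    intro Z
    refine Finset.card_bij (fun e _ => e.1) ?_ ?_ ?_
    · intro e he
      have h3 := (Finset.mem_filter.1 he).2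
      exact Finset.mem_filter.2 ⟨Finset.mem_univ _, h3.1, h3.2, e.2⟩
    · intro a _ b _ hab
      exact Subtype.ext hab
    · intro b hb
      have h3 := (Finset.mem_filter.1 hb).2
      exact ⟨⟨b, h3.2.2⟩, Finset.mem_filter.2 ⟨Finset.mem_univ _, h3.1, h3.2.1⟩, rfl⟩
  have hedge : ∃ i j, normSq (kapL (s j - s i)) = n := by
    have h3 := hZ Finset.univ (by
      rw [Finset.card_univ, Fintype.card_fin]
      have h4 : (1 : ℝ) ≤ m := by exact_mod_cast hm
      have h5 : (0 : ℝ) ≤ N := Nat.cast_nonneg _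
      nlinarith)
    have h4 : (0 : ℝ) < ((Finset.univ.filter fun e : Fin N × Fin N => e.1 ∈ Finset.univ ∧
        e.2 ∈ Finset.univ ∧ normSq (kapL (s e.2 - s e.1)) = n).card : ℝ) :=
      lt_of_le_of_lt (by positivity) h3
    have h5 : 0 < (Finset.univ.filter fun e : Fin N × Fin N => e.1 ∈ Finset.univ ∧
        e.2 ∈ Finset.univ ∧ normSq (kapL (s e.2 - s e.1)) = n).card := by exact_mod_cast h4
    obtain ⟨e, he⟩ := Finset.card_pos.1 h5
    exact ⟨e.1, e.2, (Finset.mem_filter.1 he).2.2.2⟩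
  refine geo_SG μ s hp hp2 hn h1 h2 hM he hC hsep hedge hmult ?_ hd
  intro f hf1 hf2 hf3 hf4
  have h3 := GI_indep μ (SG n s) hm hB (by
    intro Z hZ'
    have h6 : (Fintype.card (SG n s).V : ℝ) = N := by
      change ((Fintype.card (Fin N) : ℕ) : ℝ) = N
      rw [Fintype.card_fin]
    rw [h6] at hZ' ⊢
    have h7 := hZ Z hZ'
    rw [← hcard Z] at h7
    exact h7) hT hf1 hf2 hf3 hf4
  have h6 : (Fintype.card (SG n s).V : ℝ) = N := by
    change ((Fintype.card (Fin N) : ℕ) : ℝ) = N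
    rw [Fintype.card_fin]
  rw [h6] at h3
  exact h3

end Ind

end Pool.Agent.BQ
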