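import Pool.Agent.BQ.H_Rho

/-!
# Block H of project BQ: reduction of the norm of an operator to the representations `rho l`
-/

set_option autoImplicit false

namespace Pool.Agent.BQ

open Matrix
open scoped Quaternion ComplexConjugate InnerProductSpace

noncomputable section

open BQA (S3 nv2)

/-- the form `⟨c, T c'⟩` of a weighted graph in a matrix representation -/
def wform {V Ed ι : Type} [Fintype V] [Fintype Ed] [Fintype ι] (src tgt : Ed → V) (a : Ed → ℂ)
    (u : Ed → S3) (ρ : S3 → Matrix ι ι ℂ) (c c' : V → ι → ℂ) : ℂ :=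
  ∑ e, a e * (star (c (src e)) ⬝ᵥ (ρ (u e) *ᵥ c' (tgt e)))

/-- the norm of `T` in the representation `ρ` is at most `B` -/
def WBd {V Ed ι : Type} [Fintype V] [Fintype Ed] [Fintype ι] (src tgt : Ed → V) (a : Ed → ℂ)
    (u : Ed → S3) (ρ : S3 → Matrix ι ι ℂ) (B : ℝ) : Prop :=
  ∀ c c' : V → ι → ℂ, ‖wform src tgt a u ρ c c'‖ ≤ B * Real.sqrt (nv2 c) * Real.sqrt (nv2 c')

theorem nv2_nonneg {V ι : Type} [Fintype V] [Fintype ι] (c : V → ι → ℂ) : 0 ≤ nv2 c := by
  unfold nv2
  positivity

theorem nv2_eq {V ι : Type} [Fintype V] [Fintype ι] (c : V → ι → ℂ) :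
    ((nv2 c : ℝ) : ℂ) = ∑ s, star (c s) ⬝ᵥ c s := by
  unfold nv2
  push_cast
  apply Finset.sum_congr rfl
  intro s _
  simp only [dotProduct, Pi.star_apply]
  apply Finset.sum_congr rfl
  intro i _
  rw [Complex.star_def, mul_comm, Complex.mul_conj, Complex.normSq_eq_norm_sq]
  push_cast
  rfl

variable {E : Type} [NormedAddCommGroup E] [InnerProductSpace ℂ E]

/-- the operator of a weighted graph -/
def gop {V Ed : Type} [Fintype V] [DecidableEq V] [Fintype Ed] (src tgt : Ed → V)
    (a : Ed → ℂ) (W : Submodule ℂ E) (lw : Ed → W →ₗ[ℂ] W) :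
    PiLp 2 (fun _ : V => W) →ₗ[ℂ] PiLp 2 (fun _ : V => W) :=
  (WithLp.linearEquiv 2 ℂ (V → W)).symm.toLinearMap ∘ₗ
    (∑ e, (LinearMap.single ℂ (fun _ : V => W) (src e)) ∘ₗ (a e • lw e) ∘ₗ
      (LinearMap.proj (tgt e))) ∘ₗ (WithLp.linearEquiv 2 ℂ (V → W)).toLinearMap

theorem gop_apply {V Ed : Type} [Fintype V] [DecidableEq V] [Fintype Ed] (src tgt : Ed → V)
    (a : Ed → ℂ) (W : Submodule ℂ E) (lw : Ed → W →ₗ[ℂ] W) (f : PiLp 2 (fun _ : V => W)) (s : V) :
    gop src tgt a W lw f s = ∑ e, if src e = s then a e • lw e (f (tgt e)) else 0 := by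
  have h0 : gop src tgt a W lw f s = (∑ e, (LinearMap.single ℂ (fun _ : V => W) (src e)) ∘ₗ
      (a e • lw e) ∘ₗ (LinearMap.proj (tgt e))) (f : V → W) s := rfl
  rw [h0, LinearMap.sum_apply, Finset.sum_apply]
  simp only [LinearMap.comp_apply, LinearMap.smul_apply, LinearMap.proj_apply,
    LinearMap.coe_single]
  apply Finset.sum_congr rfl
  intro e _
  by_cases h : src e = s
  · subst h
    simp
  · rw [if_neg h, Pi.single_eq_of_ne (fun h' => h h'.symm)]

theorem gop_inner {V Ed : Type} [Fintype V] [DecidableEq V] [Fintype Ed] (src tgt : Ed → V)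
    (a : Ed → ℂ) (W : Submodule ℂ E) (lw : Ed → W →ₗ[ℂ] W) (g f : PiLp 2 (fun _ : V => W)) :
    ⟪g, gop src tgt a W lw f⟫_ℂ = ∑ e, a e * ⟪((g (src e) : W) : E), ((lw e (f (tgt e)) : W) : E)⟫_ℂ := by
  rw [PiLp.inner_apply]
  simp only [gop_apply, inner_sum]
  rw [Finset.sum_comm]
  apply Finset.sum_congr rfl
  intro e _
  rw [Finset.sum_eq_single (src e)]
  · rw [if_pos rfl, inner_smul_right]
    rfl
  · intro s _ hs
    rw [if_neg (fun h => hs h.symm), inner_zero_right]
  · simp

/-- Test families for a space `W`: `φ` transforms by a representation `r` in which the norm is at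
most `B`. -/
theorem abs_bound {V Ed : Type} [Fintype V] [DecidableEq V] [Fintype Ed] (src tgt : Ed → V)
    (a : Ed → ℂ) (u : Ed → S3) (B : ℝ) (hB : 0 ≤ B) (lam : S3 → E →ₗ[ℂ] E)
    (hadj : ∀ u f h, ⟪lam u f, h⟫_ℂ = ⟪f, lam u⁻¹ h⟫_ℂ) (W : Submodule ℂ E)
    [FiniteDimensional ℂ W] (hinv : ∀ u, ∀ f ∈ W, lam u f ∈ W)
    (htest : ∀ f ∈ W, f ≠ 0 → ∃ (l : ℕ) (r : S3 → Matrix (Fin l) (Fin l) ℂ) (φ : Fin l → E),
      (∀ u, (r u)ᴴ = r u⁻¹) ∧ WBd src tgt a u r B ∧
      (∀ u i, lam u (φ i) = ∑ j, r u j i • φ j) ∧ ∃ i, ⟪φ i, f⟫_ℂ ≠ 0)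
    (c c' : V → E) (hc : ∀ s, c s ∈ W) (hc' : ∀ s, c' s ∈ W) :
    ‖∑ e, a e * ⟪c (src e), lam (u e) (c' (tgt e))⟫_ℂ‖
      ≤ B * Real.sqrt (∑ s, ‖c s‖ ^ 2) * Real.sqrt (∑ s, ‖c' s‖ ^ 2) := by
  classical
  -- the operators
  let lw : S3 → W →ₗ[ℂ] W := fun u => (lam u).restrict (hinv u)
  have hlw : ∀ u (f : W), ((lw u f : W) : E) = lam u f := fun u f => rfl
  set T := gop src tgt a W (fun e => lw (u e)) with hT
  set T' := gop tgt src (fun e => star (a e)) W (fun e => lw (u e)⁻¹) with hT'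
  have hTT : ∀ g f, ⟪T' g, f⟫_ℂ = ⟪g, T f⟫_ℂ := by
    intro g f
    rw [← inner_conj_symm, hT', hT, gop_inner, gop_inner, map_sum]
    apply Finset.sum_congr rfl
    intro e _
    rw [map_mul, inner_conj_symm, hlw, hlw, hadj, inv_inv]
    simp
  set S := T' ∘ₗ T with hS
  have hsymm : S.IsSymmetric := by
    intro f g
    rw [hS, LinearMap.comp_apply, LinearMap.comp_apply, hTT, ← inner_conj_symm (T f) (T g),
      ← hTT, inner_conj_symm]
  -- the eigenvalues of S are at most B ^ 2
  have heig : ∀ (μ : ℝ) (f : PiLp 2 (fun _ : V => W)), f ≠ 0 → S f = (μ : ℂ) • f →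
      μ ≤ B ^ 2 := by
    intro μ f hf hSf
    have hs : ∃ s, f s ≠ 0 := by
      by_contra hcon
      push Not at hcon
      apply hf
      ext s
      simp [hcon s]
    obtain ⟨s, hs⟩ := hs
    obtain ⟨l, r, φ, hr, hW, hφ, i, hi⟩ := htest (f s) (f s).2 (fun h => hs (Subtype.ext h))
    set y : V → Fin l → ℂ := fun t j => ⟪φ j, ((f t : W) : E)⟫_ℂ with hy
    set z : V → Fin l → ℂ := fun t j => ⟪φ j, ((T f t : W) : E)⟫_ℂ with hz
    -- the intertwining property
    have hint : ∀ (v : S3) (h : E) (j : Fin l),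
        ⟪φ j, lam v h⟫_ℂ = ∑ k, r v j k * ⟪φ k, h⟫_ℂ := by
      intro v h j
      have h1 : ⟪φ j, lam v h⟫_ℂ = ⟪lam v⁻¹ (φ j), h⟫_ℂ := by
        rw [hadj, inv_inv]
      rw [h1, hφ, sum_inner]
      apply Finset.sum_congr rfl
      intro k _
      rw [inner_smul_left]
      congr 1
      rw [← hr]
      simp [Matrix.conjTranspose_apply]
    have hz1 : ∀ t j, z t j = ∑ e, if src e = t then a e * (r (u e) *ᵥ y (tgt e)) j else 0 := by
      intro t j
      simp only [hz]
      rw [hT, gop_apply, Submodule.coe_sum, inner_sum]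
      apply Finset.sum_congr rfl
      intro e _
      by_cases h : src e = t
      · rw [if_pos h, if_pos h]
        rw [Submodule.coe_smul, inner_smul_right, hlw, hint]
        rfl
      · rw [if_neg h, if_neg h]
        simp
    have hz2 : ((nv2 z : ℝ) : ℂ) = wform src tgt a u (r) z y := by
      rw [nv2_eq, wform]
      simp only [dotProduct, Pi.star_apply]
      have h1 : ∀ t j, star (z t j) * z t j = ∑ e, if src e = t then
          star (z (src e) j) * (a e * (r (u e) *ᵥ y (tgt e)) j) else 0 := by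
        intro t j
        conv_lhs => rw [hz1 t j, ← hz1 t j]
        rw [show z t j = z t j from rfl]
        conv_lhs =>
          enter [2]
          rw [hz1 t j]
        rw [Finset.mul_sum]
        apply Finset.sum_congr rfl
        intro e _
        by_cases h : src e = t
        · rw [if_pos h, if_pos h, h]
        · rw [if_neg h, if_neg h, mul_zero]
      simp only [h1]
      rw [Finset.sum_congr rfl (fun t _ => Finset.sum_comm), Finset.sum_comm]
      apply Finset.sum_congr rfl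
      intro e _
      rw [Finset.sum_eq_single (src e)]
      · simp only [if_true, Finset.mul_sum]
        apply Finset.sum_congr rfl
        intro j _
        ring
      · intro t _ ht
        apply Finset.sum_eq_zero
        intro j _
        rw [if_neg (fun h => ht h.symm)]
      · simp
    have hz3 : (μ : ℂ) * ((nv2 y : ℝ) : ℂ) = ((nv2 z : ℝ) : ℂ) := by
      have h1 : ∀ t j, (μ : ℂ) * y t j = ∑ e, if tgt e = t then
          star (a e) * ((r (u e))ᴴ *ᵥ z (src e)) j else 0 := by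
        intro t j
        have h2 : ((S f t : W) : E) = (μ : ℂ) • ((f t : W) : E) := by
          rw [hSf]
          rfl
        have h3 : (μ : ℂ) * y t j = ⟪φ j, ((S f t : W) : E)⟫_ℂ := by
          rw [h2, inner_smul_right]
        rw [h3, hS, LinearMap.comp_apply, hT', gop_apply, Submodule.coe_sum, inner_sum]
        apply Finset.sum_congr rfl
        intro e _
        by_cases h : tgt e = t
        · rw [if_pos h, if_pos h]
          rw [Submodule.coe_smul, inner_smul_right, hlw, hint, hr]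
          rfl
        · rw [if_neg h, if_neg h]
          simp
      have h4 : (μ : ℂ) * ((nv2 y : ℝ) : ℂ)
          = ∑ e, star (a e) * (star (y (tgt e)) ⬝ᵥ ((r (u e))ᴴ *ᵥ z (src e))) := by
        rw [nv2_eq, Finset.mul_sum]
        simp only [dotProduct, Pi.star_apply, Finset.mul_sum]
        have h5 : ∀ t j, (μ : ℂ) * (star (y t j) * y t j) = ∑ e, if tgt e = t then
            star (y (tgt e) j) * (star (a e) * ((r (u e))ᴴ *ᵥ z (src e)) j) else 0 := by
          intro t j
          have h6 : (μ : ℂ) * (star (y t j) * y t j) = star (y t j) * ((μ : ℂ) * y t j) := by ring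
          rw [h6, h1 t j, Finset.mul_sum]
          apply Finset.sum_congr rfl
          intro e _
          by_cases h : tgt e = t
          · rw [if_pos h, if_pos h, h]
          · rw [if_neg h, if_neg h, mul_zero]
        simp only [h5]
        rw [Finset.sum_congr rfl (fun t _ => Finset.sum_comm), Finset.sum_comm]
        apply Finset.sum_congr rfl
        intro e _
        rw [Finset.sum_eq_single (tgt e)]
        · simp only [if_true]
          apply Finset.sum_congr rfl
          intro j _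
          ring
        · intro t _ ht
          apply Finset.sum_eq_zero
          intro j _
          rw [if_neg (fun h => ht h.symm)]
        · simp
      rw [h4]
      have h7 : ((nv2 z : ℝ) : ℂ) = star ((nv2 z : ℝ) : ℂ) := by
        rw [Complex.star_def, Complex.conj_ofReal]
      rw [h7, hz2, wform, star_sum]
      apply Finset.sum_congr rfl
      intro e _
      rw [star_mul', Matrix.dotProduct_mulVec, ← Matrix.star_mulVec, ← Matrix.star_dotProduct]
    have hy0 : 0 < nv2 y := by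
      have h8 : ‖y s i‖ ^ 2 ≤ nv2 y := by
        unfold nv2
        refine le_trans ?_ (Finset.single_le_sum (f := fun t => ∑ j, ‖y t j‖ ^ 2)
          (fun t _ => by positivity) (Finset.mem_univ s))
        exact Finset.single_le_sum (f := fun j => ‖y s j‖ ^ 2) (fun j _ => by positivity)
          (Finset.mem_univ i)
      have h9 : 0 < ‖y s i‖ := norm_pos_iff.mpr hi
      exact lt_of_lt_of_le (by positivity) h8
    have hz0 := nv2_nonneg z
    have hz4 : nv2 z ≤ B * Real.sqrt (nv2 z) * Real.sqrt (nv2 y) := by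
      have h8 := hW z y
      rw [← hz2, Complex.norm_real, Real.norm_of_nonneg hz0] at h8
      exact h8
    have hz5 : nv2 z ≤ B ^ 2 * nv2 y := by
      have h8 := Real.sq_sqrt hz0
      have h9 := Real.sq_sqrt hy0.le
      have h10 := Real.sqrt_nonneg (nv2 z)
      have h11 := Real.sqrt_nonneg (nv2 y)
      have h12 : Real.sqrt (nv2 z) ≤ B * Real.sqrt (nv2 y) := by
        by_contra hcon
        push Not at hcon
        have h13 : 0 < Real.sqrt (nv2 z) := lt_of_le_of_lt (by positivity) hcon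
        have h14 : Real.sqrt (nv2 z) * Real.sqrt (nv2 z) ≤ (B * Real.sqrt (nv2 y)) * Real.sqrt (nv2 z) := by
          nlinarith
        have h15 := le_of_mul_le_mul_right h14 h13
        linarith
      calc nv2 z = Real.sqrt (nv2 z) ^ 2 := h8.symm
        _ ≤ (B * Real.sqrt (nv2 y)) ^ 2 := by gcongr
        _ = B ^ 2 * nv2 y := by rw [mul_pow, h9]
    have hz6 : μ * nv2 y = nv2 z := by exact_mod_cast hz3
    have hz7 : μ * nv2 y ≤ B ^ 2 * nv2 y := by rw [hz6]; exact hz5
    exact le_of_mul_le_mul_right hz7 hy0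
  -- the norm of T is at most B
  have hTb : ∀ g, ‖T g‖ ^ 2 ≤ B ^ 2 * ‖g‖ ^ 2 := by
    intro g
    set n := Module.finrank ℂ (PiLp 2 (fun _ : V => W)) with hn
    set b := hsymm.eigenvectorBasis hn.symm with hb
    have h1 : ((‖T g‖ ^ 2 : ℝ) : ℂ) = ⟪S g, g⟫_ℂ := by
      rw [hS, LinearMap.comp_apply, hTT, inner_self_eq_norm_sq_to_K]
      push_cast
      rfl
    have h2 : ⟪S g, g⟫_ℂ = ∑ i, ((hsymm.eigenvalues hn.symm i * ‖⟪b i, g⟫_ℂ‖ ^ 2 : ℝ) : ℂ) := by
      rw [← b.sum_inner_mul_inner]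
      apply Finset.sum_congr rfl
      intro i _
      rw [hsymm, hsymm.apply_eigenvectorBasis, inner_smul_right, mul_assoc,
        ← inner_conj_symm g (b i)]
      push_cast
      rw [mul_comm (conj ⟪b i, g⟫_ℂ), Complex.mul_conj, Complex.normSq_eq_norm_sq]
      push_cast
      rfl
    have h3 : ‖T g‖ ^ 2 = ∑ i, hsymm.eigenvalues hn.symm i * ‖⟪b i, g⟫_ℂ‖ ^ 2 := by
      have h4 := h1.trans h2
      rw [← Complex.ofReal_sum] at h4
      exact_mod_cast h4
    rw [h3, ← b.sum_sq_norm_inner_right g, Finset.mul_sum]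
    apply Finset.sum_le_sum
    intro i _
    apply mul_le_mul_of_nonneg_right _ (by positivity)
    apply heig _ (b i)
    · exact b.orthonormal.ne_zero i
    · exact hsymm.apply_eigenvectorBasis hn.symm i
  -- the form
  let C : PiLp 2 (fun _ : V => W) := WithLp.toLp 2 (fun s => ⟨c s, hc s⟩)
  let C' : PiLp 2 (fun _ : V => W) := WithLp.toLp 2 (fun s => ⟨c' s, hc' s⟩)
  have h1 : ∑ e, a e * ⟪c (src e), lam (u e) (c' (tgt e))⟫_ℂ = ⟪C, T C'⟫_ℂ := by
    rw [hT, gop_inner]
    rfl
  have hC : ‖C‖ = Real.sqrt (∑ s, ‖c s‖ ^ 2) := by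
    rw [PiLp.norm_eq_of_L2]
    rfl
  have hC' : ‖C'‖ = Real.sqrt (∑ s, ‖c' s‖ ^ 2) := by
    rw [PiLp.norm_eq_of_L2]
    rfl
  rw [h1, ← hC, ← hC']
  have h2 : ‖T C'‖ ≤ B * ‖C'‖ := by
    have h3 := hTb C'
    rw [← mul_pow] at h3
    exact le_of_sq_le_sq h3 (by positivity)
  calc ‖⟪C, T C'⟫_ℂ‖ ≤ ‖C‖ * ‖T C'‖ := norm_inner_le_norm C (T C')
    _ ≤ ‖C‖ * (B * ‖C'‖) := by gcongr
    _ = B * ‖C‖ * ‖C'‖ := by ring

end

end Pool.Agent.BQ
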