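import Mathlib

/-!
# Block H of project BQ: powers of bilinear forms in the entries of a 2 x 2 matrix

`A` is a commutative algebra over the complex numbers, `M` a 2 x 2 matrix over `A` of determinant
1. The products of at most `L` entries of `M` are linear combinations of the powers
`(x^T M y)^l`, `l ≤ L`.
-/

set_option autoImplicit false

namespace Pool.Agent.BQ

open Polynomial

noncomputable section

variable {A : Type} [CommRing A] [Algebra ℂ A]

/-- coefficients of a polynomial whose values lie in a subspace -/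
theorem coeff_mem (S : Submodule ℂ A) (p : A[X])
    (h : ∀ s : ℂ, p.eval (algebraMap ℂ A s) ∈ S) (k : ℕ) : p.coeff k ∈ S := by
  by_contra hk
  obtain ⟨φ, hφ, hφ2⟩ := Submodule.exists_le_ker_of_notMem hk
  set q : ℂ[X] := ∑ e ∈ p.support, C (φ (p.coeff e)) * X ^ e with hq
  have h1 : ∀ s : ℂ, q.eval s = 0 := by
    intro s
    have h2 : φ (p.eval (algebraMap ℂ A s)) = 0 := hφ2 (h s)
    rw [eval_eq_sum, Polynomial.sum, map_sum] at h2
    rw [hq, eval_finsetSum]
    rw [← h2]
    apply Finset.sum_congr rfl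
    intro e _
    rw [← map_pow, mul_comm (p.coeff e), ← Algebra.smul_def, map_smul, eval_mul, eval_C,
      eval_pow, eval_X, smul_eq_mul, mul_comm]
  have h2 : q = 0 := Polynomial.funext (fun s => by rw [h1 s, eval_zero])
  have h3 : q.coeff k = φ (p.coeff k) := by
    rw [hq, finsetSum_coeff]
    simp only [coeff_C_mul, coeff_X_pow]
    have hk0 : p.coeff k ≠ 0 := fun h0 => hφ (by rw [h0, map_zero])
    rw [Finset.sum_eq_single k]
    · rw [if_pos rfl, mul_one]
    · intro e _ he
      rw [if_neg he.symm, mul_zero]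
    · intro hk1
      exact absurd (notMem_support_iff.1 hk1) hk0
  rw [h2, coeff_zero] at h3
  exact hφ h3.symm

/-- `x^T M y` -/
def hh (M : Matrix (Fin 2) (Fin 2) A) (x y : Fin 2 → ℂ) : A := ∑ i, ∑ j, (x i * y j) • M i j

theorem hh_add_left (M : Matrix (Fin 2) (Fin 2) A) (x u y : Fin 2 → ℂ) (s : ℂ) :
    hh M (x + s • u) y = hh M x y + algebraMap ℂ A s * hh M u y := by
  simp only [hh, Fin.sum_univ_two, Pi.add_apply, Pi.smul_apply, smul_eq_mul]
  simp only [Algebra.smul_def, map_mul, map_add]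
  ring

theorem hh_add_right (M : Matrix (Fin 2) (Fin 2) A) (x y v : Fin 2 → ℂ) (s : ℂ) :
    hh M x (y + s • v) = hh M x y + algebraMap ℂ A s * hh M x v := by
  simp only [hh, Fin.sum_univ_two, Pi.add_apply, Pi.smul_apply, smul_eq_mul]
  simp only [Algebra.smul_def, map_mul, map_add]
  ring

theorem hh_plucker (M : Matrix (Fin 2) (Fin 2) A) (hM : M.det = 1) (x u y v : Fin 2 → ℂ) :
    hh M u y * hh M x v = hh M x y * hh M u v
      - algebraMap ℂ A ((x 0 * u 1 - x 1 * u 0) * (y 0 * v 1 - y 1 * v 0)) := by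
  rw [Matrix.det_fin_two] at hM
  simp only [hh, Fin.sum_univ_two, Algebra.smul_def, map_mul, map_sub]
  set x0 := algebraMap ℂ A (x 0)
  set x1 := algebraMap ℂ A (x 1)
  set y0 := algebraMap ℂ A (y 0)
  set y1 := algebraMap ℂ A (y 1)
  set u0 := algebraMap ℂ A (u 0)
  set u1 := algebraMap ℂ A (u 1)
  set v0 := algebraMap ℂ A (v 0)
  set v1 := algebraMap ℂ A (v 1)
  linear_combination (-(x0 * u1 - x1 * u0) * (y0 * v1 - y1 * v0)) * hM

/-- the span of the powers of degree at most `L` -/
def TT (M : Matrix (Fin 2) (Fin 2) A) (L : ℕ) : Submodule ℂ A :=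
  Submodule.span ℂ {f | ∃ l ≤ L, ∃ x y, f = (hh M x y) ^ l}

theorem mem_TT (M : Matrix (Fin 2) (Fin 2) A) (L l : ℕ) (hl : l ≤ L) (x y : Fin 2 → ℂ) :
    (hh M x y) ^ l ∈ TT M L := Submodule.subset_span ⟨l, hl, x, y, rfl⟩

theorem TT_mono (M : Matrix (Fin 2) (Fin 2) A) {L L' : ℕ} (h : L ≤ L') : TT M L ≤ TT M L' := by
  apply Submodule.span_mono
  rintro f ⟨l, hl, x, y, rfl⟩
  exact ⟨l, hl.trans h, x, y, rfl⟩

theorem key_mul (M : Matrix (Fin 2) (Fin 2) A) (hM : M.det = 1) (l L : ℕ) (hl : l ≤ L)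
    (x y u v : Fin 2 → ℂ) : hh M u v * (hh M x y) ^ l ∈ TT M (L + 1) := by
  rcases Nat.eq_zero_or_pos l with rfl | hl0
  · rw [pow_zero, mul_one]
    have h := mem_TT M (L + 1) 1 (by omega) u v
    rwa [pow_one] at h
  obtain ⟨k, rfl⟩ : ∃ k, l = k + 1 := ⟨l - 1, by omega⟩
  set f := hh M x y with hf
  set a := hh M u y with ha
  set b := hh M x v with hb
  set h := hh M u v with hh'
  -- first coefficient
  have h1 : ∀ t : ℂ, ((k : A) + 2) * (f + algebraMap ℂ A t * b) ^ (k + 1)
      * (a + algebraMap ℂ A t * h) ∈ TT M (L + 1) := by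
    intro t
    set p : A[X] := (C (f + algebraMap ℂ A t * b) + C (a + algebraMap ℂ A t * h) * X) ^ (k + 2)
      with hp
    have h2 := coeff_mem (TT M (L + 1)) p (fun s => by
      have h3 : p.eval (algebraMap ℂ A s) = (hh M (x + s • u) (y + t • v)) ^ (k + 2) := by
        rw [hh_add_left, hh_add_right, hh_add_right, hp]
        simp only [eval_pow, eval_add, eval_mul, eval_C, eval_X]
        rw [← hf, ← ha, ← hb, ← hh']
        ring
      rw [h3]
      exact mem_TT M (L + 1) (k + 2) (by omega) _ _) 1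
    have h4 : p.coeff 1 = ((k : A) + 2) * (f + algebraMap ℂ A t * b) ^ (k + 1)
      * (a + algebraMap ℂ A t * h) := by
      have h5 : p.coeff 1 = (derivative p).eval 0 := by
        rw [← coeff_zero_eq_eval_zero, coeff_derivative]
        simp
      rw [h5, hp, derivative_pow]
      simp
      try ring
    rwa [h4] at h2
  -- second coefficient
  have h2 : ((k : A) + 2) * (((k : A) + 1) * f ^ k * b * a + f ^ (k + 1) * h) ∈ TT M (L + 1) := by
    set p : A[X] := C ((k : A) + 2) * (C f + C b * X) ^ (k + 1) * (C a + C h * X) with hp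
    have h3 := coeff_mem (TT M (L + 1)) p (fun s => by
      have h4 : p.eval (algebraMap ℂ A s) = ((k : A) + 2) * (f + algebraMap ℂ A s * b) ^ (k + 1)
          * (a + algebraMap ℂ A s * h) := by
        rw [hp]
        simp only [eval_pow, eval_add, eval_mul, eval_C, eval_X]
        ring
      rw [h4]
      exact h1 s) 1
    have h4 : p.coeff 1 = ((k : A) + 2) * (((k : A) + 1) * f ^ k * b * a + f ^ (k + 1) * h) := by
      have h5 : p.coeff 1 = (derivative p).eval 0 := by
        rw [← coeff_zero_eq_eval_zero, coeff_derivative]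
        simp
      rw [h5, hp, derivative_mul, derivative_mul, derivative_pow]
      simp
      try ring
    rwa [h4] at h3
  have h3 : b * a = f * h - algebraMap ℂ A ((x 0 * u 1 - x 1 * u 0) * (y 0 * v 1 - y 1 * v 0)) := by
    rw [mul_comm b a]
    exact hh_plucker M hM x u y v
  set δ := (x 0 * u 1 - x 1 * u 0) * (y 0 * v 1 - y 1 * v 0) with hδ
  have h4 : ((k : A) + 2) * (((k : A) + 1) * f ^ k * b * a + f ^ (k + 1) * h)
      = (((k : ℂ) + 2) ^ 2) • (h * f ^ (k + 1)) - (((k : ℂ) + 2) * ((k : ℂ) + 1) * δ) • f ^ k := by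
    simp only [Algebra.smul_def, map_mul, map_add, map_pow, map_natCast, map_ofNat, map_one]
    linear_combination (((k : A) + 2) * ((k : A) + 1) * f ^ k) * h3
  rw [h4] at h2
  have h5 : f ^ k ∈ TT M (L + 1) := mem_TT M (L + 1) k (by omega) x y
  have h6 := (TT M (L + 1)).add_mem h2
    ((TT M (L + 1)).smul_mem (((k : ℂ) + 2) * ((k : ℂ) + 1) * δ) h5)
  rw [sub_add_cancel] at h6
  have h7 := (TT M (L + 1)).smul_mem ((((k : ℂ) + 2) ^ 2)⁻¹) h6
  rwa [smul_smul, inv_mul_cancel₀, one_smul] at h7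
  have : (k : ℂ) + 2 ≠ 0 := by
    norm_cast
  positivity

/-- the span of `1` and the entries -/
def P1 (M : Matrix (Fin 2) (Fin 2) A) : Submodule ℂ A :=
  Submodule.span ℂ (insert 1 (Set.range fun ij : Fin 2 × Fin 2 => M ij.1 ij.2))

theorem one_mem_P1 (M : Matrix (Fin 2) (Fin 2) A) : (1 : A) ∈ P1 M :=
  Submodule.subset_span (Set.mem_insert _ _)

theorem entry_mem_P1 (M : Matrix (Fin 2) (Fin 2) A) (i j : Fin 2) : M i j ∈ P1 M :=
  Submodule.subset_span (Set.mem_insert_of_mem _ ⟨(i, j), rfl⟩)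

theorem P1_pow_mono (M : Matrix (Fin 2) (Fin 2) A) {L L' : ℕ} (h : L ≤ L') :
    (P1 M) ^ L ≤ (P1 M) ^ L' := by
  have h1 : (1 : Submodule ℂ A) ≤ P1 M := by
    rw [Submodule.one_le]
    exact one_mem_P1 M
  exact pow_le_pow_right₀ h1 h

theorem P1_pow_le_TT (M : Matrix (Fin 2) (Fin 2) A) (hM : M.det = 1) (L : ℕ) :
    (P1 M) ^ L ≤ TT M L := by
  induction L with
  | zero =>
    rw [pow_zero, Submodule.one_le]
    have h := mem_TT M 0 0 le_rfl 0 0
    rwa [pow_zero] at h
  | succ L ih =>
    rw [pow_succ, Submodule.mul_le]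
    intro m hm n hn
    have hm' := ih hm
    unfold P1 at hn
    induction hn using Submodule.span_induction with
    | mem n hn =>
      rcases hn with rfl | ⟨⟨i, j⟩, rfl⟩
      · rw [mul_one]
        exact TT_mono M (Nat.le_succ L) hm'
      · have h1 : M i j = hh M (Pi.single i 1) (Pi.single j 1) := by
          fin_cases i <;> fin_cases j <;> simp [hh]
        simp only
        rw [h1]
        clear hm
        unfold TT at hm'
        induction hm' using Submodule.span_induction with
        | mem m hm =>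
          obtain ⟨l, hl, x, y, rfl⟩ := hm
          rw [mul_comm]
          exact key_mul M hM l L hl _ _ _ _
        | zero => rw [zero_mul]; exact Submodule.zero_mem _
        | add a b _ _ ha hb => rw [add_mul]; exact Submodule.add_mem _ ha hb
        | smul c a _ ha => rw [smul_mul_assoc]; exact Submodule.smul_mem _ _ ha
    | zero => rw [mul_zero]; exact Submodule.zero_mem _
    | add a b _ _ ha hb => rw [mul_add]; exact Submodule.add_mem _ ha hb
    | smul c a _ ha => rw [mul_smul_comm]; exact Submodule.smul_mem _ _ ha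

/-- the monomials -/
def mono (M : Matrix (Fin 2) (Fin 2) A) (e : ℕ × ℕ × ℕ × ℕ) : A :=
  M 0 0 ^ e.1 * M 0 1 ^ e.2.1 * M 1 0 ^ e.2.2.1 * M 1 1 ^ e.2.2.2

theorem P1_pow_le_mono (M : Matrix (Fin 2) (Fin 2) A) (L : ℕ) :
    (P1 M) ^ L ≤ Submodule.span ℂ (mono M ''
      {e | e.1 + e.2.1 + e.2.2.1 + e.2.2.2 ≤ L}) := by
  induction L with
  | zero =>
    rw [pow_zero, Submodule.one_le]
    exact Submodule.subset_span ⟨(0, 0, 0, 0), by simp, by simp [mono]⟩
  | succ L ih =>
    rw [pow_succ]
    refine (mul_le_mul' ih le_rfl).trans ?_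
    unfold P1
    rw [Submodule.span_mul_span, Submodule.span_le]
    rintro _ ⟨_, ⟨⟨a, b, c, d⟩, he, rfl⟩, n, hn, rfl⟩
    simp only [Set.mem_ofPred_eq] at he
    apply Submodule.subset_span
    rcases hn with rfl | ⟨⟨i, j⟩, rfl⟩
    · refine ⟨(a, b, c, d), ?_, ?_⟩
      · simp only [Set.mem_ofPred_eq]
        omega
      · simp
    · fin_cases i <;> fin_cases j
      · refine ⟨(a + 1, b, c, d), ?_, ?_⟩
        · simp only [Set.mem_ofPred_eq]
          omega
        · simp only [mono, Fin.zero_eta, Fin.mk_one, Fin.isValue]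
          ring
      · refine ⟨(a, b + 1, c, d), ?_, ?_⟩
        · simp only [Set.mem_ofPred_eq]
          omega
        · simp only [mono, Fin.zero_eta, Fin.mk_one, Fin.isValue]
          ring
      · refine ⟨(a, b, c + 1, d), ?_, ?_⟩
        · simp only [Set.mem_ofPred_eq]
          omega
        · simp only [mono, Fin.zero_eta, Fin.mk_one, Fin.isValue]
          ring
      · refine ⟨(a, b, c, d + 1), ?_, ?_⟩
        · simp only [Set.mem_ofPred_eq]
          omega
        · simp only [mono, Fin.zero_eta, Fin.mk_one, Fin.isValue]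
          ring

/-- the exponents -/
def expo (L : ℕ) : Finset (ℕ × ℕ × ℕ × ℕ) :=
  Finset.range (L + 1) ×ˢ Finset.range (L + 1) ×ˢ Finset.range (L + 1) ×ˢ Finset.range (L + 1)

theorem card_expo (L : ℕ) : (expo L).card = (L + 1) ^ 4 := by
  simp only [expo, Finset.card_product, Finset.card_range]
  ring

theorem P1_pow_le_fin (M : Matrix (Fin 2) (Fin 2) A) (L : ℕ) :
    (P1 M) ^ L ≤ Submodule.span ℂ (Set.range fun e : expo L => mono M e) := by
  refine (P1_pow_le_mono M L).trans (Submodule.span_mono ?_)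
  rintro _ ⟨⟨a, b, c, d⟩, he, rfl⟩
  simp only [Set.mem_ofPred_eq] at he
  refine ⟨⟨(a, b, c, d), ?_⟩, rfl⟩
  simp only [expo, Finset.mem_product, Finset.mem_range]
  omega

instance P1_fin (M : Matrix (Fin 2) (Fin 2) A) (L : ℕ) :
    FiniteDimensional ℂ ((P1 M) ^ L : Submodule ℂ A) := by
  have : FiniteDimensional ℂ (Submodule.span ℂ (Set.range fun e : expo L => mono M e)) :=
    FiniteDimensional.span_of_finite ℂ (Set.finite_range _)
  exact Submodule.finiteDimensional_of_le (P1_pow_le_fin M L)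

theorem P1_finrank (M : Matrix (Fin 2) (Fin 2) A) (L : ℕ) :
    Module.finrank ℂ ((P1 M) ^ L : Submodule ℂ A) ≤ (L + 1) ^ 4 := by
  have : FiniteDimensional ℂ (Submodule.span ℂ (Set.range fun e : expo L => mono M e)) :=
    FiniteDimensional.span_of_finite ℂ (Set.finite_range _)
  refine (Submodule.finrank_mono (P1_pow_le_fin M L)).trans ?_
  refine (finrank_range_le_card (R := ℂ) (fun e : expo L => mono M e)).trans ?_
  rw [Fintype.card_coe, card_expo]

end

end Pool.Agent.BQ
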