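import Pool.Agent.BQ.H_Rho
import Pool.Agent.BQ.H_Alg

/-!
# Block H of project BQ: polynomial functions on the group of unit quaternions
-/

set_option autoImplicit false

namespace Pool.Agent.BQ

open Matrix
open scoped Quaternion ComplexConjugate

noncomputable section

open BQA (S3)

/-! ## The matrix of coordinate functions -/

theorem continuous_qmat_apply (i j : Fin 2) : Continuous fun g : S3 => qmat (g : ℍ[ℝ]) i j := by
  have hre : Continuous fun u : S3 => (u : ℍ[ℝ]).re :=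
    Quaternion.continuous_re.comp continuous_subtype_val
  have hi : Continuous fun u : S3 => (u : ℍ[ℝ]).imI :=
    Quaternion.continuous_imI.comp continuous_subtype_val
  have hj : Continuous fun u : S3 => (u : ℍ[ℝ]).imJ :=
    Quaternion.continuous_imJ.comp continuous_subtype_val
  have hk : Continuous fun u : S3 => (u : ℍ[ℝ]).imK :=
    Quaternion.continuous_imK.comp continuous_subtype_val
  have hmk : ∀ f g : S3 → ℝ, Continuous f → Continuous g →
      Continuous fun u => (⟨f u, g u⟩ : ℂ) := by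
    intro f g hf hg
    have : (fun u => (⟨f u, g u⟩ : ℂ)) = fun u => ((f u : ℝ) : ℂ) + ((g u : ℝ) : ℂ) * Complex.I := by
      ext u
      exact Complex.mk_eq_add_mul_I _ _
    rw [this]
    exact (Complex.continuous_ofReal.comp hf).add
      ((Complex.continuous_ofReal.comp hg).mul continuous_const)
  fin_cases i <;> fin_cases j
  · exact hmk _ _ hre hi
  · exact hmk _ _ hj hk
  · exact hmk _ _ hj.neg hk
  · exact hmk _ _ hre hi.neg

/-- the matrix of coordinate functions -/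
def MM : Matrix (Fin 2) (Fin 2) C(S3, ℂ) :=
  Matrix.of fun i j => ⟨fun g => qmat (g : ℍ[ℝ]) i j, continuous_qmat_apply i j⟩

theorem MM_apply (i j : Fin 2) (g : S3) : MM i j g = qmat (g : ℍ[ℝ]) i j := rfl

theorem MM_det : MM.det = 1 := by
  ext g
  rw [Matrix.det_fin_two]
  have h := S3_sq g
  simp only [ContinuousMap.sub_apply, ContinuousMap.mul_apply, MM_apply, ContinuousMap.one_apply]
  simp only [qmat, Matrix.of_apply, Matrix.cons_val', Matrix.cons_val_zero, Matrix.cons_val_one,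
    Matrix.cons_val_fin_one, Complex.ext_iff, Complex.sub_re, Complex.mul_re, Complex.sub_im,
    Complex.mul_im, Complex.one_re, Complex.one_im]
  constructor
  · nlinarith
  · ring

/-- the polynomial functions of degree at most `L` -/
def Pol (L : ℕ) : Submodule ℂ C(S3, ℂ) := (P1 MM) ^ L

theorem Pol_mono {L L' : ℕ} (h : L ≤ L') : Pol L ≤ Pol L' := P1_pow_mono MM h

theorem Pol_mul {L L' : ℕ} {f g : C(S3, ℂ)} (hf : f ∈ Pol L) (hg : g ∈ Pol L') :
    f * g ∈ Pol (L + L') := by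
  unfold Pol at *
  rw [pow_add]
  exact Submodule.mul_mem_mul hf hg

theorem one_mem_Pol (L : ℕ) : (1 : C(S3, ℂ)) ∈ Pol L := by
  have h : (1 : C(S3, ℂ)) ∈ Pol 0 := by
    unfold Pol
    rw [pow_zero]
    exact Submodule.one_le.1 le_rfl
  exact Pol_mono (Nat.zero_le L) h

theorem MM_mem_Pol (i j : Fin 2) : MM i j ∈ Pol 1 := by
  unfold Pol
  rw [pow_one]
  exact entry_mem_P1 MM i j

instance Pol_fin (L : ℕ) : FiniteDimensional ℂ (Pol L) := P1_fin MM L

theorem Pol_finrank (L : ℕ) : Module.finrank ℂ (Pol L) ≤ (L + 1) ^ 4 := P1_finrank MM L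

/-! ## Test functions -/

theorem continuous_mul_right_S3 (x : S3) : Continuous fun g : S3 => g * x :=
  continuous_mul_const x

theorem qcol_coe_mul (g x : S3) (i : Fin 2) :
    qcol ((g * x : S3) : ℍ[ℝ]) i = ∑ j, qmat (g : ℍ[ℝ]) i j * qcol (x : ℍ[ℝ]) j := by
  rw [Metric.unitSphere.coe_mul, qcol_mul]
  rfl

/-- the functions `g ↦ (first column of g x)_i` -/
def lc (x : S3) (i : Fin 2) : C(S3, ℂ) := ∑ j, qcol (x : ℍ[ℝ]) j • MM i j

theorem lc_apply (x : S3) (i : Fin 2) (g : S3) : lc x i g = qcol ((g * x : S3) : ℍ[ℝ]) i := by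
  rw [qcol_coe_mul]
  simp only [lc, Fin.sum_univ_two, ContinuousMap.add_apply, ContinuousMap.smul_apply, smul_eq_mul,
    MM_apply]
  ring

theorem lc_mem (x : S3) (i : Fin 2) : lc x i ∈ Pol 1 :=
  Submodule.sum_mem _ fun _ _ => Submodule.smul_mem _ _ (MM_mem_Pol _ _)

/-- the test functions -/
def tst (l : ℕ) (x : S3) (a : Fin (l + 1)) : C(S3, ℂ) :=
  ((Real.sqrt (l.choose a) : ℝ) : ℂ) • (lc x 0 ^ (a : ℕ) * lc x 1 ^ (l - (a : ℕ)))

theorem tst_apply (l : ℕ) (x : S3) (a : Fin (l + 1)) (g : S3) :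
    tst l x a g = ev l (qcol ((g * x : S3) : ℍ[ℝ])) a := by
  simp only [tst, ContinuousMap.smul_apply, ContinuousMap.mul_apply, ContinuousMap.pow_apply,
    lc_apply, ev, smul_eq_mul]

theorem Pol_pow {L : ℕ} {f : C(S3, ℂ)} (hf : f ∈ Pol 1) : f ^ L ∈ Pol L := by
  unfold Pol at *
  rw [pow_one] at hf
  exact Submodule.pow_mem_pow _ hf L

theorem tst_mem (l : ℕ) (x : S3) (a : Fin (l + 1)) : tst l x a ∈ Pol l := by
  have ha : (a : ℕ) + (l - (a : ℕ)) = l := by
    have := a.2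
    omega
  have h := Pol_mul (Pol_pow (L := (a : ℕ)) (lc_mem x 0)) (Pol_pow (L := l - (a : ℕ)) (lc_mem x 1))
  rw [ha] at h
  exact Submodule.smul_mem _ _ h

/-! ## Left translations -/

/-- left translation of a function -/
def lft (u : S3) : C(S3, ℂ) →ₐ[ℂ] C(S3, ℂ) :=
  ContinuousMap.compRightAlgHom ℂ ℂ ⟨fun g => u * g, continuous_const_mul u⟩

theorem lft_apply (u : S3) (f : C(S3, ℂ)) (g : S3) : lft u f g = f (u * g) := rfl

theorem lft_tst (l : ℕ) (u x : S3) (a : Fin (l + 1)) :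
    lft u (tst l x a) = ∑ b, rho l u b a • tst l x b := by
  ext g
  rw [lft_apply, tst_apply, mul_assoc, Metric.unitSphere.coe_mul, ev_qcol_mul]
  rw [ContinuousMap.sum_apply]
  apply Finset.sum_congr rfl
  intro b _
  rw [ContinuousMap.smul_apply, tst_apply, smul_eq_mul]

theorem lft_MM (u : S3) (i j : Fin 2) : lft u (MM i j) = ∑ k, qmat (u : ℍ[ℝ]) i k • MM k j := by
  ext g
  rw [lft_apply, MM_apply, Metric.unitSphere.coe_mul, qmat_mul, Matrix.mul_apply,
    ContinuousMap.sum_apply]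
  rfl

theorem lft_Pol (u : S3) (L : ℕ) (f : C(S3, ℂ)) (hf : f ∈ Pol L) : lft u f ∈ Pol L := by
  have h1 : Submodule.map (lft u).toLinearMap (P1 MM) ≤ P1 MM := by
    rw [Submodule.map_le_iff_le_comap]
    unfold P1
    rw [Submodule.span_le]
    rintro f (rfl | ⟨⟨i, j⟩, rfl⟩)
    · show lft u 1 ∈ P1 MM
      rw [map_one]
      exact one_mem_P1 MM
    · show lft u (MM i j) ∈ P1 MM
      rw [lft_MM]
      exact Submodule.sum_mem _ fun k _ => Submodule.smul_mem _ _ (entry_mem_P1 MM k j)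
  have h2 : Submodule.map (lft u).toLinearMap (Pol L) ≤ Pol L := by
    unfold Pol
    rw [Submodule.map_pow]
    exact pow_le_pow_left' h1 L
  exact h2 (Submodule.mem_map_of_mem hf)

/-! ## The test functions span -/

theorem exists_unit_col (y : Fin 2 → ℂ) : ∃ (c : ℂ) (x : S3), y = c • qcol (x : ℍ[ℝ]) := by
  set r := Real.sqrt (‖y 0‖ ^ 2 + ‖y 1‖ ^ 2) with hr
  have hr0 : 0 ≤ ‖y 0‖ ^ 2 + ‖y 1‖ ^ 2 := by positivity
  have hr2 : r ^ 2 = ‖y 0‖ ^ 2 + ‖y 1‖ ^ 2 := Real.sq_sqrt hr0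
  by_cases h : r = 0
  · refine ⟨0, 1, ?_⟩
    rw [zero_smul]
    rw [h] at hr2
    have h0 : ‖y 0‖ = 0 := by nlinarith [sq_nonneg ‖y 0‖, sq_nonneg ‖y 1‖]
    have h1 : ‖y 1‖ = 0 := by nlinarith [sq_nonneg ‖y 0‖, sq_nonneg ‖y 1‖]
    ext i
    fin_cases i
    · exact norm_eq_zero.1 h0
    · exact norm_eq_zero.1 h1
  · have hn0 : ‖y 0‖ ^ 2 = (y 0).re ^ 2 + (y 0).im ^ 2 := by
      rw [← Complex.normSq_eq_norm_sq, Complex.normSq_apply]
      ring
    have hn1 : ‖y 1‖ ^ 2 = (y 1).re ^ 2 + (y 1).im ^ 2 := by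
      rw [← Complex.normSq_eq_norm_sq, Complex.normSq_apply]
      ring
    rw [hn0, hn1] at hr2
    refine ⟨(r : ℂ), mkS ((y 0).re / r) ((y 0).im / r) (-(y 1).re / r) ((y 1).im / r) ?_, ?_⟩
    · have : r ^ 2 ≠ 0 := pow_ne_zero 2 h
      field_simp
      linarith
    · ext i
      fin_cases i
      · show y 0 = (r : ℂ) * (⟨(y 0).re / r, (y 0).im / r⟩ : ℂ)
        apply Complex.ext
        · simp
          field_simp
        · simp
          field_simp
      · show y 1 = (r : ℂ) * (⟨-(-(y 1).re / r), (y 1).im / r⟩ : ℂ)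
        apply Complex.ext
        · simp
          field_simp
        · simp
          field_simp

theorem hh_apply (x y : Fin 2 → ℂ) (g : S3) :
    hh MM x y g = ∑ i, x i * (qmat (g : ℍ[ℝ]) *ᵥ y) i := by
  simp only [hh, Fin.sum_univ_two, ContinuousMap.add_apply, ContinuousMap.smul_apply, smul_eq_mul,
    MM_apply, Matrix.mulVec, dotProduct]
  ring

theorem hh_pow_eq (l : ℕ) (x : Fin 2 → ℂ) (c : ℂ) (z : S3) :
    (hh MM x (c • qcol (z : ℍ[ℝ]))) ^ l
      = ∑ a : Fin (l + 1), (c ^ l * (((Real.sqrt (l.choose a) : ℝ) : ℂ) *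
        (x 0 ^ (a : ℕ) * x 1 ^ (l - (a : ℕ))))) • tst l z a := by
  ext g
  rw [ContinuousMap.pow_apply, hh_apply, ContinuousMap.sum_apply]
  have h1 : qmat (g : ℍ[ℝ]) *ᵥ (c • qcol (z : ℍ[ℝ])) = c • qcol ((g * z : S3) : ℍ[ℝ]) := by
    rw [Matrix.mulVec_smul, Metric.unitSphere.coe_mul, qcol_mul]
  rw [h1, Fin.sum_univ_two]
  set v := qcol ((g * z : S3) : ℍ[ℝ]) with hv
  have h2 : x 0 * (c • v) 0 + x 1 * (c • v) 1 = c * (x 0 * v 0 + x 1 * v 1) := by
    simp only [Pi.smul_apply, smul_eq_mul]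
    ring
  rw [h2, mul_pow, add_pow, ← Fin.sum_univ_eq_sum_range
    (fun m => (x 0 * v 0) ^ m * (x 1 * v 1) ^ (l - m) * (l.choose m : ℂ)) (l + 1), Finset.mul_sum]
  apply Finset.sum_congr rfl
  intro a _
  rw [ContinuousMap.smul_apply, tst_apply, ← hv, smul_eq_mul, ev, mul_pow, mul_pow]
  have h3 : (((Real.sqrt (l.choose a) : ℝ) : ℂ)) * (((Real.sqrt (l.choose a) : ℝ) : ℂ))
      = (l.choose a : ℂ) := by
    rw [← Complex.ofReal_mul, Real.mul_self_sqrt (by positivity)]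
    simp
  linear_combination (-(c ^ l * (x 0 ^ (a : ℕ) * x 1 ^ (l - (a : ℕ))) *
    (v 0 ^ (a : ℕ) * v 1 ^ (l - (a : ℕ))))) * h3

theorem Pol_le_tst (L : ℕ) :
    Pol L ≤ Submodule.span ℂ {f | ∃ l ≤ L, ∃ x : S3, ∃ a : Fin (l + 1), f = tst l x a} := by
  refine (P1_pow_le_TT MM MM_det L).trans ?_
  unfold TT
  rw [Submodule.span_le]
  rintro f ⟨l, hl, x, y, rfl⟩
  obtain ⟨c, z, rfl⟩ := exists_unit_col y
  rw [hh_pow_eq]
  exact Submodule.sum_mem _ fun a _ => Submodule.smul_mem _ _ (Submodule.subset_span ⟨l, hl, z, a, rfl⟩)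

/-! ## Density -/

/-- a real function as a complex one -/
def cplx : C(S3, ℝ) →ₐ[ℝ] C(S3, ℂ) :=
  AlgHom.compLeftContinuous ℝ (Complex.ofRealAm) Complex.continuous_ofReal

theorem cplx_apply (f : C(S3, ℝ)) (g : S3) : cplx f g = ((f g : ℝ) : ℂ) := rfl

/-- the four real coordinates -/
def coR : Fin 4 → C(S3, ℝ) :=
  ![⟨fun g => (g : ℍ[ℝ]).re, Quaternion.continuous_re.comp continuous_subtype_val⟩,
    ⟨fun g => (g : ℍ[ℝ]).imI, Quaternion.continuous_imI.comp continuous_subtype_val⟩,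
    ⟨fun g => (g : ℍ[ℝ]).imJ, Quaternion.continuous_imJ.comp continuous_subtype_val⟩,
    ⟨fun g => (g : ℍ[ℝ]).imK, Quaternion.continuous_imK.comp continuous_subtype_val⟩]

theorem coR_mem (k : Fin 4) : cplx (coR k) ∈ Pol 1 := by
  have h0 : cplx (coR 0) = (2⁻¹ : ℂ) • (MM 0 0 + MM 1 1) := by
    ext g
    rw [cplx_apply, ContinuousMap.smul_apply, ContinuousMap.add_apply, MM_apply, MM_apply]
    simp [coR, qmat, Complex.ext_iff]
    ring
  have h1 : cplx (coR 1) = (-(2⁻¹ : ℂ) * Complex.I) • (MM 0 0 - MM 1 1) := by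
    ext g
    rw [cplx_apply, ContinuousMap.smul_apply, ContinuousMap.sub_apply, MM_apply, MM_apply]
    simp [coR, qmat, Complex.ext_iff]
    ring
  have h2 : cplx (coR 2) = (2⁻¹ : ℂ) • (MM 0 1 - MM 1 0) := by
    ext g
    rw [cplx_apply, ContinuousMap.smul_apply, ContinuousMap.sub_apply, MM_apply, MM_apply]
    simp [coR, qmat, Complex.ext_iff]
    ring
  have h3 : cplx (coR 3) = (-(2⁻¹ : ℂ) * Complex.I) • (MM 0 1 + MM 1 0) := by
    ext g
    rw [cplx_apply, ContinuousMap.smul_apply, ContinuousMap.add_apply, MM_apply, MM_apply]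
    simp [coR, qmat, Complex.ext_iff]
    ring
  fin_cases k
  · show cplx (coR 0) ∈ Pol 1
    rw [h0]
    exact Submodule.smul_mem _ _ (Submodule.add_mem _ (MM_mem_Pol _ _) (MM_mem_Pol _ _))
  · show cplx (coR 1) ∈ Pol 1
    rw [h1]
    exact Submodule.smul_mem _ _ (Submodule.sub_mem _ (MM_mem_Pol _ _) (MM_mem_Pol _ _))
  · show cplx (coR 2) ∈ Pol 1
    rw [h2]
    exact Submodule.smul_mem _ _ (Submodule.sub_mem _ (MM_mem_Pol _ _) (MM_mem_Pol _ _))
  · show cplx (coR 3) ∈ Pol 1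
    rw [h3]
    exact Submodule.smul_mem _ _ (Submodule.add_mem _ (MM_mem_Pol _ _) (MM_mem_Pol _ _))

theorem adjoin_mem (f : C(S3, ℝ)) (hf : f ∈ Algebra.adjoin ℝ (Set.range coR)) :
    ∃ L, cplx f ∈ Pol L := by
  induction hf using Algebra.adjoin_induction with
  | mem f hf =>
    obtain ⟨k, rfl⟩ := hf
    exact ⟨1, coR_mem k⟩
  | algebraMap r =>
    refine ⟨0, ?_⟩
    have h : cplx (algebraMap ℝ C(S3, ℝ) r) = (r : ℂ) • (1 : C(S3, ℂ)) := by
      ext g
      simp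
    rw [h]
    exact Submodule.smul_mem _ _ (one_mem_Pol 0)
  | add f g _ _ hf hg =>
    obtain ⟨L, hL⟩ := hf
    obtain ⟨L', hL'⟩ := hg
    refine ⟨max L L', ?_⟩
    rw [map_add]
    exact Submodule.add_mem _ (Pol_mono (le_max_left _ _) hL) (Pol_mono (le_max_right _ _) hL')
  | mul f g _ _ hf hg =>
    obtain ⟨L, hL⟩ := hf
    obtain ⟨L', hL'⟩ := hg
    refine ⟨L + L', ?_⟩
    rw [map_mul]
    exact Pol_mul hL hL'

theorem Pol_dense (f : C(S3, ℝ)) (ε : ℝ) (hε : 0 < ε) :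
    ∃ (L : ℕ) (p : C(S3, ℝ)), cplx p ∈ Pol L ∧ ∀ g, |p g - f g| < ε := by
  have hsep : (Algebra.adjoin ℝ (Set.range coR)).SeparatesPoints := by
    intro x y hxy
    by_contra hcon
    push Not at hcon
    apply hxy
    have h : ∀ k, coR k x = coR k y := by
      intro k
      exact hcon _ ⟨coR k, Algebra.subset_adjoin ⟨k, rfl⟩, rfl⟩
    apply Subtype.ext
    refine Quaternion.ext _ _ ?_ ?_ ?_ ?_
    · exact h 0
    · exact h 1
    · exact h 2
    · exact h 3
  obtain ⟨p, hp⟩ := ContinuousMap.exists_mem_subalgebra_near_continuousMap_of_separatesPoints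
    _ hsep f ε hε
  obtain ⟨L, hL⟩ := adjoin_mem p p.2
  refine ⟨L, p, hL, ?_⟩
  intro g
  have h1 := ((p : C(S3, ℝ)) - f).norm_coe_le_norm g
  rw [ContinuousMap.sub_apply, Real.norm_eq_abs] at h1
  exact lt_of_le_of_lt h1 hp

end

end Pool.Agent.BQ
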