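import Pool.Agent.BQ.H_Abs
import Pool.Agent.BQ.H_Pol

/-!
# Block H of project BQ: the polynomial functions in `L^2` of the unit quaternions
-/

set_option autoImplicit false

namespace Pool.Agent.BQ

open Matrix MeasureTheory Filter
open scoped Quaternion ComplexConjugate InnerProductSpace Topology

noncomputable section

open BQA (S3 nv2)

variable [MeasurableSpace S3] [BorelSpace S3] (μ : Measure S3) [IsProbabilityMeasure μ]

/-- continuous functions in `L^2` -/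
def JJ : C(S3, ℂ) →L[ℂ] Lp ℂ 2 μ := ContinuousMap.toLp 2 μ ℂ

theorem JJ_coe (f : C(S3, ℂ)) : (JJ μ f : S3 → ℂ) =ᵐ[μ] f := ContinuousMap.coeFn_toLp μ f

theorem JJ_inner (f h : C(S3, ℂ)) : ⟪JJ μ f, JJ μ h⟫_ℂ = ∫ g, h g * conj (f g) ∂μ :=
  MeasureTheory.ContinuousMap.inner_toLp μ f h

theorem JJ_norm_le (f : C(S3, ℂ)) (B : ℝ) (hB : 0 ≤ B) (h : ∀ g, ‖f g‖ ≤ B) : ‖JJ μ f‖ ≤ B := by
  have h1 : ‖JJ μ f‖ ≤ (measureUnivNNReal μ : ℝ) ^ ((2 : ENNReal).toReal)⁻¹ * B := by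
    apply Lp.norm_le_of_ae_bound hB
    filter_upwards [JJ_coe μ f] with g hg
    rw [hg]
    exact h g
  have h2 : measureUnivNNReal μ = 1 := by
    simp [measureUnivNNReal]
  rw [h2, NNReal.coe_one, Real.one_rpow, one_mul] at h1
  exact h1

variable [μ.IsMulLeftInvariant]

/-- left translation on `L^2` -/
def lamL (u : S3) : Lp ℂ 2 μ →ₗᵢ[ℂ] Lp ℂ 2 μ :=
  Lp.compMeasurePreservingₗᵢ ℂ (fun g : S3 => u * g) (measurePreserving_mul_left μ u)

omit [IsProbabilityMeasure μ] in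
theorem lamL_coe (u : S3) (f : Lp ℂ 2 μ) :
    (lamL μ u f : S3 → ℂ) =ᵐ[μ] (f : S3 → ℂ) ∘ fun g => u * g :=
  Lp.coeFn_compMeasurePreserving f (measurePreserving_mul_left μ u)

omit [IsProbabilityMeasure μ] in
theorem ae_left (u : S3) {f h : S3 → ℂ} (hfh : f =ᵐ[μ] h) :
    (f ∘ fun g => u * g) =ᵐ[μ] (h ∘ fun g => u * g) :=
  (measurePreserving_mul_left μ u).quasiMeasurePreserving.ae_eq_comp hfh

theorem lamL_JJ (u : S3) (f : C(S3, ℂ)) : lamL μ u (JJ μ f) = JJ μ (lft u f) := by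
  apply Lp.ext
  refine (lamL_coe μ u _).trans (((ae_left μ u (JJ_coe μ f))).trans ?_)
  exact (JJ_coe μ (lft u f)).symm

omit [IsProbabilityMeasure μ] in
theorem lamL_lamL (u v : S3) (f : Lp ℂ 2 μ) : lamL μ u (lamL μ v f) = lamL μ (v * u) f := by
  apply Lp.ext
  refine (lamL_coe μ u _).trans (((ae_left μ u (lamL_coe μ v f))).trans ?_)
  refine EventuallyEq.trans ?_ (lamL_coe μ (v * u) f).symm
  apply EventuallyEq.of_eq
  ext g
  simp [mul_assoc]

omit [IsProbabilityMeasure μ] in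
theorem lamL_one (f : Lp ℂ 2 μ) : lamL μ 1 f = f := by
  apply Lp.ext
  refine (lamL_coe μ 1 _).trans (EventuallyEq.of_eq ?_)
  ext g
  simp

theorem lamL_adj (u : S3) (f h : Lp ℂ 2 μ) : ⟪lamL μ u f, h⟫_ℂ = ⟪f, lamL μ u⁻¹ h⟫_ℂ := by
  have h1 : h = lamL μ u (lamL μ u⁻¹ h) := by
    rw [lamL_lamL, inv_mul_cancel, lamL_one]
  conv_lhs => rw [h1]
  exact (lamL μ u).inner_map_map _ _

/-- the polynomials of degree at most `L` of mean zero -/
def WW (L : ℕ) : Submodule ℂ (Lp ℂ 2 μ) :=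
  (Pol L).map (JJ μ).toLinearMap ⊓ (Submodule.span ℂ {JJ μ 1})ᗮ

omit [μ.IsMulLeftInvariant] in
theorem mem_WW (L : ℕ) (f : Lp ℂ 2 μ) :
    f ∈ WW μ L ↔ (∃ p ∈ Pol L, JJ μ p = f) ∧ ⟪JJ μ 1, f⟫_ℂ = 0 := by
  rw [WW, Submodule.mem_inf, Submodule.mem_map, Submodule.mem_orthogonal_singleton_iff_inner_right]
  rfl

instance WW_fin (L : ℕ) : FiniteDimensional ℂ (WW μ L) := by
  unfold WW
  infer_instance

omit [μ.IsMulLeftInvariant] in
theorem WW_finrank (L : ℕ) : Module.finrank ℂ (WW μ L) ≤ (L + 1) ^ 4 := by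
  have h1 : WW μ L ≤ (Pol L).map (JJ μ).toLinearMap := inf_le_left
  exact (Submodule.finrank_mono h1).trans ((Submodule.finrank_map_le _ _).trans (Pol_finrank L))

omit [μ.IsMulLeftInvariant] in
theorem WW_mono {L M : ℕ} (h : L ≤ M) : WW μ L ≤ WW μ M := by
  intro f hf
  rw [mem_WW] at hf ⊢
  obtain ⟨⟨p, hp, rfl⟩, h0⟩ := hf
  exact ⟨⟨p, Pol_mono h hp, rfl⟩, h0⟩

theorem WW_inv (L : ℕ) (u : S3) (f : Lp ℂ 2 μ) (hf : f ∈ WW μ L) : lamL μ u f ∈ WW μ L := by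
  rw [mem_WW] at hf ⊢
  obtain ⟨⟨p, hp, rfl⟩, h0⟩ := hf
  refine ⟨⟨lft u p, lft_Pol u L p hp, (lamL_JJ μ u p).symm⟩, ?_⟩
  have h1 := lamL_adj μ u⁻¹ (JJ μ 1) (JJ μ p)
  rw [inv_inv, lamL_JJ, map_one, h0] at h1
  exact h1.symm

omit [μ.IsMulLeftInvariant] in
theorem exists_test (M : ℕ) (f : Lp ℂ 2 μ) (hf : f ∈ WW μ M) (hf0 : f ≠ 0) :
    ∃ l, 1 ≤ l ∧ l ≤ M ∧ ∃ (x : S3) (a : Fin (l + 1)), ⟪JJ μ (tst l x a), f⟫_ℂ ≠ 0 := by
  rw [mem_WW] at hf
  obtain ⟨⟨p, hp, rfl⟩, h0⟩ := hf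
  have h1 : ∃ l ≤ M, ∃ (x : S3) (a : Fin (l + 1)), ⟪JJ μ (tst l x a), JJ μ p⟫_ℂ ≠ 0 := by
    by_contra hcon
    push Not at hcon
    apply hf0
    have h2 : ∀ q ∈ Submodule.span ℂ {f | ∃ l ≤ M, ∃ x : S3, ∃ a : Fin (l + 1), f = tst l x a},
        ⟪JJ μ q, JJ μ p⟫_ℂ = 0 := by
      intro q hq
      induction hq using Submodule.span_induction with
      | mem q hq =>
        obtain ⟨l, hl, x, a, rfl⟩ := hq
        exact hcon l hl x a
      | zero => rw [map_zero, inner_zero_left]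
      | add a b _ _ ha hb => rw [map_add, inner_add_left, ha, hb, add_zero]
      | smul c a _ ha => rw [map_smul, inner_smul_left, ha, mul_zero]
    exact inner_self_eq_zero.1 (h2 p (Pol_le_tst M hp))
  obtain ⟨l, hl, x, a, h⟩ := h1
  refine ⟨l, ?_, hl, x, a, h⟩
  by_contra hl0
  have hl1 : l = 0 := by omega
  subst hl1
  apply h
  have h3 : tst 0 x a = 1 := by
    have ha : (a : ℕ) = 0 := by
      have := a.2
      omega
    ext g
    rw [tst_apply, ContinuousMap.one_apply, ev, ha]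
    simp
  rw [h3]
  exact h0

/-! ## The matrix of the small degrees -/

/-- an orthonormal basis -/
def bb (L : ℕ) : OrthonormalBasis (Fin (Module.finrank ℂ (WW μ L))) ℂ (WW μ L) :=
  stdOrthonormalBasis ℂ (WW μ L)

/-- the matrix of the left translations -/
def DD (L : ℕ) (u : S3) :
    Matrix (Fin (Module.finrank ℂ (WW μ L))) (Fin (Module.finrank ℂ (WW μ L))) ℂ :=
  Matrix.of fun i j => ⟪((bb μ L i : WW μ L) : Lp ℂ 2 μ), lamL μ u (bb μ L j)⟫_ℂ

theorem lamL_bb (L : ℕ) (u : S3) (j : Fin (Module.finrank ℂ (WW μ L))) :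
    lamL μ u (bb μ L j) = ∑ i, DD μ L u i j • ((bb μ L i : WW μ L) : Lp ℂ 2 μ) := by
  have h1 := (bb μ L).sum_repr' ⟨lamL μ u (bb μ L j), WW_inv μ L u _ (bb μ L j).2⟩
  have h2 := congrArg (fun w : WW μ L => (w : Lp ℂ 2 μ)) h1
  simp only [Submodule.coe_sum, Submodule.coe_smul, Submodule.coe_inner] at h2
  exact h2.symm

theorem DD_mul (L : ℕ) (u v : S3) : DD μ L (u * v) = DD μ L v * DD μ L u := by
  ext i j
  rw [Matrix.mul_apply]
  show ⟪((bb μ L i : WW μ L) : Lp ℂ 2 μ), lamL μ (u * v) (bb μ L j)⟫_ℂ = _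
  rw [← lamL_lamL, lamL_bb, map_sum, inner_sum]
  apply Finset.sum_congr rfl
  intro k _
  rw [map_smul, inner_smul_right, mul_comm]
  rfl

theorem DD_one (L : ℕ) : DD μ L 1 = 1 := by
  ext i j
  show ⟪((bb μ L i : WW μ L) : Lp ℂ 2 μ), lamL μ 1 (bb μ L j)⟫_ℂ = _
  rw [lamL_one]
  have h := (orthonormal_iff_ite.1 (bb μ L).orthonormal) i j
  rw [Submodule.coe_inner] at h
  rw [h, Matrix.one_apply]

theorem DD_conj (L : ℕ) (u : S3) : (DD μ L u)ᴴ = DD μ L u⁻¹ := by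
  ext i j
  rw [Matrix.conjTranspose_apply]
  show star ⟪((bb μ L j : WW μ L) : Lp ℂ 2 μ), lamL μ u (bb μ L i)⟫_ℂ
    = ⟪((bb μ L i : WW μ L) : Lp ℂ 2 μ), lamL μ u⁻¹ (bb μ L j)⟫_ℂ
  rw [← lamL_adj]
  exact inner_conj_symm _ _

omit [μ.IsMulLeftInvariant] in
theorem bb_norm (L : ℕ) (x : Fin (Module.finrank ℂ (WW μ L)) → ℂ) :
    ‖∑ i, x i • ((bb μ L i : WW μ L) : Lp ℂ 2 μ)‖ ^ 2 = ∑ i, ‖x i‖ ^ 2 := by
  have h1 : ∑ i, x i • ((bb μ L i : WW μ L) : Lp ℂ 2 μ)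
      = (((bb μ L).repr.symm (WithLp.toLp 2 x) : WW μ L) : Lp ℂ 2 μ) := by
    rw [← (bb μ L).sum_repr_symm]
    simp only [Submodule.coe_sum, Submodule.coe_smul]
  rw [h1]
  have h2 : ‖(((bb μ L).repr.symm (WithLp.toLp 2 x) : WW μ L) : Lp ℂ 2 μ)‖
      = ‖(WithLp.toLp 2 x : EuclideanSpace ℂ (Fin (Module.finrank ℂ (WW μ L))))‖ := by
    rw [← Submodule.coe_norm, LinearIsometryEquiv.norm_map]
  rw [h2, EuclideanSpace.norm_sq_eq]

theorem bb_form (L : ℕ) (u : S3) (x y : Fin (Module.finrank ℂ (WW μ L)) → ℂ) :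
    ⟪∑ i, x i • ((bb μ L i : WW μ L) : Lp ℂ 2 μ),
      lamL μ u (∑ i, y i • ((bb μ L i : WW μ L) : Lp ℂ 2 μ))⟫_ℂ
      = star x ⬝ᵥ (DD μ L u *ᵥ y) := by
  rw [sum_inner]
  simp only [dotProduct, Matrix.mulVec, Pi.star_apply]
  apply Finset.sum_congr rfl
  intro i _
  rw [map_sum, inner_sum, Finset.mul_sum]
  apply Finset.sum_congr rfl
  intro j _
  rw [map_smul, inner_smul_left, inner_smul_right, mul_comm (y j)]
  rfl

/-! ## The small degrees -/

theorem DD_small {V Ed : Type} [Fintype V] [DecidableEq V] [Fintype Ed] (src tgt : Ed → V)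
    (a : Ed → ℂ) (u : Ed → S3) (B : ℝ) (hB : 0 ≤ B) (L : ℕ)
    (h : ∀ l, 1 ≤ l → l ≤ L → WBd src tgt a u (rho l) B) : WBd src tgt a u (DD μ L) B := by
  intro c c'
  have h1 := abs_bound src tgt a u B hB (fun u => (lamL μ u).toLinearMap)
    (fun u f h => lamL_adj μ u f h) (WW μ L) (fun u f hf => WW_inv μ L u f hf) (by
      intro f hf hf0
      obtain ⟨l, hl1, hl2, x, i, hi⟩ := exists_test μ L f hf hf0
      refine ⟨l + 1, rho l, fun i => JJ μ (tst l x i), rho_conjTranspose l, h l hl1 hl2, ?_, i, hi⟩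
      intro u i
      show lamL μ u (JJ μ (tst l x i)) = _
      rw [lamL_JJ, lft_tst, map_sum]
      simp only [map_smul])
    (fun s => ∑ i, c s i • ((bb μ L i : WW μ L) : Lp ℂ 2 μ))
    (fun s => ∑ i, c' s i • ((bb μ L i : WW μ L) : Lp ℂ 2 μ))
    (fun s => Submodule.sum_mem _ fun i _ => Submodule.smul_mem _ _ (bb μ L i).2)
    (fun s => Submodule.sum_mem _ fun i _ => Submodule.smul_mem _ _ (bb μ L i).2)
  simp only [bb_norm] at h1
  refine le_trans (le_of_eq ?_) h1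
  congr 1
  rw [wform]
  apply Finset.sum_congr rfl
  intro e _
  rw [← bb_form]
  rfl

/-! ## The transfer -/

theorem transfer_pol {V Ed : Type} [Fintype V] [DecidableEq V] [Fintype Ed] (src tgt : Ed → V)
    (a : Ed → ℂ) (u : Ed → S3) (B : ℝ) (hB : 0 ≤ B) (L M : ℕ)
    (hD : WBd src tgt a u (DD μ L) B) (h : ∀ l, L < l → WBd src tgt a u (rho l) B)
    (c c' : V → Lp ℂ 2 μ) (hc : ∀ s, c s ∈ WW μ M) (hc' : ∀ s, c' s ∈ WW μ M) :
    ‖∑ e, a e * ⟪c (src e), lamL μ (u e) (c' (tgt e))⟫_ℂ‖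
      ≤ B * Real.sqrt (∑ s, ‖c s‖ ^ 2) * Real.sqrt (∑ s, ‖c' s‖ ^ 2) := by
  refine abs_bound src tgt a u B hB (fun u => (lamL μ u).toLinearMap)
    (fun u f h => lamL_adj μ u f h) (WW μ M) (fun u f hf => WW_inv μ M u f hf) ?_ c c' hc hc'
  intro f hf hf0
  by_cases hex : ∃ i, ⟪((bb μ L i : WW μ L) : Lp ℂ 2 μ), f⟫_ℂ ≠ 0
  · obtain ⟨i, hi⟩ := hex
    exact ⟨_, DD μ L, fun i => ((bb μ L i : WW μ L) : Lp ℂ 2 μ), DD_conj μ L, hD,
      fun u i => lamL_bb μ L u i, i, hi⟩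
  · push Not at hex
    obtain ⟨l, hl1, hl2, x, i, hi⟩ := exists_test μ M f hf hf0
    by_cases hlL : l ≤ L
    · -- the test function minus its mean is in `WW L`
      exfalso
      apply hi
      have h0 : ⟪JJ μ 1, f⟫_ℂ = 0 := ((mem_WW μ M f).1 hf).2
      have h11 : ⟪JJ μ (1 : C(S3, ℂ)), JJ μ 1⟫_ℂ = 1 := by
        rw [JJ_inner]
        simp
      set t := JJ μ (tst l x i) with ht
      set w := t - ⟪JJ μ 1, t⟫_ℂ • JJ μ 1 with hw
      have hwW : w ∈ WW μ L := by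
        rw [mem_WW]
        refine ⟨⟨tst l x i - ⟪JJ μ 1, t⟫_ℂ • (1 : C(S3, ℂ)), ?_, ?_⟩, ?_⟩
        · exact Submodule.sub_mem _ (Pol_mono hlL (tst_mem l x i))
            (Submodule.smul_mem _ _ (one_mem_Pol L))
        · rw [map_sub, map_smul]
        · rw [hw, inner_sub_right, inner_smul_right, h11, mul_one, sub_self]
      have hwf : ⟪w, f⟫_ℂ = 0 := by
        have h1 := (bb μ L).sum_repr' ⟨w, hwW⟩
        have h2 := congrArg (fun w : WW μ L => (w : Lp ℂ 2 μ)) h1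
        simp only [Submodule.coe_sum, Submodule.coe_smul] at h2
        rw [← h2, sum_inner]
        apply Finset.sum_eq_zero
        intro k _
        rw [inner_smul_left, hex k, mul_zero]
      have h3 : t = w + ⟪JJ μ 1, t⟫_ℂ • JJ μ 1 := by
        rw [hw, sub_add_cancel]
      rw [h3, inner_add_left, inner_smul_left, hwf, h0, mul_zero, add_zero]
    · push Not at hlL
      refine ⟨l + 1, rho l, fun i => JJ μ (tst l x i), rho_conjTranspose l, h l hlL, ?_, i, hi⟩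
      intro u i
      show lamL μ u (JJ μ (tst l x i)) = _
      rw [lamL_JJ, lft_tst, map_sum]
      simp only [map_smul]

omit [μ.IsMulLeftInvariant] in
theorem exists_approx {V : Type} [Fintype V] (f : V → C(S3, ℝ)) (hf : ∀ s, ∫ g, f s g ∂μ = 0)
    (δ : ℝ) (hδ : 0 < δ) : ∃ (M : ℕ) (c : V → Lp ℂ 2 μ), (∀ s, c s ∈ WW μ M) ∧
      ∀ s, ‖c s - JJ μ (cplx (f s))‖ ≤ 2 * δ := by
  choose L p hp hpf using fun s => Pol_dense (f s) δ hδ
  refine ⟨Finset.univ.sup L, fun s => JJ μ (cplx (p s) - ((∫ g, p s g ∂μ : ℝ) : ℂ) • 1), ?_, ?_⟩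
  · intro s
    rw [mem_WW]
    refine ⟨⟨_, ?_, rfl⟩, ?_⟩
    · exact Submodule.sub_mem _ (Pol_mono (Finset.le_sup (Finset.mem_univ s)) (hp s))
        (Submodule.smul_mem _ _ (one_mem_Pol _))
    · beta_reduce
      rw [map_sub, map_smul, inner_sub_right, inner_smul_right, JJ_inner, JJ_inner]
      simp only [cplx_apply, ContinuousMap.one_apply, map_one, mul_one]
      rw [integral_complex_ofReal]
      simp
  · intro s
    rw [← map_sub]
    apply JJ_norm_le μ _ _ (by positivity)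
    intro g
    have hint : |∫ g, p s g ∂μ| ≤ δ := by
      have h1 : ∫ g, p s g ∂μ = ∫ g, (p s g - f s g) ∂μ := by
        rw [integral_sub, hf s, sub_zero]
        · exact (p s).continuous.integrable_of_hasCompactSupport
            (HasCompactSupport.of_compactSpace _)
        · exact (f s).continuous.integrable_of_hasCompactSupport
            (HasCompactSupport.of_compactSpace _)
      rw [h1]
      have h2 := norm_integral_le_of_norm_le_const (μ := μ) (f := fun g => p s g - f s g)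
        (C := δ) (Eventually.of_forall fun g => by
          rw [Real.norm_eq_abs]
          exact (hpf s g).le)
      simpa using h2
    have h3 : (cplx (p s) - ((∫ g, p s g ∂μ : ℝ) : ℂ) • (1 : C(S3, ℂ)) - cplx (f s)) g
        = ((p s g - f s g - ∫ g, p s g ∂μ : ℝ) : ℂ) := by
      simp only [ContinuousMap.sub_apply, ContinuousMap.smul_apply, ContinuousMap.one_apply,
        cplx_apply, smul_eq_mul, mul_one]
      push_cast
      ring
    rw [h3, Complex.norm_real, Real.norm_eq_abs]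
    calc |p s g - f s g - ∫ g, p s g ∂μ| ≤ |p s g - f s g| + |∫ g, p s g ∂μ| := abs_sub _ _
      _ ≤ δ + δ := add_le_add (hpf s g).le hint
      _ = 2 * δ := by ring

theorem transfer_cont {V Ed : Type} [Fintype V] [DecidableEq V] [Fintype Ed] (src tgt : Ed → V)
    (a : Ed → ℂ) (u : Ed → S3) (B : ℝ) (hB : 0 ≤ B) (L : ℕ)
    (hD : WBd src tgt a u (DD μ L) B) (h : ∀ l, L < l → WBd src tgt a u (rho l) B)
    (f f' : V → C(S3, ℝ)) (hf : ∀ s, ∫ g, f s g ∂μ = 0) (hf' : ∀ s, ∫ g, f' s g ∂μ = 0) :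
    ‖∑ e, a e * ((∫ g, f (src e) g * f' (tgt e) (u e * g) ∂μ : ℝ) : ℂ)‖
      ≤ B * Real.sqrt (∑ s, ∫ g, f s g ^ 2 ∂μ) * Real.sqrt (∑ s, ∫ g, f' s g ^ 2 ∂μ) := by
  have hnorm : ∀ p : C(S3, ℝ), ‖JJ μ (cplx p)‖ ^ 2 = ∫ g, p g ^ 2 ∂μ := by
    intro p
    have h1 : ((‖JJ μ (cplx p)‖ ^ 2 : ℝ) : ℂ) = ((∫ g, p g ^ 2 ∂μ : ℝ) : ℂ) := by
      have h2 := inner_self_eq_norm_sq_to_K (𝕜 := ℂ) (JJ μ (cplx p))
      rw [JJ_inner] at h2
      rw [← integral_complex_ofReal]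
      rw [Complex.ofReal_pow]
      refine h2.symm.trans ?_
      apply integral_congr_ae
      filter_upwards with g
      rw [cplx_apply, Complex.conj_ofReal]
      push_cast
      ring
    exact_mod_cast h1
  have hform : ∀ (p q : C(S3, ℝ)) (v : S3), ⟪JJ μ (cplx p), lamL μ v (JJ μ (cplx q))⟫_ℂ
      = ((∫ g, p g * q (v * g) ∂μ : ℝ) : ℂ) := by
    intro p q v
    rw [lamL_JJ, JJ_inner, ← integral_complex_ofReal]
    apply integral_congr_ae
    filter_upwards with g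
    rw [cplx_apply, lft_apply, cplx_apply, Complex.conj_ofReal]
    push_cast
    ring
  choose M c hc hcf using fun k : ℕ => exists_approx μ f hf (1 / ((k : ℝ) + 1)) (by positivity)
  choose M' c' hc' hcf' using fun k : ℕ =>
    exists_approx μ f' hf' (1 / ((k : ℝ) + 1)) (by positivity)
  have hlim : Tendsto (fun k : ℕ => 2 * (1 / ((k : ℝ) + 1))) atTop (𝓝 0) := by
    have := (tendsto_one_div_add_atTop_nhds_zero_nat (𝕜 := ℝ)).const_mul 2
    simpa using this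
  have ht : ∀ s, Tendsto (fun k => c k s) atTop (𝓝 (JJ μ (cplx (f s)))) := by
    intro s
    rw [tendsto_iff_norm_sub_tendsto_zero]
    exact squeeze_zero (fun k => norm_nonneg _) (fun k => hcf k s) hlim
  have ht' : ∀ s, Tendsto (fun k => c' k s) atTop (𝓝 (JJ μ (cplx (f' s)))) := by
    intro s
    rw [tendsto_iff_norm_sub_tendsto_zero]
    exact squeeze_zero (fun k => norm_nonneg _) (fun k => hcf' k s) hlim
  have hb : ∀ k, ‖∑ e, a e * ⟪c k (src e), lamL μ (u e) (c' k (tgt e))⟫_ℂ‖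
      ≤ B * Real.sqrt (∑ s, ‖c k s‖ ^ 2) * Real.sqrt (∑ s, ‖c' k s‖ ^ 2) := by
    intro k
    exact transfer_pol μ src tgt a u B hB L (max (M k) (M' k)) hD h (c k) (c' k)
      (fun s => WW_mono μ (le_max_left _ _) (hc k s))
      (fun s => WW_mono μ (le_max_right _ _) (hc' k s))
  have h1 : Tendsto (fun k => ‖∑ e, a e * ⟪c k (src e), lamL μ (u e) (c' k (tgt e))⟫_ℂ‖) atTop
      (𝓝 ‖∑ e, a e * ⟪JJ μ (cplx (f (src e))), lamL μ (u e) (JJ μ (cplx (f' (tgt e))))⟫_ℂ‖) := by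
    apply Tendsto.norm
    apply tendsto_finsetSum
    intro e _
    apply Tendsto.const_mul
    exact (ht (src e)).inner (((lamL μ (u e)).continuous.tendsto _).comp (ht' (tgt e)))
  have h2 : Tendsto (fun k => B * Real.sqrt (∑ s, ‖c k s‖ ^ 2) * Real.sqrt (∑ s, ‖c' k s‖ ^ 2))
      atTop (𝓝 (B * Real.sqrt (∑ s, ‖JJ μ (cplx (f s))‖ ^ 2) *
        Real.sqrt (∑ s, ‖JJ μ (cplx (f' s))‖ ^ 2))) := by
    apply Tendsto.mul
    · apply Tendsto.const_mul
      apply (Real.continuous_sqrt.tendsto _).comp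
      apply tendsto_finsetSum
      intro s _
      exact (ht s).norm.pow 2
    · apply (Real.continuous_sqrt.tendsto _).comp
      apply tendsto_finsetSum
      intro s _
      exact (ht' s).norm.pow 2
  have h3 := le_of_tendsto_of_tendsto' h1 h2 hb
  simp only [hnorm, hform] at h3
  exact h3

end

end Pool.Agent.BQ
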