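import Pool.Agent.BQ.Defs

/-!
# Block H of project BQ: a left and right invariant probability measure on the unit quaternions
-/

set_option autoImplicit false

namespace Pool.Agent.BQ

open MeasureTheory MeasureTheory.Measure
open scoped Quaternion

noncomputable section

open BQA (S3)

theorem right_inv_of_compact {G : Type} [TopologicalSpace G] [Group G] [IsTopologicalGroup G]
    [CompactSpace G] [MeasurableSpace G] [BorelSpace G] (μ : Measure G) [IsProbabilityMeasure μ]
    [μ.IsHaarMeasure] : μ.IsMulRightInvariant := by
  constructor
  intro x
  have hm : Measurable fun g : G => g * x := (continuous_mul_const x).measurable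
  have h1 : (Measure.map (fun g : G => g * x) μ).IsMulLeftInvariant := by
    constructor
    intro y
    rw [Measure.map_map (continuous_const_mul y).measurable hm]
    have h2 : ((fun g : G => y * g) ∘ fun g : G => g * x)
        = (fun g : G => g * x) ∘ fun g : G => y * g := by
      ext g
      simp [mul_assoc]
    rw [h2, ← Measure.map_map hm (continuous_const_mul y).measurable, map_mul_left_eq_self]
  have h3 : IsProbabilityMeasure (Measure.map (fun g : G => g * x) μ) :=
    isProbabilityMeasure_map hm.aemeasurable
  have h4 := isMulInvariant_eq_smul_of_compactSpace (Measure.map (fun g : G => g * x) μ) μ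
  have h5 := congrArg (fun ν : Measure G => ν Set.univ) h4
  simp only [measure_univ, Measure.smul_apply] at h5
  have h6 : (Measure.map (fun g : G => g * x) μ).haarScalarFactor μ = 1 := by
    have h7 : (((Measure.map (fun g : G => g * x) μ).haarScalarFactor μ : NNReal) : ENNReal) = 1 := by
      simpa [ENNReal.smul_def] using h5.symm
    exact_mod_cast h7
  rw [h6, one_smul] at h4
  exact h4

/-- a left and right invariant probability measure -/
theorem exists_haar_S3 : ∃ (m : MeasurableSpace S3) (_ : BorelSpace S3) (μ : Measure S3),
    IsProbabilityMeasure μ ∧ μ.IsMulLeftInvariant ∧ μ.IsMulRightInvariant := by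
  let m : MeasurableSpace S3 := borel S3
  have hb : BorelSpace S3 := ⟨rfl⟩
  let K : TopologicalSpace.PositiveCompacts S3 := ⊤
  have h1 : IsProbabilityMeasure (haarMeasure K) := by
    constructor
    have h := haarMeasure_self (K₀ := K)
    simpa [K] using h
  have h2 : (haarMeasure K).IsMulRightInvariant := right_inv_of_compact (haarMeasure K)
  exact ⟨m, hb, haarMeasure K, h1, inferInstance, h2⟩

end

end Pool.Agent.BQ
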