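import Pool.Agent.BQ.H_Fun
import Pool.Agent.BQ.H_Mea

/-!
# Block H of project BQ: the export

`H_main`: for every left invariant probability measure `μ` on the unit quaternions and every `L`
there are matrices `D u` of size at most `(L + 1) ^ 4` (the left translations on the polynomials
of degree at most `L` of mean zero, in an orthonormal basis), such that

* `D` is an antihomomorphism and `D u` is unitary;
* a bound for the norm in all `rho l`, `1 ≤ l ≤ L`, is a bound for the norm in `D` (for graphs and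
  for sums);
* (transfer) a bound for the norm of a quaternionic graph in `D` and in all `rho l`, `l > L`, is a
  bound for the form on continuous functions with mean zero.

`exists_haar_S3` (H_Mea) gives a left and right invariant probability measure.
-/

set_option autoImplicit false

namespace Pool.Agent.BQ

open Matrix MeasureTheory
open scoped Quaternion ComplexConjugate Matrix.Norms.L2Operator

noncomputable section

open BQA (S3 nv2 QG MBd usp sph)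

/-! ## Forms and norms -/

theorem nv2_one {ι : Type} [Fintype ι] (x : ι → ℂ) :
    Real.sqrt (nv2 fun _ : Unit => x) = ‖(WithLp.toLp 2 x : EuclideanSpace ℂ ι)‖ := by
  rw [EuclideanSpace.norm_eq]
  unfold nv2
  simp

theorem wform_one {κ ι : Type} [Fintype κ] [Fintype ι] (a : κ → ℂ) (u : κ → S3)
    (ρ : S3 → Matrix ι ι ℂ) (x y : ι → ℂ) :
    wform (fun _ : κ => ()) (fun _ => ()) a u ρ (fun _ => x) (fun _ => y)
      = star x ⬝ᵥ (∑ q, a q • (ρ (u q) *ᵥ y)) := by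
  unfold wform
  rw [dotProduct_sum]
  apply Finset.sum_congr rfl
  intro q _
  rw [dotProduct_smul, smul_eq_mul]

theorem dot_inner {ι : Type} [Fintype ι] (x y : ι → ℂ) :
    star x ⬝ᵥ y = inner ℂ (WithLp.toLp 2 x : EuclideanSpace ℂ ι) (WithLp.toLp 2 y) := by
  rw [EuclideanSpace.inner_toLp_toLp, dotProduct_comm]

/-- one vertex: the sesquilinear bound is the bound for vectors -/
theorem WBd_one_iff {κ ι : Type} [Fintype κ] [Fintype ι] (a : κ → ℂ) (u : κ → S3)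
    (ρ : S3 → Matrix ι ι ℂ) (B : ℝ) (hB : 0 ≤ B) :
    WBd (fun _ : κ => ()) (fun _ => ()) a u ρ B ↔
      ∀ y : ι → ℂ, ‖(WithLp.toLp 2 (∑ q, a q • (ρ (u q) *ᵥ y)) : EuclideanSpace ℂ ι)‖
        ≤ B * ‖(WithLp.toLp 2 y : EuclideanSpace ℂ ι)‖ := by
  constructor
  · intro h y
    set z := ∑ q, a q • (ρ (u q) *ᵥ y) with hz
    have h1 := h (fun _ => z) (fun _ => y)
    rw [nv2_one, nv2_one, wform_one, ← hz, dot_inner, inner_self_eq_norm_sq_to_K, norm_pow,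
      RCLike.norm_ofReal, abs_norm] at h1
    by_cases h3 : ‖(WithLp.toLp 2 z : EuclideanSpace ℂ ι)‖ = 0
    · rw [h3]
      positivity
    · have h4 : 0 < ‖(WithLp.toLp 2 z : EuclideanSpace ℂ ι)‖ :=
        lt_of_le_of_ne (norm_nonneg _) (Ne.symm h3)
      nlinarith
  · intro h c c'
    have hc : c = fun _ => c () := rfl
    have hc' : c' = fun _ => c' () := rfl
    rw [hc, hc', nv2_one, nv2_one, wform_one, dot_inner]
    refine (norm_inner_le_norm _ _).trans ?_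
    have h1 := h (c' ())
    calc _ ≤ ‖(WithLp.toLp 2 (c ()) : EuclideanSpace ℂ ι)‖ *
          (B * ‖(WithLp.toLp 2 (c' ()) : EuclideanSpace ℂ ι)‖) := by gcongr
      _ = _ := by ring

theorem form_eq_wform {n : ℕ} (Γ : QG n) {ι : Type} [Fintype ι] (ρ : S3 → Matrix ι ι ℂ)
    (c c' : Γ.V → ι → ℂ) :
    Γ.form ρ c c' = wform Γ.src Γ.tgt (fun _ => 1) (fun e => usp (Γ.q e)) ρ c c' := by
  unfold QG.form wform
  simp only [one_mul]

theorem MBd_iff_WBd {n : ℕ} (Γ : QG n) {ι : Type} [Fintype ι] (ρ : S3 → Matrix ι ι ℂ) (B : ℝ) :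
    MBd Γ ρ B ↔ WBd Γ.src Γ.tgt (fun _ => 1) (fun e => usp (Γ.q e)) ρ B := by
  unfold MBd WBd
  simp only [form_eq_wform]

/-! ## The export -/

section

variable [MeasurableSpace S3] [BorelSpace S3] (μ : Measure S3) [IsProbabilityMeasure μ]
  [μ.IsMulLeftInvariant]

/-- graphs: a bound in all `rho l`, `1 ≤ l ≤ L`, is a bound in `D` -/
theorem DD_MBd {n : ℕ} (Γ : QG n) (L : ℕ) (B : ℝ) (hB : 0 ≤ B)
    (h : ∀ l, 1 ≤ l → l ≤ L → MBd Γ (rho l) B) : MBd Γ (DD μ L) B := by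
  rw [MBd_iff_WBd]
  apply DD_small μ _ _ _ _ B hB L
  intro l hl1 hl2
  rw [← MBd_iff_WBd]
  exact h l hl1 hl2

/-- sums -/
theorem DD_sum {κ : Type} [Fintype κ] (a : κ → ℂ) (u : κ → S3) (L : ℕ) (B : ℝ) (hB : 0 ≤ B)
    (h : ∀ l, 1 ≤ l → l ≤ L → ∀ x : Fin (l + 1) → ℂ,
      ‖(WithLp.toLp 2 (∑ q, a q • (rho l (u q) *ᵥ x)) : EuclideanSpace ℂ (Fin (l + 1)))‖
        ≤ B * ‖(WithLp.toLp 2 x : EuclideanSpace ℂ (Fin (l + 1)))‖)
    (x : Fin (Module.finrank ℂ (WW μ L)) → ℂ) :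
    ‖(WithLp.toLp 2 (∑ q, a q • (DD μ L (u q) *ᵥ x)) : EuclideanSpace ℂ _)‖
        ≤ B * ‖(WithLp.toLp 2 x : EuclideanSpace ℂ _)‖ := by
  have h1 := DD_small μ (fun _ : κ => ()) (fun _ => ()) a u B hB L (fun l hl1 hl2 =>
    (WBd_one_iff a u (rho l) B hB).2 (h l hl1 hl2))
  exact (WBd_one_iff a u (DD μ L) B hB).1 h1 x

/-- sums over a finite set of integer quaternions, operator norm in, vectors out -/
theorem DD_sum_finset (S : Finset ℍ[ℤ]) (L : ℕ) (B : ℝ) (hB : 0 ≤ B)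
    (h : ∀ l, 1 ≤ l → l ≤ L → ‖∑ q ∈ S, rho l (usp q)‖ ≤ B)
    (x : Fin (Module.finrank ℂ (WW μ L)) → ℂ) :
    ‖(WithLp.toLp 2 (∑ q ∈ S, (DD μ L (usp q) *ᵥ x)) : EuclideanSpace ℂ _)‖
        ≤ B * ‖(WithLp.toLp 2 x : EuclideanSpace ℂ _)‖ := by
  have hs : ∀ {ι : Type} [Fintype ι] (ρ : S3 → Matrix ι ι ℂ) (y : ι → ℂ),
      ∑ q ∈ S, (ρ (usp q) *ᵥ y) = ∑ q : S, (1 : ℂ) • (ρ (usp (q : ℍ[ℤ])) *ᵥ y) := by
    intro ι _ ρ y
    simp only [one_smul]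
    exact (Finset.sum_coe_sort S (fun q => ρ (usp q) *ᵥ y)).symm
  rw [hs]
  refine DD_sum μ (fun _ : S => 1) (fun q : S => usp (q : ℍ[ℤ])) L B hB ?_ x
  intro l hl1 hl2 y
  rw [← hs, ← Matrix.sum_mulVec]
  have h1 : ‖(WithLp.toLp 2 ((∑ q ∈ S, rho l (usp q)) *ᵥ y) : EuclideanSpace ℂ (Fin (l + 1)))‖
      ≤ ‖∑ q ∈ S, rho l (usp q)‖ * ‖(WithLp.toLp 2 y : EuclideanSpace ℂ (Fin (l + 1)))‖ := by
    rw [← Matrix.toEuclideanCLM_toLp, ← Matrix.l2_opNorm_toEuclideanCLM]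
    exact ContinuousLinearMap.le_opNorm _ _
  exact h1.trans (mul_le_mul_of_nonneg_right (h l hl1 hl2) (norm_nonneg _))

/-- the transfer to continuous functions, two different families -/
theorem transfer_two {n : ℕ} (Γ : QG n) (L : ℕ) (B : ℝ) (hB : 0 ≤ B) (hD : MBd Γ (DD μ L) B)
    (h : ∀ l, L < l → MBd Γ (rho l) B) (f f' : Γ.V → C(S3, ℝ)) (hf : ∀ s, ∫ g, f s g ∂μ = 0)
    (hf' : ∀ s, ∫ g, f' s g ∂μ = 0) :
    |∑ e, ∫ g, f (Γ.src e) g * f' (Γ.tgt e) (usp (Γ.q e) * g) ∂μ|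
      ≤ B * Real.sqrt (∑ s, ∫ g, f s g ^ 2 ∂μ) * Real.sqrt (∑ s, ∫ g, f' s g ^ 2 ∂μ) := by
  have h1 := transfer_cont μ Γ.src Γ.tgt (fun _ => 1) (fun e => usp (Γ.q e)) B hB L
    ((MBd_iff_WBd Γ _ B).1 hD) (fun l hl => (MBd_iff_WBd Γ _ B).1 (h l hl)) f f' hf hf'
  simp only [one_mul] at h1
  rw [← Complex.ofReal_sum, Complex.norm_real, Real.norm_eq_abs] at h1
  exact h1

/-- the transfer to continuous functions -/
theorem transfer {n : ℕ} (Γ : QG n) (L : ℕ) (B : ℝ) (hB : 0 ≤ B) (hD : MBd Γ (DD μ L) B)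
    (h : ∀ l, L < l → MBd Γ (rho l) B) (f : Γ.V → C(S3, ℝ)) (hf : ∀ s, ∫ g, f s g ∂μ = 0) :
    |∑ e, ∫ g, f (Γ.src e) g * f (Γ.tgt e) (usp (Γ.q e) * g) ∂μ|
      ≤ B * ∑ s, ∫ g, f s g ^ 2 ∂μ := by
  have h1 := transfer_two μ Γ L B hB hD h f f hf hf
  have h2 : 0 ≤ ∑ s, ∫ g, f s g ^ 2 ∂μ :=
    Finset.sum_nonneg fun s _ => integral_nonneg fun g => sq_nonneg _
  rwa [mul_assoc, Real.mul_self_sqrt h2] at h1

/-- the transfer, for functions with a continuity hypothesis -/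
theorem transfer' {n : ℕ} (Γ : QG n) (L : ℕ) (B : ℝ) (hB : 0 ≤ B) (hD : MBd Γ (DD μ L) B)
    (h : ∀ l, L < l → MBd Γ (rho l) B) (f : Γ.V → S3 → ℝ) (hc : ∀ s, Continuous (f s))
    (hf : ∀ s, ∫ g, f s g ∂μ = 0) :
    |∑ e, ∫ g, f (Γ.src e) g * f (Γ.tgt e) (usp (Γ.q e) * g) ∂μ|
      ≤ B * ∑ s, ∫ g, f s g ^ 2 ∂μ :=
  transfer μ Γ L B hB hD h (fun s => ⟨f s, hc s⟩) hf

/-- **The export of block H.** -/
theorem H_main (L : ℕ) :
    ∃ (N : ℕ) (D : S3 → Matrix (Fin N) (Fin N) ℂ), N ≤ (L + 1) ^ 4 ∧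
      (∀ u v, D (u * v) = D v * D u) ∧ (∀ u, (D u)ᴴ = D u⁻¹) ∧ D 1 = 1 ∧
      -- graphs: a bound for the small degrees is a bound for `D`
      (∀ (n : ℕ) (Γ : QG n) (B : ℝ), 0 ≤ B → (∀ l, 1 ≤ l → l ≤ L → MBd Γ (rho l) B) →
        MBd Γ D B) ∧
      -- sums, vectors in, vectors out
      (∀ (κ : Type) [Fintype κ] (a : κ → ℂ) (u : κ → S3) (B : ℝ), 0 ≤ B →
        (∀ l, 1 ≤ l → l ≤ L → ∀ x : Fin (l + 1) → ℂ,
          ‖(WithLp.toLp 2 (∑ q, a q • (rho l (u q) *ᵥ x)) : EuclideanSpace ℂ (Fin (l + 1)))‖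
            ≤ B * ‖(WithLp.toLp 2 x : EuclideanSpace ℂ (Fin (l + 1)))‖) →
        ∀ x : Fin N → ℂ,
          ‖(WithLp.toLp 2 (∑ q, a q • (D (u q) *ᵥ x)) : EuclideanSpace ℂ (Fin N))‖
            ≤ B * ‖(WithLp.toLp 2 x : EuclideanSpace ℂ (Fin N))‖) ∧
      -- sums, operator norm in, vectors out
      (∀ (S : Finset ℍ[ℤ]) (B : ℝ), 0 ≤ B →
        (∀ l, 1 ≤ l → l ≤ L → ‖∑ q ∈ S, rho l (usp q)‖ ≤ B) →
        ∀ x : Fin N → ℂ,
          ‖(WithLp.toLp 2 (∑ q ∈ S, (D (usp q) *ᵥ x)) : EuclideanSpace ℂ (Fin N))‖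
            ≤ B * ‖(WithLp.toLp 2 x : EuclideanSpace ℂ (Fin N))‖) ∧
      -- transfer
      (∀ (n : ℕ) (Γ : QG n) (B : ℝ), 0 ≤ B → MBd Γ D B → (∀ l, L < l → MBd Γ (rho l) B) →
        ∀ f : Γ.V → S3 → ℝ, (∀ s, Continuous (f s)) → (∀ s, ∫ g, f s g ∂μ = 0) →
          |∑ e, ∫ g, f (Γ.src e) g * f (Γ.tgt e) (usp (Γ.q e) * g) ∂μ|
            ≤ B * ∑ s, ∫ g, f s g ^ 2 ∂μ) :=
  ⟨_, DD μ L, WW_finrank μ L, DD_mul μ L, DD_conj μ L, DD_one μ L,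
    fun _ Γ B hB h => DD_MBd μ Γ L B hB h,
    fun _ _ a u B hB h x => DD_sum μ a u L B hB h x,
    fun S B hB h x => DD_sum_finset μ S L B hB h x,
    fun _ Γ B hB hD h f hc hf => transfer' μ Γ L B hB hD h f hc hf⟩

/-- sums over a finite set of integer quaternions, in the form of `BQP.PStmt` and of `Y_low` -/
theorem DD_sum_euc (S : Finset ℍ[ℤ]) (L : ℕ) (B : ℝ) (hB : 0 ≤ B)
    (h : ∀ l, 1 ≤ l → l ≤ L → ∀ x : EuclideanSpace ℂ (Fin (l + 1)),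
      ‖∑ q ∈ S, Matrix.toEuclideanLin (rho l (usp q)) x‖ ≤ B * ‖x‖)
    (x : EuclideanSpace ℂ (Fin (Module.finrank ℂ (WW μ L)))) :
    ‖∑ q ∈ S, Matrix.toEuclideanLin (DD μ L (usp q)) x‖ ≤ B * ‖x‖ := by
  have hs : ∀ {k : ℕ} (ρ : S3 → Matrix (Fin k) (Fin k) ℂ) (y : EuclideanSpace ℂ (Fin k)),
      ∑ q ∈ S, Matrix.toEuclideanLin (ρ (usp q)) y
        = (WithLp.toLp 2 (∑ q : S, (1 : ℂ) • (ρ (usp (q : ℍ[ℤ])) *ᵥ WithLp.ofLp y)) :
          EuclideanSpace ℂ (Fin k)) := by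
    intro k ρ y
    simp only [one_smul]
    rw [Finset.sum_coe_sort S (fun q => ρ (usp q) *ᵥ WithLp.ofLp y), WithLp.toLp_sum]
    rfl
  rw [hs]
  refine DD_sum μ (fun _ : S => 1) (fun q : S => usp (q : ℍ[ℤ])) L B hB ?_ (WithLp.ofLp x)
  intro l hl1 hl2 y
  have h1 := h l hl1 hl2 (WithLp.toLp 2 y)
  rw [hs] at h1
  exact h1

/-- The export of block H, in the forms used by `Y_low`, `BQP.PStmt` and `geo_SG'`. -/
theorem H_main' (L : ℕ) :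
    ∃ (N : ℕ) (D : S3 → Matrix (Fin N) (Fin N) ℂ), N ≤ (L + 1) ^ 4 ∧
      (∀ u v, D (u * v) = D v * D u) ∧ D 1 = 1 ∧ (∀ u, (D u)ᴴ = D u⁻¹) ∧
      (∀ (S : Finset ℍ[ℤ]) (B : ℝ), 0 ≤ B →
        (∀ l, 1 ≤ l → l ≤ L → ∀ x : EuclideanSpace ℂ (Fin (l + 1)),
          ‖∑ q ∈ S, Matrix.toEuclideanLin (rho l (usp q)) x‖ ≤ B * ‖x‖) →
        ∀ x : EuclideanSpace ℂ (Fin N), ‖∑ q ∈ S, Matrix.toEuclideanLin (D (usp q)) x‖ ≤ B * ‖x‖) ∧
      (∀ (n : ℕ) (Γ : QG n) (B : ℝ), 0 ≤ B → MBd Γ D B → (∀ l, L < l → MBd Γ (rho l) B) →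
        ∀ f : Γ.V → S3 → ℝ, (∀ s, Continuous (f s)) → (∀ s, ∫ g, f s g ∂μ = 0) →
          |∑ e, ∫ g, f (Γ.src e) g * f (Γ.tgt e) (usp (Γ.q e) * g) ∂μ|
            ≤ B * ∑ s, ∫ g, f s g ^ 2 ∂μ) :=
  ⟨_, DD μ L, WW_finrank μ L, DD_mul μ L, DD_one μ L, DD_conj μ L,
    fun S B hB h x => DD_sum_euc μ S L B hB h x,
    fun _ Γ B hB hD h f hc hf => transfer' μ Γ L B hB hD h f hc hf⟩

end

end

end Pool.Agent.BQ
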