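import Mathlib
import Pool.Agent.BQ.Defs

/-!
# Block H of project BQ (MP_701da7_co): the representations `rho l` of the group of unit quaternions

Owner helper91. `rho l u` is the matrix of `f(g) ↦ f(u g)` on the space `V_l` of the homogeneous
polynomials of degree `l` in the first column of the matrix of `g`, in an orthonormal basis.
-/

set_option autoImplicit false

namespace Pool.Agent.BQ

open Matrix Polynomial
open scoped Quaternion ComplexConjugate

noncomputable section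

open BQA (S3)

/-! ## The 2 x 2 matrix of a quaternion -/

/-- the matrix of a quaternion `z + w j` -/
def qmat (g : ℍ[ℝ]) : Matrix (Fin 2) (Fin 2) ℂ :=
  !![⟨g.re, g.imI⟩, ⟨g.imJ, g.imK⟩; ⟨-g.imJ, g.imK⟩, ⟨g.re, -g.imI⟩]

theorem qmat_one : qmat 1 = 1 := by
  ext i j
  fin_cases i <;> fin_cases j <;> simp [qmat, Complex.ext_iff]

theorem qmat_mul (g h : ℍ[ℝ]) : qmat (g * h) = qmat g * qmat h := by
  ext i j
  fin_cases i <;> fin_cases j <;>
    simp [qmat, Complex.ext_iff, Matrix.mul_apply, Fin.sum_univ_two] <;>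
    constructor <;> ring

theorem qmat_star (g : ℍ[ℝ]) : qmat (star g) = (qmat g)ᴴ := by
  ext i j
  fin_cases i <;> fin_cases j <;>
    simp [qmat, Complex.ext_iff, Matrix.conjTranspose_apply]

/-- the first column of the matrix of a quaternion -/
def qcol (g : ℍ[ℝ]) : Fin 2 → ℂ := ![⟨g.re, g.imI⟩, ⟨-g.imJ, g.imK⟩]

theorem qcol_mul (g h : ℍ[ℝ]) : qcol (g * h) = qmat g *ᵥ qcol h := by
  ext i
  fin_cases i <;>
    simp [qmat, qcol, Complex.ext_iff, Matrix.mulVec, dotProduct, Fin.sum_univ_two] <;>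
    constructor <;> ring

/-! ## Homogeneous evaluation -/

/-- the homogenisation of `p` in degree `n`, evaluated at `x` -/
def hev (p : ℂ[X]) (n : ℕ) (x : Fin 2 → ℂ) : ℂ := MvPolynomial.eval x (p.homogenize n)

theorem hev_mul (p q : ℂ[X]) (m n : ℕ) (hm : p.natDegree ≤ m) (hn : q.natDegree ≤ n)
    (x : Fin 2 → ℂ) : hev (p * q) (m + n) x = hev p m x * hev q n x := by
  rw [hev, homogenize_mul p q hm hn, map_mul]
  rfl

theorem hev_eq_sum (p : ℂ[X]) (n : ℕ) (x : Fin 2 → ℂ) :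
    hev p n x = ∑ k : Fin (n + 1), p.coeff k * (x 0 ^ (k : ℕ) * x 1 ^ (n - (k : ℕ))) := by
  rw [hev, homogenize, map_sum, Finset.Nat.sum_antidiagonal_eq_sum_range_succ_mk,
    ← Fin.sum_univ_eq_sum_range
      (fun k => (MvPolynomial.eval x) ((MvPolynomial.monomial
        (Finsupp.update (Finsupp.single 0 k) 1 (n - k))) (p.coeff k))) (n + 1)]
  apply Finset.sum_congr rfl
  intro k _
  rw [MvPolynomial.eval_monomial, Finsupp.update_eq_add_single, Finsupp.prod_add_index',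
    Finsupp.prod_single_index, Finsupp.prod_single_index]
  all_goals simp_all [pow_add]

/-- the linear polynomial `A X + B` -/
def lin (A B : ℂ) : ℂ[X] := C A * X + C B

theorem natDegree_lin_le (A B : ℂ) : (lin A B).natDegree ≤ 1 := by
  unfold lin
  exact natDegree_linear_le

theorem hev_lin (A B : ℂ) (x : Fin 2 → ℂ) : hev (lin A B) 1 x = A * x 0 + B * x 1 := by
  rw [hev_eq_sum]
  simp [Fin.sum_univ_two, lin, coeff_X, coeff_C]
  ring

theorem natDegree_lin_pow_le (A B : ℂ) (n : ℕ) : ((lin A B) ^ n).natDegree ≤ n := by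
  refine (natDegree_pow_le).trans ?_
  have := natDegree_lin_le A B
  nlinarith

theorem hev_lin_pow (A B : ℂ) (n : ℕ) (x : Fin 2 → ℂ) :
    hev ((lin A B) ^ n) n x = (A * x 0 + B * x 1) ^ n := by
  induction n with
  | zero => simp [hev]
  | succ n ih =>
    rw [pow_succ, hev_mul _ _ n 1 (natDegree_lin_pow_le A B n) (natDegree_lin_le A B), ih, hev_lin,
      pow_succ]

theorem coeff_lin_pow (A B : ℂ) (n k : ℕ) :
    ((lin A B) ^ n).coeff k = A ^ k * B ^ (n - k) * (n.choose k : ℂ) := by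
  unfold lin
  rw [add_pow, finsetSum_coeff]
  have h : ∀ m ∈ Finset.range (n + 1),
      (((C A * X) ^ m * (C B) ^ (n - m) * (n.choose m : ℂ[X])).coeff k)
        = if m = k then A ^ k * B ^ (n - k) * (n.choose k : ℂ) else 0 := by
    intro m _
    have h1 : ((C A * X) ^ m * (C B) ^ (n - m) * (n.choose m : ℂ[X]))
        = C (A ^ m * B ^ (n - m) * (n.choose m : ℂ)) * X ^ m := by
      simp only [map_mul, map_pow, mul_pow, map_natCast]
      ring
    rw [h1, coeff_C_mul, coeff_X_pow]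
    by_cases hk : m = k
    · subst hk; simp
    · have hk' : ¬ k = m := fun h => hk h.symm
      simp [hk, hk']
  rw [Finset.sum_congr rfl h]
  rw [Finset.sum_ite_eq']
  by_cases hk : k ∈ Finset.range (n + 1)
  · simp [hk]
  · have h2 : n < k := by
      rw [Finset.mem_range] at hk
      omega
    simp [hk, Nat.choose_eq_zero_of_lt h2]

/-! ## Coherent vectors and the symmetric powers -/

/-- the coherent vector of `x` -/
def ev (l : ℕ) (x : Fin 2 → ℂ) : Fin (l + 1) → ℂ :=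
  fun a => ((Real.sqrt (l.choose a) : ℝ) : ℂ) * (x 0 ^ (a : ℕ) * x 1 ^ (l - (a : ℕ)))

/-- the symmetric power of a 2 x 2 matrix, in the basis in which unitary matrices stay unitary -/
def pm (l : ℕ) (M : Matrix (Fin 2) (Fin 2) ℂ) : Matrix (Fin (l + 1)) (Fin (l + 1)) ℂ :=
  Matrix.of fun a b => ((Real.sqrt (l.choose a) / Real.sqrt (l.choose b) : ℝ) : ℂ) *
    ((lin (M 0 0) (M 0 1)) ^ (a : ℕ) * (lin (M 1 0) (M 1 1)) ^ (l - (a : ℕ))).coeff b

theorem sqrt_choose_pos (l : ℕ) (a : Fin (l + 1)) : 0 < Real.sqrt (l.choose a) := by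
  apply Real.sqrt_pos.2
  exact_mod_cast Nat.choose_pos (Nat.lt_succ_iff.1 a.2)

theorem pm_mulVec_ev (l : ℕ) (M : Matrix (Fin 2) (Fin 2) ℂ) (x : Fin 2 → ℂ) :
    pm l M *ᵥ ev l x = ev l (M *ᵥ x) := by
  ext a
  have ha : (a : ℕ) + (l - (a : ℕ)) = l := by
    have := a.2
    omega
  have h1 := hev_mul ((lin (M 0 0) (M 0 1)) ^ (a : ℕ)) ((lin (M 1 0) (M 1 1)) ^ (l - (a : ℕ)))
    a (l - (a : ℕ)) (natDegree_lin_pow_le _ _ _) (natDegree_lin_pow_le _ _ _) x
  rw [ha, hev_lin_pow, hev_lin_pow, hev_eq_sum] at h1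
  have h2 : ∀ b : Fin (l + 1), pm l M a b * ev l x b
      = ((Real.sqrt (l.choose a) : ℝ) : ℂ) *
        ((((lin (M 0 0) (M 0 1)) ^ (a : ℕ) * (lin (M 1 0) (M 1 1)) ^ (l - (a : ℕ))).coeff b)
          * (x 0 ^ (b : ℕ) * x 1 ^ (l - (b : ℕ)))) := by
    intro b
    have hb : ((Real.sqrt (l.choose b) : ℝ) : ℂ) ≠ 0 := by
      exact_mod_cast (sqrt_choose_pos l b).ne'
    simp only [pm, ev, Matrix.of_apply]
    push_cast
    field_simp
  rw [Matrix.mulVec, dotProduct, Finset.sum_congr rfl (fun b _ => h2 b), ← Finset.mul_sum, h1]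
  simp only [ev, Matrix.mulVec, dotProduct, Fin.sum_univ_two]

theorem ev_inner (l : ℕ) (x y : Fin 2 → ℂ) :
    ∑ a, star (ev l y a) * ev l x a = (∑ i, star (y i) * x i) ^ l := by
  rw [Fin.sum_univ_two, add_pow, ← Fin.sum_univ_eq_sum_range
    (fun m => (star (y 0) * x 0) ^ m * (star (y 1) * x 1) ^ (l - m) * (l.choose m : ℂ)) (l + 1)]
  apply Finset.sum_congr rfl
  intro a _
  simp only [ev, star_mul', star_pow, Complex.star_def, Complex.conj_ofReal]
  have h : ((Real.sqrt (l.choose a) : ℝ) : ℂ) * ((Real.sqrt (l.choose a) : ℝ) : ℂ)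
      = (l.choose a : ℂ) := by
    rw [← Complex.ofReal_mul, Real.mul_self_sqrt (by positivity)]
    simp
  rw [mul_pow, mul_pow, ← h]
  ring

/-- a vector orthogonal to all coherent vectors is zero -/
theorem eq_zero_of_ev (l : ℕ) (w : Fin (l + 1) → ℂ)
    (h : ∀ t : ℝ, ∑ a, w a * ev l ![(t : ℂ), 1] a = 0) : w = 0 := by
  set p : ℂ[X] := ∑ a : Fin (l + 1), C (w a * ((Real.sqrt (l.choose a) : ℝ) : ℂ)) * X ^ (a : ℕ)
    with hp
  have h1 : ∀ t : ℝ, p.eval (t : ℂ) = 0 := by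
    intro t
    rw [← h t, hp, eval_finsetSum]
    apply Finset.sum_congr rfl
    intro a _
    simp [ev]
    ring
  have h2 : p = 0 := by
    apply Polynomial.eq_zero_of_infinite_isRoot
    apply Set.Infinite.mono (s := Set.range (fun t : ℝ => (t : ℂ)))
    · rintro _ ⟨t, rfl⟩
      exact h1 t
    · exact Set.infinite_range_of_injective Complex.ofReal_injective
  ext a
  have h3 : p.coeff a = w a * ((Real.sqrt (l.choose a) : ℝ) : ℂ) := by
    rw [hp, finsetSum_coeff]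
    simp only [coeff_C_mul, coeff_X_pow]
    rw [Finset.sum_eq_single a]
    · simp
    · intro b _ hb
      have : ¬ ((a : ℕ) = (b : ℕ)) := fun h => hb (Fin.ext h.symm)
      simp [this]
    · simp
  rw [h2, coeff_zero] at h3
  have hb : ((Real.sqrt (l.choose a) : ℝ) : ℂ) ≠ 0 := by
    exact_mod_cast (sqrt_choose_pos l a).ne'
  rcases mul_eq_zero.1 h3.symm with h | h
  · simpa using h
  · exact absurd h hb

theorem ext_ev (l : ℕ) (A B : Matrix (Fin (l + 1)) (Fin (l + 1)) ℂ)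
    (h : ∀ x : Fin 2 → ℂ, A *ᵥ ev l x = B *ᵥ ev l x) : A = B := by
  ext a b
  have h1 : (fun b => A a b - B a b) = 0 := by
    apply eq_zero_of_ev l
    intro t
    have h2 := congrFun (h ![(t : ℂ), 1]) a
    simp only [Matrix.mulVec, dotProduct] at h2
    simp only [sub_mul, Finset.sum_sub_distrib, h2, sub_self]
  have h3 := congrFun h1 b
  simp only [Pi.zero_apply] at h3
  exact sub_eq_zero.1 h3

theorem pm_mul (l : ℕ) (M N : Matrix (Fin 2) (Fin 2) ℂ) : pm l (M * N) = pm l M * pm l N := by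
  apply ext_ev
  intro x
  rw [pm_mulVec_ev, ← Matrix.mulVec_mulVec, ← Matrix.mulVec_mulVec, pm_mulVec_ev, pm_mulVec_ev]

theorem pm_one (l : ℕ) : pm l 1 = 1 := by
  apply ext_ev
  intro x
  rw [pm_mulVec_ev, Matrix.one_mulVec, Matrix.one_mulVec]

theorem pm_conjTranspose (l : ℕ) (M : Matrix (Fin 2) (Fin 2) ℂ) : pm l Mᴴ = (pm l M)ᴴ := by
  have key : ∀ x y : Fin 2 → ℂ, star (ev l y) ⬝ᵥ ((pm l Mᴴ) *ᵥ ev l x)
      = star (ev l y) ⬝ᵥ ((pm l M)ᴴ *ᵥ ev l x) := by
    intro x y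
    rw [pm_mulVec_ev]
    have h1 : star (ev l y) ⬝ᵥ ((pm l M)ᴴ *ᵥ ev l x) = star (pm l M *ᵥ ev l y) ⬝ᵥ ev l x := by
      rw [Matrix.star_mulVec, Matrix.dotProduct_mulVec]
    rw [h1, pm_mulVec_ev]
    have h2 : ∀ x y : Fin 2 → ℂ, star (ev l y) ⬝ᵥ ev l x = (star y ⬝ᵥ x) ^ l := by
      intro x y
      exact ev_inner l x y
    rw [h2, h2, Matrix.star_mulVec, Matrix.dotProduct_mulVec]
  apply ext_ev
  intro x
  have h3 : star ((pm l Mᴴ) *ᵥ ev l x - (pm l M)ᴴ *ᵥ ev l x) = 0 := by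
    apply eq_zero_of_ev l
    intro t
    have h4 := key x ![(t : ℂ), 1]
    have h5 : star (∑ a, star ((pm l Mᴴ) *ᵥ ev l x - (pm l M)ᴴ *ᵥ ev l x) a
        * ev l ![(t : ℂ), 1] a) = 0 := by
      rw [star_sum]
      simp only [star_mul', Pi.star_apply, star_star, Pi.sub_apply]
      simp only [dotProduct, Pi.star_apply] at h4
      rw [← sub_eq_zero, ← Finset.sum_sub_distrib] at h4
      rw [← h4]
      apply Finset.sum_congr rfl
      intro a _
      ring
    exact star_eq_zero.1 h5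
  exact sub_eq_zero.1 (star_eq_zero.1 h3)

theorem pm_diag (l : ℕ) (M : Matrix (Fin 2) (Fin 2) ℂ) (h01 : M 0 1 = 0) (h10 : M 1 0 = 0) :
    (pm l M).trace = ∑ a : Fin (l + 1), M 0 0 ^ (a : ℕ) * M 1 1 ^ (l - (a : ℕ)) := by
  rw [Matrix.trace]
  apply Finset.sum_congr rfl
  intro a _
  have h1 : (Real.sqrt (l.choose a) / Real.sqrt (l.choose a) : ℝ) = 1 :=
    div_self (sqrt_choose_pos l a).ne'
  have h2 : (lin (M 0 0) (M 0 1)) ^ (a : ℕ) * (lin (M 1 0) (M 1 1)) ^ (l - (a : ℕ))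
      = C (M 0 0 ^ (a : ℕ) * M 1 1 ^ (l - (a : ℕ))) * X ^ (a : ℕ) := by
    simp [lin, mul_pow, h01, h10]
    ring
  simp only [Matrix.diag_apply, pm, Matrix.of_apply]
  rw [h1, h2, coeff_C_mul, coeff_X_pow]
  simp

theorem pm_apply (l : ℕ) (M : Matrix (Fin 2) (Fin 2) ℂ) (a b : Fin (l + 1)) :
    pm l M a b = ((Real.sqrt (l.choose a) / Real.sqrt (l.choose b) : ℝ) : ℂ) *
      ∑ x ∈ Finset.HasAntidiagonal.antidiagonal (b : ℕ),
        (M 0 0 ^ x.1 * M 0 1 ^ ((a : ℕ) - x.1) * ((a : ℕ).choose x.1 : ℂ)) *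
        (M 1 0 ^ x.2 * M 1 1 ^ ((l - (a : ℕ)) - x.2) * ((l - (a : ℕ)).choose x.2 : ℂ)) := by
  simp only [pm, Matrix.of_apply, coeff_mul, coeff_lin_pow]

/-! ## The representation -/

/-- the representation on `V_l` (an antihomomorphism, because it is `f(g) ↦ f(u g)`) -/
def rho (l : ℕ) (u : S3) : Matrix (Fin (l + 1)) (Fin (l + 1)) ℂ := (pm l (qmat u))ᵀ

theorem rho_mul (l : ℕ) (u v : S3) : rho l (u * v) = rho l v * rho l u := by
  simp only [rho, Metric.unitSphere.coe_mul, qmat_mul, pm_mul, Matrix.transpose_mul]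

theorem rho_one (l : ℕ) : rho l 1 = 1 := by
  simp only [rho, Metric.unitSphere.coe_one, qmat_one, pm_one, Matrix.transpose_one]

theorem S3_inv_coe (u : S3) : ((u⁻¹ : S3) : ℍ[ℝ]) = star (u : ℍ[ℝ]) := by
  rw [Metric.unitSphere.coe_inv]
  have h1 : ‖(u : ℍ[ℝ])‖ = 1 := mem_sphere_zero_iff_norm.1 u.2
  have h2 : (u : ℍ[ℝ]) * star (u : ℍ[ℝ]) = 1 := by
    rw [Quaternion.self_mul_star, Quaternion.normSq_eq_norm_mul_self, h1]
    simp
  exact (eq_inv_of_mul_eq_one_right h2).symm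

theorem rho_conjTranspose (l : ℕ) (u : S3) : (rho l u)ᴴ = rho l u⁻¹ := by
  simp only [rho, S3_inv_coe, qmat_star, pm_conjTranspose]
  ext i j
  simp [Matrix.conjTranspose_apply]

theorem rho_inv_mul (l : ℕ) (u : S3) : (rho l u)ᴴ * rho l u = 1 := by
  rw [rho_conjTranspose, ← rho_mul, mul_inv_cancel, rho_one]

theorem rho_mul_inv (l : ℕ) (u : S3) : rho l u * (rho l u)ᴴ = 1 := by
  rw [rho_conjTranspose, ← rho_mul, inv_mul_cancel, rho_one]

theorem continuous_rho (l : ℕ) : Continuous (rho l) := by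
  have hq : Continuous fun u : S3 => qmat u := by
    apply continuous_matrix
    intro i j
    have hre : Continuous fun u : S3 => (u : ℍ[ℝ]).re :=
      Quaternion.continuous_re.comp continuous_subtype_val
    have hi : Continuous fun u : S3 => (u : ℍ[ℝ]).imI :=
      Quaternion.continuous_imI.comp continuous_subtype_val
    have hj : Continuous fun u : S3 => (u : ℍ[ℝ]).imJ :=
      Quaternion.continuous_imJ.comp continuous_subtype_val
    have hk : Continuous fun u : S3 => (u : ℍ[ℝ]).imK :=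
      Quaternion.continuous_imK.comp continuous_subtype_val
    have hmk : ∀ f g : S3 → ℝ, Continuous f → Continuous g →
        Continuous fun u => (⟨f u, g u⟩ : ℂ) := by
      intro f g hf hg
      have : (fun u => (⟨f u, g u⟩ : ℂ)) = fun u => ((f u : ℝ) : ℂ) + ((g u : ℝ) : ℂ) * Complex.I := by
        ext u
        exact Complex.mk_eq_add_mul_I _ _
      rw [this]
      exact (Complex.continuous_ofReal.comp hf).add
        ((Complex.continuous_ofReal.comp hg).mul continuous_const)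
    fin_cases i <;> fin_cases j
    · exact hmk _ _ hre hi
    · exact hmk _ _ hj hk
    · exact hmk _ _ hj.neg hk
    · exact hmk _ _ hre hi.neg
  have hq' : ∀ i j, Continuous fun u : S3 => qmat u i j := fun i j => hq.matrix_elem i j
  apply continuous_matrix
  intro b a
  simp only [rho, Matrix.transpose_apply, pm_apply]
  refine continuous_const.mul (continuous_finsetSum _ fun x _ => ?_)
  exact ((((hq' 0 0).pow _).mul ((hq' 0 1).pow _)).mul continuous_const).mul
    ((((hq' 1 0).pow _).mul ((hq' 1 1).pow _)).mul continuous_const)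

/-- the functions `ev l (qcol g)` are transformed by `rho l` -/
theorem ev_qcol_mul (l : ℕ) (u : S3) (g : ℍ[ℝ]) (a : Fin (l + 1)) :
    ev l (qcol ((u : ℍ[ℝ]) * g)) a = ∑ b, rho l u b a * ev l (qcol g) b := by
  rw [qcol_mul, ← pm_mulVec_ev]
  simp only [Matrix.mulVec, dotProduct, rho, Matrix.transpose_apply]

/-! ## Circles -/

theorem norm_eq_one_of (g : ℍ[ℝ]) (h : g.re ^ 2 + g.imI ^ 2 + g.imJ ^ 2 + g.imK ^ 2 = 1) :
    ‖g‖ = 1 := by
  have h1 := Quaternion.normSq_eq_norm_mul_self g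
  rw [Quaternion.normSq_def'] at h1
  have h2 : ‖g‖ * ‖g‖ = 1 := by rw [← h1, h]
  nlinarith [norm_nonneg g]

theorem S3_sq (g : S3) : (g : ℍ[ℝ]).re ^ 2 + (g : ℍ[ℝ]).imI ^ 2 + (g : ℍ[ℝ]).imJ ^ 2
    + (g : ℍ[ℝ]).imK ^ 2 = 1 := by
  have h1 := Quaternion.normSq_eq_norm_mul_self (g : ℍ[ℝ])
  rw [Quaternion.normSq_def', mem_sphere_zero_iff_norm.1 g.2] at h1
  rw [h1]
  ring

/-- a quaternion from its coordinates -/
def mkq (a b c d : ℝ) : ℍ[ℝ] := ⟨a, b, c, d⟩

@[simp] theorem mkq_re (a b c d : ℝ) : (mkq a b c d).re = a := rfl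
@[simp] theorem mkq_imI (a b c d : ℝ) : (mkq a b c d).imI = b := rfl
@[simp] theorem mkq_imJ (a b c d : ℝ) : (mkq a b c d).imJ = c := rfl
@[simp] theorem mkq_imK (a b c d : ℝ) : (mkq a b c d).imK = d := rfl

/-- a unit quaternion from its coordinates -/
def mkS (a b c d : ℝ) (h : a ^ 2 + b ^ 2 + c ^ 2 + d ^ 2 = 1) : S3 :=
  ⟨mkq a b c d, mem_sphere_zero_iff_norm.2 (norm_eq_one_of _ h)⟩

/-- the circle through `i` -/
def eI (t : ℝ) : S3 := mkS (Real.cos t) (Real.sin t) 0 0 (by simp)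

/-- the circle through `j` -/
def eJ (t : ℝ) : S3 := mkS (Real.cos t) 0 (Real.sin t) 0 (by simp)

theorem eI_coe (t : ℝ) : (eI t : ℍ[ℝ]) = mkq (Real.cos t) (Real.sin t) 0 0 := rfl
theorem eJ_coe (t : ℝ) : (eJ t : ℍ[ℝ]) = mkq (Real.cos t) 0 (Real.sin t) 0 := rfl

/-- Euler angles -/
theorem euler (g : S3) : ∃ a b c : ℝ, g = eI a * eJ b * eI c := by
  set Z : ℂ := ⟨(g : ℍ[ℝ]).re, (g : ℍ[ℝ]).imI⟩ with hZ
  set W : ℂ := ⟨(g : ℍ[ℝ]).imJ, (g : ℍ[ℝ]).imK⟩ with hW
  have hsq : ‖Z‖ ^ 2 + ‖W‖ ^ 2 = 1 := by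
    rw [← Complex.normSq_eq_norm_sq, ← Complex.normSq_eq_norm_sq, Complex.normSq_apply,
      Complex.normSq_apply]
    have := S3_sq g
    simp only [hZ, hW]
    linarith
  set b := Real.arccos ‖Z‖ with hb
  have hZ1 : ‖Z‖ ≤ 1 := by nlinarith [norm_nonneg Z, norm_nonneg W]
  have hcos : Real.cos b = ‖Z‖ := Real.cos_arccos (by linarith [norm_nonneg Z]) hZ1
  have hsin : Real.sin b = ‖W‖ := by
    rw [hb, Real.sin_arccos]
    have : 1 - ‖Z‖ ^ 2 = ‖W‖ ^ 2 := by linarith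
    rw [this, Real.sqrt_sq (norm_nonneg W)]
  set φ := Complex.arg Z
  set ψ := Complex.arg W
  have hZe : ∀ X : ℂ, X.re = ‖X‖ * Real.cos (Complex.arg X) ∧
      X.im = ‖X‖ * Real.sin (Complex.arg X) := by
    intro X
    have h := Complex.norm_mul_cos_add_sin_mul_I X
    constructor
    · rw [Complex.norm_mul_cos_arg]
    · rw [Complex.norm_mul_sin_arg]
  refine ⟨(φ + ψ) / 2, b, (φ - ψ) / 2, ?_⟩
  have h1 := hZe Z
  have h2 := hZe W
  have hcs : Real.cos φ = Real.cos ((φ + ψ) / 2) * Real.cos ((φ - ψ) / 2)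
      - Real.sin ((φ + ψ) / 2) * Real.sin ((φ - ψ) / 2) := by
    rw [← Real.cos_add]; congr 1; ring
  have hsn : Real.sin φ = Real.sin ((φ + ψ) / 2) * Real.cos ((φ - ψ) / 2)
      + Real.cos ((φ + ψ) / 2) * Real.sin ((φ - ψ) / 2) := by
    rw [← Real.sin_add]; congr 1; ring
  have hcs' : Real.cos ψ = Real.cos ((φ + ψ) / 2) * Real.cos ((φ - ψ) / 2)
      + Real.sin ((φ + ψ) / 2) * Real.sin ((φ - ψ) / 2) := by
    rw [← Real.cos_sub]; congr 1; ring
  have hsn' : Real.sin ψ = Real.sin ((φ + ψ) / 2) * Real.cos ((φ - ψ) / 2)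
      - Real.cos ((φ + ψ) / 2) * Real.sin ((φ - ψ) / 2) := by
    rw [← Real.sin_sub]; congr 1; ring
  apply Subtype.ext
  have e1 : (g : ℍ[ℝ]).re = ‖Z‖ * Real.cos φ := h1.1
  have e2 : (g : ℍ[ℝ]).imI = ‖Z‖ * Real.sin φ := h1.2
  have e3 : (g : ℍ[ℝ]).imJ = ‖W‖ * Real.cos ψ := h2.1
  have e4 : (g : ℍ[ℝ]).imK = ‖W‖ * Real.sin ψ := h2.2
  rw [Metric.unitSphere.coe_mul, Metric.unitSphere.coe_mul, eI_coe, eJ_coe, eI_coe]
  ext
  · rw [e1, hcs, ← hcos]
    simp only [Quaternion.re_mul, Quaternion.imI_mul, Quaternion.imJ_mul, Quaternion.imK_mul,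
      mkq_re, mkq_imI, mkq_imJ, mkq_imK]
    ring
  · rw [e2, hsn, ← hcos]
    simp only [Quaternion.re_mul, Quaternion.imI_mul, Quaternion.imJ_mul, Quaternion.imK_mul,
      mkq_re, mkq_imI, mkq_imJ, mkq_imK]
    ring
  · rw [e3, hcs', ← hsin]
    simp only [Quaternion.re_mul, Quaternion.imI_mul, Quaternion.imJ_mul, Quaternion.imK_mul,
      mkq_re, mkq_imI, mkq_imJ, mkq_imK]
    ring
  · rw [e4, hsn', ← hsin]
    simp only [Quaternion.re_mul, Quaternion.imI_mul, Quaternion.imJ_mul, Quaternion.imK_mul,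
      mkq_re, mkq_imI, mkq_imJ, mkq_imK]
    ring

/-- every unit quaternion is conjugate to an element of the circle through `i` -/
theorem conj_eI (u : S3) : ∃ (h : S3) (t : ℝ), u = h * eI t * h⁻¹ ∧
    (u : ℍ[ℝ]).re = Real.cos t := by
  set r := (u : ℍ[ℝ]).re with hr
  set x := (u : ℍ[ℝ]).imI with hx
  set y := (u : ℍ[ℝ]).imJ with hy
  set z := (u : ℍ[ℝ]).imK with hz
  have hsq : r ^ 2 + x ^ 2 + y ^ 2 + z ^ 2 = 1 := S3_sq u
  by_cases hyz : y = 0 ∧ z = 0
  · obtain ⟨hy0, hz0⟩ := hyz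
    set Z : ℂ := ⟨r, x⟩ with hZ
    have hZn : ‖Z‖ = 1 := by
      have h1 : ‖Z‖ ^ 2 = 1 := by
        rw [← Complex.normSq_eq_norm_sq, Complex.normSq_apply]
        simp only [hZ]
        rw [hy0, hz0] at hsq
        linarith
      nlinarith [norm_nonneg Z]
    refine ⟨1, Complex.arg Z, ?_, ?_⟩
    · rw [one_mul, inv_one, mul_one]
      apply Subtype.ext
      have h1 := Complex.norm_mul_cos_arg Z
      have h2 := Complex.norm_mul_sin_arg Z
      rw [hZn, one_mul] at h1 h2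
      rw [eI_coe, h1, h2]
      ext
      · rfl
      · rfl
      · exact hy0
      · exact hz0
    · have h1 := Complex.norm_mul_cos_arg Z
      rw [hZn, one_mul] at h1
      rw [h1]
  · set s := Real.sqrt (x ^ 2 + y ^ 2 + z ^ 2) with hs
    have hs2 : s ^ 2 = x ^ 2 + y ^ 2 + z ^ 2 := Real.sq_sqrt (by positivity)
    have hs0 : 0 ≤ s := Real.sqrt_nonneg _
    have hpos : 0 < (s + x) ^ 2 + y ^ 2 + z ^ 2 := by
      by_contra hneg
      have h0 : (s + x) ^ 2 + y ^ 2 + z ^ 2 = 0 := le_antisymm (not_lt.1 hneg) (by positivity)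
      apply hyz
      constructor
      · nlinarith [sq_nonneg (s + x), sq_nonneg y, sq_nonneg z]
      · nlinarith [sq_nonneg (s + x), sq_nonneg y, sq_nonneg z]
    set k : ℝ := (Real.sqrt ((s + x) ^ 2 + y ^ 2 + z ^ 2))⁻¹ with hk
    have hk2 : k ^ 2 * ((s + x) ^ 2 + y ^ 2 + z ^ 2) = 1 := by
      rw [hk, inv_pow, Real.sq_sqrt hpos.le]
      field_simp
    have hkn : (k * (s + x)) ^ 2 + (0 : ℝ) ^ 2 + (k * (-z)) ^ 2 + (k * y) ^ 2 = 1 := by
      rw [← hk2]; ring
    let h : S3 := mkS (k * (s + x)) 0 (k * (-z)) (k * y) hkn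
    have hrs : r ^ 2 + s ^ 2 = 1 := by rw [hs2]; linarith
    have hr1 : -1 ≤ r := by nlinarith [sq_nonneg s]
    have hr2 : r ≤ 1 := by nlinarith [sq_nonneg s]
    refine ⟨h, Real.arccos r, ?_, (Real.cos_arccos hr1 hr2).symm⟩
    have hsin : Real.sin (Real.arccos r) = s := by
      rw [Real.sin_arccos]
      have : 1 - r ^ 2 = s ^ 2 := by linarith
      rw [this, Real.sqrt_sq hs0]
    have hcos : Real.cos (Real.arccos r) = r := Real.cos_arccos hr1 hr2
    have key : u * h = h * eI (Real.arccos r) := by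
      apply Subtype.ext
      have hu : (u : ℍ[ℝ]) = mkq r x y z := rfl
      have hh : (h : ℍ[ℝ]) = mkq (k * (s + x)) 0 (k * (-z)) (k * y) := rfl
      rw [Metric.unitSphere.coe_mul, Metric.unitSphere.coe_mul, eI_coe, hcos, hsin, hu, hh]
      ext
      · simp only [Quaternion.re_mul, mkq_re, mkq_imI, mkq_imJ, mkq_imK]
        ring
      · simp only [Quaternion.imI_mul, mkq_re, mkq_imI, mkq_imJ, mkq_imK]
        linear_combination (-k) * hs2
      · simp only [Quaternion.imJ_mul, mkq_re, mkq_imI, mkq_imJ, mkq_imK]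
        ring
      · simp only [Quaternion.imK_mul, mkq_re, mkq_imI, mkq_imJ, mkq_imK]
        ring
    rw [← key, mul_inv_cancel_right]

/-! ## The trace -/

theorem sum_pow_rec (z w : ℂ) (l : ℕ) :
    ∑ a ∈ Finset.range (l + 2), z ^ a * w ^ (l + 1 - a)
      = z * (∑ a ∈ Finset.range (l + 1), z ^ a * w ^ (l - a)) + w ^ (l + 1) := by
  rw [Finset.sum_range_succ', Finset.mul_sum]
  congr 1
  · apply Finset.sum_congr rfl
    intro a _
    have : l + 1 - (a + 1) = l - a := by omega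
    rw [this]
    ring
  · simp

theorem trace_rho (l : ℕ) (u : S3) :
    (rho l u).trace = (((Chebyshev.U ℝ (l : ℤ)).eval (u : ℍ[ℝ]).re : ℝ) : ℂ) := by
  obtain ⟨h, t, hu, hre⟩ := conj_eI u
  set S : ℕ → ℂ := fun l => ∑ a ∈ Finset.range (l + 1),
    (Complex.exp (t * Complex.I)) ^ a * (Complex.exp (-(t * Complex.I))) ^ (l - a) with hS
  have h1 : (rho l u).trace = S l := by
    have h2 : (rho l u).trace = (pm l (qmat (eI t))).trace := by
      have h3 : rho l u = rho l h⁻¹ * (rho l (eI t) * rho l h) := by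
        rw [hu, rho_mul, rho_mul]
      rw [h3, Matrix.trace_mul_comm, Matrix.mul_assoc, ← rho_mul, inv_mul_cancel, rho_one,
        Matrix.mul_one, rho, Matrix.trace_transpose]
    have h00 : qmat (eI t) 0 0 = Complex.exp (t * Complex.I) := by
      rw [eI_coe, Complex.exp_mul_I]
      apply Complex.ext <;>
        simp [qmat, Complex.cos_ofReal_re, Complex.sin_ofReal_re, Complex.cos_ofReal_im]
    have h11 : qmat (eI t) 1 1 = Complex.exp (-(t * Complex.I)) := by
      rw [eI_coe, ← neg_mul, Complex.exp_mul_I]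
      apply Complex.ext <;>
        simp [qmat, Complex.cos_ofReal_re, Complex.sin_ofReal_re, Complex.cos_ofReal_im]
    have h01 : qmat (eI t) 0 1 = 0 := by
      rw [eI_coe]
      apply Complex.ext <;> simp [qmat]
    have h10 : qmat (eI t) 1 0 = 0 := by
      rw [eI_coe]
      apply Complex.ext <;> simp [qmat]
    rw [h2, pm_diag l _ h01 h10, h00, h11, hS]
    exact Fin.sum_univ_eq_sum_range (fun a => (Complex.exp (t * Complex.I)) ^ a
      * (Complex.exp (-(t * Complex.I))) ^ (l - a)) (l + 1)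
  have hzw : Complex.exp (t * Complex.I) * Complex.exp (-(t * Complex.I)) = 1 := by
    rw [← Complex.exp_add]
    simp
  have hzpw : Complex.exp (t * Complex.I) + Complex.exp (-(t * Complex.I))
      = 2 * ((Real.cos t : ℝ) : ℂ) := by
    rw [Complex.ofReal_cos, Complex.cos, neg_mul]
    ring
  have hrec : ∀ l, S (l + 2) = 2 * ((Real.cos t : ℝ) : ℂ) * S (l + 1) - S l := by
    intro l
    have e1 : S (l + 2) = Complex.exp (t * Complex.I) * S (l + 1)
        + (Complex.exp (-(t * Complex.I))) ^ (l + 2) := by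
      rw [hS]
      exact sum_pow_rec _ _ (l + 1)
    have e2 : S (l + 1) = Complex.exp (t * Complex.I) * S l
        + (Complex.exp (-(t * Complex.I))) ^ (l + 1) := by
      rw [hS]
      exact sum_pow_rec _ _ l
    rw [e1, ← hzpw]
    have e3 : (Complex.exp (-(t * Complex.I))) ^ (l + 2)
        = Complex.exp (-(t * Complex.I)) * (S (l + 1) - Complex.exp (t * Complex.I) * S l) := by
      rw [e2]
      ring
    rw [e3]
    linear_combination (-(S l)) * hzw
  have hU : ∀ l : ℕ, S l = (((Chebyshev.U ℝ (l : ℤ)).eval (Real.cos t) : ℝ) : ℂ) ∧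
      S (l + 1) = (((Chebyshev.U ℝ ((l + 1 : ℕ) : ℤ)).eval (Real.cos t) : ℝ) : ℂ) := by
    intro l
    induction l with
    | zero =>
      constructor
      · simp [hS]
      · have e : S (0 + 1) = 2 * ((Real.cos t : ℝ) : ℂ) := by
          rw [← hzpw, hS]
          simp [Finset.sum_range_succ]
          ring
        rw [e]
        simp [Chebyshev.U_one]
    | succ l ih =>
      refine ⟨ih.2, ?_⟩
      rw [hrec, ih.1, ih.2]
      have e4 : (((l + 1 + 1 : ℕ) : ℤ)) = (l : ℤ) + 2 := by push_cast; ring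
      have e5 : (((l + 1 : ℕ) : ℤ)) = (l : ℤ) + 1 := by push_cast; ring
      rw [e4, Chebyshev.U_add_two, e5]
      simp only [eval_sub, eval_mul, eval_X, eval_ofNat]
      push_cast
      ring
  rw [h1, (hU l).1, hre]

/-! ## No fixed vectors -/

theorem ev_smul (l : ℕ) (c : ℂ) (x : Fin 2 → ℂ) (a : Fin (l + 1)) :
    ev l (c • x) a = c ^ l * ev l x a := by
  simp only [ev, Pi.smul_apply, smul_eq_mul, mul_pow]
  have h : c ^ l = c ^ (a : ℕ) * c ^ (l - (a : ℕ)) := by
    rw [← pow_add]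
    congr 1
    have := a.2
    omega
  rw [h]
  ring

theorem qcol_mul_eI (g : ℍ[ℝ]) (t : ℝ) :
    qcol (g * (eI t : ℍ[ℝ])) = Complex.exp (t * Complex.I) • qcol g := by
  rw [eI_coe, Complex.exp_mul_I]
  ext i
  fin_cases i
  · apply Complex.ext <;>
      simp [qcol, Complex.cos_ofReal_re, Complex.sin_ofReal_re, Complex.cos_ofReal_im] <;> ring
  · apply Complex.ext <;>
      simp [qcol, Complex.cos_ofReal_re, Complex.sin_ofReal_re, Complex.cos_ofReal_im] <;> ring

/-- A vector fixed by the circles through `i` and `j` is zero if `l ≥ 1`. -/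
theorem no_fixed (l : ℕ) (hl : 1 ≤ l) (v : Fin (l + 1) → ℂ)
    (hI : ∀ t : ℝ, rho l (eI t) *ᵥ v = v) (hJ : ∀ t : ℝ, rho l (eJ t) *ᵥ v = v) : v = 0 := by
  have hall : ∀ g : S3, rho l g *ᵥ v = v := by
    intro g
    obtain ⟨a, b, c, rfl⟩ := euler g
    rw [rho_mul, rho_mul, ← Matrix.mulVec_mulVec, ← Matrix.mulVec_mulVec, hI, hJ, hI]
  have hF : ∀ g : S3, ∑ a, v a * ev l (qcol g) a = ∑ a, v a * ev l (qcol 1) a := by
    intro g
    have h1 : ∀ a, ev l (qcol g) a = ∑ b, rho l g b a * ev l (qcol 1) b := by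
      intro a
      rw [← ev_qcol_mul, mul_one]
    simp only [h1, Finset.mul_sum]
    rw [Finset.sum_comm]
    apply Finset.sum_congr rfl
    intro b _
    have h2 := congrFun (hall g) b
    simp only [Matrix.mulVec, dotProduct] at h2
    conv_rhs => rw [← h2]
    rw [Finset.sum_mul]
    apply Finset.sum_congr rfl
    intro a _
    ring
  have hc : ∑ a, v a * ev l (qcol 1) a = 0 := by
    have h1 := hF (eI (Real.pi / l))
    have h2 : qcol (eI (Real.pi / l)) = Complex.exp ((Real.pi / l : ℝ) * Complex.I) • qcol 1 := by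
      rw [← qcol_mul_eI, one_mul]
    rw [h2] at h1
    simp only [ev_smul] at h1
    have h3 : Complex.exp ((Real.pi / l : ℝ) * Complex.I) ^ l = -1 := by
      rw [← Complex.exp_nat_mul, ← Complex.exp_pi_mul_I]
      congr 1
      have : (l : ℂ) ≠ 0 := by
        exact_mod_cast (by omega : l ≠ 0)
      push_cast
      field_simp
    rw [h3] at h1
    have h4 : ∑ a, v a * (-1 * ev l (qcol 1) a) = - ∑ a, v a * ev l (qcol 1) a := by
      rw [← Finset.sum_neg_distrib]
      apply Finset.sum_congr rfl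
      intro a _
      ring
    rw [h4] at h1
    linear_combination (-1 / 2 : ℂ) * h1
  apply eq_zero_of_ev l
  intro t
  set n : ℝ := Real.sqrt (t ^ 2 + 1) with hn
  have hn2 : n ^ 2 = t ^ 2 + 1 := Real.sq_sqrt (by positivity)
  have hn0 : n ≠ 0 := by
    intro h
    rw [h] at hn2
    nlinarith [sq_nonneg t]
  have hg : (t / n) ^ 2 + (0 : ℝ) ^ 2 + (-(1 / n)) ^ 2 + (0 : ℝ) ^ 2 = 1 := by
    field_simp
    rw [hn2]
    ring
  have h1 : (![(t : ℂ), 1] : Fin 2 → ℂ) = (n : ℂ) • qcol (mkS (t / n) 0 (-(1 / n)) 0 hg) := by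
    ext i
    have hq : ((mkS (t / n) 0 (-(1 / n)) 0 hg : S3) : ℍ[ℝ]) = mkq (t / n) 0 (-(1 / n)) 0 := rfl
    rw [hq]
    fin_cases i
    · apply Complex.ext
      · simp [qcol]
        field_simp
      · simp [qcol]
    · apply Complex.ext
      · simp [qcol, hn0]
      · simp [qcol]
  rw [h1]
  simp only [ev_smul]
  have h2 := hF (mkS (t / n) 0 (-(1 / n)) 0 hg)
  rw [hc] at h2
  have h3 : ∑ a, v a * ((n : ℂ) ^ l * ev l (qcol (mkS (t / n) 0 (-(1 / n)) 0 hg)) a)
      = (n : ℂ) ^ l * ∑ a, v a * ev l (qcol (mkS (t / n) 0 (-(1 / n)) 0 hg)) a := by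
    rw [Finset.mul_sum]
    apply Finset.sum_congr rfl
    intro a _
    ring
  rw [h3, h2, mul_zero]

end

end Pool.Agent.BQ
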