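import Mathlib

/-!
# BQ block P: the angle of an integer quaternion of norm `p` in a circle is irrational

(PAPER.md (9.7)): if `c ^ 2 + b ^ 2 = p` is a prime not dividing `2 c b` and
`cos ψ = c / √p`, `sin ψ = b / √p`, then `ψ / π` is irrational, so the multiples of `2 ψ` are
dense in the circle.
-/

namespace BQP

open Complex

theorem pow_mod {p c b : ℤ} (h : c ^ 2 + b ^ 2 = p) (m : ℕ) : ∃ x y : ℤ,
    ((c : ℂ) + b * I) ^ (m + 1) = (2 * c : ℂ) ^ m * (c + b * I) + p * (x + y * I) := by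
  induction m with
  | zero => exact ⟨0, 0, by simp⟩
  | succ m ih =>
    obtain ⟨x, y, e⟩ := ih
    have hp : (p : ℂ) = c ^ 2 + b ^ 2 := by
      rw [← h]
      push_cast
      ring
    have h2 : ((c : ℂ) + b * I) ^ 2 = 2 * c * (c + b * I) - p := by
      rw [hp]
      have : I ^ 2 = -1 := I_sq
      linear_combination (b : ℂ) ^ 2 * this
    refine ⟨x * c - y * b - (2 * c) ^ m, x * b + y * c, ?_⟩
    rw [pow_succ, e]
    push_cast
    have h3 : (p : ℂ) * (x + y * I) * (c + b * I) =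
        p * ((x * c - y * b) + (x * b + y * c) * I) := by
      have : I ^ 2 = -1 := I_sq
      linear_combination (p : ℂ) * y * b * this
    linear_combination (2 * (c : ℂ)) ^ m * h2 + h3

theorem pow_ne {p c b : ℤ} (hp : Prime p) (h : c ^ 2 + b ^ 2 = p) (hc : ¬ p ∣ 2 * c)
    (hb : ¬ p ∣ b) (m : ℕ) (r : ℝ) : ((c : ℂ) + b * I) ^ (m + 1) ≠ r := by
  intro h1
  obtain ⟨x, y, e⟩ := pow_mod h m
  rw [h1] at e
  have h2 : ((2 * c : ℂ)) ^ m = (((2 * c) ^ m : ℤ) : ℂ) := by push_cast; ring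
  rw [h2] at e
  have h3 := congrArg Complex.im e
  simp only [ofReal_im, add_im, mul_im, intCast_re, intCast_im, I_re, I_im, add_re, mul_re] at h3
  have h4 : (0 : ℝ) = (((2 * c) ^ m * b + p * y : ℤ) : ℝ) := by
    rw [h3]
    push_cast
    ring
  have h5 : (0 : ℤ) = (2 * c) ^ m * b + p * y := by exact_mod_cast h4
  have h6 : p ∣ (2 * c) ^ m * b := ⟨-y, by linear_combination -h5⟩
  rcases hp.dvd_or_dvd h6 with h7 | h7
  · exact hc (hp.dvd_of_dvd_pow h7)
  · exact hb h7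

theorem irr {p : ℕ} {c b : ℤ} (hp : p.Prime) (h : c ^ 2 + b ^ 2 = p)
    (hc : ¬ (p : ℤ) ∣ 2 * c) (hb : ¬ (p : ℤ) ∣ b) {ψ : ℝ} (h1 : Real.cos ψ = c / Real.sqrt p)
    (h2 : Real.sin ψ = b / Real.sqrt p) : Irrational (2 * ψ / (2 * Real.pi)) := by
  have hs : 0 < Real.sqrt p := Real.sqrt_pos.2 (by exact_mod_cast hp.pos)
  have hz : Complex.exp (ψ * I) = ((c : ℂ) + b * I) / (Real.sqrt p : ℂ) := by
    rw [Complex.exp_mul_I, ← Complex.ofReal_cos, ← Complex.ofReal_sin, h1, h2]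
    push_cast
    field_simp
  intro hrat
  obtain ⟨r, hr⟩ := hrat
  have hk : (0 : ℕ) < r.den := r.den_pos
  have hpi := Real.pi_ne_zero
  have h3 : (ψ : ℝ) * r.den = Real.pi * r.num := by
    have h4 : (r : ℝ) = ψ / Real.pi := by
      rw [hr]
      field_simp
    have h5 : (r : ℝ) = r.num / r.den := by
      exact_mod_cast (Rat.num_div_den r).symm
    rw [h5, div_eq_div_iff (by exact_mod_cast hk.ne') hpi] at h4
    linarith
  have h4 : Complex.exp (ψ * I) ^ (2 * r.den) = 1 := by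
    rw [← Complex.exp_nat_mul]
    have : ((2 * r.den : ℕ) : ℂ) * (ψ * I) = (r.num : ℤ) * (2 * Real.pi * I) := by
      have h5 : (ψ : ℂ) * (r.den : ℂ) = Real.pi * r.num := by exact_mod_cast h3
      push_cast
      linear_combination 2 * I * h5
    rw [this, Complex.exp_int_mul_two_pi_mul_I]
  rw [hz, div_pow, div_eq_one_iff_eq (pow_ne_zero _ (by exact_mod_cast hs.ne'))] at h4
  obtain ⟨m, hm⟩ : ∃ m, 2 * r.den = m + 1 := ⟨2 * r.den - 1, by omega⟩
  rw [hm] at h4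
  have hp' : Prime (p : ℤ) := Nat.prime_iff_prime_int.1 hp
  exact pow_ne hp' h hc hb m ((Real.sqrt p) ^ (m + 1)) (by rw [h4]; push_cast; rfl)

/-- a closed subgroup of `ℝ` with `2 ψ` and `2 π` is everything -/
theorem all_of_irr {H : AddSubgroup ℝ} (hH : IsClosed (H : Set ℝ)) {ψ : ℝ}
    (hi : Irrational (2 * ψ / (2 * Real.pi))) (h1 : 2 * ψ ∈ H) (h2 : 2 * Real.pi ∈ H) (t : ℝ) :
    t ∈ H := by
  have hd : Dense (AddSubgroup.closure {2 * ψ, 2 * Real.pi} : Set ℝ) :=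
    dense_addSubgroupClosure_pair_iff.2 hi
  have hle : AddSubgroup.closure {2 * ψ, 2 * Real.pi} ≤ H := by
    rw [AddSubgroup.closure_le]
    intro x hx
    rcases hx with rfl | hx
    · exact h1
    · rw [Set.mem_singleton_iff.1 hx]
      exact h2
  have h3 : closure (AddSubgroup.closure {2 * ψ, 2 * Real.pi} : Set ℝ) ⊆ H :=
    closure_minimal hle hH
  exact h3 (hd t)

/-- a prime `p ≡ 1 mod 4` is a sum of the squares of an odd and an even number -/
theorem two_sq {p : ℕ} (hp : p.Prime) (h4 : p % 4 = 1) : ∃ a b : ℤ, a ^ 2 + b ^ 2 = p ∧ Odd a ∧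
    Even b ∧ ¬ (p : ℤ) ∣ 2 * a ∧ ¬ (p : ℤ) ∣ b := by
  haveI := Fact.mk hp
  have hp' : Prime (p : ℤ) := Nat.prime_iff_prime_int.1 hp
  have key : ∀ a b : ℤ, a ^ 2 + b ^ 2 = p → ¬ (p : ℤ) ∣ a := by
    intro a b hab hd
    have hdb : (p : ℤ) ∣ b := by
      have h1 : (p : ℤ) ∣ b ^ 2 := by
        have : b ^ 2 = p - a ^ 2 := by linarith
        rw [this]
        exact dvd_sub dvd_rfl (dvd_pow hd (by norm_num))
      exact hp'.dvd_of_dvd_pow h1
    obtain ⟨x, rfl⟩ := hd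
    obtain ⟨y, rfl⟩ := hdb
    have h1 : (p : ℤ) * (p * (x ^ 2 + y ^ 2) - 1) = 0 := by linear_combination hab
    rcases mul_eq_zero.1 h1 with h2 | h2
    · exact hp'.ne_zero h2
    · have h3 : (p : ℤ) ∣ 1 := ⟨x ^ 2 + y ^ 2, by linarith⟩
      exact hp'.not_unit (isUnit_of_dvd_one h3)
  have fin : ∀ a b : ℤ, a ^ 2 + b ^ 2 = p → Odd a → Even b → ¬ (p : ℤ) ∣ 2 * a ∧ ¬ (p : ℤ) ∣ b := by
    intro a b hab _ _
    refine ⟨fun hd => ?_, key b a (by rw [add_comm]; exact hab)⟩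
    rcases hp'.dvd_or_dvd hd with h1 | h1
    · have h2 : (p : ℤ) ≤ 2 := Int.le_of_dvd (by norm_num) h1
      have h3 : p ≤ 2 := by exact_mod_cast h2
      have := hp.two_le
      omega
    · exact key a b hab h1
  obtain ⟨a, b, hab⟩ := Nat.Prime.sq_add_sq (p := p) (by omega)
  have hab' : (a : ℤ) ^ 2 + (b : ℤ) ^ 2 = p := by exact_mod_cast hab
  have hodd : Odd ((a : ℤ) ^ 2 + (b : ℤ) ^ 2) := by
    rw [hab']
    have : p % 2 = 1 := by omega
    exact_mod_cast Nat.odd_iff.2 this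
  rcases Int.even_or_odd (a : ℤ) with ha | ha
  · have hb : Odd (b : ℤ) := by
      by_contra hc
      rw [Int.not_odd_iff_even] at hc
      have h1 : Even ((a : ℤ) ^ 2 + (b : ℤ) ^ 2) :=
        (ha.pow_of_ne_zero (by norm_num)).add (hc.pow_of_ne_zero (by norm_num))
      exact (Int.not_even_iff_odd.2 hodd) h1
    have h2 : (b : ℤ) ^ 2 + (a : ℤ) ^ 2 = p := by rw [add_comm]; exact hab'
    exact ⟨b, a, h2, hb, ha, fin b a h2 hb ha⟩
  · have hb : Even (b : ℤ) := by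
      by_contra hc
      rw [Int.not_even_iff_odd] at hc
      have h1 : Even ((a : ℤ) ^ 2 + (b : ℤ) ^ 2) := (ha.pow).add_odd (hc.pow)
      exact (Int.not_even_iff_odd.2 hodd) h1
    exact ⟨a, b, hab', ha, hb, fin a b hab' ha hb⟩

end BQP
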