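import Mathlib
import Pool.Agent.BQ.Defs
import Pool.Agent.BQ.H_Rho
import Pool.Agent.BQ.P_Irr

/-!
# BQ block P: for each `l ≥ 1` the Hecke operator of a prime has norm less than its degree

(PAPER.md (9.7)).
-/

open Quaternion Matrix
open scoped Matrix.Norms.L2Operator

namespace BQP

open BQA Pool.Agent.BQ

/-! ## Abstract form -/

section abs

variable {E : Type*} [NormedAddCommGroup E] [InnerProductSpace ℂ E]

theorem eq_of_norm_sum {ι : Type*} (s : Finset ι) (x : ι → E) (hx : ∀ q ∈ s, ‖x q‖ = 1)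
    (hw : ‖∑ q ∈ s, x q‖ = (s.card : ℝ)) : ∀ q ∈ s, (s.card : ℂ) • x q = ∑ q ∈ s, x q := by
  set w := ∑ q ∈ s, x q with hwd
  set N : ℝ := (s.card : ℝ) with hN
  have h1 : ∑ q ∈ s, ‖(s.card : ℂ) • x q - w‖ ^ 2 = 0 := by
    have h2 : ∀ q ∈ s, ‖(s.card : ℂ) • x q - w‖ ^ 2 =
        2 * N ^ 2 - 2 * N * RCLike.re (inner ℂ (x q) w) := by
      intro q hq
      rw [@norm_sub_sq ℂ, norm_smul, hx q hq, hw, inner_smul_left]
      have h3 : (starRingEnd ℂ) (s.card : ℂ) = ((N : ℝ) : ℂ) := by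
        rw [hN]
        simp
      rw [h3]
      have h4 : RCLike.re (((N : ℝ) : ℂ) * inner ℂ (x q) w) = N * RCLike.re (inner ℂ (x q) w) := by
        exact RCLike.re_ofReal_mul N _
      rw [h4]
      have h5 : ‖(s.card : ℂ)‖ = N := by simp [hN]
      rw [h5]
      ring
    have h3 : ∑ q ∈ s, RCLike.re (inner ℂ (x q) w) = N ^ 2 := by
      rw [← map_sum, ← sum_inner, ← hwd, inner_self_eq_norm_sq, hw]
    rw [Finset.sum_congr rfl h2, Finset.sum_sub_distrib, Finset.sum_const, nsmul_eq_mul,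
      ← Finset.mul_sum, h3]
    ring
  intro q hq
  have h2 := (Finset.sum_eq_zero_iff_of_nonneg (fun q _ => by positivity)).1 h1 q hq
  have h3 : ‖(s.card : ℂ) • x q - w‖ = 0 := by
    exact pow_eq_zero_iff (two_ne_zero) |>.1 h2
  exact sub_eq_zero.1 (norm_eq_zero.1 h3)

theorem gap_abs [FiniteDimensional ℂ E] [Nontrivial E] {ι : Type*} (s : Finset ι)
    (U : ι → E →L[ℂ] E) (hU : ∀ q ∈ s, ∀ x, ‖U q x‖ = ‖x‖)
    (hinv : ∀ q ∈ s, ∃ q' ∈ s, ∀ x, U q (U q' x) = x)
    (hfix : ∀ v : E, (∀ q ∈ s, U q (U q v) = v) → v = 0) :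
    ‖∑ q ∈ s, U q‖ < s.card := by
  set T := ∑ q ∈ s, U q with hT
  have hTx : ∀ x, T x = ∑ q ∈ s, U q x := by
    intro x
    rw [hT, _root_.sum_apply]
  have : FiniteDimensional ℝ E := FiniteDimensional.complexToReal E
  have : ProperSpace E := FiniteDimensional.proper ℝ E
  have hcomp : IsCompact (Metric.sphere (0 : E) 1) := isCompact_sphere 0 1
  have hne : (Metric.sphere (0 : E) 1).Nonempty := by
    obtain ⟨x, hx⟩ := exists_ne (0 : E)
    refine ⟨((‖x‖⁻¹ : ℝ) : ℂ) • x, ?_⟩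
    rw [mem_sphere_zero_iff_norm, norm_smul, Complex.norm_real, norm_inv, norm_norm,
      inv_mul_cancel₀ (norm_ne_zero_iff.2 hx)]
  obtain ⟨x0, hx0, hmax⟩ := hcomp.exists_isMaxOn hne
    (f := fun x => ‖T x‖) (T.continuous.norm.continuousOn)
  have hx0' : ‖x0‖ = 1 := mem_sphere_zero_iff_norm.1 hx0
  have h1 : ‖T‖ ≤ ‖T x0‖ := by
    refine ContinuousLinearMap.opNorm_le_bound _ (norm_nonneg _) fun x => ?_
    by_cases hx : x = 0
    · rw [hx]
      simp
    · have hnx : ‖x‖ ≠ 0 := norm_ne_zero_iff.2 hx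
      have h2 : ((‖x‖⁻¹ : ℝ) : ℂ) • x ∈ Metric.sphere (0 : E) 1 := by
        rw [mem_sphere_zero_iff_norm, norm_smul, Complex.norm_real, norm_inv, norm_norm,
          inv_mul_cancel₀ hnx]
      have h3 : ‖T (((‖x‖⁻¹ : ℝ) : ℂ) • x)‖ ≤ ‖T x0‖ := hmax h2
      rw [map_smul, norm_smul, Complex.norm_real, norm_inv, norm_norm] at h3
      rw [inv_mul_le_iff₀ (by positivity)] at h3
      linarith
  have h2 : ‖T x0‖ ≤ s.card := by
    rw [hTx]
    refine (norm_sum_le _ _).trans ?_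
    rw [Finset.sum_congr rfl (fun q hq => (hU q hq x0).trans hx0')]
    simp
  rcases h2.lt_or_eq with h3 | h3
  · exact h1.trans_lt h3
  · exfalso
    rw [hTx] at h3
    have h4 := eq_of_norm_sum s (fun q => U q x0) (fun q hq => (hU q hq x0).trans hx0') h3
    rcases s.eq_empty_or_nonempty with hs | hs
    · rw [hs] at h4 h3 hfix
      have := hfix x0 (fun q hq => by simp at hq)
      rw [this] at hx0'
      simp at hx0'
    have hcard : (s.card : ℂ) ≠ 0 := by
      exact_mod_cast (Finset.card_pos.2 hs).ne'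
    have h5 : ∀ q ∈ s, ∀ q' ∈ s, U q x0 = U q' x0 := by
      intro q hq q' hq'
      have h6 : (s.card : ℂ) • U q x0 = (s.card : ℂ) • U q' x0 := (h4 q hq).trans (h4 q' hq').symm
      exact smul_right_injective _ hcard h6
    have h6 : x0 = 0 := by
      apply hfix
      intro q hq
      obtain ⟨q', hq', h7⟩ := hinv q hq
      rw [h5 q hq q' hq', h7]
    rw [h6] at hx0'
    simp at hx0'

end abs

/-! ## The operators -/

/-- the operator of `sph m` in the representation `rho l` -/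
noncomputable def Tm (l m : ℕ) : Matrix (Fin (l + 1)) (Fin (l + 1)) ℂ :=
  ∑ q ∈ sph m, rho l (usp q)

theorem toCLM_apply_apply {N : ℕ} (A B : Matrix (Fin N) (Fin N) ℂ)
    (x : EuclideanSpace ℂ (Fin N)) :
    Matrix.toEuclideanCLM (n := Fin N) (𝕜 := ℂ) A
      (Matrix.toEuclideanCLM (n := Fin N) (𝕜 := ℂ) B x) =
    Matrix.toEuclideanCLM (n := Fin N) (𝕜 := ℂ) (A * B) x := by
  rw [map_mul]
  rfl

theorem norm_rho_apply (l : ℕ) (u : BQA.S3) (x : EuclideanSpace ℂ (Fin (l + 1))) :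
    ‖Matrix.toEuclideanCLM (n := Fin (l + 1)) (𝕜 := ℂ) (rho l u) x‖ = ‖x‖ := by
  have h1 : ∀ (u : BQA.S3), ‖Matrix.toEuclideanCLM (n := Fin (l + 1)) (𝕜 := ℂ) (rho l u)‖ ≤ 1 := by
    intro u
    rw [Matrix.l2_opNorm_toEuclideanCLM]
    have h2 : ‖(rho l u)ᴴ * rho l u‖ = ‖rho l u‖ * ‖rho l u‖ :=
      Matrix.l2_opNorm_conjTranspose_mul_self _
    rw [rho_inv_mul] at h2
    have h3 : ‖(1 : Matrix (Fin (l + 1)) (Fin (l + 1)) ℂ)‖ = 1 := CStarRing.norm_one
    rw [h3] at h2
    nlinarith [norm_nonneg (rho l u)]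
  apply le_antisymm
  · refine (ContinuousLinearMap.le_opNorm _ _).trans ?_
    calc _ ≤ 1 * ‖x‖ := by gcongr; exact h1 u
      _ = ‖x‖ := one_mul _
  · have h2 : x = Matrix.toEuclideanCLM (n := Fin (l + 1)) (𝕜 := ℂ) (rho l u⁻¹)
        (Matrix.toEuclideanCLM (n := Fin (l + 1)) (𝕜 := ℂ) (rho l u) x) := by
      rw [toCLM_apply_apply, ← rho_mul, mul_inv_cancel, rho_one, map_one]
      rfl
    conv_lhs => rw [h2]
    refine (ContinuousLinearMap.le_opNorm _ _).trans ?_
    calc _ ≤ 1 * ‖_‖ := by gcongr; exact h1 u⁻¹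
      _ = _ := one_mul _

theorem norm_rho_le (l : ℕ) (u : BQA.S3) : ‖rho l u‖ ≤ 1 := by
  rw [← Matrix.l2_opNorm_toEuclideanCLM]
  refine ContinuousLinearMap.opNorm_le_bound _ zero_le_one fun x => ?_
  rw [norm_rho_apply, one_mul]

theorem norm_Tm_le (l m : ℕ) : ‖Tm l m‖ ≤ Rp m := by
  unfold Tm Rp
  refine (norm_sum_le _ _).trans ?_
  calc ∑ q ∈ sph m, ‖rho l (usp q)‖ ≤ ∑ q ∈ sph m, (1 : ℝ) :=
        Finset.sum_le_sum fun q _ => norm_rho_le l _
    _ = _ := by simp

theorem Tm_conj (l m : ℕ) : (Tm l m)ᴴ = Tm l m := by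
  unfold Tm
  rw [Matrix.conjTranspose_sum]
  refine Finset.sum_nbij' (fun q => star q) (fun q => star q) (fun q hq => star_mem_sph hq)
    (fun q hq => star_mem_sph hq) (fun q _ => star_star q) (fun q _ => star_star q)
    (fun q _ => ?_)
  rw [rho_conjTranspose, usp_star]

theorem Tm_selfAdjoint (l m : ℕ) : IsSelfAdjoint (Tm l m) := Tm_conj l m

/-! ## Elements of the two circles -/

theorem eI_add (s t : ℝ) : eI (s + t) = eI s * eI t := by
  apply Subtype.ext
  rw [Metric.unitSphere.coe_mul, eI_coe, eI_coe, eI_coe, Real.cos_add, Real.sin_add]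
  ext <;> simp <;> try ring

theorem eJ_add (s t : ℝ) : eJ (s + t) = eJ s * eJ t := by
  apply Subtype.ext
  rw [Metric.unitSphere.coe_mul, eJ_coe, eJ_coe, eJ_coe, Real.cos_add, Real.sin_add]
  ext <;> simp <;> try ring

theorem eI_zero : eI 0 = 1 := by
  apply Subtype.ext
  rw [Metric.unitSphere.coe_one, eI_coe]
  ext <;> simp

theorem eJ_zero : eJ 0 = 1 := by
  apply Subtype.ext
  rw [Metric.unitSphere.coe_one, eJ_coe]
  ext <;> simp

theorem eI_two_pi : eI (2 * Real.pi) = 1 := by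
  rw [← eI_zero]
  apply Subtype.ext
  rw [eI_coe, eI_coe, Real.cos_two_pi, Real.sin_two_pi, Real.cos_zero, Real.sin_zero]

theorem eJ_two_pi : eJ (2 * Real.pi) = 1 := by
  rw [← eJ_zero]
  apply Subtype.ext
  rw [eJ_coe, eJ_coe, Real.cos_two_pi, Real.sin_two_pi, Real.cos_zero, Real.sin_zero]

theorem mkq_eq (a b c d : ℝ) : mkq a b c d = Quaternion.coe a +
    (b • mkq 0 1 0 0 + c • mkq 0 0 1 0 + d • mkq 0 0 0 1) := by
  ext <;> simp

theorem continuous_mkq {f g h k : ℝ → ℝ} (hf : Continuous f) (hg : Continuous g)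
    (hh : Continuous h) (hk : Continuous k) : Continuous fun t => mkq (f t) (g t) (h t) (k t) := by
  have : (fun t => mkq (f t) (g t) (h t) (k t)) = fun t => Quaternion.coe (f t) +
      (g t • mkq 0 1 0 0 + h t • mkq 0 0 1 0 + k t • mkq 0 0 0 1) := by
    funext t
    exact mkq_eq _ _ _ _
  rw [this]
  exact (Quaternion.continuous_coe.comp hf).add (((hg.smul continuous_const).add
    (hh.smul continuous_const)).add (hk.smul continuous_const))

theorem continuous_eI : Continuous eI := by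
  apply Continuous.subtype_mk
  exact continuous_mkq Real.continuous_cos Real.continuous_sin continuous_const continuous_const

theorem continuous_eJ : Continuous eJ := by
  apply Continuous.subtype_mk
  exact continuous_mkq Real.continuous_cos continuous_const Real.continuous_sin continuous_const

/-- the stabiliser of a vector in a one parameter subgroup -/
noncomputable def stabOf (l : ℕ) (v : Fin (l + 1) → ℂ) (e : ℝ → BQA.S3) (h0 : e 0 = 1)
    (ha : ∀ s t, e (s + t) = e s * e t) : AddSubgroup ℝ where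
  carrier := {t | rho l (e t) *ᵥ v = v}
  zero_mem' := by
    rw [Set.mem_ofPred_eq, h0, rho_one, one_mulVec]
  add_mem' := by
    intro s t hs ht
    rw [Set.mem_ofPred_eq] at hs ht ⊢
    rw [ha, rho_mul, ← mulVec_mulVec, hs, ht]
  neg_mem' := by
    intro t ht
    rw [Set.mem_ofPred_eq] at ht ⊢
    have h1 : rho l (e t) * rho l (e (-t)) = 1 := by
      rw [← rho_mul, ← ha, neg_add_cancel, h0, rho_one]
    have h2 : rho l (e (-t)) * rho l (e t) = 1 := by
      rw [← rho_mul, ← ha, add_neg_cancel, h0, rho_one]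
    calc rho l (e (-t)) *ᵥ v = rho l (e (-t)) *ᵥ (rho l (e t) *ᵥ v) := by rw [ht]
      _ = v := by rw [mulVec_mulVec, h2, one_mulVec]

theorem isClosed_stabOf (l : ℕ) (v : Fin (l + 1) → ℂ) (e : ℝ → BQA.S3) (h0 : e 0 = 1)
    (ha : ∀ s t, e (s + t) = e s * e t) (hc : Continuous e) :
    IsClosed (stabOf l v e h0 ha : Set ℝ) := by
  change IsClosed {t | rho l (e t) *ᵥ v = v}
  apply isClosed_eq _ continuous_const
  exact ((continuous_rho l).comp hc).matrix_mulVec continuous_const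

theorem norm_qR {q : ℍ[ℤ]} {m : ℕ} (hq : normSq q = m) : ‖qR q‖ = Real.sqrt m := by
  have h1 := Quaternion.normSq_eq_norm_mul_self (qR q)
  rw [normSq_qR, hq] at h1
  have h2 : Real.sqrt m = Real.sqrt (‖qR q‖ * ‖qR q‖) := by
    rw [← h1]
    norm_cast
  rw [h2, Real.sqrt_mul_self (norm_nonneg _)]

theorem qR_ne_of {q : ℍ[ℤ]} {m : ℕ} (hm : 0 < m) (hq : normSq q = m) : qR q ≠ 0 := by
  rw [← norm_ne_zero_iff, norm_qR hq]
  exact (Real.sqrt_pos.2 (by exact_mod_cast hm)).ne'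

/-- elements of `sph p` in both circles with the same angle -/
theorem exists_circle {p : ℕ} (hp : p.Prime) (h4 : p % 4 = 1) : ∃ ψ : ℝ,
    Irrational (2 * ψ / (2 * Real.pi)) ∧ (∃ q ∈ sph p, usp q = eI ψ) ∧
    (∃ q ∈ sph p, usp q = eJ ψ) := by
  obtain ⟨a, b, hab, ha, hb, h2a, hpb⟩ := two_sq hp h4
  set z : ℂ := ⟨-a, b⟩ with hz
  have hp0 : (0 : ℝ) < p := by exact_mod_cast hp.pos
  have hnz : ‖z‖ = Real.sqrt p := by
    rw [Complex.norm_def, Complex.normSq_apply]
    congr 1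
    have : (a : ℝ) ^ 2 + (b : ℝ) ^ 2 = p := by exact_mod_cast hab
    simp only [hz]
    linarith
  have hs : Real.sqrt p ≠ 0 := (Real.sqrt_pos.2 hp0).ne'
  have hz0 : z ≠ 0 := by
    rw [← norm_ne_zero_iff, hnz]
    exact hs
  refine ⟨z.arg, ?_, ?_, ?_⟩
  · refine irr hp (c := -a) (b := b) (by rw [neg_sq]; exact hab) ?_ hpb ?_ ?_
    · rw [mul_neg, dvd_neg]
      exact h2a
    · rw [Complex.cos_arg hz0, hnz]
      simp [hz]
    · rw [Complex.sin_arg, hnz]
  · have hn : normSq (mk4 a b 0 0 : ℍ[ℤ]) = (p : ℕ) := by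
      rw [Quaternion.normSq_def']
      simp [hab]
    refine ⟨mk4 a b 0 0, mem_sph.2 ⟨⟨ha, hb, by simp, by simp⟩, hn⟩, ?_⟩
    apply Subtype.ext
    rw [usp, coe_uR (qR_ne_of hp.pos hn), norm_qR hn, eI_coe, Complex.cos_arg hz0,
      Complex.sin_arg, hnz]
    ext <;> simp [hz] <;> field_simp
  · have hn : normSq (mk4 a 0 b 0 : ℍ[ℤ]) = (p : ℕ) := by
      rw [Quaternion.normSq_def']
      simp [hab]
    refine ⟨mk4 a 0 b 0, mem_sph.2 ⟨⟨ha, by simp, hb, by simp⟩, hn⟩, ?_⟩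
    apply Subtype.ext
    rw [usp, coe_uR (qR_ne_of hp.pos hn), norm_qR hn, eJ_coe, Complex.cos_arg hz0,
      Complex.sin_arg, hnz]
    ext <;> simp [hz] <;> field_simp

/-- the gap for one `l` -/
theorem norm_Tm_lt {p : ℕ} (hp : p.Prime) (h4 : p % 4 = 1) {l : ℕ} (hl : 1 ≤ l) :
    ‖Tm l p‖ < Rp p := by
  obtain ⟨ψ, hirr, ⟨q1, hq1, e1⟩, ⟨q2, hq2, e2⟩⟩ := exists_circle hp h4
  rw [← Matrix.l2_opNorm_toEuclideanCLM]
  unfold Tm Rp
  rw [map_sum]
  refine gap_abs (sph p)
    (fun q => Matrix.toEuclideanCLM (n := Fin (l + 1)) (𝕜 := ℂ) (rho l (usp q)))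
    (fun q _ x => norm_rho_apply l _ x) (fun q hq => ⟨star q, star_mem_sph hq, fun x => ?_⟩)
    (fun v hv => ?_)
  · rw [toCLM_apply_apply, usp_star, ← rho_mul, inv_mul_cancel, rho_one, map_one]
    rfl
  · set w : Fin (l + 1) → ℂ := WithLp.ofLp v with hw
    have key : ∀ q ∈ sph p, rho l (usp q * usp q) *ᵥ w = w := by
      intro q hq
      have h1 := hv q hq
      rw [toCLM_apply_apply, ← rho_mul] at h1
      have h2 := congrArg WithLp.ofLp h1
      rw [Matrix.ofLp_toEuclideanCLM] at h2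
      exact h2
    have hw0 : w = 0 := by
      apply no_fixed l hl w
      · intro t
        have h1 := all_of_irr (isClosed_stabOf l w eI eI_zero eI_add continuous_eI) hirr
          (by
            change rho l (eI (2 * ψ)) *ᵥ w = w
            rw [two_mul, eI_add, ← e1]
            exact key q1 hq1)
          (by
            change rho l (eI (2 * Real.pi)) *ᵥ w = w
            rw [eI_two_pi, rho_one, one_mulVec]) t
        exact h1
      · intro t
        have h1 := all_of_irr (isClosed_stabOf l w eJ eJ_zero eJ_add continuous_eJ) hirr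
          (by
            change rho l (eJ (2 * ψ)) *ᵥ w = w
            rw [two_mul, eJ_add, ← e2]
            exact key q2 hq2)
          (by
            change rho l (eJ (2 * Real.pi)) *ᵥ w = w
            rw [eJ_two_pi, rho_one, one_mulVec]) t
        exact h1
    have h3 : v = WithLp.toLp 2 w := rfl
    rw [h3, hw0]
    rfl

end BQP
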