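import Mathlib

/-!
# BQ block P: the recursion for powers of a Hecke operator (PAPER.md (9.7))

`A` selfadjoint of norm at most `2 λ (p + 1)`, `A t_0 = 2 A`, `t_1 = A`,
`A t_(a+1) = 2 t_(a+2) + 2 p t_a`; then `‖t_a‖ ≤ ‖t_0‖ (a + 1) (λ p)^a`.
-/

open Polynomial

namespace BQP

/-! ## The scalar recursion -/

/-- `s_0 = 1`, `s_1 = x / 2`, `s_(a+2) = (x / 2) s_(a+1) - p s_a` -/
noncomputable def sP (p : ℝ) : ℕ → ℝ[X]
  | 0 => 1
  | 1 => C (1 / 2) * X
  | (a + 2) => C (1 / 2) * X * sP p (a + 1) - C p * sP p a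

theorem roots_exist (b c : ℝ) : ∃ x y : ℂ, x + y = b ∧ x * y = c := by
  obtain ⟨s, hs⟩ := IsAlgClosed.exists_pow_nat_eq ((b : ℂ) ^ 2 / 4 - c) (n := 2) (by norm_num)
  refine ⟨b / 2 + s, b / 2 - s, by ring, ?_⟩
  have : ((b : ℂ) / 2 + s) * (b / 2 - s) = b ^ 2 / 4 - s ^ 2 := by ring
  rw [this, hs]
  ring

theorem root_bound {b p g : ℝ} (hg : 0 < g) (hp : p ≤ g ^ 2) (hp0 : 0 < p)
    (hb : |b| ≤ g + p / g) {x y : ℂ} (h1 : x + y = b) (h2 : x * y = p) : ‖x‖ ≤ g := by
  by_contra hc
  push Not at hc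
  have him : x.im + y.im = 0 := by
    have := congrArg Complex.im h1
    simpa using this
  have hre : x.re + y.re = b := by
    have := congrArg Complex.re h1
    simpa using this
  have him2 : x.re * y.im + x.im * y.re = 0 := by
    have := congrArg Complex.im h2
    simpa using this
  have hre2 : x.re * y.re - x.im * y.im = p := by
    have := congrArg Complex.re h2
    simpa using this
  have hyim : y.im = -x.im := by linarith
  have hprod : x.im * (y.re - x.re) = 0 := by
    rw [hyim] at him2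
    linarith
  have hnx : ‖x‖ ^ 2 = x.re ^ 2 + x.im ^ 2 := by
    rw [← Complex.normSq_eq_norm_sq, Complex.normSq_apply]
    ring
  rcases mul_eq_zero.1 hprod with h | h
  · -- real roots
    rw [hyim, h] at hre2
    have hxr : x.re * y.re = p := by linarith
    have hxn : ‖x‖ = |x.re| := by
      rw [h] at hnx
      rw [← sq_eq_sq₀ (norm_nonneg _) (abs_nonneg _), hnx, sq_abs]
      ring
    rw [hxn] at hc
    have hr0 : 0 < |x.re| := lt_trans hg hc
    have hy : |y.re| = p / |x.re| := by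
      rw [eq_div_iff hr0.ne', ← abs_mul, mul_comm, hxr, abs_of_pos hp0]
    have hsum : |b| = |x.re| + p / |x.re| := by
      rw [← hre, ← hy]
      have hpos : 0 < x.re * y.re := by rw [hxr]; exact hp0
      rcases pos_and_pos_or_neg_and_neg_of_mul_pos hpos with ⟨h3, h4⟩ | ⟨h3, h4⟩
      · rw [abs_of_pos h3, abs_of_pos h4, abs_of_pos (by linarith)]
      · rw [abs_of_neg h3, abs_of_neg h4, abs_of_neg (by linarith)]
        ring
    rw [hsum] at hb
    set r := |x.re| with hr
    have h5 : r + p / r - (g + p / g) = (r - g) * (1 - p / (r * g)) := by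
      field_simp
      ring
    have h6 : p / (r * g) < 1 := by
      rw [div_lt_one (by positivity)]
      nlinarith
    have h7 : 0 < (r - g) * (1 - p / (r * g)) := mul_pos (by linarith) (by linarith)
    linarith
  · -- complex conjugate roots
    have h3 : y.re = x.re := by linarith
    rw [hyim, h3] at hre2
    have h4 : ‖x‖ ^ 2 = p := by
      rw [hnx]
      linarith
    have h5 : g ^ 2 < ‖x‖ ^ 2 := by
      exact pow_lt_pow_left₀ hc hg.le (by norm_num)
    linarith

theorem sP_eval (p : ℝ) {θ : ℝ} {x y : ℂ} (h1 : x + y = ((θ / 2 : ℝ) : ℂ)) (h2 : x * y = (p : ℂ))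
    (a : ℕ) : (((sP p a).eval θ : ℝ) : ℂ) = ∑ i ∈ Finset.range (a + 1), x ^ i * y ^ (a - i) := by
  have key : ∀ a, ∑ i ∈ Finset.range (a + 1 + 1), x ^ i * y ^ (a + 1 - i) =
      y * (∑ i ∈ Finset.range (a + 1), x ^ i * y ^ (a - i)) + x ^ (a + 1) := by
    intro a
    rw [Finset.sum_range_succ, Nat.sub_self, pow_zero, mul_one, Finset.mul_sum]
    congr 1
    refine Finset.sum_congr rfl fun i hi => ?_
    rw [Finset.mem_range] at hi
    rw [show a + 1 - i = (a - i) + 1 by omega, pow_succ]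
    ring
  induction a using Nat.strong_induction_on with
  | _ a ih =>
    match a with
    | 0 => simp [sP]
    | 1 =>
      simp only [sP, eval_mul, eval_C, eval_X, Finset.sum_range_succ, Finset.range_zero,
        Finset.sum_empty]
      simp only [pow_zero, pow_one, one_mul, zero_add, Nat.sub_zero, Nat.sub_self, mul_one]
      rw [add_comm y x, h1]
      push_cast
      ring
    | a + 2 =>
      have e1 := ih (a + 1) (by omega)
      have e2 := ih a (by omega)
      rw [sP, eval_sub, eval_mul, eval_mul, eval_mul, eval_C, eval_C, eval_X]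
      push_cast
      rw [e1, e2, key (a + 1), key a]
      have h3 : (1 / 2 * (θ : ℂ)) = x + y := by rw [h1]; push_cast; ring
      rw [h3, ← h2]
      ring

theorem sP_bound {p lam θ : ℝ} (hp : 4 ≤ p) (hl : 1 / 2 ≤ lam) (hl1 : lam ≤ 1)
    (hθ : |θ| ≤ 2 * lam * (p + 1)) (a : ℕ) : ‖(sP p a).eval θ‖ ≤ (a + 1) * (lam * p) ^ a := by
  obtain ⟨x, y, h1, h2⟩ := roots_exist (θ / 2) p
  have hg : 0 < lam * p := by positivity
  have hpg : p ≤ (lam * p) ^ 2 := by
    have : (1 / 2 * p) ≤ lam * p := by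
      apply mul_le_mul_of_nonneg_right hl
      linarith
    nlinarith
  have hb : |θ / 2| ≤ lam * p + p / (lam * p) := by
    have h3 : p / (lam * p) = 1 / lam := by field_simp
    have h4 : lam ≤ 1 / lam := by
      rw [le_div_iff₀ (by linarith)]
      nlinarith
    rw [h3, abs_div, abs_two]
    linarith
  have hx : ‖x‖ ≤ lam * p := root_bound hg hpg (by linarith) hb h1 h2
  have hy : ‖y‖ ≤ lam * p := root_bound hg hpg (by linarith) hb (by rw [add_comm]; exact h1)
    (by rw [mul_comm]; exact h2)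
  have h5 := sP_eval p h1 h2 a
  have h6 : ‖(sP p a).eval θ‖ = ‖(((sP p a).eval θ : ℝ) : ℂ)‖ := by
    rw [Complex.norm_real]
  rw [h6, h5]
  calc ‖∑ i ∈ Finset.range (a + 1), x ^ i * y ^ (a - i)‖
      ≤ ∑ i ∈ Finset.range (a + 1), ‖x ^ i * y ^ (a - i)‖ := norm_sum_le _ _
    _ ≤ ∑ i ∈ Finset.range (a + 1), (lam * p) ^ a := by
        refine Finset.sum_le_sum fun i hi => ?_
        rw [Finset.mem_range] at hi
        rw [norm_mul, norm_pow, norm_pow]
        calc ‖x‖ ^ i * ‖y‖ ^ (a - i) ≤ (lam * p) ^ i * (lam * p) ^ (a - i) := by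
              gcongr
          _ = (lam * p) ^ a := by
              rw [← pow_add]
              congr 1
              omega
    _ = (a + 1) * (lam * p) ^ a := by
        rw [Finset.sum_const, Finset.card_range, nsmul_eq_mul]
        push_cast
        ring

/-! ## The operator recursion -/

section

variable {𝒜 : Type*} [CStarAlgebra 𝒜]

theorem seq_eq (p : ℝ) (A : 𝒜) (t : ℕ → 𝒜) (h0 : A * t 0 = (2 : ℝ) • A) (h1 : t 1 = A)
    (hs : ∀ a, A * t (a + 1) = (2 : ℝ) • t (a + 2) + (2 * p) • t a) (a : ℕ) :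
    t a = aeval A (sP p a) * t 0 := by
  induction a using Nat.strong_induction_on with
  | _ a ih =>
    match a with
    | 0 => simp [sP]
    | 1 =>
      rw [sP, map_mul, aeval_C, aeval_X, h1, Algebra.algebraMap_eq_smul_one, smul_one_mul,
        smul_mul_assoc, h0, smul_smul]
      norm_num
    | a + 2 =>
      have e1 := ih (a + 1) (by omega)
      have e2 := ih a (by omega)
      have e3 := hs a
      rw [sP, map_sub, map_mul, map_mul, map_mul, aeval_C, aeval_C, aeval_X, sub_mul,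
        Algebra.algebraMap_eq_smul_one, Algebra.algebraMap_eq_smul_one, smul_one_mul, smul_one_mul,
        smul_mul_assoc, smul_mul_assoc, smul_mul_assoc, mul_assoc, ← e1, ← e2, e3, smul_add,
        smul_smul, smul_smul]
      have h4 : (1 / 2 * 2 : ℝ) = 1 := by norm_num
      have h5 : (1 / 2 * (2 * p) : ℝ) = p := by ring
      rw [h4, h5, one_smul, add_sub_cancel_right]

theorem norm_aeval_sP_le {p lam : ℝ} (hp : 4 ≤ p) (hl : 1 / 2 ≤ lam) (hl1 : lam ≤ 1)
    (A : 𝒜) (hA : IsSelfAdjoint A) (hn : ‖A‖ ≤ 2 * lam * (p + 1)) (a : ℕ) :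
    ‖aeval A (sP p a)‖ ≤ (a + 1) * (lam * p) ^ a := by
  rcases subsingleton_or_nontrivial 𝒜 with hsub | hnt
  · have : aeval A (sP p a) = 0 := Subsingleton.elim _ _
    rw [this, norm_zero]
    positivity
  · rw [← cfc_polynomial (sP p a) A hA]
    refine norm_cfc_le (by positivity) fun x hx => ?_
    apply sP_bound hp hl hl1
    have h1 : ‖x‖ ≤ ‖A‖ := spectrum.norm_le_norm_of_mem hx
    rw [Real.norm_eq_abs] at h1
    linarith

theorem seq_bound {p lam : ℝ} (hp : 4 ≤ p) (hl : 1 / 2 ≤ lam) (hl1 : lam ≤ 1)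
    (A : 𝒜) (hA : IsSelfAdjoint A) (hn : ‖A‖ ≤ 2 * lam * (p + 1)) (t : ℕ → 𝒜)
    (h0 : A * t 0 = (2 : ℝ) • A) (h1 : t 1 = A)
    (hs : ∀ a, A * t (a + 1) = (2 : ℝ) • t (a + 2) + (2 * p) • t a) (a : ℕ) :
    ‖t a‖ ≤ (a + 1) * (lam * p) ^ a * ‖t 0‖ := by
  rw [seq_eq p A t h0 h1 hs a]
  refine (norm_mul_le _ _).trans ?_
  gcongr
  exact norm_aeval_sP_le hp hl hl1 A hA hn a

end

end BQP
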