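import Mathlib
import Pool.Agent.BQ.A_Hec
import Pool.Agent.BQ.P_Gap
import Pool.Agent.BQ.P_Seq

/-!
# BQ block P: the Hecke relations for the matrices `Tm l m` (PAPER.md (9.5))
-/

open Quaternion Matrix
open scoped Matrix.Norms.L2Operator

namespace BQP

open BQA Pool.Agent.BQ

theorem sph_eq (m : ℕ) : sph m = L1S (m : ℤ) := by
  ext q
  rw [mem_sph, mem_L1S]

theorem neg_mem_sph {m : ℕ} {q : ℍ[ℤ]} (h : q ∈ sph m) : -q ∈ sph m := by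
  rw [mem_sph] at h ⊢
  refine ⟨h.1.neg, ?_⟩
  rw [← h.2, Quaternion.normSq_neg]

theorem coe_neg_S3 (u : BQA.S3) : ((-u : BQA.S3) : ℍ[ℝ]) = -(u : ℍ[ℝ]) := rfl

theorem usp_neg {q : ℍ[ℤ]} (hq : qR q ≠ 0) : usp (-q) = -usp q := by
  apply Subtype.ext
  have h1 : qR (-q) ≠ 0 := by
    rw [qR_neg]
    exact neg_ne_zero.2 hq
  rw [coe_neg_S3, usp, usp, coe_uR h1, coe_uR hq, qR_neg, norm_neg, star_neg, smul_neg]

theorem neg_usp_mul {q1 q2 : ℍ[ℤ]} (h1 : qR q1 ≠ 0) (h2 : qR q2 ≠ 0) :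
    -usp (q1 * q2) = usp q2 * usp q1 := by
  apply Subtype.ext
  have h3 : qR (q1 * q2) ≠ 0 := by
    rw [qR_mul]
    exact mul_ne_zero h1 h2
  rw [coe_neg_S3, Metric.unitSphere.coe_mul, usp, usp, usp, coe_uR h3, coe_uR h2, coe_uR h1,
    qR_mul, norm_mul, star_mul, neg_neg, neg_mul_neg, smul_mul_smul_comm, _root_.mul_inv_rev]

theorem usp_smul {c : ℤ} (hc : 0 < c) {q : ℍ[ℤ]} (h : qR q ≠ 0) : usp (c • q) = usp q := by
  apply Subtype.ext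
  have hc' : (0 : ℝ) < c := by exact_mod_cast hc
  have h1 : qR (c • q) ≠ 0 := by
    rw [qR_smul]
    exact smul_ne_zero hc'.ne' h
  have h2 : star ((c : ℝ) • qR q) = (c : ℝ) • star (qR q) := by
    rw [Quaternion.star_smul]
  rw [usp, usp, coe_uR h1, coe_uR h, qR_smul, norm_smul, h2, smul_smul, Real.norm_eq_abs,
    abs_of_pos hc', _root_.mul_inv_rev, mul_assoc, inv_mul_cancel₀ hc'.ne', mul_one]

theorem sum_neg_sph {A : Type*} [AddCommMonoid A] (m : ℕ) (F : ℍ[ℤ] → A) :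
    ∑ q ∈ sph m, F (-q) = ∑ q ∈ sph m, F q := by
  refine Finset.sum_nbij' (fun q => -q) (fun q => -q) (fun q hq => neg_mem_sph hq)
    (fun q hq => neg_mem_sph hq) (fun q _ => neg_neg q) (fun q _ => neg_neg q)
    (fun q _ => rfl)

theorem sum_rho_neg (l : ℕ) {m : ℕ} (hm : 0 < m) :
    ∑ q ∈ sph m, rho l (-usp q) = Tm l m := by
  unfold Tm
  rw [← sum_neg_sph m (fun q => rho l (usp q))]
  refine Finset.sum_congr rfl fun q hq => ?_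
  rw [usp_neg (qR_ne_of hm (mem_sph.1 hq).2)]

theorem Tm_mul_eq (l : ℕ) {p m : ℕ} (hp : 0 < p) (hm : 0 < m) :
    Tm l p * Tm l m = ∑ q1 ∈ sph p, ∑ q2 ∈ sph m, rho l (-usp (q1 * q2)) := by
  unfold Tm
  rw [Finset.sum_mul_sum]
  refine Finset.sum_congr rfl fun q1 h1 => Finset.sum_congr rfl fun q2 h2 => ?_
  rw [neg_usp_mul (qR_ne_of hp (mem_sph.1 h1).2) (qR_ne_of hm (mem_sph.1 h2).2), rho_mul]

/-- `T_p T_m = 2 T_(p m)` for `p` not dividing `m` -/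
theorem Tm_coprime (l : ℕ) {p m : ℕ} (hp : p.Prime) (h4 : p % 4 = 1) (hm : 0 < m)
    (hpm : ¬ p ∣ m) : Tm l p * Tm l m = (2 : ℝ) • Tm l (p * m) := by
  rw [Tm_mul_eq l hp.pos hm, ← sum_rho_neg l (Nat.mul_pos hp.pos hm), sph_eq, sph_eq, sph_eq]
  have h1 : ¬ (p : ℤ) ∣ (m : ℤ) := by exact_mod_cast hpm
  have h2 := sum_mul_coprime hp h4 h1 (fun q => rho l (-usp q))
  rw [h2]
  push_cast
  rw [← Nat.cast_smul_eq_nsmul ℝ 2]
  norm_num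

/-- `T_p T_(p m) = 2 T_(p^2 m) + 2 p T_m` -/
theorem Tm_dvd (l : ℕ) {p m : ℕ} (hp : p.Prime) (h4 : p % 4 = 1) (hm : 0 < m) :
    Tm l p * Tm l (p * m) = (2 : ℝ) • Tm l (p ^ 2 * m) + (2 * (p : ℝ)) • Tm l m := by
  rw [Tm_mul_eq l hp.pos (Nat.mul_pos hp.pos hm),
    ← sum_rho_neg l (Nat.mul_pos (pow_pos hp.pos 2) hm), ← sum_rho_neg l hm, sph_eq, sph_eq,
    sph_eq, sph_eq]
  have h2 := sum_mul_dvd hp h4 (m : ℤ) (fun q => rho l (-usp q))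
  have h3 : ∑ w ∈ L1S (m : ℤ), rho l (-usp ((p : ℤ) • w)) = ∑ w ∈ L1S (m : ℤ), rho l (-usp w) := by
    refine Finset.sum_congr rfl fun w hw => ?_
    rw [usp_smul (by exact_mod_cast hp.pos) (qR_ne_of hm (mem_L1S.1 hw).2)]
  rw [h3] at h2
  push_cast
  rw [h2, ← Nat.cast_smul_eq_nsmul ℝ 2, ← Nat.cast_smul_eq_nsmul ℝ (2 * p)]
  push_cast
  rfl

theorem Rp_eq (m : ℕ) : Rp m = (L1S (m : ℤ)).card := by
  rw [Rp, sph_eq]

theorem Rp_prime {p : ℕ} (hp : p.Prime) (h4 : p % 4 = 1) : Rp p = 2 * (p + 1) := by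
  rw [Rp_eq, card_L1S_prime hp h4]

theorem Rp_one : Rp 1 = 2 := by
  rw [Rp_eq, Nat.cast_one, card_L1S_one]

theorem Rp_coprime {p m : ℕ} (hp : p.Prime) (h4 : p % 4 = 1) (hpm : ¬ p ∣ m) :
    Rp (p * m) = (p + 1) * Rp m := by
  have h1 : ¬ (p : ℤ) ∣ (m : ℤ) := by exact_mod_cast hpm
  rw [Rp_eq, Rp_eq, ← card_mul_coprime hp h4 h1]
  push_cast
  rfl

theorem Rp_pow_ge {p : ℕ} (hp : p.Prime) (h4 : p % 4 = 1) (a : ℕ) : 2 * p ^ a ≤ Rp (p ^ a) := by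
  rw [Rp_eq]
  push_cast
  rw [card_L1S_pow hp h4 a]
  apply Nat.mul_le_mul_left
  exact Finset.single_le_sum (f := fun i => p ^ i) (fun i _ => Nat.zero_le _)
    (Finset.mem_range.2 (Nat.lt_succ_self a))

/-- the bound for all powers of one prime from the bound for the prime -/
theorem Tm_pow_bound {p : ℕ} (hp : p.Prime) (h4 : p % 4 = 1) {lam : ℝ} (hl : 1 / 2 ≤ lam)
    (hl1 : lam ≤ 1) {l : ℕ} (hn : ‖Tm l p‖ ≤ 2 * lam * (p + 1)) (a : ℕ) :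
    ‖Tm l (p ^ a)‖ ≤ 2 * (a + 1) * (lam * p) ^ a := by
  have hp4 : (4 : ℝ) ≤ p := by
    have : 4 ≤ p := by
      by_contra hc
      push Not at hc
      have h2 := hp.two_le
      interval_cases p <;> omega
    exact_mod_cast this
  have h0 : ‖Tm l 1‖ ≤ 2 := by
    have := norm_Tm_le l 1
    rw [Rp_one] at this
    exact_mod_cast this
  have h1 : ¬ p ∣ 1 := fun h => hp.one_lt.ne' (Nat.dvd_one.1 h)
  have h2 := Tm_coprime l hp h4 one_pos h1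
  rw [mul_one] at h2
  have h3 := seq_bound hp4 hl hl1 (Tm l p) (Tm_selfAdjoint l p) hn (fun a => Tm l (p ^ a))
    (by simpa using h2) (by simp) (fun a => by
      have h5 := Tm_dvd l hp h4 (m := p ^ a) (pow_pos hp.pos a)
      rw [show p * p ^ a = p ^ (a + 1) by ring, show p ^ 2 * p ^ a = p ^ (a + 2) by ring] at h5
      exact h5) a
  simp only [pow_zero] at h3
  have h5 : 0 ≤ ((a : ℝ) + 1) * (lam * p) ^ a := by positivity
  calc ‖Tm l (p ^ a)‖ ≤ (a + 1) * (lam * p) ^ a * ‖Tm l 1‖ := h3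
    _ ≤ (a + 1) * (lam * p) ^ a * 2 := by gcongr
    _ = 2 * (a + 1) * (lam * p) ^ a := by ring

/-- the bound for `p p2 ^ a` -/
theorem Tm_mul_pow_bound {p2 : ℕ} (hp2 : p2.Prime) (h42 : p2 % 4 = 1) {lam : ℝ}
    (hl : 1 / 2 ≤ lam) (hl1 : lam ≤ 1) {l : ℕ} (hn : ‖Tm l p2‖ ≤ 2 * lam * (p2 + 1)) (a : ℕ)
    {p : ℕ} (hp : p.Prime) (h4 : p % 4 = 1) (hne : p ≠ p2) :
    ‖Tm l (p * p2 ^ a)‖ ≤ (a + 1) * lam ^ a * Rp (p * p2 ^ a) := by
  have h1 : ¬ p ∣ p2 ^ a := fun h => hne ((Nat.prime_dvd_prime_iff_eq hp hp2).1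
    (hp.dvd_of_dvd_pow h))
  have h2 := Tm_coprime l hp h4 (pow_pos hp2.pos a) h1
  have h3 : Tm l (p * p2 ^ a) = (1 / 2 : ℝ) • (Tm l p * Tm l (p2 ^ a)) := by
    rw [h2, smul_smul]
    norm_num
  have h5 : ‖Tm l p‖ ≤ 2 * (p + 1) := by
    have := norm_Tm_le l p
    rw [Rp_prime hp h4] at this
    push_cast at this
    exact this
  have h6 := Tm_pow_bound hp2 h42 hl hl1 hn a
  have h7 : (2 * (p2 : ℝ) ^ a) * (p + 1) ≤ Rp (p * p2 ^ a) := by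
    rw [Rp_coprime hp h4 h1]
    have := Rp_pow_ge hp2 h42 a
    have h8 : (2 * (p2 : ℝ) ^ a) ≤ Rp (p2 ^ a) := by exact_mod_cast this
    push_cast
    nlinarith [(by positivity : (0 : ℝ) ≤ (p : ℝ) + 1)]
  have hlp : 0 ≤ lam := by linarith
  calc ‖Tm l (p * p2 ^ a)‖ = (1 / 2) * ‖Tm l p * Tm l (p2 ^ a)‖ := by
        rw [h3, norm_smul]
        norm_num
    _ ≤ (1 / 2) * (‖Tm l p‖ * ‖Tm l (p2 ^ a)‖) := by
        gcongr
        exact norm_mul_le _ _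
    _ ≤ (1 / 2) * ((2 * (p + 1)) * (2 * (a + 1) * (lam * p2) ^ a)) := by
        gcongr
    _ = (a + 1) * lam ^ a * (2 * (p2 : ℝ) ^ a * (p + 1)) := by
        rw [mul_pow]
        ring
    _ ≤ (a + 1) * lam ^ a * Rp (p * p2 ^ a) := by
        gcongr

end BQP
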