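import Mathlib
import Pool.Agent.BQ.P_Hec

/-!
# BQ block P: `MBd` for the one vertex graph `HeckeQG n` is the operator norm of `Tm l n`
-/

open Quaternion Matrix
open scoped Matrix.Norms.L2Operator

namespace BQP

open BQA Pool.Agent.BQ

/-- the vertex of the Hecke graph -/
def ptH (n : ℕ) : (HeckeQG n).V := ()

theorem form_hecke (l n : ℕ) (c c' : (HeckeQG n).V → Fin (l + 1) → ℂ) :
    (HeckeQG n).form (rho l) c c' = star (c (ptH n)) ⬝ᵥ (Tm l n *ᵥ c' (ptH n)) := by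
  have h1 : (HeckeQG n).form (rho l) c c' =
      ∑ e : {q // q ∈ sph n}, star (c (ptH n)) ⬝ᵥ (rho l (usp e.1) *ᵥ c' (ptH n)) := rfl
  rw [h1, Finset.sum_coe_sort (sph n)
    (fun q => star (c (ptH n)) ⬝ᵥ (rho l (usp q) *ᵥ c' (ptH n)))]
  unfold Tm
  rw [Matrix.sum_mulVec, dotProduct_sum]

theorem sqrt_nv2_hecke {l n : ℕ} (c : (HeckeQG n).V → Fin (l + 1) → ℂ) :
    Real.sqrt (nv2 c) = ‖WithLp.toLp 2 (c (ptH n))‖ := by
  rw [EuclideanSpace.norm_eq]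
  have h1 : nv2 c = ∑ s : Unit, ∑ i, ‖c s i‖ ^ 2 := rfl
  rw [h1]
  simp [ptH]

theorem dot_eq_inner {l : ℕ} (x y : Fin (l + 1) → ℂ) :
    star x ⬝ᵥ y = inner ℂ (WithLp.toLp 2 x) (WithLp.toLp 2 y) := by
  rw [EuclideanSpace.inner_toLp_toLp, dotProduct_comm]

theorem norm_mulVec_le {l : ℕ} (A : Matrix (Fin (l + 1)) (Fin (l + 1)) ℂ)
    (x : Fin (l + 1) → ℂ) : ‖WithLp.toLp 2 (A *ᵥ x)‖ ≤ ‖A‖ * ‖WithLp.toLp 2 x‖ := by
  rw [← Matrix.toEuclideanCLM_toLp, ← Matrix.l2_opNorm_toEuclideanCLM]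
  exact ContinuousLinearMap.le_opNorm _ _

/-- `MBd` for the Hecke graph is a bound for the operator norm -/
theorem MBd_hecke_iff {l n : ℕ} {B : ℝ} (hB : 0 ≤ B) :
    MBd (HeckeQG n) (rho l) B ↔ ‖Tm l n‖ ≤ B := by
  constructor
  · intro h
    rw [← Matrix.l2_opNorm_toEuclideanCLM]
    refine ContinuousLinearMap.opNorm_le_bound _ hB fun x => ?_
    set y : Fin (l + 1) → ℂ := Tm l n *ᵥ WithLp.ofLp x with hy
    have h0 : Matrix.toEuclideanCLM (n := Fin (l + 1)) (𝕜 := ℂ) (Tm l n) x = WithLp.toLp 2 y := rfl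
    rw [h0]
    have h1 := h (fun _ => y) (fun _ => WithLp.ofLp x)
    rw [form_hecke, sqrt_nv2_hecke, sqrt_nv2_hecke, ← hy, dot_eq_inner] at h1
    rw [inner_self_eq_norm_sq_to_K, norm_pow, RCLike.norm_ofReal, abs_norm] at h1
    have h2 : WithLp.toLp 2 (WithLp.ofLp x) = x := rfl
    rw [h2] at h1
    by_cases h3 : ‖WithLp.toLp 2 y‖ = 0
    · rw [h3]
      positivity
    · have h4 : 0 < ‖WithLp.toLp 2 y‖ := lt_of_le_of_ne (norm_nonneg _) (Ne.symm h3)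
      have h5 : ‖WithLp.toLp 2 y‖ * ‖WithLp.toLp 2 y‖ ≤ ‖WithLp.toLp 2 y‖ * (B * ‖x‖) := by
        nlinarith
      exact le_of_mul_le_mul_left h5 h4
  · intro h c c'
    rw [form_hecke, sqrt_nv2_hecke, sqrt_nv2_hecke, dot_eq_inner]
    refine (norm_inner_le_norm _ _).trans ?_
    have h1 := norm_mulVec_le (Tm l n) (c' (ptH n))
    calc ‖WithLp.toLp 2 (c (ptH n))‖ * ‖WithLp.toLp 2 (Tm l n *ᵥ c' (ptH n))‖
        ≤ ‖WithLp.toLp 2 (c (ptH n))‖ * (‖Tm l n‖ * ‖WithLp.toLp 2 (c' (ptH n))‖) := by gcongr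
      _ ≤ ‖WithLp.toLp 2 (c (ptH n))‖ * (B * ‖WithLp.toLp 2 (c' (ptH n))‖) := by gcongr
      _ = _ := by ring

end BQP
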