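import Mathlib
import Pool.Agent.BQ.P_MBd

/-!
# BQ block P: the Hecke operator of a large prime in high degree (PAPER.md (7.6)), and the gap
(9.7), from the high frequency bound for the Hecke graph
-/

open Quaternion Matrix
open scoped Matrix.Norms.L2Operator

namespace BQP

open BQA Pool.Agent.BQ

/-- the trace bound (7.4) for the Hecke graph of a prime `p` -/
def HFHecke : Prop := ∃ K : ℝ, 0 ≤ K ∧ ∀ (p l m : ℕ) (B : ℝ), p.Prime → p % 4 = 1 →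
  128 ≤ p → 1 ≤ l → 1 ≤ m → 0 ≤ B →
  4 * ((l : ℝ) + 1) ^ 2 * (4 * 2 * (2 * ((p : ℝ) + 1))) ^ m +
    K * (4 * 2 ^ 2 * (p : ℝ) ^ (2.2 : ℝ)) ^ m / ((l : ℝ) + 1) ≤ B ^ (2 * m) →
  MBd (HeckeQG p) (rho l) B

/-- the numerical part: with `x = p ^ (1/5) ≥ 128` and `x ^ (2 (m - 1)) ≤ l + 1 < x ^ (2 m)` -/
theorem hi_num {K x L : ℝ} {m : ℕ} (hx : 128 ≤ x)
    (h1 : x ^ (2 * m) ≤ L) (h2 : L < x ^ (2 * (m + 1))) (hm : 2 * K * x ^ 2 ≤ 8 ^ (m + 1)) :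
    4 * L ^ 2 * (4 * 2 * (2 * (x ^ 5 + 1))) ^ (m + 1) +
      K * (4 * 2 ^ 2 * x ^ 11) ^ (m + 1) / L ≤ (x ^ 5 + 1) ^ (2 * (m + 1)) := by
  have hx0 : 0 < x := by linarith
  have hL : 0 < L := lt_of_lt_of_le (by positivity) h1
  have e1 : 4 * L ^ 2 * (4 * 2 * (2 * (x ^ 5 + 1))) ^ (m + 1) ≤
      (1 / 2) * (x ^ 5 + 1) ^ (2 * (m + 1)) := by
    have h3 : 8 * (L ^ 2 * 16 ^ (m + 1)) ≤ (x ^ 5 + 1) ^ (m + 1) := by
      have h4 : L ^ 2 ≤ (x ^ (2 * (m + 1))) ^ 2 := pow_le_pow_left₀ hL.le h2.le 2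
      have h5 : (8 : ℝ) ≤ 8 ^ (m + 1) := by
        have : (8 : ℝ) ^ 1 ≤ 8 ^ (m + 1) := pow_le_pow_right₀ (by norm_num) (by omega)
        linarith
      calc 8 * (L ^ 2 * 16 ^ (m + 1))
          ≤ 8 ^ (m + 1) * ((x ^ (2 * (m + 1))) ^ 2 * 16 ^ (m + 1)) := by gcongr
        _ = (x ^ 4 * 128) ^ (m + 1) := by
            rw [← pow_mul, mul_pow, ← pow_mul, show (128 : ℝ) = 8 * 16 by norm_num, mul_pow]
            ring
        _ ≤ (x ^ 5 + 1) ^ (m + 1) := by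
            apply pow_le_pow_left₀ (by positivity)
            have : x ^ 4 * 128 ≤ x ^ 4 * x := by gcongr
            nlinarith
    have h4 : 0 < (x ^ 5 + 1) ^ (m + 1) := by positivity
    have h5 : (4 * 2 * (2 * (x ^ 5 + 1))) ^ (m + 1) = 16 ^ (m + 1) * (x ^ 5 + 1) ^ (m + 1) := by
      rw [← mul_pow]
      congr 1
      ring
    have h6 : (x ^ 5 + 1) ^ (2 * (m + 1)) = (x ^ 5 + 1) ^ (m + 1) * (x ^ 5 + 1) ^ (m + 1) := by
      ring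
    rw [h5, h6]
    nlinarith
  have e2 : K * (4 * 2 ^ 2 * x ^ 11) ^ (m + 1) / L ≤ (1 / 2) * (x ^ 5 + 1) ^ (2 * (m + 1)) := by
    rw [div_le_iff₀ hL]
    have h3 : x ^ 10 ≤ (x ^ 5 + 1) ^ 2 := by
      have : x ^ 10 = (x ^ 5) ^ 2 := by ring
      rw [this]
      apply pow_le_pow_left₀ (by positivity)
      linarith
    have h4 : (2 : ℝ) * K * x ^ 2 * 16 ^ (m + 1) ≤ x ^ (m + 1) := by
      calc (2 : ℝ) * K * x ^ 2 * 16 ^ (m + 1) ≤ 8 ^ (m + 1) * 16 ^ (m + 1) := by gcongr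
        _ = 128 ^ (m + 1) := by
            rw [← mul_pow]
            norm_num
        _ ≤ x ^ (m + 1) := by
            apply pow_le_pow_left₀ (by norm_num) hx
    calc K * (4 * 2 ^ 2 * x ^ 11) ^ (m + 1)
        = (1 / 2) * ((2 * K * x ^ 2 * 16 ^ (m + 1)) * (x ^ 9) ^ (m + 1) * x ^ (2 * m)) := by
          rw [show (4 * 2 ^ 2 * x ^ 11 : ℝ) = 16 * (x ^ 9 * x ^ 2) by ring, mul_pow, mul_pow,
            ← pow_mul x 2 (m + 1), show 2 * (m + 1) = 2 * m + 2 by ring, pow_add x (2 * m) 2]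
          ring
      _ ≤ (1 / 2) * (x ^ (m + 1) * (x ^ 9) ^ (m + 1) * L) := by gcongr
      _ = (1 / 2) * (x ^ 10) ^ (m + 1) * L := by
          rw [show (x ^ 10 : ℝ) = x * x ^ 9 by ring, mul_pow]
          ring
      _ ≤ (1 / 2) * ((x ^ 5 + 1) ^ 2) ^ (m + 1) * L := by gcongr
      _ = (1 / 2) * (x ^ 5 + 1) ^ (2 * (m + 1)) * L := by rw [← pow_mul]
  linarith

/-- in high degree the norm is at most half of the trivial bound -/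
theorem hi_bound (hW : HFHecke) {p : ℕ} (hp : p.Prime) (h4 : p % 4 = 1) (hbig : 2 ^ 35 ≤ p) :
    ∃ l0 : ℕ, ∀ l, l0 ≤ l → ‖Tm l p‖ ≤ p + 1 := by
  obtain ⟨K, hK, hW⟩ := hW
  set x : ℝ := (p : ℝ) ^ (1 / 5 : ℝ) with hx
  have hp0 : (0 : ℝ) < p := by exact_mod_cast hp.pos
  have hx0 : 0 < x := Real.rpow_pos_of_pos hp0 _
  have hx5 : x ^ 5 = p := by
    rw [hx, ← Real.rpow_natCast, ← Real.rpow_mul hp0.le]
    norm_num
  have hx11 : x ^ 11 = (p : ℝ) ^ (2.2 : ℝ) := by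
    rw [hx, ← Real.rpow_natCast, ← Real.rpow_mul hp0.le]
    norm_num
  have hx128 : 128 ≤ x := by
    by_contra hc
    push Not at hc
    have h1 : x ^ 5 < 128 ^ 5 := pow_lt_pow_left₀ hc hx0.le (by norm_num)
    rw [hx5] at h1
    have h2 : ((2 ^ 35 : ℕ) : ℝ) ≤ p := by exact_mod_cast hbig
    norm_num at h1 h2
    linarith
  obtain ⟨m0, hm0⟩ := pow_unbounded_of_one_lt (2 * K * x ^ 2) (by norm_num : (1 : ℝ) < 8)
  have hg1 : 1 < x ^ 2 := by nlinarith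
  obtain ⟨l0, hl0⟩ := exists_nat_ge ((x ^ 2) ^ m0)
  refine ⟨l0 + 1, fun l hl => ?_⟩
  have hL : (x ^ 2) ^ m0 ≤ (l : ℝ) + 1 := by
    have : (l0 : ℝ) ≤ l := by exact_mod_cast (by omega : l0 ≤ l)
    linarith
  have hL1 : (1 : ℝ) ≤ (l : ℝ) + 1 := by
    have : (0 : ℝ) ≤ l := Nat.cast_nonneg l
    linarith
  obtain ⟨m, hm1, hm2⟩ := exists_nat_pow_near hL1 hg1
  have hmm : m0 ≤ m + 1 := by
    by_contra hc
    push Not at hc
    have h1 : (x ^ 2) ^ (m + 1) ≤ (x ^ 2) ^ m0 := pow_le_pow_right₀ hg1.le hc.le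
    linarith
  have h8 : 2 * K * x ^ 2 ≤ 8 ^ (m + 1) := by
    have h1 : (8 : ℝ) ^ m0 ≤ 8 ^ (m + 1) := pow_le_pow_right₀ (by norm_num) hmm
    linarith
  have h9 := hi_num (L := (l : ℝ) + 1) hx128 (by rw [pow_mul]; exact hm1)
    (by rw [pow_mul]; exact hm2) h8
  rw [hx5, hx11] at h9
  have hpB : (0 : ℝ) ≤ (p : ℝ) + 1 := by positivity
  rw [← MBd_hecke_iff hpB]
  refine hW p l (m + 1) _ hp h4 ?_ (by omega) (by omega) hpB h9
  calc 128 ≤ 2 ^ 35 := by norm_num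
    _ ≤ p := hbig

/-- THE GAP (9.7): for all `l ≥ 1` -/
theorem gap_all (hW : HFHecke) {p : ℕ} (hp : p.Prime) (h4 : p % 4 = 1) (hbig : 2 ^ 35 ≤ p) :
    ∃ lam : ℝ, 1 / 2 ≤ lam ∧ lam < 1 ∧ ∀ l, 1 ≤ l → ‖Tm l p‖ ≤ 2 * lam * (p + 1) := by
  obtain ⟨l0, hl0⟩ := hi_bound hW hp h4 hbig
  have hp1 : (0 : ℝ) < 2 * ((p : ℝ) + 1) := by positivity
  have hR : (Rp p : ℝ) = 2 * ((p : ℝ) + 1) := by
    rw [Rp_prime hp h4]
    push_cast
    ring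
  have key : ∀ n : ℕ, ∃ lam : ℝ, 1 / 2 ≤ lam ∧ lam < 1 ∧
      ∀ l, 1 ≤ l → l ≤ n → ‖Tm l p‖ ≤ 2 * lam * (p + 1) := by
    intro n
    induction n with
    | zero => exact ⟨1 / 2, le_rfl, by norm_num, fun l h1 h2 => by omega⟩
    | succ n ih =>
      obtain ⟨lam, h1, h2, h3⟩ := ih
      have h5 : ‖Tm (n + 1) p‖ / (2 * ((p : ℝ) + 1)) < 1 := by
        rw [div_lt_one hp1, ← hR]
        exact norm_Tm_lt hp h4 (by omega)
      refine ⟨max lam (‖Tm (n + 1) p‖ / (2 * ((p : ℝ) + 1))), h1.trans (le_max_left _ _),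
        max_lt h2 h5, fun l hl hln => ?_⟩
      rcases Nat.lt_or_ge n l with h6 | h6
      · have : l = n + 1 := by omega
        subst this
        have h7 : ‖Tm (n + 1) p‖ / (2 * ((p : ℝ) + 1)) ≤
          max lam (‖Tm (n + 1) p‖ / (2 * ((p : ℝ) + 1))) := le_max_right _ _
        rw [div_le_iff₀ hp1] at h7
        linarith
      · have h7 := h3 l hl h6
        have h8 : lam ≤ max lam (‖Tm (n + 1) p‖ / (2 * ((p : ℝ) + 1))) := le_max_left _ _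
        nlinarith
  obtain ⟨lam, h1, h2, h3⟩ := key l0
  refine ⟨lam, h1, h2, fun l hl => ?_⟩
  rcases le_total l l0 with h5 | h5
  · exact h3 l hl h5
  · have h6 := hl0 l h5
    nlinarith

/-- BLOCK P, EXPORT in terms of the high frequency bound -/
theorem P_of_HF (hW : HFHecke) : ∃ p2 : ℕ, p2.Prime ∧ p2 % 4 = 1 ∧ 2 ^ 35 ≤ p2 ∧
    ∃ γ : ℝ, 0 < γ ∧ γ < 1 ∧ ∀ (a l p : ℕ), 1 ≤ l → p.Prime → p % 4 = 1 → p ≠ p2 →
      ‖Tm l (p * p2 ^ a)‖ ≤ (a + 1) * γ ^ a * Rp (p * p2 ^ a) := by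
  obtain ⟨p2, hp2, hbig, hmod⟩ := Nat.exists_prime_gt_modEq_one (k := 4) (2 ^ 35) (by norm_num)
  have h4 : p2 % 4 = 1 := hmod
  obtain ⟨lam, h1, h2, h3⟩ := gap_all hW hp2 h4 hbig.le
  exact ⟨p2, hp2, h4, hbig.le, lam, by linarith, h2, fun a l p hl hp h4p hne =>
    Tm_mul_pow_bound hp2 h4 h1 h2.le (h3 l hl) a hp h4p hne⟩

end BQP
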