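import Mathlib
import Pool.Agent.BQ.P_Hi

/-!
# BQ block P: multiplicity and degree of the Hecke graph of a prime
-/

open Quaternion

namespace BQP

open BQA Pool.Agent.BQ

theorem not_dv_of_sph {p : ℕ} (hp : p.Prime) {q : ℍ[ℤ]} (hq : q ∈ sph p) : ¬ DV (p : ℤ) q := by
  intro h
  have h1 := nq_dvd_of_dv h
  rw [(mem_sph.1 hq).2] at h1
  have h2 : p ^ 2 ∣ p := by exact_mod_cast h1
  have h3 := Nat.le_of_dvd hp.pos h2
  have h5 := hp.two_le
  nlinarith

theorem mult_hecke {p : ℕ} (hp : p.Prime) (h4 : p % 4 = 1) : Mult (HeckeQG p) p 2 := by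
  intro e0
  have hq0 : e0.1 ∈ sph p := e0.2
  have h1 : (Finset.univ.filter fun e : (HeckeQG p).E => (HeckeQG p).src e = (HeckeQG p).src e0 ∧
      DV p (star ((HeckeQG p).q e) * (HeckeQG p).q e0)).card ≤
      ((L1S (p : ℤ)).filter (fun z => DV (p : ℤ) (star z * e0.1))).card := by
    refine Finset.card_le_card_of_injOn (fun e => e.1) ?_ ?_
    · intro e he
      have he' := (Finset.mem_filter.1 he).2
      exact Finset.mem_filter.2 ⟨by rw [← sph_eq]; exact e.2, he'.2⟩
    · intro e _ e' _ h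
      exact Subtype.ext h
  refine h1.trans ?_
  have h5 : e0.1 ∈ L1S ((p : ℤ) * 1) := by
    rw [mul_one, ← sph_eq]
    exact hq0
  rw [card_left_divisors hp h4 h5, if_neg (not_dv_of_sph hp hq0)]

theorem deg_hecke {p : ℕ} (hp : p.Prime) (h4 : p % 4 = 1) :
    Deg (HeckeQG p) (2 * ((p : ℝ) + 1)) := by
  intro s
  have h1 : (Finset.univ.filter fun e : (HeckeQG p).E => (HeckeQG p).src e = s).card ≤
      (sph p).card := by
    refine Finset.card_le_card_of_injOn (fun e => e.1) ?_ ?_
    · intro e _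
      exact e.2
    · intro e _ e' _ h
      exact Subtype.ext h
  have h2 : (sph p).card = 2 * (p + 1) := Rp_prime hp h4
  rw [h2] at h1
  exact_mod_cast h1

end BQP
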