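import Mathlib
import Pool.Agent.BQ.P_Grf

/-!
# BQ block P: the export in the forms used by the other blocks
-/

open Quaternion Matrix
open scoped Matrix.Norms.L2Operator

namespace BQP

open BQA Pool.Agent.BQ

theorem sum_apply_le {l n : ℕ} {B : ℝ} (h : ‖Tm l n‖ ≤ B)
    (x : EuclideanSpace ℂ (Fin (l + 1))) :
    ‖∑ q ∈ sph n, Matrix.toEuclideanLin (rho l (usp q)) x‖ ≤ B * ‖x‖ := by
  have h1 : ∑ q ∈ sph n, Matrix.toEuclideanLin (rho l (usp q)) x =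
      Matrix.toEuclideanCLM (n := Fin (l + 1)) (𝕜 := ℂ) (Tm l n) x := by
    unfold Tm
    rw [map_sum, _root_.sum_apply]
    rfl
  rw [h1]
  refine (ContinuousLinearMap.le_opNorm _ _).trans ?_
  rw [Matrix.l2_opNorm_toEuclideanCLM]
  gcongr

/-- the form used in the assembly: one prime `p2` and `γ < 1` such that all Hecke operators of
`p p2 ^ a` are small on all `V_l`, `l ≥ 1` -/
def PStmt : Prop := ∃ p2 : ℕ, p2.Prime ∧ p2 % 4 = 1 ∧ 2 ^ 35 ≤ p2 ∧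
  ∃ γ : ℝ, 0 < γ ∧ γ < 1 ∧ ∀ (a l p : ℕ), 1 ≤ l → p.Prime → p % 4 = 1 → p ≠ p2 →
    ∀ x : EuclideanSpace ℂ (Fin (l + 1)),
      ‖∑ q ∈ sph (p * p2 ^ a), Matrix.toEuclideanLin (rho l (usp q)) x‖ ≤
        2 * ((a : ℝ) + 1) * γ ^ a * Rp (p * p2 ^ a) * ‖x‖

theorem PStmt_of_HF (hW : HFHecke) : PStmt := by
  obtain ⟨p2, h1, h2, h3, γ, h4, h5, h6⟩ := P_of_HF hW
  refine ⟨p2, h1, h2, h3, γ, h4, h5, fun a l p hl hp h4p hne x => ?_⟩
  have h7 := h6 a l p hl hp h4p hne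
  refine sum_apply_le (h7.trans ?_) x
  have h8 : (0 : ℝ) ≤ ((a : ℝ) + 1) * γ ^ a * Rp (p * p2 ^ a) := by positivity
  linarith

end BQP
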