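import Mathlib
import Pool.Agent.BQ.P_Main

/-!
# BQ block P: the bridge from the general high frequency bound (block W) to the Hecke graph
-/

open Quaternion

namespace BQP

open BQA Pool.Agent.BQ

/-- the statement of block W -/
def WStmt : Prop := ∃ K : ℝ, 0 ≤ K ∧ ∀ (n : ℕ) (Γ : QG n) (p C : ℕ) (Δ : ℝ),
  p.Prime → p ≠ 2 → p ∣ n → ¬ p ^ 2 ∣ n → Mult Γ p C → Deg Γ Δ → 1 ≤ C → (C : ℝ) ≤ Δ →
  2 * Δ ≤ (p : ℝ) ^ 2 → ∀ (l m : ℕ), 1 ≤ l → 1 ≤ m → ∀ B : ℝ, 0 ≤ B →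
  4 * (Fintype.card Γ.V : ℝ) * ((l : ℝ) + 1) ^ 2 * (4 * C * Δ) ^ m +
      K * (Fintype.card Γ.V : ℝ) * (4 * (C : ℝ) ^ 2 * (n : ℝ) ^ (2.2 : ℝ)) ^ m / ((l : ℝ) + 1) ≤
    B ^ (2 * m) → MBd Γ (rho l) B

theorem HF_of_W (h : WStmt) : HFHecke := by
  obtain ⟨K, hK, h⟩ := h
  refine ⟨K, hK, fun p l m B hp h4 hbig hl hm hB hle => ?_⟩
  have hp2 : p ≠ 2 := by omega
  have hsq : ¬ p ^ 2 ∣ p := by
    intro hd
    have h1 := Nat.le_of_dvd hp.pos hd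
    nlinarith [hp.two_le]
  have hbig' : (128 : ℝ) ≤ p := by exact_mod_cast hbig
  refine h p (HeckeQG p) p 2 (2 * ((p : ℝ) + 1)) hp hp2 dvd_rfl hsq (mult_hecke hp h4)
    (deg_hecke hp h4) (by norm_num) (by push_cast; linarith) (by nlinarith) l m hl hm B hB ?_
  have hcard : (Fintype.card (HeckeQG p).V : ℝ) = 1 := by
    have : Fintype.card (HeckeQG p).V = 1 := by
      change Fintype.card Unit = 1
      exact Fintype.card_unit
    rw [this]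
    norm_num
  rw [hcard]
  push_cast
  rw [mul_one, mul_one]
  exact hle

/-- block P from block W -/
theorem PStmt_of_W (h : WStmt) : PStmt := PStmt_of_HF (HF_of_W h)

end BQP
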