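import Mathlib

/-!
# BQ block W: Chebyshev polynomials of the second kind (PAPER.md (7.3))
-/

open Polynomial

namespace BQA

/-- `U_a U_b = U_(a+b) + U_(a-1) U_(b-1)` -/
theorem cheb_step (a : ℤ) (b : ℕ) : Chebyshev.U ℝ a * Chebyshev.U ℝ b =
    Chebyshev.U ℝ (a + b) + Chebyshev.U ℝ (a - 1) * Chebyshev.U ℝ (b - 1) := by
  induction b using Nat.strong_induction_on with
  | _ b ih =>
    match b with
    | 0 => simp
    | 1 =>
      have h := Chebyshev.U_add_one ℝ a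
      simp only [Nat.cast_one, sub_self, Chebyshev.U_one, Chebyshev.U_zero]
      rw [h]
      ring
    | b + 2 =>
      have e1 := ih (b + 1) (by omega)
      have e2 := ih b (by omega)
      have h1 := Chebyshev.U_add_two ℝ (b : ℤ)
      have h2 := Chebyshev.U_add_two ℝ (a + b)
      have h3 := Chebyshev.U_add_two ℝ ((b : ℤ) - 1)
      push_cast at e1 e2 ⊢
      rw [show (b : ℤ) - 1 + 2 = b + 1 by ring, show (b : ℤ) - 1 + 1 = b by ring] at h3
      rw [show (b : ℤ) + 1 - 1 = b by ring] at e1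
      rw [show a + ((b : ℤ) + 1) = a + b + 1 by ring] at e1
      rw [show a + ((b : ℤ) + 2) = a + b + 2 by ring, show (b : ℤ) + 2 - 1 = b + 1 by ring]
      linear_combination (2 * X) * e1 - e2 + Chebyshev.U ℝ a * h1 - h2 - Chebyshev.U ℝ (a - 1) * h3

/-- `U_(b+c) U_b = ∑_(i ≤ b) U_(c+2i)` -/
theorem cheb_mul (b c : ℕ) : Chebyshev.U ℝ ((b + c : ℕ) : ℤ) * Chebyshev.U ℝ (b : ℤ) =
    ∑ i ∈ Finset.range (b + 1), Chebyshev.U ℝ ((c + 2 * i : ℕ) : ℤ) := by
  induction b with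
  | zero => simp
  | succ b ih =>
    rw [cheb_step, Finset.sum_range_succ, ← ih]
    push_cast
    rw [show (b : ℤ) + 1 + c - 1 = b + c by ring, show (b : ℤ) + 1 - 1 = b by ring,
      show (b : ℤ) + 1 + c + (b + 1) = c + 2 * (b + 1) by ring]
    ring

/-- product formula for any order of the indices -/
theorem cheb_mul' (a b : ℕ) : Chebyshev.U ℝ (a : ℤ) * Chebyshev.U ℝ (b : ℤ) =
    ∑ i ∈ Finset.range (min a b + 1), Chebyshev.U ℝ ((max a b - min a b + 2 * i : ℕ) : ℤ) := by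
  rcases le_total b a with h | h
  · rw [max_eq_left h, min_eq_right h, ← cheb_mul b (a - b), Nat.add_sub_cancel' h]
  · rw [max_eq_right h, min_eq_left h, ← cheb_mul a (b - a), Nat.add_sub_cancel' h, mul_comm]

/-- the index set of the cube of `U_l` -/
def cubeIdx (l : ℕ) : Finset (Σ _ : ℕ, ℕ) :=
  (Finset.range (l + 1)).sigma fun i => Finset.range (min l (2 * i) + 1)

/-- the indices of the terms of the cube of `U_l` -/
def cubeVal (l : ℕ) (s : Σ _ : ℕ, ℕ) : ℕ := max l (2 * s.1) - min l (2 * s.1) + 2 * s.2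

theorem cubeVal_lt {l : ℕ} {s : Σ _ : ℕ, ℕ} (h : s ∈ cubeIdx l) :
    cubeVal l s ∈ Finset.range (3 * l + 1) := by
  obtain ⟨i, j⟩ := s
  simp only [cubeIdx, Finset.mem_sigma, Finset.mem_range] at h
  simp only [cubeVal, Finset.mem_range]
  omega

/-- the multiplicities of the cube of `U_l` -/
def cubeMul (l k : ℕ) : ℕ := ((cubeIdx l).filter fun s => cubeVal l s = k).card

theorem cheb_cube_pol (l : ℕ) : (Chebyshev.U ℝ (l : ℤ)) ^ 3 =
    ∑ k ∈ Finset.range (3 * l + 1), (cubeMul l k : ℝ[X]) * Chebyshev.U ℝ (k : ℤ) := by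
  have h2 : (Chebyshev.U ℝ (l : ℤ)) * (Chebyshev.U ℝ (l : ℤ)) =
      ∑ i ∈ Finset.range (l + 1), Chebyshev.U ℝ ((2 * i : ℕ) : ℤ) := by
    have := cheb_mul l 0
    simpa using this
  have h3 : (Chebyshev.U ℝ (l : ℤ)) ^ 3 = ∑ s ∈ cubeIdx l, Chebyshev.U ℝ (cubeVal l s : ℤ) := by
    rw [pow_succ, sq, h2, Finset.sum_mul, cubeIdx, Finset.sum_sigma]
    refine Finset.sum_congr rfl fun i _ => ?_
    rw [mul_comm, cheb_mul' l (2 * i)]
    rfl
  rw [h3, ← Finset.sum_fiberwise_of_maps_to (fun s hs => cubeVal_lt hs)]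
  refine Finset.sum_congr rfl fun k _ => ?_
  rw [Finset.sum_congr rfl (g := fun _ => Chebyshev.U ℝ (k : ℤ)) (fun s hs => by
    rw [(Finset.mem_filter.1 hs).2]), Finset.sum_const, nsmul_eq_mul]
  rfl

theorem cubeMul_self (l : ℕ) : l + 1 ≤ cubeMul l l := by
  have h : (Finset.range (l + 1)).card ≤
      ((cubeIdx l).filter fun s => cubeVal l s = l).card := by
    refine Finset.card_le_card_of_injOn (fun i => (⟨i, min i (l - i)⟩ : Σ _ : ℕ, ℕ)) ?_ ?_
    · intro i hi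
      have hi' : i < l + 1 := Finset.mem_range.1 hi
      refine Finset.mem_filter.2 ⟨?_, ?_⟩
      · simp only [cubeIdx, Finset.mem_sigma, Finset.mem_range]
        omega
      · simp only [cubeVal]
        omega
    · intro i _ j _ h
      exact congrArg Sigma.fst h
  rwa [Finset.card_range] at h

/-- the cube of `U_l` is a combination of the `U_k` with natural coefficients, the one of `U_l`
is at least `l + 1` -/
theorem cheb_cube (l : ℕ) : ∃ m : ℕ → ℕ, l + 1 ≤ m l ∧ ∀ x : ℝ,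
    ((Chebyshev.U ℝ (l : ℤ)).eval x) ^ 3 =
      ∑ k ∈ Finset.range (3 * l + 1), (m k : ℝ) * (Chebyshev.U ℝ (k : ℤ)).eval x := by
  refine ⟨cubeMul l, cubeMul_self l, fun x => ?_⟩
  rw [← eval_pow, cheb_cube_pol, eval_finsetSum]
  refine Finset.sum_congr rfl fun k _ => ?_
  rw [eval_mul, eval_natCast]

theorem cheb_abs_le {x : ℝ} (hx : |x| ≤ 1) (l : ℕ) :
    |(Chebyshev.U ℝ (l : ℤ)).eval x| ≤ (l : ℝ) + 1 := by
  induction l with
  | zero => simp
  | succ l ih =>
    have h1 := congrArg (fun p => eval x p) (Chebyshev.U_eq_X_mul_U_add_T ℝ (l : ℤ))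
    simp only [eval_add, eval_mul, eval_X] at h1
    have h2 : |(Chebyshev.T ℝ ((l : ℤ) + 1)).eval x| ≤ 1 := by
      obtain ⟨h3, h4⟩ := abs_le.1 hx
      have hc : Real.cos (Real.arccos x) = x := Real.cos_arccos h3 h4
      have h5 := Chebyshev.T_real_cos (Real.arccos x) ((l : ℤ) + 1)
      rw [hc] at h5
      rw [h5]
      exact Real.abs_cos_le_one _
    push_cast
    rw [h1]
    calc |x * (Chebyshev.U ℝ (l : ℤ)).eval x + (Chebyshev.T ℝ ((l : ℤ) + 1)).eval x|
        ≤ |x * (Chebyshev.U ℝ (l : ℤ)).eval x| + |(Chebyshev.T ℝ ((l : ℤ) + 1)).eval x| :=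
          abs_add_le _ _
      _ ≤ 1 * ((l : ℝ) + 1) + 1 := by
          rw [abs_mul]
          gcongr
      _ = (l : ℝ) + 1 + 1 := by ring

theorem cheb_sq_le {x : ℝ} (hx : |x| ≤ 1) (l : ℕ) :
    ((Chebyshev.U ℝ (l : ℤ)).eval x) ^ 2 * (1 - x ^ 2) ≤ 1 := by
  obtain ⟨h1, h2⟩ := abs_le.1 hx
  have hc : Real.cos (Real.arccos x) = x := Real.cos_arccos h1 h2
  have h3 := Chebyshev.U_real_cos (Real.arccos x) (l : ℤ)
  have h4 : 1 - x ^ 2 = Real.sin (Real.arccos x) ^ 2 := by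
    rw [Real.sin_sq, hc]
  rw [hc] at h3
  rw [h4, ← mul_pow, h3]
  exact Real.sin_sq_le_one _

end BQA
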