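import Mathlib

/-!
# BQ block W: the norm of a Hermitian matrix from the trace of an even power
-/

open Matrix

namespace BQA

section

variable {ι : Type} [Fintype ι] [DecidableEq ι]

theorem trace_sq_eq (M : Matrix ι ι ℂ) : ((Mᴴ * M).trace).re = ∑ i, ∑ j, ‖M i j‖ ^ 2 := by
  rw [Matrix.trace, Complex.re_sum, Finset.sum_comm]
  refine Finset.sum_congr rfl fun j _ => ?_
  rw [Matrix.diag_apply, Matrix.mul_apply, Complex.re_sum]
  refine Finset.sum_congr rfl fun i _ => ?_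
  rw [Matrix.conjTranspose_apply, ← Complex.normSq_eq_norm_sq, Complex.normSq_apply]
  simp only [Complex.mul_re, Complex.star_def, Complex.conj_re, Complex.conj_im]
  ring

theorem herm_trace_eq (A : Matrix ι ι ℂ) (hA : A.IsHermitian) (m : ℕ) :
    ((A ^ (2 * m)).trace).re = ∑ i, ∑ j, ‖(A ^ m) i j‖ ^ 2 := by
  rw [← trace_sq_eq, (hA.pow m).eq, two_mul, pow_add]

theorem herm_trace_nonneg (A : Matrix ι ι ℂ) (hA : A.IsHermitian) (m : ℕ) :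
    0 ≤ ((A ^ (2 * m)).trace).re := by
  rw [herm_trace_eq A hA m]
  positivity

theorem norm_mulVec_sq_le (M : Matrix ι ι ℂ) (y : ι → ℂ) :
    ‖WithLp.toLp 2 (M *ᵥ y)‖ ^ 2 ≤ (∑ i, ∑ j, ‖M i j‖ ^ 2) * ‖WithLp.toLp 2 y‖ ^ 2 := by
  rw [EuclideanSpace.norm_sq_eq, EuclideanSpace.norm_sq_eq, Finset.sum_mul]
  refine Finset.sum_le_sum fun i _ => ?_
  have h1 : ‖(M *ᵥ y) i‖ ≤ ∑ j, ‖M i j‖ * ‖y j‖ := by
    rw [Matrix.mulVec, dotProduct]
    refine (norm_sum_le _ _).trans ?_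
    exact Finset.sum_le_sum fun j _ => (norm_mul _ _).le
  calc ‖(M *ᵥ y) i‖ ^ 2 ≤ (∑ j, ‖M i j‖ * ‖y j‖) ^ 2 :=
        pow_le_pow_left₀ (norm_nonneg _) h1 2
    _ ≤ (∑ j, ‖M i j‖ ^ 2) * (∑ j, ‖y j‖ ^ 2) := Finset.sum_mul_sq_le_sq_mul_sq _ _ _

/-- the norms of the iterates -/
noncomputable def itn (A : Matrix ι ι ℂ) (y : ι → ℂ) (k : ℕ) : ℝ :=
  ‖WithLp.toLp 2 ((A ^ k) *ᵥ y)‖

theorem itn_nonneg (A : Matrix ι ι ℂ) (y : ι → ℂ) (k : ℕ) : 0 ≤ itn A y k := norm_nonneg _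

theorem itn_sq_le (A : Matrix ι ι ℂ) (hA : A.IsHermitian) (y : ι → ℂ) (k : ℕ) :
    itn A y (k + 1) ^ 2 ≤ itn A y k * itn A y (k + 2) := by
  have h1 : inner ℂ (WithLp.toLp 2 ((A ^ (k + 1)) *ᵥ y)) (WithLp.toLp 2 ((A ^ (k + 1)) *ᵥ y)) =
      inner ℂ (WithLp.toLp 2 ((A ^ k) *ᵥ y)) (WithLp.toLp 2 ((A ^ (k + 2)) *ᵥ y)) := by
    rw [EuclideanSpace.inner_toLp_toLp, EuclideanSpace.inner_toLp_toLp, dotProduct_comm,
      dotProduct_comm _ (star ((A ^ k) *ᵥ y))]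
    have h2 : (A ^ (k + 1)) *ᵥ y = A *ᵥ ((A ^ k) *ᵥ y) := by
      rw [mulVec_mulVec, ← pow_succ']
    have h3 : (A ^ (k + 2)) *ᵥ y = A *ᵥ ((A ^ (k + 1)) *ᵥ y) := by
      rw [mulVec_mulVec, ← pow_succ']
    conv_lhs => rw [h2, ← h2]
    rw [h3]
    conv_lhs => enter [1]; rw [h2]
    rw [star_mulVec, hA.eq, ← dotProduct_mulVec]
  have h4 : itn A y (k + 1) ^ 2 = RCLike.re (inner ℂ (WithLp.toLp 2 ((A ^ (k + 1)) *ᵥ y))
      (WithLp.toLp 2 ((A ^ (k + 1)) *ᵥ y))) := by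
    rw [inner_self_eq_norm_sq]
    rfl
  rw [h4, h1]
  exact (RCLike.re_le_norm _).trans (norm_inner_le_norm _ _)

theorem itn_ratio (A : Matrix ι ι ℂ) (hA : A.IsHermitian) (y : ι → ℂ) (k : ℕ) :
    itn A y 1 * itn A y k ≤ itn A y 0 * itn A y (k + 1) := by
  induction k with
  | zero => rw [mul_comm]
  | succ k ih =>
    rcases (itn_nonneg A y (k + 1)).eq_or_lt with h | h
    · rw [← h, mul_zero]
      exact mul_nonneg (itn_nonneg _ _ _) (itn_nonneg _ _ _)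
    · have h1 := itn_sq_le A hA y k
      have h2 : itn A y 1 * itn A y (k + 1) * itn A y (k + 1) ≤
          itn A y 0 * itn A y (k + 1 + 1) * itn A y (k + 1) := by
        calc itn A y 1 * itn A y (k + 1) * itn A y (k + 1)
            = itn A y 1 * itn A y (k + 1) ^ 2 := by ring
          _ ≤ itn A y 1 * (itn A y k * itn A y (k + 2)) := by
              gcongr
              exact itn_nonneg _ _ _
          _ = (itn A y 1 * itn A y k) * itn A y (k + 2) := by ring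
          _ ≤ (itn A y 0 * itn A y (k + 1)) * itn A y (k + 2) := by
              gcongr
              exact itn_nonneg _ _ _
          _ = itn A y 0 * itn A y (k + 1 + 1) * itn A y (k + 1) := by ring
      exact le_of_mul_le_mul_right h2 h

theorem itn_pow (A : Matrix ι ι ℂ) (hA : A.IsHermitian) (y : ι → ℂ) (m : ℕ) :
    itn A y 1 ^ (m + 1) ≤ itn A y (m + 1) * itn A y 0 ^ m := by
  induction m with
  | zero => simp
  | succ m ih =>
    have h0 := itn_nonneg A y 0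
    calc itn A y 1 ^ (m + 1 + 1) = itn A y 1 ^ (m + 1) * itn A y 1 := by ring
      _ ≤ (itn A y (m + 1) * itn A y 0 ^ m) * itn A y 1 := by
          gcongr
          exact itn_nonneg _ _ _
      _ = (itn A y 1 * itn A y (m + 1)) * itn A y 0 ^ m := by ring
      _ ≤ (itn A y 0 * itn A y (m + 1 + 1)) * itn A y 0 ^ m :=
          mul_le_mul_of_nonneg_right (itn_ratio A hA y (m + 1)) (pow_nonneg h0 m)
      _ = itn A y (m + 1 + 1) * itn A y 0 ^ (m + 1) := by ring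

theorem herm_apply_le (A : Matrix ι ι ℂ) (hA : A.IsHermitian) (m : ℕ) (hm : 1 ≤ m)
    (B : ℝ) (hB : 0 ≤ B) (h : ((A ^ (2 * m)).trace).re ≤ B ^ (2 * m)) (y : ι → ℂ) :
    ‖WithLp.toLp 2 (A *ᵥ y)‖ ≤ B * ‖WithLp.toLp 2 y‖ := by
  obtain ⟨k, rfl⟩ : ∃ k, m = k + 1 := ⟨m - 1, by omega⟩
  have h0 : itn A y 0 = ‖WithLp.toLp 2 y‖ := by
    rw [itn, pow_zero, one_mulVec]
  have h1 : itn A y 1 = ‖WithLp.toLp 2 (A *ᵥ y)‖ := by
    rw [itn, pow_one]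
  rw [← h0, ← h1]
  have h2 : itn A y (k + 1) ≤ B ^ (k + 1) * itn A y 0 := by
    have h3 := norm_mulVec_sq_le (A ^ (k + 1)) y
    rw [← herm_trace_eq A hA (k + 1), ← h0] at h3
    have h4 : itn A y (k + 1) ^ 2 ≤ (B ^ (k + 1) * itn A y 0) ^ 2 := by
      calc itn A y (k + 1) ^ 2 ≤ ((A ^ (2 * (k + 1))).trace).re * itn A y 0 ^ 2 := h3
        _ ≤ B ^ (2 * (k + 1)) * itn A y 0 ^ 2 := by gcongr
        _ = (B ^ (k + 1) * itn A y 0) ^ 2 := by ring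
    exact (sq_le_sq₀ (itn_nonneg _ _ _) (mul_nonneg (pow_nonneg hB _) (itn_nonneg _ _ _))).1 h4
  have h3 := itn_pow A hA y k
  have h4 : itn A y 1 ^ (k + 1) ≤ (B * itn A y 0) ^ (k + 1) := by
    calc itn A y 1 ^ (k + 1) ≤ itn A y (k + 1) * itn A y 0 ^ k := h3
      _ ≤ (B ^ (k + 1) * itn A y 0) * itn A y 0 ^ k :=
          mul_le_mul_of_nonneg_right h2 (pow_nonneg (itn_nonneg A y 0) k)
      _ = (B * itn A y 0) ^ (k + 1) := by ring
  exact (pow_le_pow_iff_left₀ (itn_nonneg _ _ _) (mul_nonneg hB (itn_nonneg _ _ _))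
    (by omega)).1 h4

/-- the sesquilinear form of a Hermitian matrix from the trace of an even power -/
theorem herm_pow_bound (A : Matrix ι ι ℂ) (hA : A.IsHermitian) (m : ℕ) (hm : 1 ≤ m)
    (B : ℝ) (hB : 0 ≤ B) (h : ((A ^ (2 * m)).trace).re ≤ B ^ (2 * m)) (x y : ι → ℂ) :
    ‖star x ⬝ᵥ (A *ᵥ y)‖ ≤ B * Real.sqrt (∑ i, ‖x i‖ ^ 2) * Real.sqrt (∑ i, ‖y i‖ ^ 2) := by
  have hx : Real.sqrt (∑ i, ‖x i‖ ^ 2) = ‖WithLp.toLp 2 x‖ := by
    rw [EuclideanSpace.norm_eq]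
  have hy : Real.sqrt (∑ i, ‖y i‖ ^ 2) = ‖WithLp.toLp 2 y‖ := by
    rw [EuclideanSpace.norm_eq]
  rw [hx, hy]
  have h1 : star x ⬝ᵥ (A *ᵥ y) = inner ℂ (WithLp.toLp 2 x) (WithLp.toLp 2 (A *ᵥ y)) := by
    rw [EuclideanSpace.inner_toLp_toLp, dotProduct_comm]
  rw [h1]
  refine (norm_inner_le_norm _ _).trans ?_
  calc ‖WithLp.toLp 2 x‖ * ‖WithLp.toLp 2 (A *ᵥ y)‖
      ≤ ‖WithLp.toLp 2 x‖ * (B * ‖WithLp.toLp 2 y‖) := by
        gcongr
        exact herm_apply_le A hA m hm B hB h y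
    _ = _ := by ring

end

end BQA
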