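import Pool.Agent.BQ.W_Mat
import Pool.Agent.BQ.W_Cheb
import Pool.Agent.BQ.W_Herm
import Pool.Agent.BQ.A_Lat

/-!
# BQ, block W: the trace bound (PAPER.md, section 7)
-/

set_option autoImplicit false

open Quaternion Finset Matrix

namespace BQA

noncomputable section

variable {n : ℕ}

/-- the trace of `T ^ (2m)` in the representation `rho l` as a real number -/
def trl (Γ : QG n) (m l : ℕ) : ℝ := (W0 Γ (2 * m)).sum (fun P a => (a : ℝ) *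
  (Polynomial.Chebyshev.U ℝ (l : ℤ)).eval ((P.re : ℝ) / (n : ℝ) ^ m))

theorem trl_eq (Γ : QG n) (hn : n ≠ 0) (m l : ℕ) :
    (((opM Γ (Pool.Agent.BQ.rho l)) ^ (2 * m)).trace).re = trl Γ m l := by
  rw [trace_pow Γ hn l m, Complex.ofReal_re]
  rfl

theorem rho_star (l : ℕ) (u : S3) :
    (Pool.Agent.BQ.rho l u)ᴴ = Pool.Agent.BQ.rho l u⁻¹ := Pool.Agent.BQ.rho_conjTranspose l u

theorem trl_nonneg (Γ : QG n) (hn : n ≠ 0) (m l : ℕ) : 0 ≤ trl Γ m l := by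
  rw [← trl_eq Γ hn]
  exact herm_trace_nonneg _ (opM_herm Γ _ (rho_star l)) m

/-- the cube inequality -/
theorem trl_cube (Γ : QG n) (hn : n ≠ 0) (m l : ℕ) :
    ((l : ℝ) + 1) * trl Γ m l ≤ (W0 Γ (2 * m)).sum (fun P a => (a : ℝ) *
      |(Polynomial.Chebyshev.U ℝ (l : ℤ)).eval ((P.re : ℝ) / (n : ℝ) ^ m)| ^ 3) := by
  obtain ⟨mm, hm1, hm2⟩ := cheb_cube l
  have h1 : (W0 Γ (2 * m)).sum (fun P a => (a : ℝ) *
      ((Polynomial.Chebyshev.U ℝ (l : ℤ)).eval ((P.re : ℝ) / (n : ℝ) ^ m)) ^ 3) =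
      ∑ k ∈ range (3 * l + 1), (mm k : ℝ) * trl Γ m k := by
    unfold trl
    simp only [Finsupp.sum, hm2, Finset.mul_sum]
    rw [Finset.sum_comm]
    apply Finset.sum_congr rfl
    intro k _
    apply Finset.sum_congr rfl
    intro P _
    ring
  have h2 : ((l : ℝ) + 1) * trl Γ m l ≤ ∑ k ∈ range (3 * l + 1), (mm k : ℝ) * trl Γ m k := by
    have h3 : ((l : ℝ) + 1) * trl Γ m l ≤ (mm l : ℝ) * trl Γ m l := by
      apply mul_le_mul_of_nonneg_right _ (trl_nonneg Γ hn m l)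
      exact_mod_cast hm1
    refine h3.trans ?_
    exact Finset.single_le_sum (f := fun k => (mm k : ℝ) * trl Γ m k)
      (fun k _ => mul_nonneg (Nat.cast_nonneg _) (trl_nonneg Γ hn m k))
      (Finset.mem_range.2 (by omega))
  rw [← h1] at h2
  refine h2.trans ?_
  simp only [Finsupp.sum]
  apply Finset.sum_le_sum
  intro P _
  apply mul_le_mul_of_nonneg_left _ (Nat.cast_nonneg _)
  rw [← abs_pow]
  exact le_abs_self _

/-- bound for the number of closed walks with product `P` -/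
theorem W0_bound (Γ : QG n) {p : ℕ} (hp : p.Prime) (hp2 : p ≠ 2) (h1 : p ∣ n)
    (h2 : ¬ p ^ 2 ∣ n) {C : ℕ} {Δ : ℝ} (hC : 1 ≤ C) (hCD : (C : ℝ) ≤ Δ)
    (hM : Mult Γ p C) (hD : Deg Γ Δ) (m : ℕ) (Q : ℍ[ℤ]) (hQ : Q ≠ 0) :
    (W0 Γ (2 * m) Q : ℝ) ≤ Fintype.card Γ.V * (4 * C * Δ) ^ m *
      Real.sqrt (C / Δ) ^ lev p Q := by
  have hK : (2 * Real.sqrt (C * Δ)) ^ (2 * m) = (4 * C * Δ) ^ m := by
    have hC1 : (1 : ℝ) ≤ C := by exact_mod_cast hC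
    have h0 : 0 ≤ (C : ℝ) * Δ := by
      have : 0 ≤ Δ := by linarith
      positivity
    rw [pow_mul, mul_pow, Real.sq_sqrt h0]
    ring
  have h3 : (W0 Γ (2 * m) Q : ℝ) ≤ ∑ s, (Ws Γ (2 * m) s Q : ℝ) := by
    exact_mod_cast W0_le Γ (2 * m) Q
  refine h3.trans ?_
  have h4 : ∀ s ∈ (univ : Finset Γ.V), (Ws Γ (2 * m) s Q : ℝ) ≤
      (4 * C * Δ) ^ m * Real.sqrt (C / Δ) ^ lev p Q := by
    intro s _
    rw [← hK]
    exact Ws_bound Γ hp hp2 h1 h2 hC hCD hM hD (2 * m) s Q hQ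
  refine (Finset.sum_le_sum h4).trans ?_
  rw [Finset.sum_const, nsmul_eq_mul, Finset.card_univ]
  apply le_of_eq
  ring

theorem cheb_cube_le {x : ℝ} (hx : x ^ 2 < 1) (l : ℕ) :
    |(Polynomial.Chebyshev.U ℝ (l : ℤ)).eval x| ^ 3 ≤ (1 / (1 - x ^ 2)) ^ ((3 : ℝ) / 2) := by
  have hx1 : |x| ≤ 1 := by
    rw [← sq_le_one_iff_abs_le_one]; exact hx.le
  have h := cheb_sq_le hx1 l
  have hpos : 0 < 1 - x ^ 2 := by linarith
  set u := |(Polynomial.Chebyshev.U ℝ (l : ℤ)).eval x| with hu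
  have hu0 : 0 ≤ u := abs_nonneg _
  have h2 : u ^ 2 ≤ 1 / (1 - x ^ 2) := by
    rw [hu, sq_abs, le_div_iff₀ hpos]; exact h
  calc u ^ 3 = (u ^ 2) ^ ((3 : ℝ) / 2) := by
        rw [← Real.rpow_natCast, ← Real.rpow_natCast, ← Real.rpow_mul hu0]
        congr 1; norm_num
    _ ≤ (1 / (1 - x ^ 2)) ^ ((3 : ℝ) / 2) :=
        Real.rpow_le_rpow (by positivity) h2 (by norm_num)

/-- the level of a product of a closed walk of length `2m` -/
theorem content_of {p : ℕ} (hp : p.Prime) (h1 : p ∣ n) (h2 : ¬ p ^ 2 ∣ n) {m : ℕ} {P : ℍ[ℤ]}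
    (hP : normSq P = (n : ℤ) ^ (2 * m)) : ∃ c, c ≤ m ∧ lev p P = 2 * (m - c) ∧
      ∃ P0 : ℍ[ℤ], P = ((p : ℤ) ^ c) • P0 := by
  have hn : n ≠ 0 := by
    rintro rfl
    exact h2 (dvd_zero _)
  have hP0 : P ≠ 0 := by
    rintro rfl
    rw [map_zero] at hP
    exact pow_ne_zero (2 * m) (by exact_mod_cast hn : (n : ℤ) ≠ 0) hP.symm
  obtain ⟨c, P0, hc, hnd⟩ := V_exists hp _ P hP0 le_rfl
  have h3 := lev_add hp hc hnd
  have h4 : padicValInt p (normSq P) = 2 * m := by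
    rw [hP]
    have h5 : ((n : ℤ) ^ (2 * m)) = ((n ^ (2 * m) : ℕ) : ℤ) := by push_cast; ring
    have := Fact.mk hp
    rw [h5, padicValInt.of_nat, padicValNat.pow]
    have h6 : padicValNat p n = 1 := by
      apply le_antisymm
      · by_contra h7
        push Not at h7
        exact h2 ((padicValNat_dvd_iff_le hn).2 h7)
      · exact one_le_padicValNat_of_dvd hn h1
    rw [h6, mul_one]
  refine ⟨c, by omega, by omega, P0, hc⟩

/-- the lattice sum for a fixed content -/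
theorem sum_content {CL : ℝ} (hCL : ∀ X : ℕ, 1 ≤ X → ∀ F : Finset ℍ[ℤ],
    (∀ Q ∈ F, normSq Q = (X : ℤ) ^ 2 ∧ Q.re ^ 2 < (X : ℤ) ^ 2) →
    ∑ Q ∈ F, ((X : ℝ) ^ 2 / ((X : ℝ) ^ 2 - (Q.re : ℝ) ^ 2)) ^ ((3 : ℝ) / 2) ≤
      CL * (X : ℝ) ^ (2.2 : ℝ))
    {p : ℕ} (hp : p.Prime) (hn : n ≠ 0) (h1 : p ∣ n) {m c : ℕ} (hc : c ≤ m) (F : Finset ℍ[ℤ])
    (hF : ∀ P ∈ F, normSq P = (n : ℤ) ^ (2 * m) ∧ P.re ^ 2 < (n : ℤ) ^ (2 * m) ∧
      ∃ P0 : ℍ[ℤ], P = ((p : ℤ) ^ c) • P0) :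
    ∑ P ∈ F, (1 / (1 - ((P.re : ℝ) / (n : ℝ) ^ m) ^ 2)) ^ ((3 : ℝ) / 2) ≤
      CL * (((n : ℝ) ^ (2.2 : ℝ)) ^ m / ((p : ℝ) ^ (2.2 : ℝ)) ^ c) := by
  classical
  have hp0 : (p : ℤ) ≠ 0 := by exact_mod_cast hp.ne_zero
  have hpR : (0 : ℝ) < p := by exact_mod_cast hp.pos
  have hnR : (0 : ℝ) < n := by exact_mod_cast Nat.pos_of_ne_zero hn
  obtain ⟨Y, hY⟩ : p ^ c ∣ n ^ m := (pow_dvd_pow p hc).trans (pow_dvd_pow_of_dvd h1 m)
  have hY0 : Y ≠ 0 := by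
    rintro rfl
    rw [mul_zero] at hY
    exact pow_ne_zero m hn hY
  have hYR : (0 : ℝ) < Y := by exact_mod_cast Nat.pos_of_ne_zero hY0
  have hYn : (n : ℝ) ^ m = (p : ℝ) ^ c * Y := by exact_mod_cast hY
  have hYZ : (n : ℤ) ^ m = (p : ℤ) ^ c * Y := by exact_mod_cast hY
  have hpc : ((p : ℤ) ^ c) ≠ 0 := pow_ne_zero c hp0
  have hinj : Function.Injective (fun P0 : ℍ[ℤ] => ((p : ℤ) ^ c) • P0) :=
    fun a b h => smul_cancel hpc h
  set F0 : Finset ℍ[ℤ] := F.preimage (fun P0 : ℍ[ℤ] => ((p : ℤ) ^ c) • P0) hinj.injOn with hF0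
  have himg : F = F0.image (fun P0 : ℍ[ℤ] => ((p : ℤ) ^ c) • P0) := by
    ext P
    rw [Finset.mem_image]
    constructor
    · intro hP
      obtain ⟨-, -, P0, h⟩ := hF P hP
      exact ⟨P0, by rw [hF0, Finset.mem_preimage, ← h]; exact hP, h.symm⟩
    · rintro ⟨P0, h3, rfl⟩
      rw [hF0, Finset.mem_preimage] at h3
      exact h3
  have h5 : ∀ P0 ∈ F0, normSq P0 = (Y : ℤ) ^ 2 ∧ P0.re ^ 2 < (Y : ℤ) ^ 2 := by
    intro P0 hP0
    rw [hF0, Finset.mem_preimage] at hP0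
    obtain ⟨h6, h7, -⟩ := hF _ hP0
    have h8 : (n : ℤ) ^ (2 * m) = ((p : ℤ) ^ c) ^ 2 * (Y : ℤ) ^ 2 := by
      rw [mul_comm 2 m, pow_mul, hYZ, mul_pow]
    rw [nq_smul, h8] at h6
    rw [re_zs, h8, mul_pow] at h7
    have hpos : 0 < ((p : ℤ) ^ c) ^ 2 := by positivity
    exact ⟨mul_left_cancel₀ hpos.ne' h6, lt_of_mul_lt_mul_left h7 hpos.le⟩
  have h6 := hCL Y (Nat.pos_of_ne_zero hY0) F0 h5
  rw [himg, Finset.sum_image (fun a _ b _ h => hinj h)]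
  have h7 : ∀ P0 ∈ F0, (1 / (1 - (((((p : ℤ) ^ c) • P0).re : ℝ) / (n : ℝ) ^ m) ^ 2)) ^
      ((3 : ℝ) / 2) = ((Y : ℝ) ^ 2 / ((Y : ℝ) ^ 2 - (P0.re : ℝ) ^ 2)) ^ ((3 : ℝ) / 2) := by
    intro P0 hP0
    congr 1
    rw [re_zs, hYn]
    push_cast
    have hpcR : (0 : ℝ) < (p : ℝ) ^ c := by positivity
    have e1 : (p : ℝ) ^ c * (P0.re : ℝ) / ((p : ℝ) ^ c * Y) = (P0.re : ℝ) / Y := by
      field_simp
    rw [e1]
    have hlt : (P0.re : ℝ) ^ 2 < (Y : ℝ) ^ 2 := by exact_mod_cast (h5 P0 hP0).2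
    have hne : (Y : ℝ) ^ 2 - (P0.re : ℝ) ^ 2 ≠ 0 := by linarith
    rw [div_pow, one_sub_div (by positivity), one_div_div]
  rw [Finset.sum_congr rfl h7]
  refine h6.trans (le_of_eq ?_)
  congr 1
  have hYe : (Y : ℝ) = (n : ℝ) ^ m / (p : ℝ) ^ c := by
    rw [hYn]; field_simp
  rw [hYe, Real.div_rpow (by positivity) (by positivity)]
  congr 1
  · rw [← Real.rpow_natCast, ← Real.rpow_natCast, ← Real.rpow_mul hnR.le, ← Real.rpow_mul hnR.le,
      mul_comm]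
  · rw [← Real.rpow_natCast, ← Real.rpow_natCast, ← Real.rpow_mul hpR.le, ← Real.rpow_mul hpR.le,
      mul_comm]

/-- the bound for the sum of the cubes -/
theorem sum_cube_bound {CL : ℝ} (hCL1 : 1 ≤ CL) (hCL : ∀ X : ℕ, 1 ≤ X → ∀ F : Finset ℍ[ℤ],
    (∀ Q ∈ F, normSq Q = (X : ℤ) ^ 2 ∧ Q.re ^ 2 < (X : ℤ) ^ 2) →
    ∑ Q ∈ F, ((X : ℝ) ^ 2 / ((X : ℝ) ^ 2 - (Q.re : ℝ) ^ 2)) ^ ((3 : ℝ) / 2) ≤
      CL * (X : ℝ) ^ (2.2 : ℝ))
    (Γ : QG n) {p : ℕ} (hp : p.Prime) (hp2 : p ≠ 2) (h1 : p ∣ n)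
    (h2 : ¬ p ^ 2 ∣ n) {C : ℕ} {Δ : ℝ} (hC : 1 ≤ C) (hCD : (C : ℝ) ≤ Δ) (hDp : 2 * Δ ≤ p ^ 2)
    (hM : Mult Γ p C) (hD : Deg Γ Δ) (m l : ℕ) :
    (W0 Γ (2 * m)).sum (fun P a => (a : ℝ) *
      |(Polynomial.Chebyshev.U ℝ (l : ℤ)).eval ((P.re : ℝ) / (n : ℝ) ^ m)| ^ 3) ≤
      2 * Fintype.card Γ.V * (4 * C * Δ) ^ m * ((l : ℝ) + 1) ^ 3 +
      2 * CL * Fintype.card Γ.V * (4 * C ^ 2 * (n : ℝ) ^ (2.2 : ℝ)) ^ m := by
  classical
  have hn : n ≠ 0 := by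
    rintro rfl
    exact h2 (dvd_zero _)
  have hnZ : (n : ℤ) ≠ 0 := by exact_mod_cast hn
  have hnR : (0 : ℝ) < n := by exact_mod_cast Nat.pos_of_ne_zero hn
  have hC1 : (1 : ℝ) ≤ C := by exact_mod_cast hC
  have hD0 : 0 < Δ := by linarith
  have hC0 : (0 : ℝ) < C := by linarith
  have hpR : (0 : ℝ) < p := by exact_mod_cast hp.pos
  have hp1 : (1 : ℝ) ≤ p := by exact_mod_cast hp.one_lt.le
  have hV0 : (0 : ℝ) ≤ Fintype.card Γ.V := Nat.cast_nonneg _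
  set lam := Real.sqrt (C / Δ) with hlam
  have hlam0 : 0 ≤ lam := Real.sqrt_nonneg _
  have hlam2 : lam ^ 2 = C / Δ := Real.sq_sqrt (by positivity)
  set A : ℝ := Fintype.card Γ.V * (4 * C * Δ) ^ m with hA
  have hA0 : 0 ≤ A := by positivity
  simp only [Finsupp.sum]
  set S := (W0 Γ (2 * m)).support with hS
  have hSn : ∀ P ∈ S, normSq P = (n : ℤ) ^ (2 * m) := fun P hP =>
    W0_support Γ _ (Finsupp.mem_support_iff.1 hP)
  have hSne : ∀ P ∈ S, P ≠ 0 := by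
    rintro P hP rfl
    have := hSn _ hP
    rw [map_zero] at this
    exact pow_ne_zero _ hnZ this.symm
  have hW : ∀ P ∈ S, ((W0 Γ (2 * m)) P : ℝ) ≤ A * lam ^ lev p P := fun P hP =>
    W0_bound Γ hp hp2 h1 h2 hC hCD hM hD m P (hSne P hP)
  rw [← Finset.sum_filter_add_sum_filter_not S (fun P => P.re ^ 2 = (n : ℤ) ^ (2 * m))]
  apply add_le_add
  · -- scalar products
    have hcard : (S.filter (fun P => P.re ^ 2 = (n : ℤ) ^ (2 * m))).card ≤ 2 := by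
      have hsub : S.filter (fun P => P.re ^ 2 = (n : ℤ) ^ (2 * m)) ⊆
          {((n : ℤ) ^ m) • (1 : ℍ[ℤ]), (-(n : ℤ) ^ m) • (1 : ℍ[ℤ])} := by
        intro P hP
        rw [mem_filter] at hP
        have h3 := hSn P hP.1
        rw [nq_eq, hP.2] at h3
        have e2 : P.imI = 0 := by nlinarith [sq_nonneg P.imI, sq_nonneg P.imJ, sq_nonneg P.imK]
        have e3 : P.imJ = 0 := by nlinarith [sq_nonneg P.imI, sq_nonneg P.imJ, sq_nonneg P.imK]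
        have e4 : P.imK = 0 := by nlinarith [sq_nonneg P.imI, sq_nonneg P.imJ, sq_nonneg P.imK]
        have e1 : P.re = (n : ℤ) ^ m ∨ P.re = -(n : ℤ) ^ m := by
          have h4 : P.re ^ 2 = ((n : ℤ) ^ m) ^ 2 := by rw [hP.2, ← pow_mul, mul_comm]
          exact sq_eq_sq_iff_eq_or_eq_neg.1 h4
        rw [Finset.mem_insert, Finset.mem_singleton]
        rcases e1 with e1 | e1
        · left
          refine qext ?_ ?_ ?_ ?_
          · rw [re_zs, e1]; simp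
          · rw [imI_zs, e2]; simp
          · rw [imJ_zs, e3]; simp
          · rw [imK_zs, e4]; simp
        · right
          refine qext ?_ ?_ ?_ ?_
          · rw [re_zs, e1]; simp
          · rw [imI_zs, e2]; simp
          · rw [imJ_zs, e3]; simp
          · rw [imK_zs, e4]; simp
      exact (Finset.card_le_card hsub).trans Finset.card_le_two
    have hterm : ∀ P ∈ S.filter (fun P => P.re ^ 2 = (n : ℤ) ^ (2 * m)),
        ((W0 Γ (2 * m)) P : ℝ) *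
        |(Polynomial.Chebyshev.U ℝ (l : ℤ)).eval ((P.re : ℝ) / (n : ℝ) ^ m)| ^ 3 ≤
        A * ((l : ℝ) + 1) ^ 3 := by
      intro P hP
      rw [mem_filter] at hP
      have hx : |(P.re : ℝ) / (n : ℝ) ^ m| ≤ 1 := by
        rw [← sq_le_one_iff_abs_le_one, div_pow]
        have h4 : (P.re : ℝ) ^ 2 = ((n : ℝ) ^ m) ^ 2 := by
          have : P.re ^ 2 = ((n : ℤ) ^ m) ^ 2 := by rw [hP.2, ← pow_mul, mul_comm]
          exact_mod_cast this
        rw [h4, div_self (by positivity)]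
      have h5 := cheb_abs_le hx l
      have hlam1 : lam ≤ 1 := by
        rw [hlam]
        apply Real.sqrt_le_one.2
        rw [div_le_one hD0]; exact hCD
      have h6 : ((W0 Γ (2 * m)) P : ℝ) ≤ A := by
        refine (hW P hP.1).trans ?_
        have : lam ^ lev p P ≤ 1 := pow_le_one₀ hlam0 hlam1
        nlinarith
      exact mul_le_mul h6 (pow_le_pow_left₀ (abs_nonneg _) h5 3) (by positivity) hA0
    refine (Finset.sum_le_sum hterm).trans ?_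
    rw [Finset.sum_const, nsmul_eq_mul]
    have h7 : ((S.filter (fun P => P.re ^ 2 = (n : ℤ) ^ (2 * m))).card : ℝ) ≤ 2 := by
      exact_mod_cast hcard
    calc ((S.filter (fun P => P.re ^ 2 = (n : ℤ) ^ (2 * m))).card : ℝ) *
          (A * ((l : ℝ) + 1) ^ 3) ≤ 2 * (A * ((l : ℝ) + 1) ^ 3) :=
          mul_le_mul_of_nonneg_right h7 (by positivity)
      _ = 2 * Fintype.card Γ.V * (4 * C * Δ) ^ m * ((l : ℝ) + 1) ^ 3 := by rw [hA]; ring
  · -- the other products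
    set S1 := S.filter (fun P => ¬ P.re ^ 2 = (n : ℤ) ^ (2 * m)) with hS1
    have hre : ∀ P ∈ S1, P.re ^ 2 < (n : ℤ) ^ (2 * m) := by
      intro P hP
      rw [hS1, mem_filter] at hP
      have h3 := hSn P hP.1
      rw [nq_eq] at h3
      refine lt_of_le_of_ne ?_ hP.2
      nlinarith [sq_nonneg P.imI, sq_nonneg P.imJ, sq_nonneg P.imK]
    have hmaps : ∀ P ∈ S1, m - lev p P / 2 ∈ range (m + 1) := fun P _ =>
      Finset.mem_range.2 (by omega)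
    rw [← Finset.sum_fiberwise_of_maps_to hmaps]
    have hfib : ∀ c ∈ range (m + 1), ∑ P ∈ S1.filter (fun P => m - lev p P / 2 = c),
        ((W0 Γ (2 * m)) P : ℝ) *
        |(Polynomial.Chebyshev.U ℝ (l : ℤ)).eval ((P.re : ℝ) / (n : ℝ) ^ m)| ^ 3 ≤
        A * CL * ((C / Δ) ^ m * ((n : ℝ) ^ (2.2 : ℝ)) ^ m) * (1 / 2) ^ c := by
      intro c hc
      have hcm : c ≤ m := by
        rw [Finset.mem_range] at hc; omega
      have hlev : ∀ P ∈ S1.filter (fun P => m - lev p P / 2 = c),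
          lev p P = 2 * (m - c) ∧ ∃ P0 : ℍ[ℤ], P = ((p : ℤ) ^ c) • P0 := by
        intro P hP
        rw [mem_filter, hS1, mem_filter] at hP
        obtain ⟨c', g1, g2, g3⟩ := content_of hp h1 h2 (hSn P hP.1.1)
        have : c' = c := by
          have := hP.2
          omega
        subst this
        exact ⟨g2, g3⟩
      have hterm : ∀ P ∈ S1.filter (fun P => m - lev p P / 2 = c),
          ((W0 Γ (2 * m)) P : ℝ) *
          |(Polynomial.Chebyshev.U ℝ (l : ℤ)).eval ((P.re : ℝ) / (n : ℝ) ^ m)| ^ 3 ≤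
          A * (C / Δ) ^ (m - c) *
            (1 / (1 - ((P.re : ℝ) / (n : ℝ) ^ m) ^ 2)) ^ ((3 : ℝ) / 2) := by
        intro P hP
        have hl := (hlev P hP).1
        rw [mem_filter] at hP
        have hPS : P ∈ S := (mem_filter.1 hP.1).1
        have hx : ((P.re : ℝ) / (n : ℝ) ^ m) ^ 2 < 1 := by
          rw [div_pow, div_lt_one (by positivity)]
          have := hre P hP.1
          rw [mul_comm 2 m, pow_mul] at this
          exact_mod_cast this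
        have h8 := cheb_cube_le hx l
        have h9 : ((W0 Γ (2 * m)) P : ℝ) ≤ A * (C / Δ) ^ (m - c) := by
          refine (hW P hPS).trans (le_of_eq ?_)
          rw [hl, pow_mul, hlam2]
        exact mul_le_mul h9 h8 (by positivity) (by positivity)
      refine (Finset.sum_le_sum hterm).trans ?_
      rw [← Finset.mul_sum]
      have h10 := sum_content hCL hp hn h1 hcm (S1.filter (fun P => m - lev p P / 2 = c)) (by
        intro P hP
        have h11 := (hlev P hP).2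
        rw [mem_filter] at hP
        exact ⟨hSn P (mem_filter.1 hP.1).1, hre P hP.1, h11⟩)
      have hpow : (C / Δ) ^ (m - c) * (1 / ((p : ℝ) ^ (2.2 : ℝ)) ^ c) ≤
          (C / Δ) ^ m * (1 / 2) ^ c := by
        have h12 : (C / Δ : ℝ) ^ m = (C / Δ) ^ (m - c) * (C / Δ) ^ c := by
          rw [← pow_add]; congr 1; omega
        rw [h12, mul_assoc]
        apply mul_le_mul_of_nonneg_left _ (by positivity)
        rw [← mul_pow, ← _root_.one_div_pow]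
        apply pow_le_pow_left₀ (by positivity)
        have h13 : (p : ℝ) ^ 2 ≤ (p : ℝ) ^ (2.2 : ℝ) := by
          rw [← Real.rpow_natCast]
          apply Real.rpow_le_rpow_of_exponent_le hp1
          norm_num
        have hpp : (0 : ℝ) < (p : ℝ) ^ (2.2 : ℝ) := by positivity
        rw [div_mul_div_comm, mul_one, div_le_div_iff₀ hpp (by positivity)]
        nlinarith
      calc A * (C / Δ) ^ (m - c) * ∑ P ∈ S1.filter (fun P => m - lev p P / 2 = c),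
            (1 / (1 - ((P.re : ℝ) / (n : ℝ) ^ m) ^ 2)) ^ ((3 : ℝ) / 2)
          ≤ A * (C / Δ) ^ (m - c) *
            (CL * (((n : ℝ) ^ (2.2 : ℝ)) ^ m / ((p : ℝ) ^ (2.2 : ℝ)) ^ c)) :=
            mul_le_mul_of_nonneg_left h10 (by positivity)
        _ = A * CL * ((n : ℝ) ^ (2.2 : ℝ)) ^ m *
            ((C / Δ) ^ (m - c) * (1 / ((p : ℝ) ^ (2.2 : ℝ)) ^ c)) := by ring
        _ ≤ A * CL * ((n : ℝ) ^ (2.2 : ℝ)) ^ m * ((C / Δ) ^ m * (1 / 2) ^ c) := by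
            apply mul_le_mul_of_nonneg_left hpow
            have : 0 ≤ CL := by linarith
            positivity
        _ = A * CL * ((C / Δ) ^ m * ((n : ℝ) ^ (2.2 : ℝ)) ^ m) * (1 / 2) ^ c := by ring
    refine (Finset.sum_le_sum hfib).trans ?_
    rw [← Finset.mul_sum]
    have hgeo : ∑ c ∈ range (m + 1), ((1 : ℝ) / 2) ^ c ≤ 2 := by
      have := sum_geometric_two_le (m + 1)
      simpa using this
    have hCL0 : 0 ≤ CL := by linarith
    calc A * CL * ((C / Δ) ^ m * ((n : ℝ) ^ (2.2 : ℝ)) ^ m) *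
          ∑ c ∈ range (m + 1), ((1 : ℝ) / 2) ^ c
        ≤ A * CL * ((C / Δ) ^ m * ((n : ℝ) ^ (2.2 : ℝ)) ^ m) * 2 :=
          mul_le_mul_of_nonneg_left hgeo (by positivity)
      _ = 2 * CL * Fintype.card Γ.V * (((4 * C * Δ) * (C / Δ)) ^ m *
          ((n : ℝ) ^ (2.2 : ℝ)) ^ m) := by rw [hA, mul_pow (4 * (C : ℝ) * Δ)]; ring
      _ = 2 * CL * Fintype.card Γ.V * (4 * C ^ 2 * (n : ℝ) ^ (2.2 : ℝ)) ^ m := by
          rw [← mul_pow]
          congr 2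
          field_simp

/-- the trace bound -/
theorem W_HF : ∃ K : ℝ, 0 ≤ K ∧ ∀ (n : ℕ) (Γ : QG n) (p C : ℕ) (Δ : ℝ), p.Prime → p ≠ 2 →
    p ∣ n → ¬ p ^ 2 ∣ n → Mult Γ p C → Deg Γ Δ → 1 ≤ C → (C : ℝ) ≤ Δ → 2 * Δ ≤ (p : ℝ) ^ 2 →
    ∀ (l m : ℕ) (B : ℝ), 1 ≤ m → 0 ≤ B →
      4 * Fintype.card Γ.V * ((l : ℝ) + 1) ^ 2 * (4 * C * Δ) ^ m +
        K * Fintype.card Γ.V * (4 * C ^ 2 * (n : ℝ) ^ (2.2 : ℝ)) ^ m / ((l : ℝ) + 1) ≤
          B ^ (2 * m) →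
      MBd Γ (Pool.Agent.BQ.rho l) B := by
  obtain ⟨CL, hCL1, hCL⟩ := lattice_sum
  refine ⟨2 * CL, by linarith, ?_⟩
  intro n Γ p C Δ hp hp2 h1 h2 hM hD hC hCD hDp l m B hm hB hle
  have hn : n ≠ 0 := by
    rintro rfl
    exact h2 (dvd_zero _)
  have hl0 : (0 : ℝ) < (l : ℝ) + 1 := by positivity
  have hD0 : 0 ≤ Δ := by
    have : (0 : ℝ) ≤ C := Nat.cast_nonneg _
    linarith
  have h3 := (trl_cube Γ hn m l).trans
    (sum_cube_bound hCL1 hCL Γ hp hp2 h1 h2 hC hCD hDp hM hD m l)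
  have h4 : trl Γ m l ≤ B ^ (2 * m) := by
    refine le_trans ?_ hle
    have hnn : 0 ≤ (Fintype.card Γ.V : ℝ) * ((l : ℝ) + 1) ^ 2 * (4 * C * Δ) ^ m := by positivity
    have h5 : trl Γ m l ≤ (2 * Fintype.card Γ.V * (4 * C * Δ) ^ m * ((l : ℝ) + 1) ^ 3 +
        2 * CL * Fintype.card Γ.V * (4 * C ^ 2 * (n : ℝ) ^ (2.2 : ℝ)) ^ m) / ((l : ℝ) + 1) := by
      rw [le_div_iff₀ hl0, mul_comm]; exact h3
    refine h5.trans ?_
    rw [add_div]
    have h6 : 2 * (Fintype.card Γ.V : ℝ) * (4 * C * Δ) ^ m * ((l : ℝ) + 1) ^ 3 / ((l : ℝ) + 1) =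
        2 * ((Fintype.card Γ.V : ℝ) * ((l : ℝ) + 1) ^ 2 * (4 * C * Δ) ^ m) := by
      field_simp
    rw [h6]
    linarith
  intro c c'
  rw [form_eq, nv2_eq, nv2_eq]
  have hH := opM_herm Γ _ (rho_star l)
  exact herm_pow_bound _ hH m hm B hB (by rw [trl_eq Γ hn]; exact h4) _ _

end

end BQA
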