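import Mathlib
import Pool.Agent.BQ.P_Bri
import Pool.Agent.BQ.W_Fin

/-!
# BQ block P, complete
-/

open Quaternion

namespace BQP

open BQA Pool.Agent.BQ

theorem W_stmt : WStmt := by
  obtain ⟨K, hK, h⟩ := W_HF
  refine ⟨K, hK, fun n Γ p C Δ h1 h2 h3 h4 h5 h6 h7 h8 h9 l m _ hm B hB hle => ?_⟩
  exact h n Γ p C Δ h1 h2 h3 h4 h5 h6 h7 h8 h9 l m B hm hB hle

/-- BLOCK P -/
theorem P_main : PStmt := PStmt_of_W W_stmt

end BQP
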