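import Mathlib

/-!
# A prime `= 1 mod 4` between `x` and `x ^ 3`

All prime factors of `P = ∏_{k ≤ X} (4 k ^ 2 + 1)` are `= 1 mod 4`. If they are all `< x`, then
`P ≤ (X!) ^ 2 (4 X ^ 2 + 1) ^ (2 x)`, since `4 k ^ 2 + 1 = 0` has at most two solutions modulo a prime
power; but `P ≥ 4 ^ X (X!) ^ 2`.
-/

set_option autoImplicit false

namespace BQA

open Finset

namespace PriX

/-- The numbers whose prime factors are used. -/
def a (k : ℕ) : ℕ := 4 * k ^ 2 + 1

theorem a_pos (k : ℕ) : 0 < a k := Nat.succ_pos _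

theorem a_mono {k l : ℕ} (h : k ≤ l) : a k ≤ a l := by
  unfold a
  have := Nat.pow_le_pow_left h 2
  omega

theorem not_dvd {p : ℕ} (hp : p.Prime) {k : ℕ} (h : p ∣ a k) : ¬ (p : ℤ) ∣ 2 * k := by
  intro h2
  have h3 : (p : ℤ) ∣ 1 := by
    have h4 : (p : ℤ) ∣ (a k : ℤ) := Int.natCast_dvd_natCast.2 h
    have h5 : (1 : ℤ) = (a k : ℤ) - 2 * k * (2 * k) := by
      unfold a
      push_cast
      ring
    rw [h5]
    exact dvd_sub h4 (Dvd.dvd.mul_right h2 _)
  have h4 : p ∣ 1 := Int.natCast_dvd_natCast.1 (by simpa using h3)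
  exact hp.one_lt.ne' (Nat.dvd_one.1 h4)

theorem two_sol {p : ℕ} (hp : p.Prime) (j : ℕ) {k l : ℕ} (hkl : k ≠ l)
    (h1 : |(k : ℤ) - l| < (p : ℤ) ^ j) (hk : p ^ j ∣ a k) (hl : p ^ j ∣ a l) :
    (p : ℤ) ^ j ∣ (k : ℤ) + l := by
  rcases Nat.eq_zero_or_pos j with rfl | hj
  · simp
  have hpk : p ∣ a k := (dvd_pow_self p hj.ne').trans hk
  have hnd := not_dvd hp hpk
  have hpp : Prime (p : ℤ) := Nat.prime_iff_prime_int.1 hp
  have hk' : ((p : ℤ) ^ j) ∣ (a k : ℤ) := by exact_mod_cast hk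
  have hl' : ((p : ℤ) ^ j) ∣ (a l : ℤ) := by exact_mod_cast hl
  have h2 : (p : ℤ) ^ j ∣ 4 * (((k : ℤ) - l) * (k + l)) := by
    have h3 := dvd_sub hk' hl'
    have h4 : (a k : ℤ) - a l = 4 * (((k : ℤ) - l) * (k + l)) := by
      unfold a
      push_cast
      ring
    rwa [h4] at h3
  have hc4 : IsCoprime ((p : ℤ) ^ j) 4 := by
    refine IsCoprime.pow_left ?_
    rw [Prime.coprime_iff_not_dvd hpp]
    intro h5
    have h6 : (p : ℤ) ∣ 2 * 2 := by norm_num; exact h5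
    have h7 : (p : ℤ) ∣ 2 := by
      rcases hpp.dvd_or_dvd h6 with h | h <;> exact h
    exact hnd (Dvd.dvd.mul_right h7 _)
  have h3 : (p : ℤ) ^ j ∣ ((k : ℤ) - l) * (k + l) := hc4.dvd_of_dvd_mul_left h2
  by_cases h4 : (p : ℤ) ∣ (k : ℤ) - l
  · exfalso
    have h5 : ¬ (p : ℤ) ∣ (k : ℤ) + l := by
      intro h5
      apply hnd
      have h6 := dvd_add h4 h5
      have h7 : (k : ℤ) - l + (k + l) = 2 * k := by ring
      rwa [h7] at h6
    have h6 : IsCoprime ((p : ℤ) ^ j) ((k : ℤ) + l) :=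
      IsCoprime.pow_left ((Prime.coprime_iff_not_dvd hpp).2 h5)
    have h7 : (p : ℤ) ^ j ∣ (k : ℤ) - l := h6.dvd_of_dvd_mul_right h3
    have h8 : (k : ℤ) - l = 0 := Int.eq_zero_of_abs_lt_dvd h7 h1
    exact hkl (by omega)
  · have h6 : IsCoprime ((p : ℤ) ^ j) ((k : ℤ) - l) :=
      IsCoprime.pow_left ((Prime.coprime_iff_not_dvd hpp).2 h4)
    exact h6.dvd_of_dvd_mul_left h3

theorem card_sol {p : ℕ} (hp : p.Prime) (j X : ℕ) :
    ((Icc 1 X).filter fun k => p ^ j ∣ a k).card ≤ 2 * (X / p ^ j + 1) := by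
  have hq : 0 < p ^ j := pow_pos hp.pos j
  have h0 : 2 * (X / p ^ j + 1) = 2 * (range (X / p ^ j + 1)).card := by rw [card_range]
  rw [h0]
  refine card_le_mul_card_image_of_maps_to (f := fun k => k / p ^ j) ?_ 2 ?_
  · intro k hk
    rw [mem_range, Nat.lt_succ_iff]
    exact Nat.div_le_div_right (mem_Icc.1 (mem_filter.1 hk).1).2
  · intro b _
    by_contra hlt
    rw [not_le, two_lt_card] at hlt
    obtain ⟨x, hx, y, hy, z, hz, hxy, hxz, hyz⟩ := hlt
    simp only [mem_filter] at hx hy hz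
    have hd : ∀ {u v : ℕ}, u / p ^ j = b → v / p ^ j = b → |(u : ℤ) - v| < (p : ℤ) ^ j := by
      intro u v hu hv
      have e1 := Nat.div_add_mod u (p ^ j)
      have e2 := Nat.div_add_mod v (p ^ j)
      have l1 := Nat.mod_lt u hq
      have l2 := Nat.mod_lt v hq
      rw [hu] at e1
      rw [hv] at e2
      have hcast : ((p ^ j : ℕ) : ℤ) = (p : ℤ) ^ j := by push_cast; rfl
      rw [← hcast, abs_lt]
      generalize p ^ j * b = c at e1 e2
      generalize u % p ^ j = ru at e1 l1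
      generalize v % p ^ j = rv at e2 l2
      constructor <;> omega
    have s1 := two_sol hp j hxy (hd hx.2 hy.2) hx.1.2 hy.1.2
    have s2 := two_sol hp j hxz (hd hx.2 hz.2) hx.1.2 hz.1.2
    have s3 := dvd_sub s1 s2
    have s4 : (x : ℤ) + y - (x + z) = y - z := by ring
    rw [s4] at s3
    have s5 := Int.eq_zero_of_abs_lt_dvd s3 (hd hy.2 hz.2)
    exact hyz (by omega)

theorem val_le {p : ℕ} (hp : p.Prime) (X : ℕ) :
    ∑ k ∈ Icc 1 X, (a k).factorization p ≤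
      2 * (X.factorial).factorization p + 2 * Nat.log p (a X) := by
  have hX : X ≤ a X := by
    unfold a
    nlinarith [Nat.zero_le X]
  have hlog : Nat.log p X < Nat.log p (a X) + 1 :=
    Nat.lt_succ_of_le (Nat.log_mono_right hX)
  rw [Nat.factorization_factorial hp hlog]
  have h1 : ∀ k ∈ Icc 1 X, (a k).factorization p =
      ∑ i ∈ Ico 1 (Nat.log p (a X) + 1), if p ^ i ∣ a k then 1 else 0 := by
    intro k hk
    rw [Nat.factorization_eq_card_pow_dvd_of_lt (b := Nat.log p (a X) + 1) hp (a_pos k) ?_,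
      Finset.card_filter]
    exact (a_mono (mem_Icc.1 hk).2).trans_lt (Nat.lt_pow_succ_log_self hp.one_lt _)
  rw [Finset.sum_congr rfl h1, Finset.sum_comm]
  have h2 : ∀ i ∈ Ico 1 (Nat.log p (a X) + 1),
      (∑ k ∈ Icc 1 X, if p ^ i ∣ a k then 1 else 0) ≤ 2 * (X / p ^ i + 1) := by
    intro i _
    rw [← Finset.card_filter]
    exact card_sol hp i X
  refine (Finset.sum_le_sum h2).trans ?_
  rw [← Finset.mul_sum, Finset.sum_add_distrib, Finset.sum_const, Nat.card_Ico]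
  simp only [smul_eq_mul, mul_one, Nat.add_sub_cancel]
  omega

theorem prod_ge (X : ℕ) : 4 ^ X * X.factorial ^ 2 ≤ ∏ k ∈ Icc 1 X, a k := by
  have h1 : 4 ^ X * X.factorial ^ 2 = ∏ k ∈ Icc 1 X, 4 * k ^ 2 := by
    have h2 : ∏ k ∈ Icc 1 X, k = X.factorial := Finset.prod_Ico_id_eq_factorial X
    rw [Finset.prod_mul_distrib, Finset.prod_const, Nat.card_Icc, Nat.add_sub_cancel,
      Finset.prod_pow, h2]
  rw [h1]
  exact Finset.prod_le_prod' fun k _ => Nat.le_succ _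

theorem prod_le {x X : ℕ} (h : ∀ p : ℕ, p.Prime → ∀ k ∈ Icc 1 X, p ∣ a k → p < x) :
    ∏ k ∈ Icc 1 X, a k ≤ X.factorial ^ 2 * a X ^ (2 * x) := by
  have hP0 : (∏ k ∈ Icc 1 X, a k) ≠ 0 := Finset.prod_ne_zero_iff.2 fun k _ => (a_pos k).ne'
  obtain ⟨P, hP⟩ : ∃ P, P = ∏ k ∈ Icc 1 X, a k := ⟨_, rfl⟩
  rw [← hP] at hP0 ⊢
  obtain ⟨Q, hQ⟩ : ∃ Q, Q = ∏ p ∈ P.primeFactors, p ^ (2 * Nat.log p (a X)) := ⟨_, rfl⟩
  have hQ0 : Q ≠ 0 := by
    rw [hQ]
    exact Finset.prod_ne_zero_iff.2 fun p hp =>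
      pow_ne_zero _ (Nat.prime_of_mem_primeFactors hp).ne_zero
  have hfac : ∀ p : ℕ, p.Prime → P.factorization p ≤
      2 * (X.factorial).factorization p + 2 * Nat.log p (a X) := by
    intro p hp
    rw [hP, Nat.factorization_prod (fun k _ => (a_pos k).ne')]
    rw [Finset.sum_apply']
    exact val_le hp X
  have hdvd : P ∣ X.factorial ^ 2 * Q := by
    rw [← Nat.factorization_prime_le_iff_dvd hP0
      (mul_ne_zero (pow_ne_zero _ (Nat.factorial_ne_zero X)) hQ0)]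
    intro p hp
    rw [Nat.factorization_mul (pow_ne_zero _ (Nat.factorial_ne_zero X)) hQ0,
      Nat.factorization_pow]
    by_cases hpP : p ∈ P.primeFactors
    · have h1 : 2 * Nat.log p (a X) ≤ Q.factorization p := by
        rw [← hp.pow_dvd_iff_le_factorization hQ0, hQ]
        exact Finset.dvd_prod_of_mem (fun p => p ^ (2 * Nat.log p (a X))) hpP
      have h2 := hfac p hp
      simp only [Finsupp.add_apply, Finsupp.smul_apply, smul_eq_mul]
      omega
    · have h1 : P.factorization p = 0 := by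
        rw [← Finsupp.notMem_support_iff, Nat.support_factorization]
        exact hpP
      rw [h1]
      exact Nat.zero_le _
  have hQle : Q ≤ a X ^ (2 * x) := by
    have hcard : P.primeFactors.card ≤ x := by
      have h1 : P.primeFactors ⊆ range x := by
        intro p hp
        have hpp := Nat.prime_of_mem_primeFactors hp
        have hpd := Nat.dvd_of_mem_primeFactors hp
        rw [hP, hpp.prime.dvd_finsetProd_iff] at hpd
        obtain ⟨k, hk, hkd⟩ := hpd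
        exact mem_range.2 (h p hpp k hk hkd)
      simpa using Finset.card_le_card h1
    rw [hQ]
    calc ∏ p ∈ P.primeFactors, p ^ (2 * Nat.log p (a X))
        ≤ ∏ p ∈ P.primeFactors, a X ^ 2 := by
          refine Finset.prod_le_prod' fun p _ => ?_
          rw [mul_comm, pow_mul]
          exact Nat.pow_le_pow_left (Nat.pow_log_le_self p (a_pos X).ne') 2
      _ = a X ^ (2 * P.primeFactors.card) := by
          rw [Finset.prod_const, ← pow_mul]
      _ ≤ a X ^ (2 * x) := Nat.pow_le_pow_right (a_pos X) (by omega)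
  exact (Nat.le_of_dvd (Nat.pos_of_ne_zero
    (mul_ne_zero (pow_ne_zero _ (Nat.factorial_ne_zero X)) hQ0)) hdvd).trans
      (Nat.mul_le_mul_left _ hQle)

theorem log_bound : ∀ l : ℕ, 13 ≤ l → 4 * (3 * l + 4) ^ 2 + 1 ≤ 2 ^ l := by
  intro l hl
  induction l, hl using Nat.le_induction with
  | base => norm_num
  | succ l hl ih =>
    have h1 : 4 * (3 * (l + 1) + 4) ^ 2 + 1 ≤ 2 * (4 * (3 * l + 4) ^ 2 + 1) := by nlinarith
    have h2 : 2 ^ (l + 1) = 2 * 2 ^ l := by ring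
    rw [h2]
    omega

end PriX

open PriX in
/-- A prime `= 1 mod 4` in `[x, x ^ 3]`. -/
theorem BQ_pri : ∃ x0 : ℕ, ∀ x : ℕ, x0 ≤ x → ∃ p : ℕ, p.Prime ∧ p % 4 = 1 ∧ x ≤ p ∧ p ≤ x ^ 3 := by
  refine ⟨2 ^ 13, fun x hx => ?_⟩
  by_contra hno
  have hx0 : x ≠ 0 := by
    rintro rfl
    norm_num at hx
  obtain ⟨l, hl⟩ : ∃ l, l = Nat.log 2 x := ⟨_, rfl⟩
  have hl13 : 13 ≤ l := by
    rw [hl]
    exact (Nat.le_log_iff_pow_le (by norm_num) hx0).2 hx
  have h2l : 2 ^ l ≤ x := by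
    rw [hl]
    exact Nat.pow_log_le_self 2 hx0
  have hxl : x < 2 ^ (l + 1) := by
    rw [hl]
    exact Nat.lt_pow_succ_log_self (by norm_num) x
  obtain ⟨X, hX⟩ : ∃ X, X = x * (3 * l + 4) := ⟨_, rfl⟩
  have haX : a X ≤ x ^ 3 := by
    have h1 := (log_bound l hl13).trans h2l
    have h2 : 1 ≤ x ^ 2 := Nat.one_le_iff_ne_zero.2 (pow_ne_zero 2 hx0)
    calc a X = x ^ 2 * (4 * (3 * l + 4) ^ 2) + 1 := by
          unfold a
          rw [hX]
          ring
      _ ≤ x ^ 2 * (4 * (3 * l + 4) ^ 2) + x ^ 2 := Nat.add_le_add_left h2 _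
      _ = x ^ 2 * (4 * (3 * l + 4) ^ 2 + 1) := by ring
      _ ≤ x ^ 2 * x := Nat.mul_le_mul_left _ h1
      _ = x ^ 3 := by ring
  have hall : ∀ p : ℕ, p.Prime → ∀ k ∈ Icc 1 X, p ∣ a k → p < x := by
    intro p hp k hk hpk
    by_contra hxp
    apply hno
    have hfact : Fact p.Prime := ⟨hp⟩
    have h3 : p % 4 ≠ 3 := by
      rw [← ZMod.exists_sq_eq_neg_one_iff]
      refine ⟨2 * (k : ZMod p), ?_⟩
      have h4 : ((a k : ℕ) : ZMod p) = 0 := (ZMod.natCast_eq_zero_iff _ _).2 hpk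
      unfold a at h4
      push_cast at h4
      linear_combination -h4
    have h2 : p % 2 = 1 := by
      rcases hp.eq_two_or_odd with h | h
      · exfalso
        rw [h] at hpk
        unfold a at hpk
        omega
      · exact h
    refine ⟨p, hp, by omega, not_lt.1 hxp, ?_⟩
    exact (Nat.le_of_dvd (a_pos k) hpk).trans ((a_mono (mem_Icc.1 hk).2).trans haX)
  have h1 := (prod_ge X).trans (prod_le hall)
  have h2 : 4 ^ X ≤ a X ^ (2 * x) := by
    rw [mul_comm] at h1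
    exact Nat.le_of_mul_le_mul_left h1 (Nat.pos_of_ne_zero (pow_ne_zero _ (Nat.factorial_ne_zero X)))
  have h3 : a X ^ (2 * x) < 2 ^ ((l + 1) * (6 * x)) := by
    calc a X ^ (2 * x) ≤ (x ^ 3) ^ (2 * x) := Nat.pow_le_pow_left haX _
      _ = x ^ (6 * x) := by rw [← pow_mul]; congr 1; ring
      _ < (2 ^ (l + 1)) ^ (6 * x) := Nat.pow_lt_pow_left hxl (by omega)
      _ = 2 ^ ((l + 1) * (6 * x)) := by rw [← pow_mul]
  have h4 : 4 ^ X = 2 ^ (2 * X) := by
    rw [pow_mul]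
    norm_num
  rw [h4] at h2
  have h5 := (Nat.pow_lt_pow_iff_right (by norm_num : 1 < 2)).1 (h2.trans_lt h3)
  rw [hX] at h5
  nlinarith

end BQA
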