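import Pool.Agent.BQ.S_Mult

/-!
# The random sample: degrees (DEG)
-/

open Quaternion

namespace BQA

open Finset

/-- the number of functions with one value at `i0` and values in a set of at most `Y` elements on
`T` -/
theorem S_prod1 {G : Type} [Fintype G] [DecidableEq G] {N k Y : ℕ} (i0 : Fin N)
    (T : Finset (Fin N)) (hT : T.card = k) (hi : i0 ∉ T) (g : G) (A : Finset G)
    (hA : A.card ≤ Y) :
    (Fintype.piFinset fun j : Fin N => if j = i0 then {g} else
      if j ∈ T then A else (univ : Finset G)).card * Fintype.card G ^ (k + 1) ≤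
      Y ^ k * Fintype.card G ^ N := by
  have h1 : ∀ j : Fin N, (if j = i0 then ({g} : Finset G) else
      if j ∈ T then A else univ).card * (if j ∈ insert i0 T then Fintype.card G else 1) ≤
      Fintype.card G * (if j ∈ T then Y else 1) := by
    intro j
    by_cases e1 : j = i0
    · subst e1
      rw [if_pos rfl, if_pos (Finset.mem_insert_self _ _), if_neg hi, Finset.card_singleton]
      simp
    · by_cases e3 : j ∈ T
      · rw [if_neg e1, if_pos e3, if_pos e3, if_pos (Finset.mem_insert_of_mem e3), mul_comm]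
        exact Nat.mul_le_mul_left _ hA
      · have e4 : j ∉ insert i0 T := by
          simp [e1, e3]
        rw [if_neg e1, if_neg e3, if_neg e3, if_neg e4, Finset.card_univ]
  rw [Fintype.card_piFinset]
  have h2 : Fintype.card G ^ (k + 1) =
      ∏ j : Fin N, (if j ∈ insert i0 T then Fintype.card G else 1) := by
    rw [Finset.prod_ite_mem, Finset.univ_inter, Finset.prod_const,
      Finset.card_insert_of_notMem hi, hT]
  have h3 : Y ^ k * Fintype.card G ^ N = ∏ j : Fin N, (Fintype.card G * (if j ∈ T then Y else 1)) := by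
    rw [Finset.prod_mul_distrib, Finset.prod_const, Finset.card_univ, Fintype.card_fin,
      Finset.prod_ite_mem, Finset.univ_inter, Finset.prod_const, hT, mul_comm]
  rw [h2, h3, ← Finset.prod_mul_distrib]
  exact Finset.prod_le_prod' fun j _ => h1 j

open Classical in
/-- the neighbours of `i` in a sample -/
noncomputable def SNb {G : Type} [AddCommGroup G] {N : ℕ} (X : Finset G) (i : Fin N)
    (σ : Fin N → G) : Finset (Fin N) :=
  univ.filter fun j => j ≠ i ∧ σ j - σ i ∈ X

theorem mem_SNb {G : Type} [AddCommGroup G] {N : ℕ} (X : Finset G) (i : Fin N)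
    (σ : Fin N → G) (j : Fin N) : j ∈ SNb X i σ ↔ j ≠ i ∧ σ j - σ i ∈ X := by
  unfold SNb
  simp only [Finset.mem_filter, Finset.mem_univ, true_and]

theorem Pr_eq {α : Type} [Fintype α] (P : α → Prop) [DecidablePred P] :
    Pr P = ((Finset.univ.filter P).card : ℝ) / Fintype.card α := by
  unfold Pr
  have : (@Finset.filter α P (fun a => Classical.propDecidable (P a)) Finset.univ) =
      Finset.univ.filter P := by
    ext a
    simp only [Finset.mem_filter]
  rw [this]

open Classical in
/-- for a set `T` of indices the number of the samples with `T` contained in the neighbourhood -/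
theorem S_count1 {G : Type} [AddCommGroup G] [Fintype G] {N k : ℕ}
    (X : Finset G) (i : Fin N) (T : Finset (Fin N)) (hT : T.card = k) :
    ((univ : Finset (Fin N → G)).filter fun σ => T ⊆ SNb X i σ).card * Fintype.card G ^ k ≤
      X.card ^ k * Fintype.card G ^ N := by
  have hG : 0 < Fintype.card G := Fintype.card_pos_iff.mpr ⟨0⟩
  by_cases hi : i ∈ T
  · have : ((univ : Finset (Fin N → G)).filter fun σ => T ⊆ SNb X i σ) = ∅ := by
      rw [Finset.filter_eq_empty_iff]
      intro σ _ h
      exact ((mem_SNb X i σ i).mp (h hi)).1 rfl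
    rw [this]
    simp
  · set B : G → Finset (Fin N → G) := fun g =>
      Fintype.piFinset fun j : Fin N => if j = i then {g} else
        if j ∈ T then X.image (fun w => g + w) else (univ : Finset G) with hB
    have hsub : ((univ : Finset (Fin N → G)).filter fun σ => T ⊆ SNb X i σ) ⊆
        (univ : Finset G).biUnion B := by
      intro σ hσ
      have h1 := (Finset.mem_filter.mp hσ).2
      rw [Finset.mem_biUnion]
      refine ⟨σ i, Finset.mem_univ _, ?_⟩
      rw [hB, Fintype.mem_piFinset]
      intro j
      by_cases e1 : j = i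
      · subst e1
        rw [if_pos rfl]
        exact Finset.mem_singleton_self _
      · by_cases e3 : j ∈ T
        · rw [if_neg e1, if_pos e3, Finset.mem_image]
          have h2 := (mem_SNb X i σ j).mp (h1 e3)
          exact ⟨σ j - σ i, h2.2, by abel⟩
        · rw [if_neg e1, if_neg e3]
          exact Finset.mem_univ _
    have h5 : (((univ : Finset (Fin N → G)).filter fun σ => T ⊆ SNb X i σ).card *
        Fintype.card G ^ k) * Fintype.card G ≤ (X.card ^ k * Fintype.card G ^ N) *
          Fintype.card G := by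
      calc _ = ((univ : Finset (Fin N → G)).filter fun σ => T ⊆ SNb X i σ).card *
            Fintype.card G ^ (k + 1) := by ring
        _ ≤ (∑ g : G, (B g).card) * Fintype.card G ^ (k + 1) :=
            Nat.mul_le_mul_right _ ((Finset.card_le_card hsub).trans Finset.card_biUnion_le)
        _ = ∑ g : G, (B g).card * Fintype.card G ^ (k + 1) := by rw [Finset.sum_mul]
        _ ≤ ∑ _g : G, X.card ^ k * Fintype.card G ^ N := by
            refine Finset.sum_le_sum fun g _ => ?_
            exact S_prod1 i T hT hi g _ Finset.card_image_le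
        _ = _ := by
            rw [Finset.sum_const, smul_eq_mul, Finset.card_univ]
            ring
    exact Nat.le_of_mul_le_mul_right h5 hG

open Classical in
/-- samples with a vertex of degree at least `m` -/
theorem S_count2 {G : Type} [AddCommGroup G] [Fintype G] {N k m : ℕ}
    (X : Finset G) (i : Fin N) :
    ((univ : Finset (Fin N → G)).filter fun σ => m ≤ (SNb X i σ).card).card * m.choose k *
      Fintype.card G ^ k ≤ N.choose k * (X.card ^ k * Fintype.card G ^ N) := by
  have h1 : ((univ : Finset (Fin N → G)).filter fun σ => m ≤ (SNb X i σ).card).card *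
      m.choose k ≤ ∑ T ∈ Finset.powersetCard k (univ : Finset (Fin N)),
        ((univ : Finset (Fin N → G)).filter fun σ => T ⊆ SNb X i σ).card := by
    calc ((univ : Finset (Fin N → G)).filter fun σ => m ≤ (SNb X i σ).card).card * m.choose k
        = ∑ _σ ∈ (univ : Finset (Fin N → G)).filter (fun σ => m ≤ (SNb X i σ).card),
            m.choose k := by rw [Finset.sum_const, smul_eq_mul]
      _ ≤ ∑ σ ∈ (univ : Finset (Fin N → G)).filter (fun σ => m ≤ (SNb X i σ).card),
            (Finset.powersetCard k (SNb X i σ)).card := by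
          refine Finset.sum_le_sum fun σ hσ => ?_
          rw [Finset.card_powersetCard]
          exact Nat.choose_le_choose k (Finset.mem_filter.mp hσ).2
      _ ≤ ∑ σ : Fin N → G, (Finset.powersetCard k (SNb X i σ)).card :=
          Finset.sum_le_sum_of_subset (Finset.filter_subset _ _)
      _ = ∑ σ : Fin N → G, ((Finset.powersetCard k (univ : Finset (Fin N))).filter
            fun T => T ⊆ SNb X i σ).card := by
          refine Finset.sum_congr rfl fun σ _ => ?_
          congr 1
          ext T
          simp only [Finset.mem_powersetCard, Finset.mem_filter, Finset.subset_univ, true_and]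
          exact and_comm
      _ = ∑ T ∈ Finset.powersetCard k (univ : Finset (Fin N)),
            ((univ : Finset (Fin N → G)).filter fun σ => T ⊆ SNb X i σ).card := by
          simp only [Finset.card_filter]
          rw [Finset.sum_comm]
  calc _ ≤ (∑ T ∈ Finset.powersetCard k (univ : Finset (Fin N)),
        ((univ : Finset (Fin N → G)).filter fun σ => T ⊆ SNb X i σ).card) *
          Fintype.card G ^ k := Nat.mul_le_mul_right _ h1
    _ = ∑ T ∈ Finset.powersetCard k (univ : Finset (Fin N)),
        ((univ : Finset (Fin N → G)).filter fun σ => T ⊆ SNb X i σ).card *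
          Fintype.card G ^ k := by rw [Finset.sum_mul]
    _ ≤ ∑ _T ∈ Finset.powersetCard k (univ : Finset (Fin N)),
        X.card ^ k * Fintype.card G ^ N := by
        refine Finset.sum_le_sum fun T hT => ?_
        exact S_count1 X i T (Finset.mem_powersetCard.mp hT).2
    _ = _ := by
        rw [Finset.sum_const, smul_eq_mul, Finset.card_powersetCard, Finset.card_univ,
          Fintype.card_fin]

/-- tail of the degree of a vertex -/
theorem S_tail {G : Type} [AddCommGroup G] [Fintype G] {N k : ℕ}
    (X : Finset G) (i : Fin N) {D : ℝ} (hD : D = (N : ℝ) * X.card / Fintype.card G)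
    (hk : 10 * (k : ℝ) ≤ D) :
    Pr (fun σ : Fin N → G => 2 * D < ((SNb X i σ).card : ℝ)) ≤ (3 / 5) ^ k := by
  classical
  have hG : (0 : ℝ) < Fintype.card G := by
    exact_mod_cast (Fintype.card_pos_iff.mpr ⟨(0 : G)⟩)
  have hle1 : ∀ P : (Fin N → G) → Prop, Pr P ≤ 1 := by
    intro P
    unfold Pr
    rw [div_le_one (by
      rw [Fintype.card_fun]
      push_cast
      positivity)]
    exact_mod_cast Finset.card_le_univ _
  rcases Nat.eq_zero_or_pos k with hk0 | hk0
  · subst hk0
    rw [pow_zero]
    exact hle1 _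
  have hkr : (0 : ℝ) < k := by exact_mod_cast hk0
  have hDpos : 0 < D := by linarith
  -- the integer threshold
  set m : ℕ := ⌊2 * D⌋₊ + 1 with hm
  have hm1 : 2 * D < m := by
    rw [hm]
    push_cast
    exact Nat.lt_floor_add_one _
  have h1 : Pr (fun σ : Fin N → G => 2 * D < ((SNb X i σ).card : ℝ)) ≤
      Pr (fun σ : Fin N → G => m ≤ (SNb X i σ).card) := by
    refine Pr_mono fun σ hσ => ?_
    rw [hm]
    have h2 : ⌊2 * D⌋₊ < (SNb X i σ).card := by
      rw [Nat.floor_lt (by positivity)]
      exact hσ
    omega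
  refine h1.trans ?_
  have h2 := S_count2 (k := k) (m := m) X i
  -- binomial coefficients
  have hkm : k ≤ m := by
    have : (k : ℝ) ≤ m := by linarith
    exact_mod_cast this
  have h3 : ((m : ℝ) + 1 - k) ^ k ≤ (k.factorial : ℝ) * m.choose k := by
    have := Nat.pow_le_choose (α := ℝ) k m
    rw [div_le_iff₀ (by positivity)] at this
    rw [Nat.cast_sub (by omega)] at this
    push_cast at this
    linarith
  have h4 : (k.factorial : ℝ) * N.choose k ≤ (N : ℝ) ^ k := by
    have := Nat.choose_le_pow_div (α := ℝ) k N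
    rw [le_div_iff₀ (by positivity)] at this
    linarith
  rw [Pr_eq, div_le_iff₀ (by
    rw [Fintype.card_fun]
    push_cast
    positivity)]
  set b : ℝ := (((univ : Finset (Fin N → G)).filter fun σ => m ≤ (SNb X i σ).card).card : ℝ)
    with hb
  have hb0 : 0 ≤ b := Nat.cast_nonneg _
  have h5 : b * (m.choose k : ℝ) * (Fintype.card G : ℝ) ^ k ≤
      (N.choose k : ℝ) * ((X.card : ℝ) ^ k * (Fintype.card G : ℝ) ^ N) := by
    rw [hb]
    exact_mod_cast h2
  have hmk : (19 / 10 : ℝ) * D ≤ (m : ℝ) + 1 - k := by linarith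
  have hmk0 : 0 < (m : ℝ) + 1 - k := by
    have : 0 < (19 / 10 : ℝ) * D := by positivity
    linarith
  -- multiply
  have h6 : b * ((m : ℝ) + 1 - k) ^ k ≤ D ^ k * (Fintype.card G : ℝ) ^ N := by
    have hGk : (0 : ℝ) < (Fintype.card G : ℝ) ^ k := by positivity
    refine le_of_mul_le_mul_right ?_ hGk
    calc b * ((m : ℝ) + 1 - k) ^ k * (Fintype.card G : ℝ) ^ k
        ≤ b * ((k.factorial : ℝ) * m.choose k) * (Fintype.card G : ℝ) ^ k := by gcongr
      _ = (k.factorial : ℝ) * (b * (m.choose k : ℝ) * (Fintype.card G : ℝ) ^ k) := by ring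
      _ ≤ (k.factorial : ℝ) * ((N.choose k : ℝ) *
            ((X.card : ℝ) ^ k * (Fintype.card G : ℝ) ^ N)) := by gcongr
      _ = ((k.factorial : ℝ) * N.choose k) * (X.card : ℝ) ^ k * (Fintype.card G : ℝ) ^ N := by
          ring
      _ ≤ (N : ℝ) ^ k * (X.card : ℝ) ^ k * (Fintype.card G : ℝ) ^ N := by gcongr
      _ = D ^ k * (Fintype.card G : ℝ) ^ N * (Fintype.card G : ℝ) ^ k := by
          rw [hD, div_pow, mul_pow]
          field_simp
  have h7 : b * ((19 / 10 : ℝ) * D) ^ k ≤ D ^ k * (Fintype.card G : ℝ) ^ N := by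
    refine le_trans ?_ h6
    gcongr
  have h8 : b * (19 / 10 : ℝ) ^ k ≤ (Fintype.card G : ℝ) ^ N := by
    have hDk : 0 < D ^ k := by positivity
    refine le_of_mul_le_mul_right ?_ hDk
    calc b * (19 / 10 : ℝ) ^ k * D ^ k = b * ((19 / 10 : ℝ) * D) ^ k := by
          rw [mul_pow]; ring
      _ ≤ _ := h7
      _ = _ := by ring
  have h9 : Fintype.card (Fin N → G) = Fintype.card G ^ N := by
    rw [Fintype.card_fun, Fintype.card_fin]
  rw [h9]
  push_cast
  have h10 : (1 : ℝ) ≤ (3 / 5) ^ k * (19 / 10 : ℝ) ^ k := by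
    rw [← mul_pow]
    exact one_le_pow₀ (by norm_num)
  calc b = b * 1 := by ring
    _ ≤ b * ((3 / 5) ^ k * (19 / 10 : ℝ) ^ k) := by gcongr
    _ = (3 / 5) ^ k * (b * (19 / 10 : ℝ) ^ k) := by ring
    _ ≤ (3 / 5) ^ k * (Fintype.card G : ℝ) ^ N := by gcongr

/-- union bound -/
theorem Pr_exists {α : Type} [Fintype α] {N : ℕ} (P : Fin N → α → Prop) {x : ℝ}
    (h : ∀ i, Pr (P i) ≤ x) : Pr (fun a => ∃ i, P i a) ≤ N * x := by
  classical
  have h1 : ((Finset.univ.filter fun a => ∃ i, P i a).card : ℝ) ≤
      ∑ i : Fin N, ((Finset.univ.filter (P i)).card : ℝ) := by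
    have h2 : (Finset.univ.filter fun a => ∃ i, P i a) ⊆
        (Finset.univ : Finset (Fin N)).biUnion fun i => Finset.univ.filter (P i) := by
      intro a ha
      obtain ⟨i, hi⟩ := (Finset.mem_filter.mp ha).2
      rw [Finset.mem_biUnion]
      exact ⟨i, Finset.mem_univ _, Finset.mem_filter.mpr ⟨Finset.mem_univ _, hi⟩⟩
    exact_mod_cast (Finset.card_le_card h2).trans Finset.card_biUnion_le
  have h3 : Pr (fun a => ∃ i, P i a) ≤ ∑ i : Fin N, Pr (P i) := by
    have h4 : (0 : ℝ) ≤ Fintype.card α := Nat.cast_nonneg _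
    rw [Pr_eq]
    simp only [Pr_eq]
    rw [← Finset.sum_div]
    exact div_le_div_of_nonneg_right h1 h4
  refine h3.trans ?_
  calc ∑ i : Fin N, Pr (P i) ≤ ∑ _i : Fin N, x := Finset.sum_le_sum fun i _ => h i
    _ = N * x := by simp

/-- DEG for the sample -/
theorem S_deg {R J n N k : ℕ} (h0 : (0 : LabE R J) ∉ Xset R J n)
    {D : ℝ} (hD : D = (N : ℝ) * (Xset R J n).card / Fintype.card (LabE R J))
    (hk : 10 * (k : ℝ) ≤ D) :
    Pr (fun s : Fin N → LabE R J => ¬ Deg (SG n (fun i => (s i : Lab R J))) (2 * D)) ≤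
      N * (3 / 5) ^ k := by
  classical
  refine le_trans (Pr_mono (Q := fun s : Fin N → LabE R J =>
    ∃ i, 2 * D < ((SNb (Xset R J n) i s).card : ℝ)) ?_)
    (Pr_exists _ fun i => S_tail (Xset R J n) i hD hk)
  intro s hs
  unfold Deg at hs
  push Not at hs
  obtain ⟨i, hi⟩ := hs
  refine ⟨i, lt_of_lt_of_le hi ?_⟩
  have hle : (Finset.univ.filter fun e : (SG n (fun i => (s i : Lab R J))).E =>
      (SG n (fun i => (s i : Lab R J))).src e = i).card ≤ (SNb (Xset R J n) i s).card := by
    refine Finset.card_le_card_of_injOn (fun e => e.1.2) ?_ ?_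
    · rintro ⟨⟨a, b⟩, hab⟩ ha
      have e1 : a = i := (Finset.mem_filter.mp (Finset.mem_coe.mp ha)).2
      subst e1
      have hab' : normSq (kapL ((s b : Lab R J) - (s a : Lab R J))) = n := hab
      have hx : s b - s a ∈ Xset R J n := by
        unfold Xset
        rw [Finset.mem_filter]
        refine ⟨Finset.mem_univ _, ?_⟩
        rw [AddSubgroup.coe_sub]
        exact hab'
      rw [Finset.mem_coe, mem_SNb]
      refine ⟨?_, hx⟩
      intro e
      have e' : b = a := e
      rw [e', sub_self] at hx
      exact h0 hx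
    · rintro ⟨⟨a, b⟩, hab⟩ ha ⟨⟨a', b'⟩, hab'⟩ ha' heq
      have e1 : a = i := (Finset.mem_filter.mp (Finset.mem_coe.mp ha)).2
      have e2 : a' = i := (Finset.mem_filter.mp (Finset.mem_coe.mp ha')).2
      have e3 : b = b' := heq
      subst e1 e2 e3
      rfl
  exact_mod_cast hle

end BQA
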