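import Pool.Agent.BQ.Defs

/-!
# The random sample: multiplicities (MULT)
-/

open Quaternion

namespace BQA

open Finset

/-- the number of functions with one value at `i0`, one value at `j0` and values in a set of at most
`Y` elements on `T` -/
theorem S_prod {G : Type} [Fintype G] [DecidableEq G] {N C Y : ℕ} (i0 j0 : Fin N)
    (T : Finset (Fin N)) (hij : i0 ≠ j0) (hT : T.card = C) (hi : i0 ∉ T) (hj : j0 ∉ T)
    (g g' : G) (A : Finset G) (hA : A.card ≤ Y) :
    (Fintype.piFinset fun j : Fin N => if j = i0 then {g} else if j = j0 then {g'} else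
      if j ∈ T then A else (univ : Finset G)).card * Fintype.card G ^ (C + 2) ≤
      Y ^ C * Fintype.card G ^ N := by
  have h1 : ∀ j : Fin N, (if j = i0 then ({g} : Finset G) else if j = j0 then {g'} else
      if j ∈ T then A else univ).card * (if j ∈ insert i0 (insert j0 T) then Fintype.card G else 1) ≤
      Fintype.card G * (if j ∈ T then Y else 1) := by
    intro j
    by_cases e1 : j = i0
    · subst e1
      rw [if_pos rfl, if_pos (Finset.mem_insert_self _ _), if_neg hi, Finset.card_singleton]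
      simp
    · by_cases e2 : j = j0
      · subst e2
        rw [if_neg e1, if_pos rfl, if_pos (Finset.mem_insert_of_mem (Finset.mem_insert_self _ _)),
          if_neg hj, Finset.card_singleton]
        simp
      · by_cases e3 : j ∈ T
        · rw [if_neg e1, if_neg e2, if_pos e3, if_pos e3,
            if_pos (Finset.mem_insert_of_mem (Finset.mem_insert_of_mem e3)), mul_comm]
          exact Nat.mul_le_mul_left _ hA
        · have e4 : j ∉ insert i0 (insert j0 T) := by
            simp [e1, e2, e3]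
          rw [if_neg e1, if_neg e2, if_neg e3, if_neg e3, if_neg e4, Finset.card_univ]
  rw [Fintype.card_piFinset]
  have h2 : Fintype.card G ^ (C + 2) =
      ∏ j : Fin N, (if j ∈ insert i0 (insert j0 T) then Fintype.card G else 1) := by
    rw [Finset.prod_ite_mem, Finset.univ_inter, Finset.prod_const, Finset.card_insert_of_notMem,
      Finset.card_insert_of_notMem hj, hT]
    simp [hij, hi]
  have h3 : Y ^ C * Fintype.card G ^ N = ∏ j : Fin N, (Fintype.card G * (if j ∈ T then Y else 1)) := by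
    rw [Finset.prod_mul_distrib, Finset.prod_const, Finset.card_univ, Fintype.card_fin,
      Finset.prod_ite_mem, Finset.univ_inter, Finset.prod_const, hT, mul_comm]
  rw [h2, h3, ← Finset.prod_mul_distrib]
  exact Finset.prod_le_prod' fun j _ => h1 j

/-- the bad event of MULT, for a sample in a group -/
def SBad {G : Type} [AddCommGroup G] (N C : ℕ) (X : Finset G) (Yf : G → Finset G)
    (σ : Fin N → G) : Prop :=
  ∃ (i0 j0 : Fin N) (T : Finset (Fin N)), i0 ≠ j0 ∧ T.card = C ∧ i0 ∉ T ∧ j0 ∉ T ∧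
    σ j0 - σ i0 ∈ X ∧ ∀ j ∈ T, σ j - σ i0 ∈ Yf (σ j0 - σ i0)

open Classical in
theorem S_count {G : Type} [AddCommGroup G] [Fintype G] [DecidableEq G] (N C Y : ℕ)
    (X : Finset G) (Yf : G → Finset G) (hY : ∀ x ∈ X, (Yf x).card ≤ Y) :
    ((univ : Finset (Fin N → G)).filter fun σ => SBad N C X Yf σ).card *
      Fintype.card G ^ (C + 1) ≤ N ^ (C + 2) * X.card * Y ^ C * Fintype.card G ^ N := by
  set B : ((Fin N × Fin N) × (Finset (Fin N))) × (G × G) → Finset (Fin N → G) := fun t =>
    if t.1.1.1 ≠ t.1.1.2 ∧ t.1.1.1 ∉ t.1.2 ∧ t.1.1.2 ∉ t.1.2 then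
      Fintype.piFinset fun j : Fin N => if j = t.1.1.1 then {t.2.1} else
        if j = t.1.1.2 then {t.2.1 + t.2.2} else
        if j ∈ t.1.2 then (Yf t.2.2).image (fun w => t.2.1 + w) else (univ : Finset G)
    else ∅ with hB
  set I : Finset (((Fin N × Fin N) × (Finset (Fin N))) × (G × G)) :=
    ((univ ×ˢ univ) ×ˢ Finset.powersetCard C univ) ×ˢ (univ ×ˢ X) with hI
  have hsub : ((univ : Finset (Fin N → G)).filter fun σ => SBad N C X Yf σ) ⊆ I.biUnion B := by
    intro σ hσ
    obtain ⟨i0, j0, T, h1, h2, h3, h4, h5, h6⟩ := (Finset.mem_filter.mp hσ).2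
    rw [Finset.mem_biUnion]
    refine ⟨((⟨i0, j0⟩, T), (σ i0, σ j0 - σ i0)), ?_, ?_⟩
    · rw [hI]
      simp only [Finset.mem_product, Finset.mem_univ, true_and, Finset.mem_powersetCard,
        Finset.subset_univ]
      exact ⟨h2, h5⟩
    · rw [hB]
      simp only
      rw [if_pos ⟨h1, h3, h4⟩, Fintype.mem_piFinset]
      intro j
      by_cases e1 : j = i0
      · subst e1
        rw [if_pos rfl]
        exact Finset.mem_singleton_self _
      · by_cases e2 : j = j0
        · subst e2
          rw [if_neg e1, if_pos rfl, add_sub_cancel]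
          exact Finset.mem_singleton_self _
        · by_cases e3 : j ∈ T
          · rw [if_neg e1, if_neg e2, if_pos e3, Finset.mem_image]
            exact ⟨σ j - σ i0, h6 j e3, by abel⟩
          · rw [if_neg e1, if_neg e2, if_neg e3]
            exact Finset.mem_univ _
  have hcard : ∀ t ∈ I, (B t).card * Fintype.card G ^ (C + 2) ≤ Y ^ C * Fintype.card G ^ N := by
    intro t ht
    rw [hI] at ht
    simp only [Finset.mem_product, Finset.mem_univ, true_and, Finset.mem_powersetCard,
      Finset.subset_univ] at ht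
    rw [hB]
    simp only
    split_ifs with h
    · refine S_prod t.1.1.1 t.1.1.2 t.1.2 h.1 ht.1 h.2.1 h.2.2 _ _ _ ?_
      exact Finset.card_image_le.trans (hY _ ht.2)
    · simp
  have hIc : I.card ≤ N ^ (C + 2) * Fintype.card G * X.card := by
    rw [hI]
    simp only [Finset.card_product, Finset.card_univ, Fintype.card_fin, Finset.card_powersetCard]
    have h1 : N.choose C ≤ N ^ C := Nat.choose_le_pow N C
    calc N * N * N.choose C * (Fintype.card G * X.card)
        ≤ N * N * N ^ C * (Fintype.card G * X.card) := by gcongr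
      _ = N ^ (C + 2) * Fintype.card G * X.card := by ring
  have h0 : ((univ : Finset (Fin N → G)).filter fun σ => SBad N C X Yf σ).card *
      Fintype.card G ^ (C + 2) ≤ N ^ (C + 2) * Fintype.card G * X.card *
        (Y ^ C * Fintype.card G ^ N) := by
    calc ((univ : Finset (Fin N → G)).filter fun σ => SBad N C X Yf σ).card *
          Fintype.card G ^ (C + 2)
        ≤ (∑ t ∈ I, (B t).card) * Fintype.card G ^ (C + 2) :=
          Nat.mul_le_mul_right _ ((Finset.card_le_card hsub).trans Finset.card_biUnion_le)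
      _ = ∑ t ∈ I, (B t).card * Fintype.card G ^ (C + 2) := by rw [Finset.sum_mul]
      _ ≤ ∑ _t ∈ I, Y ^ C * Fintype.card G ^ N := Finset.sum_le_sum hcard
      _ = I.card * (Y ^ C * Fintype.card G ^ N) := by rw [Finset.sum_const, smul_eq_mul]
      _ ≤ _ := Nat.mul_le_mul_right _ hIc
  have hG : 0 < Fintype.card G := Fintype.card_pos_iff.mpr ⟨0⟩
  have h5 : (((univ : Finset (Fin N → G)).filter fun σ => SBad N C X Yf σ).card *
      Fintype.card G ^ (C + 1)) * Fintype.card G ≤
      (N ^ (C + 2) * X.card * Y ^ C * Fintype.card G ^ N) * Fintype.card G := by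
    calc _ = ((univ : Finset (Fin N → G)).filter fun σ => SBad N C X Yf σ).card *
          Fintype.card G ^ (C + 2) := by ring
      _ ≤ _ := h0
      _ = _ := by ring
  exact Nat.le_of_mul_le_mul_right h5 hG

open Classical in
/-- the probability of the bad event of MULT -/
theorem S_bad_pr {G : Type} [AddCommGroup G] [Fintype G] [DecidableEq G] (N C Y : ℕ)
    (X : Finset G) (Yf : G → Finset G) (hY : ∀ x ∈ X, (Yf x).card ≤ Y) :
    Pr (fun σ : Fin N → G => SBad N C X Yf σ) ≤
      N * ((N : ℝ) * X.card / Fintype.card G) * ((N : ℝ) * Y / Fintype.card G) ^ C := by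
  have h := S_count N C Y X Yf hY
  have hG : (0 : ℝ) < Fintype.card G := by
    exact_mod_cast (Fintype.card_pos_iff.mpr ⟨(0 : G)⟩)
  unfold Pr
  rw [Fintype.card_fun, Fintype.card_fin, div_le_iff₀ (by push_cast; positivity)]
  have h' : (((univ : Finset (Fin N → G)).filter fun σ => SBad N C X Yf σ).card : ℝ) *
      (Fintype.card G : ℝ) ^ (C + 1) ≤
      (N : ℝ) ^ (C + 2) * X.card * (Y : ℝ) ^ C * (Fintype.card G : ℝ) ^ N := by
    exact_mod_cast h
  have hpos : (0 : ℝ) < (Fintype.card G : ℝ) ^ (C + 1) := by positivity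
  refine le_of_mul_le_mul_right ?_ hpos
  refine h'.trans (le_of_eq ?_)
  push_cast
  rw [div_pow, mul_pow, pow_succ (Fintype.card G : ℝ) C]
  field_simp
  ring

/-- a failure of MULT is the bad event -/
theorem S_not_mult {R J n N p C : ℕ} (h0 : (0 : LabE R J) ∉ Xset R J n)
    (s : Fin N → LabE R J) (h : ¬ Mult (SG n (fun i => (s i : Lab R J))) p C) :
    SBad N C (Xset R J n) (fun x0 => (Xset R J n).filter fun x =>
      DV p (star (kapL (x : Lab R J)) * kapL (x0 : Lab R J))) s := by
  classical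
  unfold Mult at h
  push Not at h
  obtain ⟨e0, he0⟩ := h
  have hmem : ∀ i j : Fin N, normSq (kapL ((s j : Lab R J) - (s i : Lab R J))) = n →
      s j - s i ∈ Xset R J n := by
    intro i j hij
    unfold Xset
    rw [Finset.mem_filter]
    refine ⟨Finset.mem_univ _, ?_⟩
    rw [AddSubgroup.coe_sub]
    exact hij
  obtain ⟨⟨i0, j0⟩, h1⟩ := e0
  have h1' : normSq (kapL ((s j0 : Lab R J) - (s i0 : Lab R J))) = n := h1
  have hij : i0 ≠ j0 := by
    intro e
    subst e
    apply h0
    have := hmem i0 i0 h1'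
    rwa [sub_self] at this
  -- the targets
  set F := Finset.univ.filter fun e : (SG n (fun i => (s i : Lab R J))).E =>
    (SG n (fun i => (s i : Lab R J))).src e = (SG n (fun i => (s i : Lab R J))).src ⟨(i0, j0), h1⟩ ∧
      DV p (star ((SG n (fun i => (s i : Lab R J))).q e) *
        (SG n (fun i => (s i : Lab R J))).q ⟨(i0, j0), h1⟩) with hF
  set Tg : Finset (Fin N) := F.image (fun e => e.1.2) with hTg
  have hcard : Tg.card = F.card := by
    rw [hTg]
    refine Finset.card_image_of_injOn ?_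
    rintro ⟨⟨a, b⟩, hab⟩ ha ⟨⟨a', b'⟩, hab'⟩ ha' heq
    have e1 := (Finset.mem_filter.mp (Finset.mem_coe.mp ha)).2.1
    have e2 := (Finset.mem_filter.mp (Finset.mem_coe.mp ha')).2.1
    have e1' : a = i0 := e1
    have e2' : a' = i0 := e2
    have e3 : b = b' := heq
    subst e1' e2' e3
    rfl
  have hc : C ≤ (Tg.erase j0).card := by
    have := Finset.pred_card_le_card_erase (s := Tg) (a := j0)
    omega
  obtain ⟨T, hT1, hT2⟩ := Finset.exists_subset_card_eq hc
  have hprop : ∀ j ∈ T, s j - s i0 ∈ Xset R J n ∧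
      DV p (star (kapL ((s j : Lab R J) - (s i0 : Lab R J))) *
        kapL ((s j0 : Lab R J) - (s i0 : Lab R J))) := by
    intro j hj
    have hj1 := Finset.mem_of_mem_erase (hT1 hj)
    rw [hTg, Finset.mem_image] at hj1
    obtain ⟨⟨⟨a, b⟩, hab⟩, he, hb⟩ := hj1
    have e1 := (Finset.mem_filter.mp he).2
    have e1' : a = i0 := e1.1
    have e2' : b = j := hb
    subst e1' e2'
    exact ⟨hmem _ _ hab, e1.2⟩
  refine ⟨i0, j0, T, hij, hT2, ?_, ?_, hmem _ _ h1', ?_⟩
  · intro hi
    have := (hprop i0 hi).1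
    rw [sub_self] at this
    exact h0 this
  · intro hj
    exact Finset.notMem_erase _ _ (hT1 hj)
  · intro j hj
    rw [Finset.mem_filter]
    refine ⟨(hprop j hj).1, ?_⟩
    rw [AddSubgroup.coe_sub, AddSubgroup.coe_sub]
    exact (hprop j hj).2

theorem Pr_mono {α : Type} [Fintype α] {P Q : α → Prop} (h : ∀ a, P a → Q a) : Pr P ≤ Pr Q := by
  classical
  unfold Pr
  have : ((Finset.univ.filter P).card : ℝ) ≤ (Finset.univ.filter Q).card := by
    exact_mod_cast Finset.card_le_card (Finset.monotone_filter_right _ (fun a _ ha => h a ha))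
  gcongr

/-- MULT, general form -/
theorem S_mult_gen {R J n N p C : ℕ} (Y : ℕ) (h0 : (0 : LabE R J) ∉ Xset R J n)
    (hY : ∀ x0 ∈ Xset R J n, ((Xset R J n).filter fun x : LabE R J =>
      DV p (star (kapL (x : Lab R J)) * kapL (x0 : Lab R J))).card ≤ Y) :
    Pr (fun s : Fin N → LabE R J => ¬ Mult (SG n (fun i => (s i : Lab R J))) p C) ≤
      N * ((N : ℝ) * (Xset R J n).card / Fintype.card (LabE R J)) *
        ((N : ℝ) * Y / Fintype.card (LabE R J)) ^ C := by
  classical
  refine le_trans (Pr_mono fun s hs => S_not_mult h0 s hs) ?_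
  exact S_bad_pr N C Y (Xset R J n) _ hY

/-- MULT, general form, real bound -/
theorem S_mult_real {R J n N p C : ℕ} (Y : ℝ) (hY0 : 0 ≤ Y) (h0 : (0 : LabE R J) ∉ Xset R J n)
    (hY : ∀ x0 ∈ Xset R J n, (((Xset R J n).filter fun x : LabE R J =>
      DV p (star (kapL (x : Lab R J)) * kapL (x0 : Lab R J))).card : ℝ) ≤ Y) :
    Pr (fun s : Fin N → LabE R J => ¬ Mult (SG n (fun i => (s i : Lab R J))) p C) ≤
      N * ((N : ℝ) * (Xset R J n).card / Fintype.card (LabE R J)) *
        ((N : ℝ) * Y / Fintype.card (LabE R J)) ^ C := by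
  refine (S_mult_gen ⌊Y⌋₊ h0 fun x0 hx0 => Nat.le_floor (hY x0 hx0)).trans ?_
  have h1 : ((⌊Y⌋₊ : ℕ) : ℝ) ≤ Y := Nat.floor_le hY0
  gcongr

/-- the number of the labels with a given value is a number of labels in `LabE` -/
theorem S_cnt_E {R J n : ℕ} (hF0 : ∀ h : Lab R J, h ∈ LabE R J ↔ InL1 (kapL h)) {q : ℍ[ℤ]}
    (hq : q ∈ sph n) :
    ((Xset R J n).filter fun x : LabE R J => kapL (x : Lab R J) = q).card =
      (Finset.univ.filter fun h : Lab R J => kapL h = q).card := by
  classical
  refine Finset.card_bij (fun x _ => (x : Lab R J)) ?_ ?_ ?_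
  · intro x hx
    rw [Finset.mem_filter] at hx ⊢
    exact ⟨Finset.mem_univ _, hx.2⟩
  · intro x _ y _ hxy
    exact Subtype.ext hxy
  · intro h hh
    have h1 := (Finset.mem_filter.mp hh).2
    have h2 := mem_sph.mp hq
    have h3 : h ∈ LabE R J := (hF0 h).mpr (by rw [h1]; exact h2.1)
    refine ⟨⟨h, h3⟩, ?_, rfl⟩
    rw [Finset.mem_filter]
    refine ⟨?_, h1⟩
    unfold Xset
    rw [Finset.mem_filter]
    refine ⟨Finset.mem_univ _, ?_⟩
    show normSq (kapL h) = n
    rw [h1]
    exact h2.2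

/-- a count over `Xset` as a sum over the sphere -/
theorem S_card_sum {R J n : ℕ} (hF0 : ∀ h : Lab R J, h ∈ LabE R J ↔ InL1 (kapL h))
    (P : ℍ[ℤ] → Prop) [DecidablePred P] :
    ((Xset R J n).filter fun x : LabE R J => P (kapL (x : Lab R J))).card =
      ∑ q ∈ (sph n).filter P, (Finset.univ.filter fun h : Lab R J => kapL h = q).card := by
  classical
  have h1 : ∀ x ∈ (Xset R J n).filter (fun x : LabE R J => P (kapL (x : Lab R J))),
      kapL (x : Lab R J) ∈ (sph n).filter P := by
    intro x hx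
    rw [Finset.mem_filter] at hx ⊢
    refine ⟨mem_sph.mpr ⟨(hF0 _).mp x.2, ?_⟩, hx.2⟩
    have := hx.1
    unfold Xset at this
    exact (Finset.mem_filter.mp this).2
  rw [Finset.card_eq_sum_card_fiberwise h1]
  refine Finset.sum_congr rfl fun q hq => ?_
  rw [Finset.mem_filter] at hq
  rw [← S_cnt_E hF0 hq.1, Finset.filter_filter]
  congr 1
  ext x
  simp only [Finset.mem_filter]
  constructor
  · rintro ⟨a, _, c⟩
    exact ⟨a, c⟩
  · rintro ⟨a, c⟩
    exact ⟨a, by rw [c]; exact hq.2, c⟩

/-- the proportion of one direction modulo `p` in `Xset` is at most `2 / (p + 1)` -/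
theorem S_dir {R J n p : ℕ} (hF0 : ∀ h : Lab R J, h ∈ LabE R J ↔ InL1 (kapL h))
    (hF1 : ∀ q ∈ sph n, ∀ q' ∈ sph n, (Finset.univ.filter fun h : Lab R J => kapL h = q).card ≤
      2 * (Finset.univ.filter fun h : Lab R J => kapL h = q').card)
    (hp1 : (p : ℤ) ∣ n) (hp2 : ¬ (p : ℤ) ^ 2 ∣ n)
    (h96 : ∀ q0 : ℍ[ℤ], ¬ DV p q0 → (p : ℤ) ∣ normSq q0 →
      (p + 1) * ((sph n).filter fun q => DV p (star q * q0)).card = Rp n)
    (x0 : LabE R J) (hx0 : x0 ∈ Xset R J n) :
    (p + 1) * ((Xset R J n).filter fun x : LabE R J =>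
      DV p (star (kapL (x : Lab R J)) * kapL (x0 : Lab R J))).card ≤ 2 * (Xset R J n).card := by
  classical
  have hx0n : normSq (kapL (x0 : Lab R J)) = n := by
    unfold Xset at hx0
    exact (Finset.mem_filter.mp hx0).2
  have hq0 : kapL (x0 : Lab R J) ∈ sph n := mem_sph.mpr ⟨(hF0 _).mp x0.2, hx0n⟩
  have hdv : ¬ DV p (kapL (x0 : Lab R J)) := by
    rintro ⟨y, hy⟩
    apply hp2
    rw [← hx0n, hy, V_normSq_smul]
    exact dvd_mul_right _ _
  have h1 := h96 _ hdv (by rw [hx0n]; exact hp1)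
  have h2 := S_card_sum (n := n) hF0 (fun q => DV p (star q * kapL (x0 : Lab R J)))
  have h3 := S_card_sum (n := n) hF0 (fun _ => True)
  rw [Finset.filter_true_of_mem (fun _ _ => trivial),
    Finset.filter_true_of_mem (fun _ _ => trivial)] at h3
  have hpos : 0 < Rp n := Finset.card_pos.mpr ⟨_, hq0⟩
  -- the double sum
  have h4 : ((Xset R J n).filter fun x : LabE R J =>
      DV p (star (kapL (x : Lab R J)) * kapL (x0 : Lab R J))).card * Rp n ≤
      2 * ((sph n).filter fun q => DV p (star q * kapL (x0 : Lab R J))).card *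
        (Xset R J n).card := by
    rw [h2, h3]
    unfold Rp
    calc (∑ q ∈ (sph n).filter (fun q => DV p (star q * kapL (x0 : Lab R J))),
          (Finset.univ.filter fun h : Lab R J => kapL h = q).card) * (sph n).card
        = ∑ q ∈ (sph n).filter (fun q => DV p (star q * kapL (x0 : Lab R J))),
            ∑ _q' ∈ sph n, (Finset.univ.filter fun h : Lab R J => kapL h = q).card := by
          rw [Finset.sum_mul]
          refine Finset.sum_congr rfl fun q _ => ?_
          rw [Finset.sum_const, smul_eq_mul, mul_comm]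
      _ ≤ ∑ _q ∈ (sph n).filter (fun q => DV p (star q * kapL (x0 : Lab R J))),
            ∑ q' ∈ sph n, 2 * (Finset.univ.filter fun h : Lab R J => kapL h = q').card := by
          refine Finset.sum_le_sum fun q hq => Finset.sum_le_sum fun q' hq' => ?_
          exact hF1 q (Finset.mem_filter.mp hq).1 q' hq'
      _ = _ := by
          rw [Finset.sum_const, smul_eq_mul, ← Finset.mul_sum]
          ring
  have h5 : ((p + 1) * ((Xset R J n).filter fun x : LabE R J =>
      DV p (star (kapL (x : Lab R J)) * kapL (x0 : Lab R J))).card) * Rp n ≤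
      (2 * (Xset R J n).card) * Rp n := by
    calc _ = (p + 1) * (((Xset R J n).filter fun x : LabE R J =>
          DV p (star (kapL (x : Lab R J)) * kapL (x0 : Lab R J))).card * Rp n) := by ring
      _ ≤ (p + 1) * (2 * ((sph n).filter fun q => DV p (star q * kapL (x0 : Lab R J))).card *
          (Xset R J n).card) := Nat.mul_le_mul_left _ h4
      _ = 2 * (Xset R J n).card * ((p + 1) * ((sph n).filter fun q =>
          DV p (star q * kapL (x0 : Lab R J))).card) := by ring
      _ = _ := by rw [h1]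
  exact Nat.le_of_mul_le_mul_right h5 hpos

/-- MULT for the sample: with `D = N |X| / |G|` it fails with probability at most
`N D (2 D / (p + 1)) ^ C`. -/
theorem S_mult {R J n N p C : ℕ} (h0 : (0 : LabE R J) ∉ Xset R J n)
    (hF0 : ∀ h : Lab R J, h ∈ LabE R J ↔ InL1 (kapL h))
    (hF1 : ∀ q ∈ sph n, ∀ q' ∈ sph n, (Finset.univ.filter fun h : Lab R J => kapL h = q).card ≤
      2 * (Finset.univ.filter fun h : Lab R J => kapL h = q').card)
    (hp1 : (p : ℤ) ∣ n) (hp2 : ¬ (p : ℤ) ^ 2 ∣ n)
    (h96 : ∀ q0 : ℍ[ℤ], ¬ DV p q0 → (p : ℤ) ∣ normSq q0 →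
      (p + 1) * ((sph n).filter fun q => DV p (star q * q0)).card = Rp n)
    {D : ℝ} (hD : D = (N : ℝ) * (Xset R J n).card / Fintype.card (LabE R J)) :
    Pr (fun s : Fin N → LabE R J => ¬ Mult (SG n (fun i => (s i : Lab R J))) p C) ≤
      N * D * (2 * D / (p + 1)) ^ C := by
  have h := S_mult_real (N := N) (p := p) (C := C) (2 * (Xset R J n).card / ((p : ℝ) + 1))
    (by positivity) h0 (fun x0 hx0 => by
      have h1 := S_dir hF0 hF1 hp1 hp2 h96 x0 hx0
      have h2 : ((p : ℝ) + 1) * ((((Xset R J n).filter fun x : LabE R J =>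
          DV p (star (kapL (x : Lab R J)) * kapL (x0 : Lab R J))).card : ℕ) : ℝ) ≤
          2 * (Xset R J n).card := by exact_mod_cast h1
      rw [le_div_iff₀ (by positivity)]
      linarith)
  refine h.trans (le_of_eq ?_)
  rw [hD]
  congr 2
  field_simp

/-- the same in terms of `Nat.card` (as `nf` of block F) -/
theorem S_mult' {R J n N p C : ℕ} (h0 : (0 : LabE R J) ∉ Xset R J n)
    (hF0 : ∀ h : Lab R J, h ∈ LabE R J ↔ InL1 (kapL h))
    (hF1 : ∀ q ∈ sph n, ∀ q' ∈ sph n, Nat.card {h : Lab R J // kapL h = q} ≤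
      2 * Nat.card {h : Lab R J // kapL h = q'})
    (hp1 : (p : ℤ) ∣ n) (hp2 : ¬ (p : ℤ) ^ 2 ∣ n)
    (h96 : ∀ q0 : ℍ[ℤ], ¬ DV p q0 → (p : ℤ) ∣ normSq q0 →
      (p + 1) * ((sph n).filter fun q => DV p (star q * q0)).card = Rp n)
    {D : ℝ} (hD : D = (N : ℝ) * (Xset R J n).card / Fintype.card (LabE R J)) :
    Pr (fun s : Fin N → LabE R J => ¬ Mult (SG n (fun i => (s i : Lab R J))) p C) ≤
      N * D * (2 * D / (p + 1)) ^ C := by
  classical
  have hc : ∀ q : ℍ[ℤ], Nat.card {h : Lab R J // kapL h = q} =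
      (Finset.univ.filter fun h : Lab R J => kapL h = q).card := by
    intro q
    rw [Nat.card_eq_fintype_card, Fintype.card_subtype]
  refine S_mult h0 hF0 (fun q hq q' hq' => ?_) hp1 hp2 h96 hD
  rw [← hc q, ← hc q']
  exact hF1 q hq q' hq'

/-- no loops: `0` is not in `Xset` if `n` is not a square -/
theorem S_zero_notMem {R J n : ℕ} (hn : ¬ IsSquare n) : (0 : LabE R J) ∉ Xset R J n := by
  intro h
  unfold Xset at h
  have h1 := (Finset.mem_filter.mp h).2
  have h2 : kapL ((0 : LabE R J) : Lab R J) =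
      (Quaternion.coe (1 + ∑ c : Idx R J, (2 : ℤ) ^ (c.2.2 : ℕ)) : ℍ[ℤ]) := by
    unfold kapL
    have h3 : ∀ c : Idx R J, (2 ^ (c.2.2 : ℕ) : ℤ) •
        iu c.1 ^ (((0 : LabE R J) : Lab R J) c).val =
          (Quaternion.coe ((2 : ℤ) ^ (c.2.2 : ℕ)) : ℍ[ℤ]) := by
      intro c
      have h4 : (((0 : LabE R J) : Lab R J) c).val = 0 := rfl
      rw [h4, pow_zero, ← mul_coe_eq, one_mul]
    rw [Finset.sum_congr rfl fun c _ => h3 c]
    have h5 : ∀ s : Finset (Idx R J), (∑ c ∈ s,
        (Quaternion.coe ((2 : ℤ) ^ (c.2.2 : ℕ)) : ℍ[ℤ])) =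
        (Quaternion.coe (∑ c ∈ s, (2 : ℤ) ^ (c.2.2 : ℕ)) : ℍ[ℤ]) := by
      intro s
      induction s using Finset.induction_on with
      | empty => rw [Finset.sum_empty, Finset.sum_empty]; rfl
      | insert a s ha ih =>
        rw [Finset.sum_insert ha, Finset.sum_insert ha, ih, ← Quaternion.coe_add]
    rw [h5, ← Quaternion.coe_one, ← Quaternion.coe_add]
  rw [h2, Quaternion.normSq_coe] at h1
  apply hn
  have h6 : IsSquare (n : ℤ) := ⟨_, by rw [← h1, pow_two]⟩
  exact Int.isSquare_natCast_iff.mp h6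

end BQA
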