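import Pool.Agent.BQ.Defs

/-!
# BQ, block S: (ORTH) for the random sample
-/

open Quaternion Finset

namespace BQA

noncomputable section

namespace Orth

variable {R J : ℕ}

/-- a coordinate of `kapL - 1` for given weights -/
def SS (w : Fin 3 → ZMod 4 → ℝ) (h : Lab R J) : ℝ :=
  ∑ c : Idx R J, (2 : ℝ) ^ (c.2.2 : ℕ) * w c.1 (h c)

/-- sub-Gaussian weights -/
def Good (w : Fin 3 → ZMod 4 → ℝ) : Prop :=
  ∀ v μ, ∑ x : ZMod 4, Real.exp (μ * w v x) ≤ 4 * Real.exp (μ ^ 2 / 2)

lemma Good.neg {w : Fin 3 → ZMod 4 → ℝ} (h : Good w) : Good (fun v x => -w v x) := by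
  intro v μ
  have := h v (-μ)
  simpa using this

lemma sum_idx (f : ℕ → ℝ) :
    ∑ c : Idx R J, f (c.2.2 : ℕ) = 3 * R * ∑ j ∈ range J, f j := by
  rw [Fintype.sum_prod_type]
  simp only [Fintype.sum_prod_type, sum_const, card_univ, Fintype.card_fin, nsmul_eq_mul]
  rw [Fin.sum_univ_eq_sum_range (fun j => f j)]
  push_cast
  ring

lemma geom4 (J : ℕ) : 3 * ∑ j ∈ range J, (4 : ℝ) ^ j = 4 ^ J - 1 := by
  induction J with
  | zero => simp
  | succ J ih => rw [sum_range_succ, mul_add, ih, pow_succ]; ring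

lemma mgf (w : Fin 3 → ZMod 4 → ℝ) (hw : Good w) (lam : ℝ) :
    ∑ h : Lab R J, Real.exp (lam * SS w h) ≤
      (4 : ℝ) ^ (Fintype.card (Idx R J)) * Real.exp (lam ^ 2 * (R * 4 ^ J) / 2) := by
  have e1 : ∑ h : Lab R J, Real.exp (lam * SS w h) =
      ∏ c : Idx R J, ∑ x : ZMod 4, Real.exp (lam * 2 ^ (c.2.2 : ℕ) * w c.1 x) := by
    rw [Finset.prod_univ_sum, Fintype.piFinset_univ]
    refine sum_congr rfl fun h _ => ?_
    unfold SS
    rw [mul_sum, Real.exp_sum]
    refine prod_congr rfl fun c _ => ?_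
    rw [mul_assoc]
  rw [e1]
  calc ∏ c : Idx R J, ∑ x : ZMod 4, Real.exp (lam * 2 ^ (c.2.2 : ℕ) * w c.1 x)
      ≤ ∏ c : Idx R J, (4 * Real.exp ((lam * 2 ^ (c.2.2 : ℕ)) ^ 2 / 2)) := by
        apply prod_le_prod
        · intro c _
          exact sum_nonneg fun x _ => (Real.exp_pos _).le
        · intro c _
          exact hw c.1 _
    _ = (4 : ℝ) ^ (Fintype.card (Idx R J)) *
          Real.exp (∑ c : Idx R J, (lam * 2 ^ (c.2.2 : ℕ)) ^ 2 / 2) := by
        rw [prod_mul_distrib, prod_const, card_univ, Real.exp_sum]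
    _ ≤ _ := by
        apply mul_le_mul_of_nonneg_left _ (by positivity)
        apply Real.exp_le_exp.2
        have e2 : ∑ c : Idx R J, (lam * 2 ^ (c.2.2 : ℕ)) ^ 2 / 2 =
            lam ^ 2 / 2 * ∑ c : Idx R J, (4 : ℝ) ^ (c.2.2 : ℕ) := by
          rw [mul_sum]
          refine sum_congr rfl fun c _ => ?_
          have : (4 : ℝ) ^ (c.2.2 : ℕ) = ((2 : ℝ) ^ (c.2.2 : ℕ)) ^ 2 := by
            rw [← pow_mul, mul_comm, pow_mul]; norm_num
          rw [this]
          ring
        rw [e2, sum_idx (fun j => (4 : ℝ) ^ j)]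
        have h4 := geom4 J
        have hR : (0 : ℝ) ≤ R := Nat.cast_nonneg R
        have h5 : 3 * (R : ℝ) * ∑ j ∈ range J, (4 : ℝ) ^ j ≤ R * 4 ^ J := by
          calc 3 * (R : ℝ) * ∑ j ∈ range J, (4 : ℝ) ^ j
              = R * (3 * ∑ j ∈ range J, (4 : ℝ) ^ j) := by ring
            _ = R * (4 ^ J - 1) := by rw [h4]
            _ ≤ R * 4 ^ J := mul_le_mul_of_nonneg_left (by linarith) hR
        calc lam ^ 2 / 2 * (3 * (R : ℝ) * ∑ j ∈ range J, (4 : ℝ) ^ j)
            ≤ lam ^ 2 / 2 * (R * 4 ^ J) := mul_le_mul_of_nonneg_left h5 (by positivity)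
          _ = _ := by ring

lemma tail (w : Fin 3 → ZMod 4 → ℝ) (hw : Good w) (a t : ℝ) (ha : a ≤ 1) (ht0 : 0 ≤ t)
    (hV : 0 < (R : ℝ) * 4 ^ J) (htV : t ≤ (R : ℝ) * 4 ^ J) :
    ((univ.filter fun h : Lab R J => t < a + SS w h).card : ℝ) ≤
      (4 : ℝ) ^ (Fintype.card (Idx R J)) *
        (Real.exp 1 * Real.exp (-(t ^ 2 / (2 * (R * 4 ^ J))))) := by
  set V : ℝ := (R : ℝ) * 4 ^ J with hVd
  set lam : ℝ := t / V with hlam
  have hl0 : 0 ≤ lam := div_nonneg ht0 hV.le
  have hl1 : lam ≤ 1 := by rw [hlam, div_le_one hV]; exact htV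
  have h1 : ((univ.filter fun h : Lab R J => t < a + SS w h).card : ℝ) * Real.exp (lam * t) ≤
      ∑ h : Lab R J, Real.exp (lam * (a + SS w h)) := by
    calc ((univ.filter fun h : Lab R J => t < a + SS w h).card : ℝ) * Real.exp (lam * t)
        = ∑ h ∈ univ.filter (fun h : Lab R J => t < a + SS w h), Real.exp (lam * t) := by
          rw [sum_const, nsmul_eq_mul]
      _ ≤ ∑ h ∈ univ.filter (fun h : Lab R J => t < a + SS w h),
            Real.exp (lam * (a + SS w h)) := by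
          apply sum_le_sum
          intro h hh
          rw [mem_filter] at hh
          exact Real.exp_le_exp.2 (mul_le_mul_of_nonneg_left hh.2.le hl0)
      _ ≤ _ := sum_le_sum_of_subset_of_nonneg (filter_subset _ _)
          fun h _ _ => (Real.exp_pos _).le
  have h2 : ∑ h : Lab R J, Real.exp (lam * (a + SS w h)) ≤
      Real.exp 1 * ((4 : ℝ) ^ (Fintype.card (Idx R J)) * Real.exp (lam ^ 2 * V / 2)) := by
    have e : ∀ h : Lab R J, Real.exp (lam * (a + SS w h)) =
        Real.exp (lam * a) * Real.exp (lam * SS w h) := by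
      intro h
      rw [← Real.exp_add]
      congr 1
      ring
    simp only [e]
    rw [← mul_sum]
    apply mul_le_mul _ (mgf w hw lam) (sum_nonneg fun h _ => (Real.exp_pos _).le)
      (Real.exp_pos _).le
    apply Real.exp_le_exp.2
    nlinarith
  have h3 : ((univ.filter fun h : Lab R J => t < a + SS w h).card : ℝ) ≤
      (Real.exp 1 * ((4 : ℝ) ^ (Fintype.card (Idx R J)) * Real.exp (lam ^ 2 * V / 2))) *
        Real.exp (-(lam * t)) := by
    have h4 := h1.trans h2
    rw [Real.exp_neg, ← div_eq_mul_inv, le_div_iff₀ (Real.exp_pos _)]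
    exact h4
  refine h3.trans (le_of_eq ?_)
  have e5 : Real.exp (lam ^ 2 * V / 2) * Real.exp (-(lam * t)) =
      Real.exp (-(t ^ 2 / (2 * V))) := by
    rw [← Real.exp_add]
    congr 1
    rw [hlam]
    field_simp
    ring
  rw [← e5]
  ring

lemma good_of (w : Fin 3 → ZMod 4 → ℝ)
    (h : ∀ v, (w v 0 = 1 ∧ w v 1 = 0 ∧ w v 2 = -1 ∧ w v 3 = 0) ∨
      (w v 0 = 0 ∧ w v 1 = 1 ∧ w v 2 = 0 ∧ w v 3 = -1) ∨
      (w v 0 = 0 ∧ w v 1 = 0 ∧ w v 2 = 0 ∧ w v 3 = 0)) : Good w := by
  intro v μ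
  have e : ∑ x : ZMod 4, Real.exp (μ * w v x) = Real.exp (μ * w v 0) + Real.exp (μ * w v 1) +
      Real.exp (μ * w v 2) + Real.exp (μ * w v 3) :=
    Fin.sum_univ_four (fun x : Fin 4 => Real.exp (μ * w v x))
  rw [e]
  have h1 : (1 : ℝ) ≤ Real.exp (μ ^ 2 / 2) := Real.one_le_exp (by positivity)
  have h2 := Real.cosh_le_exp_half_sq μ
  rw [Real.cosh_eq] at h2
  rcases h v with ⟨a0, a1, a2, a3⟩ | ⟨a0, a1, a2, a3⟩ | ⟨a0, a1, a2, a3⟩ <;>
    rw [a0, a1, a2, a3] <;> simp only [mul_zero, mul_one, mul_neg, Real.exp_zero] <;> linarith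

/-- the four coordinates of the powers of the units -/
lemma iu_pow_vals (v : Fin 3) : iu v ^ (0 : ZMod 4).val = 1 ∧ iu v ^ (1 : ZMod 4).val = iu v ∧
    iu v ^ (2 : ZMod 4).val = -1 ∧ iu v ^ (3 : ZMod 4).val = -iu v := by
  have e0 : (0 : ZMod 4).val = 0 := rfl
  have e1 : (1 : ZMod 4).val = 1 := rfl
  have e2 : (2 : ZMod 4).val = 2 := rfl
  have e3 : (3 : ZMod 4).val = 3 := rfl
  rw [e0, e1, e2, e3]
  refine ⟨pow_zero _, pow_one _, ?_, ?_⟩
  · fin_cases v <;> apply Quaternion.ext <;> simp [iu, pow_succ]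
  · fin_cases v <;> apply Quaternion.ext <;> simp [iu, pow_succ]

/-- the weights of the coordinates -/
def wR (f : ℍ[ℤ] → ℤ) (v : Fin 3) (x : ZMod 4) : ℝ := ((f (iu v ^ x.val) : ℤ) : ℝ)

lemma good_re : Good (wR fun q => q.re) := by
  apply good_of
  intro v
  left
  obtain ⟨a0, a1, a2, a3⟩ := iu_pow_vals v
  unfold wR
  rw [a0, a1, a2, a3]
  fin_cases v <;> simp [iu]

lemma good_imI : Good (wR fun q => q.imI) := by
  apply good_of
  intro v
  obtain ⟨a0, a1, a2, a3⟩ := iu_pow_vals v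
  unfold wR
  rw [a0, a1, a2, a3]
  fin_cases v <;> simp [iu]

lemma good_imJ : Good (wR fun q => q.imJ) := by
  apply good_of
  intro v
  obtain ⟨a0, a1, a2, a3⟩ := iu_pow_vals v
  unfold wR
  rw [a0, a1, a2, a3]
  fin_cases v <;> simp [iu]

lemma good_imK : Good (wR fun q => q.imK) := by
  apply good_of
  intro v
  obtain ⟨a0, a1, a2, a3⟩ := iu_pow_vals v
  unfold wR
  rw [a0, a1, a2, a3]
  fin_cases v <;> simp [iu]

/-- coordinates of `kapL` -/
lemma coord (f : ℍ[ℤ] →+ ℤ) (h : Lab R J) :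
    ((f (kapL h) : ℤ) : ℝ) = ((f 1 : ℤ) : ℝ) + SS (wR f) h := by
  unfold kapL SS wR
  rw [map_add, map_sum]
  push_cast
  congr 1
  refine sum_congr rfl fun c _ => ?_
  rw [map_zsmul, smul_eq_mul]
  push_cast
  rfl

/-- additive coordinates -/
def cre : ℍ[ℤ] →+ ℤ where
  toFun q := q.re
  map_zero' := rfl
  map_add' _ _ := rfl

def cI : ℍ[ℤ] →+ ℤ where
  toFun q := q.imI
  map_zero' := rfl
  map_add' _ _ := rfl

def cJ : ℍ[ℤ] →+ ℤ where
  toFun q := q.imJ
  map_zero' := rfl
  map_add' _ _ := rfl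

def cK : ℍ[ℤ] →+ ℤ where
  toFun q := q.imK
  map_zero' := rfl
  map_add' _ _ := rfl

/-- the tail of one coordinate, both signs -/
lemma coord_tail (f : ℍ[ℤ] →+ ℤ) (hf : Good (wR f)) (h1 : |((f 1 : ℤ) : ℝ)| ≤ 1) (t : ℝ)
    (ht0 : 0 ≤ t) (hV : 0 < (R : ℝ) * 4 ^ J) (htV : t ≤ (R : ℝ) * 4 ^ J) :
    ((univ.filter fun h : Lab R J => t < |((f (kapL h) : ℤ) : ℝ)|).card : ℝ) ≤
      2 * ((4 : ℝ) ^ (Fintype.card (Idx R J)) *
        (Real.exp 1 * Real.exp (-(t ^ 2 / (2 * (R * 4 ^ J)))))) := by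
  classical
  have a1 := tail (R := R) (J := J) (wR f) hf ((f 1 : ℤ) : ℝ) t (abs_le.1 h1).2 ht0 hV htV
  have a2 := tail (R := R) (J := J) (fun v x => -wR f v x) hf.neg (-((f 1 : ℤ) : ℝ)) t
    (by linarith [(abs_le.1 h1).1]) ht0 hV htV
  have hsub : (univ.filter fun h : Lab R J => t < |((f (kapL h) : ℤ) : ℝ)|) ⊆
      (univ.filter fun h : Lab R J => t < ((f 1 : ℤ) : ℝ) + SS (wR f) h) ∪
      (univ.filter fun h : Lab R J => t < -((f 1 : ℤ) : ℝ) + SS (fun v x => -wR f v x) h) := by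
    intro h hh
    rw [mem_filter] at hh
    rw [mem_union, mem_filter, mem_filter]
    have hh2 := hh.2
    rw [coord, lt_abs] at hh2
    rcases hh2 with hh2 | hh2
    · left; exact ⟨mem_univ _, hh2⟩
    · right
      refine ⟨mem_univ _, ?_⟩
      have e : SS (fun v x => -wR f v x) h = -SS (wR f) h := by
        unfold SS
        rw [← sum_neg_distrib]
        refine sum_congr rfl fun c _ => ?_
        ring
      rw [e]
      linarith
  have hc := (card_le_card hsub).trans (card_union_le _ _)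
  have hc' : ((univ.filter fun h : Lab R J => t < |((f (kapL h) : ℤ) : ℝ)|).card : ℝ) ≤
      ((univ.filter fun h : Lab R J => t < ((f 1 : ℤ) : ℝ) + SS (wR f) h).card : ℝ) +
      ((univ.filter fun h : Lab R J =>
        t < -((f 1 : ℤ) : ℝ) + SS (fun v x => -wR f v x) h).card : ℝ) := by
    exact_mod_cast hc
  linarith

/-- the exceptional labels -/
lemma bad_lab (hR : 1 ≤ R) (hJ : 1 ≤ J) (ε : ℝ) (h0 : 0 < ε) (h1 : ε ≤ 1) :
    ((univ.filter fun h : Lab R J =>
      ε * (1 + 3 * (R : ℝ) * (2 ^ J - 1)) ^ 2 < ((normSq (kapL h) : ℤ) : ℝ)).card : ℝ) ≤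
      8 * ((4 : ℝ) ^ (Fintype.card (Idx R J)) *
        (Real.exp 1 * Real.exp (-(ε * R / 4)))) := by
  classical
  set M : ℝ := 1 + 3 * (R : ℝ) * (2 ^ J - 1) with hM
  have hR' : (1 : ℝ) ≤ R := by exact_mod_cast hR
  have h2J : (2 : ℝ) ≤ 2 ^ J := by
    calc (2 : ℝ) = 2 ^ 1 := (pow_one _).symm
      _ ≤ 2 ^ J := pow_le_pow_right₀ (by norm_num) hJ
  have h4J : (4 : ℝ) ^ J = (2 : ℝ) ^ J * 2 ^ J := by
    rw [← mul_pow]; norm_num
  set X : ℝ := (2 : ℝ) ^ J with hX
  have hM1 : 3 / 2 * R * X ≤ M := by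
    rw [hM]; nlinarith
  have hM2 : M ≤ 3 * R * X := by
    rw [hM]; nlinarith
  have hM0 : 0 < M := by
    have : 0 < 3 / 2 * R * X := by positivity
    linarith
  set t : ℝ := Real.sqrt ε * M / 2 with ht
  have hs0 : 0 < Real.sqrt ε := Real.sqrt_pos.2 h0
  have hs1 : Real.sqrt ε ≤ 1 := Real.sqrt_le_one.2 h1
  have hs2 : Real.sqrt ε ^ 2 = ε := Real.sq_sqrt h0.le
  have ht0 : 0 ≤ t := by rw [ht]; positivity
  have hV : 0 < (R : ℝ) * 4 ^ J := by positivity
  have htV : t ≤ (R : ℝ) * 4 ^ J := by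
    rw [ht, h4J]
    calc Real.sqrt ε * M / 2 ≤ 1 * M / 2 := by
          apply div_le_div_of_nonneg_right _ (by norm_num)
          exact mul_le_mul_of_nonneg_right hs1 hM0.le
      _ ≤ 3 * R * X / 2 := by linarith
      _ ≤ R * (X * X) := by
          have : 3 / 2 * (R * X) ≤ X * (R * X) :=
            mul_le_mul_of_nonneg_right (by linarith) (by positivity)
          linarith
  have hexp : Real.exp (-(t ^ 2 / (2 * (R * 4 ^ J)))) ≤ Real.exp (-(ε * R / 4)) := by
    apply Real.exp_le_exp.2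
    apply neg_le_neg
    rw [le_div_iff₀ (by positivity), h4J]
    have e1 : t ^ 2 = ε * M ^ 2 / 4 := by
      rw [ht, div_pow, mul_pow, hs2]; norm_num
    rw [e1]
    have e2 : (3 / 2 * R * X) ^ 2 ≤ M ^ 2 := pow_le_pow_left₀ (by positivity) hM1 2
    have e3 : ε * R / 4 * (2 * (R * (X * X))) = ε * (R ^ 2 * X ^ 2) / 2 := by ring
    rw [e3]
    have e4 : R ^ 2 * X ^ 2 * 2 ≤ M ^ 2 := by
      have : 0 ≤ (R : ℝ) ^ 2 * X ^ 2 := by positivity
      nlinarith
    nlinarith
  have hpos : (0 : ℝ) ≤ (4 : ℝ) ^ (Fintype.card (Idx R J)) := by positivity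
  have key : ∀ f : ℍ[ℤ] →+ ℤ, Good (wR f) → |((f 1 : ℤ) : ℝ)| ≤ 1 →
      ((univ.filter fun h : Lab R J => t < |((f (kapL h) : ℤ) : ℝ)|).card : ℝ) ≤
      2 * ((4 : ℝ) ^ (Fintype.card (Idx R J)) *
        (Real.exp 1 * Real.exp (-(ε * R / 4)))) := by
    intro f hf hf1
    refine (coord_tail f hf hf1 t ht0 hV htV).trans ?_
    apply mul_le_mul_of_nonneg_left _ (by norm_num)
    apply mul_le_mul_of_nonneg_left _ hpos
    exact mul_le_mul_of_nonneg_left hexp (Real.exp_pos _).le
  have k1 := key cre good_re (by simp [cre])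
  have k2 := key cI good_imI (by simp [cI])
  have k3 := key cJ good_imJ (by simp [cJ])
  have k4 := key cK good_imK (by simp [cK])
  have hsub : (univ.filter fun h : Lab R J => ε * M ^ 2 < ((normSq (kapL h) : ℤ) : ℝ)) ⊆
      ((univ.filter fun h : Lab R J => t < |((cre (kapL h) : ℤ) : ℝ)|) ∪
       (univ.filter fun h : Lab R J => t < |((cI (kapL h) : ℤ) : ℝ)|)) ∪
      ((univ.filter fun h : Lab R J => t < |((cJ (kapL h) : ℤ) : ℝ)|) ∪
       (univ.filter fun h : Lab R J => t < |((cK (kapL h) : ℤ) : ℝ)|)) := by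
    intro h hh
    have hh2 := (mem_filter.1 hh).2
    simp only [mem_union, mem_filter, mem_univ, true_and]
    by_contra hno
    push Not at hno
    obtain ⟨⟨n1, n2⟩, ⟨n3, n4⟩⟩ := hno
    rw [Quaternion.normSq_def'] at hh2
    push_cast at hh2
    have sq : ∀ x : ℝ, |x| ≤ t → x ^ 2 ≤ ε * M ^ 2 / 4 := by
      intro x hx
      have e1 : t ^ 2 = ε * M ^ 2 / 4 := by
        rw [ht, div_pow, mul_pow, hs2]; norm_num
      rw [← e1, ← sq_abs x]
      exact pow_le_pow_left₀ (abs_nonneg _) hx 2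
    have s1 := sq _ n1
    have s2 := sq _ n2
    have s3 := sq _ n3
    have s4 := sq _ n4
    simp only [cre, cI, cJ, cK, AddMonoidHom.coe_mk, ZeroHom.coe_mk] at s1 s2 s3 s4
    linarith
  have hc := (card_le_card hsub).trans
    ((card_union_le _ _).trans (add_le_add (card_union_le _ _) (card_union_le _ _)))
  have hc' : ((univ.filter fun h : Lab R J =>
      ε * M ^ 2 < ((normSq (kapL h) : ℤ) : ℝ)).card : ℝ) ≤
      (((univ.filter fun h : Lab R J => t < |((cre (kapL h) : ℤ) : ℝ)|).card : ℝ) +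
       ((univ.filter fun h : Lab R J => t < |((cI (kapL h) : ℤ) : ℝ)|).card : ℝ)) +
      (((univ.filter fun h : Lab R J => t < |((cJ (kapL h) : ℤ) : ℝ)|).card : ℝ) +
       ((univ.filter fun h : Lab R J => t < |((cK (kapL h) : ℤ) : ℝ)|).card : ℝ)) := by
    exact_mod_cast hc
  linarith

/-- the index of `LabE` is at most `8` -/
lemma card_LabE (R J : ℕ) : Fintype.card (Lab R J) ≤ 8 * Fintype.card (LabE R J) := by
  classical
  let F : Lab R J →+ (Fin 3 → ZMod 2) := AddMonoidHom.pi (par R J)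
  have hker : ∀ h : Lab R J, h ∈ LabE R J ↔ F h = 0 := by
    intro h
    unfold LabE
    rw [AddSubgroup.mem_iInf]
    constructor
    · intro hh
      funext v
      exact hh v
    · intro hh v
      exact congrFun hh v
  -- every fibre has at most `card LabE` elements
  have h1 : Fintype.card (Lab R J) = ∑ y : Fin 3 → ZMod 2,
      (univ.filter fun h : Lab R J => F h = y).card := by
    rw [← card_univ]
    exact card_eq_sum_card_fiberwise (fun h _ => mem_coe.2 (mem_univ (F h)))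
  have h2 : ∀ y : Fin 3 → ZMod 2,
      (univ.filter fun h : Lab R J => F h = y).card ≤ Fintype.card (LabE R J) := by
    intro y
    rcases (univ.filter fun h : Lab R J => F h = y).eq_empty_or_nonempty with he | ⟨h0, hh0⟩
    · rw [he]; simp
    · have hy := (mem_filter.1 hh0).2
      rw [← card_univ (α := LabE R J)]
      refine card_le_card_of_injOn
        (fun h : Lab R J => if hm : h - h0 ∈ LabE R J then ⟨h - h0, hm⟩ else 0) ?_ ?_
      · intro h _
        exact mem_coe.2 (mem_univ _)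
      · intro a ha b hb hab
        have ha' := (mem_filter.1 (mem_coe.1 ha)).2
        have hb' := (mem_filter.1 (mem_coe.1 hb)).2
        have ma : a - h0 ∈ LabE R J := by rw [hker, map_sub, ha', hy, sub_self]
        have mb : b - h0 ∈ LabE R J := by rw [hker, map_sub, hb', hy, sub_self]
        simp only [dif_pos ma, dif_pos mb, Subtype.mk.injEq] at hab
        exact sub_left_injective hab
  rw [h1]
  calc ∑ y : Fin 3 → ZMod 2, (univ.filter fun h : Lab R J => F h = y).card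
      ≤ ∑ _y : Fin 3 → ZMod 2, Fintype.card (LabE R J) := sum_le_sum fun y _ => h2 y
    _ = 8 * Fintype.card (LabE R J) := by
      rw [sum_const, card_univ, smul_eq_mul]
      congr 1

lemma card_Lab (R J : ℕ) : Fintype.card (Lab R J) = 4 ^ Fintype.card (Idx R J) := by
  rw [Fintype.card_fun, ZMod.card]

open scoped Classical in
/-- the exceptional elements of `LabE` -/
lemma bad_labE (hR : 1 ≤ R) (hJ : 1 ≤ J) (ε : ℝ) (h0 : 0 < ε) (h1 : ε ≤ 1) :
    ((univ.filter fun h : LabE R J => ε * (1 + 3 * (R : ℝ) * (2 ^ J - 1)) ^ 2 <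
      ((normSq (kapL (h : Lab R J)) : ℤ) : ℝ)).card : ℝ) ≤
      192 * Real.exp (-(ε * R / 4)) * Fintype.card (LabE R J) := by
  have a1 := bad_lab (R := R) (J := J) hR hJ ε h0 h1
  have a2 : (univ.filter fun h : LabE R J => ε * (1 + 3 * (R : ℝ) * (2 ^ J - 1)) ^ 2 <
      ((normSq (kapL (h : Lab R J)) : ℤ) : ℝ)).card ≤
      (univ.filter fun h : Lab R J =>
        ε * (1 + 3 * (R : ℝ) * (2 ^ J - 1)) ^ 2 < ((normSq (kapL h) : ℤ) : ℝ)).card := by
    refine card_le_card_of_injOn (fun h : LabE R J => (h : Lab R J)) ?_ ?_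
    · intro h hh
      have := (mem_filter.1 (mem_coe.1 hh)).2
      exact mem_coe.2 (mem_filter.2 ⟨mem_univ _, this⟩)
    · intro a _ b _ hab
      exact Subtype.ext hab
  have a3 : (4 : ℝ) ^ (Fintype.card (Idx R J)) ≤ 8 * Fintype.card (LabE R J) := by
    have := card_LabE R J
    rw [card_Lab] at this
    exact_mod_cast this
  have a4 : Real.exp 1 ≤ 3 := by
    have := Real.exp_one_lt_d9
    linarith
  have a2' : ((univ.filter fun h : LabE R J => ε * (1 + 3 * (R : ℝ) * (2 ^ J - 1)) ^ 2 <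
      ((normSq (kapL (h : Lab R J)) : ℤ) : ℝ)).card : ℝ) ≤
      ((univ.filter fun h : Lab R J =>
        ε * (1 + 3 * (R : ℝ) * (2 ^ J - 1)) ^ 2 < ((normSq (kapL h) : ℤ) : ℝ)).card : ℝ) := by
    exact_mod_cast a2
  set E := Real.exp (-(ε * R / 4)) with hE
  have hE0 : 0 < E := Real.exp_pos _
  calc _ ≤ 8 * ((4 : ℝ) ^ (Fintype.card (Idx R J)) * (Real.exp 1 * E)) := a2'.trans a1
    _ ≤ 8 * ((8 * Fintype.card (LabE R J)) * (3 * E)) := by
        apply mul_le_mul_of_nonneg_left _ (by norm_num)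
        apply mul_le_mul a3 _ (by positivity) (by positivity)
        exact mul_le_mul_of_nonneg_right a4 hE0.le
    _ = _ := by ring

open scoped Classical in
/-- differences of uniform elements are uniform -/
lemma pair_count {G : Type} [AddCommGroup G] [Fintype G] {N : ℕ} (i j : Fin N) (hij : i ≠ j)
    (P : G → Prop) :
    (univ.filter fun s : Fin N → G => P (s j - s i)).card * Fintype.card G =
      Fintype.card (Fin N → G) * (univ.filter P).card := by
  have e1 : ∀ g : G, (univ.filter fun s : Fin N → G => P (s j - s i + g)).card =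
      (univ.filter fun s : Fin N → G => P (s j - s i)).card := by
    intro g
    refine card_bij (fun s _ => s + Pi.single j g) ?_ ?_ ?_
    · intro s hs
      have := (mem_filter.1 hs).2
      refine mem_filter.2 ⟨mem_univ _, ?_⟩
      rw [Pi.add_apply, Pi.add_apply, Pi.single_eq_same, Pi.single_eq_of_ne hij, add_zero]
      rwa [add_sub_right_comm]
    · intro a _ b _ hab
      exact add_right_cancel hab
    · intro s hs
      have := (mem_filter.1 hs).2
      refine ⟨s - Pi.single j g, mem_filter.2 ⟨mem_univ _, ?_⟩, by simp⟩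
      rw [Pi.sub_apply, Pi.sub_apply, Pi.single_eq_same, Pi.single_eq_of_ne hij, sub_zero]
      have e : s j - g - s i + g = s j - s i := by abel
      rwa [e]
  have e2 : ∀ x : G, (univ.filter fun g : G => P (x + g)).card = (univ.filter P).card := by
    intro x
    refine card_bij (fun g _ => x + g) ?_ ?_ ?_
    · intro g hg
      exact mem_filter.2 ⟨mem_univ _, (mem_filter.1 hg).2⟩
    · intro a _ b _ hab
      exact add_left_cancel hab
    · intro g hg
      refine ⟨-x + g, mem_filter.2 ⟨mem_univ _, ?_⟩, by simp⟩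
      have := (mem_filter.1 hg).2
      simpa using this
  have e3 : ∑ g : G, (univ.filter fun s : Fin N → G => P (s j - s i + g)).card =
      ∑ s : Fin N → G, (univ.filter fun g : G => P (s j - s i + g)).card := by
    simp only [card_filter]
    exact sum_comm
  simp only [e1, e2, sum_const, card_univ, smul_eq_mul] at e3
  rw [mul_comm]
  exact e3

end Orth

open Orth in
/-- (ORTH) for the random sample -/
theorem S_orth {R J N : ℕ} (hR : 1 ≤ R) (hJ : 1 ≤ J) (ε : ℝ) (h0 : 0 < ε) (h1 : ε ≤ 1) :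
    Pr (fun s : Fin N → LabE R J => ¬ ∀ i j, i ≠ j →
      ((normSq (kapL ((s j : Lab R J) - (s i : Lab R J))) : ℤ) : ℝ) ≤
        ε * (1 + 3 * (R : ℝ) * (2 ^ J - 1)) ^ 2) ≤
      192 * (N : ℝ) ^ 2 * Real.exp (-(ε * R / 4)) := by
  classical
  set P : LabE R J → Prop := fun h => ε * (1 + 3 * (R : ℝ) * (2 ^ J - 1)) ^ 2 <
      ((normSq (kapL (h : Lab R J)) : ℤ) : ℝ) with hP
  set E := Real.exp (-(ε * R / 4)) with hE
  have hE0 : 0 < E := Real.exp_pos _
  have hG : 0 < (Fintype.card (LabE R J) : ℝ) := by exact_mod_cast Fintype.card_pos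
  have hb : ((univ.filter P).card : ℝ) ≤ 192 * E * Fintype.card (LabE R J) :=
    bad_labE hR hJ ε h0 h1
  have hpair : ∀ i j : Fin N, i ≠ j →
      ((univ.filter fun s : Fin N → LabE R J => P (s j - s i)).card : ℝ) ≤
        192 * E * Fintype.card (Fin N → LabE R J) := by
    intro i j hij
    have h := pair_count i j hij P
    have h' : ((univ.filter fun s : Fin N → LabE R J => P (s j - s i)).card : ℝ) *
        Fintype.card (LabE R J) = Fintype.card (Fin N → LabE R J) * (univ.filter P).card := by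
      exact_mod_cast h
    have h2 : ((univ.filter fun s : Fin N → LabE R J => P (s j - s i)).card : ℝ) *
        Fintype.card (LabE R J) ≤ (192 * E * Fintype.card (Fin N → LabE R J)) *
          Fintype.card (LabE R J) := by
      rw [h']
      calc (Fintype.card (Fin N → LabE R J) : ℝ) * (univ.filter P).card
          ≤ Fintype.card (Fin N → LabE R J) * (192 * E * Fintype.card (LabE R J)) :=
            mul_le_mul_of_nonneg_left hb (by positivity)
        _ = _ := by ring
    exact le_of_mul_le_mul_right h2 hG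
  unfold Pr
  rw [div_le_iff₀ (by exact_mod_cast Fintype.card_pos)]
  have hsub : (univ.filter fun s : Fin N → LabE R J => ¬ ∀ i j, i ≠ j →
      ((normSq (kapL ((s j : Lab R J) - (s i : Lab R J))) : ℤ) : ℝ) ≤
        ε * (1 + 3 * (R : ℝ) * (2 ^ J - 1)) ^ 2) ⊆
      (univ : Finset (Fin N × Fin N)).biUnion fun x =>
        if x.1 ≠ x.2 then univ.filter fun s : Fin N → LabE R J => P (s x.2 - s x.1) else ∅ := by
    intro s hs
    have hs2 := (mem_filter.1 hs).2
    push Not at hs2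
    obtain ⟨i, j, hij, hlt⟩ := hs2
    refine mem_biUnion.2 ⟨(i, j), mem_univ _, ?_⟩
    rw [if_pos hij]
    refine mem_filter.2 ⟨mem_univ _, ?_⟩
    rw [hP]
    simp only [AddSubgroup.coe_sub]
    exact hlt
  have hc : ((univ.filter fun s : Fin N → LabE R J => ¬ ∀ i j, i ≠ j →
      ((normSq (kapL ((s j : Lab R J) - (s i : Lab R J))) : ℤ) : ℝ) ≤
        ε * (1 + 3 * (R : ℝ) * (2 ^ J - 1)) ^ 2).card : ℝ) ≤
      ∑ x : Fin N × Fin N, ((if x.1 ≠ x.2 then
        univ.filter fun s : Fin N → LabE R J => P (s x.2 - s x.1) else ∅).card : ℝ) := by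
    exact_mod_cast (card_le_card hsub).trans card_biUnion_le
  have hcard : ∀ s t : Finset (Fin N → LabE R J), (∀ x, x ∈ s ↔ x ∈ t) →
      (s.card : ℝ) ≤ t.card := by
    intro s t hst
    rw [Finset.ext hst]
  refine (hcard _ _ fun x => by simp only [mem_filter]).trans (hc.trans ?_)
  calc ∑ x : Fin N × Fin N, ((if x.1 ≠ x.2 then
        univ.filter fun s : Fin N → LabE R J => P (s x.2 - s x.1) else ∅).card : ℝ)
      ≤ ∑ _x : Fin N × Fin N, 192 * E * Fintype.card (Fin N → LabE R J) := by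
        apply sum_le_sum
        intro x _
        split_ifs with hx
        · exact hpair x.1 x.2 hx
        · rw [card_empty]; push_cast; positivity
    _ = _ := by
        rw [sum_const, card_univ, Fintype.card_prod, Fintype.card_fin, nsmul_eq_mul]
        push_cast
        ring

end

end BQA
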