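import Pool.Agent.BQ.W_Walk
import Pool.Agent.BQ.H_Rho

/-!
# BQ, block W: the block matrix of a quaternionic graph and its powers
-/

set_option autoImplicit false

open Quaternion Finset Matrix

namespace BQA

noncomputable section

variable {n : ℕ}

/-! ## The product of the units along a walk -/

theorem usp_coe {q : ℍ[ℤ]} (h : q ≠ 0) :
    ((usp q : S3) : ℍ[ℝ]) = -(‖qR q‖⁻¹ • star (qR q)) := coe_uR (qR_ne_zero h)

theorem usp_mul {a b : ℍ[ℤ]} (ha : a ≠ 0) (hb : b ≠ 0) : usp (a * b) = -(usp b * usp a) := by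
  have hab : a * b ≠ 0 := by
    intro h
    have h1 := congrArg normSq h
    rw [map_mul, map_zero] at h1
    rcases mul_eq_zero.1 h1 with h2 | h2
    · exact ha (nq_eq_zero.1 h2)
    · exact hb (nq_eq_zero.1 h2)
  apply Subtype.ext
  have h1 : ((-(usp b * usp a) : S3) : ℍ[ℝ]) = -(((usp b : S3) : ℍ[ℝ]) * ((usp a : S3) : ℍ[ℝ])) :=
    rfl
  rw [h1, usp_coe hab, usp_coe ha, usp_coe hb, qR_mul, star_mul, norm_mul, neg_mul_neg,
    smul_mul_smul_comm, mul_inv]
  rw [mul_comm ‖qR a‖⁻¹]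

/-- the holonomy of a walk of length `k` with product `P` -/
def holS (k : ℕ) (P : ℍ[ℤ]) : S3 := if Even k then -(usp P) else usp P

theorem holS_zero : holS 0 1 = 1 := by
  unfold holS
  rw [if_pos Even.zero]
  apply Subtype.ext
  have h1 : ((-(usp 1) : S3) : ℍ[ℝ]) = -((usp 1 : S3) : ℍ[ℝ]) := rfl
  rw [h1, usp_coe (one_ne_zero), qR_one]
  simp

theorem holS_succ (k : ℕ) {q P : ℍ[ℤ]} (hq : q ≠ 0) (hP : P ≠ 0) :
    holS (k + 1) (q * P) = holS k P * usp q := by
  unfold holS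
  rw [usp_mul hq hP]
  by_cases h : Even k
  · have h1 : ¬ Even (k + 1) := by rw [Nat.even_add_one, not_not]; exact h
    rw [if_neg h1, if_pos h]
    apply Subtype.ext
    have e1 : ((-(usp P * usp q) : S3) : ℍ[ℝ]) =
      -(((usp P : S3) : ℍ[ℝ]) * ((usp q : S3) : ℍ[ℝ])) := rfl
    have e2 : (((-(usp P)) * usp q : S3) : ℍ[ℝ]) =
      (-((usp P : S3) : ℍ[ℝ])) * ((usp q : S3) : ℍ[ℝ]) := rfl
    rw [e1, e2, neg_mul]
  · have h1 : Even (k + 1) := by rw [Nat.even_add_one]; exact h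
    rw [if_pos h1, if_neg h]
    apply Subtype.ext
    have e1 : ((-(-(usp P * usp q)) : S3) : ℍ[ℝ]) =
      - -(((usp P : S3) : ℍ[ℝ]) * ((usp q : S3) : ℍ[ℝ])) := rfl
    have e2 : ((usp P * usp q : S3) : ℍ[ℝ]) =
      ((usp P : S3) : ℍ[ℝ]) * ((usp q : S3) : ℍ[ℝ]) := rfl
    rw [e1, e2, neg_neg]

theorem norm_qR (P : ℍ[ℤ]) : ‖qR P‖ = Real.sqrt ((normSq P : ℤ) : ℝ) := by
  rw [← normSq_qR, Quaternion.normSq_eq_norm_mul_self, Real.sqrt_mul_self (norm_nonneg _)]

theorem holS_re (m : ℕ) {P : ℍ[ℤ]} (hn : n ≠ 0) (hP : normSq P = (n : ℤ) ^ (2 * m)) :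
    ((holS (2 * m) P : S3) : ℍ[ℝ]).re = (P.re : ℝ) / (n : ℝ) ^ m := by
  have hP0 : P ≠ 0 := by
    rintro rfl
    rw [map_zero] at hP
    exact pow_ne_zero (2 * m) (by exact_mod_cast hn : (n : ℤ) ≠ 0) hP.symm
  have hnorm : ‖qR P‖ = (n : ℝ) ^ m := by
    rw [norm_qR, hP]
    push_cast
    rw [mul_comm 2 m, pow_mul, Real.sqrt_sq (by positivity)]
  have h1 : ((holS (2 * m) P : S3) : ℍ[ℝ]) = -((usp P : S3) : ℍ[ℝ]) := by
    unfold holS
    rw [if_pos (even_two_mul m)]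
    rfl
  rw [h1, usp_coe hP0, hnorm]
  simp [div_eq_inv_mul]

/-! ## The block matrix -/

variable {ι : Type} [Fintype ι] [DecidableEq ι]

/-- the matrix of `T` in the representation `ρ` -/
def opM (Γ : QG n) (ρ : S3 → Matrix ι ι ℂ) : Matrix (Γ.V × ι) (Γ.V × ι) ℂ :=
  Matrix.of fun x y => ∑ e ∈ univ.filter (fun e => Γ.src e = x.1 ∧ Γ.tgt e = y.1),
    ρ (usp (Γ.q e)) x.2 y.2

theorem tgt_inv (Γ : QG n) (e : Γ.E) : Γ.tgt (Γ.inv e) = Γ.src e := by
  rw [← Γ.src_inv, Γ.inv_inv]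

theorem opM_herm (Γ : QG n) (ρ : S3 → Matrix ι ι ℂ) (hstar : ∀ u, (ρ u)ᴴ = ρ u⁻¹) :
    (opM Γ ρ).IsHermitian := by
  ext x y
  rw [Matrix.conjTranspose_apply]
  unfold opM
  simp only [Matrix.of_apply]
  rw [star_sum]
  refine Finset.sum_nbij' (fun e => Γ.inv e) (fun e => Γ.inv e) ?_ ?_ ?_ ?_ ?_
  · intro e he
    rw [mem_filter] at he ⊢
    exact ⟨mem_univ _, by rw [Γ.src_inv]; exact he.2.2, by rw [tgt_inv]; exact he.2.1⟩
  · intro e he
    rw [mem_filter] at he ⊢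
    exact ⟨mem_univ _, by rw [Γ.src_inv]; exact he.2.2, by rw [tgt_inv]; exact he.2.1⟩
  · intro e _
    exact Γ.inv_inv e
  · intro e _
    exact Γ.inv_inv e
  · intro e _
    rw [Γ.q_inv, usp_star, ← hstar, Matrix.conjTranspose_apply]

theorem form_eq (Γ : QG n) (ρ : S3 → Matrix ι ι ℂ) (c c' : Γ.V → ι → ℂ) :
    Γ.form ρ c c' = star (fun x : Γ.V × ι => c x.1 x.2) ⬝ᵥ
      (opM Γ ρ *ᵥ (fun x : Γ.V × ι => c' x.1 x.2)) := by
  classical
  unfold QG.form
  simp only [dotProduct, Matrix.mulVec, opM, Matrix.of_apply, Pi.star_apply]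
  have h1 : ∀ x : Γ.V × ι, star (c x.1 x.2) * ∑ y : Γ.V × ι,
      (∑ e ∈ univ.filter (fun e => Γ.src e = x.1 ∧ Γ.tgt e = y.1), ρ (usp (Γ.q e)) x.2 y.2) *
        c' y.1 y.2 = ∑ e, if Γ.src e = x.1 then
          star (c x.1 x.2) * ∑ j, ρ (usp (Γ.q e)) x.2 j * c' (Γ.tgt e) j else 0 := by
    intro x
    have h2 : ∑ y : Γ.V × ι,
      (∑ e ∈ univ.filter (fun e => Γ.src e = x.1 ∧ Γ.tgt e = y.1), ρ (usp (Γ.q e)) x.2 y.2) *
        c' y.1 y.2 = ∑ e, if Γ.src e = x.1 then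
          ∑ j, ρ (usp (Γ.q e)) x.2 j * c' (Γ.tgt e) j else 0 := by
      have h3 : ∀ y : Γ.V × ι, (∑ e ∈ univ.filter (fun e => Γ.src e = x.1 ∧ Γ.tgt e = y.1),
          ρ (usp (Γ.q e)) x.2 y.2) * c' y.1 y.2 =
          ∑ e, if Γ.src e = x.1 then (if Γ.tgt e = y.1 then
            ρ (usp (Γ.q e)) x.2 y.2 * c' y.1 y.2 else 0) else 0 := by
        intro y
        rw [Finset.sum_mul, Finset.sum_filter]
        apply Finset.sum_congr rfl
        intro e _
        by_cases a : Γ.src e = x.1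
        · by_cases b : Γ.tgt e = y.1
          · simp [a, b]
          · simp [a, b]
        · simp [a]
      rw [Finset.sum_congr rfl (fun y _ => h3 y), Finset.sum_comm]
      apply Finset.sum_congr rfl
      intro e _
      by_cases a : Γ.src e = x.1
      · simp only [a, if_true]
        rw [Fintype.sum_prod_type, Finset.sum_eq_single (Γ.tgt e)]
        · simp
        · intro b _ hb
          simp [hb.symm]
        · intro h; exact absurd (mem_univ _) h
      · simp [a]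
    rw [h2, Finset.mul_sum]
    apply Finset.sum_congr rfl
    intro e _
    split_ifs <;> simp
  rw [Finset.sum_congr rfl (fun x _ => h1 x)]
  conv_rhs => rw [Finset.sum_comm]
  apply Finset.sum_congr rfl
  intro e _
  rw [Fintype.sum_prod_type, Finset.sum_eq_single (Γ.src e)]
  · simp
  · intro b _ hb
    simp [hb.symm]
  · intro h; exact absurd (mem_univ _) h

theorem nv2_eq (Γ : QG n) (c : Γ.V → ι → ℂ) :
    nv2 c = ∑ x : Γ.V × ι, ‖c x.1 x.2‖ ^ 2 := by
  unfold nv2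
  rw [Fintype.sum_prod_type]

/-- the powers of the matrix are given by the walks -/
theorem opM_pow (Γ : QG n) (hn : n ≠ 0) (ρ : S3 → Matrix ι ι ℂ)
    (hmul : ∀ u v, ρ (u * v) = ρ v * ρ u) (hone : ρ 1 = 1) (k : ℕ) (x y : Γ.V × ι) :
    (opM Γ ρ ^ k) x y =
      (Wst Γ k x.1 y.1).sum (fun P a => (a : ℂ) * ρ (holS k P) x.2 y.2) := by
  classical
  induction k generalizing x with
  | zero =>
    rw [pow_zero, Matrix.one_apply]
    simp only [Wst]
    by_cases h : x.1 = y.1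
    · rw [if_pos h, Finsupp.sum_single_index (by simp), holS_zero, hone, Matrix.one_apply]
      by_cases h2 : x.2 = y.2
      · rw [if_pos h2, if_pos (Prod.ext h h2)]; simp
      · rw [if_neg h2, if_neg (fun h3 => h2 (by rw [h3]))]; simp
    · rw [if_neg h, if_neg (fun h3 => h (by rw [h3]))]
      simp
  | succ k ih =>
    rw [pow_succ', Matrix.mul_apply]
    simp only [ih]
    simp only [Wst]
    rw [← Finsupp.sum_finsetSum_index (by simp) (by intros; push_cast; ring)]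
    have h1 : ∀ e ∈ univ.filter (fun e => Γ.src e = x.1),
        (Finsupp.mapDomain (fun P => Γ.q e * P) (Wst Γ k (Γ.tgt e) y.1)).sum
          (fun P a => (a : ℂ) * ρ (holS (k + 1) P) x.2 y.2) =
        ∑ j, ρ (usp (Γ.q e)) x.2 j *
          (Wst Γ k (Γ.tgt e) y.1).sum (fun P a => (a : ℂ) * ρ (holS k P) j y.2) := by
      intro e _
      rw [Finsupp.sum_mapDomain_index (by simp) (by intros; push_cast; ring)]
      simp only [Finsupp.sum, Finset.mul_sum]
      rw [Finset.sum_comm]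
      apply Finset.sum_congr rfl
      intro P hP
      have hP0 : P ≠ 0 := by
        rintro rfl
        have := Wst_support Γ k _ _ _ (Finsupp.mem_support_iff.1 hP)
        rw [map_zero] at this
        exact pow_ne_zero k (by exact_mod_cast hn : (n : ℤ) ≠ 0) this.symm
      rw [holS_succ k (q_ne_zero Γ hn e) hP0, hmul, Matrix.mul_apply, Finset.mul_sum]
      apply Finset.sum_congr rfl
      intro j _
      ring
    rw [Finset.sum_congr rfl h1]
    have h2 : ∀ z : Γ.V × ι, opM Γ ρ x z *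
        (Wst Γ k z.1 y.1).sum (fun P a => (a : ℂ) * ρ (holS k P) z.2 y.2) =
        ∑ e ∈ univ.filter (fun e => Γ.src e = x.1), if Γ.tgt e = z.1 then
          ρ (usp (Γ.q e)) x.2 z.2 *
            (Wst Γ k (Γ.tgt e) y.1).sum (fun P a => (a : ℂ) * ρ (holS k P) z.2 y.2) else 0 := by
      intro z
      simp only [opM, Matrix.of_apply]
      rw [Finset.sum_mul, ← Finset.sum_filter, Finset.filter_filter]
      apply Finset.sum_congr rfl
      intro e he
      rw [(mem_filter.1 he).2.2]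
    rw [Finset.sum_congr rfl (fun z _ => h2 z), Finset.sum_comm]
    apply Finset.sum_congr rfl
    intro e _
    rw [Fintype.sum_prod_type, Finset.sum_eq_single (Γ.tgt e)]
    · simp
    · intro b _ hb
      simp [hb.symm]
    · intro h; exact absurd (mem_univ _) h

/-- closed walks with given product -/
def W0 (Γ : QG n) (k : ℕ) : ℍ[ℤ] →₀ ℕ := ∑ s, Wst Γ k s s

/-- the trace formula -/
theorem trace_pow (Γ : QG n) (hn : n ≠ 0) (l m : ℕ) :
    ((opM Γ (Pool.Agent.BQ.rho l)) ^ (2 * m)).trace =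
      (((W0 Γ (2 * m)).sum (fun P a => (a : ℝ) *
        (Polynomial.Chebyshev.U ℝ (l : ℤ)).eval ((P.re : ℝ) / (n : ℝ) ^ m)) : ℝ) : ℂ) := by
  classical
  rw [Matrix.trace]
  simp only [Matrix.diag_apply]
  rw [Fintype.sum_prod_type]
  unfold W0
  rw [← Finsupp.sum_finsetSum_index (by simp) (by intros; push_cast; ring)]
  rw [Complex.ofReal_sum]
  apply Finset.sum_congr rfl
  intro s _
  have h1 : ∀ i : Fin (l + 1), (opM Γ (Pool.Agent.BQ.rho l) ^ (2 * m)) (s, i) (s, i) =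
      (Wst Γ (2 * m) s s).sum (fun P a => (a : ℂ) *
        Pool.Agent.BQ.rho l (holS (2 * m) P) i i) :=
    fun i => opM_pow Γ hn _ (Pool.Agent.BQ.rho_mul l) (Pool.Agent.BQ.rho_one l) _ _ _
  rw [Finset.sum_congr rfl (fun i _ => h1 i)]
  simp only [Finsupp.sum]
  rw [Finset.sum_comm, Complex.ofReal_sum]
  apply Finset.sum_congr rfl
  intro P hP
  rw [← Finset.mul_sum, Complex.ofReal_mul, Complex.ofReal_natCast]
  congr 1
  have h2 := Pool.Agent.BQ.trace_rho l (holS (2 * m) P)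
  rw [holS_re m hn (Wst_support Γ _ _ _ _ (Finsupp.mem_support_iff.1 hP)), Matrix.trace] at h2
  simp only [Matrix.diag_apply] at h2
  exact h2

theorem W0_support (Γ : QG n) (k : ℕ) {Q : ℍ[ℤ]} (h : W0 Γ k Q ≠ 0) :
    normSq Q = (n : ℤ) ^ k := by
  unfold W0 at h
  rw [Finsupp.coe_finsetSum, Finset.sum_apply] at h
  obtain ⟨s, _, hs⟩ := Finset.exists_ne_zero_of_sum_ne_zero h
  exact Wst_support Γ k s s Q hs

theorem W0_le (Γ : QG n) (k : ℕ) (Q : ℍ[ℤ]) : W0 Γ k Q ≤ ∑ s, Ws Γ k s Q := by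
  unfold W0
  rw [Finsupp.coe_finsetSum, Finset.sum_apply]
  apply Finset.sum_le_sum
  intro s _
  unfold Ws
  exact Finset.single_le_sum (f := fun t => Wst Γ k s t Q) (fun _ _ => Nat.zero_le _) (mem_univ s)

end

end BQA
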