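import Pool.Agent.BQ.A_Ex

/-!
# BQ, block W: counting walks by their product (PAPER.md, 7.1)

`Wst Γ k s t` : the number of walks of length `k` from `s` to `t`, as a function of the product
`q(e_1) q(e_2) ... q(e_k)`.
-/

set_option autoImplicit false

open Quaternion Finset

namespace BQA

noncomputable section

variable {n : ℕ}

/-- number of walks from `s` to `t` of length `k` with given product -/
def Wst (Γ : QG n) : ℕ → Γ.V → Γ.V → (ℍ[ℤ] →₀ ℕ)
  | 0 => fun s t => if s = t then Finsupp.single 1 1 else 0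
  | (k + 1) => fun s t => ∑ e ∈ univ.filter (fun e => Γ.src e = s),
      Finsupp.mapDomain (fun P => Γ.q e * P) (Wst Γ k (Γ.tgt e) t)

/-- number of walks from `s` of length `k` with given product -/
def Ws (Γ : QG n) (k : ℕ) (s : Γ.V) (Q : ℍ[ℤ]) : ℕ := ∑ t, Wst Γ k s t Q

theorem q_ne_zero (Γ : QG n) (hn : n ≠ 0) (e : Γ.E) : Γ.q e ≠ 0 := by
  intro h
  have := Γ.nm_q e
  rw [h, map_zero] at this
  exact hn (by exact_mod_cast this.symm)

theorem mul_left_inj_q {a : ℍ[ℤ]} (ha : a ≠ 0) : Function.Injective (fun P : ℍ[ℤ] => a * P) := by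
  intro P P' h
  simp only at h
  have h1 : (normSq a) • P = (normSq a) • P' := by
    rw [← star_mul_self_smul, ← star_mul_self_smul, mul_assoc, mul_assoc, h]
  exact smul_cancel (nq_pos ha).ne' h1

/-- the support: the norm of a product is `n ^ k` -/
theorem Wst_support (Γ : QG n) (k : ℕ) (s t : Γ.V) (Q : ℍ[ℤ]) (h : Wst Γ k s t Q ≠ 0) :
    normSq Q = (n : ℤ) ^ k := by
  classical
  induction k generalizing s Q with
  | zero =>
    simp only [Wst] at h
    split_ifs at h with hst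
    · rw [Finsupp.single_apply] at h
      split_ifs at h with h1
      · rw [← h1]; simp
      · exact absurd rfl h
    · exact absurd rfl h
  | succ k ih =>
    simp only [Wst, Finsupp.coe_finsetSum, Finset.sum_apply] at h
    obtain ⟨e, _, he⟩ := Finset.exists_ne_zero_of_sum_ne_zero h
    have h1 : Q ∈ (Finsupp.mapDomain (fun P => Γ.q e * P) (Wst Γ k (Γ.tgt e) t)).support :=
      Finsupp.mem_support_iff.2 he
    have h2 := Finsupp.mapDomain_support h1
    rw [Finset.mem_image] at h2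
    obtain ⟨P, hP, rfl⟩ := h2
    rw [map_mul, Γ.nm_q, ih _ _ (Finsupp.mem_support_iff.1 hP), pow_succ]
    ring

/-- one step -/
theorem Ws_succ (Γ : QG n) (k : ℕ) (s : Γ.V) (Q : ℍ[ℤ]) :
    Ws Γ (k + 1) s Q = ∑ e ∈ univ.filter (fun e => Γ.src e = s),
      ∑ t, Finsupp.mapDomain (fun P => Γ.q e * P) (Wst Γ k (Γ.tgt e) t) Q := by
  classical
  unfold Ws
  simp only [Wst, Finsupp.coe_finsetSum, Finset.sum_apply]
  rw [Finset.sum_comm]

/-- the contribution of one edge -/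
theorem Ws_edge (Γ : QG n) (hn : n ≠ 0) (k : ℕ) (e : Γ.E) (Q : ℍ[ℤ]) :
    (∑ t, Finsupp.mapDomain (fun P => Γ.q e * P) (Wst Γ k (Γ.tgt e) t) Q = 0) ∨
    ∃ P, Q = Γ.q e * P ∧
      ∑ t, Finsupp.mapDomain (fun P => Γ.q e * P) (Wst Γ k (Γ.tgt e) t) Q = Ws Γ k (Γ.tgt e) P := by
  classical
  by_cases h : ∃ P, Q = Γ.q e * P
  · obtain ⟨P, rfl⟩ := h
    right
    refine ⟨P, rfl, ?_⟩
    unfold Ws
    apply Finset.sum_congr rfl
    intro t _
    exact Finsupp.mapDomain_apply (mul_left_inj_q (q_ne_zero Γ hn e)) _ _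
  · left
    apply Finset.sum_eq_zero
    intro t _
    apply Finsupp.mapDomain_of_notMem_range
    rintro ⟨P, hP⟩
    exact h ⟨P, hP.symm⟩

theorem Ws_zero (Γ : QG n) (s : Γ.V) (Q : ℍ[ℤ]) : Ws Γ 0 s Q = if Q = 1 then 1 else 0 := by
  classical
  unfold Ws
  simp only [Wst]
  rw [Finset.sum_eq_single s]
  · rw [if_pos rfl, Finsupp.single_apply]
    by_cases h : Q = 1
    · rw [if_pos h, if_pos h.symm]
    · rw [if_neg h, if_neg (fun h' => h h'.symm)]
  · intro t _ ht
    rw [if_neg (fun h => ht h.symm)]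
    rfl
  · intro h
    exact absurd (mem_univ s) h

theorem lev_one {p : ℕ} (hp : p.Prime) : lev p 1 = 0 := by
  have h0 : ¬ DV (p : ℤ) (1 : ℍ[ℤ]) := by
    intro h
    rw [dv_iff] at h
    have h1 : (p : ℤ) ∣ 1 := h.1
    have := Int.le_of_dvd one_pos h1
    have := hp.two_le
    omega
  have h := lev_add hp (c := 0) (Q := 1) (Q0 := 1) (by simp) h0
  simp at h
  omega

theorem sq_lam {C : ℕ} {Δ : ℝ} (hC : 1 ≤ C) (hCD : (C : ℝ) ≤ Δ) :
    0 < Real.sqrt (C / Δ) ∧ (C : ℝ) / Real.sqrt (C / Δ) = Real.sqrt (C * Δ) ∧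
      Δ * Real.sqrt (C / Δ) = Real.sqrt (C * Δ) := by
  have hC1 : (1 : ℝ) ≤ C := by exact_mod_cast hC
  have hD0 : 0 < Δ := by linarith
  have hC0 : (0 : ℝ) < C := by linarith
  have hpos : 0 < Real.sqrt (C / Δ) := Real.sqrt_pos.2 (by positivity)
  refine ⟨hpos, ?_, ?_⟩
  · rw [div_eq_iff hpos.ne', ← Real.sqrt_mul (by positivity)]
    have : (C : ℝ) * Δ * (C / Δ) = (C : ℝ) ^ 2 := by field_simp
    rw [this, Real.sqrt_sq hC0.le]
  · have h1 : Real.sqrt (C * Δ) = Real.sqrt (Δ ^ 2 * (C / Δ)) := by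
      congr 1
      field_simp
    rw [h1, Real.sqrt_mul (by positivity), Real.sqrt_sq hD0.le]

/-- at most `C` edges go down -/
theorem down_card (Γ : QG n) {p : ℕ} (hp : p.Prime) (hp2 : p ≠ 2) {C : ℕ} (hM : Mult Γ p C)
    (s : Γ.V) {Q0 : ℍ[ℤ]} (hQ0 : ¬ DV (p : ℤ) Q0) :
    (univ.filter (fun e => Γ.src e = s ∧ DV (p : ℤ) (star (Γ.q e) * Q0))).card ≤ C := by
  classical
  have hpZ : Prime (p : ℤ) := Nat.prime_iff_prime_int.1 hp
  have h2 : ¬ (p : ℤ) ∣ 2 := by
    intro h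
    have h3 : p ∣ 2 := by exact_mod_cast h
    exact hp2 ((Nat.prime_dvd_prime_iff_eq hp Nat.prime_two).1 h3)
  rcases (univ.filter (fun e => Γ.src e = s ∧ DV (p : ℤ) (star (Γ.q e) * Q0))).eq_empty_or_nonempty
    with h | ⟨e0, he0⟩
  · rw [h]; simp
  · rw [mem_filter] at he0
    refine le_trans (Finset.card_le_card ?_) (hM e0)
    intro e he
    rw [mem_filter] at he ⊢
    refine ⟨mem_univ _, he.2.1.trans he0.2.1.symm, ?_⟩
    exact dv_star_mul_of_common hpZ h2 hQ0 he.2.2 he0.2.2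

/-- (7.1) -/
theorem Ws_bound (Γ : QG n) {p : ℕ} (hp : p.Prime) (hp2 : p ≠ 2) (h1 : p ∣ n)
    (h2 : ¬ p ^ 2 ∣ n) {C : ℕ} {Δ : ℝ} (hC : 1 ≤ C) (hCD : (C : ℝ) ≤ Δ)
    (hM : Mult Γ p C) (hD : Deg Γ Δ) (k : ℕ) (s : Γ.V) (Q : ℍ[ℤ]) (hQ : Q ≠ 0) :
    (Ws Γ k s Q : ℝ) ≤ (2 * Real.sqrt (C * Δ)) ^ k * Real.sqrt (C / Δ) ^ lev p Q := by
  classical
  obtain ⟨hlam, hl1, hl2⟩ := sq_lam hC hCD
  have hn : n ≠ 0 := by
    rintro rfl
    exact h2 (dvd_zero _)
  set lam := Real.sqrt (C / Δ) with hlamdef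
  set K := Real.sqrt (C * Δ) with hK
  have hK0 : 0 ≤ K := Real.sqrt_nonneg _
  induction k generalizing s Q with
  | zero =>
    rw [Ws_zero, pow_zero, one_mul]
    split_ifs with h
    · rw [h, lev_one hp]; simp
    · simp only [Nat.cast_zero]
      positivity
  | succ k ih =>
    obtain ⟨c, Q0, hQ0, hnd⟩ := V_exists hp _ Q hQ le_rfl
    rw [Ws_succ]
    push_cast
    have hedge : ∀ e ∈ univ.filter (fun e => Γ.src e = s),
        (∑ t, (Finsupp.mapDomain (fun P => Γ.q e * P) (Wst Γ k (Γ.tgt e) t) Q : ℝ)) ≤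
        (2 * K) ^ k * lam ^ lev p Q *
          ((if DV (p : ℤ) (star (Γ.q e) * Q0) then 1 / lam else 0) + lam) := by
      intro e _
      have hnn : 0 ≤ (2 * K) ^ k * lam ^ lev p Q *
          ((if DV (p : ℤ) (star (Γ.q e) * Q0) then 1 / lam else 0) + lam) := by
        split_ifs <;> positivity
      rcases Ws_edge Γ hn k e Q with h0 | ⟨P, hP, hval⟩
      · have : (∑ t, (Finsupp.mapDomain (fun P => Γ.q e * P) (Wst Γ k (Γ.tgt e) t) Q : ℝ)) = 0 := by
          exact_mod_cast h0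
        rw [this]; exact hnn
      · have hcast : (∑ t, (Finsupp.mapDomain (fun P => Γ.q e * P) (Wst Γ k (Γ.tgt e) t) Q : ℝ)) =
            (Ws Γ k (Γ.tgt e) P : ℝ) := by
          exact_mod_cast hval
        rw [hcast]
        have hP0 : P ≠ 0 := by
          rintro rfl
          exact hQ (by rw [hP, mul_zero])
        refine (ih (Γ.tgt e) P hP0).trans ?_
        have hlevP : lev p P = lev p (star (Γ.q e) * Q) := by
          have e1 : star (Γ.q e) * Q = (n : ℤ) • P := by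
            rw [hP, ← mul_assoc, star_mul_self_smul, Γ.nm_q]
          rw [e1, lev_smul hp (by exact_mod_cast hn) hP0]
        have hstep := lev_step hp (q := Γ.q e) hQ0 hnd
          (by rw [Γ.nm_q]; exact_mod_cast h1) (by rw [Γ.nm_q]; exact_mod_cast h2)
        rw [mul_assoc]
        apply mul_le_mul_of_nonneg_left _ (by positivity)
        rcases hstep with ⟨g1, g2⟩ | ⟨g1, g2⟩
        · rw [if_neg g2, zero_add, hlevP, g1, pow_succ]
        · rw [if_pos g2, hlevP, ← g1, pow_succ, mul_add, mul_assoc, mul_one_div_cancel hlam.ne',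
            mul_one]
          have : 0 ≤ lam ^ lev p (star (Γ.q e) * Q) * lam * lam := by positivity
          linarith
    refine (Finset.sum_le_sum hedge).trans ?_
    rw [← Finset.mul_sum, Finset.sum_add_distrib]
    have hs1 : ∑ e ∈ univ.filter (fun e => Γ.src e = s),
        (if DV (p : ℤ) (star (Γ.q e) * Q0) then 1 / lam else 0) ≤ C * (1 / lam) := by
      rw [← Finset.sum_filter, Finset.filter_filter, Finset.sum_const, nsmul_eq_mul]
      apply mul_le_mul_of_nonneg_right _ (by positivity)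
      exact_mod_cast down_card Γ hp hp2 hM s hnd
    have hs2 : ∑ e ∈ univ.filter (fun e => Γ.src e = s), lam ≤ Δ * lam := by
      rw [Finset.sum_const, nsmul_eq_mul]
      exact mul_le_mul_of_nonneg_right (hD s) hlam.le
    have hs3 : C * (1 / lam) + Δ * lam = 2 * K := by
      rw [mul_one_div, hl1, hl2]; ring
    calc (2 * K) ^ k * lam ^ lev p Q * _
        ≤ (2 * K) ^ k * lam ^ lev p Q * (2 * K) := by
          apply mul_le_mul_of_nonneg_left _ (by positivity)
          rw [← hs3]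
          exact add_le_add hs1 hs2
      _ = (2 * K) ^ (k + 1) * lam ^ lev p Q := by ring

end

end BQA
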