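import Mathlib

/-! Block X of BQ (helper87): the matrix Chernoff bound by moments (exchangeable pairs).
All matrices have entries in an RCLike field; the bounds are bounds of real parts of traces. -/

open Matrix Finset
open scoped ComplexOrder

namespace Pool.Agent.BQ.X

variable {𝕜 : Type*} [RCLike 𝕜] {n : Type*} [Fintype n] [DecidableEq n]

/-- real part of the trace -/
noncomputable def tr (A : Matrix n n 𝕜) : ℝ := RCLike.re (Matrix.trace A)

omit [DecidableEq n] in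
lemma tr_add (A B : Matrix n n 𝕜) : tr (A + B) = tr A + tr B := by
  simp [tr, Matrix.trace_add]

omit [DecidableEq n] in
lemma tr_sub (A B : Matrix n n 𝕜) : tr (A - B) = tr A - tr B := by
  simp [tr, Matrix.trace_sub]

omit [DecidableEq n] in
lemma tr_neg (A : Matrix n n 𝕜) : tr (-A) = - tr A := by
  simp [tr, Matrix.trace_neg]

omit [DecidableEq n] in
lemma tr_sum {α : Type*} (s : Finset α) (f : α → Matrix n n 𝕜) :
    tr (∑ i ∈ s, f i) = ∑ i ∈ s, tr (f i) := by
  simp [tr, Matrix.trace_sum]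

omit [DecidableEq n] in
lemma tr_smul (c : ℝ) (A : Matrix n n 𝕜) : tr (c • A) = c * tr A := by
  simp [tr, Matrix.trace_smul, RCLike.smul_re]

omit [DecidableEq n] in
lemma tr_comm (A B : Matrix n n 𝕜) : tr (A * B) = tr (B * A) := by
  simp [tr, Matrix.trace_mul_comm A B]

/-- spectral theorem with all powers -/
lemma spectral {S : Matrix n n 𝕜} (hS : S.PosSemidef) :
    ∃ (U : Matrix n n 𝕜) (a : n → ℝ), (∀ i, 0 ≤ a i) ∧ Uᴴ * U = 1 ∧ U * Uᴴ = 1 ∧
      ∀ p : ℕ, S ^ p = U * diagonal (fun i => ((a i ^ p : ℝ) : 𝕜)) * Uᴴ := by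
  classical
  set U : Matrix n n 𝕜 := (hS.1.eigenvectorUnitary : Matrix n n 𝕜) with hU
  have h1 : Uᴴ * U = 1 := by
    have := hS.1.eigenvectorUnitary.2
    rw [Matrix.mem_unitaryGroup_iff'] at this
    exact this
  have h2 : U * Uᴴ = 1 := by
    have := hS.1.eigenvectorUnitary.2
    rw [Matrix.mem_unitaryGroup_iff] at this
    exact this
  have h3 : S = U * diagonal (fun i => ((hS.1.eigenvalues i : ℝ) : 𝕜)) * Uᴴ := by
    have := hS.1.spectral_theorem
    rw [Unitary.conjStarAlgAut_apply] at this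
    exact this
  have h4 := hS.eigenvalues_nonneg
  generalize hS.1.eigenvalues = a at h3 h4
  clear_value U
  refine ⟨U, a, h4, h1, h2, ?_⟩
  intro p
  induction p with
  | zero =>
    simp only [pow_zero, RCLike.ofReal_one]
    rw [show (diagonal (fun _ => (1:𝕜)) : Matrix n n 𝕜) = 1 from Matrix.diagonal_one, mul_one, h2]
  | succ p ih =>
    rw [pow_succ, ih]
    conv_lhs => rw [h3]
    calc U * diagonal (fun i => ((a i ^ p : ℝ) : 𝕜)) * Uᴴ *
          (U * diagonal (fun i => ((a i : ℝ) : 𝕜)) * Uᴴ)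
        = U * diagonal (fun i => ((a i ^ p : ℝ) : 𝕜)) * (Uᴴ * U) *
          diagonal (fun i => ((a i : ℝ) : 𝕜)) * Uᴴ := by
            simp only [Matrix.mul_assoc]
      _ = _ := by
            rw [h1, Matrix.mul_one, Matrix.mul_assoc U, Matrix.diagonal_mul_diagonal]
            congr 3
            ext i
            rw [pow_succ]; push_cast; ring

/-- trace of a product of positive semidefinite matrices -/
lemma tr_mul_nonneg {A B : Matrix n n 𝕜} (hA : A.PosSemidef) (hB : B.PosSemidef) :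
    0 ≤ tr (A * B) := by
  obtain ⟨U, b, hb, -, -, hpow⟩ := spectral hB
  have h1 := hpow 1
  simp only [pow_one] at h1
  rw [h1]
  have h2 : tr (A * (U * diagonal (fun i => ((b i : ℝ) : 𝕜)) * Uᴴ)) =
      tr ((Uᴴ * A * U) * diagonal (fun i => ((b i : ℝ) : 𝕜))) := by
    rw [← Matrix.mul_assoc, tr_comm]
    simp only [Matrix.mul_assoc]
  rw [h2]
  have h3 : (Uᴴ * A * U).PosSemidef := hA.conjTranspose_mul_mul_same U
  unfold tr
  rw [Matrix.trace]
  simp only [Matrix.diag_apply, Matrix.mul_diagonal, map_sum]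
  refine Finset.sum_nonneg fun i _ => ?_
  rw [mul_comm, RCLike.re_ofReal_mul]
  refine mul_nonneg (hb i) ?_
  have := h3.diag_nonneg (i := i)
  exact (RCLike.nonneg_iff.mp this).1

/-- joint form of the traces `tr (H S^p H T^q)` -/
lemma joint {H S T : Matrix n n 𝕜} (hH : H.IsHermitian) (hS : S.PosSemidef) (hT : T.PosSemidef) :
    ∃ (M : n → n → ℝ) (a b : n → ℝ), (∀ i j, 0 ≤ M i j) ∧ (∀ i, 0 ≤ a i) ∧ (∀ i, 0 ≤ b i) ∧
      ∀ p q : ℕ, tr (H * S ^ p * H * T ^ q) = ∑ i, ∑ j, M i j * (a i ^ p * b j ^ q) := by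
  obtain ⟨U, a, ha, -, -, hU⟩ := spectral hS
  obtain ⟨V, b, hb, -, -, hV⟩ := spectral hT
  set W : Matrix n n 𝕜 := Uᴴ * H * V with hW
  have hWs : Wᴴ = Vᴴ * H * U := by
    rw [hW]
    simp only [Matrix.conjTranspose_mul, Matrix.conjTranspose_conjTranspose, hH.eq,
      Matrix.mul_assoc]
  refine ⟨fun i j => ‖W i j‖ ^ 2, a, b, fun _ _ => by positivity, ha, hb, ?_⟩
  intro p q
  have h1 : tr (H * S ^ p * H * T ^ q) =
      tr (Wᴴ * diagonal (fun i => ((a i ^ p : ℝ) : 𝕜)) * W *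
        diagonal (fun i => ((b i ^ q : ℝ) : 𝕜))) := by
    rw [hU p, hV q, hWs, hW]
    have : H * (U * diagonal (fun i => ((a i ^ p : ℝ) : 𝕜)) * Uᴴ) * H *
        (V * diagonal (fun i => ((b i ^ q : ℝ) : 𝕜)) * Vᴴ) =
        (H * (U * diagonal (fun i => ((a i ^ p : ℝ) : 𝕜)) * Uᴴ) * H *
        (V * diagonal (fun i => ((b i ^ q : ℝ) : 𝕜)))) * Vᴴ := by
      simp only [Matrix.mul_assoc]
    rw [this, tr_comm]
    simp only [Matrix.mul_assoc]
  rw [h1]
  unfold tr
  rw [Matrix.trace]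
  simp only [Matrix.diag_apply, Matrix.mul_diagonal, map_sum]
  rw [Finset.sum_comm]
  refine Finset.sum_congr rfl fun j _ => ?_
  rw [Matrix.mul_apply, mul_comm, RCLike.re_ofReal_mul, map_sum, Finset.mul_sum]
  refine Finset.sum_congr rfl fun i _ => ?_
  rw [Matrix.mul_diagonal, Matrix.conjTranspose_apply]
  have : star (W i j) * ((a i ^ p : ℝ) : 𝕜) * W i j = ((‖W i j‖ ^ 2 * a i ^ p : ℝ) : 𝕜) := by
    have h := RCLike.conj_mul (W i j)
    rw [show (starRingEnd 𝕜) (W i j) = star (W i j) from rfl] at h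
    rw [mul_right_comm, h]
    push_cast; ring
  rw [this, RCLike.ofReal_re]
  ring

/-- the scalar inequality -/
lemma scalar_ineq {a b : ℝ} (ha : 0 ≤ a) (hb : 0 ≤ b) (k : ℕ) :
    ∑ q ∈ range (k + 1), a ^ q * b ^ (k - q) ≤ ((k : ℝ) + 1) / 2 * (a ^ k + b ^ k) := by
  have h1 : ∑ q ∈ range (k + 1), a ^ q * b ^ (k - q) =
      ∑ q ∈ range (k + 1), a ^ (k - q) * b ^ q := by
    rw [← Finset.sum_range_reflect]
    refine Finset.sum_congr rfl fun q hq => ?_
    have hq' : q ≤ k := Nat.lt_succ_iff.mp (mem_range.mp hq)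
    rw [show k + 1 - 1 - q = k - q by omega, show k - (k - q) = q by omega]
  have h2 : 2 * ∑ q ∈ range (k + 1), a ^ q * b ^ (k - q) =
      ∑ q ∈ range (k + 1), (a ^ q * b ^ (k - q) + a ^ (k - q) * b ^ q) := by
    rw [Finset.sum_add_distrib, ← h1]; ring
  have h3 : ∑ q ∈ range (k + 1), (a ^ q * b ^ (k - q) + a ^ (k - q) * b ^ q) ≤
      ∑ q ∈ range (k + 1), (a ^ k + b ^ k) := by
    refine Finset.sum_le_sum fun q hq => ?_
    have hq' : q ≤ k := Nat.lt_succ_iff.mp (mem_range.mp hq)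
    have ea : a ^ k = a ^ q * a ^ (k - q) := by rw [← pow_add]; congr 1; omega
    have eb : b ^ k = b ^ q * b ^ (k - q) := by rw [← pow_add]; congr 1; omega
    rw [ea, eb]
    have : 0 ≤ (a ^ q - b ^ q) * (a ^ (k - q) - b ^ (k - q)) := by
      rcases le_total a b with h | h
      · have h1 : a ^ q ≤ b ^ q := pow_le_pow_left₀ ha h q
        have h2 : a ^ (k - q) ≤ b ^ (k - q) := pow_le_pow_left₀ ha h _
        nlinarith
      · have h1 : b ^ q ≤ a ^ q := pow_le_pow_left₀ hb h q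
        have h2 : b ^ (k - q) ≤ a ^ (k - q) := pow_le_pow_left₀ hb h _
        nlinarith
    nlinarith
  rw [Finset.sum_const, card_range, nsmul_eq_mul] at h3
  push_cast at h3
  linarith

omit [DecidableEq n] in
lemma telescope [DecidableEq n] (S T : Matrix n n 𝕜) (k : ℕ) :
    S ^ (k + 1) - T ^ (k + 1) = ∑ q ∈ range (k + 1), S ^ q * (S - T) * T ^ (k - q) := by
  induction k with
  | zero => simp
  | succ k ih =>
    rw [Finset.sum_range_succ, show k + 1 - (k + 1) = 0 by omega, pow_zero, Matrix.mul_one]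
    have h : ∑ q ∈ range (k + 1), S ^ q * (S - T) * T ^ (k + 1 - q) =
        (∑ q ∈ range (k + 1), S ^ q * (S - T) * T ^ (k - q)) * T := by
      rw [Finset.sum_mul]
      refine Finset.sum_congr rfl fun q hq => ?_
      have hq' : q ≤ k := Nat.lt_succ_iff.mp (mem_range.mp hq)
      rw [show k + 1 - q = (k - q) + 1 by omega, pow_succ, ← Matrix.mul_assoc]
    rw [h, ← ih]
    rw [pow_succ S (k + 1), pow_succ T (k + 1)]
    noncomm_ring

/-- the main trace inequality -/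
lemma step_ineq {S T : Matrix n n 𝕜} (hS : S.PosSemidef) (hT : T.PosSemidef) (k : ℕ) :
    tr ((S - T) * (S ^ (k + 1) - T ^ (k + 1))) ≤
      ((k : ℝ) + 1) / 2 * (tr ((S - T) ^ 2 * S ^ k) + tr ((S - T) ^ 2 * T ^ k)) := by
  obtain ⟨M, a, b, hM, ha, hb, hf⟩ := joint (hS.1.sub hT.1) hS hT
  have e1 : tr ((S - T) ^ 2 * S ^ k) = ∑ i, ∑ j, M i j * (a i ^ k * b j ^ 0) := by
    rw [← hf k 0, pow_zero, Matrix.mul_one, tr_comm (_ * _) (S - T), pow_two, Matrix.mul_assoc]
  have e2 : tr ((S - T) ^ 2 * T ^ k) = ∑ i, ∑ j, M i j * (a i ^ 0 * b j ^ k) := by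
    rw [← hf 0 k, pow_zero, Matrix.mul_one, pow_two]
  have e3 : tr ((S - T) * (S ^ (k + 1) - T ^ (k + 1))) =
      ∑ q ∈ range (k + 1), ∑ i, ∑ j, M i j * (a i ^ q * b j ^ (k - q)) := by
    rw [telescope, Finset.mul_sum, tr_sum]
    refine Finset.sum_congr rfl fun q _ => ?_
    rw [← hf]
    simp only [Matrix.mul_assoc]
  rw [e1, e2, e3, Finset.sum_comm]
  rw [← Finset.sum_add_distrib, Finset.mul_sum]
  refine Finset.sum_le_sum fun i _ => ?_
  rw [Finset.sum_comm, ← Finset.sum_add_distrib, Finset.mul_sum]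
  refine Finset.sum_le_sum fun j _ => ?_
  rw [← Finset.mul_sum]
  have := scalar_ineq (ha i) (hb j) k
  have h2 := mul_le_mul_of_nonneg_left this (hM i j)
  simp only [pow_zero, mul_one, one_mul]
  nlinarith [h2]

section expect

variable {ι Ω : Type*} [Fintype ι] [DecidableEq ι] [Fintype Ω]

omit [Fintype ι] [Fintype Ω] in
lemma update_update_swap (i : ι) (σ : ι → Ω) (w : Ω) :
    Function.update (Function.update σ i w) i (σ i) = σ := by
  rw [Function.update_idem, Function.update_eq_self]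

/-- the exchange involution -/
lemma sum_swap (i : ι) (F : (ι → Ω) → Ω → ℝ) :
    ∑ σ : ι → Ω, ∑ w, F (Function.update σ i w) (σ i) = ∑ σ : ι → Ω, ∑ w, F σ w := by
  classical
  rw [← Fintype.sum_prod_type' (f := fun σ w => F (Function.update σ i w) (σ i)),
    ← Fintype.sum_prod_type' (f := F)]
  refine Fintype.sum_equiv
    { toFun := fun x => (Function.update x.1 i x.2, x.1 i)
      invFun := fun x => (Function.update x.1 i x.2, x.1 i)
      left_inv := fun x => by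
        ext1
        · exact update_update_swap i x.1 x.2
        · simp
      right_inv := fun x => by
        ext1
        · exact update_update_swap i x.1 x.2
        · simp } _ _ (fun x => rfl)

/-- the random sum -/
def SS (X : Ω → Matrix n n 𝕜) (σ : ι → Ω) : Matrix n n 𝕜 := ∑ i, X (σ i)

omit [DecidableEq ι] [DecidableEq n] [Fintype n] [Fintype Ω] in
lemma SS_psd {X : Ω → Matrix n n 𝕜} (hX : ∀ w, (X w).PosSemidef) (σ : ι → Ω) :
    (SS X σ).PosSemidef :=
  Matrix.posSemidef_sum _ fun i _ => hX (σ i)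

omit [DecidableEq n] [Fintype n] [Fintype Ω] in
lemma SS_sub_update (X : Ω → Matrix n n 𝕜) (σ : ι → Ω) (i : ι) (w : Ω) :
    SS X σ - SS X (Function.update σ i w) = X (σ i) - X w := by
  unfold SS
  have h1 := Finset.add_sum_erase univ (fun j => X (σ j)) (mem_univ i)
  have h2 := Finset.add_sum_erase univ (fun j => X (Function.update σ i w j)) (mem_univ i)
  have h : ∑ x ∈ univ.erase i, X (Function.update σ i w x) = ∑ x ∈ univ.erase i, X (σ x) := by
    refine Finset.sum_congr rfl fun j hj => ?_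
    rw [Function.update_of_ne (Finset.ne_of_mem_erase hj)]
  simp only [Function.update_self] at h2
  rw [← h1, ← h2, h]
  abel

/-- moments (not normalised) -/
noncomputable def Zm (ι : Type*) [Fintype ι] [DecidableEq ι] (X : Ω → Matrix n n 𝕜) (k : ℕ) : ℝ :=
  ∑ σ : ι → Ω, tr (SS X σ ^ k)

lemma Zm_nonneg {X : Ω → Matrix n n 𝕜} (hX : ∀ w, (X w).PosSemidef) (k : ℕ) :
    0 ≤ Zm ι X k := by
  refine Finset.sum_nonneg fun σ _ => ?_
  have := tr_mul_nonneg ((SS_psd hX σ).pow k) (Matrix.PosSemidef.one (n := n) (R := 𝕜))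
  rwa [Matrix.mul_one] at this

lemma Zm_zero (X : Ω → Matrix n n 𝕜) :
    Zm ι X 0 = (Fintype.card Ω : ℝ) ^ Fintype.card ι * Fintype.card n := by
  unfold Zm
  have h : tr (1 : Matrix n n 𝕜) = Fintype.card n := by simp [tr, Matrix.trace_one]
  simp [h]

/-- comparison of a trace with the mean -/
lemma mean_ineq {A P : Matrix n n 𝕜} {c : ℝ} (h : (c • (1 : Matrix n n 𝕜) - A).PosSemidef)
    (hP : P.PosSemidef) : tr (A * P) ≤ c * tr P := by
  have := tr_mul_nonneg h hP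
  rw [Matrix.sub_mul, tr_sub, Matrix.smul_mul, Matrix.one_mul, tr_smul] at this
  linarith

/-- the one index inequality -/
lemma one_index {X : Ω → Matrix n n 𝕜} (hX : ∀ w, (X w).PosSemidef) {L : ℝ}
    (hL : ∀ w, (L • X w - X w * X w).PosSemidef) (i : ι) (k : ℕ) :
    (Fintype.card Ω : ℝ) * ∑ σ : ι → Ω, tr (X (σ i) * SS X σ ^ (k + 1)) ≤
      ∑ σ : ι → Ω, tr ((∑ w, X w) * SS X σ ^ (k + 1)) +
      ((k : ℝ) + 1) * L * ((Fintype.card Ω : ℝ) * ∑ σ : ι → Ω, tr (X (σ i) * SS X σ ^ k) +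
        ∑ σ : ι → Ω, tr ((∑ w, X w) * SS X σ ^ k)) := by
  have hA : ∀ m : ℕ, (Fintype.card Ω : ℝ) * ∑ σ : ι → Ω, tr (X (σ i) * SS X σ ^ m) =
      ∑ σ : ι → Ω, ∑ _w : Ω, tr (X (σ i) * SS X σ ^ m) := by
    intro m
    rw [Finset.mul_sum]
    refine Finset.sum_congr rfl fun σ _ => ?_
    rw [Finset.sum_const, card_univ, nsmul_eq_mul]
  have hB : ∀ m : ℕ, ∑ σ : ι → Ω, tr ((∑ w, X w) * SS X σ ^ m) =
      ∑ σ : ι → Ω, ∑ w, tr (X w * SS X σ ^ m) := by
    intro m
    refine Finset.sum_congr rfl fun σ _ => ?_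
    rw [Finset.sum_mul, tr_sum]
  -- first difference
  have h1 : ∑ σ : ι → Ω, ∑ w, tr (X w * SS X σ ^ (k + 1)) =
      ∑ σ : ι → Ω, ∑ w, tr (X (σ i) * SS X (Function.update σ i w) ^ (k + 1)) :=
    (sum_swap i (fun σ w => tr (X w * SS X σ ^ (k + 1)))).symm
  have h2 : ∑ σ : ι → Ω, ∑ _w : Ω, tr (X (σ i) * SS X σ ^ (k + 1)) =
      ∑ σ : ι → Ω, ∑ w, tr (X w * SS X (Function.update σ i w) ^ (k + 1)) := by
    have := (sum_swap i (fun σ (_ : Ω) => tr (X (σ i) * SS X σ ^ (k + 1)))).symm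
    rw [this]
    refine Finset.sum_congr rfl fun σ _ => Finset.sum_congr rfl fun w _ => ?_
    simp
  have h3 : 2 * (∑ σ : ι → Ω, ∑ _w : Ω, tr (X (σ i) * SS X σ ^ (k + 1)) -
      ∑ σ : ι → Ω, ∑ w, tr (X w * SS X σ ^ (k + 1))) =
      ∑ σ : ι → Ω, ∑ w, tr ((X (σ i) - X w) *
        (SS X σ ^ (k + 1) - SS X (Function.update σ i w) ^ (k + 1))) := by
    have e : ∀ (σ : ι → Ω) (w : Ω), tr ((X (σ i) - X w) *
        (SS X σ ^ (k + 1) - SS X (Function.update σ i w) ^ (k + 1))) =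
        (tr (X (σ i) * SS X σ ^ (k + 1)) - tr (X (σ i) * SS X (Function.update σ i w) ^ (k + 1))) -
        (tr (X w * SS X σ ^ (k + 1)) - tr (X w * SS X (Function.update σ i w) ^ (k + 1))) := by
      intro σ w
      rw [Matrix.sub_mul, Matrix.mul_sub, Matrix.mul_sub, tr_sub, tr_sub, tr_sub]
    simp only [e, Finset.sum_sub_distrib]
    rw [← h1, ← h2]
    ring
  have h4 : ∑ σ : ι → Ω, ∑ w, tr ((X (σ i) - X w) *
        (SS X σ ^ (k + 1) - SS X (Function.update σ i w) ^ (k + 1))) ≤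
      ∑ σ : ι → Ω, ∑ w, ((k : ℝ) + 1) / 2 * (tr ((X (σ i) - X w) ^ 2 * SS X σ ^ k) +
        tr ((X (σ i) - X w) ^ 2 * SS X (Function.update σ i w) ^ k)) := by
    refine Finset.sum_le_sum fun σ _ => Finset.sum_le_sum fun w _ => ?_
    have := step_ineq (SS_psd hX σ) (SS_psd hX (Function.update σ i w)) k
    rwa [SS_sub_update] at this
  have h5 : ∑ σ : ι → Ω, ∑ w, tr ((X (σ i) - X w) ^ 2 * SS X (Function.update σ i w) ^ k) =
      ∑ σ : ι → Ω, ∑ w, tr ((X (σ i) - X w) ^ 2 * SS X σ ^ k) := by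
    have := sum_swap i (fun σ w => tr ((X (σ i) - X w) ^ 2 * SS X σ ^ k))
    rw [← this]
    refine Finset.sum_congr rfl fun σ _ => Finset.sum_congr rfl fun w _ => ?_
    simp only [Function.update_self]
    rw [show (X (σ i) - X w) ^ 2 = (X w - X (σ i)) ^ 2 by noncomm_ring]
  have h6 : ∑ σ : ι → Ω, ∑ w, ((k : ℝ) + 1) / 2 * (tr ((X (σ i) - X w) ^ 2 * SS X σ ^ k) +
        tr ((X (σ i) - X w) ^ 2 * SS X (Function.update σ i w) ^ k)) =
      ((k : ℝ) + 1) * ∑ σ : ι → Ω, ∑ w, tr ((X (σ i) - X w) ^ 2 * SS X σ ^ k) := by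
    simp only [← Finset.mul_sum, Finset.sum_add_distrib]
    rw [h5]; ring
  have h7 : ∑ σ : ι → Ω, ∑ w, tr ((X (σ i) - X w) ^ 2 * SS X σ ^ k) ≤
      ∑ σ : ι → Ω, ∑ w, 2 * L * (tr (X (σ i) * SS X σ ^ k) + tr (X w * SS X σ ^ k)) := by
    refine Finset.sum_le_sum fun σ _ => Finset.sum_le_sum fun w _ => ?_
    have hP := (SS_psd hX σ).pow k
    have a1 := tr_mul_nonneg (hL (σ i)) hP
    have a2 := tr_mul_nonneg (hL w) hP
    have hsq : ((X (σ i) + X w) * (X (σ i) + X w)).PosSemidef := by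
      have hh : (X (σ i) + X w).IsHermitian := (hX (σ i)).1.add (hX w).1
      have := Matrix.posSemidef_conjTranspose_mul_self (X (σ i) + X w)
      rwa [hh.eq] at this
    have a3 := tr_mul_nonneg hsq hP
    have e : (X (σ i) - X w) ^ 2 = X (σ i) * X (σ i) + X (σ i) * X (σ i) + (X w * X w + X w * X w) -
        (X (σ i) + X w) * (X (σ i) + X w) := by noncomm_ring
    rw [e]
    simp only [Matrix.sub_mul, Matrix.add_mul, tr_sub, tr_add, Matrix.smul_mul, tr_smul] at a1 a2 a3 ⊢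
    linarith
  have h8 : ∑ σ : ι → Ω, ∑ w, 2 * L * (tr (X (σ i) * SS X σ ^ k) + tr (X w * SS X σ ^ k)) =
      2 * L * ((Fintype.card Ω : ℝ) * ∑ σ : ι → Ω, tr (X (σ i) * SS X σ ^ k) +
        ∑ σ : ι → Ω, tr ((∑ w, X w) * SS X σ ^ k)) := by
    rw [hA k, hB k]
    simp only [← Finset.mul_sum, Finset.sum_add_distrib]
  rw [hA (k + 1), hB (k + 1)]
  have hk : (0:ℝ) ≤ (k:ℝ) + 1 := by positivity
  have h9 := mul_le_mul_of_nonneg_left (h7.trans_eq h8) hk
  linarith [h3, h4, h6, h9]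

/-- the recursion for the moments -/
lemma Zm_rec {X : Ω → Matrix n n 𝕜} (hX : ∀ w, (X w).PosSemidef) {L μ : ℝ} (hL0 : 0 ≤ L)
    (hL : ∀ w, (L • X w - X w * X w).PosSemidef)
    (hμ : ((μ * Fintype.card Ω) • (1 : Matrix n n 𝕜) -
      (Fintype.card ι : ℝ) • ∑ w, X w).PosSemidef) (k : ℕ) :
    (Fintype.card Ω : ℝ) * Zm ι X (k + 2) ≤
      (Fintype.card Ω : ℝ) * ((μ + (k + 1) * L) * Zm ι X (k + 1) + (k + 1) * L * μ * Zm ι X k) := by
  have h1 : ∀ m, ∑ i : ι, ∑ σ : ι → Ω, tr (X (σ i) * SS X σ ^ m) = Zm ι X (m + 1) := by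
    intro m
    rw [Finset.sum_comm]
    unfold Zm
    refine Finset.sum_congr rfl fun σ _ => ?_
    rw [pow_succ', ← tr_sum, ← Finset.sum_mul]
    rfl
  have h2 : ∀ m, (Fintype.card ι : ℝ) * ∑ σ : ι → Ω, tr ((∑ w, X w) * SS X σ ^ m) ≤
      μ * Fintype.card Ω * Zm ι X m := by
    intro m
    unfold Zm
    rw [Finset.mul_sum, Finset.mul_sum]
    refine Finset.sum_le_sum fun σ _ => ?_
    have := mean_ineq hμ ((SS_psd hX σ).pow m)
    rwa [Matrix.smul_mul, tr_smul] at this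
  have h3 : ∑ i : ι, (Fintype.card Ω : ℝ) * ∑ σ : ι → Ω, tr (X (σ i) * SS X σ ^ (k + 1)) ≤
      ∑ i : ι, (∑ σ : ι → Ω, tr ((∑ w, X w) * SS X σ ^ (k + 1)) +
      ((k : ℝ) + 1) * L * ((Fintype.card Ω : ℝ) * ∑ σ : ι → Ω, tr (X (σ i) * SS X σ ^ k) +
        ∑ σ : ι → Ω, tr ((∑ w, X w) * SS X σ ^ k))) :=
    Finset.sum_le_sum fun i _ => one_index hX hL i k
  rw [← Finset.mul_sum, h1, Finset.sum_add_distrib, ← Finset.mul_sum, Finset.sum_add_distrib,
    ← Finset.mul_sum, h1 k] at h3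
  simp only [Finset.sum_const, card_univ, nsmul_eq_mul] at h3
  have hk : (0:ℝ) ≤ ((k:ℝ) + 1) * L := by positivity
  have h4 := h2 (k + 1)
  have h5 := mul_le_mul_of_nonneg_left (h2 k) hk
  nlinarith [h3, h4, h5]

lemma Zm_one {X : Ω → Matrix n n 𝕜} {μ : ℝ}
    (hμ : ((μ * Fintype.card Ω) • (1 : Matrix n n 𝕜) -
      (Fintype.card ι : ℝ) • ∑ w, X w).PosSemidef) :
    (Fintype.card Ω : ℝ) * Zm ι X 1 ≤ (Fintype.card Ω : ℝ) * (μ * Zm ι X 0) := by
  have h1 : (Fintype.card Ω : ℝ) * Zm ι X 1 =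
      ∑ σ : ι → Ω, tr ((Fintype.card ι : ℝ) • ∑ w, X w) := by
    have e1 : Zm ι X 1 = ∑ i : ι, ∑ σ : ι → Ω, tr (X (σ i)) := by
      rw [Finset.sum_comm]
      unfold Zm
      refine Finset.sum_congr rfl fun σ _ => ?_
      rw [pow_one, ← tr_sum]; rfl
    have e2 : ∀ i : ι, (Fintype.card Ω : ℝ) * ∑ σ : ι → Ω, tr (X (σ i)) =
        ∑ σ : ι → Ω, ∑ w, tr (X w) := by
      intro i
      have := sum_swap i (fun (_ : ι → Ω) w => tr (X w))
      rw [← this, Finset.mul_sum]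
      refine Finset.sum_congr rfl fun σ _ => ?_
      rw [Finset.sum_const, card_univ, nsmul_eq_mul]
    rw [e1, Finset.mul_sum, Finset.sum_congr rfl fun i _ => e2 i]
    simp only [Finset.sum_const, card_univ, nsmul_eq_mul, tr_smul, tr_sum]
    ring
  rw [h1]
  unfold Zm
  rw [Finset.mul_sum, Finset.mul_sum]
  refine Finset.sum_le_sum fun σ _ => ?_
  have := mean_ineq hμ (Matrix.PosSemidef.one (n := n) (R := 𝕜))
  rw [Matrix.mul_one] at this
  rw [pow_zero]
  linarith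

/-- MATRIX CHERNOFF (moments). -/
theorem chernoff {X : Ω → Matrix n n 𝕜} (hX : ∀ w, (X w).PosSemidef) {L μ x : ℝ} (hL0 : 0 ≤ L)
    (hμ0 : 0 ≤ μ) (hμx : μ ≤ x)
    (hL : ∀ w, (L • X w - X w * X w).PosSemidef)
    (hμ : ((μ * Fintype.card Ω) • (1 : Matrix n n 𝕜) -
      (Fintype.card ι : ℝ) • ∑ w, X w).PosSemidef) (k : ℕ)
    (hx : (μ + k * L) * x + k * L * μ ≤ x ^ 2) :
    ∑ σ : ι → Ω, tr (SS X σ ^ k) ≤
      (Fintype.card Ω : ℝ) ^ Fintype.card ι * Fintype.card n * x ^ k := by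
  have hx0 : 0 ≤ x := hμ0.trans hμx
  rcases isEmpty_or_nonempty Ω with hΩ | hΩ
  · rcases isEmpty_or_nonempty ι with hι | hι
    · have h0 : ∀ σ : ι → Ω, SS X σ = 0 := fun σ => by simp [SS]
      simp only [h0]
      have hcard : Fintype.card (ι → Ω) = 1 := by simp
      rw [Finset.sum_const, card_univ, hcard, one_smul]
      rcases Nat.eq_zero_or_pos k with rfl | hk
      · simp [tr, Matrix.trace_one]
      · rw [zero_pow hk.ne']
        simp only [tr, Matrix.trace_zero, map_zero]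
        positivity
    · have : IsEmpty (ι → Ω) := ⟨fun σ => hΩ.false (σ (Classical.arbitrary ι))⟩
      simp only [univ_eq_empty, sum_empty]
      positivity
  · have hc : (0:ℝ) < Fintype.card Ω := by exact_mod_cast Fintype.card_pos
    have key : ∀ m, m ≤ k → Zm ι X m ≤ Zm ι X 0 * x ^ m ∧
        (m + 1 ≤ k → Zm ι X (m + 1) ≤ Zm ι X 0 * x ^ (m + 1)) := by
      intro m
      have hZ0 := Zm_nonneg (ι := ι) hX 0
      induction m with
      | zero =>
        intro _
        refine ⟨by simp, fun h => ?_⟩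
        have h1 := Zm_one (X := X) hμ
        have h2 := le_of_mul_le_mul_left h1 hc
        simp only [zero_add, pow_one]
        nlinarith
      | succ m ih =>
        intro hm
        have ih1 := ih (by omega)
        refine ⟨ih1.2 hm, fun h => ?_⟩
        have h1 := le_of_mul_le_mul_left (Zm_rec (X := X) hX hL0 hL hμ m) hc
        have hmk : ((m:ℝ) + 1) ≤ k := by exact_mod_cast (by omega : m + 1 ≤ k)
        have hZ1 := Zm_nonneg (ι := ι) hX (m + 1)
        have hZ2 := Zm_nonneg (ι := ι) hX m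
        have b1 : (μ + ((m:ℝ) + 1) * L) * Zm ι X (m + 1) ≤ (μ + k * L) * (Zm ι X 0 * x ^ (m + 1)) := by
          have : μ + ((m:ℝ) + 1) * L ≤ μ + k * L := by nlinarith
          have hk0 : 0 ≤ μ + k * L := by positivity
          exact mul_le_mul this (ih1.2 hm) hZ1 hk0
        have b2 : ((m:ℝ) + 1) * L * μ * Zm ι X m ≤ k * L * μ * (Zm ι X 0 * x ^ m) := by
          have : ((m:ℝ) + 1) * L * μ ≤ k * L * μ := by
            have := mul_le_mul_of_nonneg_right hmk (mul_nonneg hL0 hμ0)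
            nlinarith
          have hk0 : 0 ≤ k * L * μ := by positivity
          exact mul_le_mul this ih1.1 hZ2 hk0
        have b3 : (μ + k * L) * (Zm ι X 0 * x ^ (m + 1)) + k * L * μ * (Zm ι X 0 * x ^ m) =
            (Zm ι X 0 * x ^ m) * ((μ + k * L) * x + k * L * μ) := by ring
        have b4 : (Zm ι X 0 * x ^ m) * ((μ + k * L) * x + k * L * μ) ≤ (Zm ι X 0 * x ^ m) * x ^ 2 :=
          mul_le_mul_of_nonneg_left hx (by positivity)
        calc Zm ι X (m + 1 + 1) ≤ _ := h1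
          _ ≤ (Zm ι X 0 * x ^ m) * x ^ 2 := by linarith
          _ = _ := by ring
    have := (key k le_rfl).1
    rw [Zm_zero] at this
    exact this

omit [DecidableEq n] in
/-- SCALAR CHERNOFF (moments): `Y` a subset of `Ω`, `μ` at least the mean of the count. -/
theorem chernoff_scalar [DecidableEq Ω] (Y : Finset Ω) {μ x : ℝ} (hμ0 : 0 ≤ μ) (hμx : μ ≤ x)
    (hμ : (Fintype.card ι : ℝ) * Y.card ≤ μ * Fintype.card Ω) (k : ℕ)
    (hx : (μ + k) * x + k * μ ≤ x ^ 2) :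
    ∑ σ : ι → Ω, ((univ.filter fun i => σ i ∈ Y).card : ℝ) ^ k ≤
      (Fintype.card Ω : ℝ) ^ Fintype.card ι * x ^ k := by
  set X : Ω → Matrix (Fin 1) (Fin 1) ℝ := fun w => diagonal fun _ => if w ∈ Y then 1 else 0 with hX
  have hpsd : ∀ w, (X w).PosSemidef := by
    intro w
    refine Matrix.PosSemidef.diagonal ?_
    intro i
    show (0:ℝ) ≤ if w ∈ Y then 1 else 0
    split_ifs <;> norm_num
  have hsum : ∑ w, X w = diagonal fun _ => (Y.card : ℝ) := by
    ext a b
    rw [Matrix.sum_apply]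
    simp only [hX, Matrix.diagonal_apply]
    split_ifs
    · simp [Finset.sum_ite_mem]
    · simp
  have h := chernoff (ι := ι) (X := X) hpsd (L := 1) (μ := μ) (x := x) zero_le_one hμ0 hμx ?_ ?_ k
    (by simpa using hx)
  · have e : ∀ σ : ι → Ω, tr (SS X σ ^ k) = ((univ.filter fun i => σ i ∈ Y).card : ℝ) ^ k := by
      intro σ
      have e1 : SS X σ = diagonal fun _ => ((univ.filter fun i => σ i ∈ Y).card : ℝ) := by
        unfold SS
        ext a b
        rw [Matrix.sum_apply]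
        simp only [hX, Matrix.diagonal_apply]
        split_ifs
        · simp
        · simp
      rw [e1, Matrix.diagonal_pow]
      simp [tr, Matrix.trace]
    simp only [e] at h
    simpa using h
  · intro w
    have : (1:ℝ) • X w - X w * X w = 0 := by
      simp only [hX, one_smul, Matrix.diagonal_mul_diagonal]
      split_ifs <;> simp
    rw [this]
    exact Matrix.PosSemidef.zero
  · rw [hsum]
    have : (μ * (Fintype.card Ω : ℝ)) • (1 : Matrix (Fin 1) (Fin 1) ℝ) -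
        (Fintype.card ι : ℝ) • (diagonal fun _ => (Y.card : ℝ)) =
        diagonal fun _ => μ * (Fintype.card Ω : ℝ) - (Fintype.card ι : ℝ) * Y.card := by
      ext a b
      rw [Subsingleton.elim a b]
      simp
    rw [this]
    refine Matrix.PosSemidef.diagonal ?_
    intro i
    show (0:ℝ) ≤ _
    linarith

/-- BINOMIAL TAIL. -/
theorem binomial_tail [DecidableEq Ω] (Y : Finset Ω) {μ : ℝ} (hμ0 : 0 ≤ μ)
    (hμ : (Fintype.card ι : ℝ) * Y.card ≤ μ * Fintype.card Ω) (k : ℕ) (hk : 10 * (k : ℝ) ≤ μ) :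
    ((univ.filter fun σ : ι → Ω =>
      2 * μ ≤ ((univ.filter fun i => σ i ∈ Y).card : ℝ)).card : ℝ) ≤
      (Fintype.card Ω : ℝ) ^ Fintype.card ι * (3 / 5) ^ k := by
  rcases Nat.eq_zero_or_pos k with rfl | hk0
  · rw [pow_zero, mul_one]
    have h1 : (univ.filter fun σ : ι → Ω =>
      2 * μ ≤ ((univ.filter fun i => σ i ∈ Y).card : ℝ)).card ≤ Fintype.card (ι → Ω) :=
      Finset.card_le_univ _
    rw [Fintype.card_fun] at h1
    exact_mod_cast h1
  · have hμp : 0 < μ := by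
      have : (1:ℝ) ≤ k := by exact_mod_cast hk0
      linarith
    have h := chernoff_scalar (ι := ι) Y (μ := μ) (x := 6 / 5 * μ) hμ0 (by linarith) hμ k
      (by nlinarith)
    have h2 : ((univ.filter fun σ : ι → Ω =>
      2 * μ ≤ ((univ.filter fun i => σ i ∈ Y).card : ℝ)).card : ℝ) * (2 * μ) ^ k ≤
        ∑ σ : ι → Ω, ((univ.filter fun i => σ i ∈ Y).card : ℝ) ^ k := by
      rw [← nsmul_eq_mul, ← Finset.sum_const]
      refine (Finset.sum_le_sum fun σ hσ => ?_).trans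
        (Finset.sum_le_sum_of_subset_of_nonneg (Finset.filter_subset _ _) fun σ _ _ => by positivity)
      exact pow_le_pow_left₀ (by positivity) (Finset.mem_filter.mp hσ).2 k
    have h3 : (6 / 5 * μ) ^ k = (3 / 5) ^ k * (2 * μ) ^ k := by
      rw [← mul_pow]; congr 1; ring
    rw [h3, ← mul_assoc] at h
    have h4 : (0:ℝ) < (2 * μ) ^ k := by positivity
    exact le_of_mul_le_mul_right (h2.trans h) h4

end expect

end Pool.Agent.BQ.X
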