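import Pool.Agent.BQ.X_Low

/-! Block X of BQ (helper87): decoupling, core form with matrices. -/

open Matrix Finset
open scoped ComplexOrder

namespace Pool.Agent.BQ.X

variable {𝕜 : Type*} [RCLike 𝕜]

section counting

variable {ι : Type*} [Fintype ι] [DecidableEq ι]

/-- two prescribed values: a quarter of all functions to `Bool` -/
lemma quarter {i j : ι} (hij : i ≠ j) :
    4 * ((univ.filter fun A : ι → Bool => A i = true ∧ A j = false).card : ℝ) =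
      (2 : ℝ) ^ Fintype.card ι := by
  have e1 := sum_swap i (fun (A : ι → Bool) (w : Bool) =>
    if A i = true ∧ A j = false then (1:ℝ) else 0)
  have e2 := sum_swap j (fun (A : ι → Bool) (w : Bool) =>
    if A j = false then (1:ℝ) else 0)
  simp only [Function.update_self, Function.update_of_ne hij.symm, Fintype.sum_bool] at e1 e2
  simp only [Finset.sum_add_distrib] at e1 e2
  have e3 : ∑ A : ι → Bool, (if A i = true ∧ A j = false then (1:ℝ) else 0) =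
      ((univ.filter fun A : ι → Bool => A i = true ∧ A j = false).card : ℝ) := by
    rw [Finset.sum_boole]
  have e4 : ∑ _A : ι → Bool, (1:ℝ) = 2 ^ Fintype.card ι := by
    simp
  rw [e3] at e1
  simp only [true_and, if_true, Bool.false_eq_true, Bool.true_eq_false, false_and,
    if_false, add_zero, zero_add, Finset.sum_boole, Finset.sum_const_zero] at e1 e2
  simp at e1 e2
  linarith

omit [DecidableEq ι] in
lemma sum_split {M : Type*} [AddCommMonoid M] (A : ι → Bool) (t : ι → ι → M) :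
    ∑ i : {i // A i = true}, ∑ j : {j // ¬ A j = true}, t i j =
      ∑ i, ∑ j, if A i = true ∧ A j = false then t i j else 0 := by
  have h1 : ∀ g : ι → M, ∑ i : {i // A i = true}, g i = ∑ i, if A i = true then g i else 0 := by
    intro g
    rw [← Finset.sum_filter]
    exact (Finset.sum_subtype (univ.filter fun i => A i = true) (by simp) g).symm
  have h2 : ∀ g : ι → M, ∑ i : {i // ¬ A i = true}, g i = ∑ i, if A i = false then g i else 0 := by
    intro g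
    rw [← Finset.sum_filter]
    exact (Finset.sum_subtype (univ.filter fun i => A i = false) (by simp) g).symm
  rw [h1 (fun i => ∑ j : {j // ¬ A j = true}, t i j)]
  refine Finset.sum_congr rfl fun i _ => ?_
  rw [h2 (fun j => t i j)]
  by_cases hi : A i = true
  · simp [hi]
  · simp [hi]

omit [DecidableEq ι] in
lemma sum_split_one (A : ι → Bool) (g : ι → ℝ) :
    ∑ i : {i // A i = true}, g i + ∑ j : {j // ¬ A j = true}, g j = ∑ i, g i :=
  Fintype.sum_subtype_add_sum_subtype (fun i => A i = true) g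

/-- decoupling -/
lemma decouple (t : ι → ι → 𝕜) (ht : ∀ i, t i i = 0) :
    (4 : 𝕜) * ∑ A : ι → Bool, ∑ i : {i // A i = true}, ∑ j : {j // ¬ A j = true}, t i j =
      (2 : 𝕜) ^ Fintype.card ι * ∑ i, ∑ j, t i j := by
  simp only [sum_split]
  rw [Finset.sum_comm, Finset.mul_sum, Finset.mul_sum]
  refine Finset.sum_congr rfl fun i _ => ?_
  rw [Finset.sum_comm, Finset.mul_sum, Finset.mul_sum]
  refine Finset.sum_congr rfl fun j _ => ?_
  rcases eq_or_ne i j with rfl | hij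
  · simp [ht]
  · rw [← Finset.sum_filter, Finset.sum_const, nsmul_eq_mul, ← mul_assoc]
    congr 1
    have := quarter hij
    have h2 : (((4 * ((univ.filter fun A : ι → Bool => A i = true ∧ A j = false).card : ℝ)) : ℝ) : 𝕜)
        = (((2 : ℝ) ^ Fintype.card ι : ℝ) : 𝕜) := by rw [this]
    push_cast at h2
    exact h2

/-- sum over the functions, split -/
lemma sum_fun_split {Ω : Type*} [Fintype Ω] (A : ι → Bool)
    (F : ({j // ¬ A j = true} → Ω) → ({i // A i = true} → Ω) → ℝ) :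
    ∑ σ : ι → Ω, F (fun j => σ j) (fun i => σ i) =
      ∑ σ₂ : {j // ¬ A j = true} → Ω, ∑ σ₁ : {i // A i = true} → Ω, F σ₂ σ₁ := by
  rw [Finset.sum_comm, ← Fintype.sum_prod_type' (f := fun σ₁ σ₂ => F σ₂ σ₁)]
  exact Fintype.sum_equiv (Equiv.piEquivPiSubtypeProd (fun i => A i = true) (fun _ => Ω)) _ _
    (fun σ => rfl)

end counting

section quad

variable {n : Type*} [Fintype n] [DecidableEq n] {Ω : Type*} [Fintype Ω] [DecidableEq Ω]
variable (B : Ω → Ω → Matrix n n 𝕜)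

omit [DecidableEq n] in
lemma star_dot_self {m : Type*} [Fintype m] (v : m → 𝕜) :
    RCLike.re (star v ⬝ᵥ v) = ∑ i, ‖v i‖ ^ 2 := by
  rw [dotProduct, map_sum]
  refine Finset.sum_congr rfl fun i _ => ?_
  rw [Pi.star_apply, show star (v i) = (starRingEnd 𝕜) (v i) from rfl, RCLike.conj_mul,
    ← RCLike.ofReal_pow, RCLike.ofReal_re]

/-- the bilinear bound from the Gram matrix -/
lemma gram_bound {p q : Type*} [Fintype p] [Fintype q] [DecidableEq q] (T : Matrix p q 𝕜) {ν : ℝ}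
    (hν : 0 ≤ ν) (h : ((ν ^ 2) • (1 : Matrix q q 𝕜) - Tᴴ * T).PosSemidef) (u : p → 𝕜) (v : q → 𝕜) :
    ‖star u ⬝ᵥ (T *ᵥ v)‖ ≤ ν / 2 * (∑ i, ‖u i‖ ^ 2 + ∑ j, ‖v j‖ ^ 2) := by
  set w := T *ᵥ v with hw
  have hw2 : ∑ i, ‖w i‖ ^ 2 ≤ ν ^ 2 * ∑ j, ‖v j‖ ^ 2 := by
    have h1 := h.re_dotProduct_nonneg v
    rw [Matrix.sub_mulVec, dotProduct_sub, map_sub, Matrix.smul_mulVec, Matrix.one_mulVec,
      dotProduct_smul, RCLike.smul_re, star_dot_self] at h1
    have h2 : star v ⬝ᵥ ((Tᴴ * T) *ᵥ v) = star w ⬝ᵥ w := by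
      rw [hw, Matrix.star_mulVec, ← Matrix.mulVec_mulVec, Matrix.dotProduct_mulVec]
    rw [h2, star_dot_self] at h1
    linarith
  have h3 : ‖star u ⬝ᵥ w‖ ≤ ∑ i, ‖u i‖ * ‖w i‖ := by
    rw [dotProduct]
    refine (norm_sum_le _ _).trans (Finset.sum_le_sum fun i _ => ?_)
    rw [norm_mul, Pi.star_apply, norm_star]
  have h4 : (∑ i, ‖u i‖ * ‖w i‖) ^ 2 ≤ (∑ i, ‖u i‖ ^ 2) * ∑ i, ‖w i‖ ^ 2 :=
    Finset.sum_mul_sq_le_sq_mul_sq _ _ _
  refine h3.trans ?_
  set a := ∑ i, ‖u i‖ ^ 2 with ha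
  set b := ∑ j, ‖v j‖ ^ 2 with hb
  have ha0 : 0 ≤ a := by positivity
  have hb0 : 0 ≤ b := by positivity
  refine abs_le_of_sq_le_sq' (a := ∑ i, ‖u i‖ * ‖w i‖) (b := ν / 2 * (a + b)) ?_ (by positivity) |>.2
  calc (∑ i, ‖u i‖ * ‖w i‖) ^ 2 ≤ a * (ν ^ 2 * b) := h4.trans (mul_le_mul_of_nonneg_left hw2 ha0)
    _ ≤ (ν / 2 * (a + b)) ^ 2 := by nlinarith [mul_nonneg (sq_nonneg ν) (sq_nonneg (a - b))]

/-- rectangular block matrix of the sample -/
def rec2 {ι₁ ι₂ : Type*} (σ₁ : ι₁ → Ω) (σ₂ : ι₂ → Ω) : Matrix (ι₁ × n) (ι₂ × n) 𝕜 :=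
  Matrix.of fun p q => B (σ₁ p.1) (σ₂ q.1) p.2 q.2

omit [DecidableEq n] [DecidableEq Ω] [Fintype Ω] in
lemma rec2_mul {ι₁ ι₂ : Type*} [Fintype ι₁] [Fintype ι₂] (σ₁ : ι₁ → Ω) (σ₂ : ι₂ → Ω) :
    (rec2 B σ₁ σ₂)ᴴ * rec2 B σ₁ σ₂ = SS (Xr B σ₂) σ₁ := by
  ext p q
  unfold SS
  rw [Matrix.mul_apply, Fintype.sum_prod_type, Matrix.sum_apply]
  refine Finset.sum_congr rfl fun s _ => ?_
  unfold Xr
  rw [Matrix.mul_apply]
  rfl

omit [DecidableEq n] [DecidableEq Ω] [Fintype Ω] in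
lemma rec2_form {ι₁ ι₂ : Type*} [Fintype ι₁] [Fintype ι₂] (σ₁ : ι₁ → Ω) (σ₂ : ι₂ → Ω)
    (x : ι₁ → n → 𝕜) (y : ι₂ → n → 𝕜) :
    star (fun p : ι₁ × n => x p.1 p.2) ⬝ᵥ (rec2 B σ₁ σ₂ *ᵥ fun p : ι₂ × n => y p.1 p.2) =
      ∑ i, ∑ j, star (x i) ⬝ᵥ (B (σ₁ i) (σ₂ j) *ᵥ y j) := by
  simp only [dotProduct, Matrix.mulVec, Fintype.sum_prod_type, rec2, Matrix.of_apply,
    Pi.star_apply]
  refine Finset.sum_congr rfl fun i _ => ?_
  rw [Finset.sum_comm]
  refine Finset.sum_congr rfl fun a _ => ?_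
  rw [Finset.mul_sum]

end quad

section final

variable {n : Type*} [Fintype n] [DecidableEq n] {Ω : Type*} [Fintype Ω] [DecidableEq Ω]
variable {B : Ω → Ω → Matrix n n 𝕜} {adj : Ω → Finset Ω} {Dx β : ℝ}
variable {ι : Type*} [Fintype ι] [DecidableEq ι]

/-- the trace attached to a partition and a sample -/
noncomputable def TA (B : Ω → Ω → Matrix n n 𝕜) (k : ℕ) (σ : ι → Ω) (A : ι → Bool) : ℝ :=
  tr (SS (Xr B (fun j : {j // ¬ A j = true} => σ j)) (fun i : {i // A i = true} => σ i) ^ k)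

omit [Fintype Ω] [DecidableEq Ω] in
lemma TA_nonneg (k : ℕ) (σ : ι → Ω) (A : ι → Bool) : 0 ≤ TA B k σ A := by
  have := tr_mul_nonneg ((SS_psd (Xr_psd B (fun j : {j // ¬ A j = true} => σ j))
    (fun i : {i // A i = true} => σ i)).pow k) (Matrix.PosSemidef.one (R := 𝕜))
  rwa [Matrix.mul_one] at this

lemma sum_TA (h : Hyp B adj Dx β) [Nonempty Ω] {k : ℕ} (hk : k ≠ 0) (A : ι → Bool) :
    ∑ σ : ι → Ω, TA B k σ A ≤ (Fintype.card Ω : ℝ) ^ Fintype.card ι *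
        (2 * Fintype.card ι * Fintype.card Ω * (Fintype.card n : ℝ) ^ 2 *
          (8 * ((Fintype.card ι * β / Fintype.card Ω) ^ 2 +
            k * (Fintype.card ι * Dx / Fintype.card Ω) + (k:ℝ) ^ 2)) ^ k) := by
  have e := sum_fun_split A (fun (σ₂ : {j // ¬ A j = true} → Ω) (σ₁ : {i // A i = true} → Ω) =>
    tr (SS (Xr B σ₂) σ₁ ^ k))
  have h1 := bip (ι₁ := {i // A i = true}) (ι₂ := {j // ¬ A j = true}) h hk
    (N := Fintype.card ι) (by exact_mod_cast Fintype.card_subtype_le _)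
    (by exact_mod_cast Fintype.card_subtype_le _)
  rw [← e, ← pow_add] at h1
  have e2 : Fintype.card {i // A i = true} + Fintype.card {j // ¬ A j = true} = Fintype.card ι := by
    rw [Fintype.card_subtype_compl]
    have := Fintype.card_subtype_le (fun i => A i = true)
    omega
  rw [e2] at h1
  exact h1

/-- the form of the sample is bounded by the traces -/
lemma form_le (hdiag : ∀ s, B s s = 0) {k : ℕ} (hk : k ≠ 0) (σ : ι → Ω) (f : ι → n → 𝕜) :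
    ‖∑ i, ∑ j, star (f i) ⬝ᵥ (B (σ i) (σ j) *ᵥ f j)‖ ≤
      (2 / 2 ^ Fintype.card ι * ∑ A : ι → Bool, TA B k σ A ^ ((2 * k : ℕ) : ℝ)⁻¹) *
        ∑ i, ∑ a, ‖f i a‖ ^ 2 := by
  set t : ι → ι → 𝕜 := fun i j => star (f i) ⬝ᵥ (B (σ i) (σ j) *ᵥ f j) with ht
  have h0 : ∀ i, t i i = 0 := by
    intro i
    simp [ht, hdiag]
  have hd := decouple t h0
  have hA : ∀ A : ι → Bool, ‖∑ i : {i // A i = true}, ∑ j : {j // ¬ A j = true}, t i j‖ ≤
      TA B k σ A ^ ((2 * k : ℕ) : ℝ)⁻¹ / 2 * ∑ i, ∑ a, ‖f i a‖ ^ 2 := by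
    intro A
    set σ₁ : {i // A i = true} → Ω := fun i => σ i with hσ₁
    set σ₂ : {j // ¬ A j = true} → Ω := fun j => σ j with hσ₂
    set ν : ℝ := TA B k σ A ^ ((2 * k : ℕ) : ℝ)⁻¹ with hν
    have hν0 : 0 ≤ ν := Real.rpow_nonneg (TA_nonneg k σ A) _
    have hνk : (ν ^ 2) ^ k = TA B k σ A := by
      rw [← pow_mul, hν]
      exact Real.rpow_inv_natCast_pow (TA_nonneg k σ A) (by omega)
    have hps : ((ν ^ 2) • (1 : Matrix ({j // ¬ A j = true} × n) ({j // ¬ A j = true} × n) 𝕜) -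
        (rec2 B σ₁ σ₂)ᴴ * rec2 B σ₁ σ₂).PosSemidef := by
      rw [rec2_mul]
      refine le_of_trace_pow (SS_psd (Xr_psd B σ₂) σ₁) hk (by positivity) ?_
      rw [hνk]
      exact le_rfl
    have := gram_bound (rec2 B σ₁ σ₂) hν0 hps
      (fun p : {i // A i = true} × n => f p.1 p.2) (fun p : {j // ¬ A j = true} × n => f p.1 p.2)
    rw [rec2_form B σ₁ σ₂ (fun i => f i) (fun j => f j)] at this
    refine this.trans (le_of_eq ?_)
    rw [Fintype.sum_prod_type, Fintype.sum_prod_type]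
    have e := sum_split_one A (fun i => ∑ a, ‖f i a‖ ^ 2)
    rw [e]
  have hnorm : (2:ℝ) ^ Fintype.card ι * ‖∑ i, ∑ j, t i j‖ =
      4 * ‖∑ A : ι → Bool, ∑ i : {i // A i = true}, ∑ j : {j // ¬ A j = true}, t i j‖ := by
    have := congrArg norm hd
    rw [norm_mul, norm_mul, norm_pow] at this
    simp only [RCLike.norm_ofNat] at this
    exact this.symm
  have hsum : ‖∑ A : ι → Bool, ∑ i : {i // A i = true}, ∑ j : {j // ¬ A j = true}, t i j‖ ≤
      ∑ A : ι → Bool, TA B k σ A ^ ((2 * k : ℕ) : ℝ)⁻¹ / 2 * ∑ i, ∑ a, ‖f i a‖ ^ 2 :=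
    (norm_sum_le _ _).trans (Finset.sum_le_sum fun A _ => hA A)
  rw [← Finset.sum_mul, ← Finset.sum_div] at hsum
  have hp : (0:ℝ) < 2 ^ Fintype.card ι := by positivity
  rw [div_mul_eq_mul_div, div_mul_eq_mul_div, le_div_iff₀ hp, mul_comm]
  rw [hnorm]
  calc _ ≤ 4 * ((∑ A : ι → Bool, TA B k σ A ^ ((2 * k : ℕ) : ℝ)⁻¹) / 2 *
        ∑ i, ∑ a, ‖f i a‖ ^ 2) := mul_le_mul_of_nonneg_left hsum (by norm_num)
    _ = _ := by ring

/-- LOW, matrix form: the number of bad samples. -/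
theorem core_low (h : Hyp B adj Dx β) [Nonempty Ω] (hdiag : ∀ s, B s s = 0) {k : ℕ} (hk : k ≠ 0)
    {lam : ℝ} (hlam : 0 < lam) (bad : Finset (ι → Ω))
    (hbad : ∀ σ ∈ bad, ∃ f : ι → n → 𝕜, lam * ∑ i, ∑ a, ‖f i a‖ ^ 2 <
      ‖∑ i, ∑ j, star (f i) ⬝ᵥ (B (σ i) (σ j) *ᵥ f j)‖) :
    (bad.card : ℝ) ≤ (Fintype.card Ω : ℝ) ^ Fintype.card ι *
        (2 * Fintype.card ι * Fintype.card Ω * (Fintype.card n : ℝ) ^ 2 *
          (32 * ((Fintype.card ι * β / Fintype.card Ω) ^ 2 +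
            k * (Fintype.card ι * Dx / Fintype.card Ω) + (k:ℝ) ^ 2) / lam ^ 2) ^ k) := by
  set W : ℝ := (Fintype.card ι * β / Fintype.card Ω) ^ 2 +
            k * (Fintype.card ι * Dx / Fintype.card Ω) + (k:ℝ) ^ 2 with hW
  set P : ℝ := (2:ℝ) ^ Fintype.card ι with hP
  have hP0 : 0 < P := by positivity
  have hcard : (Fintype.card (ι → Bool) : ℝ) = P := by
    rw [hP]; simp
  -- a bad sample has a large trace
  have h1 : ∀ σ ∈ bad, (lam / 2) ^ (2 * k) ≤ 1 / P * ∑ A : ι → Bool, TA B k σ A := by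
    intro σ hσ
    obtain ⟨f, hf⟩ := hbad σ hσ
    have h2 := form_le hdiag hk σ f
    have h3 : lam < 2 / P * ∑ A : ι → Bool, TA B k σ A ^ ((2 * k : ℕ) : ℝ)⁻¹ := by
      have h4 := hf.trans_le h2
      have h5 : 0 ≤ ∑ i, ∑ a, ‖f i a‖ ^ 2 := by positivity
      by_contra hcon
      push Not at hcon
      have := mul_le_mul_of_nonneg_right hcon h5
      linarith
    have h4 : lam / 2 ≤ (∑ A : ι → Bool, TA B k σ A ^ ((2 * k : ℕ) : ℝ)⁻¹) / P := by
      have : 2 / P * ∑ A : ι → Bool, TA B k σ A ^ ((2 * k : ℕ) : ℝ)⁻¹ =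
        2 * ((∑ A : ι → Bool, TA B k σ A ^ ((2 * k : ℕ) : ℝ)⁻¹) / P) := by ring
      rw [this] at h3
      linarith
    obtain ⟨j, hj⟩ : ∃ j, 2 * k = j + 1 := ⟨2 * k - 1, by omega⟩
    have h5 := pow_sum_div_card_le_sum_pow (s := (univ : Finset (ι → Bool)))
      (f := fun A => TA B k σ A ^ ((2 * k : ℕ) : ℝ)⁻¹)
      (fun A _ => Real.rpow_nonneg (TA_nonneg k σ A) _) j
    have h6 : ∀ A : ι → Bool, (TA B k σ A ^ ((2 * k : ℕ) : ℝ)⁻¹) ^ (j + 1) = TA B k σ A := by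
      intro A
      rw [← hj]
      exact Real.rpow_inv_natCast_pow (TA_nonneg k σ A) (by omega)
    simp only [h6] at h5
    rw [card_univ, hcard] at h5
    calc (lam / 2) ^ (2 * k) ≤ ((∑ A : ι → Bool, TA B k σ A ^ ((2 * k : ℕ) : ℝ)⁻¹) / P) ^ (2 * k) :=
          pow_le_pow_left₀ (by positivity) h4 _
      _ = 1 / P * ((∑ A : ι → Bool, TA B k σ A ^ ((2 * k : ℕ) : ℝ)⁻¹) ^ (j + 1) / P ^ j) := by
          rw [hj, div_pow, pow_succ P j]
          field_simp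
      _ ≤ _ := mul_le_mul_of_nonneg_left h5 (by positivity)
  have h2 : (bad.card : ℝ) * (lam / 2) ^ (2 * k) ≤
      ∑ σ : ι → Ω, 1 / P * ∑ A : ι → Bool, TA B k σ A := by
    rw [← nsmul_eq_mul, ← Finset.sum_const]
    refine (Finset.sum_le_sum h1).trans
      (Finset.sum_le_sum_of_subset_of_nonneg (subset_univ _) fun σ _ _ => ?_)
    exact mul_nonneg (by positivity) (Finset.sum_nonneg fun A _ => TA_nonneg k σ A)
  rw [← Finset.mul_sum, Finset.sum_comm] at h2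
  have h3 := Finset.sum_le_sum fun A (_ : A ∈ (univ : Finset (ι → Bool))) => sum_TA (ι := ι) h hk A
  rw [Finset.sum_const, card_univ, nsmul_eq_mul, hcard] at h3
  have h4 := h2.trans (mul_le_mul_of_nonneg_left h3 (by positivity : (0:ℝ) ≤ 1 / P))
  rw [← mul_assoc, one_div, inv_mul_cancel₀ hP0.ne', one_mul] at h4
  have h5 : (0:ℝ) < (lam / 2) ^ (2 * k) := by positivity
  refine le_of_mul_le_mul_right (h4.trans (le_of_eq ?_)) h5
  rw [← hW]
  have e : (8 * W) ^ k = (32 * W / lam ^ 2) ^ k * (lam / 2) ^ (2 * k) := by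
    rw [pow_mul (lam / 2) 2 k, ← mul_pow]
    congr 1
    field_simp
    ring
  rw [e]
  ring

end final

end Pool.Agent.BQ.X
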