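import Pool.Agent.BQ.X_Chernoff

/-! Block X of BQ (helper87): sampling of a large block matrix (the LOW property), core form. -/

open Matrix Finset
open scoped ComplexOrder

namespace Pool.Agent.BQ.X

variable {𝕜 : Type*} [RCLike 𝕜]

section aux

variable {m n : Type*} [Fintype m] [Fintype n] [DecidableEq m] [DecidableEq n]

/-- a bound for a trace of a power gives a bound for the matrix -/
lemma le_of_trace_pow {Y : Matrix n n 𝕜} (hY : Y.PosSemidef) {k : ℕ} (hk : k ≠ 0) {ν : ℝ}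
    (hν : 0 ≤ ν) (h : tr (Y ^ k) ≤ ν ^ k) : (ν • (1 : Matrix n n 𝕜) - Y).PosSemidef := by
  obtain ⟨U, a, ha, h1, h2, hpow⟩ := spectral hY
  have ht : tr (Y ^ k) = ∑ i, a i ^ k := by
    rw [hpow k, tr_comm, ← Matrix.mul_assoc, h1, Matrix.one_mul]
    simp only [tr, Matrix.trace, Matrix.diag_apply, Matrix.diagonal_apply_eq, map_sum,
      RCLike.ofReal_re]
  have hle : ∀ i, a i ≤ ν := by
    intro i
    by_contra hlt
    push Not at hlt
    have h3 : ν ^ k < a i ^ k := pow_lt_pow_left₀ hlt hν hk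
    have h4 : a i ^ k ≤ ∑ i, a i ^ k :=
      Finset.single_le_sum (f := fun i => a i ^ k) (fun j _ => pow_nonneg (ha j) k) (mem_univ i)
    linarith
  have e : ν • (1 : Matrix n n 𝕜) - Y =
      U * diagonal (fun i => ((ν - a i : ℝ) : 𝕜)) * Uᴴ := by
    have h3 := hpow 1
    simp only [pow_one] at h3
    have h4 : (diagonal fun i => ((ν - a i : ℝ) : 𝕜)) =
        ν • (1 : Matrix n n 𝕜) - diagonal (fun i => ((a i : ℝ) : 𝕜)) := by
      ext i j
      simp only [Matrix.diagonal_apply, Matrix.sub_apply, Matrix.smul_apply, Matrix.one_apply]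
      split_ifs
      · rw [RCLike.real_smul_eq_coe_mul]; push_cast; ring
      · simp
    rw [h4, Matrix.mul_sub, Matrix.sub_mul, Matrix.mul_smul, Matrix.mul_one, Matrix.smul_mul, h2,
      ← h3]
  rw [e]
  refine Matrix.PosSemidef.mul_mul_conjTranspose_same (Matrix.PosSemidef.diagonal ?_) U
  intro i
  show (0:𝕜) ≤ ((ν - a i : ℝ) : 𝕜)
  exact RCLike.ofReal_nonneg.mpr (sub_nonneg.mpr (hle i))

lemma pow_mul_swap (R : Matrix m n 𝕜) (S : Matrix n m 𝕜) (k : ℕ) :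
    (R * S) ^ (k + 1) = R * (S * R) ^ k * S := by
  induction k with
  | zero => simp
  | succ k ih =>
    rw [pow_succ, ih, pow_succ (S * R) k]
    simp only [Matrix.mul_assoc]

lemma tr_pow_swap (R : Matrix m n 𝕜) (S : Matrix n m 𝕜) {k : ℕ} (hk : k ≠ 0) :
    tr ((R * S) ^ k) = tr ((S * R) ^ k) := by
  obtain ⟨j, rfl⟩ := Nat.exists_eq_succ_of_ne_zero hk
  rw [Nat.succ_eq_add_one, pow_mul_swap, pow_succ' (S * R) j]
  unfold tr
  rw [Matrix.trace_mul_comm, ← Matrix.mul_assoc]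

omit [DecidableEq n] in
/-- `r rᴴ ≤ L` gives `X² ≤ L X` for `X = rᴴ r` -/
lemma sq_le {r : Matrix m n 𝕜} {L : ℝ} (h : (L • (1 : Matrix m m 𝕜) - r * rᴴ).PosSemidef) :
    (L • (rᴴ * r) - (rᴴ * r) * (rᴴ * r)).PosSemidef := by
  have := h.conjTranspose_mul_mul_same r
  have e : rᴴ * (L • (1 : Matrix m m 𝕜) - r * rᴴ) * r = L • (rᴴ * r) - (rᴴ * r) * (rᴴ * r) := by
    rw [Matrix.mul_sub, Matrix.sub_mul, Matrix.mul_smul, Matrix.mul_one, Matrix.smul_mul]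
    simp only [Matrix.mul_assoc]
  rwa [e] at this

omit [DecidableEq n] [Fintype n] in
lemma real_smul_one_psd {c : ℝ} (hc : 0 ≤ c) [DecidableEq n] :
    (c • (1 : Matrix n n 𝕜)).PosSemidef := by
  have : c • (1 : Matrix n n 𝕜) = diagonal fun _ => ((c : ℝ) : 𝕜) := by
    ext i j
    simp only [Matrix.diagonal_apply, Matrix.smul_apply, Matrix.one_apply]
    split_ifs
    · rw [RCLike.real_smul_eq_coe_mul]; simp
    · simp
  rw [this]
  refine Matrix.PosSemidef.diagonal ?_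
  intro i
  show (0:𝕜) ≤ ((c : ℝ) : 𝕜)
  exact RCLike.ofReal_nonneg.mpr hc

omit [Fintype n] [DecidableEq n] in
lemma real_smul_psd {c : ℝ} (hc : 0 ≤ c) {A : Matrix n n 𝕜} (hA : A.PosSemidef) :
    (c • A).PosSemidef := by
  have e : c • A = ((c : ℝ) : 𝕜) • A := by
    ext i j
    simp only [Matrix.smul_apply, RCLike.real_smul_eq_coe_mul, smul_eq_mul]
  rw [e]
  exact hA.smul (RCLike.ofReal_nonneg.mpr hc)

/-- a sum of at most `L` blocks of norm at most one -/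
lemma sum_blocks {α : Type*} (s J : Finset α) (hJ : J ⊆ s) (C : α → Matrix n n 𝕜)
    (h0 : ∀ j ∈ s, j ∉ J → C j = 0)
    (h1 : ∀ j ∈ J, ((1 : Matrix n n 𝕜) - C j).PosSemidef) {L : ℝ} (hL : (J.card : ℝ) ≤ L) :
    (L • (1 : Matrix n n 𝕜) - ∑ j ∈ s, C j).PosSemidef := by
  have e : L • (1 : Matrix n n 𝕜) - ∑ j ∈ s, C j =
      (L - J.card) • (1 : Matrix n n 𝕜) + ∑ j ∈ J, ((1 : Matrix n n 𝕜) - C j) := by
    rw [← Finset.sum_subset hJ (fun j hj hj' => h0 j hj hj'), Finset.sum_sub_distrib,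
      Finset.sum_const, sub_smul]
    rw [← Nat.cast_smul_eq_nsmul ℝ J.card (1 : Matrix n n 𝕜)]
    abel
  rw [e]
  exact (real_smul_one_psd (by linarith)).add (Matrix.posSemidef_sum _ h1)

end aux

section core

variable {n : Type*} [Fintype n] [DecidableEq n] {Ω : Type*} [Fintype Ω] [DecidableEq Ω]
variable (B : Ω → Ω → Matrix n n 𝕜)

/-- row blocks -/
def row {ι : Type*} (σ : ι → Ω) (s : Ω) : Matrix n (ι × n) 𝕜 :=
  Matrix.of fun a p => B s (σ p.1) a p.2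

/-- column blocks -/
def col (t : Ω) : Matrix (Ω × n) n 𝕜 := Matrix.of fun p b => B p.1 t p.2 b

/-- rectangular sample -/
def rect {ι : Type*} (σ : ι → Ω) : Matrix (Ω × n) (ι × n) 𝕜 :=
  Matrix.of fun p q => B p.1 (σ q.1) p.2 q.2

/-- row Gram matrices -/
def Xr {ι : Type*} (σ : ι → Ω) (s : Ω) : Matrix (ι × n) (ι × n) 𝕜 := (row B σ s)ᴴ * row B σ s

/-- column Gram matrices -/
def Xc (t : Ω) : Matrix (Ω × n) (Ω × n) 𝕜 := col B t * (col B t)ᴴ

omit [DecidableEq n] [DecidableEq Ω] [Fintype Ω] in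
lemma row_mul {ι : Type*} [Fintype ι] (σ : ι → Ω) (s : Ω) :
    row B σ s * (row B σ s)ᴴ = ∑ j, B s (σ j) * (B s (σ j))ᴴ := by
  ext a b
  rw [Matrix.mul_apply, Fintype.sum_prod_type, Matrix.sum_apply]
  refine Finset.sum_congr rfl fun j _ => ?_
  rw [Matrix.mul_apply]
  rfl

omit [DecidableEq n] [DecidableEq Ω] in
lemma col_mul (t : Ω) :
    (col B t)ᴴ * col B t = ∑ s, (B s t)ᴴ * B s t := by
  ext a b
  rw [Matrix.mul_apply, Fintype.sum_prod_type, Matrix.sum_apply]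
  refine Finset.sum_congr rfl fun j _ => ?_
  rw [Matrix.mul_apply]
  rfl

omit [DecidableEq n] [DecidableEq Ω] in
lemma sum_Xr {ι : Type*} [Fintype ι] (σ : ι → Ω) :
    ∑ s, Xr B σ s = (rect B σ)ᴴ * rect B σ := by
  ext p q
  rw [Matrix.mul_apply, Fintype.sum_prod_type, Matrix.sum_apply]
  refine Finset.sum_congr rfl fun s _ => ?_
  unfold Xr
  rw [Matrix.mul_apply]
  rfl

omit [DecidableEq n] [DecidableEq Ω] [Fintype Ω] in
lemma rect_mul {ι : Type*} [Fintype ι] (σ : ι → Ω) :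
    rect B σ * (rect B σ)ᴴ = SS (Xc B) σ := by
  ext p q
  unfold SS
  rw [Matrix.mul_apply, Fintype.sum_prod_type, Matrix.sum_apply]
  refine Finset.sum_congr rfl fun s _ => ?_
  unfold Xc
  rw [Matrix.mul_apply]
  rfl

omit [DecidableEq n] [DecidableEq Ω] in
lemma sum_Xc : ∑ t, Xc B t = rect B (fun t : Ω => t) * (rect B (fun t : Ω => t))ᴴ := by
  rw [rect_mul]
  rfl

omit [DecidableEq n] [DecidableEq Ω] [Fintype Ω] in
lemma Xr_psd {ι : Type*} [Fintype ι] (σ : ι → Ω) (s : Ω) : (Xr B σ s).PosSemidef :=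
  Matrix.posSemidef_conjTranspose_mul_self _

omit [DecidableEq n] [DecidableEq Ω] in
lemma Xc_psd (t : Ω) : (Xc B t).PosSemidef :=
  Matrix.posSemidef_self_mul_conjTranspose _

/-- the hypotheses on the big block matrix -/
structure Hyp (B : Ω → Ω → Matrix n n 𝕜) (adj : Ω → Finset Ω) (Dx β : ℝ) : Prop where
  herm : ∀ s t, (B s t)ᴴ = B t s
  symm : ∀ s t, t ∈ adj s → s ∈ adj t
  zero : ∀ s t, t ∉ adj s → B s t = 0
  one : ∀ s t, t ∈ adj s → ((1 : Matrix n n 𝕜) - B s t * (B s t)ᴴ).PosSemidef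
  deg : ∀ s, ((adj s).card : ℝ) ≤ Dx
  beta : ((β ^ 2) • (1 : Matrix (Ω × n) (Ω × n) 𝕜) -
    rect B (fun t : Ω => t) * (rect B (fun t : Ω => t))ᴴ).PosSemidef

variable {B} {adj : Ω → Finset Ω} {Dx β : ℝ}

/-- first Chernoff bound: the columns -/
lemma columns (h : Hyp B adj Dx β) [Nonempty Ω] {ι₂ : Type*} [Fintype ι₂] [DecidableEq ι₂] {k : ℕ} :
    ∑ σ : ι₂ → Ω, tr (SS (Xc B) σ ^ k) ≤
      (Fintype.card Ω : ℝ) ^ Fintype.card ι₂ * (Fintype.card Ω * Fintype.card n : ℝ) *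
        (2 * (Fintype.card ι₂ * β ^ 2 / Fintype.card Ω + k * Dx)) ^ k := by
  have hc : (0:ℝ) < Fintype.card Ω := by exact_mod_cast Fintype.card_pos
  have hDx : 0 ≤ Dx := (Nat.cast_nonneg _).trans (h.deg (Classical.arbitrary Ω))
  set μ : ℝ := Fintype.card ι₂ * β ^ 2 / Fintype.card Ω with hμ
  have hμ0 : 0 ≤ μ := by positivity
  have hk : (0:ℝ) ≤ k * Dx := by positivity
  have := chernoff (ι := ι₂) (X := Xc B) (Xc_psd B) (L := Dx) (μ := μ) (x := 2 * (μ + k * Dx))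
    hDx hμ0 (by linarith) ?_ ?_ k ?_
  · simpa [Fintype.card_prod] using this
  · intro t
    have e : ((Dx • (1 : Matrix n n 𝕜)) - (col B t)ᴴ * (col B t)ᴴᴴ).PosSemidef := by
      rw [Matrix.conjTranspose_conjTranspose, col_mul]
      have e2 : ∀ s, (B s t)ᴴ * B s t = B t s * (B t s)ᴴ := by
        intro s
        rw [h.herm s t, h.herm t s]
      simp only [e2]
      refine sum_blocks univ (adj t) (subset_univ _) _ ?_ ?_ (h.deg t)
      · intro s _ hs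
        rw [h.zero t s hs]; simp
      · intro s hs
        exact h.one t s hs
    have := sq_le e
    rwa [Matrix.conjTranspose_conjTranspose] at this
  · rw [sum_Xc]
    have e : μ * (Fintype.card Ω : ℝ) = Fintype.card ι₂ * β ^ 2 := by
      rw [hμ]; field_simp
    rw [e, mul_smul, ← smul_sub]
    exact real_smul_psd (by positivity) h.beta
  · nlinarith [mul_nonneg hμ0 hk, sq_nonneg (μ - k * Dx)]

/-- maximal number of sampled neighbours -/
def Lmax (adj : Ω → Finset Ω) {ι : Type*} [Fintype ι] (σ : ι → Ω) : ℕ :=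
  univ.sup fun s => (univ.filter fun j => σ j ∈ adj s).card

omit [DecidableEq Ω] in
lemma le_Lmax [DecidableEq Ω] {ι : Type*} [Fintype ι] (σ : ι → Ω) (s : Ω) :
    (univ.filter fun j => σ j ∈ adj s).card ≤ Lmax adj σ :=
  Finset.le_sup (f := fun s => (univ.filter fun j => σ j ∈ adj s).card) (mem_univ s)

lemma Lmax_pow {ι : Type*} [Fintype ι] (σ : ι → Ω) (k : ℕ) [Nonempty Ω] :
    (Lmax adj σ : ℝ) ^ k ≤ ∑ s, ((univ.filter fun j => σ j ∈ adj s).card : ℝ) ^ k := by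
  obtain ⟨s, -, hs⟩ := Finset.exists_mem_eq_sup (univ : Finset Ω) univ_nonempty
    (fun s => (univ.filter fun j => σ j ∈ adj s).card)
  have e : Lmax adj σ = (univ.filter fun j => σ j ∈ adj s).card := hs
  rw [e]
  exact Finset.single_le_sum (f := fun s => ((univ.filter fun j => σ j ∈ adj s).card : ℝ) ^ k)
    (fun j _ => by positivity) (mem_univ s)

lemma sum_Lmax (h : Hyp B adj Dx β) [Nonempty Ω] {ι₂ : Type*} [Fintype ι₂] [DecidableEq ι₂]
    {k : ℕ} {D : ℝ} (hD : (Fintype.card ι₂ : ℝ) * Dx ≤ D * Fintype.card Ω) (hD0 : 0 ≤ D) :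
    ∑ σ : ι₂ → Ω, (Lmax adj σ : ℝ) ^ k ≤
      (Fintype.card Ω : ℝ) ^ Fintype.card ι₂ * (Fintype.card Ω : ℝ) * (2 * (D + k)) ^ k := by
  have h1 : ∑ σ : ι₂ → Ω, (Lmax adj σ : ℝ) ^ k ≤
      ∑ σ : ι₂ → Ω, ∑ s, ((univ.filter fun j => σ j ∈ adj s).card : ℝ) ^ k :=
    Finset.sum_le_sum fun σ _ => Lmax_pow σ k
  rw [Finset.sum_comm] at h1
  have h2 : ∀ s : Ω, ∑ σ : ι₂ → Ω, ((univ.filter fun j => σ j ∈ adj s).card : ℝ) ^ k ≤
      (Fintype.card Ω : ℝ) ^ Fintype.card ι₂ * (2 * (D + k)) ^ k := by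
    intro s
    have hk : (0:ℝ) ≤ k := by positivity
    refine chernoff_scalar (ι := ι₂) (adj s) (μ := D) (x := 2 * (D + k)) hD0 (by linarith) ?_ k ?_
    · have := h.deg s
      have h3 : (Fintype.card ι₂ : ℝ) * ((adj s).card : ℝ) ≤ Fintype.card ι₂ * Dx :=
        mul_le_mul_of_nonneg_left this (by positivity)
      linarith
    · nlinarith [mul_nonneg hD0 hk, sq_nonneg (D - k)]
  have h3 := Finset.sum_le_sum fun s (_ : s ∈ (univ : Finset Ω)) => h2 s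
  rw [Finset.sum_const, card_univ, nsmul_eq_mul] at h3
  linarith

/-- second Chernoff bound: the rows, for fixed columns -/
lemma rows (h : Hyp B adj Dx β) [Nonempty Ω] {ι₁ ι₂ : Type*} [Fintype ι₁] [DecidableEq ι₁]
    [Fintype ι₂] [DecidableEq ι₂] {k : ℕ} (hk : k ≠ 0) (σ₂ : ι₂ → Ω) :
    ∑ σ₁ : ι₁ → Ω, tr (SS (Xr B σ₂) σ₁ ^ k) ≤
      (Fintype.card Ω : ℝ) ^ Fintype.card ι₁ * (Fintype.card ι₂ * Fintype.card n : ℝ) *
        (4 ^ k * (((Fintype.card ι₁ : ℝ) / Fintype.card Ω) ^ k * tr (SS (Xc B) σ₂ ^ k) +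
          (k:ℝ) ^ k * (Lmax adj σ₂ : ℝ) ^ k)) := by
  have hc : (0:ℝ) < Fintype.card Ω := by exact_mod_cast Fintype.card_pos
  have hpsd : (SS (Xc B) σ₂).PosSemidef := SS_psd (Xc_psd B) σ₂
  have htr : 0 ≤ tr (SS (Xc B) σ₂ ^ k) := by
    have := tr_mul_nonneg (hpsd.pow k) (Matrix.PosSemidef.one (n := Ω × n) (R := 𝕜))
    rwa [Matrix.mul_one] at this
  set ν : ℝ := tr (SS (Xc B) σ₂ ^ k) ^ ((k : ℝ)⁻¹) with hν
  have hν0 : 0 ≤ ν := Real.rpow_nonneg htr _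
  have hνk : ν ^ k = tr (SS (Xc B) σ₂ ^ k) := Real.rpow_inv_natCast_pow htr hk
  set L : ℝ := (Lmax adj σ₂ : ℝ) with hL
  have hL0 : 0 ≤ L := by positivity
  set μ : ℝ := (Fintype.card ι₁ : ℝ) / Fintype.card Ω * ν with hμ
  have hμ0 : 0 ≤ μ := by positivity
  have hkL : (0:ℝ) ≤ k * L := by positivity
  have key := chernoff (ι := ι₁) (X := Xr B σ₂) (Xr_psd B σ₂) (L := L) (μ := μ)
    (x := 2 * (μ + k * L)) hL0 hμ0 (by linarith) ?_ ?_ k ?_
  · refine key.trans ?_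
    rw [Fintype.card_prod, Nat.cast_mul]
    refine mul_le_mul_of_nonneg_left ?_ (by positivity)
    have e1 : (2 * (μ + k * L)) ^ k = 2 ^ k * (μ + k * L) ^ k := by rw [mul_pow]
    have e2 : (μ + k * L) ^ k ≤ 2 ^ k * (μ ^ k + (k * L) ^ k) := by
      refine (add_pow_le hμ0 hkL k).trans ?_
      refine mul_le_mul_of_nonneg_right ?_ (by positivity)
      exact pow_le_pow_right₀ (by norm_num) (Nat.sub_le _ _)
    rw [e1]
    have e3 : (4:ℝ) ^ k = 2 ^ k * 2 ^ k := by rw [← mul_pow]; norm_num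
    rw [e3, hμ, ← hνk]
    rw [hμ, mul_pow, mul_pow] at e2
    calc (2:ℝ) ^ k * ((Fintype.card ι₁ : ℝ) / Fintype.card Ω * ν + k * L) ^ k ≤
        2 ^ k * (2 ^ k * (((Fintype.card ι₁ : ℝ) / Fintype.card Ω) ^ k * ν ^ k + k ^ k * L ^ k)) :=
          mul_le_mul_of_nonneg_left e2 (by positivity)
      _ = _ := by ring
  · intro s
    refine sq_le ?_
    rw [row_mul]
    refine sum_blocks univ (univ.filter fun j => σ₂ j ∈ adj s) (subset_univ _) _ ?_ ?_ ?_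
    · intro j _ hj
      have : σ₂ j ∉ adj s := by simpa using hj
      rw [h.zero _ _ this]; simp
    · intro j hj
      exact h.one _ _ (by simpa using hj)
    · rw [hL]
      exact_mod_cast le_Lmax σ₂ s
  · rw [sum_Xr]
    have e : μ * (Fintype.card Ω : ℝ) = Fintype.card ι₁ * ν := by
      rw [hμ]; field_simp
    rw [e, mul_smul, ← smul_sub]
    refine real_smul_psd (by positivity) (le_of_trace_pow ?_ hk hν0 ?_)
    · exact Matrix.posSemidef_conjTranspose_mul_self _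
    · rw [hνk, ← rect_mul, tr_pow_swap _ _ hk]
  · nlinarith [mul_nonneg hμ0 hkL, sq_nonneg (μ - k * L)]

/-- the bipartite sample -/
theorem bip (h : Hyp B adj Dx β) [Nonempty Ω] {ι₁ ι₂ : Type*} [Fintype ι₁] [DecidableEq ι₁]
    [Fintype ι₂] [DecidableEq ι₂] {k : ℕ} (hk : k ≠ 0) {N : ℝ}
    (h1 : (Fintype.card ι₁ : ℝ) ≤ N) (h2 : (Fintype.card ι₂ : ℝ) ≤ N) :
    ∑ σ₂ : ι₂ → Ω, ∑ σ₁ : ι₁ → Ω, tr (SS (Xr B σ₂) σ₁ ^ k) ≤
      (Fintype.card Ω : ℝ) ^ Fintype.card ι₁ * (Fintype.card Ω : ℝ) ^ Fintype.card ι₂ *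
        (2 * N * Fintype.card Ω * (Fintype.card n : ℝ) ^ 2 *
          (8 * ((N * β / Fintype.card Ω) ^ 2 + k * (N * Dx / Fintype.card Ω) + (k:ℝ) ^ 2)) ^ k) := by
  have hc : (0:ℝ) < Fintype.card Ω := by exact_mod_cast Fintype.card_pos
  have hDx : 0 ≤ Dx := (Nat.cast_nonneg _).trans (h.deg (Classical.arbitrary Ω))
  have hN : 0 ≤ N := (Nat.cast_nonneg _).trans h1
  set c : ℝ := (Fintype.card Ω : ℝ) with hcdef
  set d : ℝ := (Fintype.card n : ℝ) with hd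
  set D : ℝ := N * Dx / c with hD
  set b : ℝ := N * β / c with hb
  have hD0 : 0 ≤ D := by positivity
  have hk0 : (0:ℝ) ≤ k := by positivity
  have s1 := Finset.sum_le_sum fun σ₂ (_ : σ₂ ∈ (univ : Finset (ι₂ → Ω))) =>
    rows (ι₁ := ι₁) h hk σ₂
  refine s1.trans ?_
  rw [← Finset.mul_sum, ← Finset.mul_sum, Finset.sum_add_distrib, ← Finset.mul_sum,
    ← Finset.mul_sum]
  have t1 := columns (ι₂ := ι₂) h (k := k)
  have t2 := sum_Lmax (ι₂ := ι₂) h (k := k) (D := D) (by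
    rw [hD, div_mul_cancel₀ _ hc.ne']
    exact mul_le_mul_of_nonneg_right h2 hDx) hD0
  rw [← hcdef, ← hd] at t1
  rw [← hcdef] at t2
  set W : ℝ := b ^ 2 + k * D + (k:ℝ) ^ 2 with hW
  have hkD : 0 ≤ k * D := by positivity
  have hW0 : 0 ≤ W := by positivity
  -- first term
  have u1 : ((Fintype.card ι₁ : ℝ) / c) ^ k * ∑ σ : ι₂ → Ω, tr (SS (Xc B) σ ^ k) ≤
      c ^ Fintype.card ι₂ * (c * d) * (2 * W) ^ k := by
    have v1 : ((Fintype.card ι₁ : ℝ) / c) ^ k ≤ (N / c) ^ k := by gcongr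
    have v2 : (2 * ((Fintype.card ι₂ : ℝ) * β ^ 2 / c + k * Dx)) ^ k ≤
        (2 * (N * β ^ 2 / c + k * Dx)) ^ k := by gcongr
    have v3 : (N / c) ^ k * (2 * (N * β ^ 2 / c + k * Dx)) ^ k ≤ (2 * W) ^ k := by
      rw [← mul_pow]
      refine pow_le_pow_left₀ (by positivity) ?_ k
      have : N / c * (2 * (N * β ^ 2 / c + k * Dx)) = 2 * (b ^ 2 + k * D) := by
        rw [hb, hD]; field_simp
      rw [this, hW]
      nlinarith [sq_nonneg (k:ℝ)]
    have hnn : 0 ≤ ∑ σ : ι₂ → Ω, tr (SS (Xc B) σ ^ k) :=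
      Zm_nonneg (ι := ι₂) (Xc_psd B) k
    calc ((Fintype.card ι₁ : ℝ) / c) ^ k * ∑ σ : ι₂ → Ω, tr (SS (Xc B) σ ^ k)
        ≤ (N / c) ^ k * (c ^ Fintype.card ι₂ * (c * d) *
          (2 * (N * β ^ 2 / c + k * Dx)) ^ k) := by
            refine mul_le_mul v1 (t1.trans ?_) hnn (by positivity)
            exact mul_le_mul_of_nonneg_left v2 (by positivity)
      _ = c ^ Fintype.card ι₂ * (c * d) * ((N / c) ^ k * (2 * (N * β ^ 2 / c + k * Dx)) ^ k) := by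
            ring
      _ ≤ _ := mul_le_mul_of_nonneg_left v3 (by positivity)
  have u2 : (k:ℝ) ^ k * ∑ σ : ι₂ → Ω, (Lmax adj σ : ℝ) ^ k ≤
      c ^ Fintype.card ι₂ * c * (2 * W) ^ k := by
    have v3 : (k:ℝ) ^ k * (2 * (D + k)) ^ k ≤ (2 * W) ^ k := by
      rw [← mul_pow]
      refine pow_le_pow_left₀ (by positivity) ?_ k
      rw [hW]
      nlinarith [sq_nonneg b]
    calc (k:ℝ) ^ k * ∑ σ : ι₂ → Ω, (Lmax adj σ : ℝ) ^ k
        ≤ (k:ℝ) ^ k * (c ^ Fintype.card ι₂ * c * (2 * (D + k)) ^ k) :=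
          mul_le_mul_of_nonneg_left t2 (by positivity)
      _ = c ^ Fintype.card ι₂ * c * ((k:ℝ) ^ k * (2 * (D + k)) ^ k) := by ring
      _ ≤ _ := mul_le_mul_of_nonneg_left v3 (by positivity)
  have hd1 : d * (c * d) + d * c ≤ 2 * c * d ^ 2 := by
    have : d ≤ d ^ 2 := by
      rw [hd]
      exact_mod_cast Nat.le_self_pow (by norm_num) _
    nlinarith
  have hd0 : 0 ≤ d := by positivity
  calc c ^ Fintype.card ι₁ * ((Fintype.card ι₂ : ℝ) * d) *
      (4 ^ k * (((Fintype.card ι₁ : ℝ) / c) ^ k * ∑ σ : ι₂ → Ω, tr (SS (Xc B) σ ^ k) +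
        (k:ℝ) ^ k * ∑ σ : ι₂ → Ω, (Lmax adj σ : ℝ) ^ k))
      ≤ c ^ Fintype.card ι₁ * (N * d) *
      (4 ^ k * (c ^ Fintype.card ι₂ * (c * d) * (2 * W) ^ k +
        c ^ Fintype.card ι₂ * c * (2 * W) ^ k)) := by
        have hnn : 0 ≤ ∑ σ : ι₂ → Ω, tr (SS (Xc B) σ ^ k) :=
          Zm_nonneg (ι := ι₂) (Xc_psd B) k
        gcongr
    _ = c ^ Fintype.card ι₁ * c ^ Fintype.card ι₂ * (N * (d * (c * d) + d * c) * (4 ^ k * (2 * W) ^ k)) := by
        ring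
    _ ≤ c ^ Fintype.card ι₁ * c ^ Fintype.card ι₂ * (N * (2 * c * d ^ 2) * (4 ^ k * (2 * W) ^ k)) := by
        gcongr
    _ = _ := by
        rw [← mul_pow]
        ring_nf

end core

end Pool.Agent.BQ.X
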