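import Pool.Agent.BQ.X_Dec

/-! Block X of BQ (helper87): the LOW property for operators on a finite dimensional space,
and the form with characters. -/

open Matrix Finset
open scoped ComplexOrder InnerProductSpace

namespace Pool.Agent.BQ.X

section coord

variable {𝕜 : Type*} [RCLike 𝕜] {H : Type*} [NormedAddCommGroup H] [InnerProductSpace 𝕜 H]
variable {n : Type*} [Fintype n] [DecidableEq n] (b : OrthonormalBasis n 𝕜 H)

/-- coordinates -/
noncomputable def crd (x : H) : n → 𝕜 := fun a => b.repr x a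

omit [DecidableEq n] in
lemma crd_norm (x : H) : ∑ a, ‖crd b x a‖ ^ 2 = ‖x‖ ^ 2 := by
  unfold crd
  rw [← EuclideanSpace.norm_sq_eq, LinearIsometryEquiv.norm_map]

omit [DecidableEq n] in
lemma crd_inner (x y : H) : star (crd b x) ⬝ᵥ crd b y = ⟪x, y⟫_𝕜 := by
  rw [← LinearIsometryEquiv.inner_map_map b.repr x y, EuclideanSpace.inner_eq_star_dotProduct,
    dotProduct_comm]
  rfl

omit [DecidableEq n] in
lemma crd_surj (v : n → 𝕜) : ∃ x : H, crd b x = v := by
  refine ⟨b.repr.symm (WithLp.toLp 2 v), ?_⟩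
  ext a
  simp [crd]

omit [DecidableEq n] in
lemma crd_sum {α : Type*} (s : Finset α) (f : α → H) :
    crd b (∑ i ∈ s, f i) = ∑ i ∈ s, crd b (f i) := by
  ext a
  simp [crd, map_sum]

/-- the matrix of a linear map -/
noncomputable def mat (T : H →ₗ[𝕜] H) : Matrix n n 𝕜 := LinearMap.toMatrix b.toBasis b.toBasis T

lemma mat_mulVec (T : H →ₗ[𝕜] H) (x : H) : mat b T *ᵥ crd b x = crd b (T x) := by
  have := LinearMap.toMatrix_mulVec_repr b.toBasis b.toBasis T x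
  ext a
  have h := congrFun this a
  have e : crd b x = ⇑(b.toBasis.repr x) := by
    ext a; simp [crd]
  rw [e]
  unfold mat
  rw [h]
  simp [crd]

lemma mat_zero : mat b (0 : H →ₗ[𝕜] H) = 0 := by simp [mat]

lemma mat_apply (T : H →ₗ[𝕜] H) (i j : n) : mat b T i j = ⟪b i, T (b j)⟫_𝕜 := by
  unfold mat
  rw [LinearMap.toMatrix_apply]
  simp [OrthonormalBasis.repr_apply_apply]

lemma mat_conjTranspose {S T : H →ₗ[𝕜] H} (h : ∀ x y, ⟪S x, y⟫_𝕜 = ⟪x, T y⟫_𝕜) :
    (mat b S)ᴴ = mat b T := by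
  ext i j
  rw [Matrix.conjTranspose_apply, mat_apply, mat_apply, ← h]
  exact inner_conj_symm _ _

lemma mat_contr {S T : H →ₗ[𝕜] H} (h : ∀ x y, ⟪S x, y⟫_𝕜 = ⟪x, T y⟫_𝕜)
    (hT : ∀ x, ‖T x‖ ≤ ‖x‖) : ((1 : Matrix n n 𝕜) - mat b S * (mat b S)ᴴ).PosSemidef := by
  refine Matrix.PosSemidef.of_dotProduct_mulVec_nonneg ?_ ?_
  · exact (Matrix.isHermitian_one).sub (Matrix.isHermitian_mul_conjTranspose_self _)
  · intro v
    obtain ⟨x, rfl⟩ := crd_surj b v
    rw [Matrix.sub_mulVec, dotProduct_sub, Matrix.one_mulVec, ← Matrix.mulVec_mulVec,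
      mat_conjTranspose b h, mat_mulVec, mat_mulVec, crd_inner, crd_inner]
    have e : ⟪x, S (T x)⟫_𝕜 = ⟪T x, T x⟫_𝕜 := by
      rw [← inner_conj_symm, h, inner_conj_symm]
    rw [e, inner_self_eq_norm_sq_to_K, inner_self_eq_norm_sq_to_K]
    have h1 : ‖T x‖ ^ 2 ≤ ‖x‖ ^ 2 := pow_le_pow_left₀ (norm_nonneg _) (hT x) 2
    have h2 : (0:ℝ) ≤ ‖x‖ ^ 2 - ‖T x‖ ^ 2 := by linarith
    have h3 := (RCLike.ofReal_nonneg (K := 𝕜)).mpr h2
    push_cast at h3
    exact h3

end coord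

section main

variable {𝕜 : Type*} [RCLike 𝕜] {H : Type*} [NormedAddCommGroup H] [InnerProductSpace 𝕜 H]
  [FiniteDimensional 𝕜 H]
variable {Ω : Type*} [Fintype Ω] [DecidableEq Ω] {ι : Type*} [Fintype ι] [DecidableEq ι]

/-- LOW, operator form. -/
theorem low [Nonempty Ω] (Bo : Ω → Ω → H →ₗ[𝕜] H) (adj : Ω → Finset Ω) {Dx β : ℝ}
    (hherm : ∀ s t x y, ⟪Bo s t x, y⟫_𝕜 = ⟪x, Bo t s y⟫_𝕜)
    (hsymm : ∀ s t, t ∈ adj s → s ∈ adj t)
    (hirr : ∀ s, s ∉ adj s)
    (hzero : ∀ s t, t ∉ adj s → Bo s t = 0)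
    (hone : ∀ s t, t ∈ adj s → ∀ x, ‖Bo s t x‖ ≤ ‖x‖)
    (hdeg : ∀ s, ((adj s).card : ℝ) ≤ Dx)
    (hbeta : ∀ f : Ω → H, ∑ s, ‖∑ t, Bo s t (f t)‖ ^ 2 ≤ β ^ 2 * ∑ s, ‖f s‖ ^ 2)
    {k : ℕ} (hk : k ≠ 0) {lam : ℝ} (hlam : 0 < lam) (bad : Finset (ι → Ω))
    (hbad : ∀ σ ∈ bad, ∃ f : ι → H, lam * ∑ i, ‖f i‖ ^ 2 <
      ‖∑ i, ∑ j, ⟪f i, Bo (σ i) (σ j) (f j)⟫_𝕜‖) :
    (bad.card : ℝ) ≤ (Fintype.card Ω : ℝ) ^ Fintype.card ι *
        (2 * Fintype.card ι * Fintype.card Ω * (Module.finrank 𝕜 H : ℝ) ^ 2 *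
          (32 * ((Fintype.card ι * β / Fintype.card Ω) ^ 2 +
            k * (Fintype.card ι * Dx / Fintype.card Ω) + (k:ℝ) ^ 2) / lam ^ 2) ^ k) := by
  set b := stdOrthonormalBasis 𝕜 H with hb
  have hyp : Hyp (fun s t => mat b (Bo s t)) adj Dx β := by
    refine ⟨fun s t => mat_conjTranspose b (hherm s t), hsymm, fun s t h => ?_,
      fun s t h => mat_contr b (hherm s t) (hone t s (hsymm s t h)), hdeg, ?_⟩
    · show mat b (Bo s t) = 0
      rw [hzero s t h, mat_zero]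
    · set M := rect (fun s t => mat b (Bo s t)) (fun t : Ω => t) with hM
      have hMs : Mᴴ = M := by
        ext p q
        have := mat_conjTranspose b (hherm q.1 p.1)
        exact congrFun (congrFun this p.2) q.2
      refine Matrix.PosSemidef.of_dotProduct_mulVec_nonneg ?_ ?_
      · exact (real_smul_one_psd (sq_nonneg β)).1.sub (Matrix.isHermitian_mul_conjTranspose_self _)
      · intro v
        have hx : ∀ t : Ω, ∃ x : H, crd b x = fun a => v (t, a) := fun t => crd_surj b _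
        choose f hf using hx
        have e1 : ∀ s a, (M *ᵥ v) (s, a) = crd b (∑ t, Bo s t (f t)) a := by
          intro s a
          rw [crd_sum, Finset.sum_apply]
          rw [Matrix.mulVec, dotProduct, Fintype.sum_prod_type]
          refine Finset.sum_congr rfl fun t _ => ?_
          rw [← mat_mulVec, hf, Matrix.mulVec, dotProduct]
          rfl
        have e2 : star v ⬝ᵥ ((M * Mᴴ) *ᵥ v) = star (M *ᵥ v) ⬝ᵥ (M *ᵥ v) := by
          rw [Matrix.star_mulVec, ← Matrix.mulVec_mulVec, Matrix.dotProduct_mulVec, hMs]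
        have e3 : star (M *ᵥ v) ⬝ᵥ (M *ᵥ v) = ((∑ s, ‖∑ t, Bo s t (f t)‖ ^ 2 : ℝ) : 𝕜) := by
          rw [dotProduct, Fintype.sum_prod_type, RCLike.ofReal_sum]
          refine Finset.sum_congr rfl fun s _ => ?_
          rw [← crd_norm b, RCLike.ofReal_sum]
          refine Finset.sum_congr rfl fun a _ => ?_
          rw [Pi.star_apply, e1, show star (crd b (∑ t, Bo s t (f t)) a) =
            (starRingEnd 𝕜) (crd b (∑ t, Bo s t (f t)) a) from rfl, RCLike.conj_mul]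
          push_cast; rfl
        have e4 : star v ⬝ᵥ v = ((∑ s, ‖f s‖ ^ 2 : ℝ) : 𝕜) := by
          rw [dotProduct, Fintype.sum_prod_type, RCLike.ofReal_sum]
          refine Finset.sum_congr rfl fun s _ => ?_
          rw [← crd_norm b, RCLike.ofReal_sum, hf]
          refine Finset.sum_congr rfl fun a _ => ?_
          rw [Pi.star_apply, show star (v (s, a)) = (starRingEnd 𝕜) (v (s, a)) from rfl,
            RCLike.conj_mul]
          push_cast; rfl
        rw [Matrix.sub_mulVec, dotProduct_sub, Matrix.smul_mulVec, Matrix.one_mulVec,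
          dotProduct_smul, e2, e3, e4, RCLike.real_smul_eq_coe_mul]
        have h2 : (0:ℝ) ≤ β ^ 2 * ∑ s, ‖f s‖ ^ 2 - ∑ s, ‖∑ t, Bo s t (f t)‖ ^ 2 := by
          linarith [hbeta f]
        have h3 := (RCLike.ofReal_nonneg (K := 𝕜)).mpr h2
        rw [RCLike.ofReal_sub, RCLike.ofReal_mul] at h3
        exact h3
  have key := core_low hyp (fun s => by
    show mat b (Bo s s) = 0
    rw [hzero s s (hirr s), mat_zero]) hk hlam bad ?_
  · rw [Fintype.card_fin] at key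
    exact key
  · intro σ hσ
    obtain ⟨f, hf⟩ := hbad σ hσ
    refine ⟨fun i => crd b (f i), ?_⟩
    simp only [crd_norm, mat_mulVec, crd_inner]
    exact hf

end main

section fourier

variable {H : Type*} [NormedAddCommGroup H] [InnerProductSpace ℂ H]
variable {G : Type*} [AddCommGroup G] [Fintype G] [DecidableEq G]

/-- Plancherel for vector valued functions -/
lemma plancherel (F : G → H) :
    ∑ ψ : AddChar G ℂ, ‖∑ s, ψ s • F s‖ ^ 2 = (Fintype.card G : ℝ) * ∑ s, ‖F s‖ ^ 2 := by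
  have h1 : ∀ ψ : AddChar G ℂ, ((‖∑ s, ψ s • F s‖ ^ 2 : ℝ) : ℂ) =
      ∑ s, ∑ t, ψ (t - s) * ⟪F s, F t⟫_ℂ := by
    intro ψ
    have : ((‖∑ s, ψ s • F s‖ ^ 2 : ℝ) : ℂ) = ⟪∑ s, ψ s • F s, ∑ s, ψ s • F s⟫_ℂ := by
      rw [inner_self_eq_norm_sq_to_K]; push_cast; rfl
    rw [this, sum_inner]
    refine Finset.sum_congr rfl fun s _ => ?_
    rw [inner_sum]
    refine Finset.sum_congr rfl fun t _ => ?_
    rw [inner_smul_left, inner_smul_right, sub_eq_add_neg, AddChar.map_add_eq_mul,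
      AddChar.map_neg_eq_conj]
    ring
  have h2 : ((∑ ψ : AddChar G ℂ, ‖∑ s, ψ s • F s‖ ^ 2 : ℝ) : ℂ) =
      (((Fintype.card G : ℝ) * ∑ s, ‖F s‖ ^ 2 : ℝ) : ℂ) := by
    push_cast
    have h3 : ∀ ψ : AddChar G ℂ, (‖∑ s, ψ s • F s‖ : ℂ) ^ 2 =
      ∑ s, ∑ t, ψ (t - s) * ⟪F s, F t⟫_ℂ := by
      intro ψ
      rw [← h1 ψ]; push_cast; rfl
    simp only [h3]
    rw [Finset.sum_comm, Finset.mul_sum]
    refine Finset.sum_congr rfl fun s _ => ?_
    rw [Finset.sum_comm]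
    simp only [← Finset.sum_mul]
    rw [Finset.sum_eq_single s]
    · rw [AddChar.sum_apply_eq_ite]
      simp only [sub_self, if_true]
      rw [inner_self_eq_norm_sq_to_K]
      rfl
    · intro t _ ht
      rw [AddChar.sum_apply_eq_ite, if_neg (sub_ne_zero.mpr ht), zero_mul]
    · intro h; exact absurd (mem_univ s) h
  exact_mod_cast h2

/-- the full operator is bounded by the bounds at the characters -/
lemma full_bound (X0 : Finset G) (U : G → H →ₗ[ℂ] H) {β : ℝ}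
    (hβ : ∀ (ψ : AddChar G ℂ) (x : H), ‖∑ h ∈ X0, ψ h • U h x‖ ≤ β * ‖x‖) (f : G → H) :
    ∑ s, ‖∑ h ∈ X0, U h (f (s + h))‖ ^ 2 ≤ β ^ 2 * ∑ s, ‖f s‖ ^ 2 := by
  have hc : (0:ℝ) < Fintype.card G := by exact_mod_cast Fintype.card_pos
  have h1 := plancherel (fun s => ∑ h ∈ X0, U h (f (s + h)))
  have h2 := plancherel f
  have h3 : ∀ ψ : AddChar G ℂ, ‖∑ s, ψ s • ∑ h ∈ X0, U h (f (s + h))‖ ^ 2 ≤
      β ^ 2 * ‖∑ s, ψ s • f s‖ ^ 2 := by
    intro ψ
    have e : ∑ s, ψ s • ∑ h ∈ X0, U h (f (s + h)) =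
        ∑ h ∈ X0, (ψ⁻¹) h • U h (∑ s, ψ s • f s) := by
      simp only [Finset.smul_sum]
      rw [Finset.sum_comm]
      refine Finset.sum_congr rfl fun h _ => ?_
      rw [map_sum, Finset.smul_sum]
      rw [← Equiv.sum_comp (Equiv.subRight h)]
      refine Finset.sum_congr rfl fun t _ => ?_
      simp only [Equiv.subRight_apply, sub_add_cancel, map_smul]
      rw [smul_smul, sub_eq_add_neg, AddChar.map_add_eq_mul, AddChar.inv_apply, mul_comm]
    rw [e]
    have := hβ ψ⁻¹ (∑ s, ψ s • f s)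
    calc _ ≤ (β * ‖∑ s, ψ s • f s‖) ^ 2 := pow_le_pow_left₀ (norm_nonneg _) this 2
      _ = _ := by ring
  have h4 := Finset.sum_le_sum fun ψ (_ : ψ ∈ (univ : Finset (AddChar G ℂ))) => h3 ψ
  rw [h1, ← Finset.mul_sum, h2] at h4
  have : (Fintype.card G : ℝ) * ∑ s, ‖∑ h ∈ X0, U h (f (s + h))‖ ^ 2 ≤
      (Fintype.card G : ℝ) * (β ^ 2 * ∑ s, ‖f s‖ ^ 2) := by linarith
  exact le_of_mul_le_mul_left this hc

variable {Ω : Type*} [Fintype Ω] [DecidableEq Ω] {ι : Type*} [Fintype ι] [DecidableEq ι]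

omit [DecidableEq Ω] in
/-- the same on a subset `Ω` of the group -/
lemma full_bound_sub (e : Ω → G) (he : Function.Injective e) (X0 : Finset G)
    (U : G → H →ₗ[ℂ] H) {β : ℝ}
    (hβ : ∀ (ψ : AddChar G ℂ) (x : H), ‖∑ h ∈ X0, ψ h • U h x‖ ≤ β * ‖x‖) (f : Ω → H) :
    ∑ s, ‖∑ t, (if e t - e s ∈ X0 then U (e t - e s) else 0) (f t)‖ ^ 2 ≤
      β ^ 2 * ∑ s, ‖f s‖ ^ 2 := by
  classical
  set g : G → H := Function.extend e f 0 with hg
  have hge : ∀ s, g (e s) = f s := fun s => he.extend_apply f 0 s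
  have hg0 : ∀ x, x ∉ Set.range e → g x = 0 := by
    intro x hx
    rw [hg, Function.extend_apply' _ _ _ (by simpa using hx)]
    rfl
  have h1 := full_bound X0 U hβ g
  have h2 : ∑ x, ‖g x‖ ^ 2 = ∑ s, ‖f s‖ ^ 2 := by
    rw [← Finset.sum_subset (subset_univ (univ.image e))]
    · rw [Finset.sum_image fun a _ c _ h => he h]
      simp only [hge]
    · intro x _ hx
      have : x ∉ Set.range e := by
        intro ⟨s, hs⟩
        exact hx (Finset.mem_image.mpr ⟨s, mem_univ s, hs⟩)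
      rw [hg0 x this]; simp
  have h3 : ∀ s, ∑ t, (if e t - e s ∈ X0 then U (e t - e s) else 0) (f t) =
      ∑ h ∈ X0, U h (g (e s + h)) := by
    intro s
    have e1 : ∑ h ∈ X0, U h (g (e s + h)) = ∑ x, if x - e s ∈ X0 then U (x - e s) (g x) else 0 := by
      rw [← Equiv.sum_comp (Equiv.addLeft (e s))]
      simp only [Equiv.coe_addLeft, add_sub_cancel_left]
      rw [← Finset.sum_filter, Finset.filter_mem_eq_inter, Finset.univ_inter]
    rw [e1, ← Finset.sum_subset (subset_univ (univ.image e))]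
    · rw [Finset.sum_image fun a _ c _ h => he h]
      refine Finset.sum_congr rfl fun t _ => ?_
      rw [hge]
      split_ifs <;> simp
    · intro x _ hx
      have : x ∉ Set.range e := by
        intro ⟨s, hs⟩
        exact hx (Finset.mem_image.mpr ⟨s, mem_univ s, hs⟩)
      rw [hg0 x this]; simp
  simp only [h3]
  rw [h2] at h1
  refine le_trans ?_ h1
  have h4 : ∑ s, ‖∑ h ∈ X0, U h (g (e s + h))‖ ^ 2 =
      ∑ x ∈ univ.image e, ‖∑ h ∈ X0, U h (g (x + h))‖ ^ 2 := by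
    rw [Finset.sum_image fun a _ c _ h => he h]
  rw [h4]
  exact Finset.sum_le_sum_of_subset_of_nonneg (subset_univ _) fun _ _ _ => by positivity

/-- LOW, final form: samples from a subset `Ω` of a finite abelian group. -/
theorem low_char [FiniteDimensional ℂ H] [Nonempty Ω] (e : Ω → G) (he : Function.Injective e)
    (X0 : Finset G) (hX0 : ∀ h ∈ X0, -h ∈ X0) (h0 : (0 : G) ∉ X0)
    (U : G → H →ₗ[ℂ] H)
    (hU : ∀ h ∈ X0, ∀ x, ‖U h x‖ ≤ ‖x‖)
    (hUs : ∀ h ∈ X0, ∀ x y, ⟪U h x, y⟫_ℂ = ⟪x, U (-h) y⟫_ℂ)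
    {β : ℝ}
    (hβ : ∀ (ψ : AddChar G ℂ) (x : H), ‖∑ h ∈ X0, ψ h • U h x‖ ≤ β * ‖x‖)
    {k : ℕ} (hk : k ≠ 0) {lam : ℝ} (hlam : 0 < lam) (bad : Finset (ι → Ω))
    (hbad : ∀ σ ∈ bad, ∃ f : ι → H, lam * ∑ i, ‖f i‖ ^ 2 <
      ‖∑ i, ∑ j, if e (σ j) - e (σ i) ∈ X0 then ⟪f i, U (e (σ j) - e (σ i)) (f j)⟫_ℂ else 0‖) :
    (bad.card : ℝ) ≤ (Fintype.card Ω : ℝ) ^ Fintype.card ι *
        (2 * Fintype.card ι * Fintype.card Ω * (Module.finrank ℂ H : ℝ) ^ 2 *
          (32 * ((Fintype.card ι * β / Fintype.card Ω) ^ 2 +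
            k * (Fintype.card ι * X0.card / Fintype.card Ω) + (k:ℝ) ^ 2) / lam ^ 2) ^ k) := by
  refine low (𝕜 := ℂ) (fun s t => if e t - e s ∈ X0 then U (e t - e s) else 0)
    (fun s => univ.filter fun t => e t - e s ∈ X0) ?_ ?_ ?_ ?_ ?_ ?_
    (full_bound_sub e he X0 U hβ) hk hlam bad ?_
  · intro s t x y
    by_cases h : e t - e s ∈ X0
    · have h' : e s - e t ∈ X0 := by simpa using hX0 _ h
      simp only [h, h', if_true]
      rw [hUs _ h, neg_sub]
    · have h' : e s - e t ∉ X0 := fun hc => h (by simpa using hX0 _ hc)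
      simp [h, h']
  · intro s t h
    simp only [mem_filter, mem_univ, true_and] at h ⊢
    simpa using hX0 _ h
  · intro s
    simp [h0]
  · intro s t h
    simp only [mem_filter, mem_univ, true_and] at h
    simp [h]
  · intro s t h x
    simp only [mem_filter, mem_univ, true_and] at h
    simp only [h, if_true]
    exact hU _ h x
  · intro s
    have : (univ.filter fun t => e t - e s ∈ X0).card ≤ X0.card := by
      refine Finset.card_le_card_of_injOn (fun t => e t - e s) ?_ ?_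
      · intro t ht
        simpa using ht
      · intro a _ c _ hac
        exact he (sub_left_injective hac)
    exact_mod_cast this
  · intro σ hσ
    obtain ⟨f, hf⟩ := hbad σ hσ
    refine ⟨f, hf.trans_le (le_of_eq ?_)⟩
    congr 1
    refine Finset.sum_congr rfl fun i _ => Finset.sum_congr rfl fun j _ => ?_
    split_ifs <;> simp

end fourier

end Pool.Agent.BQ.X
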