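import Pool.Agent.BQ.X_Main
import Pool.Agent.BQ.FSt

/-! Block Y of BQ (helper87): LOW for the random sample of labels, from X (sampling) and
F3 (Fourier analysis on the labels), for any matrix representation `Dm` of `S3`. -/

open Matrix Finset
open scoped Quaternion

namespace BQA.Y

section polar

variable {n : ℕ} (Γ : QG n) {ι : Type} [Fintype ι] (ρ : S3 → Matrix ι ι ℂ)

lemma form_add_left (a b c : Γ.V → ι → ℂ) : Γ.form ρ (a + b) c = Γ.form ρ a c + Γ.form ρ b c := by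
  unfold QG.form
  rw [← Finset.sum_add_distrib]
  refine Finset.sum_congr rfl fun e _ => ?_
  rw [Pi.add_apply, star_add, add_dotProduct]

lemma form_add_right (a b c : Γ.V → ι → ℂ) : Γ.form ρ a (b + c) = Γ.form ρ a b + Γ.form ρ a c := by
  unfold QG.form
  rw [← Finset.sum_add_distrib]
  refine Finset.sum_congr rfl fun e _ => ?_
  rw [Pi.add_apply, Matrix.mulVec_add, dotProduct_add]

lemma form_smul_left (z : ℂ) (a c : Γ.V → ι → ℂ) : Γ.form ρ (z • a) c = star z * Γ.form ρ a c := by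
  unfold QG.form
  rw [Finset.mul_sum]
  refine Finset.sum_congr rfl fun e _ => ?_
  rw [Pi.smul_apply, star_smul, smul_dotProduct, smul_eq_mul]

lemma form_smul_right (z : ℂ) (a c : Γ.V → ι → ℂ) : Γ.form ρ a (z • c) = z * Γ.form ρ a c := by
  unfold QG.form
  rw [Finset.mul_sum]
  refine Finset.sum_congr rfl fun e _ => ?_
  rw [Pi.smul_apply, Matrix.mulVec_smul, dotProduct_smul, smul_eq_mul]

/-- the form is Hermitian for a unitary (anti)representation -/
lemma form_herm (hρ : ∀ u, (ρ u)ᴴ = ρ u⁻¹) (a c : Γ.V → ι → ℂ) :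
    Γ.form ρ c a = star (Γ.form ρ a c) := by
  unfold QG.form
  rw [star_sum]
  refine Fintype.sum_equiv ⟨Γ.inv, Γ.inv, Γ.inv_inv, Γ.inv_inv⟩ _ _ fun e => ?_
  simp only [Equiv.coe_fn_mk]
  have h1 : Γ.tgt (Γ.inv e) = Γ.src e := by
    rw [← Γ.src_inv (Γ.inv e), Γ.inv_inv]
  rw [Γ.src_inv, h1, Γ.q_inv, usp_star, ← hρ, ← Matrix.star_dotProduct,
    Matrix.star_mulVec, Matrix.conjTranspose_conjTranspose, ← Matrix.dotProduct_mulVec]

lemma nv2_nonneg {V : Type} [Fintype V] (a : V → ι → ℂ) : 0 ≤ nv2 a := by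
  unfold nv2; positivity

lemma nv2_smul {V : Type} [Fintype V] (z : ℂ) (a : V → ι → ℂ) : nv2 (z • a) = ‖z‖ ^ 2 * nv2 a := by
  unfold nv2
  rw [Finset.mul_sum]
  refine Finset.sum_congr rfl fun s _ => ?_
  rw [Finset.mul_sum]
  refine Finset.sum_congr rfl fun i _ => ?_
  rw [Pi.smul_apply, Pi.smul_apply, norm_smul, mul_pow]

lemma nv2_par {V : Type} [Fintype V] (a b : V → ι → ℂ) :
    nv2 (a + b) + nv2 (a + (-1 : ℂ) • b) = 2 * (nv2 a + nv2 b) := by
  unfold nv2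
  simp only [← Finset.sum_add_distrib, Finset.mul_sum]
  refine Finset.sum_congr rfl fun s _ => Finset.sum_congr rfl fun i _ => ?_
  have := parallelogram_law_with_norm ℝ (a s i) (b s i)
  have e : (a + (-1 : ℂ) • b) s i = a s i - b s i := by
    simp [sub_eq_add_neg]
  rw [e, Pi.add_apply, Pi.add_apply]
  nlinarith [this]

lemma nv2_eq_zero {V : Type} [Fintype V] {a : V → ι → ℂ} (h : nv2 a = 0) : a = 0 := by
  unfold nv2 at h
  rw [Finset.sum_eq_zero_iff_of_nonneg (fun s _ => by positivity)] at h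
  ext s i
  have h1 := h s (mem_univ s)
  rw [Finset.sum_eq_zero_iff_of_nonneg (fun s _ => by positivity)] at h1
  have h2 := h1 i (mem_univ i)
  simpa using h2

/-- polarisation: a bound for the quadratic form is a bound for the sesquilinear form -/
lemma mbd_of_quad (hρ : ∀ u, (ρ u)ᴴ = ρ u⁻¹) {lam : ℝ} (hlam : 0 ≤ lam)
    (h : ∀ c : Γ.V → ι → ℂ, ‖Γ.form ρ c c‖ ≤ lam * nv2 c) : MBd Γ ρ lam := by
  -- real parts
  have h1 : ∀ a b : Γ.V → ι → ℂ, (Γ.form ρ a b).re ≤ lam * (nv2 a + nv2 b) / 2 := by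
    intro a b
    have e1 : Γ.form ρ (a + b) (a + b) =
        Γ.form ρ a a + Γ.form ρ a b + Γ.form ρ b a + Γ.form ρ b b := by
      rw [form_add_left, form_add_right, form_add_right]; ring
    have e2 : Γ.form ρ (a + (-1 : ℂ) • b) (a + (-1 : ℂ) • b) =
        Γ.form ρ a a - Γ.form ρ a b - Γ.form ρ b a + Γ.form ρ b b := by
      rw [form_add_left, form_add_right, form_add_right, form_smul_left, form_smul_right,
        form_smul_left, form_smul_right]
      simp; ring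
    have e3 : (Γ.form ρ b a).re = (Γ.form ρ a b).re := by
      rw [form_herm Γ ρ hρ a b]; rfl
    have e4 : 4 * (Γ.form ρ a b).re = (Γ.form ρ (a + b) (a + b)).re -
        (Γ.form ρ (a + (-1 : ℂ) • b) (a + (-1 : ℂ) • b)).re := by
      rw [e1, e2]
      simp only [Complex.add_re, Complex.sub_re, e3]
      ring
    have b1 := (Complex.re_le_norm _).trans (h (a + b))
    have b2 := (neg_le_abs _).trans ((Complex.abs_re_le_norm _).trans (h (a + (-1 : ℂ) • b)))
    have b3 := nv2_par a b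
    nlinarith
  -- norms
  have h2 : ∀ a b : Γ.V → ι → ℂ, ‖Γ.form ρ a b‖ ≤ lam * (nv2 a + nv2 b) / 2 := by
    intro a b
    rcases eq_or_ne (Γ.form ρ a b) 0 with h0 | h0
    · rw [h0, norm_zero]
      have := nv2_nonneg a
      have := nv2_nonneg b
      positivity
    · set z : ℂ := star (Γ.form ρ a b) / ‖Γ.form ρ a b‖ with hz
      have hn : ‖Γ.form ρ a b‖ ≠ 0 := norm_ne_zero_iff.mpr h0
      have hz1 : ‖z‖ = 1 := by
        rw [hz, norm_div, norm_star, Complex.norm_real, norm_norm, div_self hn]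
      have h3 := h1 a (z • b)
      rw [form_smul_right, nv2_smul, hz1, one_pow, one_mul] at h3
      have h4 : z * Γ.form ρ a b = (‖Γ.form ρ a b‖ : ℂ) := by
        rw [hz, div_mul_eq_mul_div, show star (Γ.form ρ a b) * Γ.form ρ a b =
          (‖Γ.form ρ a b‖ : ℂ) ^ 2 from Complex.conj_mul' _]
        field_simp
      rw [h4, Complex.ofReal_re] at h3
      exact h3
  intro a b
  rcases eq_or_ne (nv2 a) 0 with ha | ha
  · have := nv2_eq_zero ha
    subst this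
    have e : Γ.form ρ 0 b = 0 := by
      have := form_smul_left Γ ρ 0 0 b
      simpa using this
    rw [e, norm_zero]
    positivity
  rcases eq_or_ne (nv2 b) 0 with hb | hb
  · have := nv2_eq_zero hb
    subst this
    have e : Γ.form ρ a 0 = 0 := by
      have := form_smul_right Γ ρ 0 a 0
      simpa using this
    rw [e, norm_zero]
    positivity
  have ha0 : 0 < nv2 a := lt_of_le_of_ne (nv2_nonneg a) (Ne.symm ha)
  have hb0 : 0 < nv2 b := lt_of_le_of_ne (nv2_nonneg b) (Ne.symm hb)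
  set x := Real.sqrt (nv2 a) with hx
  set y := Real.sqrt (nv2 b) with hy
  have hx0 : 0 < x := Real.sqrt_pos.mpr ha0
  have hy0 : 0 < y := Real.sqrt_pos.mpr hb0
  have hx2 : x ^ 2 = nv2 a := Real.sq_sqrt ha0.le
  have hy2 : y ^ 2 = nv2 b := Real.sq_sqrt hb0.le
  have h3 := h2 (((x⁻¹ : ℝ) : ℂ) • a) (((y⁻¹ : ℝ) : ℂ) • b)
  rw [form_smul_left, form_smul_right, nv2_smul, nv2_smul, norm_mul, norm_mul, norm_star,
    Complex.norm_real, Complex.norm_real, Real.norm_of_nonneg (by positivity),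
    Real.norm_of_nonneg (by positivity), ← hx2, ← hy2] at h3
  have h4 : x⁻¹ ^ 2 * x ^ 2 = 1 := by field_simp
  have h5 : y⁻¹ ^ 2 * y ^ 2 = 1 := by field_simp
  rw [h4, h5] at h3
  have h6 : x⁻¹ * (y⁻¹ * ‖Γ.form ρ a b‖) = ‖Γ.form ρ a b‖ / (x * y) := by field_simp
  rw [h6, div_le_iff₀ (by positivity)] at h3
  linarith

end polar

section sample

variable {R J n N d : ℕ}

/-- the graph of a sample from `LabE` -/
abbrev SGE (n : ℕ) {R J N : ℕ} (s : Fin N → LabE R J) : QG n := SG n (fun i => (s i : Lab R J))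

/-- the operator of a label -/
noncomputable def Uop {d : ℕ} (Dm : S3 → Matrix (Fin d) (Fin d) ℂ) (q : ℍ[ℤ]) :
    EuclideanSpace ℂ (Fin d) →ₗ[ℂ] EuclideanSpace ℂ (Fin d) :=
  Matrix.toEuclideanLin (Dm (usp q))

lemma inner_euc (x y : EuclideanSpace ℂ (Fin d)) :
    inner ℂ x y = star (WithLp.ofLp x) ⬝ᵥ WithLp.ofLp y := by
  rw [EuclideanSpace.inner_eq_star_dotProduct, dotProduct_comm]

lemma Uop_apply (Dm : S3 → Matrix (Fin d) (Fin d) ℂ) (q : ℍ[ℤ]) (x : EuclideanSpace ℂ (Fin d)) :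
    WithLp.ofLp (Uop Dm q x) = Dm (usp q) *ᵥ WithLp.ofLp x := rfl

lemma Uop_adj {Dm : S3 → Matrix (Fin d) (Fin d) ℂ} (hs : ∀ u, (Dm u)ᴴ = Dm u⁻¹) (q : ℍ[ℤ])
    (x y : EuclideanSpace ℂ (Fin d)) :
    inner ℂ (Uop Dm q x) y = inner ℂ x (Uop Dm (star q) y) := by
  rw [inner_euc, inner_euc, Uop_apply, Uop_apply, Matrix.star_mulVec, ← Matrix.dotProduct_mulVec,
    hs, usp_star]

lemma Uop_norm {Dm : S3 → Matrix (Fin d) (Fin d) ℂ} (hm : ∀ u v, Dm (u * v) = Dm v * Dm u)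
    (h1 : Dm 1 = 1) (hs : ∀ u, (Dm u)ᴴ = Dm u⁻¹) (q : ℍ[ℤ]) (x : EuclideanSpace ℂ (Fin d)) :
    ‖Uop Dm q x‖ = ‖x‖ := by
  have h : inner ℂ (Uop Dm q x) (Uop Dm q x) = inner ℂ x x := by
    rw [Uop_adj hs, inner_euc, inner_euc, Uop_apply, Uop_apply, Matrix.mulVec_mulVec, usp_star,
      ← hm, mul_inv_cancel, h1, Matrix.one_mulVec]
  rw [inner_self_eq_norm_sq_to_K, inner_self_eq_norm_sq_to_K] at h
  have h2 : ‖Uop Dm q x‖ ^ 2 = ‖x‖ ^ 2 := by exact_mod_cast h
  exact (sq_eq_sq₀ (norm_nonneg _) (norm_nonneg _)).mp h2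

lemma zero_notMem (hsq : ¬ IsSquare n) : (0 : LabE R J) ∉ Xset R J n := by
  unfold Xset
  rw [Finset.mem_filter]
  rintro ⟨-, h⟩
  apply hsq
  have e : kapL ((0 : LabE R J) : Lab R J) =
      ((1 + ∑ c : Idx R J, (2 : ℤ) ^ (c.2.2 : ℕ) : ℤ) : ℍ[ℤ]) := by
    unfold kapL
    have : ∀ c : Idx R J, ((2 : ℤ) ^ (c.2.2 : ℕ)) • iu c.1 ^
        (((0 : LabE R J) : Lab R J) c).val = (((2 : ℤ) ^ (c.2.2 : ℕ) : ℤ) : ℍ[ℤ]) := by
      intro c
      have h0 : (((0 : LabE R J) : Lab R J) c).val = 0 := by simp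
      rw [h0, pow_zero]
      simp
    simp only [this]
    push_cast
    rfl
  rw [e] at h
  have h2 : (n : ℤ) = (1 + ∑ c : Idx R J, (2 : ℤ) ^ (c.2.2 : ℕ)) *
      (1 + ∑ c : Idx R J, (2 : ℤ) ^ (c.2.2 : ℕ)) := by
    rw [← h, Quaternion.normSq_intCast]
    push_cast; ring
  have h3 : (n : ℤ) = ((1 + ∑ c : Idx R J, 2 ^ (c.2.2 : ℕ) : ℕ) : ℤ) *
      ((1 + ∑ c : Idx R J, 2 ^ (c.2.2 : ℕ) : ℕ) : ℤ) := by
    rw [h2]; push_cast; rfl
  exact ⟨1 + ∑ c : Idx R J, 2 ^ (c.2.2 : ℕ), by exact_mod_cast h3⟩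

lemma sum_sub {α M : Type*} [Fintype α] [AddCommMonoid M] (p : α → Prop) [DecidablePred p]
    [Fintype {a // p a}] (f : α → M) : ∑ e : {a // p a}, f e = ∑ a, if p a then f a else 0 := by
  rw [← Finset.sum_filter]
  exact (Finset.sum_subtype _ (by simp) f).symm

/-- the form of the graph of a sample -/
lemma form_SG (Dm : S3 → Matrix (Fin d) (Fin d) ℂ) (s : Fin N → LabE R J)
    (c : Fin N → Fin d → ℂ) :
    (SGE n s).form Dm c c = ∑ i, ∑ j, if s j - s i ∈ Xset R J n then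
      inner ℂ (WithLp.toLp 2 (c i) : EuclideanSpace ℂ (Fin d))
        (Uop Dm (kapL ((s j - s i : LabE R J) : Lab R J)) (WithLp.toLp 2 (c j))) else 0 := by
  have e1 : ∀ i j : Fin N, s j - s i ∈ Xset R J n ↔
      Quaternion.normSq (kapL ((s j : Lab R J) - (s i : Lab R J))) = n := by
    intro i j
    unfold Xset
    simp
  have e2 : (SGE n s).form Dm c c =
      ∑ e : {e : Fin N × Fin N // Quaternion.normSq (kapL ((s e.2 : Lab R J) - (s e.1 : Lab R J))) = n},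
        star (c e.1.1) ⬝ᵥ (Dm (usp (kapL ((s e.1.2 : Lab R J) - (s e.1.1 : Lab R J)))) *ᵥ
          c e.1.2) := by
    unfold QG.form
    refine Fintype.sum_congr _ _ fun e => rfl
  rw [e2]
  classical
  refine (sum_sub (fun e : Fin N × Fin N =>
    Quaternion.normSq (kapL ((s e.2 : Lab R J) - (s e.1 : Lab R J))) = n)
    (fun e : Fin N × Fin N => star (c e.1) ⬝ᵥ
      (Dm (usp (kapL ((s e.2 : Lab R J) - (s e.1 : Lab R J)))) *ᵥ c e.2))).trans ?_
  · rw [Fintype.sum_prod_type]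
    refine Finset.sum_congr rfl fun i _ => Finset.sum_congr rfl fun j _ => ?_
    by_cases h : Quaternion.normSq (kapL ((s j : Lab R J) - (s i : Lab R J))) = n
    · rw [if_pos h, if_pos ((e1 i j).mpr h), inner_euc, Uop_apply]
      rfl
    · rw [if_neg h, if_neg (fun h' => h ((e1 i j).mp h'))]

/-- LOW for the random sample. -/
theorem Y_low (hF3 : F.Stmt_F3) : ∃ R0 : ℕ, ∀ R J n : ℕ, R0 ≤ R → Even R → 1 ≤ n →
    n * R ^ 60 ≤ 4 ^ J → 1000 * J ≤ R → ¬ IsSquare n →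
    ∀ (d : ℕ) (Dm : S3 → Matrix (Fin d) (Fin d) ℂ), (∀ u v, Dm (u * v) = Dm v * Dm u) →
    Dm 1 = 1 → (∀ u, (Dm u)ᴴ = Dm u⁻¹) → ∀ δ : ℝ, 0 ≤ δ →
    (∀ x : EuclideanSpace ℂ (Fin d), ‖∑ q ∈ sph n, Matrix.toEuclideanLin (Dm (usp q)) x‖ ≤
      δ * Rp n * ‖x‖) →
    ∀ (N k : ℕ) (lam : ℝ), 1 ≤ k → 0 < lam →
    64 * ((N * ((4 * δ + ((R : ℝ) ^ 20)⁻¹) * (Xset R J n).card) / Fintype.card (LabE R J)) ^ 2 +
      k * (N * (Xset R J n).card / Fintype.card (LabE R J)) + (k : ℝ) ^ 2) ≤ lam ^ 2 →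
    20 * (N : ℝ) * Fintype.card (LabE R J) * (d : ℝ) ^ 2 ≤ 2 ^ k →
    Pr (fun s : Fin N → LabE R J => ¬ MBd (SGE n s) Dm lam) ≤ 1 / 10 := by
  obtain ⟨R0, hR0⟩ := hF3
  refine ⟨R0, ?_⟩
  intro R J n hR hRe hn hnJ hJ hsq d Dm hm h1 hs δ hδ hsum N k lam hk hlam hW hN
  classical
  have hc : (0:ℝ) < Fintype.card (LabE R J) := by exact_mod_cast Fintype.card_pos
  set P : (Fin N → LabE R J) → Prop := fun s => ¬ MBd (SGE n s) Dm lam with hP
  have key := Pool.Agent.BQ.X.low_char (Ω := LabE R J) (G := LabE R J) (ι := Fin N)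
    (H := EuclideanSpace ℂ (Fin d)) id Function.injective_id (Xset R J n) ?_ (zero_notMem hsq)
    (fun h => Uop Dm (kapL (h : Lab R J))) (fun h _ x => (Uop_norm hm h1 hs _ x).le) ?_
    (β := (4 * δ + ((R : ℝ) ^ 20)⁻¹) * (Xset R J n).card) ?_ (k := k) (by omega) hlam
    (univ.filter P) ?_
  · -- conclusion
    have hcard : (Fintype.card (Fin N → LabE R J) : ℝ) = (Fintype.card (LabE R J) : ℝ) ^ N := by
      rw [Fintype.card_fun, Fintype.card_fin]; push_cast; rfl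
    rw [Fintype.card_fin, finrank_euclideanSpace, Fintype.card_fin] at key
    set W : ℝ := (N * ((4 * δ + ((R : ℝ) ^ 20)⁻¹) * (Xset R J n).card) /
      Fintype.card (LabE R J)) ^ 2 +
      k * (N * (Xset R J n).card / Fintype.card (LabE R J)) + (k : ℝ) ^ 2 with hWdef
    have h2 : 32 * W / lam ^ 2 ≤ 1 / 2 := by
      rw [div_le_iff₀ (by positivity)]; linarith
    have hW0 : 0 ≤ W := by positivity
    have h3 : (32 * W / lam ^ 2) ^ k ≤ (1 / 2) ^ k := pow_le_pow_left₀ (by positivity) h2 k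
    have h4 : (2 * (N : ℝ) * Fintype.card (LabE R J) * (d : ℝ) ^ 2) * (32 * W / lam ^ 2) ^ k ≤
        1 / 10 := by
      refine (mul_le_mul_of_nonneg_left h3 (by positivity)).trans ?_
      rw [one_div, inv_pow, ← div_eq_mul_inv, div_le_iff₀ (by positivity)]
      linarith
    have h5 : ((univ.filter P).card : ℝ) ≤ (Fintype.card (LabE R J) : ℝ) ^ N * (1 / 10) :=
      key.trans (mul_le_mul_of_nonneg_left h4 (by positivity))
    unfold Pr
    rw [hcard, div_le_iff₀ (by positivity)]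
    have h6 := h5.trans (le_of_eq (mul_comm _ _))
    convert h6
  · intro h hh
    unfold Xset at hh ⊢
    rw [Finset.mem_filter] at hh ⊢
    refine ⟨mem_univ _, ?_⟩
    have : ((-h : LabE R J) : Lab R J) = -(h : Lab R J) := rfl
    rw [this, kapL_neg]
    exact (Quaternion.normSq_star _).trans hh.2
  · intro h _ x y
    have : ((-h : LabE R J) : Lab R J) = -(h : Lab R J) := rfl
    rw [this, kapL_neg]
    exact Uop_adj hs _ x y
  · intro ψ x
    exact hR0 R J n hR hRe hn hnJ hJ ψ (EuclideanSpace ℂ (Fin d)) (fun q => Uop Dm q) δ x hδ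
      (fun q _ => (Uop_norm hm h1 hs q x).le) (hsum x)
  · intro s hsP
    by_contra hcon
    push Not at hcon
    have hsP' : ¬ MBd (SGE n s) Dm lam := (Finset.mem_filter.mp hsP).2
    apply hsP'
    refine mbd_of_quad (SGE n s) Dm hs hlam.le fun c => ?_
    have h2 := hcon (fun i => (WithLp.toLp 2 (c i) : EuclideanSpace ℂ (Fin d)))
    refine (le_of_eq (congrArg norm (form_SG Dm s c))).trans (h2.trans (le_of_eq ?_))
    congr 1
    unfold nv2
    refine Finset.sum_congr rfl fun i _ => ?_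
    rw [EuclideanSpace.norm_sq_eq]

end sample

end BQA.Y
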