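import Mathlib

/-!
# BQ, numbers: the trace bound at high frequencies (PAPER.md, 7.5)
-/

namespace BQA

theorem Z_exp_pow {x y : ℝ} (hx : 0 < x) (m : ℕ) (h : Real.log x ≤ y) :
    x ^ m ≤ Real.exp (m * y) := by
  have h1 : x ≤ Real.exp y := by
    rw [← Real.log_le_iff_le_exp hx]
    exact h
  calc x ^ m ≤ (Real.exp y) ^ m := pow_le_pow_left₀ hx.le h1 m
    _ = Real.exp (m * y) := by rw [← Real.exp_nat_mul]

/-- the choice of `m` and the comparison of the two terms -/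
theorem Z_hf {K5 : ℝ} (hK5 : 0 < K5) : ∃ p0 : ℝ, 1 < p0 ∧ ∀ p : ℝ, p0 ≤ p → ∀ n : ℝ, p ≤ n →
    n ≤ p ^ (1.01 : ℝ) → ∀ V Δ B : ℝ, 0 < V → V ≤ p ^ 3 → 0 < Δ → Δ ≤ 4 * p ^ (0.95 : ℝ) →
    p ^ (0.94 : ℝ) ≤ B → ∀ l : ℕ, n ^ 80 ≤ l → ∃ m : ℕ, 1 ≤ m ∧
      4 * V * (l + 1) ^ 2 * (4 * 150 * Δ) ^ m +
        K5 * V * (4 * 150 ^ 2 * n ^ (2.2 : ℝ)) ^ m / (l + 1) ≤ B ^ (2 * m) := by
  refine ⟨Real.exp (1000 + 100 * |Real.log (4 * K5)|), ?_, ?_⟩
  · rw [← Real.exp_zero]
    exact Real.exp_lt_exp.mpr (by positivity)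
  intro p hp n hn1 hn2 V Δ B hV0 hV hΔ0 hΔ hB l hl
  have hp0 : 0 < p := (Real.exp_pos _).trans_le hp
  set P : ℝ := Real.log p with hP
  have hPb : 1000 + 100 * |Real.log (4 * K5)| ≤ P := by
    rw [hP, Real.le_log_iff_exp_le hp0]
    exact hp
  have habs := abs_nonneg (Real.log (4 * K5))
  have hlabs := le_abs_self (Real.log (4 * K5))
  have hP1000 : 1000 ≤ P := by linarith
  have hn0 : 0 < n := hp0.trans_le hn1
  set Nn : ℝ := Real.log n with hNn
  have hN1 : P ≤ Nn := Real.log_le_log hp0 hn1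
  have hN2 : Nn ≤ 1.01 * P := by
    have := Real.log_le_log hn0 hn2
    rwa [Real.log_rpow hp0] at this
  have hl0 : (0 : ℝ) < l + 1 := by positivity
  have hl1 : (0 : ℝ) < l + 2 := by positivity
  set Lg : ℝ := Real.log (l + 2) with hLg
  have hLg80 : 80 * Nn ≤ Lg := by
    have h1 : n ^ 80 ≤ (l : ℝ) + 2 := hl.trans (by linarith)
    have h2 := Real.log_le_log (pow_pos hn0 80) h1
    rw [Real.log_pow] at h2
    rw [hNn, hLg]
    have e : ((80 : ℕ) : ℝ) = 80 := by norm_num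
    rw [e] at h2
    exact h2
  -- the exponent
  have hNpos : 0 < Nn := by linarith
  set m : ℕ := ⌈13 * Lg / (5 * Nn)⌉₊ with hm
  have hm1 : 13 * Lg ≤ 5 * m * Nn := by
    have h1 : 13 * Lg / (5 * Nn) ≤ m := Nat.le_ceil _
    rw [div_le_iff₀ (by positivity)] at h1
    linarith
  have hm2 : 5 * ((m : ℝ) - 1) * Nn ≤ 13 * Lg := by
    have h1 : (m : ℝ) < 13 * Lg / (5 * Nn) + 1 := Nat.ceil_lt_add_one (by
      have : 0 ≤ Lg := by nlinarith
      positivity)
    have h2 : (m : ℝ) - 1 ≤ 13 * Lg / (5 * Nn) := by linarith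
    rw [le_div_iff₀ (by positivity)] at h2
    linarith
  have hm208 : (208 : ℝ) ≤ m := by
    by_contra hcon
    push Not at hcon
    have h1 : 13 * (80 * Nn) ≤ 5 * m * Nn := le_trans (by linarith) hm1
    nlinarith
  have hm0 : (0 : ℝ) ≤ m := by linarith
  refine ⟨m, by
    have : (1 : ℝ) ≤ m := by linarith
    exact_mod_cast this, ?_⟩
  have hB0 : 0 < B := (Real.rpow_pos_of_pos hp0 _).trans_le hB
  have hlB : 0.94 * P ≤ Real.log B := by
    have := Real.log_le_log (Real.rpow_pos_of_pos hp0 _) hB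
    rwa [Real.log_rpow hp0] at this
  have hBm : Real.exp (2 * m * (0.94 * P)) ≤ B ^ (2 * m) := by
    have h1 : Real.exp (0.94 * P) ≤ B := by
      rw [← Real.le_log_iff_exp_le hB0]; exact hlB
    calc Real.exp (2 * m * (0.94 * P)) = (Real.exp (0.94 * P)) ^ (2 * m) := by
          rw [← Real.exp_nat_mul]; push_cast; ring_nf
      _ ≤ _ := pow_le_pow_left₀ (Real.exp_pos _).le h1 _
  have hlV : V ≤ Real.exp (3 * P) := by
    calc V ≤ p ^ 3 := hV
      _ ≤ Real.exp (3 * P) := by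
        have := Z_exp_pow hp0 3 (le_refl P)
        exact_mod_cast this
  have hll : (l + 1 : ℝ) ≤ Real.exp Lg := by
    rw [hLg, Real.exp_log hl1]; linarith
  have hlog2400 : Real.log 2400 ≤ 8 := by
    rw [Real.log_le_iff_le_exp (by norm_num)]
    have h1 : (2.7182818283 : ℝ) < Real.exp 1 := Real.exp_one_gt_d9
    have h2 : Real.exp 8 = Real.exp 1 ^ 8 := by rw [← Real.exp_nat_mul]; norm_num
    rw [h2]
    calc (2400 : ℝ) ≤ 2.7182818283 ^ 8 := by norm_num
      _ ≤ _ := pow_le_pow_left₀ (by norm_num) h1.le 8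
  have hlog90000 : Real.log 90000 ≤ 12 := by
    rw [Real.log_le_iff_le_exp (by norm_num)]
    have h1 : (2.7182818283 : ℝ) < Real.exp 1 := Real.exp_one_gt_d9
    have h2 : Real.exp 12 = Real.exp 1 ^ 12 := by rw [← Real.exp_nat_mul]; norm_num
    rw [h2]
    calc (90000 : ℝ) ≤ 2.7182818283 ^ 12 := by norm_num
      _ ≤ _ := pow_le_pow_left₀ (by norm_num) h1.le 12
  have h8 : (8 : ℝ) ≤ Real.exp 3 := by
    have h1 : (2.7182818283 : ℝ) < Real.exp 1 := Real.exp_one_gt_d9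
    have h2 : Real.exp 3 = Real.exp 1 ^ 3 := by rw [← Real.exp_nat_mul]; norm_num
    rw [h2]
    calc (8 : ℝ) ≤ 2.7182818283 ^ 3 := by norm_num
      _ ≤ _ := pow_le_pow_left₀ (by norm_num) h1.le 3
  -- the first term
  have hT1 : 4 * V * (l + 1) ^ 2 * (4 * 150 * Δ) ^ m ≤ Real.exp (2 * m * (0.94 * P)) / 2 := by
    have h1 : (4 * 150 * Δ) ^ m ≤ Real.exp (m * (8 + 0.95 * P)) := by
      refine Z_exp_pow (by positivity) m ?_
      have h2 : 4 * 150 * Δ ≤ 2400 * p ^ (0.95 : ℝ) := by linarith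
      refine (Real.log_le_log (by positivity) h2).trans ?_
      rw [Real.log_mul (by norm_num) (Real.rpow_pos_of_pos hp0 _).ne', Real.log_rpow hp0]
      linarith
    have h3 : ((l : ℝ) + 1) ^ 2 ≤ Real.exp (2 * Lg) := by
      calc ((l : ℝ) + 1) ^ 2 ≤ (Real.exp Lg) ^ 2 := pow_le_pow_left₀ hl0.le hll 2
        _ = _ := by rw [← Real.exp_nat_mul]; norm_num
    have h4 : 2 * (4 * V * (l + 1) ^ 2 * (4 * 150 * Δ) ^ m) ≤
        Real.exp 3 * Real.exp (3 * P) * Real.exp (2 * Lg) * Real.exp (m * (8 + 0.95 * P)) := by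
      have e1 : 8 * V ≤ Real.exp 3 * Real.exp (3 * P) :=
        mul_le_mul h8 hlV hV0.le (Real.exp_pos _).le
      have e2 : 8 * V * (l + 1) ^ 2 ≤ Real.exp 3 * Real.exp (3 * P) * Real.exp (2 * Lg) :=
        mul_le_mul e1 h3 (by positivity) (by positivity)
      have e3 := mul_le_mul e2 h1 (by positivity) (by positivity)
      calc 2 * (4 * V * (l + 1) ^ 2 * (4 * 150 * Δ) ^ m) =
          8 * V * (l + 1) ^ 2 * (4 * 150 * Δ) ^ m := by ring
        _ ≤ _ := e3
    rw [← Real.exp_add, ← Real.exp_add, ← Real.exp_add] at h4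
    have h5 : Real.exp (3 + 3 * P + 2 * Lg + m * (8 + 0.95 * P)) ≤
        Real.exp (2 * m * (0.94 * P)) := by
      apply Real.exp_le_exp.mpr
      have a1 : 2 * Lg ≤ 10 / 13 * m * (1.01 * P) := by
        have : 13 * Lg ≤ 5 * m * (1.01 * P) := hm1.trans (by
          have : 5 * (m : ℝ) * Nn ≤ 5 * m * (1.01 * P) := by
            exact mul_le_mul_of_nonneg_left hN2 (by positivity)
          exact this)
        linarith
      have a2 : 208 * P ≤ m * P := mul_le_mul_of_nonneg_right hm208 (by linarith)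
      have a3 : 1000 * (m : ℝ) ≤ m * P := by
        rw [mul_comm]; exact mul_le_mul_of_nonneg_left hP1000 hm0
      nlinarith
    linarith [h4.trans h5]
  have hT2 : K5 * V * (4 * 150 ^ 2 * n ^ (2.2 : ℝ)) ^ m / (l + 1) ≤
      Real.exp (2 * m * (0.94 * P)) / 2 := by
    have h1 : (4 * 150 ^ 2 * n ^ (2.2 : ℝ)) ^ m ≤ Real.exp (m * (12 + 2.222 * P)) := by
      refine Z_exp_pow (by positivity) m ?_
      rw [Real.log_mul (by norm_num) (Real.rpow_pos_of_pos hn0 _).ne', Real.log_rpow hn0]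
      have : Real.log (4 * 150 ^ 2) ≤ 12 := by norm_num; exact hlog90000
      nlinarith
    have h2 : 4 * K5 ≤ Real.exp (0.01 * P) := by
      rw [← Real.log_le_iff_le_exp (by positivity)]
      linarith
    have h3 : Real.exp (5 / 13 * (m - 1) * P) ≤ 2 * ((l : ℝ) + 1) := by
      have h4 : Real.exp (5 / 13 * (m - 1) * P) ≤ (l : ℝ) + 2 := by
        rw [← Real.le_log_iff_exp_le hl1]
        have : 5 * ((m : ℝ) - 1) * P ≤ 5 * ((m : ℝ) - 1) * Nn :=
          mul_le_mul_of_nonneg_left hN1 (by linarith)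
        rw [← hLg]
        linarith
      have : (0 : ℝ) ≤ l := Nat.cast_nonneg l
      linarith
    rw [div_le_iff₀ hl0]
    have h5 : K5 * V * (4 * 150 ^ 2 * n ^ (2.2 : ℝ)) ^ m ≤
        Real.exp (0.01 * P) / 4 * Real.exp (3 * P) * Real.exp (m * (12 + 2.222 * P)) := by
      have e1 : K5 * V ≤ Real.exp (0.01 * P) / 4 * Real.exp (3 * P) :=
        mul_le_mul (by linarith) hlV hV0.le (by positivity)
      exact mul_le_mul e1 h1 (by positivity) (by positivity)
    refine h5.trans ?_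
    have h6 : Real.exp (0.01 * P) * Real.exp (3 * P) * Real.exp (m * (12 + 2.222 * P)) ≤
        Real.exp (2 * m * (0.94 * P)) * Real.exp (5 / 13 * (m - 1) * P) := by
      rw [← Real.exp_add, ← Real.exp_add, ← Real.exp_add]
      apply Real.exp_le_exp.mpr
      have a2 : 208 * P ≤ m * P := mul_le_mul_of_nonneg_right hm208 (by linarith)
      have a3 : 1000 * (m : ℝ) ≤ m * P := by
        rw [mul_comm]; exact mul_le_mul_of_nonneg_left hP1000 hm0
      nlinarith
    have h7 : Real.exp (2 * m * (0.94 * P)) * Real.exp (5 / 13 * (m - 1) * P) ≤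
        Real.exp (2 * m * (0.94 * P)) * (2 * ((l : ℝ) + 1)) :=
      mul_le_mul_of_nonneg_left h3 (Real.exp_pos _).le
    calc Real.exp (0.01 * P) / 4 * Real.exp (3 * P) * Real.exp (m * (12 + 2.222 * P)) =
        (Real.exp (0.01 * P) * Real.exp (3 * P) * Real.exp (m * (12 + 2.222 * P))) / 4 := by ring
      _ ≤ (Real.exp (2 * m * (0.94 * P)) * (2 * ((l : ℝ) + 1))) / 4 := by
        linarith [h6.trans h7]
      _ = _ := by ring
  calc _ ≤ Real.exp (2 * m * (0.94 * P)) / 2 + Real.exp (2 * m * (0.94 * P)) / 2 :=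
        add_le_add hT1 hT2
    _ = Real.exp (2 * m * (0.94 * P)) := by ring
    _ ≤ _ := hBm

end BQA
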