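import Mathlib

/-!
# BQ, numbers: the exponent `a` of the auxiliary prime and the number of levels `J`
-/

open Filter Topology

namespace BQA

/-- a power of `R` beats a power of `log R` -/
theorem Z_log_pow (k : ℕ) (C : ℝ) {s : ℝ} (hs : 0 < s) :
    ∀ᶠ R : ℕ in atTop, C * Real.log R ^ k ≤ (R : ℝ) ^ s := by
  have h1 : (fun x : ℝ => Real.log x ^ (k : ℝ)) =o[atTop] fun x => x ^ s :=
    isLittleO_log_rpow_rpow_atTop (k : ℝ) hs
  have h2 : ∀ᶠ x : ℝ in atTop, ‖Real.log x ^ (k : ℝ)‖ ≤ (1 / (|C| + 1)) * ‖x ^ s‖ :=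
    h1.bound (by positivity)
  have h3 := tendsto_natCast_atTop_atTop.eventually h2
  filter_upwards [h3, eventually_ge_atTop 1] with R hR hR1
  have hR0 : (0 : ℝ) < R := by exact_mod_cast hR1
  have hl : 0 ≤ Real.log R := Real.log_natCast_nonneg R
  rw [Real.rpow_natCast, Real.norm_of_nonneg (by positivity),
    Real.norm_of_nonneg (by positivity)] at hR
  have h4 : (|C| + 1) * Real.log R ^ k ≤ (R : ℝ) ^ s := by
    have h5 := mul_le_mul_of_nonneg_left hR (show 0 ≤ |C| + 1 by positivity)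
    calc _ ≤ _ := h5
      _ = (R : ℝ) ^ s := by field_simp
  have h6 : C * Real.log R ^ k ≤ (|C| + 1) * Real.log R ^ k :=
    mul_le_mul_of_nonneg_right (by linarith [le_abs_self C]) (by positivity)
  exact h6.trans h4

/-- the exponent of the auxiliary prime -/
theorem Z_a {gam : ℝ} (h0 : 0 < gam) (h1 : gam < 1) {p2 : ℕ} (hp2 : 2 ≤ p2) (M : ℕ) :
    ∃ C3 : ℕ, ∀ᶠ R : ℕ in atTop, ∃ a : ℕ,
      2 * ((a : ℝ) + 1) * gam ^ a ≤ ((R : ℝ) ^ M)⁻¹ ∧ p2 ^ a ≤ R ^ C3 := by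
  set g : ℝ := Real.sqrt gam with hg
  have hg0 : 0 < g := Real.sqrt_pos.mpr h0
  have hg1 : g < 1 := by
    rw [hg, Real.sqrt_lt' one_pos]; simpa using h1
  have hgg : g ^ 2 = gam := Real.sq_sqrt h0.le
  have hlg : Real.log g < 0 := Real.log_neg hg0 hg1
  set A : ℝ := M / (-Real.log g) with hA
  have hA0 : 0 ≤ A := by
    rw [hA]; apply div_nonneg (by positivity); linarith
  -- `(a + 1) g ^ a → 0`
  have ht : Tendsto (fun a : ℕ => 2 * ((a : ℝ) + 1) * g ^ a) atTop (𝓝 0) := by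
    have t1 : Tendsto (fun a : ℕ => (a : ℝ) ^ 1 * g ^ a) atTop (𝓝 0) :=
      tendsto_pow_const_mul_const_pow_of_lt_one 1 hg0.le hg1
    have t2 : Tendsto (fun a : ℕ => g ^ a) atTop (𝓝 0) :=
      tendsto_pow_atTop_nhds_zero_of_lt_one hg0.le hg1
    have t3 := (t1.add t2).const_mul 2
    simp only [add_zero, mul_zero] at t3
    refine t3.congr fun a => ?_
    ring
  have h2 : ∀ᶠ a : ℕ in atTop, 2 * ((a : ℝ) + 1) * g ^ a ≤ 1 :=
    (ht.eventually (gt_mem_nhds one_pos)).mono fun a ha => le_of_lt ha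
  obtain ⟨a0, ha0⟩ := eventually_atTop.mp h2
  set a0' : ℝ := (a0 : ℝ) with ha0'
  set A' : ℝ := A + 1 with hA'
  set C3 : ℕ := ⌈A' * Real.log p2⌉₊ + 1 with hC3
  refine ⟨C3, ?_⟩
  have e1 : ∀ᶠ R : ℕ in atTop, a0' ≤ Real.log R := by
    have : Tendsto (fun R : ℕ => Real.log (R : ℝ)) atTop atTop :=
      Real.tendsto_log_atTop.comp tendsto_natCast_atTop_atTop
    exact this.eventually_ge_atTop a0'
  filter_upwards [e1, eventually_ge_atTop p2] with R hR hRp
  have hR2 : 2 ≤ R := hp2.trans hRp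
  have hR0 : (0 : ℝ) < R := by
    have : 0 < R := by omega
    exact_mod_cast this
  have hlR : 0 ≤ Real.log R := Real.log_natCast_nonneg R
  set a : ℕ := ⌈A' * Real.log R⌉₊ with ha
  have ha1 : A' * Real.log R ≤ a := Nat.le_ceil _
  have ha2 : (a : ℝ) < A' * Real.log R + 1 := Nat.ceil_lt_add_one (by positivity)
  have haa : a0 ≤ a := by
    have : (a0 : ℝ) ≤ a := by
      have : A' * Real.log R = A * Real.log R + Real.log R := by rw [hA']; ring
      nlinarith [mul_nonneg hA0 hlR]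
    exact_mod_cast this
  refine ⟨a, ?_, ?_⟩
  · have h3 := ha0 a haa
    have h4 : g ^ a ≤ ((R : ℝ) ^ M)⁻¹ := by
      have h5 : g ^ a = Real.exp (a * Real.log g) := by
        rw [Real.exp_nat_mul, Real.exp_log hg0]
      have h6 : ((R : ℝ) ^ M)⁻¹ = Real.exp (-(M * Real.log R)) := by
        rw [Real.exp_neg, Real.exp_nat_mul, Real.exp_log hR0]
      rw [h5, h6]
      apply Real.exp_le_exp.mpr
      have h7 : A * (-Real.log g) = M := by
        rw [hA, div_mul_cancel₀ _ (neg_pos.mpr hlg).ne']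
      have h8 : A * Real.log R ≤ a := by
        have : A' * Real.log R = A * Real.log R + Real.log R := by rw [hA']; ring
        linarith
      have h9 : A * Real.log R * (-Real.log g) ≤ a * (-Real.log g) :=
        mul_le_mul_of_nonneg_right h8 (by linarith)
      have h10 : A * Real.log R * (-Real.log g) = M * Real.log R := by
        rw [← h7]; ring
      linarith
    calc 2 * ((a : ℝ) + 1) * gam ^ a = 2 * ((a : ℝ) + 1) * g ^ a * g ^ a := by
          rw [← hgg, ← pow_mul, mul_assoc (2 * ((a : ℝ) + 1)), ← pow_add]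
          congr 2
          ring
      _ ≤ 1 * g ^ a := mul_le_mul_of_nonneg_right h3 (pow_pos hg0 a).le
      _ = g ^ a := one_mul _
      _ ≤ _ := h4
  · have hp20 : (0 : ℝ) < p2 := by
      have : 0 < p2 := by omega
      exact_mod_cast this
    have hlp : 0 ≤ Real.log p2 := Real.log_natCast_nonneg p2
    have h3 : ((p2 : ℝ)) ^ a ≤ (R : ℝ) ^ C3 := by
      have h5 : (p2 : ℝ) ^ a = Real.exp (a * Real.log p2) := by
        rw [Real.exp_nat_mul, Real.exp_log hp20]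
      have h6 : (R : ℝ) ^ C3 = Real.exp (C3 * Real.log R) := by
        rw [Real.exp_nat_mul, Real.exp_log hR0]
      rw [h5, h6]
      apply Real.exp_le_exp.mpr
      have h7 : A' * Real.log p2 ≤ ⌈A' * Real.log p2⌉₊ := Nat.le_ceil _
      have h8 : (C3 : ℝ) = (⌈A' * Real.log p2⌉₊ : ℝ) + 1 := by rw [hC3]; push_cast; ring
      have h9 : Real.log p2 ≤ Real.log R := Real.log_le_log hp20 (by exact_mod_cast hRp)
      rw [h8]
      have h10 : (a : ℝ) * Real.log p2 ≤ (A' * Real.log R + 1) * Real.log p2 :=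
        mul_le_mul_of_nonneg_right ha2.le hlp
      have h11 : A' * Real.log p2 * Real.log R ≤ (⌈A' * Real.log p2⌉₊ : ℝ) * Real.log R :=
        mul_le_mul_of_nonneg_right h7 hlR
      nlinarith
    exact_mod_cast h3

/-- the number of levels -/
theorem Z_J (K : ℕ) : ∀ᶠ R : ℕ in atTop, ∀ n : ℕ, 1 ≤ n → n ≤ R ^ K → ∃ J : ℕ, 1 ≤ J ∧
    n * R ^ 60 ≤ 4 ^ J ∧ 4 ^ J ≤ 4 * (n * R ^ 60) ∧ 1000 * J ≤ R ∧ J ^ 2 ≤ R ∧
    (4 * ((3 * R * J + 1) + (3 * R * J + 1) ^ 2 : ℝ)) ≤ (R : ℝ) ^ (2.1 : ℝ) := by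
  have e1 := Z_log_pow 1 (1000 * ((K : ℝ) + 62)) (s := 1) one_pos
  have e2 := Z_log_pow 2 (128 * ((K : ℝ) + 62) ^ 2) (s := 0.1) (by norm_num)
  have e3 := Z_log_pow 2 (((K : ℝ) + 62) ^ 2) (s := 1) one_pos
  filter_upwards [e1, e2, e3, eventually_ge_atTop 3] with R h1 h2 h2' hR3
  intro n hn hnK
  have hR0 : (0 : ℝ) < R := by
    have : 0 < R := by omega
    exact_mod_cast this
  have hR0' : 0 < R := by omega
  have hlR : 1 ≤ Real.log R := by
    rw [Real.le_log_iff_exp_le hR0]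
    have h3 : Real.exp 1 < 2.7182818286 := Real.exp_one_lt_d9
    have h4 : (3 : ℝ) ≤ R := by exact_mod_cast hR3
    linarith
  -- J
  set x : ℕ := n * R ^ 60 with hx
  have hx1 : 1 ≤ x := Nat.one_le_iff_ne_zero.mpr (by positivity)
  have hx4 : 1 < x := by
    have : 1 < R ^ 60 := Nat.one_lt_pow (by norm_num) (by omega)
    calc 1 < R ^ 60 := this
      _ ≤ n * R ^ 60 := Nat.le_mul_of_pos_left _ hn
  set J : ℕ := Nat.clog 4 x with hJ
  have hJ1 : x ≤ 4 ^ J := Nat.le_pow_clog (by norm_num) x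
  have hJ0 : 0 < J := Nat.clog_pos (by norm_num) hx4
  have hJ2 : 4 ^ (J - 1) < x := Nat.pow_pred_clog_lt_self (by norm_num) hx4
  have hJ3 : 4 ^ J ≤ 4 * x := by
    obtain ⟨j, hj⟩ : ∃ j, J = j + 1 := ⟨J - 1, by omega⟩
    rw [hj] at hJ2 ⊢
    simp only [Nat.add_sub_cancel] at hJ2
    rw [pow_succ]
    omega
  -- upper bound of J
  have hJR : (J : ℝ) ≤ (K + 62) * Real.log R := by
    have h3 : (4 : ℝ) ^ J ≤ 4 * ((R : ℝ) ^ K * (R : ℝ) ^ 60) := by
      have : 4 ^ J ≤ 4 * (R ^ K * R ^ 60) :=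
        hJ3.trans (Nat.mul_le_mul_left 4 (Nat.mul_le_mul_right _ hnK))
      exact_mod_cast this
    have h4 : (J : ℝ) * Real.log 4 ≤ Real.log 4 + (K + 60) * Real.log R := by
      have h5 := Real.log_le_log (by positivity) h3
      rw [Real.log_pow, ← pow_add, Real.log_mul (by norm_num) (by positivity), Real.log_pow] at h5
      push_cast at h5
      exact h5
    have h5 : 1 ≤ Real.log 4 := by
      rw [Real.le_log_iff_exp_le (by norm_num)]
      have h3 : Real.exp 1 < 2.7182818286 := Real.exp_one_lt_d9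
      linarith
    have h6 : Real.log 4 ≤ 2 := by
      rw [Real.log_le_iff_le_exp (by norm_num)]
      have h7 : (2.7182818283 : ℝ) < Real.exp 1 := Real.exp_one_gt_d9
      have h8 : Real.exp 2 = Real.exp 1 ^ 2 := by rw [← Real.exp_nat_mul]; norm_num
      rw [h8]
      nlinarith
    have h7 : (J : ℝ) ≤ J * Real.log 4 := by
      have : (0 : ℝ) ≤ J := Nat.cast_nonneg J
      nlinarith
    linarith
  refine ⟨J, hJ0, hJ1, hJ3, ?_, ?_, ?_⟩
  · have h3 : (1000 * J : ℝ) ≤ R := by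
      rw [Real.rpow_one, pow_one] at h1
      calc (1000 * J : ℝ) ≤ 1000 * ((K + 62) * Real.log R) := by linarith
        _ = 1000 * ((K : ℝ) + 62) * Real.log R := by ring
        _ ≤ R := h1
    exact_mod_cast h3
  · have h3 : ((J : ℝ) ^ 2) ≤ R := by
      rw [Real.rpow_one] at h2'
      have h5 : (J : ℝ) ^ 2 ≤ ((K + 62) * Real.log R) ^ 2 :=
        pow_le_pow_left₀ (Nat.cast_nonneg J) hJR 2
      calc (J : ℝ) ^ 2 ≤ ((K + 62) * Real.log R) ^ 2 := h5
        _ = ((K : ℝ) + 62) ^ 2 * Real.log R ^ 2 := by ring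
        _ ≤ R := h2'
    exact_mod_cast h3
  · have hJ1' : (1 : ℝ) ≤ J := by exact_mod_cast hJ0
    have hR1 : (1 : ℝ) ≤ R := by exact_mod_cast hR0'
    have hRJ : (1 : ℝ) ≤ R * J := one_le_mul_of_one_le_of_one_le hR1 hJ1'
    have h3 : (4 * ((3 * R * J + 1) + (3 * R * J + 1) ^ 2 : ℝ)) ≤ 128 * (R * J) ^ 2 := by
      have e : (3 * R * J : ℝ) = 3 * (R * J) := by ring
      rw [e]
      set y : ℝ := R * J
      have hy : y ≤ y ^ 2 := by
        rw [pow_two]; exact le_mul_of_one_le_left (by linarith) hRJ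
      have hy1 : (1 : ℝ) ≤ y ^ 2 := hRJ.trans hy
      calc (4 * (3 * y + 1 + (3 * y + 1) ^ 2) : ℝ) = 36 * y ^ 2 + 36 * y + 8 := by ring
        _ ≤ 128 * y ^ 2 := by linarith
    have h4 : (128 * (R * J) ^ 2 : ℝ) ≤ R ^ 2 * (128 * ((K : ℝ) + 62) ^ 2 * Real.log R ^ 2) := by
      have h5 : (J : ℝ) ^ 2 ≤ ((K + 62) * Real.log R) ^ 2 := pow_le_pow_left₀ (by linarith) hJR 2
      calc (128 * (R * J) ^ 2 : ℝ) = 128 * R ^ 2 * J ^ 2 := by ring
        _ ≤ 128 * R ^ 2 * ((K + 62) * Real.log R) ^ 2 :=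
          mul_le_mul_of_nonneg_left h5 (by positivity)
        _ = _ := by ring
    have h6 : (R : ℝ) ^ 2 * (128 * ((K : ℝ) + 62) ^ 2 * Real.log R ^ 2) ≤
        (R : ℝ) ^ 2 * (R : ℝ) ^ (0.1 : ℝ) := mul_le_mul_of_nonneg_left h2 (by positivity)
    have h7 : (R : ℝ) ^ 2 * (R : ℝ) ^ (0.1 : ℝ) = (R : ℝ) ^ (2.1 : ℝ) := by
      rw [← Real.rpow_natCast, ← Real.rpow_add hR0]
      norm_num
    linarith

end BQA
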