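import Mathlib
import Pool.Agent.BQ.Z_Num1
import Pool.Agent.BQ.Z_Num2

/-!
# BQ, numbers: all parameters

`R` even and large, `R ^ K0 ≤ p ≤ R ^ (3 K0)`, `n = p * p2 ^ a`, `J` levels, `ρ` the density of
`Xset` in `LabE`, `N` the size of the sample.
-/

open Filter Topology

namespace BQA

/-- the conditions on the size `N` of the sample; `D = N ρ`, the norm of `T` will be at most
`D / R ^ 15` -/
structure NumOK (R J p n N : ℕ) (ρ K5 c : ℝ) : Prop where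
  N_pos : 0 < N
  D_ge : (R : ℝ) ^ 100 ≤ N * ρ
  deg_le : 150 ≤ 2 * (N * ρ)
  deg_p : 2 * (2 * (N * ρ)) ≤ (p : ℝ) ^ 2
  mult : N * (N * ρ) * (2 * (N * ρ) / (p + 1)) ^ 150 ≤ 1 / 20
  deg : (N : ℝ) * (3 / 5) ^ R ≤ 1 / 20
  orth : 192 * (N : ℝ) ^ 2 * Real.exp (-(c * R)) ≤ 1 / 20
  low1 : 64 * ((N * ρ / R ^ 19) ^ 2 + R ^ 2 * (N * ρ) + R ^ 4) ≤ (N * ρ / R ^ 15) ^ 2
  low2 : (20 : ℝ) * N * 4 ^ (3 * R * J) * ((n : ℝ) ^ 80 + 1) ^ 8 ≤ 2 ^ (R ^ 2)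
  hf : ∀ l : ℕ, n ^ 80 < l → ∃ m : ℕ, 1 ≤ m ∧
    4 * (N : ℝ) * (l + 1) ^ 2 * (4 * 150 * (2 * (N * ρ))) ^ m +
      K5 * N * (4 * 150 ^ 2 * (n : ℝ) ^ (2.2 : ℝ)) ^ m / (l + 1) ≤ (N * ρ / R ^ 15) ^ (2 * m)

theorem Z_geom (K : ℕ) {θ ε : ℝ} (h0 : 0 ≤ θ) (h1 : θ < 1) (hε : 0 < ε) :
    ∀ᶠ R : ℕ in atTop, (R : ℝ) ^ K * θ ^ R ≤ ε :=
  ((tendsto_pow_const_mul_const_pow_of_lt_one K h0 h1).eventually (gt_mem_nhds hε)).mono
    fun _ h => le_of_lt h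

theorem Z_two_pow (K : ℕ) : ∀ᶠ R : ℕ in atTop, (R : ℝ) ^ K ≤ 2 ^ R := by
  filter_upwards [Z_geom K (θ := 1 / 2) (by norm_num) (by norm_num) one_pos] with R h
  rw [one_div, inv_pow, ← div_eq_mul_inv, div_le_one (by positivity)] at h
  exact h

theorem Z_aux1 {R J : ℕ} (h : 16 ≤ R) (h' : 1000 * J ≤ R) : R + 6 * R * J ≤ R ^ 2 := by
  nlinarith

theorem Z_num {gam : ℝ} (hg0 : 0 < gam) (hg1 : gam < 1) {p2 : ℕ} (hp2 : 2 ≤ p2) {K5 : ℝ}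
    (hK5 : 0 < K5) {c : ℝ} (hc : 0 < c) (M : ℕ) :
    ∃ K0 : ℕ, 0 < K0 ∧ ∀ᶠ R : ℕ in atTop, ∀ p : ℕ, R ^ K0 ≤ p → p ≤ R ^ (3 * K0) →
      ∃ a J : ℕ, 2 * ((a : ℝ) + 1) * gam ^ a ≤ ((R : ℝ) ^ M)⁻¹ ∧ p2 < p ∧ p ^ 2 ≠ 0 ∧ 1 ≤ J ∧
        (p * p2 ^ a) * R ^ 60 ≤ 4 ^ J ∧ 1000 * J ≤ R ∧ J ^ 2 ≤ R ∧
        (4 * ((3 * R * J + 1) + (3 * R * J + 1) ^ 2 : ℝ)) ≤ (R : ℝ) ^ (2.1 : ℝ) ∧
        ∀ ρ : ℝ, ((R : ℝ) ^ 3 * 2 ^ (4 * J))⁻¹ ≤ ρ → ρ ≤ 1 →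
          ∃ N : ℕ, NumOK R J p (p * p2 ^ a) N ρ K5 c := by
  obtain ⟨C3, hC3⟩ := Z_a hg0 hg1 hp2 M
  obtain ⟨p0, hp01, hp0⟩ := Z_hf hK5
  set K0 : ℕ := 100 * (C3 + 200) with hK0
  set K : ℕ := 3 * K0 + C3 with hK
  have hKpos : 0 < K0 := by omega
  have hK100 : (C3 + 200) * 100 = K0 := by rw [hK0]; ring
  clear_value K K0
  refine ⟨K0, hKpos, ?_⟩
  have e1 := Z_J K
  have e2 := Z_geom (9 * K0) (θ := 3 / 5) (by norm_num) (by norm_num) (ε := 1 / 20) (by norm_num)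
  have e3 := Z_geom (18 * K0) (θ := Real.exp (-c)) (Real.exp_pos _).le
    (by rw [← Real.exp_zero]; exact Real.exp_lt_exp.mpr (by linarith)) (ε := 1 / 3840)
    (by norm_num)
  have e4 := Z_two_pow (9 * K0 + 640 * K + 13)
  have e5 : ∀ᶠ R : ℕ in atTop, p0 ≤ R := tendsto_natCast_atTop_atTop.eventually_ge_atTop p0
  filter_upwards [hC3, e1, e2, e3, e4, e5, eventually_ge_atTop (p2 + 16)] with
    R ⟨a, ha1, ha2⟩ hJ h2 h3 h4 h5 hR16
  intro p hp1 hp3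
  have hR : 16 ≤ R := by omega
  have hR0 : 0 < R := by omega
  have hR1 : (1 : ℝ) ≤ R := by exact_mod_cast hR0
  have hR16' : (16 : ℝ) ≤ R := by exact_mod_cast hR
  have hRpos : (0 : ℝ) < R := by linarith
  have hRp : R ≤ p := by
    calc R = R ^ 1 := (pow_one R).symm
      _ ≤ R ^ K0 := Nat.pow_le_pow_right hR0 hKpos
      _ ≤ p := hp1
  have hp0' : 0 < p := by omega
  have hn1 : 1 ≤ p * p2 ^ a := Nat.one_le_iff_ne_zero.mpr (by positivity)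
  have hnK : p * p2 ^ a ≤ R ^ K := by
    calc p * p2 ^ a ≤ R ^ (3 * K0) * R ^ C3 := Nat.mul_le_mul hp3 ha2
      _ = R ^ K := by rw [hK, pow_add]
  obtain ⟨J, hJ1, hJ2, hJ3, hJ4, hJ5, hJ6⟩ := hJ (p * p2 ^ a) hn1 hnK
  refine ⟨a, J, ha1, by omega, by positivity, hJ1, hJ2, hJ4, hJ5, hJ6, ?_⟩
  intro ρ hρ1 hρ2
  set n : ℕ := p * p2 ^ a with hn
  -- the base `y = p ^ (1 / 100)`
  have hpR : (0 : ℝ) < p := by exact_mod_cast hp0'
  set y : ℝ := (p : ℝ) ^ (0.01 : ℝ) with hy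
  have hy0 : 0 < y := Real.rpow_pos_of_pos hpR _
  have hyk : ∀ k : ℕ, y ^ k = (p : ℝ) ^ (0.01 * k : ℝ) := by
    intro k
    rw [hy, ← Real.rpow_natCast, ← Real.rpow_mul hpR.le]
  have hy100 : y ^ 100 = p := by
    rw [hyk]; norm_num
  have hyR : (R : ℝ) ^ (C3 + 200) ≤ y := by
    have h6 : ((R : ℝ) ^ (C3 + 200)) ^ 100 ≤ y ^ 100 := by
      rw [hy100, ← pow_mul]
      have : R ^ ((C3 + 200) * 100) ≤ p := by
        rw [hK100]; exact hp1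
      exact_mod_cast this
    exact le_of_pow_le_pow_left₀ (by norm_num) hy0.le h6
  have hRle : ∀ k : ℕ, k ≤ C3 + 200 → (R : ℝ) ^ k ≤ y := fun k hk =>
    (pow_le_pow_right₀ hR1 hk).trans hyR
  have hy16 : 16 ≤ y := hR16'.trans (by simpa using hRle 1 (by omega))
  have hy1 : 1 ≤ y := by linarith
  -- n
  have hn_le : (n : ℝ) ≤ y ^ 101 := by
    have h6 : ((p2 ^ a : ℕ) : ℝ) ≤ y := by
      have : ((p2 ^ a : ℕ) : ℝ) ≤ (R : ℝ) ^ C3 := by exact_mod_cast ha2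
      exact this.trans (hRle C3 (by omega))
    calc (n : ℝ) = (p : ℝ) * ((p2 ^ a : ℕ) : ℝ) := by rw [hn]; push_cast; ring
      _ ≤ y ^ 100 * y := by rw [hy100]; exact mul_le_mul_of_nonneg_left h6 hpR.le
      _ = y ^ 101 := by ring
  have hn0 : (0 : ℝ) < n := by exact_mod_cast hn1
  -- N
  have hρ0 : 0 < ρ := lt_of_lt_of_le (by positivity) hρ1
  set N : ℕ := ⌈y ^ 95 / ρ⌉₊ with hN
  have hN1 : y ^ 95 / ρ ≤ N := Nat.le_ceil _
  have hN2 : (N : ℝ) < y ^ 95 / ρ + 1 := Nat.ceil_lt_add_one (by positivity)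
  have hD1 : y ^ 95 ≤ N * ρ := by
    rwa [div_le_iff₀ hρ0] at hN1
  have hy95 : (1 : ℝ) ≤ y ^ 95 := one_le_pow₀ hy1
  have hD2 : N * ρ ≤ 2 * y ^ 95 := by
    have h6 : N * ρ ≤ (y ^ 95 / ρ + 1) * ρ := mul_le_mul_of_nonneg_right hN2.le hρ0.le
    have h7 : (y ^ 95 / ρ + 1) * ρ = y ^ 95 + ρ := by field_simp
    linarith
  have hD0 : 0 < N * ρ := lt_of_lt_of_le (by positivity) hD1
  have hNpos : (0 : ℝ) < N := by
    have h6 : (0 : ℝ) < y ^ 95 / ρ := by positivity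
    linarith
  have hN0 : 0 < N := by exact_mod_cast hNpos
  have hN3 : (N : ℝ) ≤ y ^ 300 := by
    have h6 : 1 / ρ ≤ (R : ℝ) ^ 3 * 2 ^ (4 * J) := by
      rw [div_le_iff₀ hρ0]
      have h7 : (0 : ℝ) < (R : ℝ) ^ 3 * 2 ^ (4 * J) := by positivity
      have := mul_le_mul_of_nonneg_left hρ1 h7.le
      rwa [mul_inv_cancel₀ h7.ne'] at this
    have h7 : (2 : ℝ) ^ (4 * J) ≤ 16 * (n * R ^ 60) ^ 2 := by
      have h8 : ((4 : ℝ) ^ J) ≤ 4 * (n * R ^ 60) := by exact_mod_cast hJ3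
      calc (2 : ℝ) ^ (4 * J) = ((4 : ℝ) ^ J) ^ 2 := by
            rw [show (4 : ℝ) = 2 ^ 2 by norm_num, ← pow_mul, ← pow_mul]
            congr 1; ring
        _ ≤ (4 * (n * R ^ 60)) ^ 2 := pow_le_pow_left₀ (by positivity) h8 2
        _ = _ := by ring
    have h8 : (N : ℝ) ≤ 2 * (y ^ 95 / ρ) := by
      have : 1 ≤ y ^ 95 / ρ := by
        rw [le_div_iff₀ hρ0]; linarith
      linarith
    have h9 : (16 : ℝ) * R ^ 123 ≤ y := by
      calc (16 : ℝ) * R ^ 123 ≤ R * R ^ 123 := mul_le_mul_of_nonneg_right hR16' (by positivity)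
        _ = R ^ 124 := by ring
        _ ≤ y := hRle 124 (by omega)
    calc (N : ℝ) ≤ 2 * (y ^ 95 / ρ) := h8
      _ = 2 * y ^ 95 * (1 / ρ) := by ring
      _ ≤ 2 * y ^ 95 * ((R : ℝ) ^ 3 * (16 * (n * R ^ 60) ^ 2)) := by
        refine mul_le_mul_of_nonneg_left (h6.trans ?_) (by positivity)
        exact mul_le_mul_of_nonneg_left h7 (by positivity)
      _ = 2 * y ^ 95 * (16 * R ^ 123 * (n : ℝ) ^ 2) := by ring
      _ ≤ y * y ^ 95 * (y * (y ^ 101) ^ 2) := by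
        have h10 : (n : ℝ) ^ 2 ≤ (y ^ 101) ^ 2 := pow_le_pow_left₀ hn0.le hn_le 2
        have h11 : 16 * (R : ℝ) ^ 123 * (n : ℝ) ^ 2 ≤ y * (y ^ 101) ^ 2 :=
          mul_le_mul h9 h10 (by positivity) hy0.le
        exact mul_le_mul (mul_le_mul_of_nonneg_right (by linarith) (by positivity)) h11
          (by positivity) (by positivity)
      _ = y ^ 299 := by ring
      _ ≤ y ^ 300 := pow_le_pow_right₀ hy1 (by norm_num)
  have hNp : (N : ℝ) ≤ (p : ℝ) ^ 3 := by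
    calc (N : ℝ) ≤ y ^ 300 := hN3
      _ = (y ^ 100) ^ 3 := by ring
      _ = _ := by rw [hy100]
  have hNR : (N : ℝ) ≤ (R : ℝ) ^ (9 * K0) := by
    have : ((p : ℝ)) ^ 3 ≤ ((R : ℝ) ^ (3 * K0)) ^ 3 :=
      pow_le_pow_left₀ hpR.le (by exact_mod_cast hp3) 3
    calc (N : ℝ) ≤ (p : ℝ) ^ 3 := hNp
      _ ≤ ((R : ℝ) ^ (3 * K0)) ^ 3 := this
      _ = (R : ℝ) ^ (9 * K0) := by rw [← pow_mul]; congr 1; ring
  have hRy : ∀ k : ℕ, k ≤ 200 → (R : ℝ) ^ k ≤ y := fun k hk => hRle k (by omega)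
  have hyD : ∀ k : ℕ, k ≤ 95 → y ^ k ≤ N * ρ := fun k hk =>
    (pow_le_pow_right₀ hy1 hk).trans hD1
  have hyD1 : y ≤ N * ρ := by
    have := hyD 1 (by norm_num)
    rwa [pow_one] at this
  refine ⟨N, hN0, ?_, ?_, ?_, ?_, ?_, ?_, ?_, ?_, ?_⟩
  · exact (hRy 100 (by norm_num)).trans hyD1
  · have h6 : y ^ 3 ≤ N * ρ := hyD 3 (by norm_num)
    have h7 : (16 : ℝ) ^ 3 ≤ y ^ 3 := pow_le_pow_left₀ (by norm_num) hy16 3
    norm_num at h7
    linarith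
  · rw [← hy100]
    calc 2 * (2 * (N * ρ)) ≤ 8 * y ^ 95 := by linarith
      _ ≤ y * y ^ 95 := mul_le_mul_of_nonneg_right (by linarith) (by positivity)
      _ = y ^ 96 := by ring
      _ ≤ y ^ 200 := pow_le_pow_right₀ hy1 (by norm_num)
      _ = (y ^ 100) ^ 2 := by ring
  · have h6 : 2 * (N * ρ) / ((p : ℝ) + 1) ≤ 4 / y ^ 5 := by
      rw [div_le_div_iff₀ (by positivity) (by positivity), ← hy100]
      calc 2 * (N * ρ) * y ^ 5 ≤ 2 * (2 * y ^ 95) * y ^ 5 := by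
            exact mul_le_mul_of_nonneg_right (by linarith) (by positivity)
        _ = 4 * y ^ 100 := by ring
        _ ≤ 4 * (y ^ 100 + 1) := by linarith
    have h7 : (2 * (N * ρ) / ((p : ℝ) + 1)) ^ 150 ≤ (4 / y ^ 5) ^ 150 :=
      pow_le_pow_left₀ (by positivity) h6 150
    calc N * (N * ρ) * (2 * (N * ρ) / ((p : ℝ) + 1)) ^ 150
        ≤ y ^ 300 * (2 * y ^ 95) * (4 / y ^ 5) ^ 150 := by
          refine mul_le_mul (mul_le_mul hN3 hD2 hD0.le (by positivity)) h7 (by positivity)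
            (by positivity)
      _ = 2 * 4 ^ 150 / y ^ 355 := by
        rw [div_pow, ← pow_mul]
        rw [show y ^ (5 * 150) = y ^ 395 * y ^ 355 by rw [← pow_add]]
        field_simp
      _ ≤ 1 / 20 := by
        rw [div_le_div_iff₀ (by positivity) (by norm_num)]
        have h8 : (16 : ℝ) ^ 80 ≤ y ^ 355 :=
          (pow_le_pow_left₀ (by norm_num) hy16 80).trans (pow_le_pow_right₀ hy1 (by norm_num))
        have h9 : (2 * 4 ^ 150 * 20 : ℝ) ≤ 16 ^ 80 := by norm_num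
        linarith
  · calc (N : ℝ) * (3 / 5) ^ R ≤ (R : ℝ) ^ (9 * K0) * (3 / 5) ^ R :=
          mul_le_mul_of_nonneg_right hNR (by positivity)
      _ ≤ 1 / 20 := h2
  · have h6 : Real.exp (-(c * R)) = Real.exp (-c) ^ R := by
      rw [← Real.exp_nat_mul]; congr 1; ring
    rw [h6]
    calc 192 * (N : ℝ) ^ 2 * Real.exp (-c) ^ R
        ≤ 192 * ((R : ℝ) ^ (9 * K0)) ^ 2 * Real.exp (-c) ^ R := by
          have := pow_le_pow_left₀ hNpos.le hNR 2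
          have h7 : 0 < Real.exp (-c) ^ R := pow_pos (Real.exp_pos _) _
          exact mul_le_mul_of_nonneg_right
            (mul_le_mul_of_nonneg_left this (by norm_num)) h7.le
      _ = 192 * ((R : ℝ) ^ (18 * K0) * Real.exp (-c) ^ R) := by
        rw [← pow_mul]; ring_nf
      _ ≤ 1 / 20 := by linarith
  · have hDR : (R : ℝ) ^ 100 ≤ N * ρ := (hRy 100 (by norm_num)).trans hyD1
    have hR2 : (256 : ℝ) ≤ R ^ 2 := by
      have := pow_le_pow_left₀ (by norm_num) hR16' 2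
      norm_num at this
      exact this
    generalize (N : ℝ) * ρ = D at hDR hD0 ⊢
    rw [div_pow, div_pow, ← pow_mul, ← pow_mul]
    rw [le_div_iff₀ (by positivity)]
    have t1 : D ^ 2 / (R : ℝ) ^ (19 * 2) * R ^ (15 * 2) = D ^ 2 / R ^ 8 := by
      rw [show (19 * 2) = 8 + 15 * 2 by norm_num, pow_add]
      field_simp
    have t2 : D ^ 2 / (R : ℝ) ^ 8 ≤ D ^ 2 / 256 := by
      refine div_le_div_of_nonneg_left (by positivity) (by norm_num) ?_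
      calc (256 : ℝ) ≤ R ^ 2 := hR2
        _ ≤ R ^ 8 := pow_le_pow_right₀ hR1 (by norm_num)
    have t3 : (R : ℝ) ^ 2 * D * R ^ (15 * 2) ≤ D ^ 2 / 256 := by
      rw [le_div_iff₀ (by norm_num)]
      calc (R : ℝ) ^ 2 * D * R ^ (15 * 2) * 256 ≤ (R : ℝ) ^ 2 * D * R ^ (15 * 2) * R ^ 2 :=
            mul_le_mul_of_nonneg_left hR2 (by positivity)
        _ = R ^ 34 * D := by ring
        _ ≤ D * D := mul_le_mul_of_nonneg_right
            ((pow_le_pow_right₀ hR1 (by norm_num)).trans hDR) hD0.le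
        _ = D ^ 2 := by ring
    have t4 : (R : ℝ) ^ 4 * R ^ (15 * 2) ≤ D ^ 2 / 256 := by
      rw [le_div_iff₀ (by norm_num)]
      calc (R : ℝ) ^ 4 * R ^ (15 * 2) * 256 ≤ (R : ℝ) ^ 4 * R ^ (15 * 2) * R ^ 2 :=
            mul_le_mul_of_nonneg_left hR2 (by positivity)
        _ = R ^ 36 := by ring
        _ ≤ R ^ 200 := pow_le_pow_right₀ hR1 (by norm_num)
        _ = (R ^ 100) ^ 2 := by ring
        _ ≤ D ^ 2 := pow_le_pow_left₀ (by positivity) hDR 2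
    calc 64 * (D ^ 2 / (R : ℝ) ^ (19 * 2) + R ^ 2 * D + R ^ 4) * R ^ (15 * 2)
        = 64 * (D ^ 2 / (R : ℝ) ^ (19 * 2) * R ^ (15 * 2) + R ^ 2 * D * R ^ (15 * 2) +
          R ^ 4 * R ^ (15 * 2)) := by ring
      _ ≤ 64 * (D ^ 2 / 256 + D ^ 2 / 256 + D ^ 2 / 256) := by
        rw [t1]; linarith
      _ ≤ D ^ 2 := by
        have := sq_nonneg D
        linarith
  · -- low2
    have h6 : (4 : ℝ) ^ (3 * R * J) = 2 ^ (6 * R * J) := by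
      rw [show (4 : ℝ) = 2 ^ 2 by norm_num, ← pow_mul]; congr 1; ring
    have h7 : ((n : ℝ) ^ 80 + 1) ^ 8 ≤ 256 * (R : ℝ) ^ (640 * K) := by
      have h8 : (n : ℝ) ≤ (R : ℝ) ^ K := by exact_mod_cast hnK
      have h9 : (n : ℝ) ^ 80 + 1 ≤ 2 * (R : ℝ) ^ (80 * K) := by
        have h10 : (n : ℝ) ^ 80 ≤ (R : ℝ) ^ (80 * K) := by
          calc (n : ℝ) ^ 80 ≤ ((R : ℝ) ^ K) ^ 80 := pow_le_pow_left₀ hn0.le h8 80
            _ = _ := by rw [← pow_mul]; congr 1; ring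
        have h11 : (1 : ℝ) ≤ (R : ℝ) ^ (80 * K) := one_le_pow₀ hR1
        linarith
      calc ((n : ℝ) ^ 80 + 1) ^ 8 ≤ (2 * (R : ℝ) ^ (80 * K)) ^ 8 :=
            pow_le_pow_left₀ (by positivity) h9 8
        _ = 256 * (R : ℝ) ^ (640 * K) := by
          rw [mul_pow, ← pow_mul]; norm_num; congr 1; ring
    have h8 : (20 : ℝ) * N * (256 * (R : ℝ) ^ (640 * K)) ≤ 2 ^ R := by
      calc (20 : ℝ) * N * (256 * (R : ℝ) ^ (640 * K))
          ≤ 20 * (R : ℝ) ^ (9 * K0) * (256 * (R : ℝ) ^ (640 * K)) := by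
            refine mul_le_mul_of_nonneg_right ?_ (by positivity)
            exact mul_le_mul_of_nonneg_left hNR (by norm_num)
        _ = 5120 * (R : ℝ) ^ (9 * K0 + 640 * K) := by rw [pow_add]; ring
        _ ≤ (R : ℝ) ^ 13 * (R : ℝ) ^ (9 * K0 + 640 * K) := by
          refine mul_le_mul_of_nonneg_right ?_ (by positivity)
          calc (5120 : ℝ) ≤ 16 ^ 13 := by norm_num
            _ ≤ R ^ 13 := pow_le_pow_left₀ (by norm_num) hR16' 13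
        _ = (R : ℝ) ^ (9 * K0 + 640 * K + 13) := by rw [← pow_add]; congr 1; ring
        _ ≤ 2 ^ R := h4
    have h9 : R + 6 * R * J ≤ R ^ 2 := Z_aux1 hR hJ4
    calc (20 : ℝ) * N * 4 ^ (3 * R * J) * ((n : ℝ) ^ 80 + 1) ^ 8
        ≤ 20 * N * 2 ^ (6 * R * J) * (256 * (R : ℝ) ^ (640 * K)) := by
          rw [h6]
          exact mul_le_mul_of_nonneg_left h7 (by positivity)
      _ = (20 : ℝ) * N * (256 * (R : ℝ) ^ (640 * K)) * 2 ^ (6 * R * J) := by ring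
      _ ≤ 2 ^ R * 2 ^ (6 * R * J) := mul_le_mul_of_nonneg_right h8 (by positivity)
      _ = 2 ^ (R + 6 * R * J) := by rw [← pow_add]
      _ ≤ 2 ^ (R ^ 2) := pow_le_pow_right₀ (by norm_num) h9
  · -- hf
    intro l hl
    have hpp0 : p0 ≤ p := h5.trans (by exact_mod_cast hRp)
    have hn_p : (p : ℝ) ≤ n := by
      have : p ≤ n := Nat.le_mul_of_pos_right p (by positivity)
      exact_mod_cast this
    have hn_p2 : (n : ℝ) ≤ (p : ℝ) ^ (1.01 : ℝ) := by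
      refine hn_le.trans (le_of_eq ?_)
      rw [hyk]; norm_num
    have hy95' : y ^ 95 = (p : ℝ) ^ (0.95 : ℝ) := by rw [hyk]; norm_num
    have hy94' : y ^ 94 = (p : ℝ) ^ (0.94 : ℝ) := by rw [hyk]; norm_num
    have hB : (p : ℝ) ^ (0.94 : ℝ) ≤ N * ρ / R ^ 15 := by
      rw [← hy94', le_div_iff₀ (by positivity)]
      calc y ^ 94 * (R : ℝ) ^ 15 ≤ y ^ 94 * y :=
            mul_le_mul_of_nonneg_left (hRy 15 (by norm_num)) (by positivity)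
        _ = y ^ 95 := by ring
        _ ≤ _ := hD1
    have hl' : (n : ℝ) ^ 80 ≤ l := by exact_mod_cast hl.le
    have hDD : 2 * (N * ρ) ≤ 4 * (p : ℝ) ^ (0.95 : ℝ) := by rw [← hy95']; linarith
    exact hp0 p hpp0 n hn_p hn_p2 N (2 * (N * ρ)) (N * ρ / R ^ 15) hNpos hNp (by positivity) hDD hB
      l hl'

end BQA
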