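import Mathlib
import Pool.Agent.BQ.Z_Num3
import Pool.Agent.BQ.C_FIN
import Pool.Agent.BQ.Y_Low
import Pool.Agent.BQ.S_Orth
import Pool.Agent.BQ.S_Mult
import Pool.Agent.BQ.S_Deg
import Pool.Agent.BQ.A_Ex
import Pool.Agent.BQ.GLab

/-!
# BQ, assembly: a sample with all the properties (PAPER.md, sections 2 and 12)
-/

open Quaternion Matrix

namespace BQA

theorem Z_Pr_or {α : Type} [Fintype α] (P Q : α → Prop) : Pr (fun a => P a ∨ Q a) ≤ Pr P + Pr Q := by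
  classical
  rw [Pr_eq, Pr_eq, Pr_eq, ← add_div]
  refine div_le_div_of_nonneg_right ?_ (Nat.cast_nonneg _)
  have h : (Finset.univ.filter fun a => P a ∨ Q a) =
      Finset.univ.filter P ∪ Finset.univ.filter Q := by
    ext a; simp
  rw [h]
  exact_mod_cast Finset.card_union_le _ _

theorem Z_exists {α : Type} [Fintype α] [Nonempty α] (P : α → Prop) (h : Pr P < 1) :
    ∃ a, ¬ P a := by
  classical
  by_contra hcon
  push Not at hcon
  have h1 : Pr P = 1 := by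
    rw [Pr_eq]
    have : Finset.univ.filter P = Finset.univ := by
      ext a; simp [hcon a]
    rw [this, Finset.card_univ, div_self]
    exact_mod_cast Fintype.card_ne_zero
  linarith

theorem Z_not_square {p n1 : ℕ} (hp : p.Prime) (h1 : ¬ p ∣ n1) : ¬ IsSquare (p * n1) := by
  rintro ⟨k, hk⟩
  have h2 : p ∣ k * k := ⟨n1, hk.symm⟩
  have h3 : p ∣ k := by
    rcases hp.dvd_mul.mp h2 with h | h <;> exact h
  obtain ⟨j, rfl⟩ := h3
  apply h1
  refine ⟨j * j, ?_⟩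
  have : p * n1 = p * (p * (j * j)) := by rw [hk]; ring
  exact Nat.eq_of_mul_eq_mul_left hp.pos this

/-- the density of `Xset` -/
noncomputable def rho0 (R J n : ℕ) : ℝ := ((Xset R J n).card : ℝ) / Fintype.card (LabE R J)

theorem rho0_le_one (R J n : ℕ) : rho0 R J n ≤ 1 := by
  unfold rho0
  have hc : (0 : ℝ) < Fintype.card (LabE R J) := by exact_mod_cast Fintype.card_pos
  rw [div_le_one hc]
  exact_mod_cast Finset.card_le_univ _

theorem card_LabE_le (R J : ℕ) : (Fintype.card (LabE R J) : ℝ) ≤ 4 ^ (3 * R * J) := by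
  have h1 : Fintype.card (LabE R J) ≤ Fintype.card (Lab R J) :=
    Fintype.card_le_of_injective _ Subtype.val_injective
  have h2 : Fintype.card (Lab R J) = 4 ^ (3 * R * J) := by
    rw [Fintype.card_fun]
    simp only [ZMod.card, Fintype.card_prod, Fintype.card_fin]
    congr 1; ring
  rw [h2] at h1
  exact_mod_cast h1

theorem rho0_ge {R J n : ℕ} (hR : 0 < R)
    (hF0 : ∀ h : Lab R J, h ∈ LabE R J ↔ InL1 (kapL h)) {q : ℍ[ℤ]} (hq : q ∈ sph n)
    (h2 : (4 : ℝ) ^ (3 * R * J) ≤ (F.nf R J q : ℝ) * (R : ℝ) ^ 3 * 2 ^ (4 * J)) :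
    ((R : ℝ) ^ 3 * 2 ^ (4 * J))⁻¹ ≤ rho0 R J n := by
  classical
  have hR' : (0 : ℝ) < R := by exact_mod_cast hR
  have h3 : F.nf R J q ≤ (Xset R J n).card := by
    unfold F.nf
    rw [Nat.card_eq_fintype_card, ← Fintype.card_coe]
    refine Fintype.card_le_of_injective (fun h : {h : Lab R J // kapL h = q} =>
      (⟨⟨h.1, (hF0 h.1).2 (by rw [h.2]; exact (mem_sph.1 hq).1)⟩, by
        unfold Xset
        rw [Finset.mem_filter]
        refine ⟨Finset.mem_univ _, ?_⟩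
        change normSq (kapL h.1) = n
        rw [h.2]
        exact (mem_sph.1 hq).2⟩ : {x // x ∈ Xset R J n})) ?_
    intro a b hab
    simp only [Subtype.mk.injEq] at hab
    exact Subtype.ext hab
  have hc : (0 : ℝ) < Fintype.card (LabE R J) := by exact_mod_cast Fintype.card_pos
  unfold rho0
  rw [inv_le_comm₀ (by positivity) ?_]
  · rw [inv_div, div_le_iff₀ ?_]
    · have h4 := card_LabE_le R J
      have h5 : (F.nf R J q : ℝ) ≤ (Xset R J n).card := by exact_mod_cast h3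
      calc (Fintype.card (LabE R J) : ℝ) ≤ 4 ^ (3 * R * J) := h4
        _ ≤ (F.nf R J q : ℝ) * (R : ℝ) ^ 3 * 2 ^ (4 * J) := h2
        _ ≤ ((Xset R J n).card : ℝ) * (R : ℝ) ^ 3 * 2 ^ (4 * J) := by
          refine mul_le_mul_of_nonneg_right (mul_le_mul_of_nonneg_right h5 ?_) ?_ <;> positivity
        _ = _ := by ring
    · by_contra hcon
      have h6 : ((Xset R J n).card : ℝ) = 0 := le_antisymm (not_lt.mp hcon) (Nat.cast_nonneg _)
      have h7 : (F.nf R J q : ℝ) = 0 := by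
        have : (F.nf R J q : ℝ) ≤ (Xset R J n).card := by exact_mod_cast h3
        exact le_antisymm (this.trans h6.le) (Nat.cast_nonneg _)
      rw [h7, zero_mul, zero_mul] at h2
      have : (0 : ℝ) < 4 ^ (3 * R * J) := by positivity
      linarith
  · by_contra hcon
    have h6 : ((Xset R J n).card : ℝ) / Fintype.card (LabE R J) = 0 :=
      le_antisymm (not_lt.mp hcon) (by positivity)
    have h8 : ((Xset R J n).card : ℝ) = 0 := by
      rcases div_eq_zero_iff.mp h6 with h | h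
      · exact h
      · exact absurd h hc.ne'
    have h7 : (F.nf R J q : ℝ) = 0 := by
      have : (F.nf R J q : ℝ) ≤ (Xset R J n).card := by exact_mod_cast h3
      exact le_antisymm (this.trans h8.le) (Nat.cast_nonneg _)
    rw [h7, zero_mul, zero_mul] at h2
    have : (0 : ℝ) < 4 ^ (3 * R * J) := by positivity
    linarith

/-- the parity characters of block F and of block C -/
theorem pcs_eq (R J : ℕ) (e : Fin 3 → Bool) : F.pcs (R := R) (J := J) e =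
    Pool.Agent.BQ.parE R J e := by
  funext c
  obtain ⟨v, c, j⟩ := c
  unfold F.pcs Pool.Agent.BQ.parE
  rw [Finset.sum_apply, Fin.sum_univ_three]
  fin_cases v <;> by_cases hj : (j : ℕ) = 0 <;> by_cases h0 : e 0 = true <;>
    by_cases h1 : e 1 = true <;> by_cases h2 : e 2 = true <;> simp [F.pc, hj, h0, h1, h2]

/-- **The sample.** -/
theorem Z_sample (hF1 : F.Stmt_F1) (hF3 : F.Stmt_F3) (hF4 : F.Stmt_F4)
    (hF0 : ∀ R J : ℕ, Even R → 1 ≤ J → ∀ h : Lab R J, h ∈ LabE R J ↔ InL1 (kapL h)) :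
    ∃ R0 : ℕ, ∀ R J p n1 N : ℕ, R0 ≤ R → Even R → 1 ≤ J → p.Prime → p % 4 = 1 → ¬ p ∣ n1 →
    1 ≤ n1 → (p * n1) * R ^ 60 ≤ 4 ^ J → 1000 * J ≤ R → ∀ K5 : ℝ,
    NumOK R J p (p * n1) N (rho0 R J (p * n1)) K5 (1 / 9600) →
    ∀ (d : ℕ) (Dm : S3 → Matrix (Fin d) (Fin d) ℂ), (∀ u v, Dm (u * v) = Dm v * Dm u) →
    Dm 1 = 1 → (∀ u, (Dm u)ᴴ = Dm u⁻¹) → (d : ℝ) ≤ (((p * n1 : ℕ) : ℝ) ^ 80 + 1) ^ 4 →
    (∀ x : EuclideanSpace ℂ (Fin d), ‖∑ q ∈ sph (p * n1), Matrix.toEuclideanLin (Dm (usp q)) x‖ ≤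
      ((R : ℝ) ^ 20)⁻¹ * Rp (p * n1) * ‖x‖) →
    ∃ s : Fin N → Lab R J,
      Mult (SG (p * n1) s) p 150 ∧ Deg (SG (p * n1) s) (2 * (N * rho0 R J (p * n1))) ∧
      (∀ i j, i ≠ j → ((normSq (kapL (s j - s i)) : ℤ) : ℝ) ≤
        (1 / 2400) * Pool.Agent.BQ.labM R J ^ 2) ∧
      (∀ Z : Finset (Fin N), (N : ℝ) / (R : ℝ) ^ (5 / 2 : ℝ) ≤ Z.card →
        (R : ℝ)⁻¹ * rho0 R J (p * n1) * (Z.card : ℝ) ^ 2 ≤
        (((Z ×ˢ Z).filter fun e => normSq (kapL (s e.2 - s e.1)) = ((p * n1 : ℕ) : ℤ)).card : ℝ)) ∧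
      MBd (SG (p * n1) s) Dm (N * rho0 R J (p * n1) / R ^ 15) := by
  obtain ⟨R1, hR1⟩ := hF1
  obtain ⟨C4, R4, hC4, hR4⟩ := hF4
  obtain ⟨R5, hR5⟩ := Y.Y_low hF3
  obtain ⟨R6, hR6⟩ := Pool.Agent.BQ.edges_SG C4 (by linarith)
  refine ⟨max (max R1 R4) (max (max R5 R6) 5), ?_⟩
  intro R J p n1 N hR hRe hJ hp hp4 hpn1 hn1 hnJ hJR K5 hN d Dm hDm hD1 hDs hd hsum
  have hRR1 : R1 ≤ R := le_trans (le_trans (le_max_left _ _) (le_max_left _ _)) hR
  have hRR4 : R4 ≤ R := le_trans (le_trans (le_max_right _ _) (le_max_left _ _)) hR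
  have hRR5 : R5 ≤ R := le_trans (le_trans (le_max_left _ _)
    (le_trans (le_max_left _ _) (le_max_right _ _))) hR
  have hRR6 : R6 ≤ R := le_trans (le_trans (le_max_right _ _)
    (le_trans (le_max_left _ _) (le_max_right _ _))) hR
  have hR5' : 5 ≤ R := le_trans (le_trans (le_max_right _ _) (le_max_right _ _)) hR
  set n : ℕ := p * n1 with hn
  have hn0 : 1 ≤ n := Nat.one_le_iff_ne_zero.mpr (Nat.mul_ne_zero hp.ne_zero (by omega))
  have hsq : ¬ IsSquare n := Z_not_square hp hpn1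
  have hc : (0 : ℝ) < Fintype.card (LabE R J) := by exact_mod_cast Fintype.card_pos
  set ρ : ℝ := rho0 R J n with hρ
  have hRr : (5 : ℝ) ≤ R := by exact_mod_cast hR5'
  have hRpos : (0 : ℝ) < R := by linarith
  have hDeq : (N : ℝ) * ρ = (N : ℝ) * (Xset R J n).card / Fintype.card (LabE R J) := by
    rw [hρ, rho0, mul_div_assoc]
  have hDpos : 0 < (N : ℝ) * ρ := lt_of_lt_of_le (by positivity) hN.D_ge
  have h0 : (0 : LabE R J) ∉ Xset R J n := S_zero_notMem hsq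
  -- MULT
  have hpn : (p : ℤ) ∣ (n : ℤ) := by rw [hn]; exact_mod_cast Dvd.intro n1 rfl
  have hpn2 : ¬ (p : ℤ) ^ 2 ∣ (n : ℤ) := by
    intro h
    have h1 : p ^ 2 ∣ n := by exact_mod_cast h
    rw [hn, pow_two] at h1
    exact hpn1 (Nat.dvd_of_mul_dvd_mul_left hp.pos h1)
  have b1 : Pr (fun s : Fin N → LabE R J => ¬ Mult (SG n (fun i => (s i : Lab R J))) p 150) ≤
      1 / 20 := by
    refine (S_mult' (C := 150) h0 (hF0 R J hRe hJ) (fun q hq q' hq' =>
      hR1 R J n hRR1 hRe hn0 hnJ hJR q hq q' hq') hpn hpn2 (fun q0 h1 h2 => ?_) hDeq).trans hN.mult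
    have := card_class_sph hp hp4 hpn1 h1 h2
    rw [← hn] at this
    exact this
  -- DEG
  have b2 : Pr (fun s : Fin N → LabE R J => ¬ Deg (SG n (fun i => (s i : Lab R J)))
      (2 * (N * ρ))) ≤ 1 / 20 := by
    refine (S_deg (k := R) h0 hDeq ?_).trans hN.deg
    have h1 := hN.D_ge
    have h2 : 10 * (R : ℝ) ≤ (R : ℝ) ^ 100 := by
      have h3 : (10 : ℝ) ≤ (R : ℝ) ^ 99 := by
        calc (10 : ℝ) ≤ 5 ^ 99 := by norm_num
          _ ≤ (R : ℝ) ^ 99 := pow_le_pow_left₀ (by norm_num) hRr 99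
      calc 10 * (R : ℝ) ≤ (R : ℝ) ^ 99 * R := mul_le_mul_of_nonneg_right h3 hRpos.le
        _ = (R : ℝ) ^ 100 := by ring
    exact h2.trans h1
  -- ORTH
  have b3 := S_orth (R := R) (J := J) (N := N) (by omega) hJ (1 / 2400) (by norm_num) (by norm_num)
  have b3' : 192 * (N : ℝ) ^ 2 * Real.exp (-(1 / 2400 * R / 4)) ≤ 1 / 20 := by
    have h1 : (1 / 2400 * (R : ℝ) / 4) = 1 / 9600 * R := by ring
    rw [h1]
    exact hN.orth
  -- EDGE
  have b4 : Pr (fun s : Fin N → LabE R J => ∃ Z : Finset (Fin N),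
      (N : ℝ) / (R : ℝ) ^ (5 / 2 : ℝ) ≤ Z.card ∧
      (((Z ×ˢ Z).filter fun e => normSq (kapL ((s e.2 : Lab R J) - (s e.1 : Lab R J))) =
        (n : ℤ)).card : ℝ) <
      (R : ℝ)⁻¹ * (((Xset R J n).card : ℝ) / Fintype.card (LabE R J)) * (Z.card : ℝ) ^ 2) ≤
      1 / 10 := by
    have hkey := hR6 R J n N hRR6 hJ ?_ ?_ ?_
    · simp only [Pool.Agent.BQ.card_SG] at hkey
      exact hkey
    · intro h
      apply h0
      unfold Xset
      rw [Finset.mem_filter]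
      exact ⟨Finset.mem_univ _, h⟩
    · intro ψ w hw hmin
      have h1 := hR4 R J n hRR4 hRe hn0 hnJ hJR ψ w hw (fun e => by
        have := hmin e
        unfold F.wgt
        rw [pcs_eq]
        convert this)
      rw [mul_comm] at h1
      refine h1.trans (le_of_eq ?_)
      congr 1
      rw [Real.sqrt_eq_rpow, ← Real.rpow_natCast, ← Real.rpow_mul (by positivity)]
      congr 1
      ring
    · have h1 := hN.D_ge
      calc (R : ℝ) ^ 10 ≤ (R : ℝ) ^ 100 := pow_le_pow_right₀ (by linarith) (by norm_num)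
        _ ≤ N * ρ := h1
  -- LOW
  have b5 : Pr (fun s : Fin N → LabE R J => ¬ MBd (Y.SGE n s) Dm (N * ρ / R ^ 15)) ≤ 1 / 10 := by
    refine hR5 R J n hRR5 hRe hn0 hnJ hJR hsq d Dm hDm hD1 hDs ((R : ℝ) ^ 20)⁻¹ (by positivity)
      hsum N (R ^ 2) (N * ρ / R ^ 15) (Nat.one_le_iff_ne_zero.mpr (by positivity)) (by positivity)
      ?_ ?_
    · refine le_trans ?_ hN.low1
      have e1 : (N * ((4 * ((R : ℝ) ^ 20)⁻¹ + ((R : ℝ) ^ 20)⁻¹) * (Xset R J n).card) /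
          Fintype.card (LabE R J) : ℝ) = 5 / (R : ℝ) ^ 20 * (N * ρ) := by
        rw [hDeq]; ring
      have e2 : (N * (Xset R J n).card / Fintype.card (LabE R J) : ℝ) = N * ρ := hDeq.symm
      rw [e1, e2]
      have e3 : 5 / (R : ℝ) ^ 20 * (N * ρ) ≤ N * ρ / R ^ 19 := by
        rw [div_mul_eq_mul_div, div_le_div_iff₀ (by positivity) (by positivity)]
        calc 5 * (N * ρ) * (R : ℝ) ^ 19 ≤ R * (N * ρ) * (R : ℝ) ^ 19 := by
              refine mul_le_mul_of_nonneg_right ?_ (by positivity)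
              exact mul_le_mul_of_nonneg_right hRr hDpos.le
          _ = N * ρ * (R : ℝ) ^ 20 := by ring
      have e4 : (5 / (R : ℝ) ^ 20 * (N * ρ)) ^ 2 ≤ (N * ρ / R ^ 19) ^ 2 :=
        pow_le_pow_left₀ (by positivity) e3 2
      push_cast
      have e5 : ((R : ℝ) ^ 2) ^ 2 = R ^ 4 := by ring
      rw [e5]
      linarith
    · have h4 := card_LabE_le R J
      have hd2 : (d : ℝ) ^ 2 ≤ ((n : ℝ) ^ 80 + 1) ^ 8 := by
        calc (d : ℝ) ^ 2 ≤ (((n : ℝ) ^ 80 + 1) ^ 4) ^ 2 :=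
              pow_le_pow_left₀ (Nat.cast_nonneg d) hd 2
          _ = _ := by rw [← pow_mul]
      calc 20 * (N : ℝ) * Fintype.card (LabE R J) * (d : ℝ) ^ 2
          ≤ 20 * N * 4 ^ (3 * R * J) * ((n : ℝ) ^ 80 + 1) ^ 8 := by
            refine mul_le_mul ?_ hd2 (by positivity) (by positivity)
            exact mul_le_mul_of_nonneg_left h4 (by positivity)
        _ ≤ 2 ^ (R ^ 2) := hN.low2
  -- the union
  obtain ⟨s, hs⟩ := Z_exists (α := Fin N → LabE R J) (fun s =>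
    (¬ Mult (SG n (fun i => (s i : Lab R J))) p 150) ∨
    ((¬ Deg (SG n (fun i => (s i : Lab R J))) (2 * (N * ρ))) ∨
    ((¬ ∀ i j, i ≠ j → ((normSq (kapL ((s j : Lab R J) - (s i : Lab R J))) : ℤ) : ℝ) ≤
        1 / 2400 * (1 + 3 * (R : ℝ) * (2 ^ J - 1)) ^ 2) ∨
    ((∃ Z : Finset (Fin N),
      (N : ℝ) / (R : ℝ) ^ (5 / 2 : ℝ) ≤ Z.card ∧
      (((Z ×ˢ Z).filter fun e => normSq (kapL ((s e.2 : Lab R J) - (s e.1 : Lab R J))) =
        (n : ℤ)).card : ℝ) <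
      (R : ℝ)⁻¹ * (((Xset R J n).card : ℝ) / Fintype.card (LabE R J)) * (Z.card : ℝ) ^ 2) ∨
    (¬ MBd (Y.SGE n s) Dm (N * ρ / R ^ 15)))))) (by
      refine lt_of_le_of_lt (Z_Pr_or _ _) ?_
      refine lt_of_le_of_lt (add_le_add b1 ((Z_Pr_or _ _).trans (add_le_add b2
        ((Z_Pr_or _ _).trans (add_le_add (b3.trans b3') ((Z_Pr_or _ _).trans
          (add_le_add b4 b5))))))) ?_
      norm_num)
  push Not at hs
  obtain ⟨s1, s2, s3, s4, s5⟩ := hs
  refine ⟨fun i => (s i : Lab R J), s1, s2, ?_, ?_, s5⟩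
  · intro i j hij
    exact s3 i j hij
  · intro Z hZ
    exact s4 Z hZ

end BQA
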