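import Mathlib
import Pool.Agent.BQ.Z_Sam
import Pool.Agent.BQ.GInd
import Pool.Agent.BQ.GEmb
import Pool.Agent.BQ.P_Main
import Pool.Agent.BQ.P_Bri
import Pool.Agent.BQ.H_Main
import Pool.Agent.BQ.Pri

/-!
# BQ, assembly: the counterexample
-/

open Quaternion Matrix MeasureTheory Filter

namespace BQA

theorem Z_core (hF1 : F.Stmt_F1) (hF2 : F.Stmt_F2) (hF3 : F.Stmt_F3) (hF4 : F.Stmt_F4)
    (hPAR : F.Stmt_PAR) (hP : BQP.PStmt) (hW : BQP.WStmt) :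
    ∃ R1 : ℕ, ∀ R : ℕ, R1 ≤ R → Even R → ∃ d0 : ℕ, (d0 : ℝ) ≤ (R : ℝ) ^ (2.1 : ℝ) ∧
      ∀ m : ℕ, 0 < m → 2 * (m : ℝ) ≤ (R : ℝ) ^ (5 / 2 : ℝ) →
        ∃ K : Set (EuclideanSpace ℝ (Fin d0)), IsCompact K ∧ K.Nontrivial ∧
          Pool.Agent.BQ.IsGeneral K (Pool.Agent.BQ.diameters K) ∧
          ¬ Pool.Agent.BQ.SplitsInto K m := by
  obtain ⟨p2, hp2, hp24, -, gam, hg0, hg1, hPb⟩ := hP
  obtain ⟨K5', hK5', hWb⟩ := hW
  set K5 : ℝ := K5' + 1 with hK5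
  have hK50 : 0 < K5 := by linarith
  obtain ⟨mS, bS, μ, hμ1, hμ2, -⟩ := Pool.Agent.BQ.exists_haar_S3
  obtain ⟨K0, hK0, hnum⟩ := Z_num hg0 hg1 hp2.two_le hK50 (c := 1 / 9600) (by norm_num) 20
  obtain ⟨x0, hx0⟩ := BQ_pri
  obtain ⟨R2, hR2⟩ := hF2
  obtain ⟨R3, hR3⟩ := Z_sample hF1 hF3 hF4 (fun R J => hPAR.1 R J)
  obtain ⟨R4, hR4⟩ := eventually_atTop.mp hnum
  refine ⟨max (max x0 R2) (max (max R3 R4) 3), ?_⟩
  intro R hR hRe
  have hRx : x0 ≤ R := le_trans (le_trans (le_max_left _ _) (le_max_left _ _)) hR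
  have hRR2 : R2 ≤ R := le_trans (le_trans (le_max_right _ _) (le_max_left _ _)) hR
  have hRR3 : R3 ≤ R := le_trans (le_trans (le_max_left _ _)
    (le_trans (le_max_left _ _) (le_max_right _ _))) hR
  have hRR4 : R4 ≤ R := le_trans (le_trans (le_max_right _ _)
    (le_trans (le_max_left _ _) (le_max_right _ _))) hR
  have hR3' : 3 ≤ R := le_trans (le_trans (le_max_right _ _) (le_max_right _ _)) hR
  have hR0 : 0 < R := by omega
  -- the prime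
  have hxK : x0 ≤ R ^ K0 := hRx.trans (Nat.le_self_pow hK0.ne' R)
  obtain ⟨p, hp, hp4, hpl, hpu⟩ := hx0 (R ^ K0) hxK
  have hpu' : p ≤ R ^ (3 * K0) := by
    rw [mul_comm, pow_mul]; exact hpu
  obtain ⟨a, J, ha, hp2p, -, hJ1, hJ2, hJ3, -, hJ5, hN⟩ := hR4 R hRR4 p hpl hpu'
  have hne : p ≠ p2 := by omega
  set n1 : ℕ := p2 ^ a with hn1
  have hn11 : 1 ≤ n1 := Nat.one_le_pow _ _ hp2.pos
  have hpn1 : ¬ p ∣ n1 := by
    intro h
    exact hne ((Nat.prime_dvd_prime_iff_eq hp hp2).1 (hp.dvd_of_dvd_pow h))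
  set n : ℕ := p * n1 with hn
  have hn0 : 1 ≤ n := Nat.one_le_iff_ne_zero.mpr (Nat.mul_ne_zero hp.ne_zero (by omega))
  have hp2' : p ≠ 2 := by
    rintro rfl
    norm_num at hp4
  -- the density
  obtain ⟨q0, hq0⟩ := sph_nonempty hp hp4 hp2 hp24 hne a
  have hρ1 : ((R : ℝ) ^ 3 * 2 ^ (4 * J))⁻¹ ≤ rho0 R J n :=
    rho0_ge hR0 (hPAR.1 R J hRe hJ1) hq0 (hR2 R J n hRR2 hRe hn0 hJ2 hJ3 q0 hq0)
  obtain ⟨N, hNok⟩ := hN (rho0 R J n) hρ1 (rho0_le_one R J n)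
  set ρ : ℝ := rho0 R J n with hρ
  -- the representation
  obtain ⟨d, Dm, hd, hDm, hDm1, hDms, hDO, hDT⟩ := Pool.Agent.BQ.H_main' μ (n ^ 80)
  have hδ : ∀ x : EuclideanSpace ℂ (Fin d),
      ‖∑ q ∈ sph n, Matrix.toEuclideanLin (Dm (usp q)) x‖ ≤
        ((R : ℝ) ^ 20)⁻¹ * Rp n * ‖x‖ := by
    refine hDO (sph n) (((R : ℝ) ^ 20)⁻¹ * Rp n) (by positivity) ?_
    intro l hl1 _ x
    refine (hPb a l p hl1 hp hp4 hne x).trans ?_
    refine mul_le_mul_of_nonneg_right ?_ (norm_nonneg x)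
    exact mul_le_mul_of_nonneg_right ha (Nat.cast_nonneg _)
  obtain ⟨s, s1, s2, s3, s4, s5⟩ := hR3 R J p n1 N hRR3 hRe hJ1 hp hp4 hpn1 hn11 hJ2 hJ3 K5 hNok d Dm
    hDm hDm1 hDms (by exact_mod_cast hd) hδ
  set B : ℝ := N * ρ / R ^ 15 with hB
  have hRr : (3 : ℝ) ≤ R := by exact_mod_cast hR3'
  have hRpos : (0 : ℝ) < R := by linarith
  have hNρ : 0 < (N : ℝ) * ρ := lt_of_lt_of_le (by positivity) hNok.D_ge
  have hNpos : (0 : ℝ) < N := by exact_mod_cast hNok.N_pos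
  have hρ0 : 0 < ρ := by
    by_contra hcon
    have : (N : ℝ) * ρ ≤ 0 := mul_nonpos_of_nonneg_of_nonpos hNpos.le (not_lt.mp hcon)
    linarith
  have hB0 : 0 < B := by positivity
  have hcardV : (Fintype.card (SG n s).V : ℝ) = N := by
    change ((Fintype.card (Fin N) : ℕ) : ℝ) = N
    rw [Fintype.card_fin]
  -- high degrees
  have hhigh : ∀ l, n ^ 80 < l → MBd (SG n s) (Pool.Agent.BQ.rho l) B := by
    intro l hl
    obtain ⟨m, hm1, hm2⟩ := hNok.hf l hl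
    refine hWb n (SG n s) p 150 (2 * (N * ρ)) hp hp2' (Dvd.intro n1 rfl) ?_ s1 s2 (by norm_num)
      (by have := hNok.deg_le; norm_num; linarith) hNok.deg_p l m ?_ hm1 B hB0.le ?_
    · rw [hn, pow_two]
      intro h
      exact hpn1 (Nat.dvd_of_mul_dvd_mul_left hp.pos h)
    · have : 1 ≤ n ^ 80 := Nat.one_le_pow _ _ hn0
      omega
    · rw [hcardV]
      push_cast
      refine le_trans (add_le_add le_rfl ?_) hm2
      refine div_le_div_of_nonneg_right ?_ (by positivity)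
      refine mul_le_mul_of_nonneg_right ?_ (by positivity)
      refine mul_le_mul_of_nonneg_right ?_ hNpos.le
      linarith
  have hT := hDT n (SG n s) B hB0.le s5 hhigh
  refine ⟨4 * ((3 * R * J + 1) + (3 * R * J + 1) ^ 2), by push_cast; exact hJ5, ?_⟩
  intro m hm hmR
  have hm0 : (0 : ℝ) < m := by exact_mod_cast hm
  refine Pool.Agent.BQ.geo_SG' (μ := μ) (p := p) (C := 150) (ε := 1 / 2400) (B := B) s hp hp2'
    (by omega) (Dvd.intro n1 rfl) ?_ ?_ (by norm_num) (by norm_num) s3 s1 hm hB0.le ?_ hT rfl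
  · rw [pow_two]
    intro h
    exact hpn1 (Nat.dvd_of_mul_dvd_mul_left hp.pos h)
  · -- n < labM ^ 2
    have h1 : (2 : ℝ) ^ J ≤ Pool.Agent.BQ.labM R J := by
      unfold Pool.Agent.BQ.labM
      have h2 : (1 : ℝ) ≤ 2 ^ J := one_le_pow₀ (by norm_num)
      nlinarith
    have h2 : ((n : ℝ) * R ^ 60) ≤ 4 ^ J := by exact_mod_cast hJ2
    have h3 : (4 : ℝ) ^ J = ((2 : ℝ) ^ J) ^ 2 := by
      rw [← pow_mul, mul_comm, pow_mul]; norm_num
    have h4 : ((2 : ℝ) ^ J) ^ 2 ≤ Pool.Agent.BQ.labM R J ^ 2 :=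
      pow_le_pow_left₀ (by positivity) h1 2
    have hnr : (1 : ℝ) ≤ n := by exact_mod_cast hn0
    have h5 : (1 : ℝ) < R ^ 60 := one_lt_pow₀ (by linarith) (by norm_num)
    have h6 : (n : ℝ) * 1 < n * R ^ 60 := mul_lt_mul_of_pos_left h5 (by linarith)
    linarith
  · intro Z hZ
    have hZ1 : (N : ℝ) / (R : ℝ) ^ (5 / 2 : ℝ) ≤ Z.card := by
      rw [div_le_iff₀ (by positivity)]
      calc (N : ℝ) ≤ 2 * m * Z.card := hZ
        _ ≤ (R : ℝ) ^ (5 / 2 : ℝ) * Z.card := mul_le_mul_of_nonneg_right hmR (Nat.cast_nonneg _)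
        _ = _ := mul_comm _ _
    have h1 := s4 Z hZ1
    have h2 : (((Z ×ˢ Z).filter fun e => normSq (kapL (s e.2 - s e.1)) = ((n : ℕ) : ℤ)).card : ℝ) =
        ((Finset.univ.filter fun e : Fin N × Fin N => e.1 ∈ Z ∧ e.2 ∈ Z ∧
          normSq (kapL (s e.2 - s e.1)) = n).card : ℝ) := by
      congr 2
      ext e
      simp only [Finset.mem_filter, Finset.mem_product, Finset.mem_univ, true_and, and_assoc]
    rw [h2] at h1
    refine lt_of_lt_of_le ?_ h1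
    -- numbers
    have h3 : (N : ℝ) ^ 2 ≤ 4 * (m : ℝ) ^ 2 * (Z.card : ℝ) ^ 2 := by
      calc (N : ℝ) ^ 2 ≤ (2 * m * Z.card) ^ 2 := pow_le_pow_left₀ hNpos.le hZ 2
        _ = _ := by ring
    have h4 : 16 * (m : ℝ) ^ 4 ≤ (R : ℝ) ^ 10 := by
      calc 16 * (m : ℝ) ^ 4 = (2 * m) ^ 4 := by ring
        _ ≤ ((R : ℝ) ^ (5 / 2 : ℝ)) ^ 4 := pow_le_pow_left₀ (by positivity) hmR 4
        _ = (R : ℝ) ^ 10 := by
          rw [← Real.rpow_natCast, ← Real.rpow_mul hRpos.le, ← Real.rpow_natCast]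
          norm_num
    have hz0 : (0 : ℝ) < Z.card := by
      by_contra hcon
      have h0 : (Z.card : ℝ) = 0 := le_antisymm (not_lt.mp hcon) (Nat.cast_nonneg _)
      rw [h0, mul_zero] at hZ
      linarith
    have h5 : 4 * (m : ℝ) ^ 2 * B * N = ρ * (4 * (m : ℝ) ^ 2 * (N : ℝ) ^ 2 / R ^ 15) := by
      rw [hB]; ring
    have h6 : (R : ℝ)⁻¹ * ρ * (Z.card : ℝ) ^ 2 = ρ * ((Z.card : ℝ) ^ 2 / R) := by
      ring
    rw [h5, h6]
    refine mul_lt_mul_of_pos_left ?_ hρ0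
    rw [div_lt_div_iff₀ (by positivity) hRpos]
    calc 4 * (m : ℝ) ^ 2 * (N : ℝ) ^ 2 * R
        ≤ 4 * (m : ℝ) ^ 2 * (4 * (m : ℝ) ^ 2 * (Z.card : ℝ) ^ 2) * R := by
          refine mul_le_mul_of_nonneg_right ?_ hRpos.le
          exact mul_le_mul_of_nonneg_left h3 (by positivity)
      _ = 16 * (m : ℝ) ^ 4 * ((Z.card : ℝ) ^ 2 * R) := by ring
      _ ≤ (R : ℝ) ^ 10 * ((Z.card : ℝ) ^ 2 * R) := mul_le_mul_of_nonneg_right h4 (by positivity)
      _ = (Z.card : ℝ) ^ 2 * R ^ 11 := by ring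
      _ < (Z.card : ℝ) ^ 2 * R ^ 15 := by
        refine mul_lt_mul_of_pos_left ?_ (by positivity)
        exact pow_lt_pow_right₀ (by linarith) (by norm_num)

/-- a partition into `m` pieces gives a partition into more pieces -/
theorem Z_split_mono {d m m' : ℕ} {K : Set (EuclideanSpace ℝ (Fin d))} (hK : K.Nontrivial)
    (hb : Bornology.IsBounded K) (hmm : m ≤ m') (h : Pool.Agent.BQ.SplitsInto K m) :
    Pool.Agent.BQ.SplitsInto K m' := by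
  obtain ⟨P, h1, h2, h3⟩ := h
  have hd : 0 < Metric.diam K := by
    obtain ⟨x, hx, y, hy, hxy⟩ := hK
    exact lt_of_lt_of_le (dist_pos.mpr hxy) (Metric.dist_le_diam_of_mem hb hx hy)
  refine ⟨fun i => if hi : (i : ℕ) < m then P ⟨i, hi⟩ else ∅, ?_, ?_, ?_⟩
  · ext x
    rw [← h1]
    simp only [Set.mem_iUnion]
    constructor
    · rintro ⟨i, hi⟩
      by_cases hm : (i : ℕ) < m
      · rw [dif_pos hm] at hi
        exact ⟨_, hi⟩
      · rw [dif_neg hm] at hi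
        exact absurd hi (Set.notMem_empty x)
    · rintro ⟨i, hi⟩
      refine ⟨⟨i, lt_of_lt_of_le i.2 hmm⟩, ?_⟩
      rw [dif_pos i.2]
      exact hi
  · intro i j hij
    by_cases hi : (i : ℕ) < m
    · by_cases hj : (j : ℕ) < m
      · simp only [dif_pos hi, dif_pos hj]
        refine h2 _ _ fun h => hij ?_
        have := congrArg Fin.val h
        exact Fin.ext this
      · simp only [dif_neg hj]
        exact Set.disjoint_empty _
    · simp only [dif_neg hi]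
      exact Set.empty_disjoint _
  · intro i
    by_cases hi : (i : ℕ) < m
    · simp only [dif_pos hi]
      exact h3 _
    · simp only [dif_neg hi, Metric.diam_empty]
      exact hd

/-- **The counterexample**, for all large dimensions and up to `d ^ 1.04` pieces. -/
theorem Z_main (hF1 : F.Stmt_F1) (hF2 : F.Stmt_F2) (hF3 : F.Stmt_F3) (hF4 : F.Stmt_F4)
    (hPAR : F.Stmt_PAR) (hP : BQP.PStmt) (hW : BQP.WStmt) :
    ∃ d1 : ℕ, 1 ≤ d1 ∧ ∀ d : ℕ, d1 ≤ d → ∃ K : Set (EuclideanSpace ℝ (Fin d)),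
      IsCompact K ∧ K.Nontrivial ∧ Pool.Agent.BQ.IsGeneral K (Pool.Agent.BQ.diameters K) ∧
      ∀ m : ℕ, (m : ℝ) ≤ (d : ℝ) ^ (1.04 : ℝ) → ¬ Pool.Agent.BQ.SplitsInto K m := by
  obtain ⟨R1, hR1⟩ := Z_core hF1 hF2 hF3 hF4 hPAR hP hW
  -- `R` = the even number next to `d ^ (1 / 2.1)`
  have hlim : Tendsto (fun d : ℕ => (d : ℝ) ^ (1 / 2.1 : ℝ)) atTop atTop :=
    (tendsto_rpow_atTop (by norm_num)).comp tendsto_natCast_atTop_atTop
  obtain ⟨d1, hd1⟩ := eventually_atTop.mp (hlim.eventually_ge_atTop (R1 + 2 ^ 20 : ℝ))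
  refine ⟨max d1 1, le_max_right _ _, fun d hd => ?_⟩
  have h1 := hd1 d ((le_max_left _ _).trans hd)
  have hd0 : (1 : ℝ) ≤ d := by exact_mod_cast (le_max_right _ _).trans hd
  have hdpos : (0 : ℝ) < d := by linarith
  set x : ℝ := (d : ℝ) ^ (1 / 2.1 : ℝ) with hx
  have hx0 : (2 : ℝ) ^ 20 ≤ x := by
    have : (0 : ℝ) ≤ R1 := Nat.cast_nonneg _
    linarith
  have hxpos : (0 : ℝ) < x := lt_of_lt_of_le (by positivity) hx0
  set r : ℕ := ⌊x / 2⌋₊ with hr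
  have hr1 : (r : ℝ) ≤ x / 2 := Nat.floor_le (by positivity)
  have hr2 : x / 2 < r + 1 := Nat.lt_floor_add_one _
  set R : ℕ := 2 * r with hR
  have hRr : (R : ℝ) = 2 * r := by rw [hR]; push_cast; ring
  have hRx : (R : ℝ) ≤ x := by rw [hRr]; linarith
  have hxR : x < R + 2 := by rw [hRr]; linarith
  have hRR1 : R1 ≤ R := by
    have h2 : (R1 : ℝ) < R + 2 + 1 := by linarith
    have h3 : (R1 : ℝ) + 2 ^ 20 < R + 2 := by linarith
    have h4 : (R1 : ℝ) ≤ R := by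
      have : (2 : ℝ) ≤ 2 ^ 20 := by norm_num
      linarith
    exact_mod_cast h4
  have hRpos : (0 : ℝ) < R := by
    have h3 : (2 : ℝ) ^ 20 < R + 2 := by linarith
    norm_num at h3
    linarith
  obtain ⟨d0, hd0', hK⟩ := hR1 R hRR1 ⟨r, by omega⟩
  have hd0d : d0 ≤ d := by
    have h2 : (d0 : ℝ) ≤ d := by
      calc (d0 : ℝ) ≤ (R : ℝ) ^ (2.1 : ℝ) := hd0'
        _ ≤ x ^ (2.1 : ℝ) := Real.rpow_le_rpow hRpos.le hRx (by norm_num)
        _ = d := by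
          rw [hx, ← Real.rpow_mul hdpos.le]
          norm_num
    exact_mod_cast h2
  set M : ℕ := ⌊(d : ℝ) ^ (1.04 : ℝ)⌋₊ with hM
  have hM0 : 0 < M := by
    rw [hM, Nat.floor_pos]
    exact Real.one_le_rpow hd0 (by norm_num)
  have hM1 : (M : ℝ) ≤ (d : ℝ) ^ (1.04 : ℝ) := Nat.floor_le (by positivity)
  have hdx : (d : ℝ) = x ^ (2.1 : ℝ) := by
    rw [hx, ← Real.rpow_mul hdpos.le]
    norm_num
  have hMR : 2 * (M : ℝ) ≤ (R : ℝ) ^ (5 / 2 : ℝ) := by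
    have h2 : (M : ℝ) ≤ x ^ (2.184 : ℝ) := by
      calc (M : ℝ) ≤ (d : ℝ) ^ (1.04 : ℝ) := hM1
        _ = (x ^ (2.1 : ℝ)) ^ (1.04 : ℝ) := by rw [← hdx]
        _ = x ^ (2.184 : ℝ) := by
          rw [← Real.rpow_mul hxpos.le]; norm_num
    have hxR2 : x / 2 ≤ R := by
      norm_num at hx0
      linarith
    have h3 : (x / 2) ^ (5 / 2 : ℝ) ≤ (R : ℝ) ^ (5 / 2 : ℝ) :=
      Real.rpow_le_rpow (by positivity) hxR2 (by norm_num)
    refine le_trans ?_ h3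
    rw [Real.div_rpow hxpos.le (by norm_num), le_div_iff₀ (by positivity)]
    have h4 : (2 : ℝ) ^ (5 / 2 : ℝ) ≤ 8 := by
      calc (2 : ℝ) ^ (5 / 2 : ℝ) ≤ (2 : ℝ) ^ (3 : ℝ) :=
            Real.rpow_le_rpow_of_exponent_le (by norm_num) (by norm_num)
        _ = 8 := by norm_num
    have h5 : (16 : ℝ) ≤ x ^ (0.316 : ℝ) := by
      calc (16 : ℝ) ≤ ((2 : ℝ) ^ (20 : ℝ)) ^ (0.316 : ℝ) := by
            rw [← Real.rpow_mul (by norm_num)]
            calc (16 : ℝ) = (2 : ℝ) ^ (4 : ℝ) := by norm_num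
              _ ≤ (2 : ℝ) ^ (20 * 0.316 : ℝ) :=
                Real.rpow_le_rpow_of_exponent_le (by norm_num) (by norm_num)
        _ ≤ x ^ (0.316 : ℝ) := by
          refine Real.rpow_le_rpow (by positivity) ?_ (by norm_num)
          have : (2 : ℝ) ^ (20 : ℝ) = 2 ^ 20 := by norm_num
          rw [this]; exact hx0
    calc 2 * (M : ℝ) * 2 ^ (5 / 2 : ℝ) ≤ 2 * x ^ (2.184 : ℝ) * 8 := by
          refine mul_le_mul ?_ h4 (by positivity) (by positivity)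
          linarith
      _ = x ^ (2.184 : ℝ) * 16 := by ring
      _ ≤ x ^ (2.184 : ℝ) * x ^ (0.316 : ℝ) := mul_le_mul_of_nonneg_left h5 (by positivity)
      _ = x ^ (5 / 2 : ℝ) := by
        rw [← Real.rpow_add hxpos]; norm_num
  obtain ⟨K, k1, k2, k3, k4⟩ := hK M hM0 hMR
  obtain ⟨K', k1', k2', k3', k4'⟩ := Pool.Agent.BQ.exists_larger hd0d k1 k2 k3 k4
  refine ⟨K', k1', k2', k3', fun m hm hs => k4' ?_⟩
  refine Z_split_mono k2' k1'.isBounded ?_ hs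
  rw [hM]
  exact Nat.le_floor hm

end BQA
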