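import Mathlib
import Pool.Agent.BQ.Z_Main
import Pool.Agent.BQ.P_Thm
import Pool.Agent.BQ.F_INV
import Pool.Agent.BQ.F_PH
import Pool.Agent.BQ.F_DJ
import Pool.Agent.BQ.F_SM
import Pool.Agent.BQ.F_PAR
import Pool.Agent.BQ.F_RES
import Pool.Agent.BQ.F_LOW
import Pool.Agent.BQ.F_F1
import Pool.Agent.BQ.F_F3
import Pool.Agent.BQ.F_F4
import Pool.Agent.BQ.F_CLS
import Pool.Agent.BQ.F_SHF
import Pool.Agent.BQ.F_NUM
import Pool.Agent.BQ.F_Sw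
import Pool.Agent.BQ.F_UP
import Pool.Agent.BQ.F_LIP

/-!
# BQ: the counterexample, all blocks
-/

namespace BQA

open Pool.Agent.BQ

/-- The final theorem of the project: in every large dimension `d` there is a compact set, general
with respect to its diameters, which does not split into `d ^ 1.04` sets of smaller diameter. -/
theorem Z_all :
    ∃ d1 : ℕ, 1 ≤ d1 ∧ ∀ d : ℕ, d1 ≤ d → ∃ K : Set (EuclideanSpace ℝ (Fin d)),
      IsCompact K ∧ K.Nontrivial ∧ IsGeneral K (diameters K) ∧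
        ∀ m : ℕ, (m : ℝ) ≤ (d : ℝ) ^ (1.04 : ℝ) → ¬ SplitsInto K m := by
  have hLOW : F.Stmt_LOW := F.F_LOW F.F_INV F.F_PH F.F_DJ
  have hLIP : F.Stmt_LIP := F.F_LIP F.F_INV F.F_PH F.F_DJ F.F_SM F.F_PAR
  have hUP : F.Stmt_UP := F.F_UP F.F_INV (F.F_CLS F.F_PH) (F.F_SHF F.F_PAR) F.F_NUM
    (F.F_SUMW F.F_DJ F.F_SM)
  exact Z_main (F.F_F1 hLIP hLOW) (F.F_F2 hLIP hLOW) (F.F_F3 hLIP hLOW F.F_PAR F.F_RES)
    (F.F_F4 hUP hLIP hLOW F.F_PAR) F.F_PAR BQP.P_main BQP.W_stmt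

end BQA
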